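import Pool.Agent.H531.IX.Stm3

set_option autoImplicit false

/-!
# AEF: the almost sure event for MP_04e9b2 (helper178 for helper531)
-/

open Finset MeasureTheory ProbabilityTheory Filter Topology

namespace Pool.Agent.H531.IX

open Pool.Agent.T2H32.BF (Model z0 V)
open Pool.Agent.H559.BS (Limit)
open Pool.Agent.H559.HY (OK WW Cut)
open Pool.Agent.T2H32.GB (C2)

namespace AEFN

/-- `RS` depends on few coordinates. -/
theorem RS_congr (W : ℕ → ℕ) (X : ℕ) (b b' : ℕ → ℕ) (h : ∀ q ≤ z0 X, b q = b' q) (v : ℕ)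
    (hv : v ≤ X) : v ∈ RS z0 W b ↔ v ∈ RS z0 W b' := by
  have hz : z0 v ≤ z0 X := Pool.Agent.T2H32.BF.z0_mono hv
  have key : Sv W (z0 v) b v ↔ Sv W (z0 v) b' v := by
    unfold Sv
    refine forall_congr' fun q => forall_congr' fun hq => forall_congr' fun _ => ?_
    rw [h q (hq.trans hz)]
  unfold RS
  simp only [Set.mem_ofPred_eq, key]

theorem pin_congr (A A' : Set ℕ) (Z : ℕ) (h : ∀ v ≤ Z, v ∈ A ↔ v ∈ A') (q : ℕ) (hq : q ≤ Z) :
    pin A q = pin A' q := by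
  unfold pin
  congr 1
  ext v
  simp only [Set.mem_inter_iff, Set.mem_Icc]
  constructor
  · rintro ⟨h1, h2⟩
    exact ⟨(h v (h2.2.trans hq)).1 h1, h2⟩
  · rintro ⟨h1, h2⟩
    exact ⟨(h v (h2.2.trans hq)).2 h1, h2⟩

theorem TF_sub (A A' : Set ℕ) (δ κ : ℝ) (n Z : ℕ) (h : ∀ v ≤ Z, v ∈ A ↔ v ∈ A') :
    TF A δ κ n Z ⊆ TF A' δ κ n Z := by
  rintro q ⟨h1, h2, h3, h4, h5, t, h6, h7, h8, h9⟩
  have hq := pin_congr A A' Z h q h2
  have ht := pin_congr A A' Z h t (by omega)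
  refine ⟨(h q h2).1 h1, h2, ?_, ?_, ?_, t, (h t (by omega)).1 h6, h7, (h _ h7).1 h8, ?_⟩
  · rw [← hq]; exact h3
  · rw [← hq]; exact h4
  · rw [← hq]; exact h5
  · rw [← hq, ← ht]; exact h9

theorem TF_congr (A A' : Set ℕ) (δ κ : ℝ) (n Z : ℕ) (h : ∀ v ≤ Z, v ∈ A ↔ v ∈ A') :
    TF A δ κ n Z = TF A' δ κ n Z :=
  Set.Subset.antisymm (TF_sub A A' δ κ n Z h) (TF_sub A' A δ κ n Z fun v hv => (h v hv).symm)

theorem cl_bounds (X : ℕ) (t : ℝ) : (X : ℝ) ^ (-(0.001 : ℝ)) ≤ cl X t ∧ cl X t ≤ 1 := by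
  unfold cl
  refine ⟨le_max_left _ _, max_le ?_ (min_le_right _ _)⟩
  rcases Nat.eq_zero_or_pos X with h | h
  · rw [h, Nat.cast_zero, Real.zero_rpow (by norm_num)]
    exact zero_le_one
  · exact Real.rpow_le_one_of_one_le_of_nonpos (by exact_mod_cast h) (by norm_num)

end AEFN

theorem aef : S_AEF := by
  intro hAEL hSMALL c hc Ω _ P a hM
  have hOK : ∀ᵐ ω ∂P, OK z0 (WW c) (fun q => a q ω) :=
    Pool.Agent.H559.HY.ae_OK hM z0 (WW c)
      ⟨Pool.Agent.T2H32.BF.z0_mono, Pool.Agent.T2H32.BF.z0_lim⟩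
      (Pool.Agent.H559.HY.cut_WW c hc)
  have hLaw : ∀ᵐ ω ∂P, ∀ (δ κ r : ℚ) (k : ℕ), 0 < δ → 0 < κ → 0 < r →
      Law (WW c) {0, 2} 2 (1 / ((k : ℝ) + 1)) (fun _ _ _ => Set.univ)
        (fun n X b _ => if ZF n ≤ X then TF (RS z0 (WW c) b) δ κ n (ZF n) else ∅)
        (fun n X _ => cl X (r / Real.log n ^ 2)) (fun q => a q ω) := by
    simp only [ae_all_iff]
    intro δ κ r k hδ hκ hr
    obtain ⟨h1, h2, -⟩ := hSMALL c (by linarith)
    refine hAEL (WW c) {0, 2} 2 (1 / ((k : ℝ) + 1)) (fun _ _ _ => Set.univ)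
      (fun n X b _ => if ZF n ≤ X then TF (RS z0 (WW c) b) δ κ n (ZF n) else ∅)
      (fun n X _ => cl X (r / Real.log n ^ 2)) h1 h2 (by positivity) ?_ ?_ ?_ Ω P a hM
    · rw [div_le_one (by positivity)]
      have : (0 : ℝ) ≤ k := Nat.cast_nonneg k
      linarith
    · intro n X b b' hb
      refine ⟨rfl, ?_, rfl⟩
      funext p
      by_cases h : ZF n ≤ X
      · simp only [if_pos h]
        exact AEFN.TF_congr _ _ _ _ _ _ fun v hv =>
          AEFN.RS_congr (WW c) X b b' hb v (hv.trans h)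
      · simp only [if_neg h]
    · intro n X b
      exact AEFN.cl_bounds X _
  filter_upwards [hOK, hLaw] with ω h1 h2
  exact ⟨h1, h2⟩

end Pool.Agent.H531.IX
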