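import Pool.Agent.H531.IX.Stm

set_option autoImplicit false

/-!
# The index law almost surely (Borel–Cantelli)
-/

open Finset MeasureTheory ProbabilityTheory Filter Topology

namespace Pool.Agent.H531.IX

open Pool.Agent.T2H31.HV (Pt Ev Dep)
open Pool.Agent.T2H32.BF (Model z0 V)

namespace AELN

/-- the bound for the probabilities is summable -/
lemma summ (A : ℕ) : Summable (fun X : ℕ =>
    (((X : ℝ) ^ A + 1) * ((X : ℝ) + 1)) * (12 * Real.exp (-(X : ℝ) ^ (0.4 : ℝ)))) := by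
  set k : ℕ := 3 * (A + 3) with hk
  have h2 : Summable (fun X : ℕ => (48 * (k.factorial : ℝ)) * (1 / (X : ℝ) ^ 2)) :=
    (Real.summable_one_div_nat_pow.2 (by norm_num)).mul_left _
  refine Summable.of_norm_bounded_eventually_nat h2 ?_
  filter_upwards [eventually_ge_atTop 1] with X hX
  have hX1 : (1 : ℝ) ≤ X := by exact_mod_cast hX
  have hX0 : (0 : ℝ) < X := by linarith
  have hy0 : (0 : ℝ) < (X : ℝ) ^ (0.4 : ℝ) := Real.rpow_pos_of_pos hX0 _
  have hfac : (0 : ℝ) < (k.factorial : ℝ) := by exact_mod_cast Nat.factorial_pos k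
  have hexp : Real.exp (-(X : ℝ) ^ (0.4 : ℝ)) ≤ (k.factorial : ℝ) / (X : ℝ) ^ (A + 3) := by
    have h := Real.pow_div_factorial_le_exp ((X : ℝ) ^ (0.4 : ℝ)) hy0.le k
    have hpow : (X : ℝ) ^ (A + 3) ≤ ((X : ℝ) ^ (0.4 : ℝ)) ^ k := by
      rw [← Real.rpow_natCast ((X : ℝ) ^ (0.4 : ℝ)) k, ← Real.rpow_mul hX0.le, ← Real.rpow_natCast (X : ℝ) (A + 3)]
      refine Real.rpow_le_rpow_of_exponent_le hX1 ?_
      rw [hk]
      push_cast
      have hA : (0 : ℝ) ≤ A := Nat.cast_nonneg A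
      linarith
    have hXp : (0 : ℝ) < (X : ℝ) ^ (A + 3) := by positivity
    rw [Real.exp_neg, inv_le_comm₀ (Real.exp_pos _) (by positivity), inv_div]
    refine le_trans ?_ h
    exact div_le_div_of_nonneg_right hpow hfac.le
  have hXA : (1 : ℝ) ≤ (X : ℝ) ^ A := one_le_pow₀ hX1
  rw [Real.norm_of_nonneg (by positivity)]
  calc (((X : ℝ) ^ A + 1) * ((X : ℝ) + 1)) * (12 * Real.exp (-(X : ℝ) ^ (0.4 : ℝ)))
      ≤ ((2 * (X : ℝ) ^ A) * (2 * (X : ℝ))) * (12 * ((k.factorial : ℝ) / (X : ℝ) ^ (A + 3))) := by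
        have h1 : (X : ℝ) ^ A + 1 ≤ 2 * (X : ℝ) ^ A := by linarith
        have h3 : (X : ℝ) + 1 ≤ 2 * X := by linarith
        gcongr
    _ = (48 * (k.factorial : ℝ)) * (1 / (X : ℝ) ^ 2) := by
        have hne : (X : ℝ) ≠ 0 := hX0.ne'
        have hsp : (X : ℝ) ^ (A + 3) = (X : ℝ) ^ A * X * (X : ℝ) ^ 2 := by ring
        rw [hsp]
        field_simp
        ring

/-- Borel–Cantelli with bounds which hold for large indices -/
lemma bc {Ω : Type} [MeasurableSpace Ω] (P : Measure Ω) [IsProbabilityMeasure P] (s : ℕ → Set Ω) (f : ℕ → ℝ)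
    (hf : Summable f) (h : ∀ᶠ X in atTop, P.real (s X) ≤ f X) :
    ∀ᵐ ω ∂P, ∀ᶠ X in atTop, ω ∉ s X := by
  obtain ⟨X0, hX0⟩ := eventually_atTop.1 h
  have hf' : Summable (fun X => f (X + X0)) := (summable_nat_add_iff X0).2 hf
  have hne : ∑' X, P (s (X + X0)) ≠ ⊤ := by
    refine ne_top_of_le_ne_top hf'.tsum_ofReal_ne_top ?_
    refine ENNReal.tsum_le_tsum fun X => ?_
    rw [← ofReal_measureReal (μ := P) (s := s (X + X0)) (measure_ne_top P _)]
    exact ENNReal.ofReal_le_ofReal (hX0 _ (Nat.le_add_left _ _))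
  filter_upwards [ae_eventually_notMem hne] with ω hω
  obtain ⟨N, hN⟩ := eventually_atTop.1 hω
  refine eventually_atTop.2 ⟨N + X0, fun X hX => ?_⟩
  have := hN (X - X0) (by omega)
  rwa [Nat.sub_add_cancel (by omega)] at this

/-- the union bound -/
lemma ub {Ω : Type} [MeasurableSpace Ω] (P : Measure Ω) [IsProbabilityMeasure P] (E1 E2 : ℕ → ℕ → Set Ω) (X A : ℕ)
    (e : ℝ)
    (h : ∀ n X2, X ≤ X2 → X2 ≤ 2 * X → P.real (E1 n X2) ≤ 6 * e ∧ P.real (E2 n X2) ≤ 6 * e) :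
    P.real (⋃ n ∈ range (X ^ A + 1), ⋃ X2 ∈ Icc X (2 * X), (E1 n X2 ∪ E2 n X2)) ≤
      (((X : ℝ) ^ A + 1) * ((X : ℝ) + 1)) * (12 * e) := by
  have h1 : ∀ n, P.real (⋃ X2 ∈ Icc X (2 * X), (E1 n X2 ∪ E2 n X2)) ≤ ((X : ℝ) + 1) * (12 * e) := by
    intro n
    refine le_trans (measureReal_biUnion_finset_le _ _) ?_
    refine le_trans (Finset.sum_le_card_nsmul _ _ (12 * e) ?_) ?_
    · intro X2 hX2
      rw [Finset.mem_Icc] at hX2
      obtain ⟨ha, hb⟩ := h n X2 hX2.1 hX2.2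
      have := measureReal_union_le (μ := P) (E1 n X2) (E2 n X2)
      linarith
    · rw [nsmul_eq_mul, Nat.card_Icc]
      have : ((2 * X + 1 - X : ℕ) : ℝ) = (X : ℝ) + 1 := by
        rw [show 2 * X + 1 - X = X + 1 by omega]; push_cast; ring
      rw [this]
  refine le_trans (measureReal_biUnion_finset_le _ _) ?_
  refine le_trans (Finset.sum_le_card_nsmul _ _ (((X : ℝ) + 1) * (12 * e)) fun n _ => h1 n) ?_
  rw [nsmul_eq_mul, Finset.card_range]
  push_cast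
  rw [mul_assoc]

end AELN

/-- **AEL** -/
theorem ael (hMAIN : S_MAIN) : S_AEL := by
  intro W H A ε B T τ hW hmono hε hε1 hdep hτ Ω _ P a hM
  have := Pool.Agent.T2H32.BF.prob hM
  have hE := hMAIN W H ε hW hmono hε hε1
  have hbc := AELN.bc P
    (fun X => ⋃ n ∈ range (X ^ A + 1), ⋃ X2 ∈ Icc X (2 * X),
      ({ω | CB z0 W X (fun q => a q ω) ∧
        (∀ p ∈ B n X (fun q => a q ω), X < p → p ≤ X2 → ∀ j, pin (RS z0 W fun q => a q ω) X ≤ j + hX X + 1 →
          j ≤ pin (RS z0 W fun q => a q ω) X2 + 3 * uX X →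
          ((T n X (fun q => a q ω) p ∩ Set.Ioc j (j + hX X)).ncard : ℝ) ≤ τ n X (fun q => a q ω) * hX X) ∧
        (1 + ε) * (τ n X (fun q => a q ω) * MT z0 W H (B n X fun q => a q ω) X X2 (fun q => a q ω)) +
            (X : ℝ) ^ (0.99 : ℝ) <
          NT z0 W H (B n X fun q => a q ω) (T n X fun q => a q ω) X X2 (fun q => a q ω)} ∪
      {ω | CB z0 W X (fun q => a q ω) ∧
        (∀ p ∈ B n X (fun q => a q ω), X < p → p ≤ X2 → ∀ j, pin (RS z0 W fun q => a q ω) X ≤ j + hX X + 1 →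
          j ≤ pin (RS z0 W fun q => a q ω) X2 + 3 * uX X →
          τ n X (fun q => a q ω) * hX X ≤ ((T n X (fun q => a q ω) p ∩ Set.Ioc j (j + hX X)).ncard : ℝ)) ∧
        (NT z0 W H (B n X fun q => a q ω) (T n X fun q => a q ω) X X2 (fun q => a q ω) : ℝ) <
          (1 - ε) * (τ n X (fun q => a q ω) * MT z0 W H (B n X fun q => a q ω) X X2 (fun q => a q ω)) -
            (X : ℝ) ^ (0.99 : ℝ)}))
    (fun X => (((X : ℝ) ^ A + 1) * ((X : ℝ) + 1)) * (12 * Real.exp (-(X : ℝ) ^ (0.4 : ℝ))))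
    (AELN.summ A) ?_
  · filter_upwards [hbc] with ω hω
    unfold Law
    filter_upwards [hω] with X hX
    intro n hn X2 h1 h2 hCB
    simp only [Set.mem_iUnion, not_exists, Finset.mem_range, Finset.mem_Icc] at hX
    have hX2 := hX n (by omega) X2 ⟨h1, h2⟩
    rw [Set.mem_union, not_or] at hX2
    obtain ⟨ha, hb⟩ := hX2
    refine ⟨fun hreg => ?_, fun hreg => ?_⟩
    · by_contra hcon
      exact ha ⟨hCB, hreg, not_le.1 hcon⟩
    · by_contra hcon
      exact hb ⟨hCB, hreg, not_le.1 hcon⟩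
  · filter_upwards [hE] with X hX
    refine AELN.ub P _ _ X A _ ?_
    intro n X2 h1 h2
    exact hX Ω P a hM X2 (B n X) (T n X) (τ n X) h1 h2 (hdep n X) (hτ n X)

end Pool.Agent.H531.IX
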