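import Pool.Agent.H531.IX.Stm7

set_option autoImplicit false

/-!
# The index law for sparse sets almost surely (Borel–Cantelli)
-/

open Finset MeasureTheory ProbabilityTheory Filter Topology

namespace Pool.Agent.H531.IX

open Pool.Agent.T2H31.HV (Pt Ev Dep)
open Pool.Agent.T2H32.BF (Model z0 V)

namespace AELPN

/-- the bound for the probabilities is summable -/
lemma summ : Summable (fun X : ℕ =>
    (((X ^ 2 + 1 : ℕ) : ℝ) * (((X ^ 2 + 1 : ℕ) : ℝ) * (((X + 1 : ℕ) : ℝ) * ((X : ℝ) *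
      (6 * Real.exp (-(X : ℝ) ^ (0.001 : ℝ)))))))) := by
  obtain ⟨k, hk⟩ : ∃ k : ℕ, k = 8000 := ⟨_, rfl⟩
  have h2 : Summable (fun X : ℕ => (48 * (k.factorial : ℝ)) * (1 / (X : ℝ) ^ 2)) :=
    (Real.summable_one_div_nat_pow.2 (by norm_num)).mul_left _
  refine Summable.of_norm_bounded_eventually_nat h2 ?_
  filter_upwards [eventually_ge_atTop 1] with X hX
  have hX1 : (1 : ℝ) ≤ X := by exact_mod_cast hX
  have hX0 : (0 : ℝ) < X := by linarith
  have hy0 : (0 : ℝ) < (X : ℝ) ^ (0.001 : ℝ) := Real.rpow_pos_of_pos hX0 _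
  have hfac : (0 : ℝ) < (k.factorial : ℝ) := by exact_mod_cast Nat.factorial_pos k
  have hexp : Real.exp (-(X : ℝ) ^ (0.001 : ℝ)) ≤ (k.factorial : ℝ) / (X : ℝ) ^ 8 := by
    have h := Real.pow_div_factorial_le_exp ((X : ℝ) ^ (0.001 : ℝ)) hy0.le k
    have hpow : (X : ℝ) ^ 8 ≤ ((X : ℝ) ^ (0.001 : ℝ)) ^ k := by
      rw [← Real.rpow_natCast ((X : ℝ) ^ (0.001 : ℝ)) k, ← Real.rpow_mul hX0.le,
        ← Real.rpow_natCast (X : ℝ) 8]
      refine Real.rpow_le_rpow_of_exponent_le hX1 ?_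
      rw [hk]
      norm_num
    have hXp : (0 : ℝ) < (X : ℝ) ^ 8 := by positivity
    rw [Real.exp_neg, inv_le_comm₀ (Real.exp_pos _) (by positivity), inv_div]
    refine le_trans ?_ h
    exact div_le_div_of_nonneg_right hpow hfac.le
  have hX2 : (1 : ℝ) ≤ (X : ℝ) ^ 2 := one_le_pow₀ hX1
  rw [Real.norm_of_nonneg (by positivity)]
  push_cast
  calc ((X : ℝ) ^ 2 + 1) * (((X : ℝ) ^ 2 + 1) * (((X : ℝ) + 1) * ((X : ℝ) *
        (6 * Real.exp (-(X : ℝ) ^ (0.001 : ℝ))))))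
      ≤ (2 * (X : ℝ) ^ 2) * ((2 * (X : ℝ) ^ 2) * ((2 * (X : ℝ)) * ((X : ℝ) *
        (6 * ((k.factorial : ℝ) / (X : ℝ) ^ 8))))) := by
        have h1 : (X : ℝ) ^ 2 + 1 ≤ 2 * (X : ℝ) ^ 2 := by linarith
        have h3 : (X : ℝ) + 1 ≤ 2 * X := by linarith
        gcongr
    _ = (48 * (k.factorial : ℝ)) * (1 / (X : ℝ) ^ 2) := by
        have hne : (X : ℝ) ≠ 0 := hX0.ne'
        field_simp
        ring

/-- Borel–Cantelli with bounds which hold for large indices -/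
lemma bc {Ω : Type} [MeasurableSpace Ω] (P : Measure Ω) [IsProbabilityMeasure P] (s : ℕ → Set Ω) (f : ℕ → ℝ)
    (hf : Summable f) (h : ∀ᶠ X in atTop, P.real (s X) ≤ f X) :
    ∀ᵐ ω ∂P, ∀ᶠ X in atTop, ω ∉ s X := by
  obtain ⟨X0, hX0⟩ := eventually_atTop.1 h
  have hf' : Summable (fun X => f (X + X0)) := (summable_nat_add_iff X0).2 hf
  have hne : ∑' X, P (s (X + X0)) ≠ ⊤ := by
    refine ne_top_of_le_ne_top hf'.tsum_ofReal_ne_top ?_
    refine ENNReal.tsum_le_tsum fun X => ?_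
    rw [← ofReal_measureReal (μ := P) (s := s (X + X0)) (measure_ne_top P _)]
    exact ENNReal.ofReal_le_ofReal (hX0 _ (Nat.le_add_left _ _))
  filter_upwards [ae_eventually_notMem hne] with ω hω
  obtain ⟨N, hN⟩ := eventually_atTop.1 hω
  refine eventually_atTop.2 ⟨N + X0, fun X hX => ?_⟩
  have := hN (X - X0) (by omega)
  rwa [Nat.sub_add_cancel (by omega)] at this

/-- the union bound over a finite set of naturals -/
lemma un {Ω : Type} [MeasurableSpace Ω] (P : Measure Ω) (s : Finset ℕ) (f : ℕ → Set Ω) (c : ℝ)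
    (h : ∀ b ∈ s, P.real (f b) ≤ c) : P.real (⋃ b ∈ s, f b) ≤ (s.card : ℝ) * c := by
  refine le_trans (measureReal_biUnion_finset_le _ _) ?_
  refine le_trans (Finset.sum_le_card_nsmul _ _ c h) ?_
  rw [nsmul_eq_mul]

/-- the union bound -/
lemma ub {Ω : Type} [MeasurableSpace Ω] (P : Measure Ω) (E : ℕ → ℕ → ℕ → ℕ → Set Ω) (X : ℕ) (e : ℝ)
    (h : ∀ n K X2 B, X ≤ X2 → X2 ≤ 2 * X → 1 ≤ B → P.real (E n K X2 B) ≤ e) :
    P.real (⋃ n ∈ range (X ^ 2 + 1), ⋃ K ∈ range (X ^ 2 + 1), ⋃ X2 ∈ Icc X (2 * X), ⋃ B ∈ Icc 1 X,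
      E n K X2 B) ≤
      (((X ^ 2 + 1 : ℕ) : ℝ) * (((X ^ 2 + 1 : ℕ) : ℝ) * (((X + 1 : ℕ) : ℝ) * ((X : ℝ) * e)))) := by
  have c1 : ((range (X ^ 2 + 1)).card : ℝ) = ((X ^ 2 + 1 : ℕ) : ℝ) := by rw [Finset.card_range]
  have c2 : ((Icc X (2 * X)).card : ℝ) = ((X + 1 : ℕ) : ℝ) := by
    rw [Nat.card_Icc]
    congr 1
    omega
  have c3 : ((Icc 1 X).card : ℝ) = (X : ℝ) := by
    rw [Nat.card_Icc]
    congr 1
  rw [← c1, ← c2, ← c3]
  refine un P _ _ _ fun n _ => un P _ _ _ fun K _ => un P _ _ _ fun X2 hX2 =>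
    un P _ _ _ fun B hB => ?_
  rw [Finset.mem_Icc] at hX2 hB
  exact h n K X2 B hX2.1 hX2.2 hB.1

/-- `0 ≤ r / log X ≤ 1` for large `X` -/
lemma ratio {r : ℝ} (hr : 0 < r) : ∀ᶠ X : ℕ in atTop, 0 ≤ r / Real.log X ∧ r / Real.log X ≤ 1 := by
  have h1 : Tendsto (fun X : ℕ => Real.log (X : ℝ)) atTop atTop :=
    Real.tendsto_log_atTop.comp tendsto_natCast_atTop_atTop
  filter_upwards [h1.eventually_ge_atTop r] with X hX
  have h2 : 0 < Real.log (X : ℝ) := hr.trans_le hX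
  exact ⟨by positivity, (div_le_one h2).2 hX⟩

end AELPN

/-- **AELP** -/
theorem aelp : S_AELP := by
  intro W hMAIN e r₁ r₂ hr₁ hr₂ Ω _ P a hM
  have := Pool.Agent.T2H32.BF.prob hM
  have hbc := AELPN.bc P
    (fun X => ⋃ n ∈ range (X ^ 2 + 1), ⋃ K ∈ range (X ^ 2 + 1), ⋃ X2 ∈ Icc X (2 * X), ⋃ B ∈ Icc 1 X,
      {ω | (∀ j, ((TP e n K).filter fun t => j < t ∧ t ≤ j + 2 * uX X).card ≤ B) ∧
        CB z0 W X (fun q => a q ω) ∧
        (∀ x, X ≤ x → x ≤ 3 * X → RWB W (r₁ / Real.log X) (r₂ / Real.log X) X x (fun q => a q ω)) ∧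
        (r₂ / Real.log X * NT z0 W {0} Set.univ (fun _ => (TP e n K : Set ℕ)) X X2 (fun q => a q ω) +
            (2 * (X : ℝ) ^ (-(0.004 : ℝ)) * (TP e n K).card + B * (X : ℝ) ^ (0.246 : ℝ)) <
            NT z0 W {0, 2} Set.univ (fun _ => (TP e n K : Set ℕ)) X X2 (fun q => a q ω) ∨
          (NT z0 W {0, 2} Set.univ (fun _ => (TP e n K : Set ℕ)) X X2 (fun q => a q ω) : ℝ) <
            r₁ / Real.log X * NT z0 W {0} Set.univ (fun _ => (TP e n K : Set ℕ)) X X2 (fun q => a q ω) -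
              (2 * (X : ℝ) ^ (-(0.004 : ℝ)) * (TP e n K).card + B * (X : ℝ) ^ (0.246 : ℝ)))})
    _ AELPN.summ ?_
  · filter_upwards [hbc] with ω hω
    unfold LawP
    filter_upwards [hω] with X hX
    intro n K X2 B hn hK h1 h2 hB1 hB2 hdep hCB hreg
    simp only [Set.mem_iUnion, not_exists, Finset.mem_range, Finset.mem_Icc] at hX
    have hX2 := hX n (by omega) K (by omega) X2 ⟨h1, h2⟩ B ⟨hB1, hB2⟩
    constructor
    · by_contra hcon
      exact hX2 ⟨hdep, hCB, hreg, Or.inl (not_le.1 hcon)⟩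
    · by_contra hcon
      exact hX2 ⟨hdep, hCB, hreg, Or.inr (not_le.1 hcon)⟩
  · filter_upwards [hMAIN, AELPN.ratio hr₁, AELPN.ratio hr₂] with X hX hq1 hq2
    refine AELPN.ub P _ X _ ?_
    intro n K X2 B h1 h2 hB
    by_cases hdep : ∀ j, ((TP e n K).filter fun t => j < t ∧ t ≤ j + 2 * uX X).card ≤ B
    · refine le_trans (measureReal_mono (fun ω hω => hω.2) (measure_ne_top P _)) ?_
      exact hX Ω P a hM X2 B (TP e n K) (r₁ / Real.log X) (r₂ / Real.log X) h1 h2 hB hdep hq1.1 hq1.2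
        hq2.1 hq2.2
    · have hempty : {ω | (∀ j, ((TP e n K).filter fun t => j < t ∧ t ≤ j + 2 * uX X).card ≤ B) ∧
        CB z0 W X (fun q => a q ω) ∧
        (∀ x, X ≤ x → x ≤ 3 * X → RWB W (r₁ / Real.log X) (r₂ / Real.log X) X x (fun q => a q ω)) ∧
        (r₂ / Real.log X * NT z0 W {0} Set.univ (fun _ => (TP e n K : Set ℕ)) X X2 (fun q => a q ω) +
            (2 * (X : ℝ) ^ (-(0.004 : ℝ)) * (TP e n K).card + B * (X : ℝ) ^ (0.246 : ℝ)) <
            NT z0 W {0, 2} Set.univ (fun _ => (TP e n K : Set ℕ)) X X2 (fun q => a q ω) ∨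
          (NT z0 W {0, 2} Set.univ (fun _ => (TP e n K : Set ℕ)) X X2 (fun q => a q ω) : ℝ) <
            r₁ / Real.log X * NT z0 W {0} Set.univ (fun _ => (TP e n K : Set ℕ)) X X2 (fun q => a q ω) -
              (2 * (X : ℝ) ^ (-(0.004 : ℝ)) * (TP e n K).card + B * (X : ℝ) ^ (0.246 : ℝ)))} =
          (∅ : Set Ω) := by
        ext ω
        simp only [Set.mem_ofPred_eq, Set.mem_empty_iff_false, iff_false]
        exact fun h => hdep h.1
      rw [hempty, measureReal_empty]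
      positivity

end Pool.Agent.H531.IX
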