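import Pool.Agent.H531.IX.Stm6

set_option autoImplicit false

open Finset MeasureTheory ProbabilityTheory Filter Topology

namespace Pool.Agent.H531.IX

open Pool.Agent.T2H32.BF (Model z0 V)
open Pool.Agent.H559.BS (Limit)
open Pool.Agent.H559.HY (OK WW Cut TG)

namespace AEQN

theorem RS_congr (z W : ℕ → ℕ) (b b' : ℕ → ℕ) (v : ℕ) (h : ∀ q ≤ z v, b q = b' q) :
    v ∈ RS z W b ↔ v ∈ RS z W b' := by
  have key : ∀ c c' : ℕ → ℕ, (∀ q ≤ z v, c q = c' q) → v ∈ RS z W c → v ∈ RS z W c' := by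
    intro c c' hc hv
    refine ⟨hv.1, ?_⟩
    intro q hq hp
    have := hv.2 q hq hp
    rw [hc q hq] at this
    exact this
  exact ⟨key b b' h, key b' b (fun q hq => (h q hq).symm)⟩

theorem TQ_congr (δ κ : ℝ) (hδ : 0 < δ) (W : ℕ → ℕ) (n X : ℕ) (hX : ⌈2 * δ * n⌉₊ ≤ X) (b b' : ℕ → ℕ)
    (h : ∀ q ≤ z0 X, b q = b' q) : TQ (RS (zd δ) W b) κ n = TQ (RS (zd δ) W b') κ n := by
  have hm : ∀ v : ℕ, v ≤ 2 * n → (v ∈ RS (zd δ) W b ↔ v ∈ RS (zd δ) W b') := by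
    intro v hv
    refine RS_congr _ _ _ _ _ fun q hq => h q (hq.trans ?_)
    unfold zd
    refine Pool.Agent.T2H32.BF.z0_mono ?_
    have h1 : δ * v ≤ 2 * δ * n := by
      have : (v : ℝ) ≤ 2 * n := by exact_mod_cast hv
      nlinarith
    calc ⌊δ * v⌋₊ ≤ ⌊2 * δ * n⌋₊ := Nat.floor_le_floor h1
      _ ≤ ⌈2 * δ * n⌉₊ := Nat.floor_le_ceil _
      _ ≤ X := hX
  ext m
  unfold TQ
  simp only [Set.mem_ofPred_eq]
  constructor
  · rintro ⟨q, s, h1, h2, h3, h4, h5, h6⟩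
    exact ⟨q, s, h1, h2, (hm _ (by omega)).mp h3, (hm _ (by omega)).mp h4, h5, h6⟩
  · rintro ⟨q, s, h1, h2, h3, h4, h5, h6⟩
    exact ⟨q, s, h1, h2, (hm _ (by omega)).mpr h3, (hm _ (by omega)).mpr h4, h5, h6⟩

theorem cl_mem (X : ℕ) (t : ℝ) : (X : ℝ) ^ (-(0.001 : ℝ)) ≤ cl X t ∧ cl X t ≤ 1 := by
  unfold cl
  refine ⟨le_max_left _ _, max_le ?_ (min_le_right _ _)⟩
  rcases Nat.eq_zero_or_pos X with hX | hX
  · subst hX
    rw [Nat.cast_zero, Real.zero_rpow (by norm_num)]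
    exact zero_le_one
  · exact Real.rpow_le_one_of_one_le_of_nonpos (by exact_mod_cast hX) (by norm_num)

theorem limit_z0 : Limit z0 := ⟨Pool.Agent.T2H32.BF.z0_mono, Pool.Agent.T2H32.BF.z0_lim⟩

end AEQN

open AEQN in
theorem aeq : S_AEQ := by
  intro hAEL hZD hSM c c₂ hc Ω _ P a hM
  have hW := Pool.Agent.H559.HY.cut_WW c hc
  obtain ⟨hs1, hs2, -⟩ := hSM c (by linarith)
  have h1 : ∀ᵐ ω ∂P, OK z0 (WW c) (fun q => a q ω) :=
    Pool.Agent.H559.HY.ae_OK hM z0 (WW c) limit_z0 hW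
  have h2 : ∀ᵐ ω ∂P, ∀ δ : ℚ, 0 < δ → δ ≤ 1 → OK (zd δ) (WW c) (fun q => a q ω) := by
    rw [ae_all_iff]
    intro δ
    by_cases hδ : 0 < δ ∧ δ ≤ 1
    · filter_upwards [Pool.Agent.H559.HY.ae_OK hM (zd δ) (WW c)
        (hZD δ (by exact_mod_cast hδ.1) (by exact_mod_cast hδ.2)) hW] with ω hω
      exact fun _ _ => hω
    · exact ae_of_all _ fun ω h h' => absurd ⟨h, h'⟩ hδ
  have h3 : ∀ᵐ ω ∂P, ∀ (δ κ r : ℚ) (k : ℕ), 0 < δ → δ ≤ 1 → 0 < κ → 0 < r →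
      Law (WW c) {0, 2} 2 (1 / ((k : ℝ) + 1)) (fun _ _ _ => Set.univ)
        (fun n X b _ => if ⌈2 * (δ : ℝ) * n⌉₊ ≤ X then TQ (RS (zd δ) (WW c) b) κ n else ∅)
        (fun n X _ => cl X (r * TG c₂ (2 * n) / Real.log n ^ 2)) (fun q => a q ω) := by
    rw [ae_all_iff]
    intro δ
    rw [ae_all_iff]
    intro κ
    rw [ae_all_iff]
    intro r
    rw [ae_all_iff]
    intro k
    by_cases hδ : 0 < δ
    · have hk : (0 : ℝ) < (k : ℝ) + 1 := by positivity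
      filter_upwards [hAEL (WW c) {0, 2} 2 (1 / ((k : ℝ) + 1)) (fun _ _ _ => Set.univ)
        (fun n X b _ => if ⌈2 * (δ : ℝ) * n⌉₊ ≤ X then TQ (RS (zd δ) (WW c) b) κ n else ∅)
        (fun n X _ => cl X (r * TG c₂ (2 * n) / Real.log n ^ 2)) hs1 hs2 (by positivity)
        (by
          rw [div_le_one hk]
          linarith [(Nat.cast_nonneg k : (0 : ℝ) ≤ k)])
        (by
          intro n X b b' hb
          refine ⟨rfl, ?_, rfl⟩
          funext _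
          by_cases hX : ⌈2 * (δ : ℝ) * n⌉₊ ≤ X
          · rw [if_pos hX, if_pos hX]
            exact TQ_congr δ κ (by exact_mod_cast hδ) (WW c) n X hX b b' hb
          · rw [if_neg hX, if_neg hX])
        (fun n X b => cl_mem X _) Ω P a hM] with ω hω
      exact fun _ _ _ _ => hω
    · exact ae_of_all _ fun ω h => absurd h hδ
  filter_upwards [h1, h2, h3] with ω k1 k2 k3
  exact ⟨k1, k2, k3⟩

end Pool.Agent.H531.IX
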