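import Pool.Agent.H531.IX.Stm7

set_option autoImplicit false

/-!
# AVG: averaging over a regular set
-/

open Finset MeasureTheory ProbabilityTheory Filter Topology

namespace Pool.Agent.H531.IX

namespace AVGN

open Classical in
/-- the number of the elements of `D` in the window `[w, w + h - 1]` -/
noncomputable def cc (D : Set ℕ) (h w : ℕ) : ℕ := ((range h).filter fun i => w + i ∈ D).card

theorem cc_le (D : Set ℕ) (h w j : ℕ) (hw : ∀ i < h, w + i ∈ D → j < w + i ∧ w + i ≤ j + h) :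
    cc D h w ≤ (D ∩ Set.Ioc j (j + h)).ncard := by
  classical
  have h1 : ((((range h).filter fun i => w + i ∈ D).image (fun i => w + i) : Finset ℕ) : Set ℕ) ⊆
      D ∩ Set.Ioc j (j + h) := by
    intro v hv
    rw [Finset.mem_coe, Finset.mem_image] at hv
    obtain ⟨i, hi, rfl⟩ := hv
    rw [Finset.mem_filter, Finset.mem_range] at hi
    exact ⟨hi.2, hw i hi.1 hi.2⟩
  have h2 : (((range h).filter fun i => w + i ∈ D).image (fun i => w + i)).card = cc D h w := by
    rw [Finset.card_image_of_injective _ (add_right_injective w)]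
    unfold cc
    congr
  rw [← h2, ← Set.ncard_coe_finset]
  exact Set.ncard_le_ncard h1 ((Set.finite_Ioc _ _).subset Set.inter_subset_right)

theorem le_cc (D : Set ℕ) (h j : ℕ) : (D ∩ Set.Ioc j (j + h)).ncard ≤ cc D h (j + 1) := by
  classical
  have h1 : D ∩ Set.Ioc j (j + h) ⊆
      ((((range h).filter fun i => j + 1 + i ∈ D).image (fun i => j + 1 + i) : Finset ℕ) :
        Set ℕ) := by
    rintro v ⟨hv, hv1, hv2⟩
    rw [Finset.mem_coe, Finset.mem_image]
    refine ⟨v - (j + 1), ?_, by omega⟩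
    rw [Finset.mem_filter, Finset.mem_range]
    refine ⟨by omega, ?_⟩
    rwa [show j + 1 + (v - (j + 1)) = v by omega]
  have h2 : (((range h).filter fun i => j + 1 + i ∈ D).image (fun i => j + 1 + i)).card =
      cc D h (j + 1) := by
    rw [Finset.card_image_of_injective _ (add_right_injective (j + 1))]
    unfold cc
    congr
  rw [← h2, ← Set.ncard_coe_finset]
  exact Set.ncard_le_ncard h1 (Finset.finite_toSet _)

theorem cnt (S : Finset ℕ) (K h : ℕ) (hS : ∀ w ∈ S, w ≤ K ∧ K < w + h) : S.card ≤ h := by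
  have h1 : S.card ≤ (range h).card := by
    refine Finset.card_le_card_of_injOn (fun w => K - w) ?_ ?_
    · intro w hw
      have := hS w hw
      rw [Finset.mem_coe, Finset.mem_range]
      show K - w < h
      omega
    · intro w hw w' hw' hww
      have h2 := hS w hw
      have h3 := hS w' hw'
      have h4 : K - w = K - w' := hww
      omega
  rwa [Finset.card_range] at h1

open Classical in
/-- the sum with the start `s` -/
noncomputable def Gm (g : ℕ → ℝ) (D : Set ℕ) (K1 K2 s : ℕ) : ℝ :=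
  ∑ k ∈ (Ioc K1 K2).filter (fun k => s ≤ k ∧ k ∈ D), g (k - s)

theorem step {g : ℕ → ℝ} {D : Set ℕ} {ρ : ℝ} {K1 K2 : ℕ} (hg : ∀ a, 0 ≤ g a ∧ g a ≤ ρ)
    (hv : ∀ Z : Finset ℕ, ∑ a ∈ Z, |g a - g (a + 1)| ≤ 2 * ρ) (s : ℕ) :
    |Gm g D K1 K2 s - Gm g D K1 K2 (s + 1)| ≤ 3 * ρ := by
  classical
  have hρ : 0 ≤ ρ := (hg 0).1.trans (hg 0).2
  obtain ⟨E, hE⟩ : ∃ E : Finset ℕ, E = (Ioc K1 K2).filter (fun k => k ∈ D) := ⟨_, rfl⟩
  have hG : ∀ s, Gm g D K1 K2 s = ∑ k ∈ E, if s ≤ k then g (k - s) else 0 := by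
    intro s
    unfold Gm
    rw [hE, Finset.sum_filter, Finset.sum_filter]
    refine Finset.sum_congr rfl fun k _ => ?_
    by_cases h1 : k ∈ D <;> by_cases h2 : s ≤ k <;> simp [h1, h2]
  rw [hG, hG, ← Finset.sum_sub_distrib]
  refine (Finset.abs_sum_le_sum_abs _ _).trans ?_
  have h1 : ∀ k ∈ E, |(if s ≤ k then g (k - s) else 0) - (if s + 1 ≤ k then g (k - (s + 1)) else 0)| ≤
      (if k = s then ρ else 0) +
        (if s + 1 ≤ k then |g (k - (s + 1)) - g (k - (s + 1) + 1)| else 0) := by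
    intro k _
    rcases lt_trichotomy k s with hk | hk | hk
    · rw [if_neg (by omega), if_neg (by omega), if_neg (by omega), if_neg (by omega)]
      simp
    · rw [if_pos (by omega), if_neg (by omega), if_pos hk, if_neg (by omega), sub_zero, add_zero,
        abs_of_nonneg (hg _).1]
      exact (hg _).2
    · rw [if_pos (by omega), if_pos (by omega), if_neg (by omega), if_pos (by omega), zero_add,
        show k - s = k - (s + 1) + 1 by omega, abs_sub_comm]
  refine (Finset.sum_le_sum h1).trans ?_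
  rw [Finset.sum_add_distrib]
  have h2 : ∑ k ∈ E, (if k = s then ρ else 0) ≤ ρ := by
    rw [Finset.sum_ite_eq']
    split_ifs
    · exact le_refl _
    · exact hρ
  have h3 : ∑ k ∈ E, (if s + 1 ≤ k then |g (k - (s + 1)) - g (k - (s + 1) + 1)| else 0) ≤
      2 * ρ := by
    rw [← Finset.sum_filter]
    have h4 : ∑ k ∈ E.filter (fun k => s + 1 ≤ k), |g (k - (s + 1)) - g (k - (s + 1) + 1)| =
        ∑ a ∈ (E.filter (fun k => s + 1 ≤ k)).image (fun k => k - (s + 1)),
          |g a - g (a + 1)| := by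
      rw [Finset.sum_image]
      intro k hk k' hk' hkk
      rw [Finset.mem_coe, Finset.mem_filter] at hk hk'
      have h5 : k - (s + 1) = k' - (s + 1) := hkk
      omega
    rw [h4]
    exact hv _
  linarith

theorem steps {g : ℕ → ℝ} {D : Set ℕ} {ρ : ℝ} {K1 K2 : ℕ} (hg : ∀ a, 0 ≤ g a ∧ g a ≤ ρ)
    (hv : ∀ Z : Finset ℕ, ∑ a ∈ Z, |g a - g (a + 1)| ≤ 2 * ρ) (t i : ℕ) :
    |Gm g D K1 K2 t - Gm g D K1 K2 (t + i)| ≤ 3 * i * ρ := by
  induction i with
  | zero => simp
  | succ i ih =>
    have h1 := step (D := D) (K1 := K1) (K2 := K2) hg hv (t + i)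
    have h2 := abs_sub_le (Gm g D K1 K2 t) (Gm g D K1 K2 (t + i)) (Gm g D K1 K2 (t + (i + 1)))
    rw [← add_assoc] at h2 ⊢
    push_cast
    linarith

/-- the sum over the window -/
theorem total {g : ℕ → ℝ} {D : Set ℕ} {K1 K2 : ℕ} (hD : D ⊆ Set.Ioc K1 K2) (t h : ℕ) :
    ∑ i ∈ range h, Gm g D K1 K2 (t + i) = ∑ w ∈ Icc t K2, (cc D h w : ℝ) * g (w - t) := by
  classical
  have h1 : ∀ i, Gm g D K1 K2 (t + i) =
      ∑ w ∈ Icc t K2, if w + i ∈ D then g (w - t) else 0 := by
    intro i
    unfold Gm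
    rw [← Finset.sum_filter]
    refine Finset.sum_nbij' (fun k => k - i) (fun w => w + i) ?_ ?_ ?_ ?_ ?_
    · intro k hk
      rw [Finset.mem_filter, Finset.mem_Ioc] at hk
      obtain ⟨⟨hk1, hk2⟩, hk3, hk4⟩ := hk
      rw [Finset.mem_filter, Finset.mem_Icc]
      refine ⟨⟨by omega, by omega⟩, ?_⟩
      rwa [show k - i + i = k by omega]
    · intro w hw
      rw [Finset.mem_filter, Finset.mem_Icc] at hw
      obtain ⟨⟨hw1, hw2⟩, hw3⟩ := hw
      rw [Finset.mem_filter, Finset.mem_Ioc]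
      obtain ⟨h5, h6⟩ := hD hw3
      exact ⟨⟨h5, h6⟩, by omega, hw3⟩
    · intro k hk
      rw [Finset.mem_filter, Finset.mem_Ioc] at hk
      omega
    · intro w _
      omega
    · intro k hk
      rw [Finset.mem_filter, Finset.mem_Ioc] at hk
      congr 1
      omega
  rw [Finset.sum_congr rfl fun i _ => h1 i, Finset.sum_comm]
  refine Finset.sum_congr rfl fun w _ => ?_
  unfold cc
  rw [← Finset.sum_filter, Finset.sum_const, nsmul_eq_mul]

end AVGN

open AVGN in
theorem avg : S_AVG := by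
  classical
  intro g D ρ τ h K1 K2 t M hh hK hg _ hv hτ0 hτ1 hD
  have hρ : 0 ≤ ρ := (hg 0).1.trans (hg 0).2
  have hh0 : (0 : ℝ) < h := by exact_mod_cast hh
  have hG : ∑ k ∈ (Ioc K1 K2).filter (fun k => t ≤ k ∧ k ∈ D), g (k - t) = Gm g D K1 K2 t := by
    unfold Gm
    congr
  obtain ⟨Sg, hSg⟩ : ∃ Sg : ℝ, Sg = ∑ k ∈ (Ioc K1 K2).filter (fun k => t ≤ k), g (k - t) :=
    ⟨_, rfl⟩
  have hS : ∑ w ∈ Icc t K2, (if K1 < w then g (w - t) else 0) = Sg := by
    rw [hSg, ← Finset.sum_filter]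
    congr 1
    ext w
    simp only [Finset.mem_filter, Finset.mem_Icc, Finset.mem_Ioc]
    constructor
    · rintro ⟨⟨h1, h2⟩, h3⟩
      exact ⟨⟨h3, h2⟩, h1⟩
    · rintro ⟨⟨h1, h2⟩, h3⟩
      exact ⟨⟨h3, h2⟩, h1⟩
  have htot := total (g := g) hD t h
  have hst : ∀ i ∈ range h, |Gm g D K1 K2 t - Gm g D K1 K2 (t + i)| ≤ 3 * h * ρ := by
    intro i hi
    refine (steps hg hv t i).trans ?_
    have h1 : (i : ℝ) ≤ h := by exact_mod_cast (Finset.mem_range.1 hi).le
    have h2 := mul_le_mul_of_nonneg_right h1 hρ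
    linarith
  have hsum1 : h * Gm g D K1 K2 t ≤ ∑ i ∈ range h, Gm g D K1 K2 (t + i) + h * (3 * h * ρ) := by
    have h1 : ∑ i ∈ range h, Gm g D K1 K2 t ≤
        ∑ i ∈ range h, (Gm g D K1 K2 (t + i) + 3 * h * ρ) :=
      Finset.sum_le_sum fun i hi => by
        have := (abs_le.1 (hst i hi)).2
        linarith
    rw [Finset.sum_const, Finset.sum_add_distrib, Finset.sum_const, Finset.card_range,
      nsmul_eq_mul, nsmul_eq_mul] at h1
    exact h1
  have hsum2 : ∑ i ∈ range h, Gm g D K1 K2 (t + i) ≤ h * Gm g D K1 K2 t + h * (3 * h * ρ) := by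
    have h1 : ∑ i ∈ range h, Gm g D K1 K2 (t + i) ≤
        ∑ i ∈ range h, (Gm g D K1 K2 t + 3 * h * ρ) :=
      Finset.sum_le_sum fun i hi => by
        have := (abs_le.1 (hst i hi)).1
        linarith
    rw [Finset.sum_const, Finset.card_range, nsmul_eq_mul] at h1
    linarith
  have hτρ : τ * (h * ρ) ≤ h * ρ := by
    have : 0 ≤ h * ρ := by positivity
    nlinarith
  constructor
  · intro hup
    rw [hG, ← hSg]
    have hc : ∀ w, t ≤ w → w ≤ K2 → (cc D h w : ℝ) ≤ τ * h := by
      intro w _ hw2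
      have h1 : ∃ j, K1 ≤ j ∧ j + h ≤ K2 ∧
          ∀ i < h, w + i ∈ D → j < w + i ∧ w + i ≤ j + h := by
        by_cases h2 : w ≤ K1
        · refine ⟨K1, le_rfl, hK, fun i hi hD' => ?_⟩
          have h3 := hD hD'
          rw [Set.mem_Ioc] at h3
          omega
        · by_cases h4 : w + h ≤ K2 + 1
          · refine ⟨w - 1, by omega, by omega, fun i hi _ => by omega⟩
          · refine ⟨K2 - h, by omega, by omega, fun i hi hD' => ?_⟩
            have h3 := hD hD'
            rw [Set.mem_Ioc] at h3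
            omega
      obtain ⟨j, hj1, hj2, hj3⟩ := h1
      have h2 : (cc D h w : ℝ) ≤ ((D ∩ Set.Ioc j (j + h)).ncard : ℝ) := by
        exact_mod_cast cc_le D h w j hj3
      exact h2.trans (hup j hj1 hj2)
    have hterm : ∀ w ∈ Icc t K2, (cc D h w : ℝ) * g (w - t) ≤
        τ * h * ((if K1 < w then g (w - t) else 0) +
          (if w ≤ K1 ∧ K1 < w + h then ρ else 0)) := by
      intro w hw
      rw [Finset.mem_Icc] at hw
      have h1 := hc w hw.1 hw.2
      obtain ⟨hg0, hg1⟩ := hg (w - t)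
      have h2 : 0 ≤ τ * h := by positivity
      by_cases h3 : K1 < w
      · rw [if_pos h3, if_neg (by omega), add_zero]
        exact mul_le_mul_of_nonneg_right h1 hg0
      · rw [if_neg h3, zero_add]
        by_cases h4 : K1 < w + h
        · rw [if_pos ⟨by omega, h4⟩]
          exact mul_le_mul h1 hg1 hg0 h2
        · rw [if_neg (by omega), mul_zero]
          have h5 : cc D h w = 0 := by
            unfold cc
            rw [Finset.card_eq_zero, Finset.filter_eq_empty_iff]
            intro i hi hD'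
            rw [Finset.mem_range] at hi
            have h6 := hD hD'
            rw [Set.mem_Ioc] at h6
            omega
          rw [h5, Nat.cast_zero, zero_mul]
    have hcount : ∑ w ∈ Icc t K2, (if w ≤ K1 ∧ K1 < w + h then ρ else 0) ≤ h * ρ := by
      rw [← Finset.sum_filter, Finset.sum_const, nsmul_eq_mul]
      refine mul_le_mul_of_nonneg_right ?_ hρ
      have h1 := cnt ((Icc t K2).filter fun w => w ≤ K1 ∧ K1 < w + h) K1 h fun w hw =>
        (Finset.mem_filter.1 hw).2
      exact_mod_cast h1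
    have h1 : ∑ w ∈ Icc t K2, (cc D h w : ℝ) * g (w - t) ≤ τ * h * (Sg + h * ρ) := by
      refine (Finset.sum_le_sum hterm).trans ?_
      rw [← Finset.mul_sum, Finset.sum_add_distrib, hS]
      exact mul_le_mul_of_nonneg_left (by linarith) (by positivity)
    rw [htot] at hsum1
    have h2 : h * Gm g D K1 K2 t ≤ h * (τ * Sg + 4 * h * ρ) := by
      have h3 := mul_le_mul_of_nonneg_left hτρ hh0.le
      linarith
    exact le_of_mul_le_mul_left h2 hh0
  · intro hlo
    rw [hG, ← hSg]
    have hterm : ∀ w ∈ Icc t K2, τ * h * ((if K1 < w then g (w - t) else 0) -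
          (if K1 < w ∧ K2 < w + h then ρ else 0)) ≤ (cc D h w : ℝ) * g (w - t) := by
      intro w hw
      rw [Finset.mem_Icc] at hw
      obtain ⟨hg0, hg1⟩ := hg (w - t)
      have h2 : 0 ≤ τ * h := by positivity
      have h0 : (0 : ℝ) ≤ (cc D h w : ℝ) * g (w - t) := mul_nonneg (Nat.cast_nonneg _) hg0
      by_cases h3 : K1 < w
      · rw [if_pos h3]
        by_cases h4 : K2 < w + h
        · rw [if_pos ⟨h3, h4⟩]
          exact (mul_nonpos_of_nonneg_of_nonpos h2 (by linarith)).trans h0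
        · rw [if_neg (by omega), sub_zero]
          refine mul_le_mul_of_nonneg_right ?_ hg0
          have h5 := hlo (w - 1) (by omega) (by omega)
          have h6 := le_cc D h (w - 1)
          rw [show w - 1 + 1 = w by omega] at h6
          have h7 : ((D ∩ Set.Ioc (w - 1) (w - 1 + h)).ncard : ℝ) ≤ (cc D h w : ℝ) := by
            exact_mod_cast h6
          exact h5.trans h7
      · rw [if_neg h3, if_neg (by omega), sub_zero, mul_zero]
        exact h0
    have hcount : ∑ w ∈ Icc t K2, (if K1 < w ∧ K2 < w + h then ρ else 0) ≤ h * ρ := by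
      rw [← Finset.sum_filter, Finset.sum_const, nsmul_eq_mul]
      refine mul_le_mul_of_nonneg_right ?_ hρ
      have h1 := cnt ((Icc t K2).filter fun w => K1 < w ∧ K2 < w + h) K2 h fun w hw => by
        rw [Finset.mem_filter, Finset.mem_Icc] at hw
        exact ⟨hw.1.2, hw.2.2⟩
      exact_mod_cast h1
    have h1 : τ * h * (Sg - h * ρ) ≤ ∑ w ∈ Icc t K2, (cc D h w : ℝ) * g (w - t) := by
      refine le_trans ?_ (Finset.sum_le_sum hterm)
      rw [← Finset.mul_sum, Finset.sum_sub_distrib, hS]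
      exact mul_le_mul_of_nonneg_left (by linarith) (by positivity)
    rw [htot] at hsum2
    have h2 : h * (τ * Sg - 4 * h * ρ) ≤ h * Gm g D K1 K2 t := by
      have h3 := mul_le_mul_of_nonneg_left hτρ hh0.le
      linarith
    exact le_of_mul_le_mul_left h2 hh0

end Pool.Agent.H531.IX
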