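import Pool.Agent.H531.IX.Stm

set_option autoImplicit false

/-! # Project IX, `S_AZ` -/

open Finset MeasureTheory ProbabilityTheory Filter Topology

namespace Pool.Agent.H531.IX

open Pool.Agent.T2H31.HV (Pt Ev Dep)
open Pool.Agent.T2H32.BF (Model z0 V)

namespace AZN

theorem Ev_mono' (S : Finset ℕ) {F G : (ℕ → ℕ) → ℝ} (h : ∀ b, F b ≤ G b) : Ev S F ≤ Ev S G := by
  unfold Ev
  apply mul_le_mul_of_nonneg_left (Finset.sum_le_sum fun b _ => h b)
  positivity

theorem Ev_mulc (S : Finset ℕ) (c : ℝ) (F : (ℕ → ℕ) → ℝ) :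
    Ev S (fun b => c * F b) = c * Ev S F := by
  unfold Ev
  rw [← Finset.mul_sum]
  ring

theorem Ev_addc (S : Finset ℕ) (hS : ∀ p ∈ S, 0 < p) (c : ℝ) (F : (ℕ → ℕ) → ℝ) :
    Ev S (fun b => c + F b) = c + Ev S F := by
  have h := Pool.Agent.T2H31.HV.Ev_const S hS c
  unfold Ev at h ⊢
  rw [Finset.sum_add_distrib, mul_add, h]

end AZN

open AZN in
theorem az (hEVU : S_EVU) : S_AZ := by
  classical
  intro E K u l g hE hpos hl hu hlu
  induction K with
  | zero =>
    intro _ _ _
    have h := Pool.Agent.T2H31.HV.Ev_const (E 0) (hpos 0) 1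
    simp only [Finset.range_zero, Finset.sum_empty, mul_zero, Real.exp_zero, Nat.cast_zero,
      zero_mul]
    rw [h]
  | succ K ih =>
    intro hdep hbd hmean
    have ih' := ih (fun k hk => hdep k (by omega)) (fun k hk => hbd k (by omega))
      (fun k hk => hmean k (by omega))
    set D := E (K + 1) \ E K with hD
    have hun : E K ∪ D = E (K + 1) := Finset.union_sdiff_of_subset (hE (Nat.le_succ K))
    have hdis : Disjoint (E K) D := Finset.disjoint_sdiff
    have hDpos : ∀ p ∈ D, 0 < p := fun p hp => hpos (K + 1) p (Finset.sdiff_subset hp)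
    rw [← hun, hEVU _ _ _ hdis]
    have hglue : ∀ k < K, ∀ b b', g k (gl D b b') = g k b := by
      intro k hk b b'
      apply hdep k (by omega)
      intro p hp
      unfold gl
      rw [if_neg]
      intro hpD
      have h1 : p ∈ E K := hE (show k + 1 ≤ K by omega) hp
      exact Finset.disjoint_left.1 hdis h1 hpD
    have hinner : ∀ b, Ev D (fun b' => Real.exp (l * ∑ k ∈ range (K + 1), g k (gl D b b'))) ≤
        Real.exp (l ^ 2 * u ^ 2) * Real.exp (l * ∑ k ∈ range K, g k b) := by
      intro b
      have e1 : ∀ b', Real.exp (l * ∑ k ∈ range (K + 1), g k (gl D b b')) =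
          Real.exp (l * ∑ k ∈ range K, g k b) * Real.exp (l * g K (gl D b b')) := by
        intro b'
        rw [Finset.sum_range_succ, mul_add, Real.exp_add]
        congr 3
        exact Finset.sum_congr rfl fun k hk => hglue k (Finset.mem_range.1 hk) b b'
      simp only [e1]
      rw [Ev_mulc, mul_comm]
      apply mul_le_mul_of_nonneg_right _ (Real.exp_pos _).le
      have e2 : ∀ b', Real.exp (l * g K (gl D b b')) ≤
          (1 + l ^ 2 * u ^ 2) + l * g K (gl D b b') := by
        intro b'
        have hb := hbd K (Nat.lt_succ_self K) (gl D b b')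
        have hx : |l * g K (gl D b b')| ≤ l * u := by
          rw [abs_mul, abs_of_nonneg hl]
          exact mul_le_mul_of_nonneg_left hb hl
        have h1 := Real.abs_exp_sub_one_sub_id_le (hx.trans hlu)
        have h2 := (abs_le.1 h1).2
        have h3 : (l * g K (gl D b b')) ^ 2 ≤ l ^ 2 * u ^ 2 := by
          rw [← mul_pow, ← sq_abs]
          exact pow_le_pow_left₀ (abs_nonneg _) hx 2
        linarith
      calc Ev D (fun b' => Real.exp (l * g K (gl D b b')))
          ≤ Ev D (fun b' => (1 + l ^ 2 * u ^ 2) + l * g K (gl D b b')) := Ev_mono' D e2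
        _ = (1 + l ^ 2 * u ^ 2) + l * Ev D (fun b' => g K (gl D b b')) := by
            rw [Ev_addc D hDpos, Ev_mulc]
        _ ≤ (1 + l ^ 2 * u ^ 2) + 0 := by
            have h4 := hmean K (Nat.lt_succ_self K) b
            have h5 : l * Ev D (fun b' => g K (gl D b b')) ≤ 0 :=
              mul_nonpos_of_nonneg_of_nonpos hl h4
            linarith
        _ ≤ Real.exp (l ^ 2 * u ^ 2) := by
            have := Real.add_one_le_exp (l ^ 2 * u ^ 2)
            linarith
    calc Ev (E K) (fun b => Ev D (fun b' =>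
          Real.exp (l * ∑ k ∈ range (K + 1), g k (gl D b b'))))
        ≤ Ev (E K) (fun b => Real.exp (l ^ 2 * u ^ 2) * Real.exp (l * ∑ k ∈ range K, g k b)) :=
          Ev_mono' _ hinner
      _ = Real.exp (l ^ 2 * u ^ 2) * Ev (E K) (fun b => Real.exp (l * ∑ k ∈ range K, g k b)) :=
          Ev_mulc _ _ _
      _ ≤ Real.exp (l ^ 2 * u ^ 2) * Real.exp (K * (l ^ 2 * u ^ 2)) :=
          mul_le_mul_of_nonneg_left ih' (Real.exp_pos _).le
      _ = _ := by
          rw [← Real.exp_add]
          congr 1
          push_cast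
          ring

end Pool.Agent.H531.IX
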