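import Pool.Agent.H531.IX.Stm

set_option autoImplicit false

/-!
# AZ3: Azuma for three classes of blocks
-/

open Finset MeasureTheory ProbabilityTheory Filter Topology

namespace Pool.Agent.H531.IX

open Pool.Agent.T2H31.HV (Pt Ev Dep)
open Pool.Agent.T2H32.BF (Model z0 V)

namespace AZ3N

/-- the three classes of indices -/
theorem split3 (h : ℕ → ℝ) (I : ℕ) : ∑ i ∈ Icc 1 I, h i =
    (∑ k ∈ range ((I + 2) / 3), h (3 * k + 1)) + (∑ k ∈ range ((I + 1) / 3), h (3 * k + 2)) +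
      ∑ k ∈ range (I / 3), h (3 * k + 3) := by
  induction I with
  | zero => simp
  | succ I ih =>
    rw [sum_Icc_succ_top (by omega), ih]
    obtain ⟨m, hm⟩ : ∃ m, I = 3 * m ∨ I = 3 * m + 1 ∨ I = 3 * m + 2 := ⟨I / 3, by omega⟩
    rcases hm with hm | hm | hm
    · subst hm
      have e1 : (3 * m + 2) / 3 = m := by omega
      have e2 : (3 * m + 1) / 3 = m := by omega
      have e3 : 3 * m / 3 = m := by omega
      have e4 : (3 * m + 1 + 2) / 3 = m + 1 := by omega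
      have e5 : (3 * m + 1 + 1) / 3 = m := by omega
      rw [e1, e2, e3, e4, sum_range_succ]
      ring
    · subst hm
      have e1 : (3 * m + 1 + 2) / 3 = m + 1 := by omega
      have e2 : (3 * m + 1 + 1) / 3 = m := by omega
      have e3 : (3 * m + 1) / 3 = m := by omega
      have e4 : (3 * m + 1 + 1 + 2) / 3 = m + 1 := by omega
      have e5 : (3 * m + 1 + 1 + 1) / 3 = m + 1 := by omega
      rw [e1, e2, e3, e4, sum_range_succ (fun k => h (3 * k + 2))]
      ring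
    · subst hm
      have e1 : (3 * m + 2 + 2) / 3 = m + 1 := by omega
      have e2 : (3 * m + 2 + 1) / 3 = m + 1 := by omega
      have e3 : (3 * m + 2) / 3 = m := by omega
      have e4 : (3 * m + 2 + 1 + 2) / 3 = m + 1 := by omega
      have e5 : (3 * m + 2 + 1 + 1) / 3 = m + 1 := by omega
      rw [e1, e2, e3, e4, sum_range_succ (fun k => h (3 * k + 3))]
      ring

/-- one class -/
theorem one (hAZP : S_AZP) (Ω : Type) [MeasurableSpace Ω] (P : Measure Ω) (a : ℕ → Ω → ℕ)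
    (hM : Model P a) (z : ℕ → ℕ) (hz : Monotone z) (X u I : ℕ) (t : ℝ) (g : ℕ → (ℕ → ℕ) → ℝ)
    (hu : 1 ≤ u) (huX : u ≤ X) (hI : I * u ≤ X) (ht : 0 ≤ t) (ht4 : t ≤ 4 * X)
    (hd : ∀ i, 1 ≤ i → i ≤ I → Dep ((Icc 1 (z (X + (i + 2) * u))).filter Nat.Prime) (g i))
    (hb : ∀ i, 1 ≤ i → i ≤ I → ∀ b, |g i b| ≤ 2 * u)
    (he : ∀ i, 1 ≤ i → i ≤ I → ∀ b, Ev (fr z (X + (i - 1) * u) (X + (i + 2) * u))
      (fun b' => g i (gl (fr z (X + (i - 1) * u) (X + (i + 2) * u)) b b')) ≤ 0)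
    (r K : ℕ) (hr : 1 ≤ r) (hK : ∀ k < K, 3 * k + r ≤ I) (hK3 : 3 * K ≤ I + 2) :
    P.real {ω | t ≤ ∑ k ∈ range K, g (3 * k + r) (fun q => a q ω)} ≤
      Real.exp (-(t ^ 2 / (24 * X * u))) := by
  have hu' : (1 : ℝ) ≤ u := by exact_mod_cast hu
  have hX' : (u : ℝ) ≤ X := by exact_mod_cast huX
  have hX0 : (0 : ℝ) < X := by linarith
  have hu0 : (0 : ℝ) < u := by linarith
  set E : ℕ → Finset ℕ := fun k => (Icc 1 (z (X + (3 * k + r - 1) * u))).filter Nat.Prime with hE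
  have hmono : Monotone E := by
    intro k k' hk
    simp only [hE]
    apply filter_subset_filter
    apply Icc_subset_Icc_right
    apply hz
    have h1 : 3 * k + r - 1 ≤ 3 * k' + r - 1 := by omega
    exact Nat.add_le_add_left (Nat.mul_le_mul_right u h1) X
  have hsd : ∀ k, E (k + 1) \ E k = fr z (X + (3 * k + r - 1) * u) (X + (3 * k + r + 2) * u) := by
    intro k
    ext p
    have e : 3 * (k + 1) + r - 1 = 3 * k + r + 2 := by omega
    simp only [hE, Finset.mem_sdiff, Finset.mem_filter, Finset.mem_Icc, fr, Finset.mem_Ioc, e]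
    constructor
    · rintro ⟨⟨⟨h1, h2⟩, h3⟩, h4⟩
      refine ⟨⟨?_, h2⟩, h3⟩
      by_contra h5
      exact h4 ⟨⟨h1, by omega⟩, h3⟩
    · rintro ⟨⟨h1, h2⟩, h3⟩
      exact ⟨⟨⟨h3.one_lt.le, h2⟩, h3⟩, fun h4 => by omega⟩
  have h := hAZP Ω P a hM E K (2 * u) (t / (8 * X * u)) t (fun k => g (3 * k + r)) hmono
    (fun k p hp => by
      simp only [hE, mem_filter] at hp
      exact hp.2) (by positivity) (by positivity)
    (by
      rw [div_mul_eq_mul_div, div_le_one (by positivity)]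
      nlinarith)
    (fun k hk => by
      have h1 := hd (3 * k + r) (by omega) (hK k hk)
      have e : 3 * (k + 1) + r - 1 = 3 * k + r + 2 := by omega
      simp only [hE, e]
      exact h1)
    (fun k hk b => hb (3 * k + r) (by omega) (hK k hk) b)
    (fun k hk b => by
      rw [hsd]
      exact he (3 * k + r) (by omega) (hK k hk) b)
  refine h.trans (Real.exp_le_exp.2 ?_)
  have hKu : (3 : ℝ) * (K * u) ≤ 3 * X := by
    have h1 : 3 * (K * u) ≤ 3 * X := by nlinarith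
    exact_mod_cast h1
  have e1 : (K : ℝ) * ((t / (8 * X * u)) ^ 2 * (2 * u) ^ 2) - t / (8 * X * u) * t =
      (K * u) * (t ^ 2 / (16 * X ^ 2 * u)) - t ^ 2 / (8 * X * u) := by
    field_simp
    ring
  have e2 : (K : ℝ) * u * (t ^ 2 / (16 * X ^ 2 * u)) ≤ X * (t ^ 2 / (16 * X ^ 2 * u)) :=
    mul_le_mul_of_nonneg_right (by linarith) (by positivity)
  have e3 : (X : ℝ) * (t ^ 2 / (16 * X ^ 2 * u)) = 3 / 2 * (t ^ 2 / (24 * X * u)) := by
    field_simp
    ring
  have e4 : t ^ 2 / (8 * X * u) = 3 * (t ^ 2 / (24 * X * u)) := by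
    field_simp
    ring
  have e5 : 0 ≤ t ^ 2 / (24 * X * u) := by positivity
  rw [e1, e4]
  rw [e3] at e2
  linarith

end AZ3N

theorem az3 (hAZP : S_AZP) : S_AZ3 := by
  intro Ω _ P a hM z hz X u I t g hu huX hI ht ht4 hd hb he
  have hP : IsProbabilityMeasure P := hM.independent.isProbabilityMeasure
  have h1 := AZ3N.one hAZP Ω P a hM z hz X u I t g hu huX hI ht ht4 hd hb he 1 ((I + 2) / 3)
    (by omega) (fun k hk => by omega) (by omega)
  have h2 := AZ3N.one hAZP Ω P a hM z hz X u I t g hu huX hI ht ht4 hd hb he 2 ((I + 1) / 3)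
    (by omega) (fun k hk => by omega) (by omega)
  have h3 := AZ3N.one hAZP Ω P a hM z hz X u I t g hu huX hI ht ht4 hd hb he 3 (I / 3)
    (by omega) (fun k hk => by omega) (by omega)
  set S1 := {ω | t ≤ ∑ k ∈ range ((I + 2) / 3), g (3 * k + 1) (fun q => a q ω)} with hS1
  set S2 := {ω | t ≤ ∑ k ∈ range ((I + 1) / 3), g (3 * k + 2) (fun q => a q ω)} with hS2
  set S3 := {ω | t ≤ ∑ k ∈ range (I / 3), g (3 * k + 3) (fun q => a q ω)} with hS3
  have hsub : {ω | 3 * t ≤ ∑ i ∈ Icc 1 I, g i (fun q => a q ω)} ⊆ (S1 ∪ S2) ∪ S3 := by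
    intro ω hω
    simp only [Set.mem_ofPred_eq] at hω
    rw [AZ3N.split3 (fun i => g i (fun q => a q ω)) I] at hω
    by_contra hcon
    simp only [Set.mem_union, hS1, hS2, hS3, Set.mem_ofPred_eq, not_or, not_le] at hcon
    obtain ⟨⟨c1, c2⟩, c3⟩ := hcon
    linarith
  calc P.real {ω | 3 * t ≤ ∑ i ∈ Icc 1 I, g i (fun q => a q ω)} ≤ P.real ((S1 ∪ S2) ∪ S3) :=
        measureReal_mono hsub
    _ ≤ P.real (S1 ∪ S2) + P.real S3 := measureReal_union_le _ _
    _ ≤ (P.real S1 + P.real S2) + P.real S3 := add_le_add (measureReal_union_le _ _) le_rfl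
    _ ≤ 3 * Real.exp (-(t ^ 2 / (24 * X * u))) := by linarith

end Pool.Agent.H531.IX
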