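import Pool.Agent.H531.IX.Stm

set_option autoImplicit false

/-! # Project IX, `S_AZP` -/

open Finset MeasureTheory ProbabilityTheory Filter Topology

namespace Pool.Agent.H531.IX

open Pool.Agent.T2H31.HV (Pt Ev Dep)
open Pool.Agent.T2H32.BF (Model z0 V)

theorem azp (hAZ : S_AZ) : S_AZP := by
  intro Ω _ P a hM E K u l t g hE hprime hl hu hlu hdep hbd hmean
  have hprob := Pool.Agent.T2H32.BF.prob hM
  have hAz := hAZ E K u l g hE (fun k p hp => (hprime k p hp).pos) hl hu hlu hdep hbd hmean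
  set F : (ℕ → ℕ) → ℝ := fun b => Real.exp (l * ∑ k ∈ range K, g k b) with hF
  have hDep : Dep (E K) F := by
    intro b b' h
    simp only [hF]
    congr 2
    refine Finset.sum_congr rfl fun k hk => ?_
    have hk' := Finset.mem_range.1 hk
    exact hdep k hk' b b' fun p hp => h p (hE (show k + 1 ≤ K by omega) hp)
  obtain ⟨hint, hval⟩ := Pool.Agent.T2H31.HV.T_TR Ω P a hM (E K) F (hprime K) hDep
  have hmk := mul_meas_ge_le_integral_of_nonneg (μ := P) (f := fun ω => F (fun q => a q ω))
    (Eventually.of_forall fun ω => (Real.exp_pos _).le) hint (Real.exp (l * t))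
  rw [hval] at hmk
  have hsub : {ω | t ≤ ∑ k ∈ range K, g k (fun q => a q ω)} ⊆
      {ω | Real.exp (l * t) ≤ F (fun q => a q ω)} := by
    intro ω hω
    simp only [Set.mem_ofPred_eq] at hω ⊢
    simp only [hF]
    exact Real.exp_le_exp.2 (mul_le_mul_of_nonneg_left hω hl)
  have h1 : P.real {ω | t ≤ ∑ k ∈ range K, g k (fun q => a q ω)} ≤
      P.real {ω | Real.exp (l * t) ≤ F (fun q => a q ω)} := measureReal_mono hsub
  have h2 : Real.exp (l * t) * P.real {ω | Real.exp (l * t) ≤ F (fun q => a q ω)} ≤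
      Real.exp (K * (l ^ 2 * u ^ 2)) := hmk.trans hAz
  rw [Real.exp_sub, le_div_iff₀ (Real.exp_pos _), mul_comm]
  exact (mul_le_mul_of_nonneg_left h1 (Real.exp_pos _).le).trans h2

end Pool.Agent.H531.IX
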