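import Pool.Agent.H531.IX.Stm5

set_option autoImplicit false

/-!
# BAS5: Goldbach in the windows (helper364, for project IX of helper531)
-/

open Finset MeasureTheory ProbabilityTheory Filter Topology

namespace Pool.Agent.H531.IX

open Pool.Agent.T2H32.BF (Model z0 V)
open Pool.Agent.H559.BS (Limit)
open Pool.Agent.H559.HY (OK WW Cut TG)
open Pool.Agent.T2H32.GB (C2)

namespace BAS5N

theorem pow_ev (r M : ℝ) (hr : 0 < r) : ∀ᶠ n : ℕ in atTop, M ≤ (n : ℝ) ^ r :=
  ((tendsto_rpow_atTop hr).comp tendsto_natCast_atTop_atTop).eventually_ge_atTop M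

theorem log_top : Tendsto (fun n : ℕ => Real.log n) atTop atTop :=
  Real.tendsto_log_atTop.comp tendsto_natCast_atTop_atTop

theorem loglog_ev (C : ℕ) (η : ℝ) (hη : 0 < η) :
    ∀ᶠ n : ℕ in atTop, C * Real.log (Real.log n) ≤ η * Real.log n := by
  have h := (Real.isLittleO_log_id_atTop.comp_tendsto log_top).bound
    (show (0 : ℝ) < η / (C + 1) by positivity)
  filter_upwards [h, log_top.eventually_ge_atTop 1] with n hn h1
  simp only [Function.comp_apply, Real.norm_eq_abs, id_eq] at hn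
  rw [abs_of_nonneg (by linarith : 0 ≤ Real.log n)] at hn
  have h2 : Real.log (Real.log n) ≤ η / (C + 1) * Real.log n := (le_abs_self _).trans hn
  have h3 : (0 : ℝ) ≤ Real.log (Real.log n) := Real.log_nonneg h1
  calc C * Real.log (Real.log n) ≤ (C + 1) * Real.log (Real.log n) := by linarith
    _ ≤ (C + 1) * (η / (C + 1) * Real.log n) := mul_le_mul_of_nonneg_left h2 (by positivity)
    _ = η * Real.log n := by field_simp

/-- the number of the representations -/
theorem gw_eq (A : Set ℕ) (n u y : ℕ) (h : u + y ≤ n) :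
    Pool.Agent.H559.SI.gw A (2 * n) u y = (G3 A A n u (u + y)).card := by
  unfold Pool.Agent.H559.SI.gw
  rw [← Set.ncard_coe_finset]
  congr 1
  ext p
  rw [Finset.mem_coe]
  unfold G3
  simp only [Finset.mem_filter, Finset.mem_Ioc]
  constructor
  · rintro ⟨h1, h2, h3, q, hq, hpq⟩
    have h4 : 2 * n - p ∈ A := by
      have : 2 * n - p = q := by omega
      rw [this]
      exact hq
    exact ⟨⟨h1, h2⟩, h3, h4⟩
  · rintro ⟨⟨h1, h2⟩, h3, h4⟩
    exact ⟨h1, h2, h3, 2 * n - p, h4, by omega⟩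

/-- the quotient -/
theorem quot {a x η ε : ℝ} (hη : 0 < η) (hη1 : η ≤ 1 / 4) (hη2 : 4 * η ≤ ε) (ha : |a - 1| ≤ η)
    (h1 : 1 - η ≤ x) (h2 : x ≤ 1 + η) : |a / x - 1| ≤ ε := by
  have hx : 0 < x := by linarith
  have e : a / x - 1 = (a - x) / x := by
    rw [sub_div, div_self hx.ne']
  obtain ⟨a1, a2⟩ := abs_le.1 ha
  rw [e, abs_div, abs_of_pos hx, div_le_iff₀ hx]
  have h3 : |a - x| ≤ 2 * η := abs_le.2 ⟨by linarith, by linarith⟩
  have h4 : 2 * η ≤ ε * x := by
    have h5 : ε * (3 / 4) ≤ ε * x := mul_le_mul_of_nonneg_left (by linarith) (by linarith)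
    linarith
  exact h3.trans h4

end BAS5N

open BAS5N in
/-- **BAS5** -/
theorem bas5 : S_BAS5 := by
  intro c c₂ hc hc₂ hlim b hb C ε hε
  obtain ⟨η, hη0, hη1, hη2⟩ : ∃ η : ℝ, 0 < η ∧ η ≤ 1 / 4 ∧ 4 * η ≤ ε := by
    refine ⟨min ε 1 / 4, by positivity, ?_, ?_⟩
    · have := min_le_right ε 1
      linarith
    · have := min_le_left ε 1
      linarith
  have hg := Pool.Agent.H559.SI.gshort z0 (WW c)
    ⟨Pool.Agent.T2H32.BF.z0_mono, Pool.Agent.T2H32.BF.z0_lim⟩ (Pool.Agent.H559.HY.cut_WW c hc)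
    b hb c₂ hc₂ hlim 0.9 η (by norm_num) hη0
  have h2n : Tendsto (fun n : ℕ => 2 * n) atTop atTop :=
    tendsto_id.const_mul_atTop' (by norm_num)
  filter_upwards [h2n.eventually hg, pow_ev 0.095 2 (by norm_num), loglog_ev C η hη0,
    log_top.eventually_ge_atTop (Real.log 2 / η), log_top.eventually_ge_atTop 1,
    eventually_ge_atTop 1] with n h1 h2 h3 h4 h5 h6 u y hu hy hyu huy
  have hn0 : (0 : ℝ) < n := by exact_mod_cast (by omega : 0 < n)
  have hL0 : 0 < Real.log n := by linarith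
  have hu0 : (0 : ℝ) < u := lt_of_lt_of_le (by positivity) hu
  have hδ : ((2 * n : ℕ) : ℝ) ^ (0.9 : ℝ) ≤ y := by
    refine le_trans ?_ hy
    have e1 : ((2 * n : ℕ) : ℝ) ^ (0.9 : ℝ) ≤ 2 * (n : ℝ) ^ (0.9 : ℝ) := by
      push_cast
      rw [Real.mul_rpow (by norm_num) hn0.le]
      refine mul_le_mul_of_nonneg_right ?_ (by positivity)
      calc (2 : ℝ) ^ (0.9 : ℝ) ≤ (2 : ℝ) ^ (1 : ℝ) :=
            Real.rpow_le_rpow_of_exponent_le (by norm_num) (by norm_num)
        _ = 2 := Real.rpow_one _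
    calc ((2 * n : ℕ) : ℝ) ^ (0.9 : ℝ) ≤ 2 * (n : ℝ) ^ (0.9 : ℝ) := e1
      _ ≤ (n : ℝ) ^ (0.095 : ℝ) * (n : ℝ) ^ (0.9 : ℝ) :=
          mul_le_mul_of_nonneg_right h2 (by positivity)
      _ = (n : ℝ) ^ (0.995 : ℝ) := by
          rw [← Real.rpow_add hn0]
          norm_num
  have h7 := h1 (even_two_mul n) u y hδ hyu (by omega)
  rw [gw_eq _ n u y huy] at h7
  -- the logarithms
  have l1 : (1 - η) * Real.log n ≤ Real.log u := by
    have e1 : Real.log ((n : ℝ) / Real.log n ^ C) ≤ Real.log u :=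
      Real.log_le_log (by positivity) hu
    rw [Real.log_div hn0.ne' (by positivity), Real.log_pow] at e1
    linarith
  have l2 : Real.log u ≤ Real.log n :=
    Real.log_le_log hu0 (by exact_mod_cast (by omega : u ≤ n))
  have l3 : Real.log n ≤ Real.log ((2 * n - u : ℕ) : ℝ) :=
    Real.log_le_log hn0 (by exact_mod_cast (by omega : n ≤ 2 * n - u))
  have l4 : Real.log ((2 * n - u : ℕ) : ℝ) ≤ (1 + η) * Real.log n := by
    have e1 : Real.log ((2 * n - u : ℕ) : ℝ) ≤ Real.log (2 * n) := by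
      refine Real.log_le_log (by exact_mod_cast (by omega : 0 < 2 * n - u)) ?_
      exact_mod_cast (by omega : 2 * n - u ≤ 2 * n)
    have e2 : Real.log (2 * n) = Real.log 2 + Real.log n :=
      Real.log_mul (by norm_num) hn0.ne'
    have e3 : Real.log 2 ≤ Real.log n * η := by
      rwa [div_le_iff₀ hη0] at h4
    linarith
  obtain ⟨x, hx⟩ : ∃ x : ℝ, x = Real.log u * Real.log ((2 * n - u : ℕ) : ℝ) / Real.log n ^ 2 :=
    ⟨_, rfl⟩
  have hlu : 0 ≤ Real.log u := le_trans (mul_nonneg (by linarith) hL0.le) l1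
  have x1 : 1 - η ≤ x := by
    rw [hx, le_div_iff₀ (by positivity)]
    calc (1 - η) * Real.log n ^ 2 = ((1 - η) * Real.log n) * Real.log n := by ring
      _ ≤ _ := mul_le_mul l1 l3 hL0.le hlu
  have x2 : x ≤ 1 + η := by
    rw [hx, div_le_iff₀ (by positivity)]
    calc Real.log u * Real.log ((2 * n - u : ℕ) : ℝ) ≤ Real.log n * ((1 + η) * Real.log n) :=
          mul_le_mul l2 l4 (hL0.le.trans l3) hL0.le
      _ = (1 + η) * Real.log n ^ 2 := by ring
  have h8 := quot hη0 hη1 hη2 h7 x1 x2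
  have hxp : 0 < Real.log u * Real.log ((2 * n - u : ℕ) : ℝ) := by
    have : 0 < x := by linarith
    rw [hx] at this
    by_contra hcon
    push Not at hcon
    have := div_nonpos_of_nonpos_of_nonneg hcon (sq_nonneg (Real.log n))
    linarith
  have e9 : ((G3 (RS z0 (WW c) b) (RS z0 (WW c) b) n u (u + y)).card : ℝ) * Real.log n ^ 2 /
      (y * TG c₂ (2 * n)) = ((G3 (RS z0 (WW c) b) (RS z0 (WW c) b) n u (u + y)).card : ℝ) *
      (Real.log u * Real.log ((2 * n - u : ℕ) : ℝ)) / (y * TG c₂ (2 * n)) / x := by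
    rw [hx]
    generalize ((G3 (RS z0 (WW c) b) (RS z0 (WW c) b) n u (u + y)).card : ℝ) = g
    generalize (y : ℝ) * TG c₂ (2 * n) = t
    rw [div_div_eq_mul_div]
    generalize Real.log u * Real.log ((2 * n - u : ℕ) : ℝ) = s at hxp ⊢
    rw [div_mul_eq_mul_div, div_div, mul_right_comm, mul_comm t s, mul_comm (g * _) s,
      mul_div_mul_left _ _ hxp.ne']
  rw [e9]
  exact h8

end Pool.Agent.H531.IX
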