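import Pool.Agent.H531.IX.Stm5

/-!
# BIJ5: representations as bijective images (project IX of helper531, part by helper981)
-/

set_option autoImplicit false

open Finset Filter Topology

namespace Pool.Agent.H531.IX

namespace BIJ5N

theorem mem_G3 (A B : Set ℕ) (n x y v : ℕ) :
    v ∈ G3 A B n x y ↔ (x < v ∧ v ≤ y) ∧ v ∈ A ∧ 2 * n - v ∈ B := by
  simp only [G3, Finset.mem_filter, Finset.mem_Ioc]

theorem it_facts (hN : S_NTH) (A : Set ℕ) (hA : A.Infinite) (h0 : 0 ∉ A) (i : ℕ) :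
    (∀ m, 1 ≤ m → (rk A)^[i + 1] m ∈ ra A i ∧ 1 ≤ (rk A)^[i + 1] m) ∧
    ∀ m m', 1 ≤ m → 1 ≤ m' → (rk A)^[i + 1] m = (rk A)^[i + 1] m' → m = m' := by
  obtain ⟨-, h2⟩ := hN A hA h0
  have hpos : ∀ m, 1 ≤ m → 1 ≤ rk A m := by
    intro m hm
    by_contra hlt
    have h3 : rk A m = 0 := by omega
    have h4 := (h2 m hm).1
    rw [h3] at h4
    exact h0 h4
  have hinj : ∀ m m', 1 ≤ m → 1 ≤ m' → rk A m = rk A m' → m = m' := by
    intro m m' hm hm' h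
    rw [← (h2 m hm).2, ← (h2 m' hm').2, h]
  induction i with
  | zero =>
    refine ⟨fun m hm => ⟨(h2 m hm).1, hpos m hm⟩, fun m m' hm hm' h => hinj m m' hm hm' h⟩
  | succ i ih =>
    obtain ⟨ih1, ih2⟩ := ih
    refine ⟨fun m hm => ?_, fun m m' hm hm' h => ?_⟩
    · rw [Function.iterate_succ_apply']
      obtain ⟨a1, a2⟩ := ih1 m hm
      refine ⟨⟨(h2 _ a2).1, ?_⟩, hpos _ a2⟩
      rw [(h2 _ a2).2]
      exact a1
    · rw [Function.iterate_succ_apply', Function.iterate_succ_apply' (rk A) (i + 1) m'] at h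
      exact ih2 m m' hm hm' (hinj _ _ (ih1 m hm).2 (ih1 m' hm').2 h)

theorem half (hR : ∀ A : Set ℕ, A.Infinite → 0 ∉ A → ∀ i, ∀ p ∈ ra A i, ∃ x, 1 ≤ x ∧ (rk A)^[i + 1] x = p)
    (hN : S_NTH) (A : Set ℕ) (hA : A.Infinite) (h0 : 0 ∉ A) (n i k : ℕ) :
    {w : ℕ × ℕ | 1 ≤ w.1 ∧ 1 ≤ w.2 ∧ (rk A)^[i + 1] w.1 + (rk A)^[k + 1] w.2 = 2 * n ∧
      (rk A)^[k + 1] w.2 < n}.Finite ∧
    {w : ℕ × ℕ | 1 ≤ w.1 ∧ 1 ≤ w.2 ∧ (rk A)^[i + 1] w.1 + (rk A)^[k + 1] w.2 = 2 * n ∧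
      (rk A)^[k + 1] w.2 < n}.ncard = (G3 (ra A k) (ra A i) n 0 (n - 1)).card := by
  set S : Set (ℕ × ℕ) := {w : ℕ × ℕ | 1 ≤ w.1 ∧ 1 ≤ w.2 ∧
    (rk A)^[i + 1] w.1 + (rk A)^[k + 1] w.2 = 2 * n ∧ (rk A)^[k + 1] w.2 < n} with hS
  obtain ⟨i1, i2⟩ := it_facts hN A hA h0 i
  obtain ⟨k1, k2⟩ := it_facts hN A hA h0 k
  have hinj : Set.InjOn (fun w : ℕ × ℕ => (rk A)^[k + 1] w.2) S := by
    rintro ⟨a, b⟩ ⟨ha, hb, hab, -⟩ ⟨a', b'⟩ ⟨ha', hb', hab', -⟩ h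
    simp only at ha hb hab ha' hb' hab' h
    have e1 : b = b' := k2 b b' hb hb' h
    have e2 : (rk A)^[i + 1] a = (rk A)^[i + 1] a' := by omega
    have e3 : a = a' := i2 a a' ha ha' e2
    rw [e1, e3]
  have himg : (fun w : ℕ × ℕ => (rk A)^[k + 1] w.2) '' S =
      ((G3 (ra A k) (ra A i) n 0 (n - 1) : Finset ℕ) : Set ℕ) := by
    ext v
    constructor
    · rintro ⟨⟨a, b⟩, ⟨ha, hb, hab, hlt⟩, rfl⟩
      simp only at ha hb hab hlt ⊢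
      rw [Finset.mem_coe, mem_G3]
      have e1 := k1 b hb
      have e2 := i1 a ha
      refine ⟨⟨by omega, by omega⟩, e1.1, ?_⟩
      have e3 : 2 * n - (rk A)^[k + 1] b = (rk A)^[i + 1] a := by omega
      rw [e3]
      exact e2.1
    · intro hv
      rw [Finset.mem_coe, mem_G3] at hv
      obtain ⟨⟨v0, v1⟩, v2, v3⟩ := hv
      obtain ⟨b, hb, hb'⟩ := hR A hA h0 k v v2
      obtain ⟨a, ha, ha'⟩ := hR A hA h0 i (2 * n - v) v3
      refine ⟨(a, b), ⟨ha, hb, ?_, ?_⟩, hb'⟩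
      · simp only
        rw [ha', hb']
        omega
      · simp only
        rw [hb']
        omega
  constructor
  · apply Set.Finite.of_finite_image _ hinj
    rw [himg]
    exact Finset.finite_toSet _
  · rw [← hinj.ncard_image, himg, Set.ncard_coe_finset]

theorem first (hR : ∀ A : Set ℕ, A.Infinite → 0 ∉ A → ∀ i, ∀ p ∈ ra A i, ∃ x, 1 ≤ x ∧ (rk A)^[i + 1] x = p)
    (hN : S_NTH) (A : Set ℕ) (hA : A.Infinite) (h0 : 0 ∉ A) (n i k : ℕ) :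
    {w : ℕ × ℕ | 1 ≤ w.1 ∧ 1 ≤ w.2 ∧ (rk A)^[i + 1] w.1 + (rk A)^[k + 1] w.2 = 2 * n ∧
      (rk A)^[i + 1] w.1 ≠ (rk A)^[k + 1] w.2}.ncard =
    (G3 (ra A k) (ra A i) n 0 (n - 1)).card + (G3 (ra A i) (ra A k) n 0 (n - 1)).card := by
  obtain ⟨f1, c1⟩ := half hR hN A hA h0 n i k
  obtain ⟨f2, c2⟩ := half hR hN A hA h0 n k i
  have himg : {w : ℕ × ℕ | 1 ≤ w.1 ∧ 1 ≤ w.2 ∧ (rk A)^[i + 1] w.1 + (rk A)^[k + 1] w.2 = 2 * n ∧
      (rk A)^[i + 1] w.1 < n} =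
      Prod.swap '' {w : ℕ × ℕ | 1 ≤ w.1 ∧ 1 ≤ w.2 ∧ (rk A)^[k + 1] w.1 + (rk A)^[i + 1] w.2 = 2 * n ∧
      (rk A)^[i + 1] w.2 < n} := by
    ext ⟨a, b⟩
    constructor
    · rintro ⟨ha, hb, hab, hlt⟩
      simp only at ha hb hab hlt
      exact ⟨(b, a), ⟨hb, ha, by simp only; omega, hlt⟩, rfl⟩
    · rintro ⟨⟨b', a'⟩, ⟨ha, hb, hab, hlt⟩, h⟩
      simp only [Prod.swap_prod_mk, Prod.mk.injEq] at ha hb hab hlt h
      obtain ⟨rfl, rfl⟩ := h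
      exact ⟨hb, ha, by simp only; omega, hlt⟩
  have c3 : {w : ℕ × ℕ | 1 ≤ w.1 ∧ 1 ≤ w.2 ∧ (rk A)^[i + 1] w.1 + (rk A)^[k + 1] w.2 = 2 * n ∧
      (rk A)^[i + 1] w.1 < n}.ncard = (G3 (ra A i) (ra A k) n 0 (n - 1)).card := by
    rw [himg, Set.ncard_image_of_injective _ Prod.swap_injective, c2]
  have f3 : {w : ℕ × ℕ | 1 ≤ w.1 ∧ 1 ≤ w.2 ∧ (rk A)^[i + 1] w.1 + (rk A)^[k + 1] w.2 = 2 * n ∧
      (rk A)^[i + 1] w.1 < n}.Finite := by
    rw [himg]; exact f2.image _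
  rw [← c1, ← c3, ← Set.ncard_union_eq _ f1 f3]
  · congr 1
    ext ⟨a, b⟩
    constructor
    · rintro ⟨ha, hb, hab, hne⟩
      simp only at ha hb hab hne
      rcases lt_or_gt_of_ne hne with h | h
      · exact Or.inr ⟨ha, hb, hab, by simp only; omega⟩
      · exact Or.inl ⟨ha, hb, hab, by simp only; omega⟩
    · rintro (⟨ha, hb, hab, hlt⟩ | ⟨ha, hb, hab, hlt⟩)
      · simp only at ha hb hab hlt
        exact ⟨ha, hb, hab, by simp only; omega⟩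
      · simp only at ha hb hab hlt
        exact ⟨ha, hb, hab, by simp only; omega⟩
  · rw [Set.disjoint_left]
    rintro ⟨a, b⟩ ⟨ha, hb, hab, hlt⟩ ⟨-, -, -, hlt'⟩
    simp only at ha hb hab hlt hlt'
    omega

theorem second (A : Set ℕ) (h0 : 0 ∉ A) (n : ℕ) :
    (G3 (ra A 1) A n 0 (n - 1)).card + (G3 A (ra A 1) n 0 (n - 1)).card ≤
      {p : ℕ | p ∈ A ∧ p < 2 * n ∧ pin A p ∈ A ∧ 2 * n - p ∈ A}.ncard ∧
    {p : ℕ | p ∈ A ∧ p < 2 * n ∧ pin A p ∈ A ∧ 2 * n - p ∈ A}.ncard ≤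
      (G3 (ra A 1) A n 0 (n - 1)).card + (G3 A (ra A 1) n 0 (n - 1)).card + 1 := by
  classical
  set P : Set ℕ := {p : ℕ | p ∈ A ∧ p < 2 * n ∧ pin A p ∈ A ∧ 2 * n - p ∈ A} with hP
  have hra : ∀ p, p ∈ ra A 1 ↔ p ∈ A ∧ pin A p ∈ A := fun p => Iff.rfl
  have hfin : P.Finite := (Set.finite_Iio (2 * n)).subset (fun p hp => hp.2.1)
  set I : Finset ℕ := (G3 A (ra A 1) n 0 (n - 1)).image (fun v => 2 * n - v) with hI
  have hIc : I.card = (G3 A (ra A 1) n 0 (n - 1)).card := by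
    apply Finset.card_image_of_injOn
    intro v hv v' hv' h
    rw [Finset.mem_coe, mem_G3] at hv hv'
    simp only at h
    omega
  have hmemI : ∀ p, p ∈ I ↔ n < p ∧ p < 2 * n ∧ p ∈ ra A 1 ∧ 2 * n - p ∈ A := by
    intro p
    rw [hI, Finset.mem_image]
    constructor
    · rintro ⟨v, hv, rfl⟩
      rw [mem_G3] at hv
      obtain ⟨⟨v0, v1⟩, v2, v3⟩ := hv
      refine ⟨by omega, by omega, v3, ?_⟩
      have e : 2 * n - (2 * n - v) = v := by omega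
      rw [e]; exact v2
    · rintro ⟨h1, h2, h3, h4⟩
      refine ⟨2 * n - p, ?_, by omega⟩
      rw [mem_G3]
      refine ⟨⟨by omega, by omega⟩, h4, ?_⟩
      have e : 2 * n - (2 * n - p) = p := by omega
      rw [e]; exact h3
  have hdisj : Disjoint (G3 (ra A 1) A n 0 (n - 1)) I := by
    rw [Finset.disjoint_left]
    intro p hp hp'
    rw [mem_G3] at hp
    rw [hmemI] at hp'
    omega
  have hcard : (G3 (ra A 1) A n 0 (n - 1) ∪ I).card =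
      (G3 (ra A 1) A n 0 (n - 1)).card + (G3 A (ra A 1) n 0 (n - 1)).card := by
    rw [Finset.card_union_of_disjoint hdisj, hIc]
  constructor
  · rw [← hcard, ← Set.ncard_coe_finset]
    apply Set.ncard_le_ncard _ hfin
    intro p hp
    rw [Finset.mem_coe, Finset.mem_union] at hp
    rcases hp with hp | hp
    · rw [mem_G3] at hp
      obtain ⟨⟨p0, p1⟩, p2, p3⟩ := hp
      exact ⟨((hra p).1 p2).1, by omega, ((hra p).1 p2).2, p3⟩
    · rw [hmemI] at hp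
      obtain ⟨p0, p1, p2, p3⟩ := hp
      exact ⟨((hra p).1 p2).1, p1, ((hra p).1 p2).2, p3⟩
  · have hsub : P ⊆ ((insert n (G3 (ra A 1) A n 0 (n - 1) ∪ I) : Finset ℕ) : Set ℕ) := by
      rintro p ⟨p0, p1, p2, p3⟩
      have hp : 0 < p := by
        rcases Nat.eq_zero_or_pos p with h | h
        · rw [h] at p0; exact absurd p0 h0
        · exact h
      rw [Finset.mem_coe, Finset.mem_insert, Finset.mem_union, mem_G3, hmemI]
      rcases lt_trichotomy p n with h | h | h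
      · exact Or.inr (Or.inl ⟨⟨hp, by omega⟩, (hra p).2 ⟨p0, p2⟩, p3⟩)
      · exact Or.inl h
      · exact Or.inr (Or.inr ⟨h, p1, (hra p).2 ⟨p0, p2⟩, p3⟩)
    have h1 := Set.ncard_le_ncard hsub (Finset.finite_toSet _)
    rw [Set.ncard_coe_finset] at h1
    have h2 := Finset.card_insert_le n (G3 (ra A 1) A n 0 (n - 1) ∪ I)
    rw [hcard] at h2
    omega

end BIJ5N

theorem bij5 : S_BIJ5 := by
  intro hR hN A hA h0 n
  exact ⟨fun i k => BIJ5N.first hR.1 hN A hA h0 n i k, BIJ5N.second A h0 n⟩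

end Pool.Agent.H531.IX
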