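import Pool.Agent.H531.IX.Stm

set_option autoImplicit false

/-! # BIN: the binomial distribution is smooth -/

namespace Pool.Agent.H531.IX

open Finset

namespace BINN

theorem central (n : ℕ) : n.centralBinom ^ 2 * (2 * n + 1) ≤ 16 ^ n := by
  induction n with
  | zero => simp
  | succ n ih =>
    have h := Nat.succ_mul_centralBinom_succ n
    have h2 : (n + 1) ^ 2 * ((n + 1).centralBinom ^ 2 * (2 * (n + 1) + 1)) ≤ (n + 1) ^ 2 * 16 ^ (n + 1) := by
      calc (n + 1) ^ 2 * ((n + 1).centralBinom ^ 2 * (2 * (n + 1) + 1)) =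
            ((n + 1) * (n + 1).centralBinom) ^ 2 * (2 * n + 3) := by ring
        _ = 4 * (2 * n + 1) * (2 * n + 3) * (n.centralBinom ^ 2 * (2 * n + 1)) := by rw [h]; ring
        _ ≤ 4 * (2 * n + 1) * (2 * n + 3) * 16 ^ n := by gcongr
        _ ≤ (16 * (n + 1) ^ 2) * 16 ^ n := by
          refine Nat.mul_le_mul_right _ ?_
          nlinarith
        _ = _ := by ring
    exact Nat.le_of_mul_le_mul_left h2 (by positivity)

/-- the largest binomial coefficient -/
theorem middle (m : ℕ) : (m.choose (m / 2)) ^ 2 * (m + 1) ≤ 4 ^ m := by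
  rcases Nat.even_or_odd' m with ⟨n, rfl | rfl⟩
  · have h := central n
    rw [Nat.centralBinom_eq_two_mul_choose] at h
    rw [show 2 * n / 2 = n by omega, pow_mul]
    norm_num
    exact h
  · have h := central (n + 1)
    rw [Nat.centralBinom_eq_two_mul_choose] at h
    have h1 : (2 * (n + 1)).choose (n + 1) = 2 * (2 * n + 1).choose n := by
      rw [show 2 * (n + 1) = (2 * n + 1) + 1 by ring, Nat.choose_succ_succ]
      have := Nat.choose_symm_half n
      rw [this]
      ring
    rw [h1] at h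
    rw [show (2 * n + 1) / 2 = n by omega]
    have h3 : (4 : ℕ) ^ (2 * n + 1) = 4 * 16 ^ n := by
      rw [pow_succ, pow_mul]
      norm_num
      ring
    rw [h3]
    have h4 : (16 : ℕ) ^ (n + 1) = 16 * 16 ^ n := by ring
    rw [h4] at h
    nlinarith [Nat.zero_le ((2 * n + 1).choose n ^ 2)]

theorem incr {m k : ℕ} (h : k < m / 2) : m.choose k ≤ m.choose (k + 1) :=
  Nat.choose_le_succ_of_lt_half_left h

theorem decr {m k : ℕ} (h : m / 2 ≤ k) : m.choose (k + 1) ≤ m.choose k := by
  have h1 := Nat.choose_succ_right_eq m k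
  have h2 : m - k ≤ k + 1 := by omega
  have h3 : m.choose (k + 1) * (k + 1) ≤ m.choose k * (k + 1) := by
    rw [h1]
    exact Nat.mul_le_mul_left _ h2
  exact Nat.le_of_mul_le_mul_right h3 (Nat.succ_pos k)

/-- the sum of the positive parts -/
theorem upper (F : ℕ → ℝ) (hF : ∀ j, 0 ≤ F j ∧ F j ≤ 1) (m : ℕ) :
    ∑ j ∈ range (m + 1), (m.choose j : ℝ) * (F j - F (j + 1)) ≤ (m.choose (m / 2) : ℝ) := by
  have h1 : ∀ k, k ≤ m / 2 → ∑ j ∈ range (k + 1), (m.choose j : ℝ) * (F j - F (j + 1)) ≤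
      (m.choose k : ℝ) * (1 - F (k + 1)) := by
    intro k
    induction k with
    | zero =>
      intro _
      simp
      exact (hF 0).2
    | succ k ih =>
      intro hk
      rw [sum_range_succ]
      have h2 := ih (by omega)
      have h3 : (m.choose k : ℝ) ≤ (m.choose (k + 1) : ℝ) := by exact_mod_cast incr (by omega)
      have h4 := (hF (k + 1)).2
      nlinarith
  have h2 : ∀ k, m / 2 ≤ k → ∑ j ∈ range (k + 1), (m.choose j : ℝ) * (F j - F (j + 1)) ≤
      (m.choose (m / 2) : ℝ) - (m.choose k : ℝ) * F (k + 1) := by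
    intro k hk
    induction k, hk using Nat.le_induction with
    | base =>
      have := h1 (m / 2) le_rfl
      linarith
    | succ k hk ih =>
      rw [sum_range_succ]
      have h3 : (m.choose (k + 1) : ℝ) ≤ (m.choose k : ℝ) := by exact_mod_cast decr hk
      have h4 := (hF (k + 1)).1
      nlinarith
  have h3 := h2 m (Nat.div_le_self m 2)
  have h4 : 0 ≤ (m.choose m : ℝ) * F (m + 1) := mul_nonneg (Nat.cast_nonneg _) (hF _).1
  linarith

end BINN

open BINN in
theorem bin : S_BIN := by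
  intro F hF m
  have h1 := upper F hF m
  have h2 := upper (fun j => 1 - F j) (fun j => ⟨by linarith [(hF j).2], by linarith [(hF j).1]⟩) m
  have h3 : ∑ j ∈ range (m + 1), (m.choose j : ℝ) * ((1 - F j) - (1 - F (j + 1))) =
      -∑ j ∈ range (m + 1), (m.choose j : ℝ) * (F j - F (j + 1)) := by
    rw [← Finset.sum_neg_distrib]
    refine Finset.sum_congr rfl fun j _ => ?_
    ring
  rw [h3] at h2
  have h4 : |∑ j ∈ range (m + 1), (m.choose j : ℝ) * (F j - F (j + 1))| ≤ (m.choose (m / 2) : ℝ) :=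
    abs_le.mpr ⟨by linarith, h1⟩
  refine h4.trans ?_
  have h5 : (0 : ℝ) < (m : ℝ) + 1 := by positivity
  have h6 : 0 < √((m : ℝ) + 1) := Real.sqrt_pos.mpr h5
  rw [le_div_iff₀ h6]
  have h7 : ((m.choose (m / 2) : ℝ)) ^ 2 * ((m : ℝ) + 1) ≤ 4 ^ m := by exact_mod_cast middle m
  have h8 : ((m.choose (m / 2) : ℝ) * √((m : ℝ) + 1)) ^ 2 ≤ ((2 : ℝ) ^ m) ^ 2 := by
    rw [mul_pow, Real.sq_sqrt h5.le, ← pow_mul, mul_comm m 2, pow_mul]
    norm_num
    exact h7
  have h9 : (m.choose (m / 2) : ℝ) * √((m : ℝ) + 1) ≤ (2 : ℝ) ^ m :=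
    (pow_le_pow_iff_left₀ (by positivity) (by positivity) (by norm_num)).mp h8
  have h10 : (0 : ℝ) < 2 ^ m := by positivity
  linarith

end Pool.Agent.H531.IX

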