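import Pool.Agent.H531.IX.Stm

set_option autoImplicit false

/-!
# One block of the random sieve (S_BLK; by helper323)
-/

open Finset MeasureTheory ProbabilityTheory Filter Topology

namespace Pool.Agent.H531.IX

open Pool.Agent.T2H31.HV (Pt Ev Dep)
open Pool.Agent.T2H32.BF (Model z0 V)

namespace BLKN

theorem ev_mono {S : Finset ℕ} {F G : (ℕ → ℕ) → ℝ} (h : ∀ b, F b ≤ G b) : Ev S F ≤ Ev S G := by
  unfold Ev
  exact mul_le_mul_of_nonneg_left (sum_le_sum fun b _ => h b)
    (inv_nonneg.2 (prod_nonneg fun p _ => Nat.cast_nonneg p))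

theorem ev_sum {ι : Type} (S : Finset ℕ) (I : Finset ι) (F : ι → (ℕ → ℕ) → ℝ) :
    Ev S (fun b => ∑ i ∈ I, F i b) = ∑ i ∈ I, Ev S (F i) := by
  unfold Ev
  rw [sum_comm, mul_sum]

theorem ev_sub (S : Finset ℕ) (F G : (ℕ → ℕ) → ℝ) :
    Ev S (fun b => F b - G b) = Ev S F - Ev S G := by
  unfold Ev
  rw [sum_sub_distrib, mul_sub]

theorem ev_class {S : Finset ℕ} (hS : ∀ q ∈ S, 0 < q) {q : ℕ} (hq : q ∈ S) (n : ℕ) :
    Ev S (fun b => if n % q = b q then (1 : ℝ) else 0) = 1 / q := by
  have hd : Dep {q} (fun b => if n % q = b q then (1 : ℝ) else 0) := by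
    intro b b' h
    simp only [h q (mem_singleton_self q)]
  rw [Pool.Agent.T2H31.HV.Ev_eq_of_dep S {q} (singleton_subset_iff.2 hq) hS _ hd]
  unfold Ev
  have h1 := Pool.Agent.T2H31.HV.sum_Pt_insert ∅ q (notMem_empty q)
    (fun b => if n % q = b q then (1 : ℝ) else 0)
  have h2 : insert q (∅ : Finset ℕ) = {q} := rfl
  rw [h2] at h1
  rw [h1, Pool.Agent.T2H31.HV.Pt_empty, sum_singleton, prod_singleton]
  simp only [Function.update_self]
  rw [sum_ite_eq (range q) (n % q), if_pos (mem_range.2 (Nat.mod_lt _ (hS q hq))), mul_one, one_div]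

theorem inj_mod {x u q v v' : ℕ} (hu : 1 ≤ u) (hq : 8 * u ≤ q) (h1 : x < v) (h2 : v ≤ x + 2 * u)
    (h3 : x < v') (h4 : v' ≤ x + 2 * u) (h : v % q = v' % q) : v = v' := by
  rcases le_total v v' with h5 | h5
  · have h6 : q ∣ v' - v := (Nat.modEq_iff_dvd' h5).1 h
    have h7 := Nat.eq_zero_of_dvd_of_lt h6 (by omega)
    omega
  · have h6 : q ∣ v - v' := (Nat.modEq_iff_dvd' h5).1 (show v' ≡ v [MOD q] from h.symm)
    have h7 := Nat.eq_zero_of_dvd_of_lt h6 (by omega)
    omega

end BLKN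

open BLKN in
theorem blk (hLOCH : S_LOCH) (hPIF : S_PIF) : S_BLK := by
  classical
  intro z W hz H B T x u h m0 c τ b hx hH hW hL hu hh hpin hm0 hc hcs
  have memL : ∀ q, q ∈ fr z x (x + 3 * u) ↔ (z x < q ∧ q ≤ z (x + 3 * u)) ∧ q.Prime := by
    intro q
    unfold fr
    rw [mem_filter, mem_Ioc]
  have hLpos : ∀ q ∈ fr z x (x + 3 * u), 0 < q := fun q hq => ((memL q).1 hq).2.pos
  have hs0 : 0 ≤ ∑ q ∈ fr z x (x + 3 * u), 1 / (q : ℝ) :=
    sum_nonneg fun q _ => by positivity
  have memO : ∀ p v, v ∈ Old z W x p b ↔ (x < v ∧ v ≤ p) ∧ Sv W (z x) b v := by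
    intro p v
    unfold Old
    rw [mem_filter, mem_Ioc]
  have hcard : ∀ p, p ≤ x + 2 * u → (Old z W x p b).card ≤ 2 * u := by
    intro p hp
    unfold Old
    refine (card_filter_le _ _).trans ?_
    rw [Nat.card_Ioc]
    omega
  have hpb : ∀ p, x + u < p → p ≤ x + 2 * u → ∀ b', pin (RS z W (gl (fr z x (x + 3 * u)) b b')) p =
      (pin (RS z W b) x + (Old z W x p b).card) -
        DD (fr z x (x + 3 * u)) (Old z W x p b) (fun q v => q ≤ z v) b' := fun p hp1 hp2 b' =>
    hPIF z W hz x (x + 3 * u) p b b' hx (by omega) (by omega) hW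
  -- the hypotheses of LOCH
  have hcond : ∀ p, x + u < p → p ≤ x + 2 * u →
      c ≤ ∑ q ∈ fr z x (x + 3 * u),
        (((Old z W x p b).filter (fun v => q ≤ z v)).card : ℝ) / q := by
    intro p hp1 hp2
    refine hcs.trans ?_
    have hsub : fr z x (x + u / 2) ⊆ fr z x (x + 3 * u) := by
      intro q hq
      unfold fr at hq
      rw [mem_filter, mem_Ioc] at hq
      rw [memL]
      exact ⟨⟨hq.1.1, hq.1.2.trans (hz (by omega))⟩, hq.2⟩
    rw [mul_sum]
    refine (sum_le_sum fun q hq => ?_).trans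
      (sum_le_sum_of_subset_of_nonneg hsub fun q _ _ => by positivity)
    have hq' := hq
    unfold fr at hq'
    rw [mem_filter, mem_Ioc] at hq'
    have h1 : (Old z W x (x + u) b).card ≤ (Old z W x (x + u / 2) b).card +
        ((Old z W x p b).filter (fun v => q ≤ z v)).card := by
      refine (card_le_card ?_).trans (card_union_le _ _)
      intro v hv
      rw [memO] at hv
      rw [mem_union, mem_filter, memO, memO]
      rcases le_or_gt v (x + u / 2) with h2 | h2
      · exact Or.inl ⟨⟨hv.1.1, h2⟩, hv.2⟩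
      · exact Or.inr ⟨⟨⟨hv.1.1, by omega⟩, hv.2⟩, hq'.1.2.trans (hz h2.le)⟩
    have h2 : m0 ≤ ((Old z W x p b).filter (fun v => q ≤ z v)).card := by omega
    have h3 : (m0 : ℝ) ≤ (((Old z W x p b).filter (fun v => q ≤ z v)).card : ℝ) := by
      exact_mod_cast h2
    have h4 : (0 : ℝ) ≤ 1 / (q : ℝ) := by positivity
    calc (m0 : ℝ) * (1 / (q : ℝ)) ≤
        (((Old z W x p b).filter (fun v => q ≤ z v)).card : ℝ) * (1 / (q : ℝ)) :=
          mul_le_mul_of_nonneg_right h3 h4
      _ = _ := by ring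
  have hloch : ∀ p, x + u < p → p ≤ x + 2 * u → _ := fun p hp1 hp2 =>
    hLOCH (fr z x (x + 3 * u)) (Old z W x p b) (fun q v => q ≤ z v) (T p) c τ
      (pin (RS z W b) x + (Old z W x p b).card) h
      (fun q hq => ⟨((memL q).1 hq).2, by
        have h1 := hcard p hp2
        have h2 := hL q hq
        omega⟩) hc
      (fun q hq v hv v' hv' he => by
        rw [memO] at hv hv'
        exact inj_mod hu (hL q hq) hv.1.1 (hv.1.2.trans hp2) hv'.1.1 (hv'.1.2.trans hp2) he)
      (hcond p hp1 hp2) hh (by omega)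
  -- the bound of the error
  have herr : ∀ p, p ≤ x + 2 * u →
      (h : ℝ) * (2 / √c + 2 * (Old z W x p b).card * (∑ q ∈ fr z x (x + 3 * u), 1 / (q : ℝ)) ^ 2) ≤
      h * (2 / √c + 4 * u * (∑ q ∈ fr z x (x + 3 * u), 1 / (q : ℝ)) ^ 2) := by
    intro p hp
    have h1 : ((Old z W x p b).card : ℝ) ≤ 2 * u := by exact_mod_cast hcard p hp
    have h2 : 2 * ((Old z W x p b).card : ℝ) ≤ 4 * u := by linarith
    refine mul_le_mul_of_nonneg_left ?_ (Nat.cast_nonneg h)
    have h3 := mul_le_mul_of_nonneg_right h2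
      (sq_nonneg (∑ q ∈ fr z x (x + 3 * u), 1 / (q : ℝ)))
    linarith
  -- the values of `β`
  have hglo : ∀ b' q, q ≤ z x → gl (fr z x (x + 3 * u)) b b' q = b q := by
    intro b' q hq
    unfold gl
    rw [if_neg]
    intro h1
    have := ((memL q).1 h1).1.1
    omega
  have hgli : ∀ b', ∀ q ∈ fr z x (x + 3 * u), gl (fr z x (x + 3 * u)) b b' q = b' q := by
    intro b' q hq
    unfold gl
    rw [if_pos hq]
  have hRS1 : ∀ b' n, x ≤ n → n ∈ RS z W (gl (fr z x (x + 3 * u)) b b') → Sv W (z x) b n := by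
    rintro b' n hn ⟨-, h1⟩ q hq hqp
    have h2 := h1 q (hq.trans (hz hn)) hqp
    rwa [hglo b' q hq] at h2
  have hRS2 : ∀ b' n, x < n → n ≤ x + 3 * u → Sv W (z x) b n →
      (∀ q ∈ fr z x (x + 3 * u), n % q ≠ b' q) → n ∈ RS z W (gl (fr z x (x + 3 * u)) b b') := by
    intro b' n hn1 hn2 h1 h2
    refine ⟨by omega, fun q hq hqp => ?_⟩
    rcases le_or_gt q (z x) with h3 | h3
    · rw [hglo b' q h3]
      exact h1 q h3 hqp
    · have h4 : q ∈ fr z x (x + 3 * u) := (memL q).2 ⟨⟨h3, hq.trans (hz hn2)⟩, hqp⟩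
      have h5 : ¬q ≤ W n := by
        have := hW n hn2
        omega
      rw [if_neg h5, hgli b' q h4]
      exact h2 q h4
  obtain ⟨gd, hgd⟩ : ∃ gd : Finset ℕ, gd = (Ioc (x + u) (x + 2 * u)).filter fun p =>
      p ∈ B ∧ ∀ i ∈ H, Sv W (z x) b (p + i) := ⟨_, rfl⟩
  have memgd : ∀ p, p ∈ gd ↔ (x + u < p ∧ p ≤ x + 2 * u) ∧ p ∈ B ∧
      ∀ i ∈ H, Sv W (z x) b (p + i) := by
    intro p
    rw [hgd, mem_filter, mem_Ioc]
  have hnn : nn z W H B x u b = gd.card := by
    unfold nn
    rw [hgd]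
  have hIndv : ∀ p ∈ gd, ∀ b', (Set.indicator (T p) 1 ((pin (RS z W b) x +
      (Old z W x p b).card) - DD (fr z x (x + 3 * u)) (Old z W x p b) (fun q v => q ≤ z v) b') :
      ℝ) = if pin (RS z W (gl (fr z x (x + 3 * u)) b b')) p ∈ T p then 1 else 0 := by
    intro p hp b'
    rw [memgd] at hp
    rw [hpb p hp.1.1 hp.1.2 b', Set.indicator_apply]
    simp only [Pi.one_apply]
  have hNT : ∀ b', (NT z W H B T (x + u) (x + 2 * u) (gl (fr z x (x + 3 * u)) b b') : ℝ) =
      ∑ p ∈ gd, if (∀ i ∈ H, p + i ∈ RS z W (gl (fr z x (x + 3 * u)) b b')) ∧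
        pin (RS z W (gl (fr z x (x + 3 * u)) b b')) p ∈ T p then (1 : ℝ) else 0 := by
    intro b'
    rw [← natCast_card_filter]
    unfold NT
    congr 1
    refine congrArg Finset.card ?_
    ext p
    rw [mem_filter, mem_filter, memgd, mem_Ioc]
    constructor
    · rintro ⟨h1, h2, h3, h4⟩
      exact ⟨⟨h1, h2, fun i hi => hRS1 b' (p + i) (by omega) (h3 i hi)⟩, h3, h4⟩
    · rintro ⟨⟨h1, h2, -⟩, h3, h4⟩
      exact ⟨h1, h2, h3, h4⟩
  constructor
  · intro hT
    have hb : ∀ p ∈ gd, Ev (fr z x (x + 3 * u)) (fun b' => (Set.indicator (T p) 1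
        ((pin (RS z W b) x + (Old z W x p b).card) -
          DD (fr z x (x + 3 * u)) (Old z W x p b) (fun q v => q ≤ z v) b') : ℝ)) ≤
        τ + h * (2 / √c + 4 * u * (∑ q ∈ fr z x (x + 3 * u), 1 / (q : ℝ)) ^ 2) := by
      intro p hp
      rw [memgd] at hp
      refine ((hloch p hp.1.1 hp.1.2).1 fun j hj1 hj2 => ?_).trans ?_
      · have h1 := hcard p hp.1.2
        exact hT p hp.2.1 hp.1.1 hp.1.2 j (by omega) (by omega)
      · have := herr p hp.1.2
        linarith
    calc Ev (fr z x (x + 3 * u)) (fun b' =>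
          (NT z W H B T (x + u) (x + 2 * u) (gl (fr z x (x + 3 * u)) b b') : ℝ))
        ≤ Ev (fr z x (x + 3 * u)) (fun b' => ∑ p ∈ gd, (Set.indicator (T p) 1
        ((pin (RS z W b) x + (Old z W x p b).card) -
          DD (fr z x (x + 3 * u)) (Old z W x p b) (fun q v => q ≤ z v) b') : ℝ)) := by
          refine ev_mono fun b' => ?_
          rw [hNT b']
          refine sum_le_sum fun p hp => ?_
          rw [hIndv p hp b']
          split_ifs with h1 h2 h2
          · exact le_rfl
          · exact absurd h1.2 h2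
          · exact zero_le_one
          · exact le_rfl
      _ = ∑ p ∈ gd, Ev (fr z x (x + 3 * u)) (fun b' => (Set.indicator (T p) 1
        ((pin (RS z W b) x + (Old z W x p b).card) -
          DD (fr z x (x + 3 * u)) (Old z W x p b) (fun q v => q ≤ z v) b') : ℝ)) := ev_sum _ _ _
      _ ≤ ∑ _p ∈ gd, (τ + h * (2 / √c + 4 * u *
          (∑ q ∈ fr z x (x + 3 * u), 1 / (q : ℝ)) ^ 2)) := sum_le_sum hb
      _ = _ := by
          rw [sum_const, nsmul_eq_mul, hnn]
          ring
  · intro hT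
    have hb : ∀ p ∈ gd, τ - h * (2 / √c + 4 * u * (∑ q ∈ fr z x (x + 3 * u), 1 / (q : ℝ)) ^ 2) ≤
        Ev (fr z x (x + 3 * u)) (fun b' => (Set.indicator (T p) 1
        ((pin (RS z W b) x + (Old z W x p b).card) -
          DD (fr z x (x + 3 * u)) (Old z W x p b) (fun q v => q ≤ z v) b') : ℝ)) := by
      intro p hp
      rw [memgd] at hp
      refine le_trans ?_ ((hloch p hp.1.1 hp.1.2).2 fun j hj1 hj2 => ?_)
      · have := herr p hp.1.2
        linarith
      · have h1 := hcard p hp.1.2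
        exact hT p hp.2.1 hp.1.1 hp.1.2 j (by omega) (by omega)
    have hc2 : ∀ p, Ev (fr z x (x + 3 * u)) (fun b' => ∑ i ∈ H, ∑ q ∈ fr z x (x + 3 * u),
        (if (p + i) % q = b' q then (1 : ℝ) else 0)) =
        H.card * ∑ q ∈ fr z x (x + 3 * u), 1 / (q : ℝ) := by
      intro p
      rw [ev_sum]
      rw [← nsmul_eq_mul, ← sum_const]
      refine sum_congr rfl fun i _ => ?_
      rw [ev_sum]
      exact sum_congr rfl fun q hq => ev_class hLpos hq (p + i)
    calc (τ - h * (2 / √c + 4 * u * (∑ q ∈ fr z x (x + 3 * u), 1 / (q : ℝ)) ^ 2) -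
          H.card * ∑ q ∈ fr z x (x + 3 * u), 1 / (q : ℝ)) * nn z W H B x u b
        = ∑ _p ∈ gd, (τ - h * (2 / √c + 4 * u * (∑ q ∈ fr z x (x + 3 * u), 1 / (q : ℝ)) ^ 2) -
          H.card * ∑ q ∈ fr z x (x + 3 * u), 1 / (q : ℝ)) := by
          rw [sum_const, nsmul_eq_mul, hnn]
          ring
      _ ≤ ∑ p ∈ gd, Ev (fr z x (x + 3 * u)) (fun b' => (Set.indicator (T p) 1
            ((pin (RS z W b) x + (Old z W x p b).card) -
              DD (fr z x (x + 3 * u)) (Old z W x p b) (fun q v => q ≤ z v) b') : ℝ) -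
            ∑ i ∈ H, ∑ q ∈ fr z x (x + 3 * u), (if (p + i) % q = b' q then (1 : ℝ) else 0)) := by
          refine sum_le_sum fun p hp => ?_
          rw [ev_sub, hc2]
          have := hb p hp
          linarith
      _ = Ev (fr z x (x + 3 * u)) (fun b' => ∑ p ∈ gd, ((Set.indicator (T p) 1
            ((pin (RS z W b) x + (Old z W x p b).card) -
              DD (fr z x (x + 3 * u)) (Old z W x p b) (fun q v => q ≤ z v) b') : ℝ) -
            ∑ i ∈ H, ∑ q ∈ fr z x (x + 3 * u), (if (p + i) % q = b' q then (1 : ℝ) else 0))) :=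
          (ev_sum _ _ _).symm
      _ ≤ _ := by
          refine ev_mono fun b' => ?_
          rw [hNT b']
          refine sum_le_sum fun p hp => ?_
          rw [hIndv p hp b']
          have hnn0 : (0 : ℝ) ≤ ∑ i ∈ H, ∑ q ∈ fr z x (x + 3 * u),
              (if (p + i) % q = b' q then (1 : ℝ) else 0) :=
            sum_nonneg fun i _ => sum_nonneg fun q _ => by positivity
          rw [memgd] at hp
          by_cases hbad : ∃ i ∈ H, ∃ q ∈ fr z x (x + 3 * u), (p + i) % q = b' q
          · obtain ⟨i, hi, q, hq, hiq⟩ := hbad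
            have h1 : (1 : ℝ) ≤ ∑ i ∈ H, ∑ q ∈ fr z x (x + 3 * u),
                (if (p + i) % q = b' q then (1 : ℝ) else 0) := by
              refine le_trans ?_ (single_le_sum (f := fun i => ∑ q ∈ fr z x (x + 3 * u),
                (if (p + i) % q = b' q then (1 : ℝ) else 0))
                (fun i _ => sum_nonneg fun q _ => by positivity) hi)
              refine le_trans ?_ (single_le_sum (f := fun q =>
                (if (p + i) % q = b' q then (1 : ℝ) else 0))
                (fun q _ => by positivity) hq)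
              simp only [hiq, if_true]
              exact le_rfl
            have h2 : (if pin (RS z W (gl (fr z x (x + 3 * u)) b b')) p ∈ T p then (1 : ℝ) else 0) ≤
                1 := by
              split_ifs
              · exact le_rfl
              · exact zero_le_one
            have h3 : (0 : ℝ) ≤ if (∀ i ∈ H, p + i ∈ RS z W (gl (fr z x (x + 3 * u)) b b')) ∧
                pin (RS z W (gl (fr z x (x + 3 * u)) b b')) p ∈ T p then (1 : ℝ) else 0 := by
              split_ifs
              · exact zero_le_one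
              · exact le_rfl
            linarith
          · push Not at hbad
            have h1 : ∀ i ∈ H, p + i ∈ RS z W (gl (fr z x (x + 3 * u)) b b') := by
              intro i hi
              have := hH i hi
              exact hRS2 b' (p + i) (by omega) (by omega) (hp.2.2 i hi) fun q hq =>
                hbad i hi q hq
            have h2 : (if (∀ i ∈ H, p + i ∈ RS z W (gl (fr z x (x + 3 * u)) b b')) ∧
                pin (RS z W (gl (fr z x (x + 3 * u)) b b')) p ∈ T p then (1 : ℝ) else 0) =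
                if pin (RS z W (gl (fr z x (x + 3 * u)) b b')) p ∈ T p then (1 : ℝ) else 0 := by
              by_cases h3 : pin (RS z W (gl (fr z x (x + 3 * u)) b b')) p ∈ T p
              · rw [if_pos h3, if_pos ⟨h1, h3⟩]
              · rw [if_neg h3, if_neg fun h4 => h3 h4.2]
            rw [h2]
            linarith

end Pool.Agent.H531.IX
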