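import Pool.Agent.H531.IX.Stm2

set_option autoImplicit false

/-!
# MP_ea8352 / MP_04e9b2: enough random primes in the short intervals (`S_CBE`)
-/

open Finset MeasureTheory ProbabilityTheory Filter Topology

namespace Pool.Agent.H531.IX

open Pool.Agent.T2H32.BF (Model z0 V)
open Pool.Agent.H559.BS (Limit)
open Pool.Agent.H559.HY (OK WW Cut)
open Pool.Agent.T2H32.GB (C2)

namespace CBEN

theorem ev_pow (a K : ℝ) (ha : 0 < a) : ∀ᶠ X : ℕ in atTop, K ≤ (X : ℝ) ^ a :=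
  ((tendsto_rpow_atTop ha).comp tendsto_natCast_atTop_atTop).eventually_ge_atTop K

theorem core1 (A : Set ℕ) (hC : Tendsto (fun x : ℕ => (pin A x : ℝ) * Real.log x / x) atTop (𝓝 1)) :
    ∀ᶠ X : ℕ in atTop, 2 * hX X ≤ pin A X := by
  have h1 : ∀ᶠ X : ℕ in atTop, (1 / 2 : ℝ) < (pin A X : ℝ) * Real.log X / X :=
    hC.eventually (lt_mem_nhds (by norm_num))
  filter_upwards [h1, ev_pow 0.495 8 (by norm_num), eventually_ge_atTop 2] with X h1 h2 h3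
  have hX0 : (0 : ℝ) < X := by exact_mod_cast (by omega : 0 < X)
  have hX2 : (2 : ℝ) ≤ X := by exact_mod_cast h3
  have hlog : 0 < Real.log X := Real.log_pos (by linarith)
  have h4 : (hX X : ℝ) ≤ (X : ℝ) ^ (0.005 : ℝ) := Nat.floor_le (by positivity)
  have h5 : Real.log X ≤ (X : ℝ) ^ (0.5 : ℝ) / 0.5 := Real.log_le_rpow_div hX0.le (by norm_num)
  have h6 : (X : ℝ) ^ (0.5 : ℝ) * (X : ℝ) ^ (0.005 : ℝ) * (X : ℝ) ^ (0.495 : ℝ) = X := by
    rw [← Real.rpow_add hX0, ← Real.rpow_add hX0]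
    norm_num
  have h7 : (X : ℝ) / 2 < pin A X * Real.log X := by
    rw [lt_div_iff₀ hX0] at h1
    linarith
  have h8 : (2 * hX X : ℝ) * Real.log X ≤ X / 2 := by
    have ha : 0 ≤ (X : ℝ) ^ (0.5 : ℝ) := by positivity
    have hb : 0 ≤ (X : ℝ) ^ (0.005 : ℝ) := by positivity
    calc (2 * hX X : ℝ) * Real.log X ≤ (2 * (X : ℝ) ^ (0.005 : ℝ)) * ((X : ℝ) ^ (0.5 : ℝ) / 0.5) := by
          apply mul_le_mul _ h5 hlog.le (by positivity)
          linarith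
      _ = 4 * ((X : ℝ) ^ (0.5 : ℝ) * (X : ℝ) ^ (0.005 : ℝ)) := by ring
      _ ≤ (X : ℝ) / 2 := by
          have h : 4 * ((X : ℝ) ^ (0.5 : ℝ) * (X : ℝ) ^ (0.005 : ℝ)) ≤
              ((X : ℝ) ^ (0.5 : ℝ) * (X : ℝ) ^ (0.005 : ℝ) * (X : ℝ) ^ (0.495 : ℝ)) / 2 := by
            nlinarith [mul_nonneg ha hb]
          rwa [h6] at h
  have h9 : (2 * hX X : ℝ) * Real.log X ≤ pin A X * Real.log X := by linarith
  have h10 : (2 * hX X : ℝ) ≤ pin A X := le_of_mul_le_mul_right h9 hlog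
  exact_mod_cast h10

theorem core2 (A : Set ℕ)
    (hW : ∀ᶠ X : ℕ in atTop, ∀ y : ℕ, (X : ℝ) ^ (1 / 2 : ℝ) ≤ y → y ≤ X →
      |((pin A (X + y) : ℝ) - pin A X) * Real.log X / y - 1| ≤ 1 / 4) :
    ∀ᶠ X : ℕ in atTop, ∀ x : ℕ, X ≤ x → x ≤ 4 * X →
      (uX X : ℝ) / (16 * Real.log X) + pin A (x + uX X / 2) ≤ pin A (x + uX X) := by
  obtain ⟨N, hN⟩ := eventually_atTop.1 hW
  filter_upwards [ev_pow 0.011 7 (by norm_num), eventually_ge_atTop (max N 5)] with X h2 h3 x hx1 hx2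
  have hXN : N ≤ X := (le_max_left _ _).trans h3
  have hX5 : 5 ≤ X := (le_max_right _ _).trans h3
  have hX0 : (0 : ℝ) < X := by exact_mod_cast (by omega : 0 < X)
  have hX5' : (5 : ℝ) ≤ X := by exact_mod_cast hX5
  have hlog : 0 < Real.log X := Real.log_pos (by linarith)
  set u := uX X with hu
  have hu1 : (u : ℝ) ≤ (X : ℝ) ^ (0.511 : ℝ) := Nat.floor_le (by positivity)
  have hu2 : (X : ℝ) ^ (0.511 : ℝ) < u + 1 := Nat.lt_floor_add_one _
  have huX : u ≤ X := by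
    have : (X : ℝ) ^ (0.511 : ℝ) ≤ (X : ℝ) ^ (1 : ℝ) :=
      Real.rpow_le_rpow_of_exponent_le (by linarith) (by norm_num)
    rw [Real.rpow_one] at this
    exact_mod_cast hu1.trans this
  have hs1 : 1 ≤ (X : ℝ) ^ (0.5 : ℝ) := Real.one_le_rpow (by linarith) (by norm_num)
  have hsp : (X : ℝ) ^ (0.511 : ℝ) = (X : ℝ) ^ (0.5 : ℝ) * (X : ℝ) ^ (0.011 : ℝ) := by
    rw [← Real.rpow_add hX0]
    norm_num
  have hu3 : 6 * (X : ℝ) ^ (0.5 : ℝ) ≤ u := by nlinarith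
  have hy2 : (u : ℝ) / 2 ≤ ((u - u / 2 : ℕ) : ℝ) := by
    have h : u ≤ 2 * (u - u / 2) := by omega
    have h' : (u : ℝ) ≤ 2 * ((u - u / 2 : ℕ) : ℝ) := by exact_mod_cast h
    linarith
  have hX' : x + u / 2 ≤ 5 * X := by omega
  have hX'r : ((x + u / 2 : ℕ) : ℝ) ≤ 5 * X := by exact_mod_cast hX'
  have hX'0 : (X : ℝ) ≤ ((x + u / 2 : ℕ) : ℝ) := by exact_mod_cast (by omega : X ≤ x + u / 2)
  have hroot : ((x + u / 2 : ℕ) : ℝ) ^ (1 / 2 : ℝ) ≤ ((u - u / 2 : ℕ) : ℝ) := by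
    calc ((x + u / 2 : ℕ) : ℝ) ^ (1 / 2 : ℝ) ≤ (9 * X : ℝ) ^ (1 / 2 : ℝ) :=
          Real.rpow_le_rpow (by positivity) (by linarith) (by norm_num)
      _ = 3 * (X : ℝ) ^ (0.5 : ℝ) := by
          rw [Real.mul_rpow (by norm_num) hX0.le]
          have : (9 : ℝ) ^ (1 / 2 : ℝ) = 3 := by
            rw [show (9 : ℝ) = 3 ^ (2 : ℝ) by norm_num, ← Real.rpow_mul (by norm_num)]
            norm_num
          rw [this]
          norm_num
      _ ≤ (u : ℝ) / 2 := by linarith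
      _ ≤ _ := hy2
  have key := hN (x + u / 2) (by omega) (u - u / 2) hroot (by omega)
  rw [show x + u / 2 + (u - u / 2) = x + u by omega] at key
  have hL1 : Real.log ((x + u / 2 : ℕ) : ℝ) ≤ 2 * Real.log X := by
    calc Real.log ((x + u / 2 : ℕ) : ℝ) ≤ Real.log (X * X) :=
          Real.log_le_log (by linarith) (by nlinarith)
      _ = 2 * Real.log X := by rw [Real.log_mul hX0.ne' hX0.ne']; ring
  have hL0 : 0 < Real.log ((x + u / 2 : ℕ) : ℝ) := Real.log_pos (by linarith)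
  have hy0 : (0 : ℝ) < ((u - u / 2 : ℕ) : ℝ) := by linarith
  have k1 := (abs_le.1 key).1
  have k2 : (3 / 4 : ℝ) ≤ ((pin A (x + u) : ℝ) - pin A (x + u / 2)) * Real.log ((x + u / 2 : ℕ) : ℝ) /
      ((u - u / 2 : ℕ) : ℝ) := by linarith
  rw [le_div_iff₀ hy0] at k2
  -- `D log X' ≥ (3/4) y ≥ (3/8) u`
  have k3 : (3 / 8 : ℝ) * u ≤ ((pin A (x + u) : ℝ) - pin A (x + u / 2)) * Real.log ((x + u / 2 : ℕ) : ℝ) := by
    linarith
  have hu0 : (0 : ℝ) < u := by linarith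
  have hD : 0 < (pin A (x + u) : ℝ) - pin A (x + u / 2) := by
    by_contra hcon
    have := mul_nonpos_of_nonpos_of_nonneg (not_lt.1 hcon) hL0.le
    nlinarith
  have k4 : (3 / 8 : ℝ) * u ≤ ((pin A (x + u) : ℝ) - pin A (x + u / 2)) * (2 * Real.log X) :=
    k3.trans (mul_le_mul_of_nonneg_left hL1 hD.le)
  have k5 : (u : ℝ) / (16 * Real.log X) ≤ (pin A (x + u) : ℝ) - pin A (x + u / 2) := by
    rw [div_le_iff₀ (by positivity)]
    nlinarith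
  linarith

end CBEN

theorem cbe : S_CBE := by
  intro hWIN hCNT c c₂ hc hC2 b hOK
  have hL : Limit z0 := ⟨Pool.Agent.T2H32.BF.z0_mono, Pool.Agent.T2H32.BF.z0_lim⟩
  have h1 := (hCNT hWIN z0 hL c c₂ hc hC2 b hOK).1
  have h2 := hWIN z0 hL c c₂ hc hC2 b hOK (1 / 2) (1 / 4) (by norm_num) (by norm_num)
  filter_upwards [CBEN.core1 _ h1, CBEN.core2 _ (h2.mono fun X h y hy hyX => (h y hy hyX).1)] with X h1 h2
  exact ⟨h1, h2⟩

end Pool.Agent.H531.IX
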