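import Pool.Agent.H531.IX.Stm2

set_option autoImplicit false

/-!
# CHN: chains of dyadic pieces (by helper261)
-/

open Finset MeasureTheory ProbabilityTheory Filter Topology

namespace Pool.Agent.H531.IX

open Pool.Agent.T2H32.BF (Model z0 V)

namespace CHNN

theorem pin_mono (A : Set ℕ) {p q : ℕ} (h : p ≤ q) : pin A p ≤ pin A q := by
  unfold pin
  apply Set.ncard_le_ncard
  · exact Set.inter_subset_inter_right _ (Set.Icc_subset_Icc_right h)
  · exact (Set.finite_Icc 1 q).inter_of_right _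

theorem hX_mono {X Y : ℕ} (h : X ≤ Y) : hX X ≤ hX Y :=
  Nat.floor_mono (Real.rpow_le_rpow (Nat.cast_nonneg _) (Nat.cast_le.2 h) (by norm_num))

theorem uX_mono {X Y : ℕ} (h : X ≤ Y) : uX X ≤ uX Y :=
  Nat.floor_mono (Real.rpow_le_rpow (Nat.cast_nonneg _) (Nat.cast_le.2 h) (by norm_num))

theorem card_add (P : ℕ → Prop) (inst : DecidablePred P) {a b c : ℕ} (h1 : a ≤ b) (h2 : b ≤ c) :
    ((Ioc a c).filter P).card = ((Ioc a b).filter P).card + ((Ioc b c).filter P).card := by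
  rw [← Finset.Ioc_union_Ioc_eq_Ioc h1 h2, Finset.filter_union, Finset.card_union_of_disjoint]
  apply Finset.disjoint_filter_filter
  rw [Finset.disjoint_left]
  intro x hx hx'
  rw [Finset.mem_Ioc] at hx hx'
  omega

theorem chain (F : ℕ → ℕ → ℝ) (X Y : ℕ) (h0 : ∀ a, F a a = 0)
    (hadd : ∀ a b c, a ≤ b → b ≤ c → F a c = F a b + F b c)
    (hp : ∀ a b, X ≤ a → a ≤ b → b ≤ 2 * a → b ≤ Y → F a b ≤ (a : ℝ) ^ (0.99 : ℝ)) :
    ∀ k a b : ℕ, X ≤ a → a ≤ b → b ≤ Y → b ≤ 2 ^ k * a → F a b ≤ k * (Y : ℝ) ^ (0.99 : ℝ) := by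
  intro k
  induction k with
  | zero =>
    intro a b _ hab _ hk
    have : a = b := by rw [pow_zero, one_mul] at hk; omega
    subst this
    rw [h0]; simp
  | succ k ih =>
    intro a b ha hab hb hk
    have hY : (a : ℝ) ^ (0.99 : ℝ) ≤ (Y : ℝ) ^ (0.99 : ℝ) :=
      Real.rpow_le_rpow (Nat.cast_nonneg _) (Nat.cast_le.2 (hab.trans hb)) (by norm_num)
    have hY0 : 0 ≤ (Y : ℝ) ^ (0.99 : ℝ) := Real.rpow_nonneg (Nat.cast_nonneg _) _
    rcases le_or_gt b (2 * a) with h | h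
    · have h1 := hp a b ha hab h hb
      push_cast
      nlinarith [mul_nonneg (Nat.cast_nonneg (α := ℝ) k) hY0]
    · have h1 := hp a (2 * a) ha (by omega) le_rfl (by omega)
      have h2 := ih (2 * a) b (by omega) h.le hb (by rw [pow_succ] at hk; linarith)
      rw [hadd a (2 * a) b (by omega) h.le]
      push_cast
      linarith

theorem logev : ∀ᶠ Y : ℕ in atTop, ((Nat.log 2 Y + 1 : ℕ) : ℝ) ≤ (Y : ℝ) ^ (0.005 : ℝ) := by
  have h1 : ∀ᶠ x : ℝ in atTop, |Real.log x| ≤ (1 / 4) * |x ^ (0.005 : ℝ)| := by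
    have h := (isLittleO_log_rpow_atTop (r := (0.005 : ℝ)) (by norm_num)).def
      (c := 1 / 4) (by norm_num)
    exact h
  have h2 : ∀ᶠ x : ℝ in atTop, (4 : ℝ) ≤ x ^ (0.005 : ℝ) :=
    (tendsto_rpow_atTop (by norm_num : (0 : ℝ) < 0.005)).eventually_ge_atTop 4
  have h3 := (tendsto_natCast_atTop_atTop (R := ℝ)).eventually (h1.and h2)
  filter_upwards [h3, eventually_ge_atTop 1] with Y hY hY1
  obtain ⟨ha, hb⟩ := hY
  have hlog : ((Nat.log 2 Y : ℕ) : ℝ) ≤ Real.logb 2 Y := by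
    have := Real.natLog_le_logb Y 2
    exact_mod_cast this
  have hlog2 : (1 / 2 : ℝ) ≤ Real.log 2 := by
    have := Real.log_two_gt_d9; linarith
  have hY0 : 0 ≤ Real.log Y := Real.log_nonneg (by exact_mod_cast hY1)
  have h4 : Real.logb 2 Y ≤ 2 * Real.log Y := by
    unfold Real.logb
    rw [div_le_iff₀ (by linarith)]
    nlinarith
  rw [abs_of_nonneg hY0, abs_of_nonneg (by linarith)] at ha
  push_cast
  linarith

theorem err {Y : ℕ} (hY : 1 ≤ Y) (h : ((Nat.log 2 Y + 1 : ℕ) : ℝ) ≤ (Y : ℝ) ^ (0.005 : ℝ)) :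
    ((Nat.log 2 Y + 1 : ℕ) : ℝ) * (Y : ℝ) ^ (0.99 : ℝ) ≤ (Y : ℝ) ^ (0.995 : ℝ) := by
  have hY0 : (0 : ℝ) < Y := by exact_mod_cast hY
  have e : (Y : ℝ) ^ (0.995 : ℝ) = (Y : ℝ) ^ (0.005 : ℝ) * (Y : ℝ) ^ (0.99 : ℝ) := by
    rw [← Real.rpow_add hY0]; norm_num
  rw [e]
  exact mul_le_mul_of_nonneg_right h (Real.rpow_nonneg hY0.le _)

theorem cl_eq {X : ℕ} {t : ℝ} (h1 : (X : ℝ) ^ (-(0.001 : ℝ)) ≤ t) (h2 : t ≤ 1) : cl X t = t := by
  unfold cl
  rw [min_eq_left h2, max_eq_right h1]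

end CHNN

open CHNN in
theorem chn : S_CHN := by
  classical
  intro W H A ε T Z t b hε hCB hLaw
  obtain ⟨X1, hX1⟩ := eventually_atTop.1 hCB
  obtain ⟨X2, hX2⟩ := eventually_atTop.1 hLaw
  obtain ⟨X3, hX3⟩ := eventually_atTop.1 logev
  filter_upwards [eventually_ge_atTop (X1 + X2 + X3 + 1)] with X hXX n Y hZ hn hXY ht1 ht2
  have hX0 : (0 : ℝ) < X := by
    have : 0 < X := by omega
    exact_mod_cast this
  have hYlog := hX3 Y (by omega)
  have hk : Y ≤ 2 ^ (Nat.log 2 Y + 1) * X := by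
    have h1 : Y < 2 ^ (Nat.log 2 Y + 1) := Nat.lt_pow_succ_log_self (by norm_num) Y
    have h2 : 2 ^ (Nat.log 2 Y + 1) * 1 ≤ 2 ^ (Nat.log 2 Y + 1) * X :=
      Nat.mul_le_mul_left _ (by omega)
    omega
  -- additivity
  have hN : ∀ a b' c : ℕ, a ≤ b' → b' ≤ c → (NT z0 W H Set.univ (fun _ => T n b) a c b : ℝ) =
      NT z0 W H Set.univ (fun _ => T n b) a b' b + NT z0 W H Set.univ (fun _ => T n b) b' c b := by
    intro a b' c h1 h2
    unfold NT
    rw [← Nat.cast_add]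
    exact congrArg _ (card_add _ _ h1 h2)
  have hM : ∀ a b' c : ℕ, a ≤ b' → b' ≤ c → (MT z0 W H Set.univ a c b : ℝ) =
      MT z0 W H Set.univ a b' b + MT z0 W H Set.univ b' c b := by
    intro a b' c h1 h2
    unfold MT
    rw [← Nat.cast_add]
    exact congrArg _ (card_add _ _ h1 h2)
  have hN0 : ∀ a : ℕ, (NT z0 W H Set.univ (fun _ => T n b) a a b : ℝ) = 0 := by
    intro a; unfold NT; simp
  have hM0 : ∀ a : ℕ, (MT z0 W H Set.univ a a b : ℝ) = 0 := by
    intro a; unfold MT; simp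
  -- the law for a piece
  have hpc : ∀ a c : ℕ, X ≤ a → a ≤ c → c ≤ 2 * a → c ≤ Y →
      ((∀ j, pin (RS z0 W b) a ≤ j + hX a + 1 → j ≤ pin (RS z0 W b) c + 3 * uX a →
        ((T n b ∩ Set.Ioc j (j + hX a)).ncard : ℝ) ≤ t n * hX a) →
        (NT z0 W H Set.univ (fun _ => T n b) a c b : ℝ) ≤
          (1 + ε) * (t n * MT z0 W H Set.univ a c b) + (a : ℝ) ^ (0.99 : ℝ)) ∧
      ((∀ j, pin (RS z0 W b) a ≤ j + hX a + 1 → j ≤ pin (RS z0 W b) c + 3 * uX a →
        t n * hX a ≤ ((T n b ∩ Set.Ioc j (j + hX a)).ncard : ℝ)) →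
        (1 - ε) * (t n * MT z0 W H Set.univ a c b) - (a : ℝ) ^ (0.99 : ℝ) ≤
          NT z0 W H Set.univ (fun _ => T n b) a c b) := by
    intro a c ha hac hc2 hcY
    have h1 := hX2 a (by omega) n (hn.trans (Nat.pow_le_pow_left ha A)) c hac hc2 (hX1 a (by omega))
    have hcl : cl a (t n) = t n := by
      apply cl_eq _ ht2
      refine le_trans ?_ ht1
      exact Real.rpow_le_rpow_of_nonpos hX0 (by exact_mod_cast ha) (by norm_num)
    simp only [hZ.trans ha, if_true, hcl] at h1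
    exact ⟨fun h => h1.1 (fun p _ _ _ j hj1 hj2 => h j hj1 hj2),
      fun h => h1.2 (fun p _ _ _ j hj1 hj2 => h j hj1 hj2)⟩
  constructor
  · intro hU
    have hch := chain (fun a c => (NT z0 W H Set.univ (fun _ => T n b) a c b : ℝ) -
        (1 + ε) * (t n * MT z0 W H Set.univ a c b)) X Y
      (fun a => by simp only [hN0, hM0]; ring)
      (fun a b' c h1 h2 => by simp only [hN a b' c h1 h2, hM a b' c h1 h2]; ring)
      (fun a c ha hac hc2 hcY => by
        have h1 := (hpc a c ha hac hc2 hcY).1 (fun j hj1 hj2 =>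
          hU j (hX a) (hX_mono ha) (hX_mono (hac.trans hcY))
            ((pin_mono _ ha).trans hj1)
            (hj2.trans (Nat.add_le_add (pin_mono _ hcY)
              (Nat.mul_le_mul_left 3 (uX_mono (hac.trans hcY))))))
        linarith)
      (Nat.log 2 Y + 1) X Y le_rfl hXY le_rfl hk
    have he := err (by omega : 1 ≤ Y) hYlog
    linarith
  · intro hL
    have hch := chain (fun a c => (1 - ε) * (t n * MT z0 W H Set.univ a c b) -
        (NT z0 W H Set.univ (fun _ => T n b) a c b : ℝ)) X Y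
      (fun a => by simp only [hN0, hM0]; ring)
      (fun a b' c h1 h2 => by simp only [hN a b' c h1 h2, hM a b' c h1 h2]; ring)
      (fun a c ha hac hc2 hcY => by
        have h1 := (hpc a c ha hac hc2 hcY).2 (fun j hj1 hj2 =>
          hL j (hX a) (hX_mono ha) (hX_mono (hac.trans hcY))
            ((pin_mono _ ha).trans hj1)
            (hj2.trans (Nat.add_le_add (pin_mono _ hcY)
              (Nat.mul_le_mul_left 3 (uX_mono (hac.trans hcY))))))
        linarith)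
      (Nat.log 2 Y + 1) X Y le_rfl hXY le_rfl hk
    have he := err (by omega : 1 ≤ Y) hYlog
    linarith

end Pool.Agent.H531.IX
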