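import Pool.Agent.H531.IX.Stm2

set_option autoImplicit false

/-!
# CNT: total counts from the windows

Only the windows `(X, 2X]` are needed: with `g x = f x (log x)^k / x` one gets
`|g x - S| ≤ (2/3) |g (x/2) - S| + ε` for large `x`, and this implies `g → S` (`rec_lim`).
-/

open Finset MeasureTheory ProbabilityTheory Filter Topology

namespace Pool.Agent.H531.IX

open Pool.Agent.T2H32.BF (Model z0 V)
open Pool.Agent.H559.BS (Limit)
open Pool.Agent.H559.HY (OK WW Cut)
open Pool.Agent.T2H32.GB (C2)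

namespace CNTN

/-- `u x ≤ (2/3) u (x/2) + ε` eventually for every `ε` implies `u → 0`. -/
theorem rec_lim (u : ℕ → ℝ) (h0 : ∀ x, 0 ≤ u x)
    (h : ∀ ε : ℝ, 0 < ε → ∀ᶠ x : ℕ in atTop, u x ≤ 2 / 3 * u (x / 2) + ε) :
    Tendsto u atTop (𝓝 0) := by
  rw [Metric.tendsto_atTop]
  intro ε hε
  obtain ⟨N, hN⟩ := eventually_atTop.1 (h (ε / 12) (by positivity))
  set M : ℝ := ∑ y ∈ range (N + 1), u y with hM
  have hM0 : 0 ≤ M := Finset.sum_nonneg fun y _ => h0 y
  have hb : ∀ x, u x ≤ M + ε / 4 := by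
    intro x
    induction x using Nat.strong_induction_on with
    | _ x ih =>
      rcases Nat.lt_or_ge x (N + 1) with hx | hx
      · have h1 : u x ≤ M :=
          Finset.single_le_sum (f := u) (fun y _ => h0 y) (Finset.mem_range.2 hx)
        linarith
      · have h1 := hN x (by omega)
        have h2 := ih (x / 2) (by omega)
        linarith
  have hj : ∀ j : ℕ, ∀ᶠ x : ℕ in atTop, u x ≤ (2 / 3) ^ j * (M + ε / 4) + ε / 4 := by
    intro j
    induction j with
    | zero =>
      refine Eventually.of_forall fun x => ?_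
      have := hb x
      rw [pow_zero, one_mul]
      linarith
    | succ j ih =>
      obtain ⟨K, hK⟩ := eventually_atTop.1 ih
      filter_upwards [eventually_ge_atTop (2 * K + 1), eventually_ge_atTop N] with x h1 h2
      have h3 := hN x h2
      have h4 := hK (x / 2) (by omega)
      rw [pow_succ]
      nlinarith
  have hlim : Tendsto (fun j : ℕ => ((2 : ℝ) / 3) ^ j * (M + ε / 4)) atTop (𝓝 0) := by
    have := (tendsto_pow_atTop_nhds_zero_of_lt_one (r := (2 / 3 : ℝ)) (by norm_num)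
      (by norm_num)).mul_const (M + ε / 4)
    simpa using this
  obtain ⟨j, hj1⟩ := (hlim.eventually (gt_mem_nhds (show (0 : ℝ) < ε / 4 by positivity))).exists
  obtain ⟨K, hK⟩ := eventually_atTop.1 (hj j)
  refine ⟨K, fun x hx => ?_⟩
  have h1 := hK x hx
  rw [Real.dist_eq, sub_zero, abs_of_nonneg (h0 x)]
  linarith

theorem half_lim : Tendsto (fun x : ℕ => ((x / 2 : ℕ) : ℝ) / x) atTop (𝓝 (1 / 2)) := by
  have h1 : Tendsto (fun x : ℕ => (1 / 2 : ℝ) - 1 / (x : ℝ)) atTop (𝓝 (1 / 2 - 0)) :=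
    tendsto_const_nhds.sub tendsto_one_div_atTop_nhds_zero_nat
  rw [sub_zero] at h1
  refine tendsto_of_tendsto_of_tendsto_of_le_of_le' h1 tendsto_const_nhds ?_ ?_
  · filter_upwards [eventually_ge_atTop 1] with x hx
    have hx0 : (0 : ℝ) < x := by exact_mod_cast hx
    have h2 : (x : ℝ) ≤ 2 * ((x / 2 : ℕ) : ℝ) + 1 := by
      have : x ≤ 2 * (x / 2) + 1 := by omega
      exact_mod_cast this
    rw [sub_le_iff_le_add, ← add_div, le_div_iff₀ hx0]
    linarith
  · filter_upwards [eventually_ge_atTop 1] with x hx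
    have hx0 : (0 : ℝ) < x := by exact_mod_cast hx
    have h2 : 2 * ((x / 2 : ℕ) : ℝ) ≤ x := by
      have : 2 * (x / 2) ≤ x := by omega
      exact_mod_cast this
    rw [div_le_iff₀ hx0]
    linarith

theorem half_atTop : Tendsto (fun x : ℕ => x / 2) atTop atTop := by
  refine tendsto_atTop_atTop.2 fun b => ⟨2 * b + 2, fun x hx => by omega⟩

theorem log_ratio : Tendsto (fun x : ℕ => Real.log x / Real.log ((x / 2 : ℕ) : ℝ)) atTop (𝓝 1) := by
  have hl : Tendsto (fun x : ℕ => Real.log ((x / 2 : ℕ) : ℝ)) atTop atTop :=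
    Real.tendsto_log_atTop.comp (tendsto_natCast_atTop_atTop.comp half_atTop)
  have h1 : Tendsto (fun x : ℕ => (1 : ℝ) + Real.log 3 / Real.log ((x / 2 : ℕ) : ℝ)) atTop
      (𝓝 (1 + 0)) := tendsto_const_nhds.add (hl.const_div_atTop _)
  rw [add_zero] at h1
  refine tendsto_of_tendsto_of_tendsto_of_le_of_le' tendsto_const_nhds h1 ?_ ?_
  · filter_upwards [eventually_ge_atTop 4] with x hx
    have h2 : (1 : ℝ) < ((x / 2 : ℕ) : ℝ) := by
      have : 1 < x / 2 := by omega
      exact_mod_cast this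
    have h3 : ((x / 2 : ℕ) : ℝ) ≤ x := by
      have : x / 2 ≤ x := by omega
      exact_mod_cast this
    rw [le_div_iff₀ (Real.log_pos h2), one_mul]
    exact Real.log_le_log (by linarith) h3
  · filter_upwards [eventually_ge_atTop 4] with x hx
    have h2 : (1 : ℝ) < ((x / 2 : ℕ) : ℝ) := by
      have : 1 < x / 2 := by omega
      exact_mod_cast this
    have h3 : (x : ℝ) ≤ 3 * ((x / 2 : ℕ) : ℝ) := by
      have : x ≤ 3 * (x / 2) := by omega
      exact_mod_cast this
    have h4 : 0 < Real.log ((x / 2 : ℕ) : ℝ) := Real.log_pos h2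
    have h5 : Real.log x ≤ Real.log 3 + Real.log ((x / 2 : ℕ) : ℝ) := by
      rw [← Real.log_mul (by norm_num) (by linarith)]
      refine Real.log_le_log ?_ h3
      have : 0 < x := by omega
      exact_mod_cast this
    rw [div_le_iff₀ h4, add_mul, div_mul_cancel₀ _ h4.ne']
    linarith

/-- from dyadic windows to total counts -/
theorem total (f : ℕ → ℝ) (k : ℕ) (S : ℝ) (hS : 0 ≤ S) (hmono : ∀ x, f x ≤ f (x + 1))
    (hstep : ∀ x, f (x + 1) ≤ f x + 1)
    (h : ∀ ε : ℝ, 0 < ε → ∀ᶠ X : ℕ in atTop,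
      |(f (X + X) - f X) * Real.log X ^ k / X - S| ≤ ε) :
    Tendsto (fun x : ℕ => f x * Real.log x ^ k / x) atTop (𝓝 S) := by
  set ρ : ℕ → ℝ := fun x => ((x / 2 : ℕ) : ℝ) / x * (Real.log x / Real.log ((x / 2 : ℕ) : ℝ)) ^ k
    with hρ
  have hρl : Tendsto ρ atTop (𝓝 (1 / 2)) := by
    have := half_lim.mul (log_ratio.pow k)
    rwa [one_pow, mul_one] at this
  have hη : Tendsto (fun x : ℕ => Real.log x ^ k / (x : ℝ)) atTop (𝓝 0) := by
    have h1 : Tendsto (fun x : ℝ => Real.log x ^ k / x) atTop (𝓝 0) := by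
      have h2 : (fun x : ℝ => Real.log x ^ k) =o[atTop] fun x => x ^ (1 : ℕ) := by
        have := isLittleO_log_rpow_rpow_atTop (s := 1) (k : ℝ) one_pos
        refine (this.congr' ?_ ?_)
        · exact Eventually.of_forall fun x => by simp
        · exact Eventually.of_forall fun x => by simp
      have h3 := h2.tendsto_div_nhds_zero
      simpa using h3
    exact h1.comp tendsto_natCast_atTop_atTop
  have hmain : Tendsto (fun x : ℕ => |f x * Real.log x ^ k / x - S|) atTop (𝓝 0) := by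
    refine rec_lim _ (fun x => abs_nonneg _) fun ε hε => ?_
    have e1 : ∀ᶠ x : ℕ in atTop, ρ x < 2 / 3 := hρl.eventually (gt_mem_nhds (by norm_num))
    have e1' : ∀ᶠ x : ℕ in atTop, 0 < ρ x := hρl.eventually (lt_mem_nhds (by norm_num))
    have e2 : ∀ᶠ x : ℕ in atTop, |(f (x / 2 + x / 2) - f (x / 2)) *
        Real.log ((x / 2 : ℕ) : ℝ) ^ k / ((x / 2 : ℕ) : ℝ) - S| ≤ ε / 4 :=
      half_atTop.eventually (h (ε / 4) (by positivity))
    have e3 : ∀ᶠ x : ℕ in atTop, |2 * ρ x - 1| * S < ε / 4 := by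
      have h1 : Tendsto (fun x => |2 * ρ x - 1| * S) atTop (𝓝 (|2 * (1 / 2) - 1| * S)) :=
        (((hρl.const_mul 2).sub_const 1).abs).mul_const S
      have h2 : (|2 * (1 / 2) - 1| * S : ℝ) = 0 := by norm_num
      rw [h2] at h1
      exact h1.eventually (gt_mem_nhds (by positivity))
    have e4 : ∀ᶠ x : ℕ in atTop, Real.log x ^ k / (x : ℝ) < ε / 4 :=
      hη.eventually (gt_mem_nhds (by positivity))
    filter_upwards [e1, e1', e2, e3, e4, eventually_ge_atTop 4] with x h1 h1' h2 h3 h4 hx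
    set X := x / 2 with hX
    have hX1 : (1 : ℝ) < (X : ℝ) := by
      have : 1 < X := by omega
      exact_mod_cast this
    have hX0 : (0 : ℝ) < X := by linarith
    have hx0 : (0 : ℝ) < x := by
      have : 0 < x := by omega
      exact_mod_cast this
    have hlX : 0 < Real.log (X : ℝ) := Real.log_pos hX1
    have hlx : 0 ≤ Real.log (x : ℝ) := Real.log_natCast_nonneg x
    set a := f X * Real.log X ^ k / X with ha
    set d := (f (X + X) - f X) * Real.log X ^ k / X with hd
    set e := f x - f (X + X) with he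
    have he0 : 0 ≤ e ∧ e ≤ 1 := by
      rcases (by omega : x = X + X ∨ x = X + X + 1) with h5 | h5
      · rw [he, h5]; constructor <;> simp
      · have h6 := hmono (X + X)
        have h7 := hstep (X + X)
        rw [he, h5]
        constructor <;> linarith
    have hkey : f x * Real.log x ^ k / x = (a + d) * ρ x + e * (Real.log x ^ k / x) := by
      have h5 : f x = f X + (f (X + X) - f X) + e := by rw [he]; ring
      have h6 : (a + d) * ρ x = (f X + (f (X + X) - f X)) * (Real.log x ^ k / x) := by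
        have h7 : ρ x = (X : ℝ) / x * (Real.log x ^ k / Real.log (X : ℝ) ^ k) := by
          show ((x / 2 : ℕ) : ℝ) / x * (Real.log x / Real.log ((x / 2 : ℕ) : ℝ)) ^ k = _
          rw [← hX, div_pow]
        rw [ha, hd, h7]
        have : (Real.log (X : ℝ)) ^ k ≠ 0 := (pow_pos hlX k).ne'
        field_simp
      rw [h6, h5]
      ring
    have h8 : f x * Real.log x ^ k / x - S =
        (a - S) * ρ x + (d - S) * ρ x + (2 * ρ x - 1) * S + e * (Real.log x ^ k / x) := by
      rw [hkey]; ring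
    rw [h8]
    have t1 : |(a - S) * ρ x| ≤ 2 / 3 * |a - S| := by
      rw [abs_mul, abs_of_pos h1', mul_comm]
      exact mul_le_mul_of_nonneg_right h1.le (abs_nonneg _)
    have t2 : |(d - S) * ρ x| ≤ ε / 4 := by
      rw [abs_mul, abs_of_pos h1']
      calc |d - S| * ρ x ≤ |d - S| * 1 :=
            mul_le_mul_of_nonneg_left (by linarith) (abs_nonneg _)
        _ ≤ ε / 4 := by rw [mul_one]; exact h2
    have t3 : |(2 * ρ x - 1) * S| ≤ ε / 4 := by
      rw [abs_mul, abs_of_nonneg hS]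
      exact h3.le
    have t4 : |e * (Real.log x ^ k / x)| ≤ ε / 4 := by
      have h9 : 0 ≤ Real.log (x : ℝ) ^ k / x := by positivity
      rw [abs_of_nonneg (mul_nonneg he0.1 h9)]
      calc e * (Real.log x ^ k / x) ≤ 1 * (Real.log x ^ k / x) :=
            mul_le_mul_of_nonneg_right he0.2 h9
        _ ≤ ε / 4 := by rw [one_mul]; exact h4.le
    have t5 := abs_add_le ((a - S) * ρ x + (d - S) * ρ x + (2 * ρ x - 1) * S)
      (e * (Real.log x ^ k / x))
    have t6 := abs_add_le ((a - S) * ρ x + (d - S) * ρ x) ((2 * ρ x - 1) * S)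
    have t7 := abs_add_le ((a - S) * ρ x) ((d - S) * ρ x)
    linarith
  have h1 : Tendsto (fun x : ℕ => f x * Real.log x ^ k / x - S) atTop (𝓝 0) :=
    (tendsto_zero_iff_abs_tendsto_zero _).2 hmain
  have h2 := h1.add_const S
  simpa using h2

theorem pin_mono (A : Set ℕ) (x : ℕ) : pin A x ≤ pin A (x + 1) := by
  refine Set.ncard_le_ncard ?_ ((Set.finite_Icc 1 (x + 1)).subset Set.inter_subset_right)
  intro p hp
  exact ⟨hp.1, hp.2.1, by have := hp.2.2; omega⟩

theorem pin_step (A : Set ℕ) (x : ℕ) : pin A (x + 1) ≤ pin A x + 1 := by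
  have h1 : A ∩ Set.Icc 1 (x + 1) ⊆ insert (x + 1) (A ∩ Set.Icc 1 x) := by
    intro p hp
    by_cases h : p = x + 1
    · exact Or.inl h
    · refine Or.inr ⟨hp.1, hp.2.1, ?_⟩
      have := hp.2.2
      show p ≤ x
      omega
  refine (Set.ncard_le_ncard h1 ?_).trans (Set.ncard_insert_le _ _)
  exact ((Set.finite_Icc 1 x).subset Set.inter_subset_right).insert _

theorem tw_fin (A : Set ℕ) (X Y : ℕ) : {p : ℕ | X < p ∧ p ≤ Y ∧ p ∈ A ∧ p + 2 ∈ A}.Finite :=
  (Set.finite_Icc 0 Y).subset fun _ hp => ⟨Nat.zero_le _, hp.2.1⟩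

theorem tw_mono (A : Set ℕ) (x : ℕ) : tw A 0 x ≤ tw A 0 (x + 1) := by
  refine Set.ncard_le_ncard ?_ (tw_fin A 0 (x + 1))
  intro p hp
  exact ⟨hp.1, by have := hp.2.1; omega, hp.2.2⟩

theorem tw_step (A : Set ℕ) (x : ℕ) : tw A 0 (x + 1) ≤ tw A 0 x + 1 := by
  have h1 : {p : ℕ | 0 < p ∧ p ≤ x + 1 ∧ p ∈ A ∧ p + 2 ∈ A} ⊆
      insert (x + 1) {p : ℕ | 0 < p ∧ p ≤ x ∧ p ∈ A ∧ p + 2 ∈ A} := by
    intro p hp
    by_cases h : p = x + 1
    · exact Or.inl h
    · exact Or.inr ⟨hp.1, by have := hp.2.1; omega, hp.2.2⟩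
  exact (Set.ncard_le_ncard h1 ((tw_fin A 0 x).insert _)).trans (Set.ncard_insert_le _ _)

theorem tw_add (A : Set ℕ) (X y : ℕ) : tw A 0 (X + y) = tw A 0 X + tw A X (X + y) := by
  unfold tw
  rw [← Set.ncard_union_eq ?_ (tw_fin A 0 X) (tw_fin A X (X + y))]
  · congr 1
    ext p
    constructor
    · rintro ⟨h1, h2, h3⟩
      by_cases h : p ≤ X
      · exact Or.inl ⟨h1, h, h3⟩
      · exact Or.inr ⟨by omega, h2, h3⟩
    · rintro (⟨h1, h2, h3⟩ | ⟨h1, h2, h3⟩)
      · exact ⟨h1, by omega, h3⟩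
      · exact ⟨by omega, h2, h3⟩
  · refine Set.disjoint_left.2 fun p hp hq => ?_
    have h1 := hp.2.1
    have h2 := hq.1
    omega

end CNTN

open CNTN in
theorem cnt : S_CNT := by
  intro hW z hz c c₂ hc hC b hb
  have hwin : ∀ ε : ℝ, 0 < ε → ∀ᶠ X : ℕ in atTop,
      |((pin (RS z (WW c) b) (X + X) : ℝ) - pin (RS z (WW c) b) X) * Real.log X / X - 1| ≤ ε ∧
      |(tw (RS z (WW c) b) X (X + X) : ℝ) * Real.log X ^ 2 / X - 2 * c₂| ≤ ε := by
    intro ε hε
    filter_upwards [hW z hz c c₂ hc hC b hb (1 / 2) ε (by norm_num) hε, eventually_ge_atTop 1]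
      with X hX h1
    refine hX X ?_ le_rfl
    have h2 : (1 : ℝ) ≤ X := by exact_mod_cast h1
    calc (X : ℝ) ^ (1 / 2 : ℝ) ≤ (X : ℝ) ^ (1 : ℝ) :=
          Real.rpow_le_rpow_of_exponent_le h2 (by norm_num)
      _ = X := Real.rpow_one _
  have hc0 : 0 ≤ c₂ := by
    by_contra hneg
    push Not at hneg
    obtain ⟨X, hX1, hX2⟩ := ((hwin (-c₂) (by linarith)).and (eventually_ge_atTop 1)).exists
    have h1 := (abs_le.1 hX1.2).2
    have h2 : 0 ≤ (tw (RS z (WW c) b) X (X + X) : ℝ) * Real.log X ^ 2 / X := by positivity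
    linarith
  constructor
  · have := total (fun x => (pin (RS z (WW c) b) x : ℝ)) 1 1 zero_le_one
      (fun x => by exact_mod_cast pin_mono _ x) (fun x => by exact_mod_cast pin_step _ x)
      (fun ε hε => by
        filter_upwards [hwin ε hε] with X hX
        simpa using hX.1)
    simpa using this
  · refine total (fun x => (tw (RS z (WW c) b) 0 x : ℝ)) 2 (2 * c₂) (by linarith)
      (fun x => by exact_mod_cast tw_mono _ x) (fun x => by exact_mod_cast tw_step _ x)
      (fun ε hε => ?_)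
    filter_upwards [hwin ε hε] with X hX
    have h1 : ((tw (RS z (WW c) b) 0 (X + X) : ℕ) : ℝ) - (tw (RS z (WW c) b) 0 X : ℕ) =
        (tw (RS z (WW c) b) X (X + X) : ℕ) := by
      rw [tw_add]
      push_cast
      ring
    show |((tw (RS z (WW c) b) 0 (X + X) : ℝ) - (tw (RS z (WW c) b) 0 X : ℝ)) *
      Real.log X ^ 2 / X - 2 * c₂| ≤ ε
    rw [h1]
    exact hX.2

end Pool.Agent.H531.IX
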