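import Pool.Agent.H531.IX.Stm3

set_option autoImplicit false

/-!
# The index of a random prime: EBL, the asymptotic lower bound (helper399)
-/

open Finset MeasureTheory ProbabilityTheory Filter Topology

namespace Pool.Agent.H531.IX

open Pool.Agent.T2H32.BF (z0 V)
open Pool.Agent.H559.BS (Limit)
open Pool.Agent.H559.HY (OK WW)
open Pool.Agent.T2H32.GB (C2)

namespace EBLN

/-! ### asymptotics -/

theorem log_top : Tendsto (fun n : ℕ => Real.log n) atTop atTop :=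
  Real.tendsto_log_atTop.comp tendsto_natCast_atTop_atTop

theorem x_top (e : ℕ) : Tendsto (fun n : ℕ => (n : ℝ) * Real.log n ^ e) atTop atTop := by
  refine tendsto_atTop_mono' atTop ?_ (tendsto_natCast_atTop_atTop (R := ℝ))
  filter_upwards [log_top.eventually_ge_atTop 1] with n hn
  have h1 : (1 : ℝ) ≤ Real.log n ^ e := one_le_pow₀ hn
  have h2 : (0 : ℝ) ≤ n := Nat.cast_nonneg n
  nlinarith

theorem ratio_top {u : ℕ → ℕ} {s : ℝ} {e : ℕ} (hs : 0 < s)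
    (hu : Tendsto (fun n : ℕ => (u n : ℝ) / (n * Real.log n ^ e)) atTop (𝓝 s)) :
    Tendsto u atTop atTop := by
  rw [← tendsto_natCast_atTop_iff (R := ℝ)]
  refine (Tendsto.pos_mul_atTop hs hu (x_top e)).congr' ?_
  filter_upwards [(x_top e).eventually_gt_atTop 0] with n hn
  exact div_mul_cancel₀ _ hn.ne'

theorem loglog : Tendsto (fun n : ℕ => Real.log (Real.log n) / Real.log n) atTop (𝓝 0) := by
  have h1 := Real.isLittleO_log_id_atTop.tendsto_div_nhds_zero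
  exact h1.comp log_top

theorem ratio_log {u : ℕ → ℕ} {s : ℝ} {e : ℕ} (hs : 0 < s)
    (hu : Tendsto (fun n : ℕ => (u n : ℝ) / (n * Real.log n ^ e)) atTop (𝓝 s)) :
    Tendsto (fun n : ℕ => Real.log (u n) / Real.log n) atTop (𝓝 1) := by
  have h1 : Tendsto (fun n : ℕ => Real.log ((u n : ℝ) / (n * Real.log n ^ e)) / Real.log n) atTop (𝓝 0) :=
    ((Real.continuousAt_log hs.ne').tendsto.comp hu).div_atTop log_top
  have h2 : Tendsto (fun n : ℕ => Real.log ((u n : ℝ) / (n * Real.log n ^ e)) / Real.log n +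
      (1 + e * (Real.log (Real.log n) / Real.log n))) atTop (𝓝 (0 + (1 + e * 0))) :=
    h1.add (tendsto_const_nhds.add (loglog.const_mul _))
  rw [mul_zero, add_zero, zero_add] at h2
  refine h2.congr' ?_
  filter_upwards [log_top.eventually_gt_atTop 0, eventually_gt_atTop 0,
    (ratio_top hs hu).eventually_gt_atTop 0] with n hl hn hun
  have hn' : (n : ℝ) ≠ 0 := Nat.cast_ne_zero.2 hn.ne'
  have hun' : (u n : ℝ) ≠ 0 := Nat.cast_ne_zero.2 hun.ne'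
  have hle : Real.log n ^ e ≠ 0 := pow_ne_zero _ hl.ne'
  rw [Real.log_div hun' (mul_ne_zero hn' hle), Real.log_mul hn' hle, Real.log_pow]
  field_simp
  ring

theorem comp {f : ℕ → ℝ} {S : ℝ} {m : ℕ}
    (hf : Tendsto (fun x : ℕ => f x * Real.log x ^ m / x) atTop (𝓝 S)) {u : ℕ → ℕ} {s : ℝ} {e : ℕ}
    (hs : 0 < s) (hu : Tendsto (fun n : ℕ => (u n : ℝ) / (n * Real.log n ^ e)) atTop (𝓝 s)) :
    Tendsto (fun n : ℕ => f (u n) * Real.log n ^ m / (n * Real.log n ^ e)) atTop (𝓝 (S * s)) := by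
  have h1 := hf.comp (ratio_top hs hu)
  have h2 : Tendsto (fun n : ℕ => (Real.log (u n) / Real.log n)⁻¹ ^ m) atTop (𝓝 1) := by
    have h3 := ((ratio_log hs hu).inv₀ one_ne_zero).pow m
    rwa [inv_one, one_pow] at h3
  have h3 := (h1.mul hu).mul h2
  rw [mul_one] at h3
  refine h3.congr' ?_
  filter_upwards [log_top.eventually_gt_atTop 0, eventually_gt_atTop 0,
    (ratio_top hs hu).eventually_gt_atTop 1] with n hl hn hun
  have hn' : (n : ℝ) ≠ 0 := Nat.cast_ne_zero.2 hn.ne'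
  have hun' : (u n : ℝ) ≠ 0 := Nat.cast_ne_zero.2 (by omega)
  have hlu : Real.log (u n) ≠ 0 := (Real.log_pos (by exact_mod_cast hun)).ne'
  simp only [Function.comp_apply]
  rw [inv_div, div_pow]
  field_simp

theorem comp11 {f : ℕ → ℝ} {S : ℝ} {m : ℕ}
    (hf : Tendsto (fun x : ℕ => f x * Real.log x ^ m / x) atTop (𝓝 S)) {u : ℕ → ℕ} {s : ℝ}
    (hs : 0 < s) (hu : Tendsto (fun n : ℕ => (u n : ℝ) / (n * Real.log n ^ m)) atTop (𝓝 s)) :
    Tendsto (fun n : ℕ => f (u n) / n) atTop (𝓝 (S * s)) := by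
  refine (comp hf hs hu).congr' ?_
  filter_upwards [log_top.eventually_gt_atTop 0] with n hl
  exact mul_div_mul_right _ _ (pow_ne_zero m hl.ne')

theorem comp12 {f : ℕ → ℝ} {S : ℝ}
    (hf : Tendsto (fun x : ℕ => f x * Real.log x / x) atTop (𝓝 S)) {u : ℕ → ℕ} {s : ℝ}
    (hs : 0 < s) (hu : Tendsto (fun n : ℕ => (u n : ℝ) / (n * Real.log n ^ 2)) atTop (𝓝 s)) :
    Tendsto (fun n : ℕ => f (u n) / (n * Real.log n)) atTop (𝓝 (S * s)) := by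
  have hf' : Tendsto (fun x : ℕ => f x * Real.log x ^ 1 / x) atTop (𝓝 S) := by
    simpa only [pow_one] using hf
  refine (comp hf' hs hu).congr' ?_
  filter_upwards [log_top.eventually_gt_atTop 0] with n hl
  rw [pow_one, sq, ← mul_assoc]
  exact mul_div_mul_right _ _ hl.ne'

theorem floor_ratio (s : ℝ) (hs : 0 ≤ s) (e : ℕ) :
    Tendsto (fun n : ℕ => (⌊s * (n * Real.log n ^ e)⌋₊ : ℝ) / (n * Real.log n ^ e)) atTop (𝓝 s) :=
  (tendsto_nat_floor_mul_div_atTop hs).comp (x_top e)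

theorem ceil_ratio (s : ℝ) (hs : 0 ≤ s) (e : ℕ) :
    Tendsto (fun n : ℕ => (⌈s * (n * Real.log n ^ e)⌉₊ : ℝ) / (n * Real.log n ^ e)) atTop (𝓝 s) :=
  (tendsto_nat_ceil_mul_div_atTop hs).comp (x_top e)

theorem log_le (C : ℝ) (hC : 0 < C) :
    ∀ᶠ n : ℕ in atTop, Real.log n ^ 2 ≤ C * (n : ℝ) ^ (0.001 : ℝ) := by
  have h1 := (isLittleO_log_rpow_rpow_atTop 2 (s := 0.001) (by norm_num)).def hC
  have h2 := (tendsto_natCast_atTop_atTop (R := ℝ)).eventually h1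
  filter_upwards [h2] with n hn
  rw [Real.norm_of_nonneg (by positivity : (0 : ℝ) ≤ (n : ℝ) ^ (0.001 : ℝ))] at hn
  refine le_trans (le_trans (le_of_eq ?_) (le_abs_self _)) hn
  exact (Real.rpow_two _).symm

theorem rpow_ge (α C : ℝ) (hα : 0 < α) : ∀ᶠ n : ℕ in atTop, C ≤ (n : ℝ) ^ α :=
  ((tendsto_rpow_atTop hα).comp (tendsto_natCast_atTop_atTop (R := ℝ))).eventually_ge_atTop C

/-! ### counting -/

theorem pin_mono (A : Set ℕ) {x y : ℕ} (h : x ≤ y) : pin A x ≤ pin A y :=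
  Set.ncard_le_ncard (Set.inter_subset_inter_right _ (Set.Icc_subset_Icc_right h))
    ((Set.finite_Icc 1 y).inter_of_right _)

theorem inf_of_pin {A : Set ℕ} (h : Tendsto (fun x : ℕ => (pin A x : ℝ) * Real.log x / x) atTop (𝓝 1)) :
    A.Infinite := by
  intro hA
  have h1 : Tendsto (fun x : ℕ => (A.ncard : ℝ) * (Real.log x / x)) atTop (𝓝 (A.ncard * 0)) := by
    have h2 := Real.isLittleO_log_id_atTop.tendsto_div_nhds_zero
    exact (h2.comp (tendsto_natCast_atTop_atTop (R := ℝ))).const_mul _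
  rw [mul_zero] at h1
  have h3 : Tendsto (fun x : ℕ => (pin A x : ℝ) * Real.log x / x) atTop (𝓝 0) := by
    refine tendsto_of_tendsto_of_tendsto_of_le_of_le' tendsto_const_nhds h1 ?_ ?_
    · filter_upwards [log_top.eventually_ge_atTop 0] with x hx
      positivity
    · filter_upwards [log_top.eventually_ge_atTop 0] with x hx
      rw [mul_div_assoc]
      have h4 : (pin A x : ℝ) ≤ A.ncard := by
        exact_mod_cast Set.ncard_le_ncard Set.inter_subset_left hA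
      exact mul_le_mul_of_nonneg_right h4 (by positivity)
  exact zero_ne_one (tendsto_nhds_unique h3 h)

theorem NB_finite (hN : S_NTH) {A : Set ℕ} (hA : A.Infinite) (h0 : 0 ∉ A) (δ : ℝ) (n : ℕ) :
    {p : ℕ | p ∈ A ∧ p + 2 ∈ A ∧ pin A p ∈ A ∧ δ * n ≤ pin A (pin A p) ∧ pin A (pin A p) < n ∧
      rk A (n - pin A (pin A p)) + 2 ∈ A}.Finite := by
  refine ((Set.finite_Iio n).image fun m => rk A (rk A m)).subset ?_
  rintro p ⟨h1, _, h2, _, h3, _⟩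
  refine ⟨pin A (pin A p), h3, ?_⟩
  simp only
  rw [((hN A hA h0).1 _ h2).1, ((hN A hA h0).1 p h1).1]

theorem mem_filter' {s : Finset ℕ} {p : ℕ → Prop} {inst : DecidablePred p} {a : ℕ} :
    a ∈ @Finset.filter ℕ p inst s ↔ a ∈ s ∧ p a := Finset.mem_filter

theorem NT_le (hN : S_NTH) (z W : ℕ → ℕ) (b : ℕ → ℕ) (hA : (RS z W b).Infinite) (δ κ : ℝ) (n Z X Y : ℕ) :
    NT z W {0, 2} Set.univ (fun _ => TF (RS z W b) δ κ n Z) X Y b ≤ NB (RS z W b) δ n := by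
  classical
  have h0 : 0 ∉ RS z W b := by
    rintro ⟨h, _⟩
    omega
  unfold NT NB
  rw [← Set.ncard_coe_finset]
  refine Set.ncard_le_ncard ?_ (NB_finite hN hA h0 δ n)
  intro p hp
  obtain ⟨_, _, h1, h2, _, h3, h4, _, t, ht1, _, ht2, ht3⟩ :=
    mem_filter'.1 (Finset.mem_coe.1 hp)
  refine ⟨by simpa using h1 0 (by simp), h1 2 (by simp), h2, h3, h4, ?_⟩
  rw [← ht3, ((hN _ hA h0).1 t ht1).1]
  exact ht2

theorem tw_eq (A : Set ℕ) [DecidablePred fun p => p ∈ A ∧ p + 2 ∈ A] (X Y : ℕ) :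
    tw A X Y = ((Ioc X Y).filter fun p => p ∈ A ∧ p + 2 ∈ A).card := by
  unfold tw
  rw [← Set.ncard_coe_finset]
  congr 1
  ext p
  simp only [Set.mem_ofPred_eq, Finset.coe_filter, Finset.mem_Ioc]
  tauto

theorem tw_add (A : Set ℕ) {X Y : ℕ} (h : X ≤ Y) : tw A 0 Y = tw A 0 X + tw A X Y := by
  classical
  rw [tw_eq, tw_eq, tw_eq, ← Finset.card_union_of_disjoint, ← Finset.filter_union,
    Finset.Ioc_union_Ioc_eq_Ioc (Nat.zero_le X) h]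
  apply Finset.disjoint_filter_filter
  rw [Finset.disjoint_left]
  intro p hp hq
  rw [Finset.mem_Ioc] at hp hq
  omega

theorem MT_eq (z W : ℕ → ℕ) (b : ℕ → ℕ) (X Y : ℕ) :
    MT z W {0, 2} Set.univ X Y b = tw (RS z W b) X Y := by
  classical
  rw [tw_eq]
  unfold MT
  congr 1
  refine Finset.ext fun p => ?_
  refine mem_filter'.trans (Iff.trans ?_ mem_filter'.symm)
  refine and_congr_right fun _ => ?_
  constructor
  · rintro ⟨_, h⟩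
    exact ⟨by simpa using h 0 (by simp), h 2 (by simp)⟩
  · rintro ⟨h1, h2⟩
    refine ⟨Set.mem_univ p, fun i hi => ?_⟩
    rw [Finset.mem_insert, Finset.mem_singleton] at hi
    rcases hi with rfl | rfl
    · exact h1
    · exact h2

theorem rpow_small (C : ℝ) (hC : 0 < C) (β : ℝ) (hβ : β < 1) :
    ∀ᶠ n : ℕ in atTop, (n : ℝ) ^ β ≤ C * n := by
  filter_upwards [rpow_ge (1 - β) (1 / C) (by linarith), eventually_gt_atTop 0] with n h1 h2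
  have hn : (0 : ℝ) < n := Nat.cast_pos.2 h2
  have h3 : (n : ℝ) = (n : ℝ) ^ β * (n : ℝ) ^ (1 - β) := by
    rw [← Real.rpow_add hn, add_sub_cancel, Real.rpow_one]
  rw [div_le_iff₀ hC] at h1
  calc (n : ℝ) ^ β = (n : ℝ) ^ β * 1 := (mul_one _).symm
    _ ≤ (n : ℝ) ^ β * ((n : ℝ) ^ (1 - β) * C) :=
        mul_le_mul_of_nonneg_left h1 (Real.rpow_nonneg hn.le _)
    _ = C * ((n : ℝ) ^ β * (n : ℝ) ^ (1 - β)) := by ring
    _ = C * n := by rw [← h3]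

theorem half_small (C : ℝ) (hC : 0 < C) (K : ℝ) :
    ∀ᶠ n : ℕ in atTop, K * (n : ℝ) ≤ C * (n * Real.log n) := by
  filter_upwards [log_top.eventually_ge_atTop (K / C)] with n hn
  rw [div_le_iff₀ hC] at hn
  have h2 : (0 : ℝ) ≤ n := Nat.cast_nonneg n
  calc K * (n : ℝ) ≤ (Real.log n * C) * n := mul_le_mul_of_nonneg_right hn h2
    _ = C * (n * Real.log n) := by ring

/-- powers of a number which is at most `n ^ 1.001` -/
theorem pow_bd {n y : ℕ} (hn : 1 ≤ n) (hy : (y : ℝ) ≤ (n : ℝ) ^ (1.001 : ℝ)) {β γ : ℝ} (hβ : 0 ≤ β)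
    (h : 1.001 * β ≤ γ) : (y : ℝ) ^ β ≤ (n : ℝ) ^ γ := by
  have hn' : (1 : ℝ) ≤ n := by exact_mod_cast hn
  calc (y : ℝ) ^ β ≤ ((n : ℝ) ^ (1.001 : ℝ)) ^ β := Real.rpow_le_rpow (Nat.cast_nonneg _) hy hβ
    _ = (n : ℝ) ^ (1.001 * β) := by rw [← Real.rpow_mul (by linarith)]
    _ ≤ (n : ℝ) ^ γ := Real.rpow_le_rpow_of_exponent_le hn' h

/-- the numbers for one `n` -/
theorem q1 {n : ℕ} {aa dd r : ℝ} (hn1 : (1 : ℝ) ≤ n) (haa0 : 0 < aa) (hdd0 : 0 < dd) (hdd1 : dd ≤ 1)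
    (hda : 0 < dd - aa) (c11 : Real.log n ^ 2 ≤ 1 * (n : ℝ) ^ (0.001 : ℝ))
    (c12 : Real.log n ^ 2 ≤ r * (n : ℝ) ^ (0.001 : ℝ)) (c15 : 1 ≤ Real.log n)
    (c16 : 2 / aa ≤ Real.log n) (c17 : r ≤ Real.log n)
    (c18 : 2 / (dd - aa) ≤ (n : ℝ) * Real.log n ^ 2) {X Y : ℕ}
    (hX : X = ⌈aa * (n * Real.log n ^ 2)⌉₊) (hY : Y = ⌊dd * (n * Real.log n ^ 2)⌋₊) :
    (n : ℝ) ≤ X ∧ (Y : ℝ) ≤ (n : ℝ) ^ (1.001 : ℝ) ∧ X ≤ Y ∧ ZF n ≤ X ∧ n ≤ X ^ 2 ∧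
      (X : ℝ) ^ (-(0.001 : ℝ)) ≤ r / Real.log n ^ 2 ∧ r / Real.log n ^ 2 ≤ 1 := by
  have hn0 : (0 : ℝ) < n := by linarith
  have hl0 : 0 < Real.log n := by linarith
  have hnl : 0 < (n : ℝ) * Real.log n := mul_pos hn0 hl0
  have hx0 : 0 < (n : ℝ) * Real.log n ^ 2 := mul_pos hn0 (pow_pos hl0 2)
  have h16 := (div_le_iff₀ haa0).1 c16
  have hXn : (n : ℝ) ≤ X := by
    have h2 : 1 ≤ aa * Real.log n ^ 2 := by nlinarith
    have h1 : (n : ℝ) * 1 ≤ n * (aa * Real.log n ^ 2) := mul_le_mul_of_nonneg_left h2 hn0.le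
    have h3 : aa * (n * Real.log n ^ 2) ≤ X := by rw [hX]; exact Nat.le_ceil _
    linarith
  have hXn' : n ≤ X := by exact_mod_cast hXn
  have hYle : (Y : ℝ) ≤ dd * (n * Real.log n ^ 2) := by rw [hY]; exact Nat.floor_le (by positivity)
  refine ⟨hXn, ?_, ?_, ?_, ?_, ?_, ?_⟩
  · have h1 : (n : ℝ) ^ (1.001 : ℝ) = n * (n : ℝ) ^ (0.001 : ℝ) := by
      have h2 : (1.001 : ℝ) = 1 + 0.001 := by norm_num
      rw [h2, Real.rpow_add hn0, Real.rpow_one]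
    rw [h1]
    have h3 : dd * (n * Real.log n ^ 2) ≤ 1 * (n * Real.log n ^ 2) :=
      mul_le_mul_of_nonneg_right hdd1 hx0.le
    have h4 : (n : ℝ) * Real.log n ^ 2 ≤ n * (n : ℝ) ^ (0.001 : ℝ) :=
      mul_le_mul_of_nonneg_left (by linarith) hn0.le
    linarith
  · have h1 : (X : ℝ) < aa * (n * Real.log n ^ 2) + 1 := by
      rw [hX]; exact Nat.ceil_lt_add_one (by positivity)
    have h2 : dd * (n * Real.log n ^ 2) < Y + 1 := by rw [hY]; exact Nat.lt_floor_add_one _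
    have h3 : 2 ≤ (dd - aa) * (n * Real.log n ^ 2) := by
      rw [div_le_iff₀ hda] at c18
      linarith
    have h4 : (X : ℝ) < Y + 1 := by linarith
    have h5 : X < Y + 1 := by exact_mod_cast h4
    omega
  · rw [hX]
    refine Nat.ceil_mono ?_
    have h4 : 2 * (n * Real.log n) ≤ (Real.log n * aa) * (n * Real.log n) :=
      mul_le_mul_of_nonneg_right h16 hnl.le
    calc 2 * (n : ℝ) * Real.log n = 2 * (n * Real.log n) := by ring
      _ ≤ (Real.log n * aa) * (n * Real.log n) := h4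
      _ = aa * (n * Real.log n ^ 2) := by ring
  · have h1 : 1 ≤ n := by exact_mod_cast hn1
    calc n ≤ X := hXn'
      _ = X ^ 1 := (pow_one _).symm
      _ ≤ X ^ 2 := Nat.pow_le_pow_right (by omega) (by norm_num)
  · have h1 : (X : ℝ) ^ (-(0.001 : ℝ)) ≤ (n : ℝ) ^ (-(0.001 : ℝ)) :=
      Real.rpow_le_rpow_of_nonpos hn0 hXn (by norm_num)
    refine h1.trans ?_
    rw [le_div_iff₀ (pow_pos hl0 2), Real.rpow_neg hn0.le,
      inv_mul_le_iff₀ (Real.rpow_pos_of_pos hn0 _)]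
    linarith
  · rw [div_le_one (pow_pos hl0 2)]
    nlinarith

theorem q2 {n X Y : ℕ} (hn : 1 ≤ n) (hXn : (n : ℝ) ≤ X) (hY1 : (Y : ℝ) ≤ (n : ℝ) ^ (1.001 : ℝ))
    (c13 : 2 ≤ (n : ℝ) ^ (0.001 : ℝ)) :
    (n : ℝ) ^ (0.004 : ℝ) ≤ hX X ∧ (hX Y : ℝ) ≤ (n : ℝ) ^ (1 / 2 : ℝ) ∧ (uX Y : ℝ) ≤ n := by
  have hn1 : (1 : ℝ) ≤ n := by exact_mod_cast hn
  have hn0 : (0 : ℝ) < n := by linarith
  refine ⟨?_, ?_, ?_⟩
  · have h1 : (X : ℝ) ^ (0.005 : ℝ) < hX X + 1 := Nat.lt_floor_add_one _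
    have h2 : (n : ℝ) ^ (0.005 : ℝ) ≤ (X : ℝ) ^ (0.005 : ℝ) :=
      Real.rpow_le_rpow hn0.le hXn (by norm_num)
    have h3 : (n : ℝ) ^ (0.005 : ℝ) = (n : ℝ) ^ (0.004 : ℝ) * (n : ℝ) ^ (0.001 : ℝ) := by
      rw [← Real.rpow_add hn0]
      norm_num
    have h4 : 1 ≤ (n : ℝ) ^ (0.004 : ℝ) := Real.one_le_rpow hn1 (by norm_num)
    nlinarith
  · have h1 : (hX Y : ℝ) ≤ (Y : ℝ) ^ (0.005 : ℝ) := Nat.floor_le (by positivity)
    exact h1.trans (pow_bd hn hY1 (by norm_num) (by norm_num))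
  · have h1 : (uX Y : ℝ) ≤ (Y : ℝ) ^ (0.511 : ℝ) := Nat.floor_le (by positivity)
    have h2 := pow_bd hn hY1 (β := 0.511) (γ := 1) (by norm_num) (by norm_num)
    rw [Real.rpow_one] at h2
    exact h1.trans h2

theorem q3 {R : Set ℕ} {n X Y A D j h : ℕ} {a1 a2 d1 d2 : ℝ} (hn : 1 ≤ n) (hl : 1 ≤ Real.log n)
    (hA : A = ⌊a1 * (n * Real.log n ^ 1)⌋₊) (hD : D = ⌈d1 * (n * Real.log n ^ 1)⌉₊)
    (ha1 : 0 < a1) (c3 : a2 < (pin R X : ℝ) / (n * Real.log n))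
    (c4 : (pin R Y : ℝ) / (n * Real.log n) < d2)
    (c9 : 3 * (n : ℝ) ≤ (a2 - a1) * (n * Real.log n))
    (c10 : 4 * (n : ℝ) ≤ (d1 - d2) * (n * Real.log n)) (hu : (uX Y : ℝ) ≤ n)
    (hh : (h : ℝ) ≤ (n : ℝ) ^ (1 / 2 : ℝ)) (h1 : pin R X ≤ j + h + 1)
    (h2 : j ≤ pin R Y + 3 * uX Y) : A ≤ j ∧ j + h ≤ D := by
  have hn1 : (1 : ℝ) ≤ n := by exact_mod_cast hn
  have hn0 : (0 : ℝ) < n := by linarith
  have hnl : 0 < (n : ℝ) * Real.log n := mul_pos hn0 (by linarith)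
  have hhn : (h : ℝ) ≤ n := by
    refine hh.trans ?_
    calc (n : ℝ) ^ (1 / 2 : ℝ) ≤ (n : ℝ) ^ (1 : ℝ) :=
          Real.rpow_le_rpow_of_exponent_le hn1 (by norm_num)
      _ = n := Real.rpow_one _
  rw [lt_div_iff₀ hnl] at c3
  rw [div_lt_iff₀ hnl] at c4
  rw [pow_one] at hA hD
  have h1' : (pin R X : ℝ) ≤ j + h + 1 := by exact_mod_cast h1
  have h2' : (j : ℝ) ≤ pin R Y + 3 * uX Y := by exact_mod_cast h2
  constructor
  · have h3 : (A : ℝ) ≤ a1 * (n * Real.log n) := by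
      rw [hA]; exact Nat.floor_le (by positivity)
    have h4 : (A : ℝ) ≤ j := by linarith
    exact_mod_cast h4
  · have h3 : d1 * (n * Real.log n) ≤ (D : ℝ) := by rw [hD]; exact Nat.le_ceil _
    have h4 : ((j + h : ℕ) : ℝ) ≤ D := by push_cast; linarith
    exact_mod_cast h4

theorem q4 {n : ℕ} {K r ε L T1 T2 MTT N Yp : ℝ} (hn : 1 ≤ n) (hl : 1 ≤ Real.log n)
    (hMT : MTT = T2 - T1) (hlow : K * (r / Real.log n ^ 2 * MTT) - Yp ≤ N)
    (hYp : Yp ≤ (n : ℝ) ^ (0.996 : ℝ)) (hlog : Real.log n ^ 2 ≤ 1 * (n : ℝ) ^ (0.001 : ℝ))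
    (h14 : (n : ℝ) ^ (0.997 : ℝ) ≤ ε / 4 * n) (h7 : L - ε / 4 < K * r * (T2 / n - T1 / n)) :
    L - ε / 2 ≤ N * Real.log n ^ 2 / n := by
  have hn1 : (1 : ℝ) ≤ n := by exact_mod_cast hn
  have hn0 : (0 : ℝ) < n := by linarith
  have hl2 : 0 < Real.log n ^ 2 := pow_pos (by linarith) 2
  have h1 : Yp * Real.log n ^ 2 ≤ ε / 4 * n := by
    have h2 : Yp * Real.log n ^ 2 ≤ (n : ℝ) ^ (0.996 : ℝ) * (n : ℝ) ^ (0.001 : ℝ) :=
      mul_le_mul hYp (by linarith) hl2.le (by positivity)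
    rw [← Real.rpow_add hn0] at h2
    have h3 : (0.996 : ℝ) + 0.001 = 0.997 := by norm_num
    rw [h3] at h2
    exact h2.trans h14
  rw [le_div_iff₀ hn0]
  have h3 : (K * (r / Real.log n ^ 2 * MTT) - Yp) * Real.log n ^ 2 ≤ N * Real.log n ^ 2 :=
    mul_le_mul_of_nonneg_right hlow hl2.le
  have h4 : (K * (r / Real.log n ^ 2 * MTT) - Yp) * Real.log n ^ 2 =
      K * r * (T2 - T1) - Yp * Real.log n ^ 2 := by
    rw [hMT]
    field_simp
  have h5 : K * r * (T2 / n - T1 / n) * n = K * r * (T2 - T1) := by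
    field_simp
  have h6 := mul_lt_mul_of_pos_right h7 hn0
  rw [h5] at h6
  rw [h4] at h3
  linarith

/-- the main term -/
theorem main_term {c₂ θ Δ r K ε aa dd : ℝ} (hc2 : 0 < c₂) (hθ0 : 0 < θ) (hθ1 : θ ≤ 1 / 2)
    (hθM : 3 * θ * (4 * c₂ ^ 2) ≤ ε / 2) (hr1 : (1 - θ) * (2 * c₂) < r) (hΔ0 : 0 < Δ) (hΔ1 : Δ ≤ 1)
    (hda : dd - aa = (1 - θ) * Δ) (hK : 1 - θ ≤ K) :
    4 * c₂ ^ 2 * Δ - ε / 2 ≤ K * r * (2 * c₂ * dd - 2 * c₂ * aa) := by
  have hMpos : 0 < 4 * c₂ ^ 2 := by positivity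
  have h1 : 2 * c₂ * dd - 2 * c₂ * aa = 2 * c₂ * ((1 - θ) * Δ) := by
    rw [← hda]; ring
  have h2 : (1 - θ) * ((1 - θ) * (2 * c₂)) ≤ K * r :=
    mul_le_mul hK hr1.le (mul_nonneg (by linarith) (by positivity)) (by linarith)
  have h3 : (0 : ℝ) ≤ 2 * c₂ * ((1 - θ) * Δ) :=
    mul_nonneg (by positivity) (mul_nonneg (by linarith) hΔ0.le)
  have h4 := mul_le_mul_of_nonneg_right h2 h3
  rw [h1]
  refine le_trans ?_ h4
  have h5 : (1 - θ) * ((1 - θ) * (2 * c₂)) * (2 * c₂ * ((1 - θ) * Δ)) =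
      (1 - θ) ^ 3 * Δ * (4 * c₂ ^ 2) := by ring
  rw [h5]
  have h6 : 1 - 3 * θ ≤ (1 - θ) ^ 3 := by nlinarith [sq_nonneg θ, mul_nonneg hθ0.le (sq_nonneg θ)]
  have h7 : (Δ - 3 * θ) ≤ (1 - θ) ^ 3 * Δ := by nlinarith
  have h8 := mul_le_mul_of_nonneg_right h7 hMpos.le
  nlinarith

end EBLN

open EBLN in
theorem ebl : S_EBL := by
  intro hWIN hCNT hCBE hCHN hREG2 hNTH c c₂ hc hc2 hC2 b hOKF δ hδ0 hδ1 ε hε
  obtain ⟨hOK, hLaw⟩ := hOKF
  have hlim : Limit z0 := ⟨Pool.Agent.T2H32.BF.z0_mono, Pool.Agent.T2H32.BF.z0_lim⟩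
  obtain ⟨hpin, htw⟩ := hCNT hWIN z0 hlim c c₂ hc hC2 b hOK
  have hCB := hCBE hWIN hCNT c c₂ hc hC2 b hOK
  have hRinf : (RS z0 (WW c) b).Infinite := inf_of_pin hpin
  have hδ0' : (0 : ℝ) < δ := by exact_mod_cast hδ0
  have hδ1' : (δ : ℝ) < 1 := by exact_mod_cast hδ1
  -- the parameters
  have hMpos : 0 < 4 * c₂ ^ 2 := by positivity
  obtain ⟨θ, hθ0, hθ1, hθM⟩ : ∃ θ : ℝ, 0 < θ ∧ θ ≤ 1 / 2 ∧ 3 * θ * (4 * c₂ ^ 2) ≤ ε / 2 := by
    refine ⟨min (1 / 2) (ε / (6 * (4 * c₂ ^ 2))), lt_min (by norm_num) (by positivity),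
      min_le_left _ _, ?_⟩
    have h1 : min (1 / 2) (ε / (6 * (4 * c₂ ^ 2))) ≤ ε / (6 * (4 * c₂ ^ 2)) := min_le_right _ _
    rw [le_div_iff₀ (by positivity)] at h1
    linarith
  obtain ⟨r, hr1, hr2⟩ := exists_rat_btwn (show (1 - θ) * (2 * c₂) < (1 - θ / 2) * (2 * c₂) from
    mul_lt_mul_of_pos_right (by linarith) (by positivity))
  have hr0' : (0 : ℝ) < r := lt_trans (mul_pos (by linarith) (by positivity)) hr1
  have hr0 : (0 : ℚ) < r := by exact_mod_cast hr0'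
  obtain ⟨k, hk⟩ := exists_nat_one_div_lt hθ0
  have hk0 : (0 : ℝ) < 1 / ((k : ℝ) + 1) := by positivity
  set Δ : ℝ := 1 - δ with hΔ
  have hΔ0 : 0 < Δ := by rw [hΔ]; linarith
  have hΔ1 : Δ ≤ 1 := by rw [hΔ]; linarith
  have hθΔ : 0 < θ * Δ := mul_pos hθ0 hΔ0
  have hθΔ1 : θ * Δ ≤ 1 / 2 := by nlinarith
  set aa : ℝ := δ + θ * Δ / 2 with haa
  set a2 : ℝ := δ + 3 * (θ * Δ) / 8 with ha2
  set a1 : ℝ := δ + θ * Δ / 4 with ha1
  set dd : ℝ := 1 - θ * Δ / 2 with hdd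
  set d2 : ℝ := 1 - 3 * (θ * Δ) / 8 with hd2
  set d1 : ℝ := 1 - θ * Δ / 4 with hd1
  set d3 : ℝ := 1 - θ * Δ / 8 with hd3
  have haa0 : 0 < aa := by rw [haa]; positivity
  have ha10 : 0 < a1 := by rw [ha1]; positivity
  have hdd0 : 0 < dd := by rw [hdd]; linarith
  have hd10 : 0 < d1 := by rw [hd1]; linarith
  have hda' : dd - aa = (1 - θ) * Δ := by rw [hdd, haa, hΔ]; ring
  have hda : 0 < dd - aa := by rw [hda']; exact mul_pos (by linarith) hΔ0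
  -- the sequences
  set X : ℕ → ℕ := fun n => ⌈aa * (n * Real.log n ^ 2)⌉₊ with hXdef
  set Y : ℕ → ℕ := fun n => ⌊dd * (n * Real.log n ^ 2)⌋₊ with hYdef
  set A : ℕ → ℕ := fun n => ⌊a1 * (n * Real.log n ^ 1)⌋₊ with hAdef
  set D : ℕ → ℕ := fun n => ⌈d1 * (n * Real.log n ^ 1)⌉₊ with hDdef
  have hX : Tendsto (fun n : ℕ => (X n : ℝ) / (n * Real.log n ^ 2)) atTop (𝓝 aa) :=
    ceil_ratio aa haa0.le 2
  have hY : Tendsto (fun n : ℕ => (Y n : ℝ) / (n * Real.log n ^ 2)) atTop (𝓝 dd) :=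
    floor_ratio dd hdd0.le 2
  have hA : Tendsto (fun n : ℕ => (A n : ℝ) / (n * Real.log n ^ 1)) atTop (𝓝 a1) :=
    floor_ratio a1 ha10.le 1
  have hD : Tendsto (fun n : ℕ => (D n : ℝ) / (n * Real.log n ^ 1)) atTop (𝓝 d1) :=
    ceil_ratio d1 hd10.le 1
  have hpin1 : Tendsto (fun x : ℕ => (pin (RS z0 (WW c) b) x : ℝ) * Real.log x ^ 1 / x) atTop
      (𝓝 1) := by simpa only [pow_one] using hpin
  have L1 := comp12 hpin haa0 hX
  have L2 := comp12 hpin hdd0 hY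
  have L3 := comp11 hpin1 ha10 hA
  have L4 := comp11 hpin1 hd10 hD
  have L5 := comp11 htw haa0 hX
  have L6 := comp11 htw hdd0 hY
  rw [one_mul] at L1 L2 L3 L4
  -- the chains
  have hchn := hCHN (WW c) {0, 2} 2 (1 / ((k : ℝ) + 1))
    (fun n b => TF (RS z0 (WW c) b) δ ((1 / 4 : ℚ) : ℝ) n (ZF n)) ZF
    (fun n => (r : ℝ) / Real.log n ^ 2) b hk0 hCB (hLaw δ (1 / 4) r k hδ0 (by norm_num) hr0)
  have hchn' := (ratio_top haa0 hX).eventually hchn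
  have hκ : (((1 / 4 : ℚ)) : ℝ) = 1 / 4 := by norm_num
  have hreg := hREG2 hWIN hCNT hNTH c c₂ hc hc2 hC2 b hOK 0.004 δ ((1 / 4 : ℚ) : ℝ) (θ / 2)
    (by norm_num) hδ0' (by rw [hκ]; norm_num) (by rw [hκ]) (by linarith)
  -- the main term
  have L7 : Tendsto (fun n : ℕ => (1 - 1 / ((k : ℝ) + 1)) * r *
      ((tw (RS z0 (WW c) b) 0 (Y n) : ℝ) / n - (tw (RS z0 (WW c) b) 0 (X n) : ℝ) / n)) atTop
      (𝓝 ((1 - 1 / ((k : ℝ) + 1)) * r * (2 * c₂ * dd - 2 * c₂ * aa))) :=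
    (L6.sub L5).const_mul _
  have hL : 4 * c₂ ^ 2 * (1 - δ) - ε / 2 ≤
      (1 - 1 / ((k : ℝ) + 1)) * r * (2 * c₂ * dd - 2 * c₂ * aa) :=
    main_term hc2 hθ0 hθ1 hθM hr1 hΔ0 hΔ1 hda' (by linarith)
  filter_upwards [hchn', hreg,
    L1.eventually (lt_mem_nhds (show a2 < aa by rw [ha2, haa]; linarith)),
    L2.eventually (gt_mem_nhds (show dd < d2 by rw [hd2, hdd]; linarith)),
    L3.eventually (lt_mem_nhds (show (δ : ℝ) < a1 by rw [ha1]; linarith)),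
    L4.eventually (gt_mem_nhds (show d1 < d3 by rw [hd1, hd3]; linarith)),
    L7.eventually (lt_mem_nhds (show (1 - 1 / ((k : ℝ) + 1)) * r * (2 * c₂ * dd - 2 * c₂ * aa) -
      ε / 4 < (1 - 1 / ((k : ℝ) + 1)) * r * (2 * c₂ * dd - 2 * c₂ * aa) by linarith)),
    rpow_small ((1 - d3) / 2) (by rw [hd3]; linarith) (1 - ((1 / 4 : ℚ) : ℝ)) (by rw [hκ]; norm_num),
    half_small (a2 - a1) (by rw [ha2, ha1]; linarith) 3,
    half_small (d1 - d2) (by rw [hd2, hd1]; linarith) 4,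
    log_le 1 one_pos, log_le r hr0', rpow_ge 0.001 2 (by norm_num),
    rpow_small (ε / 4) (by linarith) 0.997 (by norm_num),
    log_top.eventually_ge_atTop 1, log_top.eventually_ge_atTop (2 / aa),
    (log_top.comp tendsto_id).eventually_ge_atTop (r : ℝ), (x_top 2).eventually_ge_atTop (2 / (dd - aa)),
    eventually_ge_atTop 1] with n c1 c2' c3 c4 c5 c6 c7 c8 c9 c10 c11 c12 c13 c14 c15 c16 c17 c18 c19
  have hn1 : (1 : ℝ) ≤ n := by exact_mod_cast c19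
  have hn0 : (0 : ℝ) < n := lt_of_lt_of_le one_pos hn1
  obtain ⟨g1, g2, g3, g4, g5, g6, g7⟩ := q1 hn1 haa0 hdd0 (by rw [hdd]; linarith)
    hda c11 c12 c15 c16 c17 c18 (X := X n) (Y := Y n) rfl rfl
  obtain ⟨u1, u2, u3⟩ := q2 c19 g1 g2 c13
  have hlow := (c1 n (Y n) g4 g5 g3 g6 g7).2 (by
    intro j h w1 w2 w3 w4
    have hhn : (h : ℝ) ≤ (n : ℝ) ^ (1 / 2 : ℝ) := le_trans (by exact_mod_cast w2) u2
    have hhl : (n : ℝ) ^ (0.004 : ℝ) ≤ h := u1.trans (by exact_mod_cast w1)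
    obtain ⟨v1, v2⟩ := q3 c19 c15 rfl rfl ha10 c3 c4 c9 c10 u3 hhn w3 w4
    have hr := (c2' j h hhl hhn).2 (by
      have e1 : (pin (RS z0 (WW c) b) (A n) : ℝ) ≤ pin (RS z0 (WW c) b) j := by
        exact_mod_cast pin_mono _ v1
      rw [lt_div_iff₀ hn0] at c5
      linarith) (by
      have e1 : (pin (RS z0 (WW c) b) (j + h) : ℝ) ≤ pin (RS z0 (WW c) b) (D n) := by
        exact_mod_cast pin_mono _ v2
      rw [div_lt_iff₀ hn0] at c6
      linarith)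
    refine le_trans ?_ hr
    have e2 : (r : ℝ) / Real.log n ^ 2 ≤ (1 - θ / 2) * (2 * c₂) / Real.log n ^ 2 :=
      div_le_div_of_nonneg_right hr2.le (by positivity)
    exact mul_le_mul_of_nonneg_right e2 (Nat.cast_nonneg _))
  have hNT := NT_le hNTH z0 (WW c) b hRinf δ ((1 / 4 : ℚ) : ℝ) n (ZF n) (X n) (Y n)
  have hfin := q4 (K := 1 - 1 / ((k : ℝ) + 1)) (r := r) (ε := ε)
    (L := (1 - 1 / ((k : ℝ) + 1)) * r * (2 * c₂ * dd - 2 * c₂ * aa))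
    (T1 := (tw (RS z0 (WW c) b) 0 (X n) : ℝ)) (T2 := (tw (RS z0 (WW c) b) 0 (Y n) : ℝ))
    (MTT := (MT z0 (WW c) {0, 2} Set.univ (X n) (Y n) b : ℝ))
    (N := (NB (RS z0 (WW c) b) δ n : ℝ)) (Yp := (Y n : ℝ) ^ (0.995 : ℝ)) c19 c15
    (by
      rw [MT_eq, tw_add (RS z0 (WW c) b) g3]
      push_cast
      ring)
    (hlow.trans (by exact_mod_cast hNT))
    (pow_bd c19 g2 (by norm_num) (by norm_num)) c11 c14 c7
  linarith

end Pool.Agent.H531.IX
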