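import Pool.Agent.H531.IX.Stm3

set_option autoImplicit false

/-! # S_EBU (helper930 for helper531) -/

open Finset MeasureTheory ProbabilityTheory Filter Topology

namespace Pool.Agent.H531.IX

open Pool.Agent.T2H32.BF (Model z0 V)
open Pool.Agent.H559.BS (Limit)
open Pool.Agent.H559.HY (OK WW Cut)
open Pool.Agent.T2H32.GB (C2)

namespace EBUN

lemma log_nat_atTop : Tendsto (fun n : ℕ => Real.log n) atTop atTop :=
  Real.tendsto_log_atTop.comp tendsto_natCast_atTop_atTop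

lemma ev_pos : ∀ᶠ n : ℕ in atTop, 0 < Real.log n ∧ 0 < (n : ℝ) := by
  filter_upwards [log_nat_atTop.eventually_gt_atTop 0, eventually_gt_atTop 0] with n h1 h2
  exact ⟨h1, by exact_mod_cast h2⟩

/-- `x n ~ a n (log n)^e` implies `x n → ∞`, `log x n / log n → 1` -/
lemma L1 (e : ℕ) (x : ℕ → ℕ) (a : ℝ) (ha : 0 < a)
    (hx : Tendsto (fun n : ℕ => (x n : ℝ) / (n * Real.log n ^ e)) atTop (𝓝 a)) :
    Tendsto x atTop atTop ∧ Tendsto (fun n : ℕ => Real.log (x n) / Real.log n) atTop (𝓝 1) := by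
  have hev : ∀ᶠ n : ℕ in atTop, a / 2 < (x n : ℝ) / (n * Real.log n ^ e) :=
    hx.eventually_const_lt (by linarith)
  have h1 : Tendsto (fun n : ℕ => (x n : ℝ)) atTop atTop := by
    have h2 : ∀ᶠ n : ℕ in atTop, a / 2 * n ≤ (x n : ℝ) := by
      filter_upwards [hev, ev_pos, log_nat_atTop.eventually_ge_atTop 1] with n hn hp h1
      have h3 : (1 : ℝ) ≤ Real.log n ^ e := one_le_pow₀ h1
      rw [lt_div_iff₀ (by have := hp.2; positivity)] at hn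
      have h4 : a / 2 * n * 1 ≤ a / 2 * n * Real.log n ^ e :=
        mul_le_mul_of_nonneg_left h3 (by have := hp.2; positivity)
      nlinarith
    refine tendsto_atTop_mono' _ h2 ?_
    exact tendsto_natCast_atTop_atTop.const_mul_atTop (by linarith)
  refine ⟨tendsto_natCast_atTop_iff.1 h1, ?_⟩
  have h5 : Tendsto (fun n : ℕ => Real.log ((x n : ℝ) / (n * Real.log n ^ e))) atTop (𝓝 (Real.log a)) :=
    (Real.continuousAt_log ha.ne').tendsto.comp hx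
  have h6 : Tendsto (fun n : ℕ => Real.log ((x n : ℝ) / (n * Real.log n ^ e)) / Real.log n) atTop (𝓝 0) :=
    h5.div_atTop log_nat_atTop
  have h7 : Tendsto (fun n : ℕ => Real.log (Real.log n) / Real.log n) atTop (𝓝 0) := by
    have h8 : Tendsto (fun y : ℝ => Real.log y / y) atTop (𝓝 0) := by
      have := Real.isLittleO_log_id_atTop.tendsto_div_nhds_zero
      simpa using this
    exact h8.comp log_nat_atTop
  have h9 : Tendsto (fun n : ℕ => Real.log ((x n : ℝ) / (n * Real.log n ^ e)) / Real.log n + 1 +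
      e * (Real.log (Real.log n) / Real.log n)) atTop (𝓝 (0 + 1 + e * 0)) :=
    (h6.add tendsto_const_nhds).add (h7.const_mul _)
  rw [show (0 : ℝ) + 1 + e * 0 = 1 by ring] at h9
  refine h9.congr' ?_
  filter_upwards [ev_pos, h1.eventually_gt_atTop 0] with n hn hxn
  obtain ⟨hl, hn⟩ := hn
  rw [Real.log_div hxn.ne' (by positivity), Real.log_mul hn.ne' (by positivity), Real.log_pow]
  field_simp
  ring

lemma L2 (e : ℕ) (x : ℕ → ℕ) (a s : ℝ) (ha : 0 < a)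
    (hx : Tendsto (fun n : ℕ => (x n : ℝ) / (n * Real.log n ^ e)) atTop (𝓝 a)) (f : ℕ → ℝ)
    (hf : Tendsto (fun x : ℕ => f x * Real.log x ^ e / x) atTop (𝓝 s)) :
    Tendsto (fun n : ℕ => f (x n) / n) atTop (𝓝 (s * a)) := by
  obtain ⟨h1, h2⟩ := L1 e x a ha hx
  have h3 := hf.comp h1
  have h4 := (h2.inv₀ one_ne_zero).pow e
  have h5 := (h3.mul hx).mul h4
  rw [show s * a * (1⁻¹ : ℝ) ^ e = s * a by simp] at h5
  refine h5.congr' ?_
  filter_upwards [ev_pos, h1.eventually_gt_atTop 1] with n hn hxn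
  obtain ⟨hl, hn⟩ := hn
  have hx0 : (0 : ℝ) < x n := by positivity
  have hxl : 0 < Real.log (x n) := Real.log_pos (by exact_mod_cast hxn)
  simp only [Function.comp_apply]
  rw [inv_div, div_pow]
  field_simp

/-- `f x ~ x / log x`, then `f (f x) ~ x / (log x)²` -/
lemma L3 (f : ℕ → ℕ) (hf : Tendsto (fun x : ℕ => (f x : ℝ) * Real.log x / x) atTop (𝓝 1)) :
    Tendsto (fun x : ℕ => (f (f x) : ℝ) * Real.log x ^ 2 / x) atTop (𝓝 1) := by
  have h0 : Tendsto (fun x : ℕ => (x : ℝ) / Real.log x) atTop atTop := by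
    have h8 : Tendsto (fun y : ℝ => Real.log y / y) atTop (𝓝[>] 0) := by
      refine tendsto_nhdsWithin_iff.2 ⟨?_, ?_⟩
      · have := Real.isLittleO_log_id_atTop.tendsto_div_nhds_zero
        simpa using this
      · filter_upwards [eventually_gt_atTop 1] with y hy
        exact div_pos (Real.log_pos hy) (by linarith)
    have h9 := h8.inv_tendsto_nhdsGT_zero.comp tendsto_natCast_atTop_atTop (α := ℕ)
    refine h9.congr fun x => ?_
    simp [Function.comp_apply]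
  have h1 : Tendsto (fun x : ℕ => (f x : ℝ)) atTop atTop := by
    have h2 : Tendsto (fun x : ℕ => ((f x : ℝ) * Real.log x / x) * ((x : ℝ) / Real.log x)) atTop atTop :=
      hf.pos_mul_atTop one_pos h0
    refine h2.congr' ?_
    filter_upwards [ev_pos] with n hn
    obtain ⟨hl, hn⟩ := hn
    field_simp
  have h1' : Tendsto f atTop atTop := tendsto_natCast_atTop_iff.1 h1
  have h3 : Tendsto (fun x : ℕ => Real.log (f x) / Real.log x) atTop (𝓝 1) := by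
    have h5 : Tendsto (fun n : ℕ => Real.log ((f n : ℝ) * Real.log n / n)) atTop (𝓝 (Real.log 1)) :=
      (Real.continuousAt_log one_ne_zero).tendsto.comp hf
    have h6 := h5.div_atTop log_nat_atTop
    have h7 : Tendsto (fun n : ℕ => Real.log (Real.log n) / Real.log n) atTop (𝓝 0) := by
      have h8 : Tendsto (fun y : ℝ => Real.log y / y) atTop (𝓝 0) := by
        have := Real.isLittleO_log_id_atTop.tendsto_div_nhds_zero
        simpa using this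
      exact h8.comp log_nat_atTop
    have h9 := (h6.add (tendsto_const_nhds (x := (1 : ℝ)))).sub h7
    rw [show (0 : ℝ) + 1 - 0 = 1 by ring] at h9
    refine h9.congr' ?_
    filter_upwards [ev_pos, h1.eventually_gt_atTop 0] with n hn hxn
    obtain ⟨hl, hn⟩ := hn
    rw [Real.log_div (by positivity) hn.ne', Real.log_mul hxn.ne' hl.ne']
    field_simp
    ring
  have h4 := ((hf.comp h1').mul hf).mul (h3.inv₀ one_ne_zero)
  rw [show (1 : ℝ) * 1 * 1⁻¹ = 1 by norm_num] at h4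
  refine h4.congr' ?_
  filter_upwards [ev_pos, h1.eventually_gt_atTop 1] with n hn hxn
  obtain ⟨hl, hn⟩ := hn
  have hx0 : (0 : ℝ) < f n := by linarith
  have hxl : 0 < Real.log (f n) := Real.log_pos hxn
  simp only [Function.comp_apply]
  field_simp

/-- floor and ceiling sequences -/
lemma L4 (e : ℕ) (a : ℝ) (ha : 0 < a) :
    Tendsto (fun n : ℕ => ((⌊a * (n * Real.log n ^ e)⌋₊ : ℕ) : ℝ) / (n * Real.log n ^ e)) atTop (𝓝 a) := by
  have h1 : Tendsto (fun n : ℕ => (n : ℝ) * Real.log n ^ e) atTop atTop := by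
    refine tendsto_atTop_mono' _ ?_ tendsto_natCast_atTop_atTop
    filter_upwards [log_nat_atTop.eventually_ge_atTop 1] with n hn
    have : (1 : ℝ) ≤ Real.log n ^ e := one_le_pow₀ hn
    nlinarith [Nat.cast_nonneg (α := ℝ) n]
  exact (tendsto_nat_floor_mul_div_atTop ha.le).comp h1

lemma L5 (c p : ℝ) (hc : 0 < c) (hp : 0 < p) (k : ℕ) :
    ∀ᶠ n : ℕ in atTop, Real.log n ^ k ≤ c * (n : ℝ) ^ p := by
  have h1 : (fun x : ℝ => Real.log x ^ (k : ℝ)) =o[atTop] fun x => x ^ p := isLittleO_log_rpow_rpow_atTop _ hp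
  have h2 := (h1.bound hc)
  have h3 := tendsto_natCast_atTop_atTop.eventually h2
  filter_upwards [h3, ev_pos] with n hn hp
  rw [Real.rpow_natCast, Real.norm_of_nonneg (by have := hp.1; positivity),
    Real.norm_of_nonneg (by have := hp.2; positivity)] at hn
  exact hn


lemma pin_mono (A : Set ℕ) : Monotone (pin A) := by
  intro x y h
  unfold pin
  exact Set.ncard_le_ncard (Set.inter_subset_inter_right _ (Set.Icc_subset_Icc_right h))
    ((Set.finite_Icc 1 y).inter_of_right _)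

lemma tw_add (A : Set ℕ) {X Y : ℕ} (h : X ≤ Y) : tw A 0 Y = tw A 0 X + tw A X Y := by
  unfold tw
  have hd : Disjoint {p : ℕ | 0 < p ∧ p ≤ X ∧ p ∈ A ∧ p + 2 ∈ A} {p : ℕ | X < p ∧ p ≤ Y ∧ p ∈ A ∧ p + 2 ∈ A} := by
    rw [Set.disjoint_left]
    rintro p ⟨_, h1, _⟩ ⟨h2, _⟩
    omega
  rw [← Set.ncard_union_eq hd ((Set.finite_Iic X).subset fun p hp => hp.2.1)
    ((Set.finite_Iic Y).subset fun p hp => hp.2.1)]
  congr 1
  ext p
  constructor
  · rintro ⟨h1, h2, h3, h4⟩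
    rcases le_or_gt p X with h5 | h5
    · exact Or.inl ⟨h1, h5, h3, h4⟩
    · exact Or.inr ⟨h5, h2, h3, h4⟩
  · rintro (⟨h1, h2, h3, h4⟩ | ⟨h1, h2, h3, h4⟩)
    · exact ⟨h1, h2.trans h, h3, h4⟩
    · exact ⟨by omega, h2, h3, h4⟩

lemma MT_eq (W : ℕ → ℕ) (b : ℕ → ℕ) (X Y : ℕ) :
    MT z0 W {0, 2} Set.univ X Y b = tw (RS z0 W b) X Y := by
  classical
  unfold MT tw
  rw [← Set.ncard_coe_finset]
  congr 1
  ext p
  simp only [Finset.coe_filter, Finset.mem_Ioc, Set.mem_univ, true_and, Finset.mem_insert,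
    Finset.mem_singleton, forall_eq_or_imp, forall_eq, Nat.add_zero, Set.mem_ofPred_eq]
  tauto

lemma count (hNTH : S_NTH) (W : ℕ → ℕ) (b : ℕ → ℕ) (hA : (RS z0 W b).Infinite) (δ κ : ℝ) (n X Y Z : ℕ)
    (hX : (pin (RS z0 W b) (pin (RS z0 W b) X) : ℝ) < δ * n)
    (hY : n ≤ pin (RS z0 W b) (pin (RS z0 W b) Y))
    (hZ : ∀ t, pin (RS z0 W b) t ≤ n → t + 2 ≤ Z) :
    (NB (RS z0 W b) δ n : ℝ) ≤
      NT z0 W {0, 2} Set.univ (fun _ => TF (RS z0 W b) δ κ n Z) X Y b + ((n : ℝ) ^ (1 - κ) + 1) := by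
  classical
  have h0 : 0 ∉ RS z0 W b := fun h => by have := h.1; omega
  obtain ⟨n1, n2⟩ := hNTH (RS z0 W b) hA h0
  unfold NT
  revert hA hX hY hZ n1 n2 h0
  generalize RS z0 W b = A
  intro hA hX hY hZ h0 n1 n2
  beta_reduce
  obtain ⟨S, hS⟩ : ∃ S : Set ℕ, S = {p : ℕ | p ∈ A ∧ p + 2 ∈ A ∧ pin A p ∈ A ∧ δ * n ≤ pin A (pin A p) ∧
    pin A (pin A p) < n ∧ rk A (n - pin A (pin A p)) + 2 ∈ A} := ⟨_, rfl⟩
  have hNB : NB A δ n = S.ncard := by rw [hS]; rfl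
  rw [hNB]
  obtain ⟨S1, hS1⟩ : ∃ S1 : Finset ℕ, S1 = (Ioc X Y).filter (fun p => p ∈ (Set.univ : Set ℕ) ∧
    (∀ h ∈ ({0, 2} : Finset ℕ), p + h ∈ A) ∧ pin A p ∈ TF A δ κ n Z) := ⟨_, rfl⟩
  obtain ⟨S2, hS2⟩ : ∃ S2 : Set ℕ, S2 = {p ∈ S | ((n - pin A (pin A p) : ℕ) : ℝ) < (n : ℝ) ^ (1 - κ)} :=
    ⟨_, rfl⟩
  have hsub : S ⊆ (S1 : Set ℕ) ∪ S2 := by
    intro p hp
    have hp' := hp
    rw [hS] at hp'
    obtain ⟨p1, p2, p3, p4, p5, p6⟩ := hp'
    rcases lt_or_ge (((n - pin A (pin A p) : ℕ) : ℝ)) ((n : ℝ) ^ (1 - κ)) with h | h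
    · right
      rw [hS2]
      exact ⟨hp, h⟩
    · left
      rw [hS1]
      simp only [Finset.coe_filter, Finset.mem_Ioc, Set.mem_univ, true_and, Finset.mem_insert,
        Finset.mem_singleton, forall_eq_or_imp, forall_eq, Nat.add_zero, Set.mem_ofPred_eq]
      refine ⟨⟨?_, ?_⟩, ⟨p1, p2⟩, p3, ?_, p4, p5, h, ?_⟩
      · by_contra hcon
        push Not at hcon
        have h1 := pin_mono A (pin_mono A hcon)
        have h2 : (pin A (pin A p) : ℝ) ≤ pin A (pin A X) := by exact_mod_cast h1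
        linarith
      · by_contra hcon
        push Not at hcon
        have h1 := pin_mono A (pin_mono A hcon.le)
        omega
      · have := hZ (pin A p) p5.le
        omega
      · obtain ⟨t1, t2⟩ := n2 (n - pin A (pin A p)) (by omega)
        refine ⟨rk A (n - pin A (pin A p)), t1, hZ _ (by rw [t2]; omega), p6, t2⟩
  have hmap : ∀ p ∈ S2, pin A (pin A p) ∈ ((Finset.Ico (n - ⌈(n : ℝ) ^ (1 - κ)⌉₊) n : Finset ℕ) : Set ℕ) := by
    intro p hp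
    rw [hS2] at hp
    obtain ⟨hp, hp2⟩ := hp
    rw [hS] at hp
    have h5 := hp.2.2.2.2.1
    have h6 : n - pin A (pin A p) ≤ ⌈(n : ℝ) ^ (1 - κ)⌉₊ := by
      have h7 := hp2.le.trans (Nat.le_ceil _)
      exact_mod_cast h7
    rw [Finset.coe_Ico, Set.mem_Ico]
    omega
  have hinj : Set.InjOn (fun p => pin A (pin A p)) S2 := by
    intro p hp q hq hpq
    rw [hS2] at hp hq
    have hp := hp.1
    have hq := hq.1
    rw [hS] at hp hq
    simp only at hpq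
    have e1 : pin A p = pin A q := by
      rw [← (n1 _ hp.2.2.1).1, ← (n1 _ hq.2.2.1).1, hpq]
    rw [← (n1 _ hp.1).1, ← (n1 _ hq.1).1, e1]
  have hS2fin : S2.Finite := Set.Finite.of_injOn hmap hinj (Finset.finite_toSet _)
  have hS2card : S2.ncard ≤ ⌈(n : ℝ) ^ (1 - κ)⌉₊ := by
    have h1 := Set.ncard_le_ncard_of_injOn _ hmap hinj (Finset.finite_toSet _)
    rw [Set.ncard_coe_finset, Nat.card_Ico] at h1
    omega
  have h1 : S.ncard ≤ S1.card + S2.ncard := by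
    refine (Set.ncard_le_ncard hsub ((Finset.finite_toSet _).union hS2fin)).trans ?_
    refine (Set.ncard_union_le _ _).trans ?_
    rw [Set.ncard_coe_finset]
  have h2 : (⌈(n : ℝ) ^ (1 - κ)⌉₊ : ℝ) ≤ (n : ℝ) ^ (1 - κ) + 1 :=
    (Nat.ceil_lt_add_one (by positivity)).le
  have h3 : (S2.ncard : ℝ) ≤ ⌈(n : ℝ) ^ (1 - κ)⌉₊ := by exact_mod_cast hS2card
  have h4 : (S.ncard : ℝ) ≤ S1.card + S2.ncard := by exact_mod_cast h1
  have h6 : (S.ncard : ℝ) ≤ S1.card + ((n : ℝ) ^ (1 - κ) + 1) := by linarith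
  rw [hS1] at h6
  convert h6

lemma fl1 {a b : ℝ} (n : ℕ) (h : a ≤ b) :
    ⌊a * ((n : ℝ) * Real.log n ^ 2)⌋₊ ≤ ⌊b * ((n : ℝ) * Real.log n ^ 2)⌋₊ :=
  Nat.floor_le_floor (mul_le_mul_of_nonneg_right h (by positivity))

lemma fl2 {a : ℝ} (n : ℕ) (h0 : 0 ≤ a) (h : a ≤ 2) :
    (⌊a * ((n : ℝ) * Real.log n ^ 2)⌋₊ : ℝ) ≤ 2 * (n * Real.log n ^ 2) :=
  (Nat.floor_le (by positivity)).trans (mul_le_mul_of_nonneg_right h (by positivity))

lemma fin3 {a η r R d E : ℝ} (h1 : 0 ≤ a) (h2 : a ≤ η) (h3 : 0 ≤ r) (h4 : r ≤ R) (h5 : 0 ≤ d) (h6 : d ≤ E) :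
    (1 + a) * r * d ≤ (1 + η) * R * E := by
  have h7 : (1 + a) * r ≤ (1 + η) * R := mul_le_mul (by linarith) h4 h3 (by linarith)
  exact mul_le_mul h7 h6 h5 (mul_nonneg (by linarith) (h3.trans h4))

/-- choice of the parameters -/
lemma param (c₂ δ ε : ℝ) (hε : 0 < ε) : ∃ η : ℝ, 0 < η ∧ η ≤ 1 / 4 ∧
    (1 + η) * ((1 + η) * (2 * c₂) / (1 - η) + η) * (2 * c₂ * ((1 + η) - (1 - η) * δ) + η) <
      4 * c₂ ^ 2 * (1 - δ) + ε / 2 := by
  have h1 : Tendsto (fun η : ℝ => (1 + η) * ((1 + η) * (2 * c₂) / (1 - η) + η) *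
      (2 * c₂ * ((1 + η) - (1 - η) * δ) + η)) (𝓝[>] 0) (𝓝 (4 * c₂ ^ 2 * (1 - δ))) := by
    have h2 : ContinuousAt (fun η : ℝ => (1 + η) * ((1 + η) * (2 * c₂) / (1 - η) + η) *
      (2 * c₂ * ((1 + η) - (1 - η) * δ) + η)) 0 := by
      refine ContinuousAt.mul (ContinuousAt.mul (by fun_prop) (ContinuousAt.add ?_ (by fun_prop)))
        (by fun_prop)
      exact ContinuousAt.div (by fun_prop) (by fun_prop) (by norm_num)
    have h3 := h2.tendsto.mono_left (nhdsWithin_le_nhds (s := Set.Ioi 0))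
    convert h3 using 2
    ring
  have h4 := h1.eventually_lt_const (show 4 * c₂ ^ 2 * (1 - δ) < 4 * c₂ ^ 2 * (1 - δ) + ε / 2 by linarith)
  have h5 : ∀ᶠ η : ℝ in 𝓝[>] 0, 0 < η ∧ η ≤ 1 / 4 := by
    filter_upwards [Ioo_mem_nhdsGT (show (0 : ℝ) < 1 / 4 by norm_num)] with η hη
    exact ⟨hη.1, hη.2.le⟩
  obtain ⟨η, h6, h7⟩ := (h4.and h5).exists
  exact ⟨η, h7.1, h7.2, h6⟩

end EBUN

set_option maxHeartbeats 4000000 in
theorem ebu : S_EBU := by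
  intro hWIN hCNT hCBE hCHN hREG hNTH c c₂ hc hc₂ hC2 b hb δ hδ0 hδ1 ε hε
  obtain ⟨hOK, hLaw⟩ := hb
  have hL : Limit z0 := ⟨Pool.Agent.T2H32.BF.z0_mono, Pool.Agent.T2H32.BF.z0_lim⟩
  obtain ⟨cnt1, cnt2⟩ := hCNT hWIN z0 hL c c₂ hc hC2 b hOK
  have hδ0' : (0 : ℝ) < (δ : ℝ) := by exact_mod_cast hδ0
  have hδ1' : (δ : ℝ) < 1 := by exact_mod_cast hδ1
  obtain ⟨η, hη0, hη1, hη⟩ := EBUN.param c₂ δ ε hε
  obtain ⟨κ, hκ0, hκ⟩ : ∃ κ : ℚ, (0 : ℝ) < κ ∧ (κ : ℝ) < η := exists_rat_btwn hη0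
  obtain ⟨r, hr1, hr2⟩ : ∃ r : ℚ, (1 + η) * (2 * c₂) / (1 - η) < (r : ℝ) ∧
      (r : ℝ) < (1 + η) * (2 * c₂) / (1 - η) + η := exists_rat_btwn (by linarith)
  obtain ⟨k, hk⟩ := exists_nat_one_div_lt hη0
  have hr0 : (0 : ℝ) < r := lt_trans (div_pos (by positivity) (by linarith)) hr1
  have law := hLaw δ κ r k hδ0 (by exact_mod_cast hκ0) (by exact_mod_cast hr0)
  have chn := hCHN (WW c) {0, 2} 2 (1 / ((k : ℝ) + 1)) (fun n b => TF (RS z0 (WW c) b) δ κ n (ZF n)) ZF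
    (fun n => r / Real.log n ^ 2) b (by positivity) (hCBE hWIN hCNT c c₂ hc hC2 b hOK) law
  have reg := hREG hWIN hCNT hNTH c c₂ hc hc₂ hC2 b hOK 0.004 δ κ η (by norm_num) hδ0' hκ0
    (by linarith) hη0
  -- the end points
  obtain ⟨X, hXdef⟩ : ∃ X : ℕ → ℕ, X = fun n : ℕ => ⌊((1 - η) * δ) * (n * Real.log n ^ 2)⌋₊ := ⟨_, rfl⟩
  obtain ⟨Y, hYdef⟩ : ∃ Y : ℕ → ℕ, Y = fun n : ℕ => ⌊(1 + η) * (n * Real.log n ^ 2)⌋₊ := ⟨_, rfl⟩
  obtain ⟨T, hTdef⟩ : ∃ T : ℕ → ℕ, T = fun n : ℕ => ⌊(3 / 2 : ℝ) * (n * Real.log n ^ 1)⌋₊ := ⟨_, rfl⟩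
  have ha : 0 < (1 - η) * (δ : ℝ) := mul_pos (by linarith) hδ0'
  have hXt : Tendsto (fun n : ℕ => (X n : ℝ) / (n * Real.log n ^ 2)) atTop (𝓝 ((1 - η) * δ)) := by
    rw [hXdef]; exact EBUN.L4 2 _ ha
  have hYt : Tendsto (fun n : ℕ => (Y n : ℝ) / (n * Real.log n ^ 2)) atTop (𝓝 (1 + η)) := by
    rw [hYdef]; exact EBUN.L4 2 _ (by linarith)
  have hTt : Tendsto (fun n : ℕ => (T n : ℝ) / (n * Real.log n ^ 1)) atTop (𝓝 (3 / 2)) := by
    rw [hTdef]; exact EBUN.L4 1 _ (by norm_num)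
  obtain ⟨A, hA⟩ : ∃ A, A = RS z0 (WW c) b := ⟨_, rfl⟩
  have hpp := EBUN.L3 _ cnt1
  -- facts
  have E1 : ∀ᶠ n : ℕ in atTop, (pin (RS z0 (WW c) b) (pin (RS z0 (WW c) b) (X n)) : ℝ) < δ * n := by
    have h1 := EBUN.L2 2 X _ 1 ha hXt (fun x => (pin (RS z0 (WW c) b) (pin (RS z0 (WW c) b) x) : ℝ)) hpp
    have h2 := h1.eventually_lt_const (show 1 * ((1 - η) * (δ : ℝ)) < δ by nlinarith)
    filter_upwards [h2, EBUN.ev_pos] with n hn hp
    rwa [div_lt_iff₀ hp.2] at hn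
  have E2 : ∀ᶠ n : ℕ in atTop, n ≤ pin (RS z0 (WW c) b) (pin (RS z0 (WW c) b) (Y n)) := by
    have h1 := EBUN.L2 2 Y _ 1 (by linarith) hYt
      (fun x => (pin (RS z0 (WW c) b) (pin (RS z0 (WW c) b) x) : ℝ)) hpp
    have h2 := h1.eventually_const_lt (show 1 < 1 * (1 + η) by linarith)
    filter_upwards [h2, EBUN.ev_pos] with n hn hp
    rw [lt_div_iff₀ hp.2, one_mul] at hn
    exact_mod_cast hn.le
  have E3 : ∀ᶠ n : ℕ in atTop, n < pin (RS z0 (WW c) b) (T n) := by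
    have h1 := EBUN.L2 1 T _ 1 (by norm_num) hTt (fun x => (pin (RS z0 (WW c) b) x : ℝ))
      (by simpa using cnt1)
    have h2 := h1.eventually_const_lt (show (1 : ℝ) < 1 * (3 / 2) by norm_num)
    filter_upwards [h2, EBUN.ev_pos] with n hn hp
    rw [lt_div_iff₀ hp.2, one_mul] at hn
    exact_mod_cast hn
  have E4 : ∀ᶠ n : ℕ in atTop, ((tw (RS z0 (WW c) b) 0 (Y n) : ℝ) - tw (RS z0 (WW c) b) 0 (X n)) / n <
      2 * c₂ * ((1 + η) - (1 - η) * δ) + η := by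
    have h1 := EBUN.L2 2 Y _ (2 * c₂) (by linarith) hYt (fun x => (tw (RS z0 (WW c) b) 0 x : ℝ)) cnt2
    have h2 := EBUN.L2 2 X _ (2 * c₂) ha hXt (fun x => (tw (RS z0 (WW c) b) 0 x : ℝ)) cnt2
    have h3 := (h1.sub h2).eventually_lt_const
      (show 2 * c₂ * (1 + η) - 2 * c₂ * ((1 - η) * δ) < 2 * c₂ * ((1 + η) - (1 - η) * δ) + η by
        nlinarith)
    filter_upwards [h3] with n hn
    rwa [sub_div]
  have hAinf : (RS z0 (WW c) b).Infinite := by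
    intro hfin
    obtain ⟨n, h1, h2⟩ := (E3.and (eventually_gt_atTop (RS z0 (WW c) b).ncard)).exists
    have h3 : pin (RS z0 (WW c) b) (T n) ≤ (RS z0 (WW c) b).ncard :=
      Set.ncard_le_ncard Set.inter_subset_left hfin
    omega
  have hLa : ∀ᶠ n : ℕ in atTop, 3 / ((1 - η) * δ) + 3 + r + 1 ≤ Real.log n :=
    EBUN.log_nat_atTop.eventually_ge_atTop _
  filter_upwards [E1, E2, E3, E4, hLa, EBUN.ev_pos, EBUN.L1 2 X _ ha hXt |>.1.eventually chn, reg,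
    EBUN.L5 r 0.001 hr0 (by norm_num) 2, EBUN.L5 (1 / 2) 0.001 (by norm_num) (by norm_num) 2,
    EBUN.L5 (ε / 8) 0.004 (by positivity) (by norm_num) 2,
    EBUN.L5 (ε / 8) κ (by positivity) hκ0 2, EBUN.L5 (ε / 8) 1 (by positivity) one_pos 2,
    (tendsto_rpow_atTop (show (0 : ℝ) < 0.001 by norm_num)).comp tendsto_natCast_atTop_atTop
      |>.eventually_ge_atTop 2, eventually_ge_atTop 3] with
    n F1 F2 F3 F4 F5 F6 F7 F8 F9 F10 F11 F12 F13 F14 F15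
  obtain ⟨hl, hn⟩ := F6
  have hn1 : (1 : ℝ) ≤ n := by exact_mod_cast (by omega : 1 ≤ n)
  have hl3 : 3 < Real.log n := by
    have : 0 < 3 / ((1 - η) * (δ : ℝ)) := by positivity
    linarith
  have hlr : (r : ℝ) ≤ Real.log n := by
    have : 0 < 3 / ((1 - η) * (δ : ℝ)) := by positivity
    linarith
  have hla : 3 ≤ (1 - η) * δ * Real.log n := by
    have h1 : 3 / ((1 - η) * (δ : ℝ)) ≤ Real.log n := by linarith
    rw [div_le_iff₀ ha] at h1
    linarith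
  -- ZF n ≤ X n
  have hZX : ZF n ≤ X n := by
    rw [hXdef]
    refine Nat.le_floor ?_
    have h1 : ((ZF n : ℕ) : ℝ) < 2 * n * Real.log n + 1 := Nat.ceil_lt_add_one (by positivity)
    have h2 : (n : ℝ) * Real.log n * 3 ≤ n * Real.log n * ((1 - η) * δ * Real.log n) :=
      mul_le_mul_of_nonneg_left hla (by positivity)
    have h3 : 1 ≤ (n : ℝ) * Real.log n := by nlinarith
    nlinarith
  have hnZ : n ≤ ZF n := by
    have h1 : (n : ℝ) ≤ 2 * n * Real.log n := by nlinarith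
    have h2 : (n : ℝ) ≤ (ZF n : ℝ) := h1.trans (Nat.le_ceil (2 * (n : ℝ) * Real.log n))
    exact Nat.cast_le.1 h2
  have hnX : n ≤ X n := hnZ.trans hZX
  have hnX' : (n : ℝ) ≤ X n := by exact_mod_cast hnX
  have hXY : X n ≤ Y n := by
    rw [hXdef, hYdef]
    exact EBUN.fl1 n (by nlinarith)
  have hYn : (Y n : ℝ) ≤ 2 * (n * Real.log n ^ 2) := by
    rw [hYdef]
    exact EBUN.fl2 n (by linarith) (by linarith)
  have hY1 : (Y n : ℝ) ≤ (n : ℝ) ^ (1.001 : ℝ) := by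
    refine hYn.trans ?_
    rw [show (1.001 : ℝ) = 1 + 0.001 by norm_num, Real.rpow_add hn, Real.rpow_one]
    nlinarith
  have hZt : ∀ t, pin (RS z0 (WW c) b) t ≤ n → t + 2 ≤ ZF n := by
    intro t ht
    have h1 : t < T n := by
      by_contra hcon
      push Not at hcon
      have := EBUN.pin_mono (RS z0 (WW c) b) hcon
      omega
    have h2 : (T n : ℝ) ≤ 3 / 2 * (n * Real.log n ^ 1) := by
      rw [hTdef]; exact Nat.floor_le (by positivity)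
    have h3 : ((t + 2 : ℕ) : ℝ) ≤ 2 * n * Real.log n := by
      have h4 : ((t + 1 : ℕ) : ℝ) ≤ T n := by exact_mod_cast h1
      push_cast at h4 ⊢
      have h5 : 3 * 3 ≤ (n : ℝ) * Real.log n := by
        have h6 : (3 : ℝ) ≤ n := by exact_mod_cast F15
        nlinarith
      rw [pow_one] at h2
      nlinarith
    have h4 : ((t + 2 : ℕ) : ℝ) ≤ (ZF n : ℝ) := h3.trans (Nat.le_ceil _)
    exact Nat.cast_le.1 h4
  have hcount := EBUN.count hNTH (WW c) b hAinf δ κ n (X n) (Y n) (ZF n) F1 F2 hZt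
  -- the chain
  have ht1 : ((X n : ℕ) : ℝ) ^ (-(0.001 : ℝ)) ≤ r / Real.log n ^ 2 := by
    have h1 : ((X n : ℕ) : ℝ) ^ (-(0.001 : ℝ)) ≤ (n : ℝ) ^ (-(0.001 : ℝ)) :=
      Real.rpow_le_rpow_of_nonpos hn hnX' (by norm_num)
    refine h1.trans ?_
    rw [Real.rpow_neg hn.le, le_div_iff₀ (by positivity), inv_mul_le_iff₀ (by positivity)]
    linarith
  have ht2 : (r : ℝ) / Real.log n ^ 2 ≤ 1 := by
    rw [div_le_one (by positivity)]
    nlinarith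
  have hn2 : n ≤ (X n) ^ 2 := hnX.trans (Nat.le_self_pow (by norm_num) _)
  have hup := (F7 n (Y n) hZX hn2 hXY ht1 ht2).1 (by
    intro j h h1 h2 _ _
    have h3 : (n : ℝ) ^ (0.004 : ℝ) ≤ h := by
      have h4 : ((hX (X n) : ℕ) : ℝ) ≤ h := by exact_mod_cast h1
      refine le_trans ?_ h4
      have h5 : (n : ℝ) ^ (0.005 : ℝ) ≤ ((X n : ℕ) : ℝ) ^ (0.005 : ℝ) :=
        Real.rpow_le_rpow hn.le hnX' (by norm_num)
      have h6 := Nat.lt_floor_add_one (((X n : ℕ) : ℝ) ^ (0.005 : ℝ))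
      have h7 : (n : ℝ) ^ (0.005 : ℝ) = (n : ℝ) ^ (0.004 : ℝ) * (n : ℝ) ^ (0.001 : ℝ) := by
        rw [← Real.rpow_add hn]; norm_num
      have h8 : (1 : ℝ) ≤ (n : ℝ) ^ (0.004 : ℝ) := Real.one_le_rpow hn1 (by norm_num)
      have h9 : (2 : ℝ) ≤ (n : ℝ) ^ (0.001 : ℝ) := F14
      have h10 : ((hX (X n) : ℕ) : ℝ) = (⌊((X n : ℕ) : ℝ) ^ (0.005 : ℝ)⌋₊ : ℝ) := rfl
      rw [h10]
      nlinarith
    have h4 : (h : ℝ) ≤ (n : ℝ) ^ (1 / 2 : ℝ) := by
      have h5 : (h : ℝ) ≤ ((hX (Y n) : ℕ) : ℝ) := by exact_mod_cast h2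
      refine h5.trans ((Nat.floor_le (by positivity)).trans ?_)
      have h6 : ((Y n : ℕ) : ℝ) ^ (0.005 : ℝ) ≤ ((n : ℝ) ^ (1.001 : ℝ)) ^ (0.005 : ℝ) :=
        Real.rpow_le_rpow (by positivity) hY1 (by norm_num)
      refine h6.trans ?_
      rw [← Real.rpow_mul hn.le]
      exact Real.rpow_le_rpow_of_exponent_le hn1 (by norm_num)
    refine (F8 j h h3 h4).1.trans ?_
    refine mul_le_mul_of_nonneg_right ?_ (by positivity)
    rw [div_le_div_iff₀ (by have : 0 < 1 - (κ : ℝ) := by linarith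
                            positivity) (by positivity)]
    have h5 : (1 + η) * (2 * c₂) ≤ r * (1 - κ) := by
      have h6 : (1 + η) * (2 * c₂) ≤ r * (1 - η) := by
        rw [div_lt_iff₀ (by linarith)] at hr1
        exact hr1.le
      nlinarith
    have h6 : 0 < Real.log n ^ 2 := by positivity
    nlinarith)
  have hMT : (MT z0 (WW c) {0, 2} Set.univ (X n) (Y n) b : ℝ) =
      (tw (RS z0 (WW c) b) 0 (Y n) : ℝ) - tw (RS z0 (WW c) b) 0 (X n) := by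
    rw [EBUN.MT_eq, EBUN.tw_add _ hXY]
    push_cast; ring
  rw [hMT] at hup
  obtain ⟨D, hD⟩ : ∃ D, D = (tw (RS z0 (WW c) b) 0 (Y n) : ℝ) - tw (RS z0 (WW c) b) 0 (X n) := ⟨_, rfl⟩
  have hD0 : 0 ≤ D := by
    rw [hD, ← hMT]; positivity
  rw [← hD] at hup F4
  -- error terms
  have hE1 : ((Y n : ℕ) : ℝ) ^ (0.995 : ℝ) * Real.log n ^ 2 / n ≤ ε / 8 := by
    have h1 : ((Y n : ℕ) : ℝ) ^ (0.995 : ℝ) ≤ (n : ℝ) ^ (0.996 : ℝ) := by
      refine (Real.rpow_le_rpow (by positivity) hY1 (by norm_num)).trans ?_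
      rw [← Real.rpow_mul hn.le]
      exact Real.rpow_le_rpow_of_exponent_le hn1 (by norm_num)
    rw [div_le_iff₀ hn]
    have h2 : (n : ℝ) = (n : ℝ) ^ (0.996 : ℝ) * (n : ℝ) ^ (0.004 : ℝ) := by
      rw [← Real.rpow_add hn]; norm_num
    calc ((Y n : ℕ) : ℝ) ^ (0.995 : ℝ) * Real.log n ^ 2
        ≤ (n : ℝ) ^ (0.996 : ℝ) * (ε / 8 * (n : ℝ) ^ (0.004 : ℝ)) :=
          mul_le_mul h1 F11 (by positivity) (by positivity)
      _ = ε / 8 * ((n : ℝ) ^ (0.996 : ℝ) * (n : ℝ) ^ (0.004 : ℝ)) := by ring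
      _ = ε / 8 * n := by rw [← h2]
  have hE2 : (n : ℝ) ^ (1 - (κ : ℝ)) * Real.log n ^ 2 / n ≤ ε / 8 := by
    rw [div_le_iff₀ hn]
    have h2 : (n : ℝ) = (n : ℝ) ^ (1 - (κ : ℝ)) * (n : ℝ) ^ (κ : ℝ) := by
      rw [← Real.rpow_add hn]; simp
    calc (n : ℝ) ^ (1 - (κ : ℝ)) * Real.log n ^ 2
        ≤ (n : ℝ) ^ (1 - (κ : ℝ)) * (ε / 8 * (n : ℝ) ^ (κ : ℝ)) :=
          mul_le_mul_of_nonneg_left F12 (by positivity)
      _ = ε / 8 * ((n : ℝ) ^ (1 - (κ : ℝ)) * (n : ℝ) ^ (κ : ℝ)) := by ring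
      _ = ε / 8 * n := by rw [← h2]
  have hE3 : 1 * Real.log n ^ 2 / n ≤ ε / 8 := by
    rw [div_le_iff₀ hn]
    rw [Real.rpow_one] at F13
    linarith
  have hmain : (NB (RS z0 (WW c) b) δ n : ℝ) ≤
      (1 + 1 / ((k : ℝ) + 1)) * (r / Real.log n ^ 2 * D) + ((Y n : ℕ) : ℝ) ^ (0.995 : ℝ) +
        ((n : ℝ) ^ (1 - (κ : ℝ)) + 1) := by
    have := hup
    linarith
  have h1 : (NB (RS z0 (WW c) b) δ n : ℝ) * Real.log n ^ 2 / n ≤
      ((1 + 1 / ((k : ℝ) + 1)) * (r / Real.log n ^ 2 * D) + ((Y n : ℕ) : ℝ) ^ (0.995 : ℝ) +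
        ((n : ℝ) ^ (1 - (κ : ℝ)) + 1)) * Real.log n ^ 2 / n := by
    gcongr
  have h2 : ((1 + 1 / ((k : ℝ) + 1)) * (r / Real.log n ^ 2 * D) + ((Y n : ℕ) : ℝ) ^ (0.995 : ℝ) +
        ((n : ℝ) ^ (1 - (κ : ℝ)) + 1)) * Real.log n ^ 2 / n =
      (1 + 1 / ((k : ℝ) + 1)) * r * (D / n) + ((Y n : ℕ) : ℝ) ^ (0.995 : ℝ) * Real.log n ^ 2 / n +
        (n : ℝ) ^ (1 - (κ : ℝ)) * Real.log n ^ 2 / n + 1 * Real.log n ^ 2 / n := by
    field_simp
    ring
  have h3 : (1 + 1 / ((k : ℝ) + 1)) * r * (D / n) ≤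
      (1 + η) * ((1 + η) * (2 * c₂) / (1 - η) + η) * (2 * c₂ * ((1 + η) - (1 - η) * δ) + η) := by
    have h4 : 0 ≤ D / n := div_nonneg hD0 hn.le
    have h5 : (0 : ℝ) ≤ 1 / ((k : ℝ) + 1) := by positivity
    exact EBUN.fin3 h5 hk.le hr0.le hr2.le h4 F4.le
  rw [h2] at h1
  linarith

end Pool.Agent.H531.IX
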