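import Pool.Agent.H531.IX.Stm

set_option autoImplicit false

/-!
# Project IX, job EVU: Fubini on the finite product space (helper686)
-/

open Finset MeasureTheory ProbabilityTheory Filter Topology

namespace Pool.Agent.H531.IX

open Pool.Agent.T2H31.HV (Pt Ev Dep)

theorem EVUN.sum_union (A B : Finset ℕ) (F : (ℕ → ℕ) → ℝ) (hd : Disjoint A B) :
    ∑ b ∈ Pt (A ∪ B), F b = ∑ b ∈ Pt A, ∑ b' ∈ Pt B, F (gl B b b') := by
  rw [← sum_product']
  symm
  apply sum_nbij' (fun x => gl B x.1 x.2)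
    (fun b => (fun i => if i ∈ A then b i else 0, fun i => if i ∈ B then b i else 0))
  · rintro ⟨b, b'⟩ hx
    rw [mem_product, Pool.Agent.T2H31.HV.mem_Pt, Pool.Agent.T2H31.HV.mem_Pt] at hx
    obtain ⟨⟨h1, h2⟩, h3, h4⟩ := hx
    dsimp only at h1 h2 h3 h4
    rw [Pool.Agent.T2H31.HV.mem_Pt]
    constructor
    · intro p hp
      unfold gl
      dsimp only
      by_cases hB : p ∈ B
      · rw [if_pos hB]
        exact h3 p hB
      · rw [if_neg hB]
        exact h1 p ((mem_union.1 hp).resolve_right hB)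
    · intro p hp
      rw [mem_union, not_or] at hp
      unfold gl
      dsimp only
      rw [if_neg hp.2]
      exact h2 p hp.1
  · intro b hb
    rw [Pool.Agent.T2H31.HV.mem_Pt] at hb
    obtain ⟨h1, h2⟩ := hb
    rw [mem_product, Pool.Agent.T2H31.HV.mem_Pt, Pool.Agent.T2H31.HV.mem_Pt]
    dsimp only
    refine ⟨⟨fun p hp => ?_, fun p hp => if_neg hp⟩, fun p hp => ?_, fun p hp => if_neg hp⟩
    · rw [if_pos hp]
      exact h1 p (mem_union_left B hp)
    · rw [if_pos hp]
      exact h1 p (mem_union_right A hp)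
  · rintro ⟨b, b'⟩ hx
    rw [mem_product, Pool.Agent.T2H31.HV.mem_Pt, Pool.Agent.T2H31.HV.mem_Pt] at hx
    obtain ⟨⟨h1, h2⟩, h3, h4⟩ := hx
    dsimp only at h1 h2 h3 h4
    unfold gl
    dsimp only
    refine Prod.ext ?_ ?_
    · funext i
      dsimp only
      by_cases hA : i ∈ A
      · rw [if_pos hA, if_neg (Finset.disjoint_left.1 hd hA)]
      · rw [if_neg hA, h2 i hA]
    · funext i
      dsimp only
      by_cases hB : i ∈ B
      · rw [if_pos hB, if_pos hB]
      · rw [if_neg hB, h4 i hB]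
  · intro b hb
    rw [Pool.Agent.T2H31.HV.mem_Pt] at hb
    obtain ⟨h1, h2⟩ := hb
    funext i
    unfold gl
    dsimp only
    by_cases hB : i ∈ B
    · rw [if_pos hB, if_pos hB]
    · rw [if_neg hB]
      by_cases hA : i ∈ A
      · rw [if_pos hA]
      · rw [if_neg hA, h2 i (by rw [mem_union, not_or]; exact ⟨hA, hB⟩)]
  · rintro ⟨b, b'⟩ hx
    rfl

/-- **EVU** -/
theorem evu : S_EVU := by
  intro A B F hd
  unfold Ev
  rw [EVUN.sum_union A B F hd, Finset.prod_union hd, mul_inv, mul_assoc, ← Finset.mul_sum]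

end Pool.Agent.H531.IX
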