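import Pool.Agent.H531.IX.Stm

set_option autoImplicit false

/-!
# IX-GB: one block with numbers
-/

open Finset MeasureTheory ProbabilityTheory Filter Topology

namespace Pool.Agent.H531.IX

open Pool.Agent.T2H31.HV (Pt Ev Dep)
open Pool.Agent.T2H32.BF (Model z0 V)

namespace GBN

/-- negative powers are eventually small -/
theorem ev_small (C : ℝ) {s δ : ℝ} (hs : 0 < s) (hδ : 0 < δ) :
    ∀ᶠ X : ℕ in atTop, C * (X : ℝ) ^ (-s) ≤ δ := by
  have h1 : Tendsto (fun X : ℕ => C * (X : ℝ) ^ (-s)) atTop (𝓝 (C * 0)) :=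
    ((tendsto_rpow_neg_atTop hs).comp tendsto_natCast_atTop_atTop).const_mul C
  rw [mul_zero] at h1
  exact h1.eventually_le_const hδ

/-- positive powers are eventually large -/
theorem ev_large (C : ℝ) {s : ℝ} (hs : 0 < s) : ∀ᶠ X : ℕ in atTop, C ≤ (X : ℝ) ^ s :=
  ((tendsto_rpow_atTop hs).comp tendsto_natCast_atTop_atTop).eventually_ge_atTop C

theorem ev_log : ∀ᶠ X : ℕ in atTop, 15360 * Real.log X ^ 2 ≤ (X : ℝ) ^ (0.002 : ℝ) := by
  have h1 := (isLittleO_log_rpow_rpow_atTop (2 : ℝ) (show (0 : ℝ) < 0.002 by norm_num)).bound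
    (show (0 : ℝ) < 1 / 15360 by norm_num)
  have h2 := (tendsto_natCast_atTop_atTop (R := ℝ)).eventually h1
  filter_upwards [h2, eventually_ge_atTop 1] with X hX hX1
  have hX0 : (1 : ℝ) ≤ X := by exact_mod_cast hX1
  rw [Real.rpow_two, Real.norm_of_nonneg (sq_nonneg _), Real.norm_of_nonneg (by positivity)] at hX
  linarith

/-- the product in the lower bound -/
theorem prod_ge {y u L : ℝ} (hy : 1 ≤ y) (hL : 0 < L) (hu : y ^ (0.511 : ℝ) / 2 ≤ u)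
    (hlog : 15360 * L ^ 2 ≤ y ^ (0.002 : ℝ)) : y ^ (0.02 : ℝ) ≤ u / (16 * L) * (u / (240 * y * L)) := by
  have hy0 : 0 < y := by linarith
  have e1 : u / (16 * L) * (u / (240 * y * L)) = u ^ 2 / (3840 * y * L ^ 2) := by
    field_simp
    ring
  rw [e1, le_div_iff₀ (by positivity)]
  have h1 : (y ^ (0.511 : ℝ) / 2) ^ 2 ≤ u ^ 2 := pow_le_pow_left₀ (by positivity) hu 2
  have h2 : (y ^ (0.511 : ℝ) / 2) ^ 2 = y ^ (1.022 : ℝ) / 4 := by
    rw [div_pow, ← Real.rpow_natCast (y ^ (0.511 : ℝ)) 2, ← Real.rpow_mul hy0.le]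
    norm_num
  have h3 : y ^ (1.022 : ℝ) = y ^ (0.02 : ℝ) * y * y ^ (0.002 : ℝ) := by
    nth_rewrite 3 [← Real.rpow_one y]
    rw [← Real.rpow_add hy0, ← Real.rpow_add hy0]
    norm_num
  have h4 := mul_le_mul_of_nonneg_left hlog (show 0 ≤ y ^ (0.02 : ℝ) * y by positivity)
  calc y ^ (0.02 : ℝ) * (3840 * y * L ^ 2) = y ^ (0.02 : ℝ) * y * (15360 * L ^ 2) / 4 := by ring
    _ ≤ y ^ (0.02 : ℝ) * y * y ^ (0.002 : ℝ) / 4 := by linarith
    _ = y ^ (1.022 : ℝ) / 4 := by rw [h3]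
    _ ≤ u ^ 2 := by rw [← h2]; exact h1

/-- the error terms -/
theorem err_le {y h u s τ ε : ℝ} {n : ℕ} (hy : 1 ≤ y) (hε : 0 < ε) (u0 : 0 ≤ u) (s0 : 0 ≤ s)
    (hh : h ≤ y ^ (0.005 : ℝ)) (hu : u ≤ y ^ (0.511 : ℝ)) (hs : s ≤ y ^ (-(0.48 : ℝ)))
    (hτ : y ^ (-(0.001 : ℝ)) ≤ τ) (a1 : 2 * y ^ (-(0.004 : ℝ)) ≤ ε / 12)
    (a2 : 4 * y ^ (-(0.443 : ℝ)) ≤ ε / 12) (a3 : (n : ℝ) * y ^ (-(0.479 : ℝ)) ≤ ε / 12) :
    h * (2 / √(y ^ (0.02 : ℝ)) + 4 * u * s ^ 2) + n * s ≤ ε / 4 * τ := by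
  have hy0 : 0 < y := by linarith
  have hsq : √(y ^ (0.02 : ℝ)) = y ^ (0.01 : ℝ) := by
    rw [Real.sqrt_eq_rpow, ← Real.rpow_mul hy0.le]
    norm_num
  have b1 : h * (2 / √(y ^ (0.02 : ℝ))) ≤ 2 * y ^ (-(0.004 : ℝ)) * y ^ (-(0.001 : ℝ)) := by
    rw [hsq]
    calc h * (2 / y ^ (0.01 : ℝ)) ≤ y ^ (0.005 : ℝ) * (2 / y ^ (0.01 : ℝ)) :=
          mul_le_mul_of_nonneg_right hh (by positivity)
      _ = 2 * (y ^ (0.005 : ℝ) * (y ^ (0.01 : ℝ))⁻¹) := by ring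
      _ = 2 * y ^ (-(0.004 : ℝ)) * y ^ (-(0.001 : ℝ)) := by
          rw [← Real.rpow_neg hy0.le, ← Real.rpow_add hy0, mul_assoc, ← Real.rpow_add hy0]
          norm_num
  have b2 : h * (4 * u * s ^ 2) ≤ 4 * y ^ (-(0.443 : ℝ)) * y ^ (-(0.001 : ℝ)) := by
    have hs2 : s ^ 2 ≤ (y ^ (-(0.48 : ℝ))) ^ 2 := pow_le_pow_left₀ s0 hs 2
    have e2 : (y ^ (-(0.48 : ℝ))) ^ 2 = y ^ (-(0.96 : ℝ)) := by
      rw [← Real.rpow_natCast (y ^ (-(0.48 : ℝ))) 2, ← Real.rpow_mul hy0.le]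
      norm_num
    rw [e2] at hs2
    calc h * (4 * u * s ^ 2) ≤ y ^ (0.005 : ℝ) * (4 * y ^ (0.511 : ℝ) * y ^ (-(0.96 : ℝ))) := by
          refine mul_le_mul hh ?_ (by positivity) (by positivity)
          exact mul_le_mul (by linarith) hs2 (by positivity) (by positivity)
      _ = 4 * (y ^ (0.005 : ℝ) * y ^ (0.511 : ℝ) * y ^ (-(0.96 : ℝ))) := by ring
      _ = 4 * y ^ (-(0.443 : ℝ)) * y ^ (-(0.001 : ℝ)) := by
          rw [← Real.rpow_add hy0, ← Real.rpow_add hy0, mul_assoc, ← Real.rpow_add hy0]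
          norm_num
  have b3 : (n : ℝ) * s ≤ n * y ^ (-(0.479 : ℝ)) * y ^ (-(0.001 : ℝ)) := by
    rw [mul_assoc, ← Real.rpow_add hy0]
    have e3 : -(0.479 : ℝ) + -(0.001 : ℝ) = -(0.48 : ℝ) := by norm_num
    rw [e3]
    exact mul_le_mul_of_nonneg_left hs (Nat.cast_nonneg _)
  have t0 : 0 ≤ y ^ (-(0.001 : ℝ)) := by positivity
  have c1 := mul_le_mul_of_nonneg_right a1 t0
  have c2 := mul_le_mul_of_nonneg_right a2 t0
  have c3 := mul_le_mul_of_nonneg_right a3 t0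
  have c4 := mul_le_mul_of_nonneg_left hτ (show 0 ≤ ε / 4 by positivity)
  calc h * (2 / √(y ^ (0.02 : ℝ)) + 4 * u * s ^ 2) + n * s
      = h * (2 / √(y ^ (0.02 : ℝ))) + h * (4 * u * s ^ 2) + n * s := by ring
    _ ≤ ε / 12 * y ^ (-(0.001 : ℝ)) + ε / 12 * y ^ (-(0.001 : ℝ)) + ε / 12 * y ^ (-(0.001 : ℝ)) :=
        add_le_add (add_le_add (b1.trans c1) (b2.trans c2)) (b3.trans c3)
    _ = ε / 4 * y ^ (-(0.001 : ℝ)) := by ring
    _ ≤ ε / 4 * τ := c4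

end GBN

open GBN in
/-- **GB** -/
theorem gb (hBLK : S_BLK) (hNUM : S_NUM) : S_GB := by
  intro W H ε hW hWm hε
  obtain ⟨v0, hv0⟩ := eventually_atTop.1 hW
  filter_upwards [hNUM, ev_log, ev_small 2 (show (0 : ℝ) < 0.004 by norm_num) (show 0 < ε / 12 by positivity),
    ev_small 4 (show (0 : ℝ) < 0.443 by norm_num) (show 0 < ε / 12 by positivity),
    ev_small (H.card : ℝ) (show (0 : ℝ) < 0.479 by norm_num) (show 0 < ε / 12 by positivity),
    ev_large (2 * ((H.sup id : ℕ) : ℝ) + 2) (show (0 : ℝ) < 0.511 by norm_num),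
    eventually_ge_atTop 6, eventually_ge_atTop v0]
    with X hnum hlog a1 a2 a3 hlarge hX6 hXv0 x B T τ b hx1 hx2 hτ hG
  obtain ⟨n1, n2, n3⟩ := hnum x hx1 (by omega)
  obtain ⟨u, hu⟩ : ∃ u, u = uX X := ⟨_, rfl⟩
  obtain ⟨h, hh⟩ : ∃ h, h = hX X := ⟨_, rfl⟩
  obtain ⟨y, hy⟩ : ∃ y : ℝ, y = X := ⟨_, rfl⟩
  rw [← hu] at n1 n2 n3
  rw [← hy] at hlog a1 a2 a3 hlarge hτ n2
  have hy6 : 6 ≤ y := by rw [hy]; exact_mod_cast hX6
  have hy0 : 0 < y := by linarith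
  have hy1 : 1 ≤ y := by linarith
  have hL : 0 < Real.log y := Real.log_pos (by linarith)
  have u1 : (u : ℝ) ≤ y ^ (0.511 : ℝ) := by
    rw [hu, uX, hy]
    exact Nat.floor_le (by positivity)
  have u2 : y ^ (0.511 : ℝ) - 1 < u := by
    rw [hu, uX, ← hy]
    exact Nat.sub_one_lt_floor _
  have hsup0 : (0 : ℝ) ≤ ((H.sup id : ℕ) : ℝ) := Nat.cast_nonneg _
  have u3 : y ^ (0.511 : ℝ) / 2 ≤ u := by linarith
  have u4 : 1 ≤ u := by
    have : (1 : ℝ) ≤ u := by linarith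
    exact_mod_cast this
  have u5 : H.sup id ≤ u := by
    have : ((H.sup id : ℕ) : ℝ) ≤ u := by linarith
    exact_mod_cast this
  have h1 : (h : ℝ) ≤ y ^ (0.005 : ℝ) := by
    rw [hh, hX, hy]
    exact Nat.floor_le (by positivity)
  have h2 : 1 ≤ h := by
    rw [hh, hX, ← hy]
    refine Nat.le_floor ?_
    rw [Nat.cast_one]
    exact Real.one_le_rpow hy1 (by norm_num)
  have uX' : u ≤ X := by
    have : (u : ℝ) ≤ X := by
      rw [← hy]
      refine u1.trans ?_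
      calc y ^ (0.511 : ℝ) ≤ y ^ (1 : ℝ) := Real.rpow_le_rpow_of_exponent_le hy1 (by norm_num)
        _ = y := Real.rpow_one y
    exact_mod_cast this
  -- the levels
  have hWz : ∀ v ≤ x + 3 * u, W v ≤ z0 x := by
    intro v hv
    refine (hWm hv).trans ?_
    refine le_trans ?_ n1
    have k1 := hv0 (x + 3 * u) (by omega)
    have k2 : ((x + 3 * u : ℕ) : ℝ) ≤ y ^ (2 : ℝ) := by
      have : x + 3 * u ≤ 6 * X := by omega
      have k3 : ((x + 3 * u : ℕ) : ℝ) ≤ 6 * y := by rw [hy]; exact_mod_cast this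
      rw [Real.rpow_two]
      nlinarith
    have k3 : ((x + 3 * u : ℕ) : ℝ) ^ (0.1 : ℝ) ≤ 8 * u := by
      calc ((x + 3 * u : ℕ) : ℝ) ^ (0.1 : ℝ) ≤ (y ^ (2 : ℝ)) ^ (0.1 : ℝ) :=
            Real.rpow_le_rpow (Nat.cast_nonneg _) k2 (by norm_num)
        _ = y ^ (0.2 : ℝ) := by
            rw [← Real.rpow_mul hy0.le]
            norm_num
        _ ≤ y ^ (0.511 : ℝ) := Real.rpow_le_rpow_of_exponent_le hy1 (by norm_num)
        _ ≤ 8 * u := by linarith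
    have k4 : (W (x + 3 * u) : ℝ) ≤ ((8 * u : ℕ) : ℝ) := by
      push_cast
      push_cast at k1 k3
      exact k1.trans k3
    exact_mod_cast k4
  have hq : ∀ q ∈ fr z0 x (x + 3 * u), 8 * u ≤ q := by
    intro q hq
    unfold fr at hq
    rw [mem_filter, mem_Ioc] at hq
    omega
  obtain ⟨g1, g2⟩ := hG
  rw [← hu, ← hy] at g1
  rw [← hh] at g2
  set m0 : ℕ := ⌈(u : ℝ) / (16 * Real.log y)⌉₊ with hm0
  have m1 : m0 + (Old z0 W x (x + u / 2) b).card ≤ (Old z0 W x (x + u) b).card := by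
    have k1 : (Old z0 W x (x + u / 2) b).card ≤ (Old z0 W x (x + u) b).card := by
      have k0 : (0 : ℝ) ≤ (u : ℝ) / (16 * Real.log y) := by positivity
      have : ((Old z0 W x (x + u / 2) b).card : ℝ) ≤ (Old z0 W x (x + u) b).card := by linarith
      exact_mod_cast this
    have k2 : m0 ≤ (Old z0 W x (x + u) b).card - (Old z0 W x (x + u / 2) b).card := by
      rw [hm0, Nat.ceil_le, Nat.cast_sub k1]
      linarith
    omega
  have m2 : (u : ℝ) / (16 * Real.log y) ≤ m0 := Nat.le_ceil _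
  have hx0 : 0 < (x : ℝ) := by
    have : 0 < x := by omega
    exact_mod_cast this
  have hx3 : (x : ℝ) ≤ 3 * y := by rw [hy]; exact_mod_cast hx2
  have hxy : y ≤ x := by rw [hy]; exact_mod_cast hx1
  have hlx0 : 0 < Real.log x := Real.log_pos (by linarith)
  have hlx : Real.log x ≤ 2 * Real.log y := by
    have k1 : Real.log x ≤ Real.log (y ^ 2) := Real.log_le_log hx0 (by nlinarith)
    rw [Real.log_pow] at k1
    exact_mod_cast k1
  have n4 : (u : ℝ) / (240 * y * Real.log y) ≤ ∑ q ∈ fr z0 x (x + u / 2), 1 / (q : ℝ) := by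
    refine le_trans ?_ n3
    refine div_le_div_of_nonneg_left (Nat.cast_nonneg _) (by positivity) ?_
    calc 40 * (x : ℝ) * Real.log x ≤ 40 * (3 * y) * (2 * Real.log y) :=
          mul_le_mul (by linarith) hlx hlx0.le (by positivity)
      _ = 240 * y * Real.log y := by ring
  have hc : y ^ (0.02 : ℝ) ≤ m0 * ∑ q ∈ fr z0 x (x + u / 2), 1 / (q : ℝ) := by
    refine (prod_ge hy1 hL u3 hlog).trans ?_
    exact mul_le_mul m2 n4 (by positivity) (Nat.cast_nonneg _)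
  have hs0 : 0 ≤ ∑ q ∈ fr z0 x (x + 3 * u), 1 / (q : ℝ) := sum_nonneg fun q _ => by positivity
  have herr := err_le (n := H.card) hy1 hε (Nat.cast_nonneg u) hs0 h1 u1 n2 hτ a1 a2 a3
  have hns : 0 ≤ (H.card : ℝ) * ∑ q ∈ fr z0 x (x + 3 * u), 1 / (q : ℝ) :=
    mul_nonneg (Nat.cast_nonneg _) hs0
  have hblk := hBLK z0 W Pool.Agent.T2H32.BF.z0_mono H B T x u h m0 (y ^ (0.02 : ℝ)) τ b (by omega)
    (fun i hi => (Finset.le_sup (f := id) hi).trans u5) hWz hq u4 h2 g2 m1 (by positivity) hc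
  have hnn : (0 : ℝ) ≤ nn z0 W H B x u b := Nat.cast_nonneg _
  constructor
  · intro hR
    unfold RU at hR
    rw [← hu, ← hh] at hR
    rw [← hu]
    refine (hblk.1 hR).trans (mul_le_mul_of_nonneg_right ?_ hnn)
    linarith
  · intro hR
    unfold RL at hR
    rw [← hu, ← hh] at hR
    rw [← hu]
    refine le_trans (mul_le_mul_of_nonneg_right ?_ hnn) (hblk.2 hR)
    linarith

end Pool.Agent.H531.IX
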