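import Pool.Agent.H531.IX.Stm

set_option autoImplicit false

/-!
# LOC: the number of removed elements is smooth
-/

open Finset MeasureTheory ProbabilityTheory Filter Topology

namespace Pool.Agent.H531.IX

open Pool.Agent.T2H31.HV (Pt Ev Dep)

namespace LOCN

theorem Ev_mono (L : Finset ℕ) (F G : (ℕ → ℕ) → ℝ) (h : ∀ b ∈ Pt L, F b ≤ G b) : Ev L F ≤ Ev L G := by
  unfold Ev
  refine mul_le_mul_of_nonneg_left (sum_le_sum h) ?_
  exact inv_nonneg.2 (prod_nonneg fun p _ => Nat.cast_nonneg _)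

theorem Ev_abs (L : Finset ℕ) (F G : (ℕ → ℕ) → ℝ) :
    |Ev L F - Ev L G| ≤ Ev L (fun b => |F b - G b|) := by
  unfold Ev
  have h0 : (0 : ℝ) ≤ (∏ p ∈ L, (p : ℝ))⁻¹ := inv_nonneg.2 (prod_nonneg fun p _ => Nat.cast_nonneg _)
  rw [← mul_sub, ← sum_sub_distrib, abs_mul, abs_of_nonneg h0]
  exact mul_le_mul_of_nonneg_left (abs_sum_le_sum_abs _ _) h0

theorem Ev_sum {ι : Type} (L : Finset ℕ) (s : Finset ι) (F : ι → (ℕ → ℕ) → ℝ) :
    Ev L (fun b => ∑ i ∈ s, F i b) = ∑ i ∈ s, Ev L (F i) := by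
  unfold Ev
  rw [sum_comm, mul_sum]

/-- the indicator of two hits -/
noncomputable def ind (v q q' : ℕ) (b : ℕ → ℕ) : ℝ := if v % q = b q ∧ v % q' = b q' then 1 else 0

theorem ind_nonneg (v q q' : ℕ) (b : ℕ → ℕ) : 0 ≤ ind v q q' b := by
  unfold ind
  split_ifs <;> norm_num

theorem ev2 (v q q' : ℕ) (hq : 0 < q) (hq' : 0 < q') (hne : q ≠ q') :
    Ev {q, q'} (ind v q q') = 1 / ((q : ℝ) * q') := by
  classical
  unfold Ev
  have hnot : q ∉ ({q'} : Finset ℕ) := by simpa using hne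
  have e1 : ∑ b ∈ Pt {q, q'}, ind v q q' b =
      ∑ b ∈ Pt {q'}, (if v % q' = b q' then (1 : ℝ) else 0) := by
    rw [Pool.Agent.T2H31.HV.sum_Pt_insert {q'} q hnot]
    refine sum_congr rfl fun b _ => ?_
    have e2 : ∀ r ∈ range q, ind v q q' (Function.update b q r) =
        if v % q = r then (if v % q' = b q' then (1 : ℝ) else 0) else 0 := by
      intro r _
      unfold ind
      rw [Function.update_self, Function.update_of_ne (Ne.symm hne)]
      by_cases h1 : v % q = r <;> by_cases h2 : v % q' = b q' <;> simp [h1, h2]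
    rw [sum_congr rfl e2, sum_ite_eq, if_pos (mem_range.2 (Nat.mod_lt _ hq))]
  have e3 : ∑ b ∈ Pt {q'}, (if v % q' = b q' then (1 : ℝ) else 0) = 1 := by
    have h := Pool.Agent.T2H31.HV.sum_Pt_insert ∅ q' (notMem_empty q')
      (fun b => if v % q' = b q' then (1 : ℝ) else 0)
    rw [insert_empty_eq] at h
    rw [h, Pool.Agent.T2H31.HV.Pt_empty, sum_singleton]
    have e4 : ∀ r ∈ range q', (if v % q' = Function.update (fun _ => 0) q' r q' then (1 : ℝ) else 0) =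
        if v % q' = r then (1 : ℝ) else 0 := by
      intro r _
      rw [Function.update_self]
    rw [sum_congr rfl e4, sum_ite_eq, if_pos (mem_range.2 (Nat.mod_lt _ hq'))]
  rw [e1, e3, prod_pair hne, mul_one, one_div]

theorem evL (L : Finset ℕ) (hL : ∀ p ∈ L, 0 < p) (v q q' : ℕ) (hq : q ∈ L) (hq' : q' ∈ L) (hne : q ≠ q') :
    Ev L (ind v q q') = 1 / ((q : ℝ) * q') := by
  rw [← ev2 v q q' (hL q hq) (hL q' hq') hne]
  apply Pool.Agent.T2H31.HV.Ev_eq_of_dep L {q, q'} _ hL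
  · intro b b' h
    unfold ind
    rw [h q (mem_insert_self _ _), h q' (mem_insert_of_mem (mem_singleton_self _))]
  · intro x hx
    rw [mem_insert, mem_singleton] at hx
    rcases hx with rfl | rfl
    · exact hq
    · exact hq'

/-- the number of bad triples -/
noncomputable def bad (L O : Finset ℕ) (b : ℕ → ℕ) : ℝ :=
  ∑ x ∈ L.offDiag, ∑ v ∈ O, ind v x.1 x.2 b

theorem bad_nonneg (L O : Finset ℕ) (b : ℕ → ℕ) : 0 ≤ bad L O b :=
  sum_nonneg fun _ _ => sum_nonneg fun _ _ => ind_nonneg _ _ _ _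

theorem Ev_bad (L O : Finset ℕ) (hL : ∀ p ∈ L, 0 < p) :
    Ev L (bad L O) ≤ O.card * (∑ q ∈ L, 1 / (q : ℝ)) ^ 2 := by
  have e1 : Ev L (bad L O) = ∑ x ∈ L.offDiag, ∑ v ∈ O, Ev L (ind v x.1 x.2) := by
    unfold bad
    rw [Ev_sum]
    refine sum_congr rfl fun x _ => ?_
    rw [Ev_sum]
  have e2 : ∀ x ∈ L.offDiag, ∑ v ∈ O, Ev L (ind v x.1 x.2) =
      O.card * ((1 / (x.1 : ℝ)) * (1 / (x.2 : ℝ))) := by
    intro x hx
    rw [mem_offDiag] at hx
    rw [sum_congr rfl (fun v _ => evL L hL v x.1 x.2 hx.1 hx.2.1 hx.2.2), sum_const, nsmul_eq_mul]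
    congr 1
    rw [one_div_mul_one_div]
  rw [e1, sum_congr rfl e2, ← mul_sum]
  refine mul_le_mul_of_nonneg_left ?_ (Nat.cast_nonneg _)
  rw [sq, sum_mul_sum, ← sum_product']
  refine sum_le_sum_of_subset_of_nonneg ?_ ?_
  · intro x hx
    rw [mem_offDiag] at hx
    exact mem_product.2 ⟨hx.1, hx.2.1⟩
  · intro x _ _
    positivity

variable {L O : Finset ℕ} {S : ℕ → ℕ → Prop} [∀ q v, Decidable (S q v)]

/-- the successful values -/
def Y (O : Finset ℕ) (S : ℕ → ℕ → Prop) (q r : ℕ) : Prop := ∃ v ∈ O, S q v ∧ v % q = r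

open Classical in
/-- the number of the successful primes -/
noncomputable def NN (L O : Finset ℕ) (S : ℕ → ℕ → Prop) (b : ℕ → ℕ) : ℕ :=
  (L.filter fun q => Y O S q (b q)).card

open Classical in
theorem card_Y (hL : ∀ q ∈ L, 0 < q)
    (hinj : ∀ q ∈ L, ∀ v ∈ O, ∀ v' ∈ O, v % q = v' % q → v = v') (q : ℕ) (hq : q ∈ L) :
    ((range q).filter (Y O S q)).card = (O.filter (S q)).card := by
  symm
  apply card_bij (fun v _ => v % q)
  · intro v hv
    rw [mem_filter] at hv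
    rw [mem_filter, mem_range]
    exact ⟨Nat.mod_lt _ (hL q hq), v, hv.1, hv.2, rfl⟩
  · intro v hv v' hv' h
    exact hinj q hq v (mem_filter.1 hv).1 v' (mem_filter.1 hv').1 h
  · intro r hr
    rw [mem_filter] at hr
    obtain ⟨-, v, hv, hS, hr⟩ := hr
    exact ⟨v, mem_filter.2 ⟨hv, hS⟩, hr⟩

open Classical in
theorem DD_le (hinj : ∀ q ∈ L, ∀ v ∈ O, ∀ v' ∈ O, v % q = v' % q → v = v') (b : ℕ → ℕ) :
    DD L O S b ≤ NN L O S b := by
  unfold DD NN
  apply card_le_card_of_forall_subsingleton (fun v q => q ∈ L ∧ S q v ∧ v % q = b q)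
  · intro v hv
    rw [mem_filter] at hv
    obtain ⟨hvO, q, hq, hS, hb⟩ := hv
    exact ⟨q, mem_filter.2 ⟨hq, v, hvO, hS, hb⟩, hq, hS, hb⟩
  · intro q hq v hv v' hv'
    obtain ⟨hv1, hqL, hS, hb⟩ := hv
    obtain ⟨hv1', -, hS', hb'⟩ := hv'
    exact hinj q hqL v (mem_filter.1 hv1).1 v' (mem_filter.1 hv1').1 (hb.trans hb'.symm)

open Classical in
theorem NN_le (b : ℕ → ℕ)
    (hb : ∀ q ∈ L, ∀ q' ∈ L, q ≠ q' → ∀ v ∈ O, ¬ (v % q = b q ∧ v % q' = b q')) :
    NN L O S b ≤ DD L O S b := by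
  unfold DD NN
  apply card_le_card_of_forall_subsingleton (fun q v => v ∈ O ∧ S q v ∧ v % q = b q)
  · intro q hq
    rw [mem_filter] at hq
    obtain ⟨hqL, v, hv, hS, h⟩ := hq
    exact ⟨v, mem_filter.2 ⟨hv, q, hqL, hS, h⟩, hv, hS, h⟩
  · intro v hv q hq q' hq'
    obtain ⟨hq1, hvO, hS, h⟩ := hq
    obtain ⟨hq1', -, hS', h'⟩ := hq'
    by_contra hne
    exact hb q (mem_filter.1 hq1).1 q' (mem_filter.1 hq1').1 hne v hvO ⟨h, h'⟩

theorem diff_le (hinj : ∀ q ∈ L, ∀ v ∈ O, ∀ v' ∈ O, v % q = v' % q → v = v') (G : ℕ → ℝ)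
    (hG : ∀ j, 0 ≤ G j ∧ G j ≤ 1) (b : ℕ → ℕ) :
    |G (DD L O S b) - G (NN L O S b)| ≤ bad L O b := by
  by_cases hb : ∀ q ∈ L, ∀ q' ∈ L, q ≠ q' → ∀ v ∈ O, ¬ (v % q = b q ∧ v % q' = b q')
  · have h : DD L O S b = NN L O S b := le_antisymm (DD_le hinj b) (NN_le b hb)
    rw [h, sub_self, abs_zero]
    exact bad_nonneg L O b
  · push Not at hb
    obtain ⟨q, hq, q', hq', hne, v, hv, h1, h2⟩ := hb
    have h3 : (1 : ℝ) ≤ bad L O b := by
      have h4 : ind v q q' b = 1 := by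
        unfold ind
        rw [if_pos ⟨h1, h2⟩]
      have h5 : ind v q q' b ≤ ∑ v ∈ O, ind v q q' b :=
        single_le_sum (f := fun v => ind v q q' b) (fun w _ => ind_nonneg w q q' b) hv
      have h6 : ∑ v ∈ O, ind v (q, q').1 (q, q').2 b ≤ bad L O b := by
        unfold bad
        exact single_le_sum (f := fun x : ℕ × ℕ => ∑ v ∈ O, ind v x.1 x.2 b)
          (fun x _ => sum_nonneg fun w _ => ind_nonneg w x.1 x.2 b) (mem_offDiag.2 ⟨hq, hq', hne⟩)
      simp only at h6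
      linarith
    have h7 : |G (DD L O S b) - G (NN L O S b)| ≤ 1 := by
      rw [abs_le]
      have g1 := hG (DD L O S b)
      have g2 := hG (NN L O S b)
      constructor <;> linarith
    linarith

end LOCN

open LOCN in
theorem loc (hPBS : S_PBS) : S_LOC := by
  classical
  intro L O S inst F c hF hL hc hinj hsum
  have hpos : ∀ q ∈ L, 0 < q := fun q hq => (hL q hq).1.pos
  have hcard : ∀ q ∈ L, ((range q).filter (Y O S q)).card = (O.filter (S q)).card :=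
    fun q hq => card_Y hpos hinj q hq
  have h1 : |Ev L (fun b => F (NN L O S b)) - Ev L (fun b => F (NN L O S b + 1))| ≤ 2 / √c := by
    have h := hPBS L (Y O S) F c hF (fun q hq => ⟨hpos q hq, ?_⟩) hc ?_
    · exact h
    · rw [hcard q hq]
      have h2 : (O.filter (S q)).card ≤ O.card := card_filter_le _ _
      have h3 := (hL q hq).2
      omega
    · refine hsum.trans (le_of_eq (sum_congr rfl fun q hq => ?_))
      rw [hcard q hq]
  have hbad := Ev_bad L O hpos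
  have h2 : |Ev L (fun b => F (DD L O S b)) - Ev L (fun b => F (NN L O S b))| ≤
      O.card * (∑ q ∈ L, 1 / (q : ℝ)) ^ 2 :=
    (Ev_abs L _ _).trans ((Ev_mono L _ _ fun b _ => diff_le hinj F hF b).trans hbad)
  have h3 : |Ev L (fun b => F (DD L O S b + 1)) - Ev L (fun b => F (NN L O S b + 1))| ≤
      O.card * (∑ q ∈ L, 1 / (q : ℝ)) ^ 2 :=
    (Ev_abs L _ _).trans ((Ev_mono L _ _ fun b _ =>
      diff_le hinj (fun j => F (j + 1)) (fun j => hF (j + 1)) b).trans hbad)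
  rw [abs_le] at h1 h2 h3 ⊢
  constructor
  · linarith [h1.1, h1.2, h2.1, h2.2, h3.1, h3.2]
  · linarith [h1.1, h1.2, h2.1, h2.2, h3.1, h3.2]

end Pool.Agent.H531.IX
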