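import Pool.Agent.H531.IX.Stm

set_option autoImplicit false

/-! Project IX, part LOCH (by helper84): averaging over a window. -/

open Finset MeasureTheory ProbabilityTheory Filter Topology

namespace Pool.Agent.H531.IX

open Pool.Agent.T2H31.HV (Pt Ev Dep Ev_const)

namespace LOCHN

theorem Ev_sum {ι : Type} (K : Finset ι) (L : Finset ℕ) (f : ι → (ℕ → ℕ) → ℝ) :
    Ev L (fun b => ∑ k ∈ K, f k b) = ∑ k ∈ K, Ev L (f k) := by
  unfold Ev
  rw [← mul_sum, sum_comm]

theorem Ev_mono (L : Finset ℕ) (f g : (ℕ → ℕ) → ℝ) (h : ∀ b, f b ≤ g b) : Ev L f ≤ Ev L g := by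
  unfold Ev
  refine mul_le_mul_of_nonneg_left (sum_le_sum fun b _ => h b) ?_
  exact inv_nonneg.2 (prod_nonneg fun p _ => Nat.cast_nonneg p)

theorem window (T : Set ℕ) (A D h j : ℕ) (hj : j + D + h + 1 = A) :
    ∑ k ∈ Finset.Icc 1 h, (Set.indicator T (1 : ℕ → ℝ) (A - D - k)) =
      ((T ∩ Set.Ioc j (j + h)).ncard : ℝ) := by
  classical
  have h1 : ∑ k ∈ Finset.Icc 1 h, (Set.indicator T (1 : ℕ → ℝ) (A - D - k)) =
      ∑ v ∈ Finset.Ioc j (j + h), Set.indicator T (1 : ℕ → ℝ) v := by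
    refine sum_nbij' (fun k => A - D - k) (fun v => A - D - v) ?_ ?_ ?_ ?_ ?_
    · intro k hk
      rw [Finset.mem_Icc] at hk
      rw [Finset.mem_Ioc]
      omega
    · intro v hv
      rw [Finset.mem_Ioc] at hv
      rw [Finset.mem_Icc]
      omega
    · intro k hk
      rw [Finset.mem_Icc] at hk
      show A - D - (A - D - k) = k
      omega
    · intro v hv
      rw [Finset.mem_Ioc] at hv
      show A - D - (A - D - v) = v
      omega
    · intro k _
      rfl
  rw [h1]
  have h2 : T ∩ Set.Ioc j (j + h) = ((Finset.Ioc j (j + h)).filter (fun v => v ∈ T) : Finset ℕ) := by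
    ext v
    simp only [Set.mem_inter_iff, Set.mem_Ioc, coe_filter, Finset.mem_Ioc, Set.mem_ofPred_eq]
    tauto
  rw [h2, Set.ncard_coe_finset, card_filter]
  push_cast
  refine sum_congr rfl fun v _ => ?_
  by_cases hv : v ∈ T
  · rw [Set.indicator_of_mem hv, if_pos hv]
    rfl
  · rw [Set.indicator_of_notMem hv, if_neg hv]

end LOCHN

open LOCHN in
theorem loch (hLOC : S_LOC) : S_LOCH := by
  intro L O S _ T c τ A h hL hc hinj hcs hh hA
  set δ : ℝ := 2 / √c + 2 * O.card * (∑ q ∈ L, 1 / (q : ℝ)) ^ 2 with hδ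
  have hδ0 : 0 ≤ δ := by positivity
  have hh0 : (0 : ℝ) < h := by exact_mod_cast hh
  let F : ℕ → ℕ → ℝ := fun k d => Set.indicator T (1 : ℕ → ℝ) (A - d - k)
  have hF01 : ∀ k d, 0 ≤ F k d ∧ F k d ≤ 1 := by
    intro k d
    show 0 ≤ Set.indicator T (1 : ℕ → ℝ) (A - d - k) ∧ Set.indicator T (1 : ℕ → ℝ) (A - d - k) ≤ 1
    by_cases hv : A - d - k ∈ T
    · rw [Set.indicator_of_mem hv]
      simp
    · rw [Set.indicator_of_notMem hv]
      simp
  let e : ℕ → ℝ := fun k => Ev L (fun b => F k (DD L O S b))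
  have hstep : ∀ k, |e k - e (k + 1)| ≤ δ := by
    intro k
    have h1 := hLOC L O S (F k) c (hF01 k) hL hc hinj hcs
    have h2 : (fun b => F k (DD L O S b + 1)) = fun b => F (k + 1) (DD L O S b) := by
      funext b
      show Set.indicator T (1 : ℕ → ℝ) (A - (DD L O S b + 1) - k) =
        Set.indicator T (1 : ℕ → ℝ) (A - DD L O S b - (k + 1))
      congr 1
      omega
    rw [h2] at h1
    exact h1
  have hk : ∀ k, |e 0 - e k| ≤ k * δ := by
    intro k
    induction k with
    | zero => simp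
    | succ k ih =>
      have h1 := hstep k
      have h2 : e 0 - e (k + 1) = (e 0 - e k) + (e k - e (k + 1)) := by ring
      rw [h2]
      refine (abs_add_le _ _).trans ?_
      push_cast
      linarith
  have hkh : ∀ k ∈ Finset.Icc 1 h, |e 0 - e k| ≤ h * δ := by
    intro k hk'
    have h1 : (k : ℝ) ≤ h := by exact_mod_cast (Finset.mem_Icc.1 hk').2
    exact (hk k).trans (mul_le_mul_of_nonneg_right h1 hδ0)
  have hDD : ∀ b, DD L O S b ≤ O.card := fun b => card_filter_le _ _
  have hj : ∀ b, (A - DD L O S b - h - 1) + DD L O S b + h + 1 = A := by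
    intro b
    have := hDD b
    omega
  have hsum : ∑ k ∈ Finset.Icc 1 h, e k =
      Ev L (fun b => ((T ∩ Set.Ioc (A - DD L O S b - h - 1)
        (A - DD L O S b - h - 1 + h)).ncard : ℝ)) := by
    rw [← Ev_sum (Finset.Icc 1 h) L (fun k b => F k (DD L O S b))]
    congr 1
    funext b
    exact window T A (DD L O S b) h _ (hj b)
  have he0 : e 0 = Ev L (fun b => Set.indicator T 1 (A - DD L O S b)) := rfl
  have hLpos : ∀ p ∈ L, 0 < p := fun p hp => (hL p hp).1.pos
  have hcard : ((Finset.Icc 1 h).card : ℝ) = h := by simp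
  constructor
  · intro hT
    rw [← he0]
    have h1 : ∑ k ∈ Finset.Icc 1 h, e k ≤ τ * h := by
      rw [hsum]
      refine (Ev_mono L _ (fun _ => τ * h) fun b => ?_).trans (le_of_eq (Ev_const L hLpos _))
      have h2 := hDD b
      exact hT _ (by have := hj b; omega) (by omega)
    have h3 : ∑ k ∈ Finset.Icc 1 h, e 0 ≤ ∑ k ∈ Finset.Icc 1 h, (e k + h * δ) := by
      refine sum_le_sum fun k hk' => ?_
      have := (abs_le.1 (hkh k hk')).2
      linarith
    rw [sum_add_distrib, sum_const, sum_const, nsmul_eq_mul, nsmul_eq_mul, hcard] at h3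
    have h4 : (h : ℝ) * e 0 ≤ h * (τ + h * δ) := by nlinarith
    exact le_of_mul_le_mul_left h4 hh0
  · intro hT
    rw [← he0]
    have h1 : τ * h ≤ ∑ k ∈ Finset.Icc 1 h, e k := by
      rw [hsum]
      refine (le_of_eq (Ev_const L hLpos _).symm).trans (Ev_mono L (fun _ => τ * h) _ fun b => ?_)
      have h2 := hDD b
      exact hT _ (by have := hj b; omega) (by omega)
    have h3 : ∑ k ∈ Finset.Icc 1 h, (e k - h * δ) ≤ ∑ k ∈ Finset.Icc 1 h, e 0 := by
      refine sum_le_sum fun k hk' => ?_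
      have := (abs_le.1 (hkh k hk')).1
      linarith
    rw [sum_sub_distrib, sum_const, sum_const, nsmul_eq_mul, nsmul_eq_mul, hcard] at h3
    have h4 : (h : ℝ) * (τ - h * δ) ≤ h * e 0 := by nlinarith
    exact le_of_mul_le_mul_left h4 hh0

end Pool.Agent.H531.IX
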