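import Pool.Agent.H531.IX.Stm

/-!
# The index law: all blocks (S_MAIN)
-/

set_option autoImplicit false

open Finset MeasureTheory ProbabilityTheory Filter Topology

namespace Pool.Agent.H531.IX

open Pool.Agent.T2H31.HV (Pt Ev Dep Ev_const)
open Pool.Agent.T2H32.BF (Model z0 V z0_mono)

namespace MAINN

/-! ## Conditioning on the coordinates which are not prime -/

/-- the prime coordinates from `b`, the others from `c` -/
noncomputable def mg (c b : ℕ → ℕ) : ℕ → ℕ := by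
  classical exact fun q => if q.Prime then b q else c q

lemma mg_prime {c b : ℕ → ℕ} {q : ℕ} (h : q.Prime) : mg c b q = b q := by
  unfold mg
  rw [if_pos h]

lemma mg_not {c b : ℕ → ℕ} {q : ℕ} (h : ¬ q.Prime) : mg c b q = c q := by
  unfold mg
  rw [if_neg h]

/-- agreement of the coordinates `≤ N` -/
def Ag (N : ℕ) (b b' : ℕ → ℕ) : Prop := ∀ q ≤ N, b q = b' q

lemma Ag.mono {N N' : ℕ} {b b' : ℕ → ℕ} (h : Ag N b b') (hN : N' ≤ N) : Ag N' b b' :=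
  fun q hq => h q (hq.trans hN)

lemma cond {Ω : Type} [MeasurableSpace Ω] {P : Measure Ω} {a : ℕ → Ω → ℕ} (hM : Model P a)
    (Q : (ℕ → ℕ) → Prop) (N : ℕ) (hQ : ∀ b b' : ℕ → ℕ, Ag N b b' → (Q b ↔ Q b')) {K : ℝ}
    (hK : 0 ≤ K) (h : ∀ c : ℕ → ℕ, P.real {ω | Q (mg c (fun q => a q ω))} ≤ K) :
    P.real {ω | Q (fun q => a q ω)} ≤ K := by
  classical
  have hprob := Pool.Agent.T2H32.BF.prob hM
  let S : Finset ℕ := (range (N + 1)).filter (fun q => ¬ q.Prime)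
  let T : Finset ℕ := (range (N + 1)).filter Nat.Prime
  have hST : Disjoint S T := by
    rw [Finset.disjoint_left]
    intro q hq1 hq2
    exact (Finset.mem_filter.mp hq1).2 (Finset.mem_filter.mp hq2).2
  have hind := hM.independent.indepFun_finset S T hST hM.measurable
  let f : Ω → (S → ℕ) := fun ω i => a i ω
  let g : Ω → (T → ℕ) := fun ω i => a i ω
  let ext1 : (S → ℕ) → ℕ → ℕ := fun c q => if h : q ∈ S then c ⟨q, h⟩ else 0
  let ext2 : (T → ℕ) → ℕ → ℕ := fun c q => if h : q ∈ T then c ⟨q, h⟩ else 0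
  have hf : Measurable f := measurable_pi_lambda _ fun i => hM.measurable i
  let D : (S → ℕ) → Set (T → ℕ) := fun c => {d | Q (mg (ext1 c) (ext2 d))}
  have hsub : {ω | Q (fun q => a q ω)} ⊆ ⋃ c : S → ℕ, f ⁻¹' {c} ∩ g ⁻¹' D c := by
    intro ω hω
    rw [Set.mem_iUnion]
    refine ⟨f ω, rfl, ?_⟩
    show Q (mg (ext1 (f ω)) (ext2 (g ω)))
    refine (hQ _ _ ?_).mp hω
    intro q hq
    by_cases hp : q.Prime
    · rw [mg_prime hp]
      have hqT : q ∈ T := Finset.mem_filter.mpr ⟨Finset.mem_range.mpr (by omega), hp⟩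
      simp only [ext2, dif_pos hqT]
      rfl
    · rw [mg_not hp]
      have hqS : q ∈ S := Finset.mem_filter.mpr ⟨Finset.mem_range.mpr (by omega), hp⟩
      simp only [ext1, dif_pos hqS]
      rfl
  have hg : ∀ c : S → ℕ, P (g ⁻¹' D c) ≤ ENNReal.ofReal K := by
    intro c
    have h1 : g ⁻¹' D c ⊆ {ω | Q (mg (ext1 c) (fun q => a q ω))} := by
      intro ω hω
      refine (hQ _ _ ?_).mp hω
      intro q hq
      by_cases hp : q.Prime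
      · rw [mg_prime hp, mg_prime hp]
        have hqT : q ∈ T := Finset.mem_filter.mpr ⟨Finset.mem_range.mpr (by omega), hp⟩
        simp only [ext2, dif_pos hqT]
        rfl
      · rw [mg_not hp, mg_not hp]
    refine (measure_mono h1).trans ?_
    rw [ENNReal.le_ofReal_iff_toReal_le (measure_ne_top _ _) hK]
    exact h (ext1 c)
  have hle : P {ω | Q (fun q => a q ω)} ≤ ENNReal.ofReal K := by
    calc P {ω | Q (fun q => a q ω)} ≤ P (⋃ c : S → ℕ, f ⁻¹' {c} ∩ g ⁻¹' D c) := measure_mono hsub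
      _ ≤ ∑' c : S → ℕ, P (f ⁻¹' {c} ∩ g ⁻¹' D c) := measure_iUnion_le _
      _ = ∑' c : S → ℕ, P (f ⁻¹' {c}) * P (g ⁻¹' D c) := by
        congr 1
        funext c
        exact hind.measure_inter_preimage_eq_mul _ _ (measurableSet_singleton c)
          (Set.to_countable _).measurableSet
      _ ≤ ∑' c : S → ℕ, P (f ⁻¹' {c}) * ENNReal.ofReal K :=
        ENNReal.tsum_le_tsum fun c => mul_le_mul_right (hg c) _
      _ = (∑' c : S → ℕ, P (f ⁻¹' {c})) * ENNReal.ofReal K := ENNReal.tsum_mul_right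
      _ ≤ 1 * ENNReal.ofReal K := by
        apply mul_le_mul_left
        rw [← measure_iUnion]
        · exact prob_le_one
        · intro c d hcd
          rw [Function.onFun, Set.disjoint_left]
          intro ω h1 h2
          exact hcd (h1.symm.trans h2)
        · intro c
          exact hf (measurableSet_singleton c)
      _ = ENNReal.ofReal K := one_mul _
  exact ENNReal.toReal_le_of_le_ofReal hK hle

/-- `S_AZ3` for functions of all the coordinates -/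
lemma az3 (hAZ3 : S_AZ3) {Ω : Type} [MeasurableSpace Ω] {P : Measure Ω} {a : ℕ → Ω → ℕ}
    (hM : Model P a) (z : ℕ → ℕ) (hz : Monotone z) (X u I : ℕ) (t : ℝ) (g : ℕ → (ℕ → ℕ) → ℝ)
    (hu : 1 ≤ u) (huX : u ≤ X) (hI : I * u ≤ X) (ht : 0 ≤ t) (ht2 : t ≤ 4 * X)
    (hD : ∀ i, 1 ≤ i → i ≤ I → ∀ b b' : ℕ → ℕ, Ag (z (X + (i + 2) * u)) b b' → g i b = g i b')
    (hg : ∀ i, 1 ≤ i → i ≤ I → ∀ b, |g i b| ≤ 2 * u)
    (hE : ∀ i, 1 ≤ i → i ≤ I → ∀ b, Ev (fr z (X + (i - 1) * u) (X + (i + 2) * u))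
      (fun b' => g i (gl (fr z (X + (i - 1) * u) (X + (i + 2) * u)) b b')) ≤ 0) :
    P.real {ω | 3 * t ≤ ∑ i ∈ Icc 1 I, g i (fun q => a q ω)} ≤
      3 * Real.exp (-(t ^ 2 / (24 * X * u))) := by
  refine cond hM (fun b => 3 * t ≤ ∑ i ∈ Icc 1 I, g i b) (z (X + (I + 2) * u)) ?_ (by positivity) ?_
  · intro b b' hb
    have h1 : ∀ i ∈ Icc 1 I, g i b = g i b' := by
      intro i hi
      rw [Finset.mem_Icc] at hi
      refine hD i hi.1 hi.2 b b' (hb.mono (hz ?_))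
      have := Nat.mul_le_mul_right u (by omega : i + 2 ≤ I + 2)
      omega
    rw [Finset.sum_congr rfl h1]
  · intro c
    refine hAZ3 Ω P a hM z hz X u I t (fun i b => g i (mg c b)) hu huX hI ht ht2 ?_ ?_ ?_
    · intro i h1 h2 b b' hb
      refine hD i h1 h2 _ _ ?_
      intro q hq
      by_cases hp : q.Prime
      · rw [mg_prime hp, mg_prime hp]
        exact hb q (Finset.mem_filter.mpr ⟨Finset.mem_Icc.mpr ⟨hp.one_le, hq⟩, hp⟩)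
      · rw [mg_not hp, mg_not hp]
    · intro i h1 h2 b
      exact hg i h1 h2 _
    · intro i h1 h2 b
      have h3 := hE i h1 h2 (mg c b)
      have h4 : ∀ b' : ℕ → ℕ, mg c (gl (fr z (X + (i - 1) * u) (X + (i + 2) * u)) b b') =
          gl (fr z (X + (i - 1) * u) (X + (i + 2) * u)) (mg c b) b' := by
        intro b'
        funext q
        unfold gl
        by_cases hp : q.Prime
        · rw [mg_prime hp]
          by_cases hq : q ∈ fr z (X + (i - 1) * u) (X + (i + 2) * u)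
          · rw [if_pos hq, if_pos hq]
          · rw [if_neg hq, if_neg hq, mg_prime hp]
        · rw [mg_not hp]
          have hq : q ∉ fr z (X + (i - 1) * u) (X + (i + 2) * u) := by
            intro hq
            unfold fr at hq
            exact hp (Finset.mem_filter.mp hq).2
          rw [if_neg hq, mg_not hp]
      simp only [h4]
      exact h3

/-! ## Agreement -/

lemma sv_ag {W : ℕ → ℕ} {y : ℕ} {b b' : ℕ → ℕ} (h : Ag y b b') (v : ℕ) :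
    Sv W y b v ↔ Sv W y b' v := by
  unfold Sv
  constructor
  · intro h1 q hq hp
    rw [← h q hq]
    exact h1 q hq hp
  · intro h1 q hq hp
    rw [h q hq]
    exact h1 q hq hp

lemma rs_ag {z W : ℕ → ℕ} {v : ℕ} {b b' : ℕ → ℕ} (h : Ag (z v) b b') :
    v ∈ RS z W b ↔ v ∈ RS z W b' := by
  unfold RS
  rw [Set.mem_ofPred_eq, Set.mem_ofPred_eq, sv_ag h]

lemma pin_ag {z W : ℕ → ℕ} (hz : Monotone z) {p : ℕ} {b b' : ℕ → ℕ} (h : Ag (z p) b b') :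
    pin (RS z W b) p = pin (RS z W b') p := by
  unfold pin
  have h1 : RS z W b ∩ Set.Icc 1 p = RS z W b' ∩ Set.Icc 1 p := by
    ext v
    constructor
    · rintro ⟨h1, h2⟩
      exact ⟨(rs_ag (h.mono (hz h2.2))).mp h1, h2⟩
    · rintro ⟨h1, h2⟩
      exact ⟨(rs_ag (h.mono (hz h2.2))).mpr h1, h2⟩
  rw [h1]

lemma old_ag {z W : ℕ → ℕ} {x p : ℕ} {b b' : ℕ → ℕ} (h : Ag (z x) b b') :
    Old z W x p b = Old z W x p b' := by
  classical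
  unfold Old
  refine Finset.filter_congr ?_
  intro v _
  exact sv_ag h v

lemma nn_ag {z W : ℕ → ℕ} {H : Finset ℕ} {B : Set ℕ} {x u : ℕ} {b b' : ℕ → ℕ}
    (h : Ag (z x) b b') : nn z W H B x u b = nn z W H B x u b' := by
  classical
  unfold nn
  congr 1
  refine Finset.filter_congr ?_
  intro p _
  constructor
  · rintro ⟨h1, h2⟩
    exact ⟨h1, fun i hi => (sv_ag h _).mp (h2 i hi)⟩
  · rintro ⟨h1, h2⟩
    exact ⟨h1, fun i hi => (sv_ag h _).mpr (h2 i hi)⟩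

lemma nt_ag {z W : ℕ → ℕ} (hz : Monotone z) {H : Finset ℕ} {B : Set ℕ} {T : ℕ → Set ℕ}
    {x x' M : ℕ} {b b' : ℕ → ℕ} (h : Ag (z M) b b') (hM : x' ≤ M) (hM2 : ∀ i ∈ H, x' + i ≤ M) :
    NT z W H B T x x' b = NT z W H B T x x' b' := by
  classical
  unfold NT
  congr 1
  refine Finset.filter_congr ?_
  intro p hp
  rw [Finset.mem_Ioc] at hp
  have e1 : pin (RS z W b) p = pin (RS z W b') p := pin_ag hz (h.mono (hz (by omega)))
  have e2 : ∀ i ∈ H, (p + i ∈ RS z W b ↔ p + i ∈ RS z W b') := by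
    intro i hi
    refine rs_ag (h.mono (hz ?_))
    have := hM2 i hi
    omega
  rw [e1]
  constructor
  · rintro ⟨h1, h2, h3⟩
    exact ⟨h1, fun i hi => (e2 i hi).mp (h2 i hi), h3⟩
  · rintro ⟨h1, h2, h3⟩
    exact ⟨h1, fun i hi => (e2 i hi).mpr (h2 i hi), h3⟩

lemma g0_ag {W : ℕ → ℕ} {X x : ℕ} {b b' : ℕ → ℕ} (h : Ag (z0 x) b b') :
    G0 W X x b ↔ G0 W X x b' := by
  unfold G0
  rw [old_ag h, old_ag h, pin_ag z0_mono h]

lemma ru_ag {W : ℕ → ℕ} {B : Set ℕ} {T : ℕ → Set ℕ} {τ : ℝ} {X x : ℕ} {b b' : ℕ → ℕ}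
    (h : Ag (z0 x) b b') : RU W B T τ X x b ↔ RU W B T τ X x b' := by
  unfold RU
  rw [pin_ag z0_mono h]

lemma rl_ag {W : ℕ → ℕ} {B : Set ℕ} {T : ℕ → Set ℕ} {τ : ℝ} {X x : ℕ} {b b' : ℕ → ℕ}
    (h : Ag (z0 x) b b') : RL W B T τ X x b ↔ RL W B T τ X x b' := by
  unfold RL
  rw [pin_ag z0_mono h]

lemma gl_ag (z : ℕ → ℕ) (x x' : ℕ) (b b' : ℕ → ℕ) : Ag (z x) (gl (fr z x x') b b') b := by
  intro q hq
  unfold gl
  rw [if_neg]
  intro h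
  unfold fr at h
  have h1 := (Finset.mem_Ioc.mp (Finset.mem_filter.mp h).1).1
  omega

/-! ## Mean values -/

lemma Ev_sub_const (S : Finset ℕ) (hS : ∀ p ∈ S, 0 < p) (F : (ℕ → ℕ) → ℝ) (c : ℝ) :
    Ev S (fun b => F b - c) = Ev S F - c := by
  have h1 := Ev_const S hS c
  unfold Ev at h1 ⊢
  rw [Finset.sum_sub_distrib, mul_sub, h1]

lemma Ev_const_sub (S : Finset ℕ) (hS : ∀ p ∈ S, 0 < p) (F : (ℕ → ℕ) → ℝ) (c : ℝ) :
    Ev S (fun b => c - F b) = c - Ev S F := by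
  have h1 := Ev_const S hS c
  unfold Ev at h1 ⊢
  rw [Finset.sum_sub_distrib, mul_sub, h1]

lemma fr_pos (z : ℕ → ℕ) (x x' : ℕ) : ∀ p ∈ fr z x x', 0 < p := by
  intro p hp
  unfold fr at hp
  exact (Finset.mem_filter.mp hp).2.pos

/-! ## The functions of one block -/

/-- the upper function -/
noncomputable def fU (W : ℕ → ℕ) (H : Finset ℕ) (ε : ℝ) (B : (ℕ → ℕ) → Set ℕ)
    (T : (ℕ → ℕ) → ℕ → Set ℕ) (τ : (ℕ → ℕ) → ℝ) (X x : ℕ) (b : ℕ → ℕ) : ℝ := by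
  classical exact if G0 W X x b ∧ RU W (B b) (T b) (τ b) X x b then
    (NT z0 W H (B b) (T b) (x + uX X) (x + 2 * uX X) b : ℝ) -
      (1 + ε / 4) * τ b * nn z0 W H (B b) x (uX X) b else 0

/-- the lower function -/
noncomputable def fL (W : ℕ → ℕ) (H : Finset ℕ) (ε : ℝ) (B : (ℕ → ℕ) → Set ℕ)
    (T : (ℕ → ℕ) → ℕ → Set ℕ) (τ : (ℕ → ℕ) → ℝ) (X x : ℕ) (b : ℕ → ℕ) : ℝ := by
  classical exact if G0 W X x b ∧ RL W (B b) (T b) (τ b) X x b then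
    (1 - ε / 4) * τ b * nn z0 W H (B b) x (uX X) b -
      (NT z0 W H (B b) (T b) (x + uX X) (x + 2 * uX X) b : ℝ) else 0

lemma fU_pos {W : ℕ → ℕ} {H : Finset ℕ} {ε : ℝ} {B : (ℕ → ℕ) → Set ℕ}
    {T : (ℕ → ℕ) → ℕ → Set ℕ} {τ : (ℕ → ℕ) → ℝ} {X x : ℕ} {b : ℕ → ℕ}
    (h : G0 W X x b ∧ RU W (B b) (T b) (τ b) X x b) :
    fU W H ε B T τ X x b = (NT z0 W H (B b) (T b) (x + uX X) (x + 2 * uX X) b : ℝ) -
      (1 + ε / 4) * τ b * nn z0 W H (B b) x (uX X) b := by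
  unfold fU
  rw [if_pos h]

lemma fU_neg {W : ℕ → ℕ} {H : Finset ℕ} {ε : ℝ} {B : (ℕ → ℕ) → Set ℕ}
    {T : (ℕ → ℕ) → ℕ → Set ℕ} {τ : (ℕ → ℕ) → ℝ} {X x : ℕ} {b : ℕ → ℕ}
    (h : ¬ (G0 W X x b ∧ RU W (B b) (T b) (τ b) X x b)) :
    fU W H ε B T τ X x b = 0 := by
  unfold fU
  rw [if_neg h]

lemma fL_pos {W : ℕ → ℕ} {H : Finset ℕ} {ε : ℝ} {B : (ℕ → ℕ) → Set ℕ}
    {T : (ℕ → ℕ) → ℕ → Set ℕ} {τ : (ℕ → ℕ) → ℝ} {X x : ℕ} {b : ℕ → ℕ}
    (h : G0 W X x b ∧ RL W (B b) (T b) (τ b) X x b) :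
    fL W H ε B T τ X x b = (1 - ε / 4) * τ b * nn z0 W H (B b) x (uX X) b -
      (NT z0 W H (B b) (T b) (x + uX X) (x + 2 * uX X) b : ℝ) := by
  unfold fL
  rw [if_pos h]

lemma fL_neg {W : ℕ → ℕ} {H : Finset ℕ} {ε : ℝ} {B : (ℕ → ℕ) → Set ℕ}
    {T : (ℕ → ℕ) → ℕ → Set ℕ} {τ : (ℕ → ℕ) → ℝ} {X x : ℕ} {b : ℕ → ℕ}
    (h : ¬ (G0 W X x b ∧ RL W (B b) (T b) (τ b) X x b)) :
    fL W H ε B T τ X x b = 0 := by
  unfold fL
  rw [if_neg h]

lemma nt_le (z W : ℕ → ℕ) (H : Finset ℕ) (B : Set ℕ) (T : ℕ → Set ℕ) (x u : ℕ) (b : ℕ → ℕ) :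
    NT z W H B T (x + u) (x + 2 * u) b ≤ u := by
  classical
  unfold NT
  refine (Finset.card_filter_le _ _).trans ?_
  rw [Nat.card_Ioc]
  omega

lemma nn_le (z W : ℕ → ℕ) (H : Finset ℕ) (B : Set ℕ) (x u : ℕ) (b : ℕ → ℕ) :
    nn z W H B x u b ≤ u := by
  classical
  unfold nn
  refine (Finset.card_filter_le _ _).trans ?_
  rw [Nat.card_Ioc]
  omega

lemma fU_bd {W : ℕ → ℕ} {H : Finset ℕ} {ε : ℝ} (hε : 0 < ε) (hε1 : ε ≤ 1)
    {B : (ℕ → ℕ) → Set ℕ} {T : (ℕ → ℕ) → ℕ → Set ℕ} {τ : (ℕ → ℕ) → ℝ} {X x : ℕ} {b : ℕ → ℕ}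
    (h0 : 0 ≤ τ b) (h1 : τ b ≤ 1) : |fU W H ε B T τ X x b| ≤ 2 * uX X := by
  by_cases h : G0 W X x b ∧ RU W (B b) (T b) (τ b) X x b
  · rw [fU_pos h, abs_le]
    have a1 : (NT z0 W H (B b) (T b) (x + uX X) (x + 2 * uX X) b : ℝ) ≤ uX X := by
      exact_mod_cast nt_le z0 W H (B b) (T b) x (uX X) b
    have a2 : (nn z0 W H (B b) x (uX X) b : ℝ) ≤ uX X := by
      exact_mod_cast nn_le z0 W H (B b) x (uX X) b
    have a3 : (0 : ℝ) ≤ NT z0 W H (B b) (T b) (x + uX X) (x + 2 * uX X) b := Nat.cast_nonneg _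
    have a4 : (0 : ℝ) ≤ nn z0 W H (B b) x (uX X) b := Nat.cast_nonneg _
    have a5 : (0 : ℝ) ≤ uX X := Nat.cast_nonneg _
    have a6 : (1 + ε / 4) * τ b ≤ 2 := by nlinarith
    have a7 : 0 ≤ (1 + ε / 4) * τ b := by positivity
    have a8 : (1 + ε / 4) * τ b * nn z0 W H (B b) x (uX X) b ≤ 2 * uX X :=
      mul_le_mul a6 a2 a4 (by norm_num)
    have a9 : 0 ≤ (1 + ε / 4) * τ b * nn z0 W H (B b) x (uX X) b := mul_nonneg a7 a4
    constructor <;> linarith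
  · rw [fU_neg h, abs_zero]
    positivity

lemma fL_bd {W : ℕ → ℕ} {H : Finset ℕ} {ε : ℝ} (hε : 0 < ε) (hε1 : ε ≤ 1)
    {B : (ℕ → ℕ) → Set ℕ} {T : (ℕ → ℕ) → ℕ → Set ℕ} {τ : (ℕ → ℕ) → ℝ} {X x : ℕ} {b : ℕ → ℕ}
    (h0 : 0 ≤ τ b) (h1 : τ b ≤ 1) : |fL W H ε B T τ X x b| ≤ 2 * uX X := by
  by_cases h : G0 W X x b ∧ RL W (B b) (T b) (τ b) X x b
  · rw [fL_pos h, abs_le]
    have a1 : (NT z0 W H (B b) (T b) (x + uX X) (x + 2 * uX X) b : ℝ) ≤ uX X := by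
      exact_mod_cast nt_le z0 W H (B b) (T b) x (uX X) b
    have a2 : (nn z0 W H (B b) x (uX X) b : ℝ) ≤ uX X := by
      exact_mod_cast nn_le z0 W H (B b) x (uX X) b
    have a3 : (0 : ℝ) ≤ NT z0 W H (B b) (T b) (x + uX X) (x + 2 * uX X) b := Nat.cast_nonneg _
    have a4 : (0 : ℝ) ≤ nn z0 W H (B b) x (uX X) b := Nat.cast_nonneg _
    have a5 : (0 : ℝ) ≤ uX X := Nat.cast_nonneg _
    have a6 : (1 - ε / 4) * τ b ≤ 2 := by nlinarith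
    have a7 : 0 ≤ (1 - ε / 4) * τ b := mul_nonneg (by linarith) h0
    have a8 : (1 - ε / 4) * τ b * nn z0 W H (B b) x (uX X) b ≤ 2 * uX X :=
      mul_le_mul a6 a2 a4 (by norm_num)
    have a9 : 0 ≤ (1 - ε / 4) * τ b * nn z0 W H (B b) x (uX X) b := mul_nonneg a7 a4
    constructor <;> linarith
  · rw [fL_neg h, abs_zero]
    positivity

/-- the hypothesis on the families -/
def Fam (X : ℕ) (B : (ℕ → ℕ) → Set ℕ) (T : (ℕ → ℕ) → ℕ → Set ℕ) (τ : (ℕ → ℕ) → ℝ) : Prop :=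
  ∀ b b' : ℕ → ℕ, (∀ q ≤ z0 X, b q = b' q) → B b = B b' ∧ T b = T b' ∧ τ b = τ b'

lemma fU_ag {W : ℕ → ℕ} {H : Finset ℕ} {ε : ℝ} {B : (ℕ → ℕ) → Set ℕ}
    {T : (ℕ → ℕ) → ℕ → Set ℕ} {τ : (ℕ → ℕ) → ℝ} {X x : ℕ} (hF : Fam X B T τ) (hx : X ≤ x)
    (hH : ∀ i ∈ H, i ≤ uX X) {b b' : ℕ → ℕ} (h : Ag (z0 (x + 3 * uX X)) b b') :
    fU W H ε B T τ X x b = fU W H ε B T τ X x b' := by
  have hx1 : Ag (z0 x) b b' := h.mono (z0_mono (by omega))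
  obtain ⟨e1, e2, e3⟩ := hF b b' (hx1.mono (z0_mono hx))
  have hiff : (G0 W X x b ∧ RU W (B b) (T b) (τ b) X x b) ↔
      (G0 W X x b' ∧ RU W (B b') (T b') (τ b') X x b') := by
    rw [e1, e2, e3, g0_ag hx1, ru_ag hx1]
  by_cases hc : G0 W X x b ∧ RU W (B b) (T b) (τ b) X x b
  · rw [fU_pos hc, fU_pos (hiff.mp hc), e1, e2, e3, nn_ag hx1,
      nt_ag z0_mono h (by omega) (fun i hi => by have := hH i hi; omega)]
  · rw [fU_neg hc, fU_neg (fun h' => hc (hiff.mpr h'))]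

lemma fL_ag {W : ℕ → ℕ} {H : Finset ℕ} {ε : ℝ} {B : (ℕ → ℕ) → Set ℕ}
    {T : (ℕ → ℕ) → ℕ → Set ℕ} {τ : (ℕ → ℕ) → ℝ} {X x : ℕ} (hF : Fam X B T τ) (hx : X ≤ x)
    (hH : ∀ i ∈ H, i ≤ uX X) {b b' : ℕ → ℕ} (h : Ag (z0 (x + 3 * uX X)) b b') :
    fL W H ε B T τ X x b = fL W H ε B T τ X x b' := by
  have hx1 : Ag (z0 x) b b' := h.mono (z0_mono (by omega))
  obtain ⟨e1, e2, e3⟩ := hF b b' (hx1.mono (z0_mono hx))
  have hiff : (G0 W X x b ∧ RL W (B b) (T b) (τ b) X x b) ↔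
      (G0 W X x b' ∧ RL W (B b') (T b') (τ b') X x b') := by
    rw [e1, e2, e3, g0_ag hx1, rl_ag hx1]
  by_cases hc : G0 W X x b ∧ RL W (B b) (T b) (τ b) X x b
  · rw [fL_pos hc, fL_pos (hiff.mp hc), e1, e2, e3, nn_ag hx1,
      nt_ag z0_mono h (by omega) (fun i hi => by have := hH i hi; omega)]
  · rw [fL_neg hc, fL_neg (fun h' => hc (hiff.mpr h'))]

/-- the conclusion of `S_GB` at `X` -/
def GBX (W : ℕ → ℕ) (H : Finset ℕ) (ε : ℝ) (X : ℕ) : Prop :=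
  ∀ (x : ℕ) (B : Set ℕ) (T : ℕ → Set ℕ) (τ : ℝ) (b : ℕ → ℕ), X ≤ x → x ≤ 3 * X →
  (X : ℝ) ^ (-(0.001 : ℝ)) ≤ τ → G0 W X x b →
  (RU W B T τ X x b →
    Ev (fr z0 x (x + 3 * uX X)) (fun b' => (NT z0 W H B T (x + uX X) (x + 2 * uX X)
      (gl (fr z0 x (x + 3 * uX X)) b b') : ℝ)) ≤ (1 + ε / 4) * τ * nn z0 W H B x (uX X) b) ∧
  (RL W B T τ X x b →
    (1 - ε / 4) * τ * nn z0 W H B x (uX X) b ≤ Ev (fr z0 x (x + 3 * uX X)) (fun b' =>
      (NT z0 W H B T (x + uX X) (x + 2 * uX X) (gl (fr z0 x (x + 3 * uX X)) b b') : ℝ)))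

lemma fU_Ev {W : ℕ → ℕ} {H : Finset ℕ} {ε : ℝ} {B : (ℕ → ℕ) → Set ℕ}
    {T : (ℕ → ℕ) → ℕ → Set ℕ} {τ : (ℕ → ℕ) → ℝ} {X x : ℕ} (hF : Fam X B T τ)
    (hGB : GBX W H ε X) (hx : X ≤ x) (hx3 : x ≤ 3 * X) (b : ℕ → ℕ)
    (hτ : (X : ℝ) ^ (-(0.001 : ℝ)) ≤ τ b) :
    Ev (fr z0 x (x + 3 * uX X))
      (fun b' => fU W H ε B T τ X x (gl (fr z0 x (x + 3 * uX X)) b b')) ≤ 0 := by
  by_cases hc : G0 W X x b ∧ RU W (B b) (T b) (τ b) X x b
  · have h1 : ∀ b' : ℕ → ℕ, fU W H ε B T τ X x (gl (fr z0 x (x + 3 * uX X)) b b') =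
        (NT z0 W H (B b) (T b) (x + uX X) (x + 2 * uX X)
          (gl (fr z0 x (x + 3 * uX X)) b b') : ℝ) -
          (1 + ε / 4) * τ b * nn z0 W H (B b) x (uX X) b := by
      intro b'
      have hA := gl_ag z0 x (x + 3 * uX X) b b'
      obtain ⟨e1, e2, e3⟩ := hF _ _ (hA.mono (z0_mono hx))
      rw [fU_pos, e1, e2, e3, nn_ag hA]
      rw [e1, e2, e3, g0_ag hA, ru_ag hA]
      exact hc
    simp only [h1]
    rw [Ev_sub_const _ (fr_pos _ _ _)]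
    have h2 := (hGB x (B b) (T b) (τ b) b hx hx3 hτ hc.1).1 hc.2
    linarith
  · have h1 : ∀ b' : ℕ → ℕ, fU W H ε B T τ X x (gl (fr z0 x (x + 3 * uX X)) b b') = 0 := by
      intro b'
      have hA := gl_ag z0 x (x + 3 * uX X) b b'
      obtain ⟨e1, e2, e3⟩ := hF _ _ (hA.mono (z0_mono hx))
      rw [fU_neg]
      rw [e1, e2, e3, g0_ag hA, ru_ag hA]
      exact hc
    simp only [h1]
    rw [Ev_const _ (fr_pos _ _ _)]

lemma fL_Ev {W : ℕ → ℕ} {H : Finset ℕ} {ε : ℝ} {B : (ℕ → ℕ) → Set ℕ}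
    {T : (ℕ → ℕ) → ℕ → Set ℕ} {τ : (ℕ → ℕ) → ℝ} {X x : ℕ} (hF : Fam X B T τ)
    (hGB : GBX W H ε X) (hx : X ≤ x) (hx3 : x ≤ 3 * X) (b : ℕ → ℕ)
    (hτ : (X : ℝ) ^ (-(0.001 : ℝ)) ≤ τ b) :
    Ev (fr z0 x (x + 3 * uX X))
      (fun b' => fL W H ε B T τ X x (gl (fr z0 x (x + 3 * uX X)) b b')) ≤ 0 := by
  by_cases hc : G0 W X x b ∧ RL W (B b) (T b) (τ b) X x b
  · have h1 : ∀ b' : ℕ → ℕ, fL W H ε B T τ X x (gl (fr z0 x (x + 3 * uX X)) b b') =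
        (1 - ε / 4) * τ b * nn z0 W H (B b) x (uX X) b -
        (NT z0 W H (B b) (T b) (x + uX X) (x + 2 * uX X)
          (gl (fr z0 x (x + 3 * uX X)) b b') : ℝ) := by
      intro b'
      have hA := gl_ag z0 x (x + 3 * uX X) b b'
      obtain ⟨e1, e2, e3⟩ := hF _ _ (hA.mono (z0_mono hx))
      rw [fL_pos, e1, e2, e3, nn_ag hA]
      rw [e1, e2, e3, g0_ag hA, rl_ag hA]
      exact hc
    simp only [h1]
    rw [Ev_const_sub _ (fr_pos _ _ _)]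
    have h2 := (hGB x (B b) (T b) (τ b) b hx hx3 hτ hc.1).2 hc.2
    linarith
  · have h1 : ∀ b' : ℕ → ℕ, fL W H ε B T τ X x (gl (fr z0 x (x + 3 * uX X)) b b') = 0 := by
      intro b'
      have hA := gl_ag z0 x (x + 3 * uX X) b b'
      obtain ⟨e1, e2, e3⟩ := hF _ _ (hA.mono (z0_mono hx))
      rw [fL_neg]
      rw [e1, e2, e3, g0_ag hA, rl_ag hA]
      exact hc
    simp only [h1]
    rw [Ev_const _ (fr_pos _ _ _)]

/-! ## Counting in blocks -/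

lemma blk_sum (Q : ℕ → Prop) [DecidablePred Q] (X u I : ℕ) :
    ∑ i ∈ Icc 1 I, ((Ioc (X + (i - 1) * u + u) (X + (i - 1) * u + 2 * u)).filter Q).card =
      ((Ioc (X + u) (X + (I + 1) * u)).filter Q).card := by
  induction I with
  | zero => simp
  | succ I ih =>
    rw [Finset.sum_Icc_succ_top (by omega), ih]
    have e1 : X + (I + 1 - 1) * u + u = X + (I + 1) * u := by
      rw [Nat.add_sub_cancel]
      ring
    have e2 : X + (I + 1 - 1) * u + 2 * u = X + (I + 1 + 1) * u := by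
      rw [Nat.add_sub_cancel]
      ring
    have h1 : X + u ≤ X + (I + 1) * u := by
      have := Nat.mul_le_mul_right u (by omega : 1 ≤ I + 1)
      omega
    have h2 : X + (I + 1) * u ≤ X + (I + 1 + 1) * u := by
      have := Nat.mul_le_mul_right u (by omega : I + 1 ≤ I + 1 + 1)
      omega
    rw [e1, e2, ← Finset.card_union_of_disjoint, ← Finset.filter_union,
      Finset.Ioc_union_Ioc_eq_Ioc h1 h2]
    rw [Finset.disjoint_left]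
    intro v hv1 hv2
    have h3 := (Finset.mem_Ioc.mp (Finset.mem_filter.mp hv1).1).2
    have h4 := (Finset.mem_Ioc.mp (Finset.mem_filter.mp hv2).1).1
    omega

lemma blk_up (Q : ℕ → Prop) [DecidablePred Q] (X X2 u I : ℕ) (hI : X2 ≤ X + (I + 2) * u) :
    ((Ioc X X2).filter Q).card ≤ 2 * u +
      ∑ i ∈ Icc 1 I, ((Ioc (X + (i - 1) * u + u) (X + (i - 1) * u + 2 * u)).filter Q).card := by
  rw [blk_sum]
  have e1 : X + (I + 2) * u = X + (I + 1) * u + u := by ring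
  have hsub : (Ioc X X2).filter Q ⊆ (Ioc X (X + u) ∪ Ioc (X + (I + 1) * u) (X + (I + 2) * u)) ∪
      (Ioc (X + u) (X + (I + 1) * u)).filter Q := by
    intro v hv
    rw [Finset.mem_filter, Finset.mem_Ioc] at hv
    rw [Finset.mem_union, Finset.mem_union, Finset.mem_Ioc, Finset.mem_Ioc, Finset.mem_filter,
      Finset.mem_Ioc]
    by_cases h1 : v ≤ X + u
    · exact Or.inl (Or.inl ⟨hv.1.1, h1⟩)
    · by_cases h2 : v ≤ X + (I + 1) * u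
      · exact Or.inr ⟨⟨by omega, h2⟩, hv.2⟩
      · exact Or.inl (Or.inr ⟨by omega, by omega⟩)
  have h1 := Finset.card_le_card hsub
  have h2 := Finset.card_union_le (Ioc X (X + u) ∪ Ioc (X + (I + 1) * u) (X + (I + 2) * u))
    ((Ioc (X + u) (X + (I + 1) * u)).filter Q)
  have h3 := Finset.card_union_le (Ioc X (X + u)) (Ioc (X + (I + 1) * u) (X + (I + 2) * u))
  rw [Nat.card_Ioc, Nat.card_Ioc] at h3
  omega

lemma blk_lo (Q : ℕ → Prop) [DecidablePred Q] (X X2 u I : ℕ)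
    (hI : X + (I + 1) * u ≤ X2 ∨ I = 0) :
    ∑ i ∈ Icc 1 I, ((Ioc (X + (i - 1) * u + u) (X + (i - 1) * u + 2 * u)).filter Q).card ≤
      ((Ioc X X2).filter Q).card := by
  rcases hI with hI | hI
  · rw [blk_sum]
    exact Finset.card_le_card (Finset.filter_subset_filter _
      (Finset.Ioc_subset_Ioc (by omega) hI))
  · rw [hI]
    simp

lemma nt_up (z W : ℕ → ℕ) (H : Finset ℕ) (B : Set ℕ) (T : ℕ → Set ℕ) (b : ℕ → ℕ)
    (X X2 u I : ℕ) (hI : X2 ≤ X + (I + 2) * u) :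
    NT z W H B T X X2 b ≤ 2 * u +
      ∑ i ∈ Icc 1 I, NT z W H B T (X + (i - 1) * u + u) (X + (i - 1) * u + 2 * u) b := by
  classical
  unfold NT
  exact blk_up _ X X2 u I hI

lemma nt_lo (z W : ℕ → ℕ) (H : Finset ℕ) (B : Set ℕ) (T : ℕ → Set ℕ) (b : ℕ → ℕ)
    (X X2 u I : ℕ) (hI : X + (I + 1) * u ≤ X2 ∨ I = 0) :
    ∑ i ∈ Icc 1 I, NT z W H B T (X + (i - 1) * u + u) (X + (i - 1) * u + 2 * u) b ≤
      NT z W H B T X X2 b := by
  classical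
  unfold NT
  exact blk_lo _ X X2 u I hI

lemma card_filter_iff (S : Finset ℕ) (P Q : ℕ → Prop) (i1 : DecidablePred P)
    (i2 : DecidablePred Q) (h : ∀ p, P p ↔ Q p) :
    (@Finset.filter ℕ P i1 S).card = (@Finset.filter ℕ Q i2 S).card := by
  have hPQ : P = Q := funext fun p => propext (h p)
  subst hPQ
  have hi : i1 = i2 := Subsingleton.elim _ _
  subst hi
  rfl

lemma mt_eq (z W : ℕ → ℕ) (H : Finset ℕ) (B : Set ℕ) (b : ℕ → ℕ) (X X2 : ℕ) :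
    MT z W H B X X2 b = NT z W H B (fun _ => Set.univ) X X2 b := by
  unfold MT NT
  refine card_filter_iff _ _ _ _ _ ?_
  intro p
  constructor
  · rintro ⟨h1, h2⟩
    exact ⟨h1, h2, Set.mem_univ _⟩
  · rintro ⟨h1, h2, _⟩
    exact ⟨h1, h2⟩

/-! ## Deterministic facts -/

lemma pin_mono (A : Set ℕ) {p p' : ℕ} (h : p ≤ p') : pin A p ≤ pin A p' := by
  unfold pin
  refine Set.ncard_le_ncard ?_ ((Set.finite_Icc 1 p').subset Set.inter_subset_right)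
  exact Set.inter_subset_inter_right _ (Set.Icc_subset_Icc_right h)

lemma sv_anti {W : ℕ → ℕ} {y y' : ℕ} (h : y ≤ y') {b : ℕ → ℕ} {v : ℕ} (hs : Sv W y' b v) :
    Sv W y b v :=
  fun q hq hp => hs q (hq.trans h) hp

lemma pin_old {z W : ℕ → ℕ} (hz : Monotone z) {x y y' : ℕ} (hxy : x ≤ y) (hyy : y ≤ y')
    (b : ℕ → ℕ) :
    pin (RS z W b) y' + (Old z W x y b).card ≤ pin (RS z W b) y + (Old z W x y' b).card := by
  classical
  have h1 : RS z W b ∩ Set.Icc 1 y' ⊆ (RS z W b ∩ Set.Icc 1 y) ∪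
      ((Old z W x y' b \ Old z W x y b : Finset ℕ) : Set ℕ) := by
    rintro v ⟨hv, hv1, hv2⟩
    by_cases hvy : v ≤ y
    · exact Or.inl ⟨hv, hv1, hvy⟩
    · refine Or.inr ?_
      rw [Finset.mem_coe, Finset.mem_sdiff]
      unfold Old
      refine ⟨Finset.mem_filter.mpr ⟨Finset.mem_Ioc.mpr ⟨by omega, hv2⟩,
        sv_anti (hz (by omega)) hv.2⟩, ?_⟩
      intro h
      have := (Finset.mem_Ioc.mp (Finset.mem_filter.mp h).1).2
      omega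
  have h2 : pin (RS z W b) y' ≤ pin (RS z W b) y + (Old z W x y' b \ Old z W x y b).card := by
    unfold pin
    refine (Set.ncard_le_ncard h1 ?_).trans ((Set.ncard_union_le _ _).trans ?_)
    · exact Set.Finite.union ((Set.finite_Icc 1 y).subset Set.inter_subset_right)
        (Finset.finite_toSet _)
    · rw [Set.ncard_coe_finset]
  have h3 : Old z W x y b ⊆ Old z W x y' b := by
    unfold Old
    exact Finset.filter_subset_filter _ (Finset.Ioc_subset_Ioc_right hyy)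
  have h4 := Finset.card_sdiff_add_card_eq_card h3
  omega

lemma g0_of {W : ℕ → ℕ} {X x : ℕ} {b : ℕ → ℕ} (hCB : CB z0 W X b) (h1 : 1 ≤ hX X)
    (hx : X ≤ x) (hx4 : x ≤ 4 * X) : G0 W X x b := by
  refine ⟨?_, ?_⟩
  · have h2 := hCB.2 x hx hx4
    have h3 := pin_old (W := W) z0_mono (x := x) (y := x + uX X / 2) (y' := x + uX X)
      (by omega) (by omega) b
    have h4 : ((pin (RS z0 W b) (x + uX X) : ℕ) : ℝ) + ((Old z0 W x (x + uX X / 2) b).card : ℝ) ≤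
        ((pin (RS z0 W b) (x + uX X / 2) : ℕ) : ℝ) + ((Old z0 W x (x + uX X) b).card : ℝ) := by
      exact_mod_cast h3
    linarith
  · have h2 := hCB.1
    have h3 := pin_mono (RS z0 W b) hx
    omega

lemma nt_le_nn {z W : ℕ → ℕ} (hz : Monotone z) (H : Finset ℕ) (B : Set ℕ) (T : ℕ → Set ℕ)
    (x u : ℕ) (b : ℕ → ℕ) : NT z W H B T (x + u) (x + 2 * u) b ≤ nn z W H B x u b := by
  classical
  unfold NT nn
  refine Finset.card_le_card ?_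
  intro p hp
  rw [Finset.mem_filter] at hp ⊢
  refine ⟨hp.1, hp.2.1, ?_⟩
  intro i hi
  have h1 := (Finset.mem_Ioc.mp hp.1).1
  exact sv_anti (hz (by omega)) (hp.2.2.1 i hi).2

lemma blk_in {X X2 u I i : ℕ} (hI : X + (I + 1) * u ≤ X2 ∨ I = 0) (hi : i ∈ Icc 1 I) :
    X ≤ X + (i - 1) * u ∧ X + (i - 1) * u + 2 * u ≤ X2 := by
  rw [Finset.mem_Icc] at hi
  rcases hI with hI | hI
  · refine ⟨by omega, ?_⟩
    have h1 : (i - 1) * u + 2 * u = (i - 1 + 2) * u := by ring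
    have h2 := Nat.mul_le_mul_right u (by omega : i - 1 + 2 ≤ I + 1)
    omega
  · omega

lemma rl_univ (W : ℕ → ℕ) (B : Set ℕ) (X x : ℕ) (b : ℕ → ℕ) :
    RL W B (fun _ => Set.univ) 1 X x b := by
  intro p _ _ _ j _ _
  rw [Set.univ_inter, one_mul]
  have h1 : (Set.Ioc j (j + hX X)).ncard = hX X := by
    rw [← Finset.coe_Ioc, Set.ncard_coe_finset, Nat.card_Ioc]
    omega
  rw [h1]

/-- the deterministic part of the upper bound -/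
lemma det_up {W : ℕ → ℕ} {H : Finset ℕ} {ε : ℝ} (hε : 0 < ε) (hε1 : ε ≤ 1)
    {B : (ℕ → ℕ) → Set ℕ} {T : (ℕ → ℕ) → ℕ → Set ℕ} {τ : (ℕ → ℕ) → ℝ} {X X2 I : ℕ} {t : ℝ}
    {b : ℕ → ℕ} (hh : 1 ≤ hX X) (hX2 : X2 ≤ 2 * X) (hI1 : X + (I + 1) * uX X ≤ X2 ∨ I = 0)
    (hI2 : X2 ≤ X + (I + 2) * uX X) (ht : 0 ≤ t) (h0 : 0 ≤ τ b) (h1 : τ b ≤ 1)
    (hCB : CB z0 W X b)
    (hreg : ∀ p ∈ B b, X < p → p ≤ X2 → ∀ j, pin (RS z0 W b) X ≤ j + hX X + 1 →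
        j ≤ pin (RS z0 W b) X2 + 3 * uX X →
        ((T b p ∩ Set.Ioc j (j + hX X)).ncard : ℝ) ≤ τ b * hX X)
    (hs1 : ∑ i ∈ Icc 1 I, fU W H ε B T τ X (X + (i - 1) * uX X) b < 3 * t)
    (hs2 : ∑ i ∈ Icc 1 I, fL W H ε B (fun _ _ => Set.univ) (fun _ => 1) X
      (X + (i - 1) * uX X) b < 3 * t) :
    (NT z0 W H (B b) (T b) X X2 b : ℝ) ≤
      (1 + ε) * (τ b * MT z0 W H (B b) X X2 b) + (2 * uX X + 9 * t) := by
  have hG : ∀ i ∈ Icc 1 I, G0 W X (X + (i - 1) * uX X) b := by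
    intro i hi
    obtain ⟨a1, a2⟩ := blk_in hI1 hi
    exact g0_of hCB hh a1 (by omega)
  have hR : ∀ i ∈ Icc 1 I, RU W (B b) (T b) (τ b) X (X + (i - 1) * uX X) b := by
    intro i hi
    obtain ⟨a1, a2⟩ := blk_in hI1 hi
    intro p hp hp1 hp2 j hj1 hj2
    refine hreg p hp (by omega) (by omega) j ?_ ?_
    · exact (pin_mono _ a1).trans hj1
    · have := pin_mono (RS z0 W b) (show X + (i - 1) * uX X ≤ X2 by omega)
      omega
  have e1 : ∑ i ∈ Icc 1 I, fU W H ε B T τ X (X + (i - 1) * uX X) b =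
      ∑ i ∈ Icc 1 I, (NT z0 W H (B b) (T b) (X + (i - 1) * uX X + uX X)
        (X + (i - 1) * uX X + 2 * uX X) b : ℝ) -
      (1 + ε / 4) * τ b * ∑ i ∈ Icc 1 I, (nn z0 W H (B b) (X + (i - 1) * uX X) (uX X) b : ℝ) := by
    rw [Finset.mul_sum, ← Finset.sum_sub_distrib]
    exact Finset.sum_congr rfl fun i hi => fU_pos ⟨hG i hi, hR i hi⟩
  have e2 : ∑ i ∈ Icc 1 I, fL W H ε B (fun _ _ => Set.univ) (fun _ => 1) X
      (X + (i - 1) * uX X) b =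
      (1 - ε / 4) * ∑ i ∈ Icc 1 I, (nn z0 W H (B b) (X + (i - 1) * uX X) (uX X) b : ℝ) -
      ∑ i ∈ Icc 1 I, (NT z0 W H (B b) (fun _ => Set.univ) (X + (i - 1) * uX X + uX X)
        (X + (i - 1) * uX X + 2 * uX X) b : ℝ) := by
    rw [Finset.mul_sum, ← Finset.sum_sub_distrib]
    refine Finset.sum_congr rfl fun i hi => ?_
    rw [fL_pos ⟨hG i hi, rl_univ W (B b) X _ b⟩, mul_one]
  rw [e1] at hs1
  rw [e2] at hs2
  have a1 : (NT z0 W H (B b) (T b) X X2 b : ℝ) ≤ 2 * uX X +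
      ∑ i ∈ Icc 1 I, (NT z0 W H (B b) (T b) (X + (i - 1) * uX X + uX X)
        (X + (i - 1) * uX X + 2 * uX X) b : ℝ) := by
    exact_mod_cast nt_up z0 W H (B b) (T b) b X X2 (uX X) I hI2
  have a2 : ∑ i ∈ Icc 1 I, (NT z0 W H (B b) (fun _ => Set.univ) (X + (i - 1) * uX X + uX X)
        (X + (i - 1) * uX X + 2 * uX X) b : ℝ) ≤ MT z0 W H (B b) X X2 b := by
    rw [mt_eq]
    exact_mod_cast nt_lo z0 W H (B b) (fun _ => Set.univ) b X X2 (uX X) I hI1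
  set N : ℝ := ∑ i ∈ Icc 1 I, (nn z0 W H (B b) (X + (i - 1) * uX X) (uX X) b : ℝ) with hN
  set M : ℝ := (MT z0 W H (B b) X X2 b : ℝ) with hM
  have hN0 : 0 ≤ N := Finset.sum_nonneg fun i _ => Nat.cast_nonneg _
  have hM0 : 0 ≤ M := Nat.cast_nonneg _
  have b1 : (1 - ε / 4) * N ≤ 3 * t + M := by linarith
  have b2 : (1 + ε / 4) * N ≤ (1 + ε) * ((1 - ε / 4) * N) := by
    have : (1 + ε / 4) ≤ (1 + ε) * (1 - ε / 4) := by nlinarith
    calc (1 + ε / 4) * N ≤ ((1 + ε) * (1 - ε / 4)) * N := mul_le_mul_of_nonneg_right this hN0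
      _ = _ := by ring
  have b3 : (1 + ε / 4) * τ b * N ≤ (1 + ε) * (τ b * M) + 6 * t := by
    calc (1 + ε / 4) * τ b * N = τ b * ((1 + ε / 4) * N) := by ring
      _ ≤ τ b * ((1 + ε) * ((1 - ε / 4) * N)) := mul_le_mul_of_nonneg_left b2 h0
      _ ≤ τ b * ((1 + ε) * (3 * t + M)) := by
        apply mul_le_mul_of_nonneg_left _ h0
        exact mul_le_mul_of_nonneg_left b1 (by linarith)
      _ = (1 + ε) * (τ b * M) + (1 + ε) * τ b * (3 * t) := by ring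
      _ ≤ (1 + ε) * (τ b * M) + 2 * (3 * t) := by
        have : (1 + ε) * τ b ≤ 2 := by nlinarith
        have := mul_le_mul_of_nonneg_right this (by linarith : (0 : ℝ) ≤ 3 * t)
        linarith
      _ = _ := by ring
  linarith

/-- the deterministic part of the lower bound -/
lemma det_lo {W : ℕ → ℕ} {H : Finset ℕ} {ε : ℝ} (hε : 0 < ε) (hε1 : ε ≤ 1)
    {B : (ℕ → ℕ) → Set ℕ} {T : (ℕ → ℕ) → ℕ → Set ℕ} {τ : (ℕ → ℕ) → ℝ} {X X2 I : ℕ} {t : ℝ}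
    {b : ℕ → ℕ} (hh : 1 ≤ hX X) (hX2 : X2 ≤ 2 * X) (hI1 : X + (I + 1) * uX X ≤ X2 ∨ I = 0)
    (hI2 : X2 ≤ X + (I + 2) * uX X) (ht : 0 ≤ t) (h0 : 0 ≤ τ b) (h1 : τ b ≤ 1)
    (hCB : CB z0 W X b)
    (hreg : ∀ p ∈ B b, X < p → p ≤ X2 → ∀ j, pin (RS z0 W b) X ≤ j + hX X + 1 →
        j ≤ pin (RS z0 W b) X2 + 3 * uX X →
        τ b * hX X ≤ ((T b p ∩ Set.Ioc j (j + hX X)).ncard : ℝ))
    (hs1 : ∑ i ∈ Icc 1 I, fL W H ε B T τ X (X + (i - 1) * uX X) b < 3 * t) :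
    (1 - ε) * (τ b * MT z0 W H (B b) X X2 b) - (2 * uX X + 9 * t) ≤
      (NT z0 W H (B b) (T b) X X2 b : ℝ) := by
  have hG : ∀ i ∈ Icc 1 I, G0 W X (X + (i - 1) * uX X) b := by
    intro i hi
    obtain ⟨a1, a2⟩ := blk_in hI1 hi
    exact g0_of hCB hh a1 (by omega)
  have hR : ∀ i ∈ Icc 1 I, RL W (B b) (T b) (τ b) X (X + (i - 1) * uX X) b := by
    intro i hi
    obtain ⟨a1, a2⟩ := blk_in hI1 hi
    intro p hp hp1 hp2 j hj1 hj2
    refine hreg p hp (by omega) (by omega) j ?_ ?_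
    · exact (pin_mono _ a1).trans hj1
    · have := pin_mono (RS z0 W b) (show X + (i - 1) * uX X ≤ X2 by omega)
      omega
  have e1 : ∑ i ∈ Icc 1 I, fL W H ε B T τ X (X + (i - 1) * uX X) b =
      (1 - ε / 4) * τ b * ∑ i ∈ Icc 1 I, (nn z0 W H (B b) (X + (i - 1) * uX X) (uX X) b : ℝ) -
      ∑ i ∈ Icc 1 I, (NT z0 W H (B b) (T b) (X + (i - 1) * uX X + uX X)
        (X + (i - 1) * uX X + 2 * uX X) b : ℝ) := by
    rw [Finset.mul_sum, ← Finset.sum_sub_distrib]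
    exact Finset.sum_congr rfl fun i hi => fL_pos ⟨hG i hi, hR i hi⟩
  rw [e1] at hs1
  have a1 : ∑ i ∈ Icc 1 I, (NT z0 W H (B b) (T b) (X + (i - 1) * uX X + uX X)
        (X + (i - 1) * uX X + 2 * uX X) b : ℝ) ≤ NT z0 W H (B b) (T b) X X2 b := by
    exact_mod_cast nt_lo z0 W H (B b) (T b) b X X2 (uX X) I hI1
  have a2 : (MT z0 W H (B b) X X2 b : ℝ) ≤ 2 * uX X +
      ∑ i ∈ Icc 1 I, (NT z0 W H (B b) (fun _ => Set.univ) (X + (i - 1) * uX X + uX X)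
        (X + (i - 1) * uX X + 2 * uX X) b : ℝ) := by
    rw [mt_eq]
    exact_mod_cast nt_up z0 W H (B b) (fun _ => Set.univ) b X X2 (uX X) I hI2
  have a3 : ∑ i ∈ Icc 1 I, (NT z0 W H (B b) (fun _ => Set.univ) (X + (i - 1) * uX X + uX X)
        (X + (i - 1) * uX X + 2 * uX X) b : ℝ) ≤
      ∑ i ∈ Icc 1 I, (nn z0 W H (B b) (X + (i - 1) * uX X) (uX X) b : ℝ) := by
    refine Finset.sum_le_sum fun i _ => ?_
    exact_mod_cast nt_le_nn z0_mono H (B b) (fun _ => Set.univ) _ (uX X) b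
  set N : ℝ := ∑ i ∈ Icc 1 I, (nn z0 W H (B b) (X + (i - 1) * uX X) (uX X) b : ℝ) with hN
  set M : ℝ := (MT z0 W H (B b) X X2 b : ℝ) with hM
  have hN0 : 0 ≤ N := Finset.sum_nonneg fun i _ => Nat.cast_nonneg _
  have hM0 : 0 ≤ M := Nat.cast_nonneg _
  have hu0 : (0 : ℝ) ≤ uX X := Nat.cast_nonneg _
  have b1 : M ≤ 2 * uX X + N := by linarith
  have b2 : (1 - ε) * (τ b * M) ≤ 2 * uX X + (1 - ε / 4) * τ b * N := by
    have c0 : 0 ≤ (1 - ε) * τ b := mul_nonneg (by linarith) h0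
    have c1 : (1 - ε) * τ b ≤ 1 := by nlinarith
    calc (1 - ε) * (τ b * M) = (1 - ε) * τ b * M := by ring
      _ ≤ (1 - ε) * τ b * (2 * uX X + N) := mul_le_mul_of_nonneg_left b1 c0
      _ = (1 - ε) * τ b * (2 * uX X) + (1 - ε) * τ b * N := by ring
      _ ≤ 1 * (2 * uX X) + (1 - ε / 4) * τ b * N := by
        have c2 := mul_le_mul_of_nonneg_right c1 (by linarith : (0 : ℝ) ≤ 2 * uX X)
        have c3 : (1 - ε) * τ b * N ≤ (1 - ε / 4) * τ b * N := by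
          apply mul_le_mul_of_nonneg_right _ hN0
          apply mul_le_mul_of_nonneg_right _ h0
          linarith
        linarith
      _ = _ := by ring
  linarith

/-! ## Numbers -/

/-- what is needed of `X` -/
structure NX (H : Finset ℕ) (X : ℕ) : Prop where
  X1 : 1 ≤ X
  u1 : 1 ≤ uX X
  ule : uX X ≤ X
  h1 : 1 ≤ hX X
  H1 : ∀ i ∈ H, i ≤ uX X
  t1 : (X : ℝ) ^ (0.98 : ℝ) ≤ 4 * X
  e1 : (X : ℝ) ^ (0.4 : ℝ) ≤ ((X : ℝ) ^ (0.98 : ℝ)) ^ 2 / (24 * X * uX X)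
  s1 : 2 * (uX X : ℝ) + 9 * (X : ℝ) ^ (0.98 : ℝ) ≤ (X : ℝ) ^ (0.99 : ℝ)

lemma nx (H : Finset ℕ) : ∀ᶠ X : ℕ in atTop, NX H X := by
  have hr : ∀ r : ℝ, 0 < r → Tendsto (fun X : ℕ => (X : ℝ) ^ r) atTop atTop := fun r hr =>
    (tendsto_rpow_atTop hr).comp tendsto_natCast_atTop_atTop
  have hu : Tendsto uX atTop atTop := by
    have : Tendsto (fun X : ℕ => ⌊(X : ℝ) ^ (0.511 : ℝ)⌋₊) atTop atTop :=
      tendsto_nat_floor_atTop.comp (hr 0.511 (by norm_num))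
    exact this
  have hh : Tendsto hX atTop atTop := by
    have : Tendsto (fun X : ℕ => ⌊(X : ℝ) ^ (0.005 : ℝ)⌋₊) atTop atTop :=
      tendsto_nat_floor_atTop.comp (hr 0.005 (by norm_num))
    exact this
  filter_upwards [hu.eventually_ge_atTop (1 + H.sup id), hh.eventually_ge_atTop 1,
    (hr 0.01 (by norm_num)).eventually_ge_atTop 24, eventually_ge_atTop 1] with X h1 h2 h3 h4
  have hX1 : (1 : ℝ) ≤ X := by exact_mod_cast h4
  have hX0 : (0 : ℝ) < X := by linarith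
  have hu1 : (uX X : ℝ) ≤ (X : ℝ) ^ (0.511 : ℝ) := Nat.floor_le (by positivity)
  have hle : ∀ r s : ℝ, r ≤ s → (X : ℝ) ^ r ≤ (X : ℝ) ^ s := fun r s hrs =>
    Real.rpow_le_rpow_of_exponent_le hX1 hrs
  have hx1 : (X : ℝ) ^ (1 : ℝ) = X := Real.rpow_one _
  have hu2 : 1 ≤ uX X := by omega
  have hu3 : (1 : ℝ) ≤ uX X := by exact_mod_cast hu2
  refine ⟨h4, hu2, ?_, h2, ?_, ?_, ?_, ?_⟩
  · have : (uX X : ℝ) ≤ X := hu1.trans ((hle 0.511 1 (by norm_num)).trans_eq hx1)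
    exact_mod_cast this
  · intro i hi
    have := Finset.le_sup (f := id) hi
    simp only [id] at this
    omega
  · have := (hle 0.98 1 (by norm_num)).trans_eq hx1
    linarith
  · rw [le_div_iff₀ (by positivity)]
    have e1 : ((X : ℝ) ^ (0.98 : ℝ)) ^ 2 = (X : ℝ) ^ (1.96 : ℝ) := by
      rw [sq, ← Real.rpow_add hX0]
      norm_num
    rw [e1]
    have p4 : 0 < (X : ℝ) ^ (0.4 : ℝ) := Real.rpow_pos_of_pos hX0 _
    have p01 : 0 < (X : ℝ) ^ (0.01 : ℝ) := Real.rpow_pos_of_pos hX0 _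
    have b1 : 24 * (X : ℝ) * uX X ≤ (X : ℝ) ^ (0.01 : ℝ) * (X : ℝ) ^ (1 : ℝ) *
        (X : ℝ) ^ (0.511 : ℝ) := by
      rw [hx1]
      exact mul_le_mul (mul_le_mul_of_nonneg_right h3 hX0.le) hu1 (by positivity) (by positivity)
    calc (X : ℝ) ^ (0.4 : ℝ) * (24 * X * uX X) ≤ (X : ℝ) ^ (0.4 : ℝ) *
          ((X : ℝ) ^ (0.01 : ℝ) * (X : ℝ) ^ (1 : ℝ) * (X : ℝ) ^ (0.511 : ℝ)) :=
          mul_le_mul_of_nonneg_left b1 p4.le
      _ = (X : ℝ) ^ (1.921 : ℝ) := by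
        rw [← Real.rpow_add hX0, ← Real.rpow_add hX0, ← Real.rpow_add hX0]
        norm_num
      _ ≤ _ := hle _ _ (by norm_num)
  · have e1 : (X : ℝ) ^ (0.99 : ℝ) = (X : ℝ) ^ (0.01 : ℝ) * (X : ℝ) ^ (0.98 : ℝ) := by
      rw [← Real.rpow_add hX0]
      norm_num
    have b1 := hle 0.511 0.98 (by norm_num)
    have p98 : 0 < (X : ℝ) ^ (0.98 : ℝ) := Real.rpow_pos_of_pos hX0 _
    rw [e1]
    nlinarith

/-! ## Azuma for the blocks -/

lemma blk_eq {X u i : ℕ} (hi : 1 ≤ i) : X + (i + 2) * u = X + (i - 1) * u + 3 * u := by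
  obtain ⟨k, rfl⟩ : ∃ k, i = k + 1 := ⟨i - 1, by omega⟩
  rw [Nat.add_sub_cancel]
  ring

lemma tau_nonneg {X : ℕ} {τ : (ℕ → ℕ) → ℝ}
    (hτ : ∀ b, (X : ℝ) ^ (-(0.001 : ℝ)) ≤ τ b ∧ τ b ≤ 1) (b : ℕ → ℕ) : 0 ≤ τ b :=
  (Real.rpow_nonneg (Nat.cast_nonneg _) _).trans (hτ b).1

lemma azU (hAZ3 : S_AZ3) {Ω : Type} [MeasurableSpace Ω] {P : Measure Ω} {a : ℕ → Ω → ℕ}
    (hM : Model P a) {W : ℕ → ℕ} {H : Finset ℕ} {ε : ℝ} (hε : 0 < ε) (hε1 : ε ≤ 1)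
    {B : (ℕ → ℕ) → Set ℕ} {T : (ℕ → ℕ) → ℕ → Set ℕ} {τ : (ℕ → ℕ) → ℝ} {X I : ℕ}
    (hN : NX H X) (hGB : GBX W H ε X) (hF : Fam X B T τ)
    (hτ : ∀ b, (X : ℝ) ^ (-(0.001 : ℝ)) ≤ τ b ∧ τ b ≤ 1) (hI : I * uX X ≤ X) :
    P.real {ω | 3 * (X : ℝ) ^ (0.98 : ℝ) ≤ ∑ i ∈ Icc 1 I,
      fU W H ε B T τ X (X + (i - 1) * uX X) (fun q => a q ω)} ≤
      3 * Real.exp (-(X : ℝ) ^ (0.4 : ℝ)) := by
  have hin : ∀ i, 1 ≤ i → i ≤ I → (i - 1) * uX X ≤ X := by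
    intro i h1 h2
    exact (Nat.mul_le_mul_right (uX X) (by omega : i - 1 ≤ I)).trans hI
  have h1 := az3 hAZ3 hM z0 z0_mono X (uX X) I ((X : ℝ) ^ (0.98 : ℝ))
    (fun i b => fU W H ε B T τ X (X + (i - 1) * uX X) b) hN.u1 hN.ule hI
    (Real.rpow_nonneg (Nat.cast_nonneg _) _) hN.t1
    (fun i h1 h2 b b' hb => by
      rw [blk_eq h1] at hb
      exact fU_ag hF (by omega) hN.H1 hb)
    (fun i h1 h2 b => fU_bd hε hε1 (tau_nonneg hτ b) (hτ b).2)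
    (fun i h1 h2 b => by
      rw [blk_eq h1]
      have := hin i h1 h2
      exact fU_Ev hF hGB (by omega) (by omega) b (hτ b).1)
  refine h1.trans ?_
  have h2 := hN.e1
  have h3 : Real.exp (-(((X : ℝ) ^ (0.98 : ℝ)) ^ 2 / (24 * X * uX X))) ≤
      Real.exp (-(X : ℝ) ^ (0.4 : ℝ)) := Real.exp_le_exp.mpr (by linarith)
  linarith

lemma azL (hAZ3 : S_AZ3) {Ω : Type} [MeasurableSpace Ω] {P : Measure Ω} {a : ℕ → Ω → ℕ}
    (hM : Model P a) {W : ℕ → ℕ} {H : Finset ℕ} {ε : ℝ} (hε : 0 < ε) (hε1 : ε ≤ 1)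
    {B : (ℕ → ℕ) → Set ℕ} {T : (ℕ → ℕ) → ℕ → Set ℕ} {τ : (ℕ → ℕ) → ℝ} {X I : ℕ}
    (hN : NX H X) (hGB : GBX W H ε X) (hF : Fam X B T τ)
    (hτ : ∀ b, (X : ℝ) ^ (-(0.001 : ℝ)) ≤ τ b ∧ τ b ≤ 1) (hI : I * uX X ≤ X) :
    P.real {ω | 3 * (X : ℝ) ^ (0.98 : ℝ) ≤ ∑ i ∈ Icc 1 I,
      fL W H ε B T τ X (X + (i - 1) * uX X) (fun q => a q ω)} ≤
      3 * Real.exp (-(X : ℝ) ^ (0.4 : ℝ)) := by
  have hin : ∀ i, 1 ≤ i → i ≤ I → (i - 1) * uX X ≤ X := by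
    intro i h1 h2
    exact (Nat.mul_le_mul_right (uX X) (by omega : i - 1 ≤ I)).trans hI
  have h1 := az3 hAZ3 hM z0 z0_mono X (uX X) I ((X : ℝ) ^ (0.98 : ℝ))
    (fun i b => fL W H ε B T τ X (X + (i - 1) * uX X) b) hN.u1 hN.ule hI
    (Real.rpow_nonneg (Nat.cast_nonneg _) _) hN.t1
    (fun i h1 h2 b b' hb => by
      rw [blk_eq h1] at hb
      exact fL_ag hF (by omega) hN.H1 hb)
    (fun i h1 h2 b => fL_bd hε hε1 (tau_nonneg hτ b) (hτ b).2)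
    (fun i h1 h2 b => by
      rw [blk_eq h1]
      have := hin i h1 h2
      exact fL_Ev hF hGB (by omega) (by omega) b (hτ b).1)
  refine h1.trans ?_
  have h2 := hN.e1
  have h3 : Real.exp (-(((X : ℝ) ^ (0.98 : ℝ)) ^ 2 / (24 * X * uX X))) ≤
      Real.exp (-(X : ℝ) ^ (0.4 : ℝ)) := Real.exp_le_exp.mpr (by linarith)
  linarith

/-- the number of the blocks -/
lemma exI {X X2 u : ℕ} (hu : 1 ≤ u) (h : X ≤ X2) (h2 : X2 ≤ 2 * X) :
    ∃ I, (X + (I + 1) * u ≤ X2 ∨ I = 0) ∧ X2 ≤ X + (I + 2) * u ∧ I * u ≤ X := by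
  have a1 := Nat.div_mul_le_self (X2 - X) u
  have a2 := Nat.lt_div_mul_add (a := X2 - X) hu
  by_cases hk : (X2 - X) / u = 0
  · refine ⟨0, Or.inr rfl, ?_, by omega⟩
    rw [hk] at a2
    omega
  · obtain ⟨k, hk1⟩ : ∃ k, (X2 - X) / u = k + 1 := Nat.exists_eq_succ_of_ne_zero hk
    rw [hk1] at a1 a2
    refine ⟨k, Or.inl (by omega), ?_, ?_⟩
    · have : (k + 2) * u = (k + 1) * u + u := by ring
      omega
    · have : (k + 1) * u = k * u + u := by ring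
      omega

end MAINN

open MAINN

theorem main (hAZ3 : S_AZ3) (hGB : S_GB) : S_MAIN := by
  intro W H ε hW hWm hε hε1
  filter_upwards [hGB W H ε hW hWm hε, nx H] with X hGBX hN
  intro Ω _ P a hM X2 B T τ hX2 hX22 hF hτ
  have hprob := Pool.Agent.T2H32.BF.prob hM
  have hGBX' : GBX W H ε X := hGBX
  have hF' : Fam X B T τ := hF
  obtain ⟨I, hI1, hI2, hI3⟩ := exI hN.u1 hX2 hX22
  have ht0 : (0 : ℝ) ≤ (X : ℝ) ^ (0.98 : ℝ) := Real.rpow_nonneg (Nat.cast_nonneg _) _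
  have hX1 : (1 : ℝ) ≤ X := by exact_mod_cast hN.X1
  have hex : 0 ≤ Real.exp (-(X : ℝ) ^ (0.4 : ℝ)) := (Real.exp_pos _).le
  have hs := hN.s1
  constructor
  · have h1 := azU hAZ3 hM hε hε1 hN hGBX' hF' hτ hI3
    have hF2 : Fam X B (fun _ _ => Set.univ) (fun _ => 1) :=
      fun b b' hb => ⟨(hF b b' hb).1, rfl, rfl⟩
    have hτ2 : ∀ b : ℕ → ℕ, (X : ℝ) ^ (-(0.001 : ℝ)) ≤ (fun _ => (1 : ℝ)) b ∧
        (fun _ => (1 : ℝ)) b ≤ 1 :=
      fun b => ⟨Real.rpow_le_one_of_one_le_of_nonpos hX1 (by norm_num), le_refl _⟩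
    have h2 := azL hAZ3 hM hε hε1 hN hGBX' hF2 hτ2 hI3
    refine (measureReal_mono (μ := P) ?_ (measure_ne_top _ _)).trans
      ((measureReal_union_le {ω | 3 * (X : ℝ) ^ (0.98 : ℝ) ≤ ∑ i ∈ Icc 1 I,
        fU W H ε B T τ X (X + (i - 1) * uX X) (fun q => a q ω)}
        {ω | 3 * (X : ℝ) ^ (0.98 : ℝ) ≤ ∑ i ∈ Icc 1 I,
        fL W H ε B (fun _ _ => Set.univ) (fun _ => 1) X (X + (i - 1) * uX X)
          (fun q => a q ω)}).trans (by linarith))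
    rintro ω ⟨hCB, hreg, hlt⟩
    by_contra hcon
    rw [Set.mem_union, not_or] at hcon
    have c1 : ∑ i ∈ Icc 1 I, fU W H ε B T τ X (X + (i - 1) * uX X) (fun q => a q ω) <
        3 * (X : ℝ) ^ (0.98 : ℝ) := lt_of_not_ge fun h => hcon.1 h
    have c2 : ∑ i ∈ Icc 1 I, fL W H ε B (fun _ _ => Set.univ) (fun _ => 1) X
        (X + (i - 1) * uX X) (fun q => a q ω) < 3 * (X : ℝ) ^ (0.98 : ℝ) :=
      lt_of_not_ge fun h => hcon.2 h
    have c3 := det_up hε hε1 hN.h1 hX22 hI1 hI2 ht0 (tau_nonneg hτ _) (hτ _).2 hCB hreg c1 c2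
    linarith
  · have h1 := azL hAZ3 hM hε hε1 hN hGBX' hF' hτ hI3
    refine (measureReal_mono (μ := P) ?_ (measure_ne_top _ _)).trans (h1.trans (by linarith))
    rintro ω ⟨hCB, hreg, hlt⟩
    by_contra hcon
    have c1 : ∑ i ∈ Icc 1 I, fL W H ε B T τ X (X + (i - 1) * uX X) (fun q => a q ω) <
        3 * (X : ℝ) ^ (0.98 : ℝ) := lt_of_not_ge fun h => hcon h
    have c3 := det_lo hε hε1 hN.h1 hX22 hI1 hI2 ht0 (tau_nonneg hτ _) (hτ _).2 hCB hreg c1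
    linarith

end Pool.Agent.H531.IX
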