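import Pool.Agent.H531.IX.Stm

set_option autoImplicit false

/-! # `S_NUM`: the sieving limit of Banks, Ford and Tao -/

open Finset MeasureTheory ProbabilityTheory Filter Topology

namespace Pool.Agent.H531.IX

open Pool.Agent.T2H32.BF (Model z0 V V_pos V_anti V_ratio V_step mertens z0_mem z0_lt z0_mono
  z0_top z0_lim)

namespace NUMN

theorem exp_gamma : (0.5125 : ℝ) < Real.exp (-Real.eulerMascheroniConstant) := by
  have h1 := Real.eulerMascheroniConstant_lt_two_thirds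
  have h2 : Real.exp (-(2 / 3 : ℝ)) < Real.exp (-Real.eulerMascheroniConstant) :=
    Real.exp_lt_exp.2 (by linarith)
  refine lt_trans ?_ h2
  have h3 : Real.exp (-(2 / 3 : ℝ)) ^ 3 * Real.exp 1 ^ 2 = 1 := by
    rw [← Real.exp_nat_mul, ← Real.exp_nat_mul, ← Real.exp_add]
    have h0 : ((3 : ℕ) : ℝ) * -(2 / 3 : ℝ) + ((2 : ℕ) : ℝ) * 1 = 0 := by
      push_cast
      ring
    rw [h0, Real.exp_zero]
  by_contra hcon
  rw [not_lt] at hcon
  have h5 := Real.exp_one_lt_d9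
  have h6 := Real.exp_pos 1
  have h4 : Real.exp (-(2 / 3 : ℝ)) ^ 3 ≤ 0.5125 ^ 3 := by
    have := Real.exp_pos (-(2 / 3 : ℝ))
    gcongr
  have h7 : Real.exp 1 ^ 2 < 7.3891 := by nlinarith
  have h8 : Real.exp (-(2 / 3 : ℝ)) ^ 3 * Real.exp 1 ^ 2 ≤ 0.5125 ^ 3 * 7.3891 :=
    mul_le_mul h4 h7.le (by positivity) (by norm_num)
  rw [h3] at h8
  norm_num at h8

theorem z0_log : Tendsto (fun n : ℕ => Real.log (z0 n) / Real.log n) atTop
    (𝓝 (Real.exp (-Real.eulerMascheroniConstant))) := by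
  have h1 := mertens.comp z0_top
  have h3 := h1.div z0_lim one_ne_zero
  rw [div_one] at h3
  refine h3.congr fun n => ?_
  show V (z0 n) * Real.log (z0 n) / (V (z0 n) * Real.log n) = _
  rw [mul_div_mul_left _ _ (V_pos _).ne']

theorem z0_ge : ∀ᶠ n : ℕ in atTop, (n : ℝ) ^ (0.5125 : ℝ) ≤ z0 n := by
  filter_upwards [z0_log.eventually_const_lt exp_gamma, eventually_ge_atTop 3,
    z0_top.eventually_ge_atTop 1] with n h1 h2 h3
  have hl : 0 < Real.log n := Real.log_pos (by exact_mod_cast (by omega : 1 < n))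
  rw [lt_div_iff₀ hl] at h1
  have hn : (0 : ℝ) < n := by positivity
  have hz : (0 : ℝ) < z0 n := by exact_mod_cast (by omega : 0 < z0 n)
  calc (n : ℝ) ^ (0.5125 : ℝ) = Real.exp (Real.log n * 0.5125) := Real.rpow_def_of_pos hn _
    _ ≤ Real.exp (Real.log (z0 n)) := Real.exp_le_exp.2 (by linarith)
    _ = z0 n := Real.exp_log hz

theorem log_ge_one {x : ℕ} (hx : 3 ≤ x) : 1 ≤ Real.log x := by
  rw [Real.le_log_iff_exp_le (by positivity)]
  have h2 := Real.exp_one_lt_d9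
  have h3 : (3 : ℝ) ≤ x := by exact_mod_cast hx
  linarith

/-- `V (z0 x) log x` is at most `1 + 1 / z0 x` -/
theorem V_up {x : ℕ} (hz : 1 ≤ z0 x) : V (z0 x) * Real.log x ≤ 1 + 1 / (z0 x : ℝ) := by
  have h1 := z0_lt x
  have h2 := V_step (z0 x)
  have h3 := V_pos (z0 x + 1)
  have h4 := V_pos (z0 x)
  have hy : (1 : ℝ) ≤ z0 x := by exact_mod_cast hz
  have h5 : Real.log x * V (z0 x + 1) < 1 := by
    have h6 := mul_lt_mul_of_pos_right h1 h3
    rwa [inv_mul_cancel₀ h3.ne'] at h6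
  have h7 : 1 - 1 / ((z0 x : ℝ) + 1) = z0 x / ((z0 x : ℝ) + 1) := by
    field_simp
    ring
  rw [h7] at h2
  by_cases hl : 0 ≤ Real.log x
  · have h8 : V (z0 x) * (z0 x / ((z0 x : ℝ) + 1)) * Real.log x ≤ 1 := by
      calc V (z0 x) * (z0 x / ((z0 x : ℝ) + 1)) * Real.log x ≤ V (z0 x + 1) * Real.log x :=
            mul_le_mul_of_nonneg_right h2 hl
        _ ≤ 1 := by linarith
    have h9 : V (z0 x) * Real.log x =
        (V (z0 x) * (z0 x / ((z0 x : ℝ) + 1)) * Real.log x) * (1 + 1 / (z0 x : ℝ)) := by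
      field_simp
    rw [h9]
    have h10 : 0 ≤ 1 + 1 / (z0 x : ℝ) := by positivity
    nlinarith
  · rw [not_le] at hl
    have h10 : 0 ≤ 1 + 1 / (z0 x : ℝ) := by positivity
    nlinarith

/-- `V (z0 x) log x` is at least `1` -/
theorem V_low {x : ℕ} (hx : 3 ≤ x) : 1 ≤ V (z0 x) * Real.log x := by
  have h1 := z0_mem x hx
  have h3 := V_pos (z0 x)
  have h2 := mul_le_mul_of_nonneg_left h1 h3.le
  rwa [mul_inv_cancel₀ h3.ne'] at h2

theorem sum_le {x x' : ℕ} {δ : ℝ} (hx : 3 ≤ x) (hxx : x ≤ x') (hz : 1 ≤ z0 x)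
    (hδ : (x' : ℝ) ≤ x * (1 + δ)) :
    ∑ q ∈ fr z0 x x', 1 / (q : ℝ) ≤ (1 + δ) * (1 + 1 / (z0 x : ℝ)) - 1 := by
  have hr := V_ratio (z0 x) (z0 x') (z0_mono hxx)
  have h1 : ∏ q ∈ fr z0 x x', (1 - 1 / (q : ℝ)) ≤ Real.exp (-∑ q ∈ fr z0 x x', 1 / (q : ℝ)) := by
    rw [← Finset.sum_neg_distrib, Real.exp_sum]
    refine Finset.prod_le_prod (fun q hq => ?_) (fun q hq => ?_)
    · have hq1 : (1 : ℝ) ≤ q := by exact_mod_cast (mem_filter.1 hq).2.one_le
      have : 1 / (q : ℝ) ≤ 1 := by rw [div_le_one (by linarith)]; exact hq1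
      linarith
    · have := Real.add_one_le_exp (-(1 / (q : ℝ)))
      linarith
  have h2 : V (z0 x') / V (z0 x) ≤ Real.exp (-∑ q ∈ fr z0 x x', 1 / (q : ℝ)) := by
    rw [hr]; exact h1
  obtain ⟨S, hS⟩ : ∃ S, S = ∑ q ∈ fr z0 x x', 1 / (q : ℝ) := ⟨_, rfl⟩
  rw [← hS] at h2 ⊢
  have hV := V_pos (z0 x)
  have hV' := V_pos (z0 x')
  have hl := log_ge_one hx
  have hx0 : (3 : ℝ) ≤ x := by exact_mod_cast hx
  have hxx' : (x : ℝ) ≤ x' := by exact_mod_cast hxx
  have hδ0 : 0 ≤ δ := by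
    by_contra hc
    rw [not_le] at hc
    nlinarith
  rw [div_le_iff₀ hV] at h2
  have h3 : Real.exp S * V (z0 x') ≤ V (z0 x) := by
    calc Real.exp S * V (z0 x') ≤ Real.exp S * (Real.exp (-S) * V (z0 x)) :=
          mul_le_mul_of_nonneg_left h2 (Real.exp_pos _).le
      _ = V (z0 x) := by rw [← mul_assoc, ← Real.exp_add, add_neg_cancel, Real.exp_zero, one_mul]
  have h4 : Real.log x' ≤ Real.log x * (1 + δ) := by
    have h5 : Real.log x' ≤ Real.log (x * (1 + δ)) := Real.log_le_log (by linarith) hδ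
    rw [Real.log_mul (by positivity) (by positivity)] at h5
    have h6 : Real.log (1 + δ) ≤ δ := by
      have := Real.log_le_sub_one_of_pos (show 0 < 1 + δ by linarith)
      linarith
    nlinarith
  have h5 := V_low (x := x') (hx.trans hxx)
  have h6 := V_up hz
  have h7 : Real.exp S ≤ (1 + δ) * (1 + 1 / (z0 x : ℝ)) := by
    calc Real.exp S = Real.exp S * 1 := (mul_one _).symm
      _ ≤ Real.exp S * (V (z0 x') * Real.log x') :=
          mul_le_mul_of_nonneg_left h5 (Real.exp_pos _).le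
      _ = Real.exp S * V (z0 x') * Real.log x' := by ring
      _ ≤ V (z0 x) * (Real.log x * (1 + δ)) := by
          refine mul_le_mul h3 h4 ?_ hV.le
          exact (zero_le_one.trans (log_ge_one (hx.trans hxx)))
      _ = (1 + δ) * (V (z0 x) * Real.log x) := by ring
      _ ≤ (1 + δ) * (1 + 1 / (z0 x : ℝ)) := mul_le_mul_of_nonneg_left h6 (by linarith)
  have h8 := Real.add_one_le_exp S
  linarith

theorem sum_ge {x x' : ℕ} {η : ℝ} (hx : 3 ≤ x) (hxx : x ≤ x') (hz : 1 ≤ z0 x) (hη : 0 < η)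
    (hη1 : η ≤ 1) (hl : Real.log x * (1 + η) ≤ Real.log x') (hy : 1 / (z0 x : ℝ) ≤ η / 4) :
    3 * η / 16 ≤ ∑ q ∈ fr z0 x x', 1 / (q : ℝ) := by
  have hr := V_ratio (z0 x) (z0 x') (z0_mono hxx)
  have h1 : Real.exp (-(2 * ∑ q ∈ fr z0 x x', 1 / (q : ℝ))) ≤ ∏ q ∈ fr z0 x x', (1 - 1 / (q : ℝ)) := by
    rw [Finset.mul_sum, ← Finset.sum_neg_distrib, Real.exp_sum]
    refine Finset.prod_le_prod (fun q hq => (Real.exp_pos _).le) (fun q hq => ?_)
    have hq1 : (2 : ℝ) ≤ q := by exact_mod_cast (mem_filter.1 hq).2.two_le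
    obtain ⟨t, ht⟩ : ∃ t, t = 1 / (q : ℝ) := ⟨_, rfl⟩
    have ht0 : 0 ≤ t := by rw [ht]; positivity
    have ht1 : t ≤ 1 / 2 := by
      rw [ht]
      exact one_div_le_one_div_of_le (by norm_num) hq1
    rw [← ht, Real.exp_neg]
    have h2 := Real.add_one_le_exp (2 * t)
    have h3 : (Real.exp (2 * t))⁻¹ ≤ (2 * t + 1)⁻¹ := inv_anti₀ (by linarith) h2
    refine h3.trans ?_
    rw [inv_le_iff_one_le_mul₀ (by linarith)]
    nlinarith
  have h2 : Real.exp (-(2 * ∑ q ∈ fr z0 x x', 1 / (q : ℝ))) ≤ V (z0 x') / V (z0 x) := by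
    rw [hr]; exact h1
  obtain ⟨S, hS⟩ : ∃ S, S = ∑ q ∈ fr z0 x x', 1 / (q : ℝ) := ⟨_, rfl⟩
  rw [← hS] at h2 ⊢
  have hV := V_pos (z0 x)
  have hV' := V_pos (z0 x')
  have hl1 := log_ge_one hx
  have hl2 := log_ge_one (hx.trans hxx)
  have hzz : (z0 x : ℝ) ≤ z0 x' := by exact_mod_cast z0_mono hxx
  have hz1 : (1 : ℝ) ≤ z0 x := by exact_mod_cast hz
  rw [le_div_iff₀ hV] at h2
  have h3 : V (z0 x) ≤ Real.exp (2 * S) * V (z0 x') := by
    calc V (z0 x) = Real.exp (2 * S) * (Real.exp (-(2 * S)) * V (z0 x)) := by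
          rw [← mul_assoc, ← Real.exp_add, add_neg_cancel, Real.exp_zero, one_mul]
      _ ≤ _ := mul_le_mul_of_nonneg_left h2 (Real.exp_pos _).le
  have h4 := V_low hx
  have h5 := V_up (x := x') (hz.trans (z0_mono hxx))
  have h6 : 1 / (z0 x' : ℝ) ≤ η / 4 := (one_div_le_one_div_of_le (by linarith) hzz).trans hy
  have h7 : 1 + η ≤ Real.exp (2 * S) * (1 + η / 4) := by
    calc 1 + η ≤ (V (z0 x) * Real.log x) * (1 + η) := by nlinarith
      _ = V (z0 x) * (Real.log x * (1 + η)) := by ring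
      _ ≤ (Real.exp (2 * S) * V (z0 x')) * Real.log x' := by
          refine mul_le_mul h3 hl (by positivity) ?_
          have := Real.exp_pos (2 * S)
          positivity
      _ = Real.exp (2 * S) * (V (z0 x') * Real.log x') := by ring
      _ ≤ Real.exp (2 * S) * (1 + η / 4) := by
          refine mul_le_mul_of_nonneg_left ?_ (Real.exp_pos _).le
          linarith
  have h8 : (1 + η) / (1 + η / 4) ≤ Real.exp (2 * S) := by
    rw [div_le_iff₀ (by linarith)]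
    exact h7
  have h9 : Real.log ((1 + η) / (1 + η / 4)) ≤ 2 * S := by
    rw [Real.log_le_iff_le_exp (by positivity)]
    exact h8
  have h10 := Real.one_sub_inv_le_log_of_pos (show 0 < (1 + η) / (1 + η / 4) by positivity)
  have h11 : 3 * η / 8 ≤ 1 - ((1 + η) / (1 + η / 4))⁻¹ := by
    rw [inv_div, le_sub_iff_add_le, ← le_sub_iff_add_le', div_le_iff₀ (by linarith)]
    nlinarith
  linarith

theorem ev_pow (s C : ℝ) (hs : 0 < s) : ∀ᶠ X : ℕ in atTop, C ≤ (X : ℝ) ^ s :=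
  ((tendsto_rpow_atTop hs).comp tendsto_natCast_atTop_atTop).eventually_ge_atTop C

theorem ev_log : ∀ᶠ X : ℕ in atTop, 192 * Real.log (4 * X) ≤ (X : ℝ) ^ (0.0235 : ℝ) := by
  have h1 := (isLittleO_log_rpow_atTop (show (0 : ℝ) < 0.0235 by norm_num)).bound
    (show (0 : ℝ) < 1 / 400 by norm_num)
  have h2 := tendsto_natCast_atTop_atTop.eventually h1
  filter_upwards [h2, ev_pow 0.0235 (400 * Real.log 4) (by norm_num), eventually_ge_atTop 1]
    with X h3 h4 h5
  have hX : (1 : ℝ) ≤ X := by exact_mod_cast h5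
  rw [Real.norm_of_nonneg (Real.log_nonneg hX), Real.norm_of_nonneg (by positivity)] at h3
  rw [Real.log_mul (by norm_num) (by positivity)]
  have h6 : 0 ≤ (X : ℝ) ^ (0.0235 : ℝ) := by positivity
  linarith

theorem y_big {r x u y : ℝ} (hr : 3 ≤ r) (hxr : r ≤ x) (hxr4 : x ≤ 4 * r)
    (h3 : 192 * Real.log (4 * r) ≤ r ^ (0.0235 : ℝ)) (hyr : r ^ (0.5125 : ℝ) ≤ y)
    (hu2 : r ^ (0.511 : ℝ) / 2 ≤ u) : 24 * (x * Real.log x) ≤ y * u := by
  have hr0 : 0 < r := by linarith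
  have hx0 : 0 < x := by linarith
  have h5 : Real.log x ≤ Real.log (4 * r) := Real.log_le_log hx0 hxr4
  have hl : 0 ≤ Real.log x := Real.log_nonneg (by linarith)
  have h6 : r ^ (0.5125 : ℝ) * (r ^ (0.511 : ℝ) / 2) ≤ y * u :=
    mul_le_mul hyr hu2 (by positivity) (le_trans (by positivity) hyr)
  have h8 : r ^ (0.5125 : ℝ) * r ^ (0.511 : ℝ) = r ^ (1 : ℝ) * r ^ (0.0235 : ℝ) := by
    rw [← Real.rpow_add hr0, ← Real.rpow_add hr0]
    congr 1
    norm_num
  rw [Real.rpow_one] at h8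
  have h9 : x * Real.log x ≤ 4 * r * Real.log (4 * r) :=
    mul_le_mul hxr4 h5 hl (by positivity)
  have h10 : r * (192 * Real.log (4 * r)) ≤ r * r ^ (0.0235 : ℝ) :=
    mul_le_mul_of_nonneg_left h3 hr0.le
  have h11 : 24 * (4 * r * Real.log (4 * r)) ≤ r * (192 * Real.log (4 * r)) / 2 := by
    apply le_of_eq; ring
  linarith

end NUMN

theorem num : S_NUM := by
  obtain ⟨N0, hN0⟩ := eventually_atTop.1 NUMN.z0_ge
  filter_upwards [NUMN.ev_pow 0.0015 8 (by norm_num), NUMN.ev_pow 0.009 5 (by norm_num),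
    NUMN.ev_log, eventually_ge_atTop (N0 + 3)] with X h1 h2 h3 hX x hXx hxX
  obtain ⟨r, hr⟩ : ∃ r, r = (X : ℝ) := ⟨_, rfl⟩
  obtain ⟨u, hu⟩ : ∃ u, u = uX X := ⟨_, rfl⟩
  obtain ⟨y, hy⟩ : ∃ y, y = z0 x := ⟨_, rfl⟩
  have hr3 : (3 : ℝ) ≤ r := by rw [hr]; exact_mod_cast (by omega : 3 ≤ X)
  have hr0 : 0 < r := by linarith
  have hxr : r ≤ x := by rw [hr]; exact_mod_cast hXx
  have hxr4 : (x : ℝ) ≤ 4 * r := by rw [hr]; exact_mod_cast hxX
  have hx0 : (0 : ℝ) < x := by linarith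
  have hx3 : 3 ≤ x := by omega
  have hfl : (u : ℝ) ≤ r ^ (0.511 : ℝ) := by
    rw [hu, hr]; exact Nat.floor_le (by positivity)
  have hfl2 : r ^ (0.511 : ℝ) < u + 1 := by
    rw [hu, hr]; exact Nat.lt_floor_add_one _
  rw [← hr] at h1 h2 h3
  have h511 : (5 : ℝ) ≤ r ^ (0.511 : ℝ) :=
    h2.trans (Real.rpow_le_rpow_of_exponent_le (by linarith) (by norm_num))
  have hu4 : 4 < u := by
    have : (4 : ℝ) < u := by linarith
    exact_mod_cast this
  have hu2 : r ^ (0.511 : ℝ) / 2 ≤ u := by linarith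
  have hyr : r ^ (0.5125 : ℝ) ≤ y := by
    rw [hy]
    exact (Real.rpow_le_rpow hr0.le hxr (by norm_num)).trans (hN0 x (by omega))
  have hp1 : r ^ (0.5125 : ℝ) = r ^ (0.0015 : ℝ) * r ^ (0.511 : ℝ) := by
    rw [← Real.rpow_add hr0]; norm_num
  have h8u : 8 * (u : ℝ) ≤ y := by
    refine le_trans ?_ hyr
    rw [hp1]
    nlinarith
  have hy1 : 1 ≤ y := by
    have : (1 : ℝ) ≤ y := by
      have : (4 : ℝ) < u := by exact_mod_cast hu4
      linarith
    exact_mod_cast this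
  have hyR : (1 : ℝ) ≤ y := by exact_mod_cast hy1
  have hux : (u : ℝ) ≤ x := by
    have h5 : r ^ (0.511 : ℝ) ≤ r ^ (1 : ℝ) :=
      Real.rpow_le_rpow_of_exponent_le (by linarith) (by norm_num)
    rw [Real.rpow_one] at h5
    linarith
  rw [← hu, ← hy]
  refine ⟨by exact_mod_cast h8u, ?_, ?_⟩
  · obtain ⟨ρ, hρ⟩ : ∃ ρ, ρ = r ^ (-0.489 : ℝ) := ⟨_, rfl⟩
    have hρ0 : 0 < ρ := by rw [hρ]; positivity
    have hρ1 : r * ρ = r ^ (0.511 : ℝ) := by
      rw [hρ]
      nth_rewrite 1 [← Real.rpow_one r]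
      rw [← Real.rpow_add hr0]; norm_num
    have hρ2 : ρ * r ^ (0.489 : ℝ) = 1 := by
      rw [hρ, ← Real.rpow_add hr0]; norm_num
    have hρ3 : (5 : ℝ) ≤ r ^ (0.489 : ℝ) :=
      h2.trans (Real.rpow_le_rpow_of_exponent_le (by linarith) (by norm_num))
    have hρ4 : ρ ≤ 1 / 5 := by nlinarith
    have hρ5 : 1 / (y : ℝ) ≤ ρ := by
      rw [div_le_iff₀ (by linarith), ← hρ2]
      refine mul_le_mul_of_nonneg_left ?_ hρ0.le
      exact (Real.rpow_le_rpow_of_exponent_le (by linarith) (by norm_num)).trans hyr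
    have key := NUMN.sum_le (x := x) (x' := x + 3 * u) (δ := 3 * ρ) hx3 (by omega)
      (by rw [← hy]; exact hy1) (by
        push_cast
        have : r * ρ ≤ x * ρ := mul_le_mul_of_nonneg_right hxr hρ0.le
        nlinarith)
    refine key.trans ?_
    rw [← hy]
    have hρ6 : r ^ (-0.48 : ℝ) = r ^ (0.009 : ℝ) * ρ := by
      rw [hρ, ← Real.rpow_add hr0]; norm_num
    rw [← hr, hρ6]
    have hρ7 : 5 * ρ ≤ r ^ (0.009 : ℝ) * ρ := mul_le_mul_of_nonneg_right h2 hρ0.le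
    have hy0 : 0 ≤ 1 / (y : ℝ) := by positivity
    nlinarith
  · have hl1 := NUMN.log_ge_one hx3
    obtain ⟨η, hη⟩ : ∃ η, η = (u : ℝ) / (6 * x * Real.log x) := ⟨_, rfl⟩
    have hu0 : (4 : ℝ) < u := by exact_mod_cast hu4
    have hη0 : 0 < η := by rw [hη]; positivity
    have hη1 : η ≤ 1 := by
      rw [hη, div_le_one (by positivity)]
      nlinarith
    have hηl : η * Real.log x = u / (6 * x) := by
      rw [hη]; field_simp
    have key := NUMN.sum_ge (x := x) (x' := x + u / 2) (η := η) hx3 (by omega)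
      (by rw [← hy]; exact hy1) hη0 hη1 (by
        obtain ⟨t, ht⟩ : ∃ t, t = u / 2 := ⟨_, rfl⟩
        have ht1 : u ≤ 3 * t := by omega
        have ht2 : t ≤ u := by omega
        have ht1' : (u : ℝ) ≤ 3 * t := by exact_mod_cast ht1
        have ht2' : (t : ℝ) ≤ u := by exact_mod_cast ht2
        have ht0 : (0 : ℝ) < t := by linarith
        rw [← ht]
        push_cast
        have h5 := Real.one_sub_inv_le_log_of_pos (show (0 : ℝ) < ((x : ℝ) + t) / x by positivity)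
        rw [Real.log_div (by positivity) (by positivity), inv_div] at h5
        have h6 : (u : ℝ) / (6 * x) ≤ 1 - x / ((x : ℝ) + t) := by
          have h7 : 1 - x / ((x : ℝ) + t) = t / ((x : ℝ) + t) := by
            field_simp
            ring
          rw [h7, div_le_div_iff₀ (by positivity) (by positivity)]
          nlinarith
        have h8 : Real.log x * (1 + η) = Real.log x + η * Real.log x := by ring
        rw [h8, hηl]
        linarith) (by
        have h6 := NUMN.y_big hr3 hxr hxr4 h3 hyr hu2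
        have h7 : η / 4 = u / (24 * (x * Real.log x)) := by
          rw [hη]; field_simp; norm_num
        rw [← hy, h7, div_le_div_iff₀ (by linarith) (by positivity), one_mul, mul_comm (u : ℝ)]
        exact h6)
    refine le_trans ?_ key
    have h5 : (u : ℝ) / (40 * x * Real.log x) = 3 * η / 20 := by
      rw [hη]; field_simp; norm_num
    rw [h5]
    linarith

end Pool.Agent.H531.IX
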