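import Pool.Agent.H531.IX.Stm

/-!
# PBC (helper116)
-/

set_option autoImplicit false

namespace Pool.Agent.H531.IX

open Finset

namespace PBCN

lemma PB_insert {L : Finset ℕ} {a : ℕ} (ha : a ∉ L) (w : ℕ → ℝ) (F : ℕ → ℝ) :
    PB (insert a L) w F = (1 - w a) * PB L w F + w a * PB L w (fun m => F (m + 1)) := by
  unfold PB
  rw [sum_powerset_insert ha, mul_sum, mul_sum]
  congr 1
  · refine sum_congr rfl fun U hU => ?_
    rw [mem_powerset] at hU
    have haU : a ∉ U := fun h => ha (hU h)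
    have h1 : insert a L \ U = insert a (L \ U) := insert_sdiff_of_notMem _ haU
    rw [h1, prod_insert (fun h => ha (mem_sdiff.1 h).1)]
    ring
  · refine sum_congr rfl fun U hU => ?_
    rw [mem_powerset] at hU
    have haU : a ∉ U := fun h => ha (hU h)
    have h1 : insert a L \ insert a U = L \ U := by
      ext x
      simp only [mem_sdiff, mem_insert, not_or]
      constructor
      · rintro ⟨h2, h3, h4⟩
        exact ⟨h2.resolve_left h3, h4⟩
      · rintro ⟨h2, h3⟩
        exact ⟨Or.inr h2, fun h => ha (h ▸ h2), h3⟩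
    rw [h1, prod_insert haU, card_insert_of_notMem haU]
    ring

lemma PB_add (L : Finset ℕ) (w F G : ℕ → ℝ) :
    PB L w (fun m => F m + G m) = PB L w F + PB L w G := by
  unfold PB
  rw [← sum_add_distrib]
  exact sum_congr rfl fun U _ => by ring

lemma PB_smul (L : Finset ℕ) (w F : ℕ → ℝ) (c : ℝ) :
    PB L w (fun m => c * F m) = c * PB L w F := by
  unfold PB
  rw [mul_sum]
  exact sum_congr rfl fun U _ => by ring

lemma PB_mono {L : Finset ℕ} {w F G : ℕ → ℝ} (hw : ∀ q ∈ L, 0 ≤ w q ∧ w q ≤ 1)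
    (h : ∀ m, F m ≤ G m) : PB L w F ≤ PB L w G := by
  unfold PB
  refine sum_le_sum fun U hU => ?_
  rw [mem_powerset] at hU
  refine mul_le_mul_of_nonneg_left (h _) (mul_nonneg ?_ ?_)
  · exact prod_nonneg fun q hq => (hw q (hU hq)).1
  · exact prod_nonneg fun q hq => by
      have := (hw q (mem_sdiff.1 hq).1).2
      linarith

lemma PB_one (L : Finset ℕ) (w : ℕ → ℝ) : PB L w (fun _ => 1) = 1 := by
  unfold PB
  simp only [mul_one]
  rw [← prod_add]
  exact prod_eq_one fun q _ => by ring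

lemma stein (L : Finset ℕ) (w : ℕ → ℝ) : ∀ F : ℕ → ℝ,
    ∑ q ∈ L, w q * PB (L.erase q) w (fun m => F (m + 1)) = PB L w (fun m => (m : ℝ) * F m) := by
  induction L using Finset.induction_on with
  | empty => intro F; simp [PB]
  | insert a M ha ih =>
    intro F
    rw [sum_insert ha, erase_insert ha, PB_insert ha]
    have h1 : ∀ q ∈ M, w q * PB ((insert a M).erase q) w (fun m => F (m + 1)) =
        (1 - w a) * (w q * PB (M.erase q) w (fun m => F (m + 1))) +
        w a * (w q * PB (M.erase q) w (fun m => F (m + 1 + 1))) := by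
      intro q hq
      have hqa : q ≠ a := fun h => ha (h ▸ hq)
      rw [erase_insert_of_ne hqa.symm, PB_insert (fun h => ha (mem_erase.1 h).2)]
      ring
    rw [sum_congr rfl h1, sum_add_distrib, ← mul_sum, ← mul_sum, ih F, ih (fun m => F (m + 1))]
    have h2 : PB M w (fun m => ((m + 1 : ℕ) : ℝ) * F (m + 1)) =
        PB M w (fun m => (m : ℝ) * F (m + 1)) + PB M w (fun m => F (m + 1)) := by
      rw [← PB_add]
      congr 1
      funext m
      push_cast
      ring
    rw [h2]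
    ring

lemma inv_bound {L : Finset ℕ} {w : ℕ → ℝ} (hw : ∀ q ∈ L, 0 ≤ w q ∧ w q ≤ 1) :
    (∑ q ∈ L, w q) * PB L w (fun m => 1 / ((m : ℝ) + 1)) ≤ 1 := by
  have h1 : ∀ q ∈ L, w q * PB L w (fun m => 1 / ((m : ℝ) + 1)) ≤
      w q * PB (L.erase q) w (fun m => ((m + 1 : ℕ) : ℝ)⁻¹) := by
    intro q hq
    have hwq := hw q hq
    have hw' : ∀ r ∈ L.erase q, 0 ≤ w r ∧ w r ≤ 1 := fun r hr => hw r (mem_erase.1 hr).2
    refine mul_le_mul_of_nonneg_left ?_ hwq.1
    have h2 := PB_insert (notMem_erase q L) w (fun m => 1 / ((m : ℝ) + 1))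
    rw [insert_erase hq] at h2
    rw [h2]
    have h3 : PB (L.erase q) w (fun m => 1 / (((m + 1 : ℕ) : ℝ) + 1)) ≤
        PB (L.erase q) w (fun m => 1 / ((m : ℝ) + 1)) := by
      refine PB_mono hw' fun m => ?_
      refine one_div_le_one_div_of_le (by positivity) ?_
      push_cast
      linarith
    have h4 : PB (L.erase q) w (fun m => ((m + 1 : ℕ) : ℝ)⁻¹) =
        PB (L.erase q) w (fun m => 1 / ((m : ℝ) + 1)) := by
      congr 1
      funext m
      push_cast
      rw [one_div]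
    rw [h4]
    have h5 := mul_le_mul_of_nonneg_left h3 hwq.1
    linarith
  rw [sum_mul]
  refine (sum_le_sum h1).trans ?_
  rw [stein L w (fun m => ((m : ℕ) : ℝ)⁻¹), ← PB_one L w]
  refine PB_mono hw fun m => ?_
  rcases m with _ | m
  · simp
  · rw [mul_inv_cancel₀ (by positivity)]

end PBCN

open PBCN in
theorem pbc : S_PBC := by
  intro L w hw hΛ
  set Λ := ∑ q ∈ L, w q with hΛd
  set s := √Λ with hs
  have hs0 : 0 < s := Real.sqrt_pos.2 hΛ
  have hss : s * s = Λ := Real.mul_self_sqrt hΛ.le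
  have h1 : ∀ m : ℕ, 1 / √((m : ℝ) + 1) ≤ s / 2 * (1 / ((m : ℝ) + 1)) + 1 / (2 * s) * 1 := by
    intro m
    have hm : (0:ℝ) < (m : ℝ) + 1 := by positivity
    set r := √((m : ℝ) + 1) with hr
    have hr0 : 0 < r := Real.sqrt_pos.2 hm
    have hrr : r * r = (m : ℝ) + 1 := Real.mul_self_sqrt hm.le
    rw [← hrr]
    have h2 : 0 ≤ (s - r) ^ 2 / (2 * s * (r * r)) := by positivity
    have h3 : s / 2 * (1 / (r * r)) + 1 / (2 * s) * 1 - 1 / r = (s - r) ^ 2 / (2 * s * (r * r)) := by
      field_simp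
      ring
    linarith
  have h2 := PB_mono hw h1
  rw [PB_add, PB_smul, PB_smul, PB_one] at h2
  have h3 := inv_bound hw
  rw [← hΛd] at h3
  set c0 := PB L w (fun m => 1 / ((m : ℝ) + 1)) with hc0
  refine h2.trans ?_
  have h4 : s * c0 ≤ 1 / s := by
    rw [le_div_iff₀ hs0]
    calc s * c0 * s = (s * s) * c0 := by ring
      _ = Λ * c0 := by rw [hss]
      _ ≤ 1 := h3
  have h5 : 1 / (2 * s) * 1 = (1 / s) / 2 := by field_simp
  rw [h5]
  linarith

end Pool.Agent.H531.IX
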