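import Pool.Agent.H531.IX.Stm

/-!
# Mean value of a function of the number of successes as a sum over subsets (by helper747)
-/

set_option autoImplicit false
set_option linter.all false

open Finset MeasureTheory ProbabilityTheory Filter Topology

namespace Pool.Agent.H531.IX

open Pool.Agent.T2H31.HV (Pt Ev Dep sum_Pt_insert)

namespace PBEN

/-- The recursion for `PB`. -/
theorem pb_insert {L : Finset ℕ} {q₀ : ℕ} (h : q₀ ∉ L) (w : ℕ → ℝ) (F : ℕ → ℝ) :
    PB (insert q₀ L) w F = PB L w (fun j => w q₀ * F (j + 1) + (1 - w q₀) * F j) := by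
  unfold PB
  rw [sum_powerset_insert h, ← sum_add_distrib]
  refine sum_congr rfl fun U hU => ?_
  rw [mem_powerset] at hU
  have hqU : q₀ ∉ U := fun h' => h (hU h')
  have e1 : insert q₀ L \ U = insert q₀ (L \ U) := by
    ext x
    simp only [Finset.mem_sdiff, Finset.mem_insert]
    constructor
    · rintro ⟨h1 | h1, h2⟩
      · exact Or.inl h1
      · exact Or.inr ⟨h1, h2⟩
    · rintro (h1 | ⟨h1, h2⟩)
      · exact ⟨Or.inl h1, by rw [h1]; exact hqU⟩
      · exact ⟨Or.inr h1, h2⟩
  have e2 : insert q₀ L \ insert q₀ U = L \ U := by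
    ext x
    simp only [Finset.mem_sdiff, Finset.mem_insert, not_or]
    constructor
    · rintro ⟨h1 | h1, h2, h3⟩
      · exact absurd h1 h2
      · exact ⟨h1, h3⟩
    · rintro ⟨h1, h2⟩
      exact ⟨Or.inr h1, fun h3 => h (h3 ▸ h1), h2⟩
  have h1 : q₀ ∉ L \ U := fun h' => h (Finset.mem_sdiff.1 h').1
  rw [e1, e2, prod_insert h1, prod_insert hqU, card_insert_of_notMem hqU]
  ring

/-- The recursion for the number of successes. -/
theorem card_upd {L : Finset ℕ} {q₀ : ℕ} (h : q₀ ∉ L) (Y : ℕ → ℕ → Prop) [∀ q r, Decidable (Y q r)]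
    (b : ℕ → ℕ) (r : ℕ) :
    ((insert q₀ L).filter fun q => Y q (Function.update b q₀ r q)).card =
      (L.filter fun q => Y q (b q)).card + if Y q₀ r then 1 else 0 := by
  have h1 : L.filter (fun q => Y q (Function.update b q₀ r q)) = L.filter fun q => Y q (b q) := by
    refine filter_congr fun q hq => ?_
    have h2 : q ≠ q₀ := fun h' => h (by rw [← h']; exact hq)
    rw [Function.update_of_ne h2]
  rw [filter_insert, h1, Function.update_self]
  by_cases h2 : Y q₀ r
  · rw [if_pos h2, if_pos h2, card_insert_of_notMem]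
    intro h3
    exact h (mem_filter.1 h3).1
  · rw [if_neg h2, if_neg h2, add_zero]

theorem sum_ind (Y : ℕ → Prop) [DecidablePred Y] (q₀ : ℕ) (F : ℕ → ℝ) (N : ℕ) :
    ∑ r ∈ range q₀, F (N + if Y r then 1 else 0) =
      ((range q₀).filter Y).card * F (N + 1) + (q₀ - ((range q₀).filter Y).card) * F N := by
  have h1 : ∀ r ∈ range q₀, F (N + if Y r then 1 else 0) =
      (if Y r then F (N + 1) - F N else 0) + F N := by
    intro r _
    by_cases h : Y r
    · rw [if_pos h, if_pos h]
      ring
    · rw [if_neg h, if_neg h, add_zero, zero_add]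
  rw [sum_congr rfl h1, sum_add_distrib, ← sum_filter, sum_const, sum_const, card_range,
    nsmul_eq_mul, nsmul_eq_mul]
  ring

end PBEN

open PBEN

theorem pbe : S_PBE := by
  intro L Y _ F hL
  induction L using Finset.induction_on generalizing F with
  | empty =>
    unfold Ev PB
    rw [prod_empty, inv_one, one_mul, powerset_empty, sum_singleton, prod_empty, empty_sdiff,
      prod_empty, card_empty, one_mul, one_mul]
    have h1 : Pt ∅ = {fun _ => 0} := by
      ext b
      rw [Pool.Agent.T2H31.HV.mem_Pt, mem_singleton]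
      constructor
      · rintro ⟨_, h2⟩
        funext i
        exact h2 i (Finset.notMem_empty _)
      · rintro rfl
        exact ⟨fun q hq => absurd hq (Finset.notMem_empty _), fun q _ => rfl⟩
    rw [h1, sum_singleton, filter_empty, card_empty]
  | insert q₀ L h ih =>
    have hq₀ : (0 : ℝ) < q₀ := by exact_mod_cast hL q₀ (mem_insert_self _ _)
    rw [pb_insert h, ← ih _ (fun q hq => hL q (mem_insert_of_mem hq))]
    unfold Ev
    rw [sum_Pt_insert L q₀ h, prod_insert h]
    have h1 : ∀ b ∈ Pt L, ∑ r ∈ range q₀,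
        F ((insert q₀ L).filter fun q => Y q (Function.update b q₀ r q)).card =
        q₀ * (((range q₀).filter (Y q₀)).card / q₀ * F ((L.filter fun q => Y q (b q)).card + 1) +
          (1 - ((range q₀).filter (Y q₀)).card / q₀) * F (L.filter fun q => Y q (b q)).card) := by
      intro b _
      have h2 := sum_ind (Y q₀) q₀ F (L.filter fun q => Y q (b q)).card
      have h3 : ∑ r ∈ range q₀, F ((insert q₀ L).filter fun q =>
          Y q (Function.update b q₀ r q)).card = ∑ r ∈ range q₀,
          F ((L.filter fun q => Y q (b q)).card + if Y q₀ r then 1 else 0) :=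
        sum_congr rfl fun r _ => by rw [card_upd h]
      rw [h3, h2]
      field_simp
    rw [sum_congr rfl h1, ← mul_sum, mul_inv]
    field_simp

end Pool.Agent.H531.IX
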