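import Pool.Agent.H531.IX.Stm

set_option autoImplicit false

/-!
# S_PBS: assembly of S_BIN, S_PBE, S_PBT, S_PBC
-/

open Finset MeasureTheory ProbabilityTheory Filter Topology

namespace Pool.Agent.H531.IX

open Pool.Agent.T2H31.HV (Pt Ev Dep)

namespace PBSN

theorem PB_sub (L : Finset ℕ) (w F G : ℕ → ℝ) :
    PB L w F - PB L w G = PB L w (fun j => F j - G j) := by
  unfold PB
  rw [← Finset.sum_sub_distrib]
  exact Finset.sum_congr rfl fun U _ => by ring

theorem PB_mul (L : Finset ℕ) (w F : ℕ → ℝ) (k : ℝ) :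
    PB L w (fun j => k * F j) = k * PB L w F := by
  unfold PB
  rw [Finset.mul_sum]
  exact Finset.sum_congr rfl fun U _ => by ring

theorem wt_nonneg (L : Finset ℕ) (w : ℕ → ℝ) (hw : ∀ q ∈ L, 0 ≤ w q ∧ w q ≤ 1) (U : Finset ℕ)
    (hU : U ∈ L.powerset) : 0 ≤ (∏ q ∈ U, w q) * (∏ q ∈ L \ U, (1 - w q)) := by
  have hU' := Finset.mem_powerset.mp hU
  refine mul_nonneg (Finset.prod_nonneg fun q hq => (hw q (hU' hq)).1)
    (Finset.prod_nonneg fun q hq => ?_)
  have := (hw q (Finset.mem_sdiff.mp hq).1).2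
  linarith

theorem abs_PB_le (L : Finset ℕ) (w : ℕ → ℝ) (hw : ∀ q ∈ L, 0 ≤ w q ∧ w q ≤ 1) (F G : ℕ → ℝ)
    (h : ∀ j, |F j| ≤ G j) : |PB L w F| ≤ PB L w G := by
  unfold PB
  refine (Finset.abs_sum_le_sum_abs _ _).trans (Finset.sum_le_sum fun U hU => ?_)
  rw [abs_mul, abs_of_nonneg (wt_nonneg L w hw U hU)]
  exact mul_le_mul_of_nonneg_left (h _) (wt_nonneg L w hw U hU)

end PBSN

open PBSN in
theorem pbs (hBIN : S_BIN) (hPBE : S_PBE) (hPBT : S_PBT) (hPBC : S_PBC) : S_PBS := by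
  intro L Y _ F c hF hL hc hcs
  set w : ℕ → ℝ := fun q => (((range q).filter (Y q)).card : ℝ) / q with hwdef
  have hL0 : ∀ q ∈ L, 0 < q := fun q hq => (hL q hq).1
  have e1 := hPBE L Y F hL0
  have e2 := hPBE L Y (fun j => F (j + 1)) hL0
  have hw2 : ∀ q ∈ L, 0 ≤ 2 * w q ∧ 2 * w q ≤ 1 := by
    intro q hq
    obtain ⟨hq0, hq1⟩ := hL q hq
    have hq0' : (0 : ℝ) < q := by exact_mod_cast hq0
    have hq1' : 2 * (((range q).filter (Y q)).card : ℝ) ≤ q := by exact_mod_cast hq1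
    constructor
    · simp only [hwdef]
      positivity
    · simp only [hwdef]
      rw [← mul_div_assoc, div_le_one hq0']
      exact hq1'
  have hsum : ∑ q ∈ L, 2 * w q = 2 * ∑ q ∈ L, w q := by rw [Finset.mul_sum]
  have hcs' : c ≤ ∑ q ∈ L, w q := hcs
  have hpos : 0 < ∑ q ∈ L, 2 * w q := by rw [hsum]; linarith
  have hle : c ≤ ∑ q ∈ L, 2 * w q := by rw [hsum]; linarith
  calc |Ev L (fun b => F (L.filter fun q => Y q (b q)).card) -
        Ev L (fun b => F ((L.filter fun q => Y q (b q)).card + 1))|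
      = |PB L w (fun j => F j - F (j + 1))| := by rw [e1, e2, PB_sub]
    _ = |PB L (fun q => 2 * w q) (fun m => (∑ j ∈ range (m + 1),
          (m.choose j : ℝ) * (F j - F (j + 1))) / 2 ^ m)| := by rw [hPBT L w]
    _ ≤ PB L (fun q => 2 * w q) (fun m => 2 * (1 / √((m : ℝ) + 1))) := by
        refine abs_PB_le L _ hw2 _ _ fun m => ?_
        have h2 : (0 : ℝ) < 2 ^ m := by positivity
        rw [abs_div, abs_of_pos h2, div_le_iff₀ h2]
        refine (hBIN F hF m).trans (le_of_eq ?_)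
        ring
    _ = 2 * PB L (fun q => 2 * w q) (fun m => 1 / √((m : ℝ) + 1)) := PB_mul _ _ _ _
    _ ≤ 2 * (1 / √(∑ q ∈ L, 2 * w q)) :=
        mul_le_mul_of_nonneg_left (hPBC L (fun q => 2 * w q) hw2 hpos) (by norm_num)
    _ ≤ 2 * (1 / √c) := by
        refine mul_le_mul_of_nonneg_left ?_ (by norm_num)
        exact one_div_le_one_div_of_le (Real.sqrt_pos.mpr hc) (Real.sqrt_le_sqrt hle)
    _ = 2 / √c := by ring

end Pool.Agent.H531.IX
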