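import Pool.Agent.H531.IX.Stm

set_option autoImplicit false

open Finset MeasureTheory ProbabilityTheory Filter Topology

namespace Pool.Agent.H531.IX

namespace PBTN

theorem pb_insert (a : ℕ) (L : Finset ℕ) (ha : a ∉ L) (w : ℕ → ℝ) (F : ℕ → ℝ) :
    PB (insert a L) w F = (1 - w a) * PB L w F + w a * PB L w (fun m => F (m + 1)) := by
  unfold PB
  rw [Finset.sum_powerset_insert ha, Finset.mul_sum, Finset.mul_sum]
  refine congrArg₂ (· + ·) (Finset.sum_congr rfl fun U hU => ?_)
    (Finset.sum_congr rfl fun U hU => ?_)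
  · have hU' := Finset.mem_powerset.1 hU
    have haU : a ∉ U := fun h => ha (hU' h)
    have h1 : insert a L \ U = insert a (L \ U) := Finset.insert_sdiff_of_notMem L haU
    have h2 : a ∉ L \ U := fun h => ha (Finset.mem_sdiff.1 h).1
    rw [h1, Finset.prod_insert h2]
    ring
  · have hU' := Finset.mem_powerset.1 hU
    have haU : a ∉ U := fun h => ha (hU' h)
    have h1 : insert a L \ insert a U = L \ U := by
      ext q
      simp only [Finset.mem_sdiff, Finset.mem_insert, not_or]
      constructor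
      · rintro ⟨h2, h3, h4⟩
        exact ⟨h2.resolve_left h3, h4⟩
      · rintro ⟨h2, h3⟩
        exact ⟨Or.inr h2, fun h4 => ha (h4 ▸ h2), h3⟩
    rw [h1, Finset.prod_insert haU, Finset.card_insert_of_notMem haU]
    ring

theorem pb_empty (w : ℕ → ℝ) (F : ℕ → ℝ) : PB ∅ w F = F 0 := by
  unfold PB
  simp

theorem pb_half (L : Finset ℕ) (w : ℕ → ℝ) (G H : ℕ → ℝ) :
    PB L w (fun m => (G m + H m) / 2) = (PB L w G + PB L w H) / 2 := by
  unfold PB
  rw [← Finset.sum_add_distrib, Finset.sum_div]
  refine Finset.sum_congr rfl fun U _ => ?_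
  ring

theorem pascal (m : ℕ) (F : ℕ → ℝ) :
    ∑ j ∈ range (m + 1 + 1), ((m + 1).choose j : ℝ) * F j =
      ∑ j ∈ range (m + 1), (m.choose j : ℝ) * F j +
        ∑ j ∈ range (m + 1), (m.choose j : ℝ) * F (j + 1) := by
  rw [Finset.sum_range_succ']
  have h1 : ∑ j ∈ range (m + 1), ((m + 1).choose (j + 1) : ℝ) * F (j + 1) =
      ∑ j ∈ range (m + 1), (m.choose j : ℝ) * F (j + 1) +
        ∑ j ∈ range (m + 1), (m.choose (j + 1) : ℝ) * F (j + 1) := by
    rw [← Finset.sum_add_distrib]
    refine Finset.sum_congr rfl fun j _ => ?_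
    rw [Nat.choose_succ_succ]
    push_cast
    ring
  have h2 : ∑ j ∈ range (m + 1), (m.choose j : ℝ) * F j =
      ∑ j ∈ range (m + 1), (m.choose (j + 1) : ℝ) * F (j + 1) + F 0 := by
    have h3 := Finset.sum_range_succ' (fun j => (m.choose j : ℝ) * F j) (m + 1)
    rw [Finset.sum_range_succ, Nat.choose_succ_self] at h3
    simp only [Nat.cast_zero, zero_mul, add_zero, Nat.choose_zero_right, Nat.cast_one,
      one_mul] at h3
    exact h3
  rw [h1, h2, Nat.choose_zero_right, Nat.cast_one]
  ring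

end PBTN

open PBTN in
theorem pbt : S_PBT := by
  intro L w
  induction L using Finset.induction_on with
  | empty =>
    intro F
    rw [pb_empty, pb_empty]
    simp
  | insert a L ha ih =>
    intro F
    rw [pb_insert a L ha, pb_insert a L ha, ih F, ih (fun m => F (m + 1))]
    have h1 : (fun m => (∑ j ∈ range (m + 1 + 1), ((m + 1).choose j : ℝ) * F j) / 2 ^ (m + 1)) =
        fun m => ((∑ j ∈ range (m + 1), (m.choose j : ℝ) * F j) / 2 ^ m +
          (∑ j ∈ range (m + 1), (m.choose j : ℝ) * F (j + 1)) / 2 ^ m) / 2 := by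
      funext m
      rw [pascal, pow_succ]
      field_simp
    rw [h1, pb_half]
    ring

end Pool.Agent.H531.IX
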