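import Pool.Agent.H531.IX.Stm

/-!
# Project IX, task PIF (helper227): the index in a block
-/

set_option autoImplicit false

open Finset

namespace Pool.Agent.H531.IX

namespace PIFN

open Classical in
theorem pin_card (A : Set ℕ) (p : ℕ) : pin A p = ((Icc 1 p).filter (· ∈ A)).card := by
  unfold pin
  have h : (A ∩ Set.Icc 1 p : Set ℕ) = (((Icc 1 p).filter (· ∈ A) : Finset ℕ) : Set ℕ) := by
    ext v
    simp only [Set.mem_inter_iff, Set.mem_Icc, coe_filter, mem_Icc, Set.mem_ofPred_eq]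
    exact and_comm
  rw [h, Set.ncard_coe_finset]

theorem notMem_fr {z : ℕ → ℕ} {x x' q : ℕ} (h : q ≤ z x) : q ∉ fr z x x' := by
  intro hq
  unfold fr at hq
  rw [mem_filter, mem_Ioc] at hq
  omega

/-- below `x` nothing changes -/
theorem old_iff {z W : ℕ → ℕ} (hz : Monotone z) {x x' v : ℕ} (b b' : ℕ → ℕ) (hv : v ≤ x) :
    v ∈ RS z W (gl (fr z x x') b b') ↔ v ∈ RS z W b := by
  have key : ∀ q, q ≤ z v → gl (fr z x x') b b' q = b q := by
    intro q hq
    unfold gl
    exact if_neg (notMem_fr (hq.trans (hz hv)))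
  show (3 ≤ v ∧ Sv W (z v) (gl (fr z x x') b b') v) ↔ (3 ≤ v ∧ Sv W (z v) b v)
  unfold Sv
  constructor
  · rintro ⟨h1, h2⟩
    refine ⟨h1, fun q hq hp => ?_⟩
    have h3 := h2 q hq hp
    rwa [key q hq] at h3
  · rintro ⟨h1, h2⟩
    refine ⟨h1, fun q hq hp => ?_⟩
    rw [key q hq]
    exact h2 q hq hp

/-- above `x` -/
theorem new_iff {z W : ℕ → ℕ} (hz : Monotone z) {x x' v : ℕ} (b b' : ℕ → ℕ) (hx : 3 ≤ x)
    (hv : x < v) (hv' : v ≤ x') (hW : W v ≤ z x) :
    v ∈ RS z W (gl (fr z x x') b b') ↔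
      Sv W (z x) b v ∧ ¬ ∃ q ∈ fr z x x', q ≤ z v ∧ v % q = b' q := by
  show (3 ≤ v ∧ Sv W (z v) (gl (fr z x x') b b') v) ↔ _
  unfold Sv
  constructor
  · rintro ⟨h1, h2⟩
    refine ⟨fun q hq hp => ?_, ?_⟩
    · have h3 := h2 q (hq.trans (hz hv.le)) hp
      have h4 : gl (fr z x x') b b' q = b q := by
        unfold gl
        exact if_neg (notMem_fr hq)
      rwa [h4] at h3
    · rintro ⟨q, hq, hqv, he⟩
      have hq' := hq
      unfold fr at hq'
      rw [mem_filter, mem_Ioc] at hq'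
      have h3 := h2 q hqv hq'.2
      have h4 : gl (fr z x x') b b' q = b' q := by
        unfold gl
        exact if_pos hq
      rw [h4, if_neg (by omega)] at h3
      exact h3 he
  · rintro ⟨h2, h3⟩
    refine ⟨by omega, fun q hq hp => ?_⟩
    by_cases hqx : q ≤ z x
    · have h4 : gl (fr z x x') b b' q = b q := by
        unfold gl
        exact if_neg (notMem_fr hqx)
      rw [h4]
      exact h2 q hqx hp
    · have hqf : q ∈ fr z x x' := by
        unfold fr
        rw [mem_filter, mem_Ioc]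
        exact ⟨⟨by omega, hq.trans (hz hv')⟩, hp⟩
      have h4 : gl (fr z x x') b b' q = b' q := by
        unfold gl
        exact if_pos hqf
      rw [h4, if_neg (by omega)]
      exact fun he => h3 ⟨q, hqf, hq, he⟩

end PIFN

open Classical in
/-- **PIF** -/
theorem pif : S_PIF := by
  intro z W hz x x' p b b' hx hxp hpx' hW
  rw [PIFN.pin_card, PIFN.pin_card]
  have h1 : Icc 1 p = Icc 1 x ∪ Ioc x p := by
    ext v
    simp only [mem_Icc, mem_union, mem_Ioc]
    omega
  have h2 : Disjoint (Icc 1 x) (Ioc x p) := by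
    rw [disjoint_left]
    intro v hv hv'
    rw [mem_Icc] at hv
    rw [mem_Ioc] at hv'
    omega
  rw [h1, filter_union, card_union_of_disjoint (disjoint_filter_filter h2)]
  have h3 : (Icc 1 x).filter (· ∈ RS z W (gl (fr z x x') b b')) =
      (Icc 1 x).filter (· ∈ RS z W b) :=
    filter_congr fun v hv => PIFN.old_iff hz b b' (mem_Icc.1 hv).2
  have h4 : (Ioc x p).filter (· ∈ RS z W (gl (fr z x x') b b')) =
      (Old z W x p b).filter fun v => ¬ ∃ q ∈ fr z x x', q ≤ z v ∧ v % q = b' q := by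
    unfold Old
    rw [filter_filter]
    refine filter_congr fun v hv => ?_
    rw [mem_Ioc] at hv
    exact PIFN.new_iff hz b b' hx hv.1 (by omega) (hW v (by omega))
  rw [h3, h4]
  have h5 : DD (fr z x x') (Old z W x p b) (fun q v => q ≤ z v) b' =
      ((Old z W x p b).filter fun v => ∃ q ∈ fr z x x', q ≤ z v ∧ v % q = b' q).card := by
    unfold DD
    exact congrArg Finset.card (filter_congr fun v _ => Iff.rfl)
  have h6 := card_filter_add_card_filter_not (s := Old z W x p b)
    (fun v => ∃ q ∈ fr z x x', q ≤ z v ∧ v % q = b' q)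
  rw [h5]
  omega

end Pool.Agent.H531.IX
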