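import Pool.Agent.H531.IX.EVU
import Pool.Agent.H531.IX.AZ
import Pool.Agent.H531.IX.AZP
import Pool.Agent.H531.IX.BIN
import Pool.Agent.H531.IX.PBE
import Pool.Agent.H531.IX.PBT
import Pool.Agent.H531.IX.PBC
import Pool.Agent.H531.IX.PBS
import Pool.Agent.H531.IX.LOC
import Pool.Agent.H531.IX.LOCH
import Pool.Agent.H531.IX.PIF
import Pool.Agent.H531.IX.BLK
import Pool.Agent.H531.IX.NUM
import Pool.Agent.H531.IX.AZ3
import Pool.Agent.H531.IX.GB
import Pool.Agent.H531.IX.MAIN
import Pool.Agent.H531.IX.AEL

set_option autoImplicit false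

/-!
# The index law in the Banks–Ford–Tao model: the engine is proved
-/

namespace Pool.Agent.H531.IX

/-- the index law holds almost surely -/
theorem law : S_AEL :=
  ael (main (az3 (azp (az evu)))
    (gb (blk (loch (loc (pbs bin pbe pbt pbc))) pif) num))

end Pool.Agent.H531.IX
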