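import Pool.Agent.H531.IX.Stm4

set_option autoImplicit false

/-! FB (helper981, for helper531) -/

open Finset MeasureTheory ProbabilityTheory Filter Topology

namespace Pool.Agent.H531.IX

namespace FBN

theorem key (n m : ℕ) (E : ℝ) (hE : (m : ℝ) ^ 2 ≤ E) (h : (2 : ℝ) ^ E ≤ n) : m ≤ kk n := by
  have h2 : (0 : ℝ) < (2 : ℝ) ^ E := Real.rpow_pos_of_pos (by norm_num) E
  have h3 : E * Real.log 2 ≤ Real.log n := by
    rw [← Real.log_rpow (by norm_num)]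
    exact Real.log_le_log h2 h
  have h4 := Real.log_two_gt_d9
  have h5 : (m : ℝ) ^ 2 / 2 ≤ E * Real.log 2 := by nlinarith [sq_nonneg (m : ℝ)]
  have h6 : ((m : ℝ) / 2) ^ 2 ≤ Real.log n := by nlinarith [sq_nonneg (m : ℝ)]
  have h7 : (m : ℝ) / 2 ≤ √(Real.log n) := by
    rw [← Real.sqrt_sq (by positivity : (0 : ℝ) ≤ (m : ℝ) / 2)]
    exact Real.sqrt_le_sqrt h6
  unfold kk
  apply Nat.le_floor
  linarith

end FBN

theorem fb : S_FB := by
  intro n a b _ h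
  unfold f2 at h
  by_cases hab : a = b
  · subst hab
    by_cases ha : a = 0
    · subst ha
      exact ⟨Nat.zero_le _, Nat.zero_le _⟩
    · rw [if_pos rfl, if_neg ha] at h
      have ha0 : (0 : ℝ) < a := by exact_mod_cast Nat.pos_of_ne_zero ha
      have h1 : 2 * ((a : ℝ) + 1) ^ 2 ≤ ((a : ℝ) + 1) ^ 2 * (2 * a + 3) / a := by
        rw [le_div_iff₀ ha0]
        nlinarith [sq_nonneg ((a : ℝ) + 1)]
      have h2 := FBN.key n a _ (by nlinarith : (a : ℝ) ^ 2 ≤ ((a : ℝ) + 1) ^ 2 * (2 * a + 3) / a - 2 * a) h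
      exact ⟨h2, h2⟩
  · rw [if_neg hab] at h
    have ha0 : (0 : ℝ) ≤ a := Nat.cast_nonneg a
    have hb0 : (0 : ℝ) ≤ b := Nat.cast_nonneg b
    have hc : ((((a + 1) * (b + 1) * (a + b + 2) : ℕ) : ℝ)) = ((a : ℝ) + 1) * (b + 1) * (a + b + 2) := by
      push_cast; ring
    have hE : ((a : ℝ) + b) ^ 2 ≤ ((((a + 1) * (b + 1) * (a + b + 2) : ℕ) : ℝ) - (((a : ℝ) + b) - 2)) := by
      rw [hc]
      have h1 : 0 ≤ (a : ℝ) * b := mul_nonneg ha0 hb0
      have h2 : 0 ≤ (a : ℝ) * b * (a + b + 2) := mul_nonneg h1 (by linarith)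
      nlinarith
    have h3 : 0 ≤ (a : ℝ) * b := mul_nonneg ha0 hb0
    exact ⟨FBN.key n a _ (by nlinarith) h, FBN.key n b _ (by nlinarith) h⟩

end Pool.Agent.H531.IX
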