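import Pool.Agent.H531.IX.Stm7
import Pool.Agent.H531.IX.EBL

set_option autoImplicit false

/-!
# The place of a random prime with given index: FINP, the asymptotics for the indices `k ^ e * n` (helper763)
-/

open Finset MeasureTheory ProbabilityTheory Filter Topology

namespace Pool.Agent.H531.IX

open Pool.Agent.T2H32.BF (Model z0 V)
open Pool.Agent.H559.BS (Limit)
open Pool.Agent.H559.HY (OK WW Cut)
open Pool.Agent.T2H32.GB (C2)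

namespace FINPN

theorem chain (f g : ℕ → ℕ → ℝ) (hf : ∀ X Y Z, X ≤ Y → Y ≤ Z → f X Z = f X Y + f Y Z)
    (hg : ∀ X Y Z, X ≤ Y → Y ≤ Z → g X Z = g X Y + g Y Z) (ρ₁ ρ₂ E : ℝ) (x y : ℕ)
    (h : ∀ X X2, x ≤ X → X ≤ X2 → X2 ≤ 2 * X → X2 ≤ y →
      f X X2 ≤ ρ₂ * g X X2 + E ∧ ρ₁ * g X X2 - E ≤ f X X2) :
    ∀ J X Y : ℕ, x ≤ X → X ≤ Y → Y ≤ y → Y ≤ 2 ^ J * X →
      f X Y ≤ ρ₂ * g X Y + J * E ∧ ρ₁ * g X Y - J * E ≤ f X Y := by
  intro J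
  induction J with
  | zero =>
    intro X Y _ h1 _ h2
    have h3 : X = Y := by
      rw [pow_zero, one_mul] at h2
      omega
    subst h3
    have h4 : f X X = 0 := by linarith [hf X X X le_rfl le_rfl]
    have h5 : g X X = 0 := by linarith [hg X X X le_rfl le_rfl]
    rw [h4, h5]
    simp
  | succ J ih =>
    intro X Y h0 h1 h2 h3
    have ha : X ≤ min (2 * X) Y := le_min (by omega) h1
    have h4 := h X (min (2 * X) Y) h0 ha (min_le_left _ _) ((min_le_right _ _).trans h2)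
    have h5 := ih (min (2 * X) Y) Y (h0.trans ha) (min_le_right _ _) h2 (by
      rcases le_total (2 * X) Y with h | h
      · rw [min_eq_left h]
        calc Y ≤ 2 ^ (J + 1) * X := h3
          _ = 2 ^ J * (2 * X) := by ring
      · rw [min_eq_right h]
        exact Nat.le_mul_of_pos_left _ (by positivity))
    rw [hf X (min (2 * X) Y) Y ha (min_le_right _ _), hg X (min (2 * X) Y) Y ha (min_le_right _ _)]
    push_cast
    constructor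
    · linarith [h4.1, h5.1]
    · linarith [h4.2, h5.2]

theorem lpow (k : ℕ) (a C : ℝ) (ha : 0 < a) (hC : 0 < C) :
    ∀ᶠ n : ℕ in atTop, Real.log n ^ k ≤ C * (n : ℝ) ^ a := by
  have h1 := (isLittleO_log_rpow_rpow_atTop (k : ℝ) (s := a) ha).def hC
  have h2 := (tendsto_natCast_atTop_atTop (R := ℝ)).eventually h1
  filter_upwards [h2] with n hn
  rw [Real.norm_of_nonneg (by positivity : (0 : ℝ) ≤ (n : ℝ) ^ a)] at hn
  refine le_trans (le_trans (le_of_eq ?_) (le_abs_self _)) hn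
  exact (Real.rpow_natCast _ _).symm

theorem log_top : Tendsto (fun n : ℕ => Real.log n) atTop atTop :=
  Real.tendsto_log_atTop.comp tendsto_natCast_atTop_atTop

theorem rpow_ge (α C : ℝ) (hα : 0 < α) : ∀ᶠ n : ℕ in atTop, C ≤ (n : ℝ) ^ α :=
  ((tendsto_rpow_atTop hα).comp (tendsto_natCast_atTop_atTop (R := ℝ))).eventually_ge_atTop C

/-- the lower end -/
theorem xlow (e : ℕ) (η : ℝ) (h0 : 0 < η) (h1 : η ≤ 1) :
    ∀ᶠ M : ℕ in atTop, (M : ℝ) ^ (1 - η) ≤ (⌊(M : ℝ) / Real.log M ^ (2 * e + 1)⌋₊ : ℝ) := by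
  filter_upwards [lpow (2 * e + 1) (η / 2) 1 (by linarith) one_pos, rpow_ge (η / 2) 2 (by linarith),
    log_top.eventually_ge_atTop 1, eventually_ge_atTop 1] with M h2 h3 h4 h5
  have hM : (1 : ℝ) ≤ M := by exact_mod_cast h5
  have hM0 : (0 : ℝ) < M := by linarith
  have hl : 0 < Real.log M ^ (2 * e + 1) := by positivity
  have h6 : (M : ℝ) ^ (1 - η / 2) ≤ (M : ℝ) / Real.log M ^ (2 * e + 1) := by
    rw [le_div_iff₀ hl]
    rw [one_mul] at h2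
    calc (M : ℝ) ^ (1 - η / 2) * Real.log M ^ (2 * e + 1) ≤ (M : ℝ) ^ (1 - η / 2) * (M : ℝ) ^ (η / 2) :=
          mul_le_mul_of_nonneg_left h2 (by positivity)
      _ = M := by rw [← Real.rpow_add hM0]; simp
  have h7 : (M : ℝ) ^ (1 - η / 2) = (M : ℝ) ^ (1 - η) * (M : ℝ) ^ (η / 2) := by
    rw [← Real.rpow_add hM0]
    congr 1
    ring
  have h8 : (1 : ℝ) ≤ (M : ℝ) ^ (1 - η) := Real.one_le_rpow hM (by linarith)
  have h9 := Nat.lt_floor_add_one ((M : ℝ) / Real.log M ^ (2 * e + 1))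
  have h10 : (M : ℝ) ^ (1 - η) * 2 ≤ (M : ℝ) ^ (1 - η) * (M : ℝ) ^ (η / 2) :=
    mul_le_mul_of_nonneg_left h3 (by linarith)
  linarith

/-- the upper end -/
theorem yup (η : ℝ) (h0 : 0 < η) :
    ∀ᶠ M : ℕ in atTop, (⌊2 * ((M : ℝ) * Real.log M ^ 1)⌋₊ : ℝ) ≤ (M : ℝ) ^ (1 + η) := by
  filter_upwards [lpow 1 η (1 / 2) h0 (by norm_num), log_top.eventually_ge_atTop 1, eventually_ge_atTop 1]
    with M h2 h4 h5
  have hM : (1 : ℝ) ≤ M := by exact_mod_cast h5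
  have hM0 : (0 : ℝ) < M := by linarith
  refine (Nat.floor_le (by positivity)).trans ?_
  calc 2 * ((M : ℝ) * Real.log M ^ 1) ≤ 2 * (M * (1 / 2 * (M : ℝ) ^ η)) := by gcongr
    _ = (M : ℝ) ^ (1 : ℝ) * (M : ℝ) ^ η := by rw [Real.rpow_one]; ring
    _ = (M : ℝ) ^ (1 + η) := (Real.rpow_add hM0 _ _).symm

/-- the error -/
theorem err (e : ℕ) (δ : ℝ) (hδ : 0 < δ) :
    ∀ᶠ M : ℕ in atTop, 2 * Real.log M ^ 2 * (2 * (M : ℝ) ^ (-(0.003 : ℝ)) +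
      2 * Real.log M ^ (2 * e) * (M : ℝ) ^ (-(0.23 : ℝ)) + (M : ℝ) ^ (-(0.01 : ℝ))) ≤ δ := by
  filter_upwards [lpow 2 0.001 (δ / 16) (by norm_num) (by linarith), lpow (2 * e) 0.2 1 (by norm_num) one_pos,
    log_top.eventually_ge_atTop 1, eventually_ge_atTop 1] with M h1 h2 h3 h5
  have hM : (1 : ℝ) ≤ M := by exact_mod_cast h5
  have hM0 : (0 : ℝ) < M := by linarith
  have e1 : Real.log M ^ (2 * e) * (M : ℝ) ^ (-(0.23 : ℝ)) ≤ (M : ℝ) ^ (-(0.003 : ℝ)) / 1 := by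
    rw [div_one]
    calc Real.log M ^ (2 * e) * (M : ℝ) ^ (-(0.23 : ℝ)) ≤ (1 * (M : ℝ) ^ (0.2 : ℝ)) * (M : ℝ) ^ (-(0.23 : ℝ)) :=
          mul_le_mul_of_nonneg_right h2 (by positivity)
      _ = (M : ℝ) ^ (-(0.03 : ℝ)) := by rw [one_mul, ← Real.rpow_add hM0]; norm_num
      _ ≤ (M : ℝ) ^ (-(0.003 : ℝ)) := Real.rpow_le_rpow_of_exponent_le hM (by norm_num)
  have e2 : (M : ℝ) ^ (-(0.01 : ℝ)) ≤ (M : ℝ) ^ (-(0.003 : ℝ)) := Real.rpow_le_rpow_of_exponent_le hM (by norm_num)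
  have e3 : (M : ℝ) ^ (0.001 : ℝ) * (M : ℝ) ^ (-(0.003 : ℝ)) ≤ 1 := by
    rw [← Real.rpow_add hM0]
    exact Real.rpow_le_one_of_one_le_of_nonpos hM (by norm_num)
  have e0 : 0 < (M : ℝ) ^ (-(0.003 : ℝ)) := by positivity
  have e4 : 0 ≤ 2 * Real.log M ^ 2 := by positivity
  calc 2 * Real.log M ^ 2 * (2 * (M : ℝ) ^ (-(0.003 : ℝ)) +
      2 * Real.log M ^ (2 * e) * (M : ℝ) ^ (-(0.23 : ℝ)) + (M : ℝ) ^ (-(0.01 : ℝ)))
      ≤ 2 * Real.log M ^ 2 * (5 * (M : ℝ) ^ (-(0.003 : ℝ))) := by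
        refine mul_le_mul_of_nonneg_left ?_ e4
        linarith [mul_assoc (2 : ℝ) (Real.log M ^ (2 * e)) ((M : ℝ) ^ (-(0.23 : ℝ)))]
    _ ≤ 2 * (δ / 16 * (M : ℝ) ^ (0.001 : ℝ)) * (5 * (M : ℝ) ^ (-(0.003 : ℝ))) := by gcongr
    _ = 10 / 16 * δ * ((M : ℝ) ^ (0.001 : ℝ) * (M : ℝ) ^ (-(0.003 : ℝ))) := by ring
    _ ≤ 10 / 16 * δ * 1 := by gcongr
    _ ≤ δ := by linarith

/-- everything that is needed for large `M` -/
theorem facts (e : ℕ) (η δ : ℝ) (h0 : 0 < η) (h1 : η ≤ 0.01) (hδ : 0 < δ) (C : ℝ) (X₀ : ℕ) :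
    ∀ᶠ M : ℕ in atTop, (M : ℝ) ^ (1 - η) ≤ (⌊(M : ℝ) / Real.log M ^ (2 * e + 1)⌋₊ : ℝ) ∧
      (⌊2 * ((M : ℝ) * Real.log M ^ 1)⌋₊ : ℝ) ≤ (M : ℝ) ^ (1 + η) ∧
      2 * Real.log M ^ 2 * (2 * (M : ℝ) ^ (-(0.003 : ℝ)) +
        2 * Real.log M ^ (2 * e) * (M : ℝ) ^ (-(0.23 : ℝ)) + (M : ℝ) ^ (-(0.01 : ℝ))) ≤ δ ∧
      X₀ ≤ ⌊(M : ℝ) / Real.log M ^ (2 * e + 1)⌋₊ ∧ 4 ≤ Real.log M ∧ C ≤ Real.log M ∧
      2 * (M : ℝ) ^ (0.52 : ℝ) * Real.log M ^ (2 * e) + 1 ≤ (M : ℝ) ^ (0.99 : ℝ) ∧ 1 ≤ M := by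
  filter_upwards [xlow e η h0 (by linarith), yup η h0, err e δ hδ, rpow_ge 0.99 X₀ (by norm_num),
    log_top.eventually_ge_atTop 4, log_top.eventually_ge_atTop C, lpow (2 * e) 0.4 1 (by norm_num) one_pos,
    rpow_ge 0.07 3 (by norm_num), eventually_ge_atTop 1] with M h2 h3 h4 h5 h6 h7 h8 h9 h10
  have hM : (1 : ℝ) ≤ M := by exact_mod_cast h10
  have hM0 : (0 : ℝ) < M := by linarith
  refine ⟨h2, h3, h4, ?_, h6, h7, ?_, h10⟩
  · have h11 : (M : ℝ) ^ (0.99 : ℝ) ≤ (M : ℝ) ^ (1 - η) := Real.rpow_le_rpow_of_exponent_le hM (by linarith)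
    exact_mod_cast (h5.trans h11).trans h2
  · have h11 : (1 : ℝ) ≤ (M : ℝ) ^ (0.92 : ℝ) := Real.one_le_rpow hM (by norm_num)
    calc 2 * (M : ℝ) ^ (0.52 : ℝ) * Real.log M ^ (2 * e) + 1
        ≤ 2 * (M : ℝ) ^ (0.52 : ℝ) * (1 * (M : ℝ) ^ (0.4 : ℝ)) + (M : ℝ) ^ (0.92 : ℝ) := by gcongr
      _ = (M : ℝ) ^ (0.92 : ℝ) * 3 := by
          have : (M : ℝ) ^ (0.92 : ℝ) = (M : ℝ) ^ (0.52 : ℝ) * (M : ℝ) ^ (0.4 : ℝ) := by
            rw [← Real.rpow_add hM0]; norm_num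
          rw [this]; ring
      _ ≤ (M : ℝ) ^ (0.92 : ℝ) * (M : ℝ) ^ (0.07 : ℝ) := by gcongr
      _ = (M : ℝ) ^ (0.99 : ℝ) := by rw [← Real.rpow_add hM0]; norm_num

theorem NT_add (z W : ℕ → ℕ) (H : Finset ℕ) (B : Set ℕ) (T : ℕ → Set ℕ) (b : ℕ → ℕ) {X Y Z : ℕ}
    (h1 : X ≤ Y) (h2 : Y ≤ Z) :
    NT z W H B T X Z b = NT z W H B T X Y b + NT z W H B T Y Z b := by
  classical
  unfold NT
  rw [← Finset.card_union_of_disjoint, ← Finset.filter_union, Finset.Ioc_union_Ioc_eq_Ioc h1 h2]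
  apply Finset.disjoint_filter_filter
  rw [Finset.disjoint_left]
  intro p hp hq
  rw [Finset.mem_Ioc] at hp hq
  omega

theorem mem_filter' {s : Finset ℕ} {p : ℕ → Prop} {inst : DecidablePred p} {a : ℕ} :
    a ∈ @Finset.filter ℕ p inst s ↔ a ∈ s ∧ p a := Finset.mem_filter

theorem pin_le (A : Set ℕ) (p : ℕ) : pin A p ≤ p := by
  unfold pin
  have h := Set.ncard_le_ncard (s := A ∩ Set.Icc 1 p) (t := Set.Icc 1 p) Set.inter_subset_right (Set.finite_Icc 1 p)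
  refine h.trans (le_of_eq ?_)
  rw [← Finset.coe_Icc, Set.ncard_coe_finset, Nat.card_Icc]
  omega

theorem pin_lt (A : Set ℕ) {y p : ℕ} (hp : p ∈ A) (h : y < p) : pin A y < pin A p := by
  unfold pin
  refine Set.ncard_lt_ncard ?_ ((Set.finite_Icc 1 p).inter_of_right _)
  refine ⟨Set.inter_subset_inter_right _ (Set.Icc_subset_Icc_right h.le), fun h2 => ?_⟩
  have h3 := h2 ⟨hp, Set.mem_Icc.2 ⟨by omega, le_rfl⟩⟩
  have h4 := h3.2.2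
  omega

open Classical in
/-- the indices are in bijection with the random primes -/
theorem NT_eq (hN : S_NTH) (z W : ℕ → ℕ) (b : ℕ → ℕ) (hA : (RS z W b).Infinite) (H : Finset ℕ) (hH : 0 ∈ H)
    (T : Finset ℕ) (X Y : ℕ) (hT : ∀ t ∈ T, 1 ≤ t ∧ X < rk (RS z W b) t ∧ rk (RS z W b) t ≤ Y) :
    NT z W H Set.univ (fun _ => (T : Set ℕ)) X Y b =
      (T.filter fun t => ∀ h ∈ H, rk (RS z W b) t + h ∈ RS z W b).card := by
  have h0 : 0 ∉ RS z W b := by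
    rintro ⟨h, _⟩
    omega
  obtain ⟨hN1, hN2⟩ := hN _ hA h0
  unfold NT
  refine Finset.card_bij' (fun p _ => pin (RS z W b) p) (fun t _ => rk (RS z W b) t) ?_ ?_ ?_ ?_
  · intro p hp
    obtain ⟨_, _, h2, h3⟩ := mem_filter'.1 hp
    have hpA : p ∈ RS z W b := by simpa using h2 0 hH
    refine mem_filter'.2 ⟨h3, fun h hh => ?_⟩
    rw [(hN1 p hpA).1]
    exact h2 h hh
  · intro t ht
    obtain ⟨h1, h2⟩ := mem_filter'.1 ht
    obtain ⟨h3, h4, h5⟩ := hT t h1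
    refine mem_filter'.2 ⟨Finset.mem_Ioc.2 ⟨h4, h5⟩, Set.mem_univ _, h2, ?_⟩
    rw [(hN2 t h3).2]
    exact h1
  · intro p hp
    obtain ⟨_, _, h2, h3⟩ := mem_filter'.1 hp
    have hpA : p ∈ RS z W b := by simpa using h2 0 hH
    exact (hN1 p hpA).1
  · intro t ht
    obtain ⟨h1, h2⟩ := mem_filter'.1 ht
    exact (hN2 t (hT t h1).1).2

open Classical in
/-- the numbers `k` of `TP` -/
noncomputable def SP (K : ℕ) : Finset ℕ := (Icc 1 K).filter fun k : ℕ => (K : ℝ) / Real.log K ^ 2 ≤ (k : ℝ)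

theorem mem_SP {K k : ℕ} : k ∈ SP K ↔ (1 ≤ k ∧ k ≤ K) ∧ (K : ℝ) / Real.log K ^ 2 ≤ (k : ℝ) := by
  unfold SP
  rw [Finset.mem_filter, Finset.mem_Icc]

theorem inj (e n : ℕ) (he : 1 ≤ e) (hn : 1 ≤ n) : Function.Injective (fun k : ℕ => k ^ e * n) := by
  intro k k' h
  have h1 : k ^ e = k' ^ e := Nat.eq_of_mul_eq_mul_right hn h
  exact Nat.pow_left_injective (by omega) h1

open Classical in
theorem TP_eq (e n K : ℕ) : TP e n K = (SP K).image fun k => k ^ e * n := rfl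

theorem mem_TP {e n K t : ℕ} : t ∈ TP e n K ↔ ∃ k ∈ SP K, k ^ e * n = t := by
  classical
  rw [TP_eq, Finset.mem_image]

theorem card_TP (e n K : ℕ) (he : 1 ≤ e) (hn : 1 ≤ n) : (TP e n K).card = (SP K).card := by
  rw [TP_eq, Finset.card_image_of_injective _ (inj e n he hn)]

theorem card_SP_le (K : ℕ) : (SP K).card ≤ K := by
  unfold SP
  refine (Finset.card_filter_le _ _).trans ?_
  rw [Nat.card_Icc]
  omega

theorem low_le (K k : ℕ) (hk : 1 ≤ k) (hkK : k ≤ K) (h : k ∉ SP K) : k ∈ Icc 1 ⌊(K : ℝ) / Real.log K ^ 2⌋₊ := by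
  rw [Finset.mem_Icc]
  refine ⟨hk, ?_⟩
  have h1 : (k : ℝ) < (K : ℝ) / Real.log K ^ 2 := by
    by_contra h2
    exact h (mem_SP.2 ⟨⟨hk, hkK⟩, not_lt.1 h2⟩)
  exact Nat.le_floor h1.le

theorem card_SP_ge (K : ℕ) : (K : ℝ) - (K : ℝ) / Real.log K ^ 2 ≤ ((SP K).card : ℝ) := by
  classical
  have h1 : Icc 1 K ⊆ SP K ∪ Icc 1 ⌊(K : ℝ) / Real.log K ^ 2⌋₊ := by
    intro k hk
    rw [Finset.mem_Icc] at hk
    by_cases h : k ∈ SP K
    · exact Finset.mem_union_left _ h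
    · exact Finset.mem_union_right _ (low_le K k hk.1 hk.2 h)
  have h2 := (Finset.card_le_card h1).trans (Finset.card_union_le _ _)
  rw [Nat.card_Icc, Nat.card_Icc, Nat.add_sub_cancel, Nat.add_sub_cancel] at h2
  have h3 : (K : ℝ) ≤ (SP K).card + (⌊(K : ℝ) / Real.log K ^ 2⌋₊ : ℝ) := by exact_mod_cast h2
  have h4 : (⌊(K : ℝ) / Real.log K ^ 2⌋₊ : ℝ) ≤ (K : ℝ) / Real.log K ^ 2 := Nat.floor_le (by positivity)
  linarith

open Classical in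
theorem NK_bounds (A : Set ℕ) (e n K : ℕ) (he : 1 ≤ e) (hn : 1 ≤ n) :
    (((TP e n K).filter fun t => rk A t + 2 ∈ A).card : ℝ) ≤ (NK A e n K : ℝ) ∧
    (NK A e n K : ℝ) ≤ (((TP e n K).filter fun t => rk A t + 2 ∈ A).card : ℝ) + (K : ℝ) / Real.log K ^ 2 := by
  have h0 : ((TP e n K).filter fun t => rk A t + 2 ∈ A).card =
      ((SP K).filter fun k => rk A (k ^ e * n) + 2 ∈ A).card := by
    rw [TP_eq, Finset.filter_image, Finset.card_image_of_injective _ (inj e n he hn)]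
  have h1 : NK A e n K = ((Icc 1 K).filter fun k => rk A (k ^ e * n) + 2 ∈ A).card := by
    unfold NK
    rw [← Set.ncard_coe_finset]
    congr 1
    ext k
    simp only [Set.mem_ofPred_eq, Finset.coe_filter, Finset.mem_Icc, and_assoc]
  have h2 : (SP K).filter (fun k => rk A (k ^ e * n) + 2 ∈ A) ⊆
      (Icc 1 K).filter fun k => rk A (k ^ e * n) + 2 ∈ A := by
    refine Finset.filter_subset_filter _ ?_
    intro k hk
    exact Finset.mem_Icc.2 (mem_SP.1 hk).1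
  have h3 : (Icc 1 K).filter (fun k => rk A (k ^ e * n) + 2 ∈ A) ⊆
      (SP K).filter (fun k => rk A (k ^ e * n) + 2 ∈ A) ∪ Icc 1 ⌊(K : ℝ) / Real.log K ^ 2⌋₊ := by
    intro k hk
    obtain ⟨hk1, hk2⟩ := Finset.mem_filter.1 hk
    rw [Finset.mem_Icc] at hk1
    by_cases h : k ∈ SP K
    · exact Finset.mem_union_left _ (Finset.mem_filter.2 ⟨h, hk2⟩)
    · exact Finset.mem_union_right _ (low_le K k hk1.1 hk1.2 h)
  rw [h0, h1]
  refine ⟨by exact_mod_cast Finset.card_le_card h2, ?_⟩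
  have h4 := (Finset.card_le_card h3).trans (Finset.card_union_le _ _)
  rw [Nat.card_Icc, Nat.add_sub_cancel] at h4
  have h5 : ((((Icc 1 K).filter fun k => rk A (k ^ e * n) + 2 ∈ A).card : ℕ) : ℝ) ≤
      (((SP K).filter fun k => rk A (k ^ e * n) + 2 ∈ A).card : ℝ) + (⌊(K : ℝ) / Real.log K ^ 2⌋₊ : ℝ) := by
    exact_mod_cast h4
  have h6 : (⌊(K : ℝ) / Real.log K ^ 2⌋₊ : ℝ) ≤ (K : ℝ) / Real.log K ^ 2 := Nat.floor_le (by positivity)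
  linarith

/-- windows -/
theorem window (e n K : ℕ) (he : 1 ≤ e) (G : ℝ) (hG : 0 < G)
    (hgap : ∀ k ∈ SP K, G ≤ (k : ℝ) ^ (e - 1) * n) (j w : ℕ) :
    (((TP e n K).filter fun t => j < t ∧ t ≤ j + w).card : ℝ) ≤ w / G + 1 := by
  classical
  have h0 : ((TP e n K).filter fun t => j < t ∧ t ≤ j + w).card ≤
      ((SP K).filter fun k => j < k ^ e * n ∧ k ^ e * n ≤ j + w).card := by
    rw [TP_eq, Finset.filter_image]
    exact Finset.card_image_le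
  have h0' : (((TP e n K).filter fun t => j < t ∧ t ≤ j + w).card : ℝ) ≤
      (((SP K).filter fun k => j < k ^ e * n ∧ k ^ e * n ≤ j + w).card : ℝ) := by exact_mod_cast h0
  refine h0'.trans ?_
  set F := (SP K).filter fun k => j < k ^ e * n ∧ k ^ e * n ≤ j + w with hF
  rcases F.eq_empty_or_nonempty with h | h
  · rw [h]
    simp
    positivity
  · have ha := Finset.min'_mem F h
    have hb := Finset.max'_mem F h
    set k₀ := F.min' h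
    set k₁ := F.max' h
    have hle : k₀ ≤ k₁ := Finset.min'_le _ _ hb
    rw [hF, Finset.mem_filter] at ha hb
    have h1 : F ⊆ Icc k₀ k₁ := fun k hk => Finset.mem_Icc.2 ⟨Finset.min'_le _ _ hk, Finset.le_max' _ _ hk⟩
    have h2 := Finset.card_le_card h1
    rw [Nat.card_Icc] at h2
    have h3 : (F.card : ℝ) ≤ (k₁ : ℝ) - k₀ + 1 := by
      have h4 : F.card + k₀ ≤ k₁ + 1 := by omega
      have h5 : (F.card : ℝ) + k₀ ≤ k₁ + 1 := by exact_mod_cast h4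
      linarith
    have h6 : ((k₁ : ℝ) - k₀) * G ≤ w := by
      have h7 : (k₁ : ℝ) ^ e * n ≤ j + w := by exact_mod_cast hb.2.2
      have h8 : (j : ℝ) < (k₀ : ℝ) ^ e * n := by exact_mod_cast ha.2.1
      have h9 : (k₀ : ℝ) ≤ k₁ := by exact_mod_cast hle
      have h10 := hgap k₀ ha.1
      obtain ⟨e', rfl⟩ : ∃ e', e = e' + 1 := ⟨e - 1, by omega⟩
      rw [Nat.add_sub_cancel] at h10
      have h11 : (k₀ : ℝ) ^ e' ≤ (k₁ : ℝ) ^ e' := pow_le_pow_left₀ (Nat.cast_nonneg _) h9 _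
      have h12 : ((k₁ : ℝ) - k₀) * G ≤ ((k₁ : ℝ) - k₀) * ((k₀ : ℝ) ^ e' * n) :=
        mul_le_mul_of_nonneg_left h10 (by linarith)
      have h13 : (k₁ : ℝ) * (k₀ : ℝ) ^ e' * n ≤ (k₁ : ℝ) * (k₁ : ℝ) ^ e' * n := by gcongr
      calc ((k₁ : ℝ) - k₀) * G ≤ ((k₁ : ℝ) - k₀) * ((k₀ : ℝ) ^ e' * n) := h12
        _ = (k₁ : ℝ) * (k₀ : ℝ) ^ e' * n - (k₀ : ℝ) ^ (e' + 1) * n := by ring
        _ ≤ (k₁ : ℝ) * (k₁ : ℝ) ^ e' * n - (k₀ : ℝ) ^ (e' + 1) * n := by linarith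
        _ = (k₁ : ℝ) ^ (e' + 1) * n - (k₀ : ℝ) ^ (e' + 1) * n := by ring
        _ ≤ w := by linarith
    have h14 : (k₁ : ℝ) - k₀ ≤ w / G := by rw [le_div_iff₀ hG]; exact h6
    linarith

theorem gap (e n K : ℕ) (he : 1 ≤ e) (hK : 1 ≤ K) (l : ℝ) (h1 : 1 ≤ Real.log K) (h2 : Real.log K ≤ l) (k : ℕ)
    (hk : k ∈ SP K) : ((K ^ e * n : ℕ) : ℝ) / (K * l ^ (2 * e)) ≤ (k : ℝ) ^ (e - 1) * n := by
  have hK0 : (0 : ℝ) < K := by exact_mod_cast hK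
  have hl : 1 ≤ l := h1.trans h2
  have h3 := (mem_SP.1 hk).2
  rw [div_le_iff₀ (by positivity)] at h3
  have h4 : (K : ℝ) ≤ k * l ^ 2 := h3.trans (by gcongr)
  obtain ⟨e', rfl⟩ : ∃ e', e = e' + 1 := ⟨e - 1, by omega⟩
  rw [Nat.add_sub_cancel, div_le_iff₀ (by positivity)]
  have h5 : (K : ℝ) ^ e' ≤ (k * l ^ 2) ^ e' := pow_le_pow_left₀ hK0.le h4 _
  have h6 : (1 : ℝ) ≤ l ^ 2 := one_le_pow₀ hl
  push_cast
  calc (K : ℝ) ^ (e' + 1) * n = K * n * (K : ℝ) ^ e' := by ring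
    _ ≤ K * n * (k * l ^ 2) ^ e' := by gcongr
    _ = K * n * (k * l ^ 2) ^ e' * 1 := by ring
    _ ≤ K * n * (k * l ^ 2) ^ e' * l ^ 2 := by gcongr
    _ = (k : ℝ) ^ e' * n * (K * l ^ (2 * (e' + 1))) := by
      rw [mul_pow, ← pow_mul]
      ring

theorem lowt (e n K : ℕ) (hn : 1 ≤ n) (hK : 1 ≤ K) (l : ℝ) (h1 : 1 ≤ Real.log K)
    (h2 : Real.log K ≤ l) (hl : 1 < l) (k : ℕ)
    (hk : k ∈ SP K) : ⌊((K ^ e * n : ℕ) : ℝ) / l ^ (2 * e + 1)⌋₊ < k ^ e * n := by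
  have hK0 : (0 : ℝ) < K := by exact_mod_cast hK
  have hn0 : (0 : ℝ) < n := by exact_mod_cast hn
  have h3 := (mem_SP.1 hk).2
  rw [div_le_iff₀ (by positivity)] at h3
  have h4 : (K : ℝ) ≤ k * l ^ 2 := h3.trans (by gcongr)
  have h5 : (K : ℝ) ^ e ≤ (k * l ^ 2) ^ e := pow_le_pow_left₀ hK0.le h4 _
  rw [Nat.floor_lt (by positivity), div_lt_iff₀ (by positivity)]
  push_cast
  have h6 : 0 < (k * l ^ 2) ^ e * (n : ℝ) := by
    have : 0 < (K : ℝ) ^ e := by positivity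
    have h7 : 0 < (k * l ^ 2) ^ e := this.trans_le h5
    positivity
  calc (K : ℝ) ^ e * n ≤ (k * l ^ 2) ^ e * n := by gcongr
    _ = (k * l ^ 2) ^ e * n * 1 := by ring
    _ < (k * l ^ 2) ^ e * n * l := by gcongr
    _ = (k : ℝ) ^ e * n * l ^ (2 * e + 1) := by
      rw [mul_pow, ← pow_mul]
      ring

/-- the bound for the windows -/
noncomputable def BB (e K M y : ℕ) : ℕ := ⌊2 * (uX y : ℝ) / ((M : ℝ) / (K * Real.log M ^ (2 * e)))⌋₊ + 1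

theorem BB_le (e K M y : ℕ) (η : ℝ) (hη1 : η ≤ 0.01) (hM : 1 ≤ M) (hy : (y : ℝ) ≤ (M : ℝ) ^ (1 + η)) :
    (BB e K M y : ℝ) ≤ 2 * K * Real.log M ^ (2 * e) * (M : ℝ) ^ (-(0.48 : ℝ)) + 1 := by
  have hM1 : (1 : ℝ) ≤ M := by exact_mod_cast hM
  have hM0 : (0 : ℝ) < M := by linarith
  have hl : 0 ≤ Real.log M := Real.log_nonneg hM1
  unfold BB
  push_cast
  have h1 : (uX y : ℝ) ≤ (M : ℝ) ^ (0.52 : ℝ) := by
    unfold uX
    refine (Nat.floor_le (by positivity)).trans ?_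
    calc (y : ℝ) ^ (0.511 : ℝ) ≤ ((M : ℝ) ^ (1 + η)) ^ (0.511 : ℝ) := by gcongr
      _ = (M : ℝ) ^ ((1 + η) * 0.511) := by rw [← Real.rpow_mul hM0.le]
      _ ≤ (M : ℝ) ^ (0.52 : ℝ) := Real.rpow_le_rpow_of_exponent_le hM1 (by nlinarith)
  have h2 : 2 * (uX y : ℝ) / ((M : ℝ) / (K * Real.log M ^ (2 * e))) =
      2 * K * Real.log M ^ (2 * e) * ((uX y : ℝ) / M) := by
    rw [div_div_eq_mul_div]
    ring
  have h3 : (uX y : ℝ) / M ≤ (M : ℝ) ^ (-(0.48 : ℝ)) := by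
    rw [div_le_iff₀ hM0]
    calc (uX y : ℝ) ≤ (M : ℝ) ^ (0.52 : ℝ) := h1
      _ = (M : ℝ) ^ (-(0.48 : ℝ)) * (M : ℝ) ^ (1 : ℝ) := by rw [← Real.rpow_add hM0]; norm_num
      _ = (M : ℝ) ^ (-(0.48 : ℝ)) * M := by rw [Real.rpow_one]
  have h4 := Nat.floor_le (a := 2 * (uX y : ℝ) / ((M : ℝ) / (K * Real.log M ^ (2 * e)))) (by positivity)
  have h5 : 2 * K * Real.log M ^ (2 * e) * ((uX y : ℝ) / M) ≤
      2 * K * Real.log M ^ (2 * e) * (M : ℝ) ^ (-(0.48 : ℝ)) := by gcongr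
  linarith

theorem BB_X (e K M x y X : ℕ) (η : ℝ) (hη1 : η ≤ 0.01) (hM : 1 ≤ M) (hx : (M : ℝ) ^ (1 - η) ≤ x)
    (hy : (y : ℝ) ≤ (M : ℝ) ^ (1 + η)) (hKM : K ≤ M)
    (hb : 2 * (M : ℝ) ^ (0.52 : ℝ) * Real.log M ^ (2 * e) + 1 ≤ (M : ℝ) ^ (0.99 : ℝ)) (hX : x ≤ X) :
    BB e K M y ≤ X := by
  have hM1 : (1 : ℝ) ≤ M := by exact_mod_cast hM
  have hM0 : (0 : ℝ) < M := by linarith
  have hl : 0 ≤ Real.log M := Real.log_nonneg hM1
  have h1 := BB_le e K M y η hη1 hM hy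
  have h2 : (K : ℝ) ≤ M := by exact_mod_cast hKM
  have h3 : 2 * K * Real.log M ^ (2 * e) * (M : ℝ) ^ (-(0.48 : ℝ)) ≤
      2 * (M : ℝ) ^ (0.52 : ℝ) * Real.log M ^ (2 * e) := by
    calc 2 * K * Real.log M ^ (2 * e) * (M : ℝ) ^ (-(0.48 : ℝ))
        ≤ 2 * M * Real.log M ^ (2 * e) * (M : ℝ) ^ (-(0.48 : ℝ)) := by gcongr
      _ = 2 * ((M : ℝ) ^ (1 : ℝ) * (M : ℝ) ^ (-(0.48 : ℝ))) * Real.log M ^ (2 * e) := by
        rw [Real.rpow_one]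
        ring
      _ = 2 * (M : ℝ) ^ (0.52 : ℝ) * Real.log M ^ (2 * e) := by
        rw [← Real.rpow_add hM0]
        norm_num
  have h4 : (M : ℝ) ^ (0.99 : ℝ) ≤ (M : ℝ) ^ (1 - η) := Real.rpow_le_rpow_of_exponent_le hM1 (by linarith)
  have h5 : (x : ℝ) ≤ X := by exact_mod_cast hX
  have h6 : (BB e K M y : ℝ) ≤ X := by linarith
  exact_mod_cast h6

/-- the error term of one piece -/
noncomputable def EE (e K M : ℕ) : ℝ := K * (2 * (M : ℝ) ^ (-(0.003 : ℝ)) +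
        2 * Real.log M ^ (2 * e) * (M : ℝ) ^ (-(0.23 : ℝ)) + (M : ℝ) ^ (-(0.01 : ℝ)))

theorem err_le (e K M x y X : ℕ) (η : ℝ) (hη1 : η ≤ 0.01) (hM : 1 ≤ M) (hx : (M : ℝ) ^ (1 - η) ≤ x)
    (hy : (y : ℝ) ≤ (M : ℝ) ^ (1 + η)) (hK : (M : ℝ) ^ (0.26 : ℝ) ≤ K)
    (hX : x ≤ X) (hXy : X ≤ y) (T : ℕ) (hT : T ≤ K) :
    2 * (X : ℝ) ^ (-(0.004 : ℝ)) * T + BB e K M y * (X : ℝ) ^ (0.246 : ℝ) ≤ EE e K M := by
  have hM1 : (1 : ℝ) ≤ M := by exact_mod_cast hM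
  have hM0 : (0 : ℝ) < M := by linarith
  have hl : 0 ≤ Real.log M := Real.log_nonneg hM1
  have hB := BB_le e K M y η hη1 hM hy
  have hX1 : (x : ℝ) ≤ X := by exact_mod_cast hX
  have hX2 : (X : ℝ) ≤ y := by exact_mod_cast hXy
  have hT1 : (T : ℝ) ≤ K := by exact_mod_cast hT
  have h1 : (M : ℝ) ^ (0.99 : ℝ) ≤ X :=
    ((Real.rpow_le_rpow_of_exponent_le hM1 (by linarith)).trans hx).trans hX1
  have h2 : (X : ℝ) ≤ (M : ℝ) ^ (1.01 : ℝ) :=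
    (hX2.trans hy).trans (Real.rpow_le_rpow_of_exponent_le hM1 (by linarith))
  have h3 : (X : ℝ) ^ (-(0.004 : ℝ)) ≤ (M : ℝ) ^ (-(0.003 : ℝ)) := by
    calc (X : ℝ) ^ (-(0.004 : ℝ)) ≤ ((M : ℝ) ^ (0.99 : ℝ)) ^ (-(0.004 : ℝ)) :=
          Real.rpow_le_rpow_of_nonpos (by positivity) h1 (by norm_num)
      _ = (M : ℝ) ^ ((0.99 : ℝ) * (-(0.004 : ℝ))) := by rw [← Real.rpow_mul hM0.le]
      _ ≤ (M : ℝ) ^ (-(0.003 : ℝ)) := Real.rpow_le_rpow_of_exponent_le hM1 (by norm_num)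
  have h4 : (X : ℝ) ^ (0.246 : ℝ) ≤ (M : ℝ) ^ (0.25 : ℝ) := by
    calc (X : ℝ) ^ (0.246 : ℝ) ≤ ((M : ℝ) ^ (1.01 : ℝ)) ^ (0.246 : ℝ) := by gcongr
      _ = (M : ℝ) ^ ((1.01 : ℝ) * (0.246 : ℝ)) := by rw [← Real.rpow_mul hM0.le]
      _ ≤ (M : ℝ) ^ (0.25 : ℝ) := Real.rpow_le_rpow_of_exponent_le hM1 (by norm_num)
  have h5 : 2 * (X : ℝ) ^ (-(0.004 : ℝ)) * T ≤ 2 * (M : ℝ) ^ (-(0.003 : ℝ)) * K := by gcongr
  have h6 : (M : ℝ) ^ (0.25 : ℝ) ≤ K * (M : ℝ) ^ (-(0.01 : ℝ)) := by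
    calc (M : ℝ) ^ (0.25 : ℝ) = (M : ℝ) ^ (0.26 : ℝ) * (M : ℝ) ^ (-(0.01 : ℝ)) := by
          rw [← Real.rpow_add hM0]; norm_num
      _ ≤ K * (M : ℝ) ^ (-(0.01 : ℝ)) := by gcongr
  have h7 : (BB e K M y : ℝ) * (X : ℝ) ^ (0.246 : ℝ) ≤
      (2 * K * Real.log M ^ (2 * e) * (M : ℝ) ^ (-(0.48 : ℝ)) + 1) * (M : ℝ) ^ (0.25 : ℝ) := by gcongr
  have h8 : (2 * K * Real.log M ^ (2 * e) * (M : ℝ) ^ (-(0.48 : ℝ)) + 1) * (M : ℝ) ^ (0.25 : ℝ) =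
      2 * K * Real.log M ^ (2 * e) * (M : ℝ) ^ (-(0.23 : ℝ)) + (M : ℝ) ^ (0.25 : ℝ) := by
    have h9 : (M : ℝ) ^ (-(0.48 : ℝ)) * (M : ℝ) ^ (0.25 : ℝ) = (M : ℝ) ^ (-(0.23 : ℝ)) := by
      rw [← Real.rpow_add hM0]; norm_num
    rw [← h9]
    ring
  unfold EE
  calc 2 * (X : ℝ) ^ (-(0.004 : ℝ)) * T + BB e K M y * (X : ℝ) ^ (0.246 : ℝ)
      ≤ 2 * (M : ℝ) ^ (-(0.003 : ℝ)) * K +
        (2 * K * Real.log M ^ (2 * e) * (M : ℝ) ^ (-(0.23 : ℝ)) + (M : ℝ) ^ (0.25 : ℝ)) := by linarith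
    _ ≤ 2 * (M : ℝ) ^ (-(0.003 : ℝ)) * K +
        (2 * K * Real.log M ^ (2 * e) * (M : ℝ) ^ (-(0.23 : ℝ)) + K * (M : ℝ) ^ (-(0.01 : ℝ))) := by linarith
    _ = _ := by ring

/-- the window condition -/
theorem BB_window (e n K y X : ℕ) (he : 1 ≤ e) (hn : 1 ≤ n) (hK : 1 ≤ K) (h1 : 1 ≤ Real.log K)
    (h2 : Real.log K ≤ Real.log ((K ^ e * n : ℕ) : ℝ)) (hXy : X ≤ y) (j : ℕ) :
    ((TP e n K).filter fun t => j < t ∧ t ≤ j + 2 * uX X).card ≤ BB e K (K ^ e * n) y := by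
  have hK0 : (0 : ℝ) < K := by exact_mod_cast hK
  have hn0 : (0 : ℝ) < n := by exact_mod_cast hn
  have hl : 1 ≤ Real.log ((K ^ e * n : ℕ) : ℝ) := h1.trans h2
  have hM0 : (0 : ℝ) < ((K ^ e * n : ℕ) : ℝ) := by push_cast; positivity
  have hG : 0 < ((K ^ e * n : ℕ) : ℝ) / (K * Real.log ((K ^ e * n : ℕ) : ℝ) ^ (2 * e)) := by positivity
  have h3 := window e n K he _ hG (gap e n K he hK _ h1 h2) j (2 * uX X)
  have h4 : (uX X : ℝ) ≤ uX y := by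
    have h5 : uX X ≤ uX y := by
      unfold uX
      have : (X : ℝ) ≤ y := by exact_mod_cast hXy
      exact Nat.floor_mono (by gcongr)
    exact_mod_cast h5
  unfold BB
  rw [← Nat.floor_add_one (by positivity)]
  apply Nat.le_floor
  refine h3.trans ?_
  push_cast at hG ⊢
  have h6 : 2 * (uX X : ℝ) ≤ 2 * uX y := by linarith
  linarith [div_le_div_of_nonneg_right h6 hG.le]

/-- the deterministic part: all the pieces together -/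
theorem det (hN : S_NTH) (W : ℕ → ℕ) (b : ℕ → ℕ) (hA : (RS z0 W b).Infinite) (e n K : ℕ) (he : 1 ≤ e) (hn : 1 ≤ n)
    (ρ₁ ρ₂ E : ℝ) (hρ : 0 ≤ ρ₂) (hρ1 : 0 ≤ ρ₁) (x y J : ℕ) (hxy : x ≤ y) (hJ : y ≤ 2 ^ J * x)
    (hT : ∀ t ∈ TP e n K, 1 ≤ t ∧ x < rk (RS z0 W b) t ∧ rk (RS z0 W b) t ≤ y)
    (h : ∀ X X2, x ≤ X → X ≤ X2 → X2 ≤ 2 * X → X2 ≤ y →
      (NT z0 W {0, 2} Set.univ (fun _ => (TP e n K : Set ℕ)) X X2 b : ℝ) ≤
        ρ₂ * NT z0 W {0} Set.univ (fun _ => (TP e n K : Set ℕ)) X X2 b + E ∧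
      ρ₁ * NT z0 W {0} Set.univ (fun _ => (TP e n K : Set ℕ)) X X2 b - E ≤
        (NT z0 W {0, 2} Set.univ (fun _ => (TP e n K : Set ℕ)) X X2 b : ℝ)) :
    (NK (RS z0 W b) e n K : ℝ) ≤ ρ₂ * K + J * E + (K : ℝ) / Real.log K ^ 2 ∧
    ρ₁ * ((K : ℝ) - (K : ℝ) / Real.log K ^ 2) - J * E ≤ (NK (RS z0 W b) e n K : ℝ) := by
  classical
  have h1 := chain (fun X Y => (NT z0 W {0, 2} Set.univ (fun _ => (TP e n K : Set ℕ)) X Y b : ℝ))
    (fun X Y => (NT z0 W {0} Set.univ (fun _ => (TP e n K : Set ℕ)) X Y b : ℝ))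
    (fun X Y Z hXY hYZ => by exact_mod_cast NT_add z0 W {0, 2} Set.univ _ b hXY hYZ)
    (fun X Y Z hXY hYZ => by exact_mod_cast NT_add z0 W {0} Set.univ _ b hXY hYZ) ρ₁ ρ₂ E x y h J x y le_rfl
    hxy le_rfl hJ
  simp only at h1
  have h2 := NT_eq hN z0 W b hA {0, 2} (by simp) (TP e n K) x y hT
  have h3 := NT_eq hN z0 W b hA {0} (by simp) (TP e n K) x y hT
  have hmem : ∀ t ∈ TP e n K, rk (RS z0 W b) t ∈ RS z0 W b := by
    intro t ht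
    have h0 : 0 ∉ RS z0 W b := by
      rintro ⟨h, _⟩
      omega
    exact ((hN _ hA h0).2 t (hT t ht).1).1
  have h4 : ((TP e n K).filter fun t => ∀ h ∈ ({0} : Finset ℕ), rk (RS z0 W b) t + h ∈ RS z0 W b) = TP e n K := by
    refine Finset.filter_true_of_mem fun t ht h hh => ?_
    rw [Finset.mem_singleton] at hh
    subst hh
    exact hmem t ht
  have h5 : ((TP e n K).filter fun t => ∀ h ∈ ({0, 2} : Finset ℕ), rk (RS z0 W b) t + h ∈ RS z0 W b) =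
      ((TP e n K).filter fun t => rk (RS z0 W b) t + 2 ∈ RS z0 W b) := by
    refine Finset.filter_congr fun t ht => ?_
    constructor
    · intro hh
      exact hh 2 (by simp)
    · intro hh h hh2
      rw [Finset.mem_insert, Finset.mem_singleton] at hh2
      rcases hh2 with rfl | rfl
      · exact hmem t ht
      · exact hh
  rw [h4] at h3
  rw [h5] at h2
  rw [h2, h3] at h1
  obtain ⟨h6, h7⟩ := NK_bounds (RS z0 W b) e n K he hn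
  have h8 : ((TP e n K).card : ℝ) ≤ K := by
    rw [card_TP e n K he hn]
    exact_mod_cast card_SP_le K
  have h9 : (K : ℝ) - (K : ℝ) / Real.log K ^ 2 ≤ ((TP e n K).card : ℝ) := by
    rw [card_TP e n K he hn]
    exact card_SP_ge K
  have h10 := mul_le_mul_of_nonneg_left h8 hρ
  have h11 := mul_le_mul_of_nonneg_left h9 hρ1
  constructor
  · linarith [h1.1]
  · linarith [h1.2]

/-- the final numerical step -/
theorem fin_num (l L K N J E ρ₁ ρ₂ r₁ r₂ c₂ η ε lx ly : ℝ) (hε : 0 < ε) (hl : 4 ≤ l) (hL : 0.26 * l ≤ L) (hK : 0 < K)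
    (hη0 : 0 < η) (hη1 : η ≤ 0.01) (hη2 : η * (2 * c₂ + ε) ≤ ε / 8)
    (hr1 : 2 * c₂ - ε / 8 < r₁) (hr1' : r₁ < 2 * c₂) (hr1p : 0 < r₁) (hr2 : r₂ < 2 * c₂ + ε / 8)
    (hc : 0 < c₂)
    (hx : (1 - η) * l ≤ lx) (hy : ly ≤ (1 + η) * l) (hly : 0 < ly) (hρ1 : ρ₁ = r₁ / ly) (hρ2 : ρ₂ = r₂ / lx)
    (hJ : J ≤ 2 * l) (hE0 : 0 ≤ E) (hE : 2 * l ^ 2 * E ≤ K * (ε / 8))
    (hb1 : 1000 * (1 + 2 * c₂) / ε ≤ l)
    (hU : N ≤ ρ₂ * K + J * E + K / L ^ 2) (hD : ρ₁ * (K - K / L ^ 2) - J * E ≤ N) :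
    |N * l / K - 2 * c₂| ≤ ε := by
  have hl0 : 0 < l := by linarith
  have hL0 : 0 < L := by nlinarith
  have hL1 : 1 ≤ L := by nlinarith
  have hb2 : 1000 * (1 + 2 * c₂) ≤ l * ε := by rwa [div_le_iff₀ hε] at hb1
  have hlx : 0 < lx := by nlinarith
  have e1 : J * E * l / K ≤ ε / 8 := by
    rw [div_le_iff₀ hK]
    calc J * E * l ≤ 2 * l * E * l := by gcongr
      _ = 2 * l ^ 2 * E := by ring
      _ ≤ K * (ε / 8) := hE
      _ = ε / 8 * K := by ring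
  have hLl : (0.26 * l) ^ 2 ≤ L ^ 2 := pow_le_pow_left₀ (by positivity) hL 2
  have e2 : l / L ^ 2 ≤ ε / 8 := by
    rw [div_le_iff₀ (by positivity)]
    nlinarith
  have e3 : 2 * c₂ / L ^ 2 ≤ ε / 8 := by
    rw [div_le_iff₀ (by positivity)]
    nlinarith
  rw [abs_le]
  constructor
  · have h1 : r₁ * (1 - η) ≤ ρ₁ * l := by
      rw [hρ1, div_mul_eq_mul_div, le_div_iff₀ hly]
      have h2 : r₁ * (1 - η) * ly ≤ r₁ * (1 - η) * ((1 + η) * l) :=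
        mul_le_mul_of_nonneg_left hy (mul_nonneg hr1p.le (by linarith))
      have h3 : r₁ * (1 - η) * ((1 + η) * l) = r₁ * l - r₁ * l * η ^ 2 := by ring
      have h4 : 0 ≤ r₁ * l * η ^ 2 := by positivity
      linarith
    have h2 : 0 ≤ 1 - 1 / L ^ 2 := by
      have h3 : 1 / L ^ 2 ≤ 1 := by
        rw [div_le_one (by positivity)]
        exact one_le_pow₀ hL1
      linarith
    have h3 : (ρ₁ * (K - K / L ^ 2) - J * E) * l / K ≤ N * l / K := by gcongr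
    have h4 : (ρ₁ * (K - K / L ^ 2) - J * E) * l / K = ρ₁ * l * (1 - 1 / L ^ 2) - J * E * l / K := by
      field_simp
    have h5 := mul_le_mul_of_nonneg_right h1 h2
    have h6 : r₁ * (1 - η) * (1 - 1 / L ^ 2) ≥ r₁ - r₁ * η - 2 * c₂ / L ^ 2 := by
      have h7 : r₁ * (1 - η) * (1 - 1 / L ^ 2) = r₁ - r₁ * η - (r₁ * (1 - η)) / L ^ 2 := by ring
      have h8 : (r₁ * (1 - η)) / L ^ 2 ≤ 2 * c₂ / L ^ 2 :=
        div_le_div_of_nonneg_right (by nlinarith) (by positivity)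
      linarith
    have h7 : r₁ * η ≤ ε / 8 := by nlinarith
    linarith
  · have h1 : ρ₂ * l ≤ 2 * c₂ + ε / 2 := by
      rw [hρ2, div_mul_eq_mul_div, div_le_iff₀ hlx]
      have h2 : (2 * c₂ + ε / 2) * ((1 - η) * l) ≤ (2 * c₂ + ε / 2) * lx :=
        mul_le_mul_of_nonneg_left hx (by positivity)
      have h3 : r₂ ≤ (2 * c₂ + ε / 2) * (1 - η) := by nlinarith
      have h4 := mul_le_mul_of_nonneg_right h3 hl0.le
      linarith
    have h3 : N * l / K ≤ (ρ₂ * K + J * E + K / L ^ 2) * l / K := by gcongr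
    have h4 : (ρ₂ * K + J * E + K / L ^ 2) * l / K = ρ₂ * l + J * E * l / K + l / L ^ 2 := by
      field_simp
    linarith

end FINPN

open FINPN in
theorem finp : S_FINP := by
  intro hWIN hCNT hN c c₂ hc hc2 hC2 b hO hCB e he hLaw hRWB ε hε
  have hL : Limit z0 := ⟨Pool.Agent.T2H32.BF.z0_mono, Pool.Agent.T2H32.BF.z0_lim⟩
  have hcnt := (hCNT hWIN z0 hL c c₂ hc hC2 b hO).1
  have hA : (RS z0 (WW c) b).Infinite := EBLN.inf_of_pin hcnt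
  have h00 : 0 ∉ RS z0 (WW c) b := by
    rintro ⟨h, _⟩
    omega
  obtain ⟨r₁, hr1a, hr1b⟩ : ∃ r₁ : ℚ, max 0 (2 * c₂ - ε / 8) < (r₁ : ℝ) ∧ (r₁ : ℝ) < 2 * c₂ :=
    exists_rat_btwn (max_lt (by linarith) (by linarith))
  obtain ⟨r₂, hr2a, hr2b⟩ : ∃ r₂ : ℚ, 2 * c₂ < (r₂ : ℝ) ∧ (r₂ : ℝ) < 2 * c₂ + ε / 8 :=
    exists_rat_btwn (by linarith)
  have hr1p : (0 : ℝ) < r₁ := (le_max_left _ _).trans_lt hr1a
  have hr1c : 2 * c₂ - ε / 8 < r₁ := (le_max_right _ _).trans_lt hr1a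
  have hr2p : (0 : ℝ) < r₂ := by linarith
  have hlaw : ∀ᶠ X : ℕ in atTop, ∀ n K X2 B : ℕ, n ≤ X ^ 2 → K ≤ X ^ 2 → X ≤ X2 → X2 ≤ 2 * X → 1 ≤ B → B ≤ X →
      (∀ j, ((TP e n K).filter fun t => j < t ∧ t ≤ j + 2 * uX X).card ≤ B) →
      (NT z0 (WW c) {0, 2} Set.univ (fun _ => (TP e n K : Set ℕ)) X X2 b : ℝ) ≤
        r₂ / Real.log X * NT z0 (WW c) {0} Set.univ (fun _ => (TP e n K : Set ℕ)) X X2 b +
          (2 * (X : ℝ) ^ (-(0.004 : ℝ)) * (TP e n K).card + B * (X : ℝ) ^ (0.246 : ℝ)) ∧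
      r₁ / Real.log X * NT z0 (WW c) {0} Set.univ (fun _ => (TP e n K : Set ℕ)) X X2 b -
          (2 * (X : ℝ) ^ (-(0.004 : ℝ)) * (TP e n K).card + B * (X : ℝ) ^ (0.246 : ℝ)) ≤
        (NT z0 (WW c) {0, 2} Set.univ (fun _ => (TP e n K : Set ℕ)) X X2 b : ℝ) := by
    filter_upwards [hLaw r₁ r₂ (by exact_mod_cast hr1p) (by exact_mod_cast hr2p), hCB,
      hRWB r₁ r₂ hr1p hr1b hr2a] with X h1 h2 h3 n K X2 B a1 a2 a3 a4 a5 a6 a7
    exact h1 n K X2 B a1 a2 a3 a4 a5 a6 a7 h2 h3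
  obtain ⟨X₀, hX₀⟩ := eventually_atTop.1 hlaw
  have hcε : 0 < 8 * (2 * c₂ + ε) := by positivity
  obtain ⟨η, hη0, hη1, hη2⟩ : ∃ η : ℝ, 0 < η ∧ η ≤ 0.01 ∧ η * (2 * c₂ + ε) ≤ ε / 8 := by
    refine ⟨min 0.01 (ε / (8 * (2 * c₂ + ε))), lt_min (by norm_num) (by positivity), min_le_left _ _, ?_⟩
    calc min 0.01 (ε / (8 * (2 * c₂ + ε))) * (2 * c₂ + ε) ≤ ε / (8 * (2 * c₂ + ε)) * (2 * c₂ + ε) :=
          mul_le_mul_of_nonneg_right (min_le_right _ _) (by positivity)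
      _ = ε / 8 := by field_simp
  have hpin : ∀ᶠ M : ℕ in atTop, M ≤ pin (RS z0 (WW c) b) ⌊2 * ((M : ℝ) * Real.log M ^ 1)⌋₊ := by
    have hcnt' : Tendsto (fun x : ℕ => (pin (RS z0 (WW c) b) x : ℝ) * Real.log x ^ 1 / x) atTop (𝓝 1) := by
      simpa only [pow_one] using hcnt
    have h1 := EBLN.comp11 hcnt' (by norm_num : (0 : ℝ) < 2) (EBLN.floor_ratio 2 (by norm_num) 1)
    filter_upwards [h1.eventually_const_le (by norm_num : (1 : ℝ) < 1 * 2), eventually_ge_atTop 1] with M h2 h3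
    have hM : (0 : ℝ) < M := by exact_mod_cast h3
    rw [le_div_iff₀ hM, one_mul] at h2
    exact_mod_cast h2
  have hev := (facts e η (ε / 8) hη0 hη1 (by linarith) (1000 * (1 + 2 * c₂) / ε) (max X₀ 2)).and hpin
  obtain ⟨N₀, hN₀⟩ := eventually_atTop.1 hev
  refine ⟨N₀, fun n K hn hK hNM hKM => ?_⟩
  obtain ⟨⟨hx, hy, herr, hX0x, hl4, hlC, hb, hM1⟩, hpM⟩ := hN₀ _ hNM
  clear hN₀ hev hpin
  have hK0 : (0 : ℝ) < K := by exact_mod_cast hK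
  have hn0 : (0 : ℝ) < n := by exact_mod_cast hn
  have hKe : K ≤ K ^ e := Nat.le_self_pow (by omega) K
  have hKleM : K ≤ K ^ e * n := hKe.trans (Nat.le_mul_of_pos_right _ hn)
  have hnleM : n ≤ K ^ e * n := Nat.le_mul_of_pos_left _ (by positivity)
  have hKeM : K ^ e ≤ K ^ e * n := Nat.le_mul_of_pos_right _ hn
  obtain ⟨M, hMdef⟩ : ∃ M : ℕ, M = K ^ e * n := ⟨_, rfl⟩
  have hgap1 := BB_window e n K
  have hlow1 := lowt e n K hn hK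
  rw [← hMdef] at hx hy herr hX0x hl4 hlC hb hM1 hpM hKM hKleM hnleM hgap1 hlow1
  rw [← hMdef]
  obtain ⟨x, hxdef⟩ : ∃ x : ℕ, x = ⌊(M : ℝ) / Real.log M ^ (2 * e + 1)⌋₊ := ⟨_, rfl⟩
  obtain ⟨y, hydef⟩ : ∃ y : ℕ, y = ⌊2 * ((M : ℝ) * Real.log M ^ 1)⌋₊ := ⟨_, rfl⟩
  rw [← hxdef] at hx hX0x
  rw [← hydef] at hy hpM
  have hM1' : (1 : ℝ) ≤ M := by exact_mod_cast hM1
  have hM0 : (0 : ℝ) < M := by linarith
  have hL1 : 0.26 * Real.log M ≤ Real.log K := by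
    rw [← Real.log_rpow hM0]
    exact Real.log_le_log (by positivity) hKM
  have hL2 : Real.log K ≤ Real.log M := Real.log_le_log hK0 (by exact_mod_cast hKleM)
  have hL3 : 1 ≤ Real.log K := by linarith
  have hx0 : X₀ ≤ x := (le_max_left _ _).trans hX0x
  have hx2 : 2 ≤ x := (le_max_right _ _).trans hX0x
  have hx0' : (0 : ℝ) < x := by
    have : 0 < x := by omega
    exact_mod_cast this
  have hxM : x ≤ M := by
    have h1 : (x : ℝ) ≤ M := by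
      rw [hxdef]
      refine (Nat.floor_le (by positivity)).trans ?_
      exact div_le_self hM0.le (one_le_pow₀ (by linarith))
    exact_mod_cast h1
  have hMy : M ≤ y := hpM.trans (pin_le _ _)
  have hxy : x ≤ y := hxM.trans hMy
  have hy0' : (0 : ℝ) < y := by
    have : 0 < y := by omega
    exact_mod_cast this
  have hlx : (1 - η) * Real.log M ≤ Real.log x := by
    rw [← Real.log_rpow hM0]
    exact Real.log_le_log (by positivity) hx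
  have hly : Real.log y ≤ (1 + η) * Real.log M := by
    rw [← Real.log_rpow hM0]
    exact Real.log_le_log hy0' hy
  have hlxp : 0 < Real.log x := by nlinarith
  have hlyp : 0 < Real.log y := hlxp.trans_le (Real.log_le_log hx0' (by exact_mod_cast hxy))
  have hMx2 : (M : ℝ) ≤ (x : ℝ) ^ 2 := by
    have h1 : (M : ℝ) ^ (0.99 : ℝ) ≤ x := (Real.rpow_le_rpow_of_exponent_le hM1' (by linarith)).trans hx
    calc (M : ℝ) = (M : ℝ) ^ (1 : ℝ) := (Real.rpow_one _).symm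
      _ ≤ (M : ℝ) ^ ((0.99 : ℝ) * 2) := Real.rpow_le_rpow_of_exponent_le hM1' (by norm_num)
      _ = ((M : ℝ) ^ (0.99 : ℝ)) ^ (2 : ℝ) := by rw [← Real.rpow_mul hM0.le]
      _ = ((M : ℝ) ^ (0.99 : ℝ)) ^ 2 := Real.rpow_two _
      _ ≤ (x : ℝ) ^ 2 := by gcongr
  have hMx2' : M ≤ x ^ 2 := by exact_mod_cast hMx2
  have hJ1 : y ≤ 2 ^ (Nat.log 2 M + 1) * x := by
    have h1 : M < 2 ^ (Nat.log 2 M + 1) := Nat.lt_pow_succ_log_self one_lt_two M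
    have h2 : (y : ℝ) ≤ (M : ℝ) * x := by
      calc (y : ℝ) ≤ (M : ℝ) ^ (1 + η) := hy
        _ ≤ (M : ℝ) ^ (1 + (1 - η)) := Real.rpow_le_rpow_of_exponent_le hM1' (by linarith)
        _ = M * (M : ℝ) ^ (1 - η) := by rw [Real.rpow_add hM0, Real.rpow_one]
        _ ≤ M * x := by gcongr
    have h3 : y ≤ M * x := by exact_mod_cast h2
    exact h3.trans (Nat.mul_le_mul_right x h1.le)
  have hJ2 : ((Nat.log 2 M + 1 : ℕ) : ℝ) ≤ 2 * Real.log M := by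
    have h1 : (2 : ℝ) ^ (Nat.log 2 M) ≤ M := by
      exact_mod_cast Nat.pow_log_le_self 2 (by omega : M ≠ 0)
    have h2 := Real.log_le_log (by positivity) h1
    rw [Real.log_pow] at h2
    have h3 := Real.log_two_gt_d9
    have h4 : (0 : ℝ) ≤ (Nat.log 2 M : ℝ) := Nat.cast_nonneg _
    push_cast
    nlinarith
  have hT : ∀ t ∈ TP e n K, 1 ≤ t ∧ x < rk (RS z0 (WW c) b) t ∧ rk (RS z0 (WW c) b) t ≤ y := by
    intro t ht
    obtain ⟨k, hk, rfl⟩ := mem_TP.1 ht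
    have hk1 := (mem_SP.1 hk).1
    have h1 : x < k ^ e * n := by
      rw [hxdef]
      exact hlow1 (Real.log M) hL3 hL2 (by linarith) k hk
    have h2 : 1 ≤ k ^ e * n := by omega
    obtain ⟨h3, h4⟩ := (hN _ hA h00).2 _ h2
    refine ⟨h2, ?_, ?_⟩
    · have h5 := pin_le (RS z0 (WW c) b) (rk (RS z0 (WW c) b) (k ^ e * n))
      omega
    · by_contra h5
      have h6 := pin_lt (RS z0 (WW c) b) h3 (not_le.1 h5)
      rw [h4] at h6
      have h7 : k ^ e * n ≤ M := by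
        rw [hMdef]
        exact Nat.mul_le_mul_right n (Nat.pow_le_pow_left hk1.2 e)
      omega
  have hE0 : 0 ≤ EE e K M := by
    unfold EE
    have : 0 ≤ Real.log M := by linarith
    positivity
  have hdet := det hN (WW c) b hA e n K he hn (r₁ / Real.log y) (r₂ / Real.log x) (EE e K M)
    (div_nonneg hr2p.le hlxp.le) (div_nonneg hr1p.le hlyp.le) x y (Nat.log 2 M + 1) hxy hJ1 hT (by
      intro X X2 h1 h2 h3 h4
      have hXy : X ≤ y := h2.trans h4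
      have hxX : x ^ 2 ≤ X ^ 2 := Nat.pow_le_pow_left h1 2
      obtain ⟨h5, h6⟩ := hX₀ X (hx0.trans h1) n K X2 (BB e K M y) (by omega) (by omega) h2 h3
        (Nat.le_add_left _ _) (BB_X e K M x y X η hη1 hM1 hx hy hKleM hb h1)
        (hgap1 y X he hn hK hL3 hL2 hXy)
      have h7 := err_le e K M x y X η hη1 hM1 hx hy hKM h1 hXy (TP e n K).card (by
        rw [card_TP e n K he hn]
        exact card_SP_le K)
      have hX0 : (0 : ℝ) < X := by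
        have : 0 < X := by omega
        exact_mod_cast this
      have hlX1 : Real.log x ≤ Real.log X := Real.log_le_log hx0' (by exact_mod_cast h1)
      have hlX2 : Real.log X ≤ Real.log y := Real.log_le_log hX0 (by exact_mod_cast hXy)
      have h8 : (r₂ : ℝ) / Real.log X ≤ r₂ / Real.log x := div_le_div_of_nonneg_left hr2p.le hlxp hlX1
      have h9 : (r₁ : ℝ) / Real.log y ≤ r₁ / Real.log X :=
        div_le_div_of_nonneg_left hr1p.le (hlxp.trans_le hlX1) hlX2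
      have h10 : (0 : ℝ) ≤ (NT z0 (WW c) {0} Set.univ (fun _ => (TP e n K : Set ℕ)) X X2 b : ℝ) := Nat.cast_nonneg _
      have h11 := mul_le_mul_of_nonneg_right h8 h10
      have h12 := mul_le_mul_of_nonneg_right h9 h10
      constructor
      · linarith
      · linarith)
  refine fin_num (Real.log M) (Real.log K) K _ ((Nat.log 2 M + 1 : ℕ) : ℝ) (EE e K M) (r₁ / Real.log y)
    (r₂ / Real.log x) r₁ r₂ c₂ η ε (Real.log x) (Real.log y) hε hl4 hL1 hK0 hη0 hη1 hη2 hr1c hr1b hr1p hr2b hc2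
    hlx hly hlyp rfl rfl hJ2 hE0 ?_ hlC hdet.1 hdet.2
  unfold EE
  have h1 := mul_le_mul_of_nonneg_left herr hK0.le
  linarith

end Pool.Agent.H531.IX
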