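import Pool.Agent.H531.IX.Stm2

set_option autoImplicit false

/-!
# NEA: the two counts agree
-/

namespace Pool.Agent.H531.IX

theorem nea : S_NEA := by
  intro hN A hA h0 n
  obtain ⟨h1, h2⟩ := hN A hA h0
  have himg : {p : ℕ | p ∈ A ∧ p + 2 ∈ A ∧ pin A p < n ∧ 6 * (n - pin A p) - 1 ∈ A ∧ 6 * (n - pin A p) + 1 ∈ A} =
      (fun k => rk A (n - k)) '' {k : ℕ | 1 ≤ k ∧ k < n ∧ 6 * k - 1 ∈ A ∧ 6 * k + 1 ∈ A ∧ rk A (n - k) + 2 ∈ A} := by
    apply Set.Subset.antisymm
    · rintro p ⟨hp, hp2, hpn, h6, h6'⟩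
      obtain ⟨h3, h4⟩ := h1 p hp
      have h5 : n - (n - pin A p) = pin A p := by omega
      refine ⟨n - pin A p, ⟨by omega, by omega, h6, h6', ?_⟩, ?_⟩
      · rw [h5, h3]
        exact hp2
      · show rk A (n - (n - pin A p)) = p
        rw [h5, h3]
    · rintro _ ⟨k, ⟨hk1, hkn, h6, h6', hk2⟩, rfl⟩
      obtain ⟨h3, h4⟩ := h2 (n - k) (by omega)
      have h5 : n - (n - k) = k := by omega
      refine ⟨h3, hk2, ?_, ?_, ?_⟩
      · show pin A (rk A (n - k)) < n
        rw [h4]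
        omega
      · show 6 * (n - pin A (rk A (n - k))) - 1 ∈ A
        rw [h4, h5]
        exact h6
      · show 6 * (n - pin A (rk A (n - k))) + 1 ∈ A
        rw [h4, h5]
        exact h6'
  unfold NE NA
  rw [himg, Set.InjOn.ncard_image]
  intro k hk k' hk' h
  have h3 := (h2 (n - k) (by have := hk.2.1; omega)).2
  have h4 := (h2 (n - k') (by have := hk'.2.1; omega)).2
  have h5 : pin A (rk A (n - k)) = pin A (rk A (n - k')) := congrArg (pin A) h
  rw [h3, h4] at h5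
  have := hk.2.1
  have := hk'.2.1
  omega

end Pool.Agent.H531.IX
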