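import Pool.Agent.H531.IX.Stm2

/-! # NTH: `Nat.nth` and the counting function -/

set_option autoImplicit false

open Finset MeasureTheory ProbabilityTheory Filter Topology

namespace Pool.Agent.H531.IX

namespace NTHN

/-- `pin` as a count -/
theorem pin_eq (A : Set ℕ) (h0 : 0 ∉ A) [DecidablePred (· ∈ A)] (p : ℕ) : pin A p = Nat.count (· ∈ A) (p + 1) := by
  rw [Nat.count_eq_card_filter_range]
  unfold pin
  rw [← Set.ncard_coe_finset]
  congr 1
  ext x
  simp only [Set.mem_inter_iff, Set.mem_Icc, Finset.coe_filter, Finset.mem_range, Set.mem_ofPred_eq]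
  constructor
  · rintro ⟨h1, h2, h3⟩
    exact ⟨by omega, h1⟩
  · rintro ⟨h1, h2⟩
    refine ⟨h2, ?_, by omega⟩
    rcases Nat.eq_zero_or_pos x with h | h
    · rw [h] at h2
      exact absurd h2 h0
    · exact h

end NTHN

open Classical in
theorem nth : S_NTH := by
  intro A hA h0
  refine ⟨fun p hp => ?_, fun m hm => ?_⟩
  · have h1 : pin A p = Nat.count (· ∈ A) p + 1 := by
      rw [NTHN.pin_eq A h0, Nat.count_succ, if_pos hp]
    refine ⟨?_, by omega⟩
    unfold rk
    rw [h1, Nat.add_sub_cancel]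
    exact Nat.nth_count hp
  · have h1 : rk A m ∈ A := Nat.nth_mem_of_infinite hA (m - 1)
    refine ⟨h1, ?_⟩
    rw [NTHN.pin_eq A h0, Nat.count_succ, if_pos h1]
    unfold rk
    rw [Nat.count_nth_of_infinite (p := fun x => x ∈ A) hA]
    omega

end Pool.Agent.H531.IX
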