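import Pool.Agent.H531.IX.Stm2

set_option autoImplicit false

/-!
# REG1: regularity of the set of the indices of MP_ea8352 in windows
-/

open Finset MeasureTheory ProbabilityTheory Filter Topology

namespace Pool.Agent.H531.IX

open Pool.Agent.T2H32.BF (V V_pos V_anti)
open Pool.Agent.H559.BS (Limit V_z_zero)
open Pool.Agent.H559.HY (OK WW)
open Pool.Agent.T2H32.GB (C2)

namespace REG1N

theorem tw_fin (A : Set ℕ) (X Y : ℕ) : {p : ℕ | X < p ∧ p ≤ Y ∧ p ∈ A ∧ p + 2 ∈ A}.Finite :=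
  (Set.finite_Ioc X Y).subset fun _ hp => ⟨hp.1, hp.2.1⟩

/-- the upper bound by twins -/
theorem up (R : Set ℕ) (κ : ℝ) (n j h A0 : ℕ) (h0 : 1 ≤ A0) (h1 : n - (j + h) ≤ A0)
    (h2 : A0 ≤ max ⌈(n : ℝ) ^ (1 - κ)⌉₊ (n - (j + h))) :
    (TE R κ n ∩ Set.Ioc j (j + h)).ncard ≤ tw R (6 * A0 - 2) (6 * A0 - 2 + 6 * h) := by
  unfold tw
  refine Set.ncard_le_ncard_of_injOn (fun m => 6 * (n - m) - 1) ?_ ?_ (tw_fin R _ _)
  · rintro m ⟨⟨hm1, hm2, hm3, hm4⟩, hm5, hm6⟩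
    have hk : ⌈(n : ℝ) ^ (1 - κ)⌉₊ ≤ n - m := Nat.ceil_le.mpr hm2
    have hk2 : n - (j + h) ≤ n - m := by omega
    have hk3 : A0 ≤ n - m := h2.trans (max_le hk hk2)
    have e : 6 * (n - m) - 1 + 2 = 6 * (n - m) + 1 := by omega
    refine ⟨?_, ?_, hm3, ?_⟩
    · omega
    · omega
    · rw [e]
      exact hm4
  · rintro m ⟨⟨hm1, -⟩, -⟩ m' ⟨⟨hm1', -⟩, -⟩ he
    have he' : 6 * (n - m) - 1 = 6 * (n - m') - 1 := he
    omega

/-- the lower bound by twins -/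
theorem low (R : Set ℕ) (κ : ℝ) (n j h A0 : ℕ) (h0 : 1 ≤ A0) (h1 : j + h + A0 = n)
    (h2 : (n : ℝ) ^ (1 - κ) ≤ A0) (h3 : ∀ v, 6 * A0 - 2 < v → v ∈ R → v + 2 ∈ R → v % 6 = 5) :
    tw R (6 * A0 - 2) (6 * A0 - 2 + 6 * h) ≤ (TE R κ n ∩ Set.Ioc j (j + h)).ncard := by
  unfold tw
  refine Set.ncard_le_ncard_of_injOn (fun p => n - (p + 1) / 6) ?_ ?_
    ((Set.finite_Ioc j (j + h)).subset Set.inter_subset_right)
  · rintro p ⟨hp1, hp2, hp3, hp4⟩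
    have hp5 := h3 p hp1 hp3 hp4
    have hk : (p + 1) / 6 * 6 = p + 1 := by omega
    obtain ⟨k, hkd⟩ : ∃ k, k = (p + 1) / 6 := ⟨_, rfl⟩
    change n - (p + 1) / 6 ∈ _
    rw [← hkd] at hk ⊢
    have hk1 : A0 ≤ k := by omega
    have hk2 : k < A0 + h := by omega
    have hkn : n - (n - k) = k := by omega
    refine ⟨⟨by omega, ?_, ?_, ?_⟩, by omega, by omega⟩
    · rw [hkn]
      exact h2.trans (by exact_mod_cast hk1)
    · rw [hkn, show 6 * k - 1 = p by omega]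
      exact hp3
    · rw [hkn, show 6 * k + 1 = p + 2 by omega]
      exact hp4
  · rintro p ⟨hp1, hp2, hp3, hp4⟩ p' ⟨hp1', hp2', hp3', hp4'⟩ he
    have hp5 := h3 p hp1 hp3 hp4
    have hp5' := h3 p' hp1' hp3' hp4'
    have he' : n - (p + 1) / 6 = n - (p' + 1) / 6 := he
    omega

/-- large twins are `5` modulo `6` -/
theorem mod6 (hSM : S_SMALL) (z : ℕ → ℕ) (hz : Limit z) (c : ℝ) (hc : 1 < c) (b : ℕ → ℕ) :
    ∀ᶠ X : ℕ in atTop, ∀ v, X < v → v ∈ RS z (WW c) b → v + 2 ∈ RS z (WW c) b → v % 6 = 5 := by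
  obtain ⟨-, hWm, hW3⟩ := hSM c (by linarith)
  have hz3 : ∀ᶠ X : ℕ in atTop, 3 ≤ z X := by
    have h1 := (V_z_zero z hz).eventually_lt_const (V_pos 2)
    filter_upwards [h1] with X hX
    by_contra hcon
    exact absurd (V_anti (show z X ≤ 2 by omega)) (not_le.mpr hX)
  filter_upwards [hz3, hW3] with X hX1 hX2 v hv h1 h2
  have a1 : 3 ≤ z v := hX1.trans (hz.1 hv.le)
  have a2 : 3 ≤ z (v + 2) := a1.trans (hz.1 (by omega))
  have b1 : 3 ≤ WW c v := hX2.trans (hWm hv.le)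
  have b2 : 3 ≤ WW c (v + 2) := b1.trans (hWm (by omega))
  have c1 := h1.2 2 (by omega) Nat.prime_two
  have c2 := h1.2 3 a1 Nat.prime_three
  have c3 := h2.2 3 a2 Nat.prime_three
  rw [if_pos (by omega)] at c1 c2 c3
  have d1 : v % 2 = 1 := by omega
  have d2 : v % 3 = 2 := by omega
  omega

/-- the number of the twins in the windows -/
theorem key (hWIN : S_WIN) (z : ℕ → ℕ) (hz : Limit z) (c c₂ : ℝ) (hc : 1 < c)
    (hC2 : Tendsto C2 atTop (𝓝 c₂)) (b : ℕ → ℕ) (hOK : OK z (WW c) b) (α κ ε : ℝ) (hα : 0 < α)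
    (hκ : κ ≤ 1 / 4) (hε : 0 < ε) :
    ∀ᶠ n : ℕ in atTop, ∀ A0 h : ℕ, (n : ℝ) ^ (1 - κ) ≤ A0 → A0 ≤ n → (n : ℝ) ^ α ≤ h →
      (h : ℝ) ≤ (n : ℝ) ^ (1 / 2 : ℝ) →
      |(tw (RS z (WW c) b) (6 * A0 - 2) (6 * A0 - 2 + 6 * h) : ℝ) *
        Real.log ((6 * A0 - 2 : ℕ) : ℝ) ^ 2 / (6 * h) - 2 * c₂| ≤ ε := by
  obtain ⟨N0, hN0⟩ := eventually_atTop.mp (hWIN z hz c c₂ hc hC2 b hOK (α / 2) ε (by linarith) hε)
  have t1 : Tendsto (fun n : ℕ => (n : ℝ) ^ (1 - κ)) atTop atTop :=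
    (tendsto_rpow_atTop (by linarith)).comp tendsto_natCast_atTop_atTop
  have t2 : Tendsto (fun n : ℕ => (n : ℝ) ^ (1 / 4 : ℝ)) atTop atTop :=
    (tendsto_rpow_atTop (by norm_num)).comp tendsto_natCast_atTop_atTop
  filter_upwards [t1.eventually_ge_atTop (N0 : ℝ), t2.eventually_ge_atTop 2,
    eventually_ge_atTop 6] with n h1 h2 h3 A0 h hA1 hA2 hh1 hh2
  have hn6 : (6 : ℝ) ≤ n := by exact_mod_cast h3
  have hn0 : (0 : ℝ) < n := by linarith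
  have hA0 : 0 < A0 := by
    have : (0 : ℝ) < A0 := lt_of_lt_of_le (Real.rpow_pos_of_pos hn0 _) hA1
    exact_mod_cast this
  have hNX : N0 ≤ 6 * A0 - 2 := by
    have : (N0 : ℝ) ≤ A0 := h1.trans hA1
    have : N0 ≤ A0 := by exact_mod_cast this
    omega
  have hXn : 6 * A0 - 2 ≤ 6 * n := by omega
  have e1 : (((6 * A0 - 2 : ℕ) : ℕ) : ℝ) ^ (α / 2) ≤ ((6 * h : ℕ) : ℝ) := by
    have g1 : (((6 * A0 - 2 : ℕ) : ℕ) : ℝ) ≤ (n : ℝ) ^ (2 : ℝ) := by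
      have : (((6 * A0 - 2 : ℕ) : ℕ) : ℝ) ≤ 6 * n := by exact_mod_cast hXn
      rw [Real.rpow_two]
      nlinarith
    calc (((6 * A0 - 2 : ℕ) : ℕ) : ℝ) ^ (α / 2) ≤ ((n : ℝ) ^ (2 : ℝ)) ^ (α / 2) :=
          Real.rpow_le_rpow (Nat.cast_nonneg _) g1 (by linarith)
      _ = (n : ℝ) ^ α := by
          rw [← Real.rpow_mul hn0.le]
          congr 1
          ring
      _ ≤ h := hh1
      _ ≤ ((6 * h : ℕ) : ℝ) := by
          push_cast
          have : (0 : ℝ) ≤ h := Nat.cast_nonneg h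
          linarith
  have e2 : 6 * h ≤ 6 * A0 - 2 := by
    have g1 : (n : ℝ) ^ (1 / 2 : ℝ) * (n : ℝ) ^ (1 / 4 : ℝ) ≤ A0 := by
      rw [← Real.rpow_add hn0]
      refine (Real.rpow_le_rpow_of_exponent_le (by linarith) ?_).trans hA1
      linarith
    have g2 : (1 : ℝ) ≤ (n : ℝ) ^ (1 / 2 : ℝ) := Real.one_le_rpow (by linarith) (by norm_num)
    have g3 : (h : ℝ) + 1 ≤ A0 := by nlinarith
    have g4 : h + 1 ≤ A0 := by exact_mod_cast g3
    omega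
  have key := (hN0 (6 * A0 - 2) hNX (6 * h) e1 e2).2
  push_cast at key ⊢
  exact key

end REG1N

open REG1N in
/-- regularity of the set of the possible indices in windows -/
theorem reg1 : S_REG1 := by
  intro hWIN hSM z hz c c₂ hc hc₂ hC2 b hOK α κ ε₀ hα hκ0 hκ hε₀
  -- reduction to `ε ≤ 1`
  obtain ⟨ε, hεd⟩ : ∃ ε, ε = min ε₀ 1 := ⟨_, rfl⟩
  have hε : 0 < ε := by rw [hεd]; exact lt_min hε₀ one_pos
  have hε1 : ε ≤ 1 := by rw [hεd]; exact min_le_right _ _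
  have hε2 : ε ≤ ε₀ := by rw [hεd]; exact min_le_left _ _
  have hkey := key hWIN z hz c c₂ hc hC2 b hOK α κ (c₂ * ε) hα hκ (by positivity)
  obtain ⟨N1, hN1⟩ := eventually_atTop.mp (mod6 hSM z hz c hc b)
  have t1 : Tendsto (fun n : ℕ => (n : ℝ) ^ (1 - κ)) atTop atTop :=
    (tendsto_rpow_atTop (by linarith)).comp tendsto_natCast_atTop_atTop
  have t2 : Tendsto (fun n : ℕ => Real.log n) atTop atTop :=
    Real.tendsto_log_atTop.comp tendsto_natCast_atTop_atTop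
  filter_upwards [hkey, t1.eventually_ge_atTop ((N1 : ℝ) + 1),
    t2.eventually_ge_atTop (8 * Real.log 6 / ε), eventually_ge_atTop 2] with n hk hn1 hn2 hn3
    j h hh1 hh2
  obtain ⟨R, hR⟩ : ∃ R, R = RS z (WW c) b := ⟨_, rfl⟩
  rw [← hR] at hk hN1 ⊢
  have hn0 : (0 : ℝ) < n := by
    have : 0 < n := by omega
    exact_mod_cast this
  have hn1' : (1 : ℝ) < n := by
    have : 1 < n := by omega
    exact_mod_cast this
  have hL : 0 < Real.log n := Real.log_pos hn1'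
  have hh0 : (0 : ℝ) < h := lt_of_lt_of_le (Real.rpow_pos_of_pos hn0 _) hh1
  have hκ1 : 0 < 1 - κ := by linarith
  have han : ⌈(n : ℝ) ^ (1 - κ)⌉₊ ≤ n := by
    rw [Nat.ceil_le]
    calc (n : ℝ) ^ (1 - κ) ≤ (n : ℝ) ^ (1 : ℝ) :=
          Real.rpow_le_rpow_of_exponent_le hn1'.le (by linarith)
      _ = n := Real.rpow_one _
  constructor
  · -- upper bound
    obtain ⟨A0, hA0⟩ : ∃ A0, A0 = max ⌈(n : ℝ) ^ (1 - κ)⌉₊ (n - (j + h)) := ⟨_, rfl⟩
    have hA1 : (n : ℝ) ^ (1 - κ) ≤ A0 := by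
      rw [hA0]
      exact (Nat.le_ceil _).trans (by exact_mod_cast le_max_left _ _)
    have hA2 : A0 ≤ n := by
      rw [hA0]
      exact max_le han (Nat.sub_le _ _)
    have hA3 : 1 ≤ A0 := by
      have : (0 : ℝ) < A0 := lt_of_lt_of_le (Real.rpow_pos_of_pos hn0 _) hA1
      exact_mod_cast this
    have hup := up R κ n j h A0 hA3 (by rw [hA0]; exact le_max_right _ _) hA0.le
    have hup' : ((TE R κ n ∩ Set.Ioc j (j + h)).ncard : ℝ) ≤
        tw R (6 * A0 - 2) (6 * A0 - 2 + 6 * h) := by exact_mod_cast hup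
    have hk1 := (abs_le.mp (hk A0 h hA1 hA2 hh1 hh2)).2
    obtain ⟨T, hT⟩ : ∃ T : ℝ, T = tw R (6 * A0 - 2) (6 * A0 - 2 + 6 * h) := ⟨_, rfl⟩
    rw [← hT] at hk1 hup'
    have hT0 : 0 ≤ T := by rw [hT]; exact Nat.cast_nonneg _
    obtain ⟨L, hLd⟩ : ∃ L, L = Real.log ((6 * A0 - 2 : ℕ) : ℝ) := ⟨_, rfl⟩
    rw [← hLd] at hk1
    have hL1 : (1 - κ) * Real.log n ≤ L := by
      rw [hLd, ← Real.log_rpow hn0]
      refine Real.log_le_log (Real.rpow_pos_of_pos hn0 _) (hA1.trans ?_)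
      have : A0 ≤ 6 * A0 - 2 := by omega
      exact_mod_cast this
    have hL2 : (1 - κ) ^ 2 * Real.log n ^ 2 ≤ L ^ 2 := by
      rw [← mul_pow]
      exact pow_le_pow_left₀ (by positivity) hL1 2
    have hk2 : T * L ^ 2 ≤ (2 * c₂ + c₂ * ε) * (6 * h) := by
      rw [← div_le_iff₀ (by positivity)]
      linarith
    have hk3 : T * ((1 - κ) ^ 2 * Real.log n ^ 2) ≤ (2 * c₂ + c₂ * ε) * (6 * h) :=
      (mul_le_mul_of_nonneg_left hL2 hT0).trans hk2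
    refine hup'.trans ?_
    rw [div_mul_eq_mul_div, le_div_iff₀ (by positivity)]
    refine hk3.trans ?_
    have : 0 < c₂ * h := by positivity
    nlinarith
  · -- lower bound
    intro hj
    obtain ⟨A0, hA0⟩ : ∃ A0, j + h + A0 = n := by
      have : j + h ≤ n := by
        have h5 : (0 : ℝ) ≤ 2 * (n : ℝ) ^ (1 - κ) := by positivity
        have h6 : ((j + h : ℕ) : ℝ) ≤ n := by push_cast; linarith
        exact_mod_cast h6
      exact ⟨n - (j + h), by omega⟩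
    have hA1 : 2 * (n : ℝ) ^ (1 - κ) ≤ A0 := by
      have h5 : (j : ℝ) + h + A0 = n := by exact_mod_cast hA0
      linarith
    have hp : (0 : ℝ) < (n : ℝ) ^ (1 - κ) := Real.rpow_pos_of_pos hn0 _
    have hA1' : (n : ℝ) ^ (1 - κ) ≤ A0 := by linarith
    have hA2 : A0 ≤ n := by omega
    have hA3 : 1 ≤ A0 := by
      have : (0 : ℝ) < A0 := by linarith
      exact_mod_cast this
    have hNA : N1 ≤ 6 * A0 - 2 := by
      have h5 : (N1 : ℝ) ≤ A0 := by linarith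
      have h6 : N1 ≤ A0 := by exact_mod_cast h5
      omega
    have hlow := low R κ n j h A0 hA3 hA0 hA1' (hN1 (6 * A0 - 2) hNA)
    have hlow' : (tw R (6 * A0 - 2) (6 * A0 - 2 + 6 * h) : ℝ) ≤
        ((TE R κ n ∩ Set.Ioc j (j + h)).ncard : ℝ) := by exact_mod_cast hlow
    have hk1 := (abs_le.mp (hk A0 h hA1' hA2 hh1 hh2)).1
    obtain ⟨T, hT⟩ : ∃ T : ℝ, T = tw R (6 * A0 - 2) (6 * A0 - 2 + 6 * h) := ⟨_, rfl⟩
    rw [← hT] at hk1 hlow'
    have hT0 : 0 ≤ T := by rw [hT]; exact Nat.cast_nonneg _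
    obtain ⟨L, hLd⟩ : ∃ L, L = Real.log ((6 * A0 - 2 : ℕ) : ℝ) := ⟨_, rfl⟩
    rw [← hLd] at hk1
    have h64 : (4 : ℝ) ≤ ((6 * A0 - 2 : ℕ) : ℝ) := by
      have : 4 ≤ 6 * A0 - 2 := by omega
      exact_mod_cast this
    have hL0 : 0 ≤ L := by
      rw [hLd]
      exact Real.log_nonneg (by linarith)
    have hl6 : 0 < Real.log 6 := Real.log_pos (by norm_num)
    have hL1 : L ≤ Real.log 6 + Real.log n := by
      rw [hLd, ← Real.log_mul (by norm_num) hn0.ne']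
      refine Real.log_le_log (by linarith) ?_
      have : 6 * A0 - 2 ≤ 6 * n := by omega
      exact_mod_cast this
    have hn2' : 8 * Real.log 6 ≤ ε * Real.log n := by
      rw [div_le_iff₀ hε] at hn2
      linarith
    have hL2 : L ≤ (1 + ε / 8) * Real.log n := by linarith
    have hL3 : L ^ 2 ≤ (1 + ε / 8) ^ 2 * Real.log n ^ 2 := by
      rw [← mul_pow]
      exact pow_le_pow_left₀ hL0 hL2 2
    have hk2 : (2 * c₂ - c₂ * ε) * (6 * h) ≤ T * L ^ 2 := by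
      rw [← le_div_iff₀ (by positivity)]
      linarith
    have hk3 : (2 * c₂ - c₂ * ε) * (6 * h) ≤ T * ((1 + ε / 8) ^ 2 * Real.log n ^ 2) :=
      hk2.trans (mul_le_mul_of_nonneg_left hL3 hT0)
    refine le_trans ?_ hlow'
    rw [div_mul_eq_mul_div, div_le_iff₀ (by positivity)]
    have hc3 : (1 - ε / 2) * (1 + ε / 8) ^ 2 ≤ 1 := by nlinarith [mul_pos hε hε, mul_pos (mul_pos hε hε) hε]
    have hX0 : 0 ≤ T * Real.log n ^ 2 := by positivity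
    have h7 : (1 - ε / 2) * ((2 * c₂ - c₂ * ε) * (6 * h)) ≤ T * Real.log n ^ 2 := by
      calc (1 - ε / 2) * ((2 * c₂ - c₂ * ε) * (6 * h))
          ≤ (1 - ε / 2) * (T * ((1 + ε / 8) ^ 2 * Real.log n ^ 2)) :=
            mul_le_mul_of_nonneg_left hk3 (by linarith)
        _ = ((1 - ε / 2) * (1 + ε / 8) ^ 2) * (T * Real.log n ^ 2) := by ring
        _ ≤ 1 * (T * Real.log n ^ 2) := mul_le_mul_of_nonneg_right hc3 hX0
        _ = T * Real.log n ^ 2 := one_mul _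
    refine le_trans ?_ h7
    have h8 : 0 < c₂ * h := by positivity
    have h9 : (1 - ε₀) ≤ (1 - ε / 2) * (1 - ε / 2) := by nlinarith
    calc (1 - ε₀) * (12 * c₂) * h = (1 - ε₀) * (12 * (c₂ * h)) := by ring
      _ ≤ ((1 - ε / 2) * (1 - ε / 2)) * (12 * (c₂ * h)) :=
          mul_le_mul_of_nonneg_right h9 (by positivity)
      _ = (1 - ε / 2) * ((2 * c₂ - c₂ * ε) * (6 * h)) := by ring

end Pool.Agent.H531.IX
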