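import Pool.Agent.H531.IX.Stm2

set_option autoImplicit false

/-!
# Growth of `⌊(log v)^c⌋`
-/

open Finset MeasureTheory ProbabilityTheory Filter Topology

namespace Pool.Agent.H531.IX

open Pool.Agent.H559.HY (OK WW Cut)

namespace SMALLN

theorem mono (c : ℝ) (hc : 0 ≤ c) : Monotone (WW c) := by
  intro m n hmn
  show ⌊Real.log m ^ c⌋₊ ≤ ⌊Real.log n ^ c⌋₊
  refine Nat.floor_le_floor ?_
  rcases Nat.eq_zero_or_pos m with h | h
  · rcases Nat.eq_zero_or_pos n with h' | h'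
    · rw [h, h']
    · rw [h, Nat.cast_zero, Real.log_zero]
      have h1 : (0 : ℝ) ≤ Real.log n := Real.log_natCast_nonneg n
      exact Real.rpow_le_rpow le_rfl h1 hc
  · have h1 : (0 : ℝ) < m := by exact_mod_cast h
    have h2 : (m : ℝ) ≤ n := by exact_mod_cast hmn
    exact Real.rpow_le_rpow (Real.log_natCast_nonneg m) (Real.log_le_log h1 h2) hc

theorem upper (c : ℝ) : ∀ᶠ v : ℕ in atTop, (WW c v : ℝ) ≤ (v : ℝ) ^ (0.1 : ℝ) := by
  have h1 : (fun x : ℝ => Real.log x ^ c) =o[atTop] fun x : ℝ => x ^ (0.1 : ℝ) :=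
    isLittleO_log_rpow_rpow_atTop c (by norm_num)
  have h2 := (h1.bound (show (0 : ℝ) < 1 by norm_num))
  have h3 := tendsto_natCast_atTop_atTop (R := ℝ) |>.eventually h2
  filter_upwards [h3] with v hv
  have h4 : 0 ≤ Real.log v ^ c := Real.rpow_nonneg (Real.log_natCast_nonneg v) c
  have h5 : 0 ≤ (v : ℝ) ^ (0.1 : ℝ) := Real.rpow_nonneg (Nat.cast_nonneg v) _
  rw [one_mul, Real.norm_of_nonneg h4, Real.norm_of_nonneg h5] at hv
  exact (Nat.floor_le h4).trans hv

theorem lower (c : ℝ) (hc : 0 < c) : ∀ᶠ v : ℕ in atTop, 3 ≤ WW c v := by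
  have h1 : Tendsto (fun v : ℕ => Real.log v ^ c) atTop atTop :=
    (tendsto_rpow_atTop hc).comp (Real.tendsto_log_atTop.comp tendsto_natCast_atTop_atTop)
  filter_upwards [h1.eventually_ge_atTop 3] with v hv
  exact Nat.le_floor (by exact_mod_cast hv)

end SMALLN

/-- **SMALL** -/
theorem small : S_SMALL := fun c hc => ⟨SMALLN.upper c, SMALLN.mono c hc.le, SMALLN.lower c hc⟩

end Pool.Agent.H531.IX
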