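import Pool.Agent.H531.IX.Stm2

set_option autoImplicit false

/-! # WIN (helper909, for helper531): random primes and twins in all windows -/

open Finset MeasureTheory ProbabilityTheory Filter Topology

namespace Pool.Agent.H531.IX

open Pool.Agent.T2H32.BF (Model z0 V)
open Pool.Agent.H559.BS (Limit)
open Pool.Agent.H559.HY (OK WW Cut)
open Pool.Agent.T2H32.GB (C2)

namespace WINN

theorem card0 (p : ℕ) : ((({0} : Finset ℕ).image (· % p)).card : ℝ) = 1 := by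
  rw [Finset.image_singleton, Finset.card_singleton, Nat.cast_one]

theorem pS0 (x : ℕ) : Pool.Agent.H559.SI.pS {0} x = 1 := by
  unfold Pool.Agent.H559.SI.pS
  refine Finset.prod_eq_one fun p hp => ?_
  have hp' : p.Prime := (Finset.mem_filter.1 hp).2
  have h2 : (2 : ℝ) ≤ p := by exact_mod_cast hp'.two_le
  have h5 : 1 - 1 / (p : ℝ) ≠ 0 := by
    have : 1 / (p : ℝ) ≤ 1 / 2 := one_div_le_one_div_of_le (by norm_num) h2
    linarith
  rw [card0, Finset.card_singleton, pow_one, div_self h5]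

theorem pS2 (x : ℕ) (hx : 2 ≤ x) : Pool.Agent.H559.SI.pS {0, 2} x = 2 * C2 x := by
  have hnu2 : (({0, 2} : Finset ℕ).image (· % 2)).card = 1 := by decide
  have hnup : ∀ p : ℕ, p.Prime → p ≠ 2 → (({0, 2} : Finset ℕ).image (· % p)).card = 2 := by
    intro p hp h2
    have h3 : 2 < p := lt_of_le_of_ne hp.two_le (Ne.symm h2)
    rw [Finset.image_insert, Finset.image_singleton, Nat.zero_mod, Nat.mod_eq_of_lt h3,
      Finset.card_pair (by norm_num)]
  have hcard : ({0, 2} : Finset ℕ).card = 2 := by decide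
  have hset : ((Finset.range (x + 1)).filter Nat.Prime).erase 2 =
      (Finset.range (x + 1)).filter (fun p => p.Prime ∧ p ≠ 2) := by
    ext p
    simp only [Finset.mem_erase, Finset.mem_filter]
    tauto
  unfold Pool.Agent.H559.SI.pS C2
  rw [← Finset.mul_prod_erase ((Finset.range (x + 1)).filter Nat.Prime) _
    (Finset.mem_filter.2 ⟨Finset.mem_range.2 (by omega : 2 < x + 1), Nat.prime_two⟩), hnu2,
    hcard, hset]
  have h1 : (1 - ((1 : ℕ) : ℝ) / ((2 : ℕ) : ℝ)) / (1 - 1 / ((2 : ℕ) : ℝ)) ^ 2 = 2 := by norm_num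
  rw [h1]
  refine congrArg (fun t : ℝ => 2 * t) ?_
  refine Finset.prod_congr rfl fun p hp => ?_
  obtain ⟨-, hp1, hp2⟩ := Finset.mem_filter.1 hp
  rw [hnup p hp1 hp2]
  have h2 : (2 : ℝ) ≤ p := by exact_mod_cast hp1.two_le
  have h3 : (p : ℝ) ≠ 0 := by linarith
  have h4 : (p : ℝ) - 1 ≠ 0 := by linarith
  have h5 : 1 - 1 / (p : ℝ) ≠ 0 := by
    have : 1 / (p : ℝ) ≤ 1 / 2 := one_div_le_one_div_of_le (by norm_num) h2
    linarith
  push_cast
  field_simp
  ring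

theorem pin_add (A : Set ℕ) (X y : ℕ) :
    pin A (X + y) = pin A X + Pool.Agent.H559.SI.cH A {0} X y := by
  unfold pin Pool.Agent.H559.SI.cH
  have h1 : {n : ℕ | X < n ∧ n ≤ X + y ∧ ∀ h ∈ ({0} : Finset ℕ), n + h ∈ A} =
      {n : ℕ | X < n ∧ n ≤ X + y ∧ n ∈ A} := by
    ext n
    simp
  have h2 : A ∩ Set.Icc 1 (X + y) = (A ∩ Set.Icc 1 X) ∪ {n : ℕ | X < n ∧ n ≤ X + y ∧ n ∈ A} := by
    ext n
    simp only [Set.mem_inter_iff, Set.mem_Icc, Set.mem_union, Set.mem_ofPred_eq]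
    constructor
    · rintro ⟨h3, h4, h5⟩
      by_cases h6 : n ≤ X
      · exact Or.inl ⟨h3, h4, h6⟩
      · exact Or.inr ⟨by omega, h5, h3⟩
    · rintro (⟨h3, h4, h5⟩ | ⟨h3, h4, h5⟩)
      · exact ⟨h3, h4, by omega⟩
      · exact ⟨h5, by omega, h4⟩
  rw [h1, h2]
  refine Set.ncard_union_eq ?_ ?_ ?_
  · rw [Set.disjoint_left]
    rintro n ⟨-, -, h3⟩ ⟨h4, -, -⟩
    omega
  · exact (Set.finite_Icc 1 X).subset Set.inter_subset_right
  · exact (Set.finite_Icc 0 (X + y)).subset fun n hn => ⟨Nat.zero_le _, hn.2.1⟩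

theorem tw_eq (A : Set ℕ) (X y : ℕ) :
    tw A X (X + y) = Pool.Agent.H559.SI.cH A {0, 2} X y := by
  unfold tw Pool.Agent.H559.SI.cH
  have h1 : {n : ℕ | X < n ∧ n ≤ X + y ∧ ∀ h ∈ ({0, 2} : Finset ℕ), n + h ∈ A} =
      {p : ℕ | X < p ∧ p ≤ X + y ∧ p ∈ A ∧ p + 2 ∈ A} := by
    ext n
    simp
  rw [h1]

end WINN

open WINN in
theorem win : S_WIN := by
  intro z hz c c₂ hc hC2 b hOK δ ε hδ hε
  have hcut : Cut (WW c) := Pool.Agent.H559.HY.cut_WW c hc
  have e : RS z (WW c) b = Pool.Agent.H559.HY.RS z (WW c) b := rfl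
  have hS0 : Tendsto (Pool.Agent.H559.SI.pS {0}) atTop (𝓝 1) := by
    refine tendsto_const_nhds.congr fun x => ?_
    exact (pS0 x).symm
  have hS2 : Tendsto (Pool.Agent.H559.SI.pS {0, 2}) atTop (𝓝 (2 * c₂)) := by
    refine (hC2.const_mul 2).congr' ?_
    filter_upwards [eventually_ge_atTop 2] with x hx
    exact (pS2 x hx).symm
  have h1 := Pool.Agent.H559.SI.tup z (WW c) hz hcut b hOK {0} 1 hS0 δ ε hδ hε
  have h2 := Pool.Agent.H559.SI.tup z (WW c) hz hcut b hOK {0, 2} (2 * c₂) hS2 δ ε hδ hε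
  have hc1 : ({0} : Finset ℕ).card = 1 := by decide
  have hc2 : ({0, 2} : Finset ℕ).card = 2 := by decide
  rw [hc1] at h1
  rw [hc2] at h2
  filter_upwards [h1, h2] with X h3 h4 y hy1 hy2
  have h5 := h3 y hy1 hy2
  have h6 := h4 y hy1 hy2
  rw [e]
  refine ⟨?_, ?_⟩
  · rw [pin_add, Nat.cast_add, add_sub_cancel_left]
    rw [pow_one] at h5
    exact h5
  · rw [tw_eq]
    exact h6

end Pool.Agent.H531.IX
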