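import Pool.Agent.H531.IX.Stm2

set_option autoImplicit false

open Finset MeasureTheory ProbabilityTheory Filter Topology

namespace Pool.Agent.H531.IX

open Pool.Agent.T2H32.BF (Model z0 V)
open Pool.Agent.H559.BS (Limit)

namespace ZDN

/-- `log v / log ⌊δ v⌋ → 1`. -/
theorem log_ratio (δ : ℝ) (hδ : 0 < δ) (hδ1 : δ ≤ 1) :
    Tendsto (fun v : ℕ => Real.log v / Real.log (⌊δ * (v : ℝ)⌋₊ : ℝ)) atTop (𝓝 1) := by
  have hv : Tendsto (fun v : ℕ => δ * (v : ℝ)) atTop atTop :=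
    tendsto_natCast_atTop_atTop.const_mul_atTop hδ
  have h1 : Tendsto (fun v : ℕ => ⌊δ * (v : ℝ)⌋₊) atTop atTop := tendsto_nat_floor_atTop.comp hv
  have h1l : Tendsto (fun v : ℕ => Real.log (⌊δ * (v : ℝ)⌋₊ : ℝ)) atTop atTop :=
    Real.tendsto_log_atTop.comp (tendsto_natCast_atTop_atTop.comp h1)
  have h0 : Tendsto (fun v : ℕ => (Real.log v - Real.log (⌊δ * (v : ℝ)⌋₊ : ℝ)) /
      Real.log (⌊δ * (v : ℝ)⌋₊ : ℝ)) atTop (𝓝 0) := by
    have hb : Tendsto (fun v : ℕ => Real.log (2 / δ) / Real.log (⌊δ * (v : ℝ)⌋₊ : ℝ)) atTop (𝓝 0) :=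
      h1l.const_div_atTop _
    refine squeeze_zero_norm' ?_ hb
    filter_upwards [hv.eventually_ge_atTop 2, h1l.eventually_gt_atTop 0] with v h2 hl
    have hfl : δ * (v : ℝ) / 2 ≤ (⌊δ * (v : ℝ)⌋₊ : ℝ) := by
      have := Nat.lt_floor_add_one (δ * (v : ℝ))
      linarith
    have hfu : (⌊δ * (v : ℝ)⌋₊ : ℝ) ≤ δ * (v : ℝ) := Nat.floor_le (by linarith)
    have hvpos : (0 : ℝ) < v := by
      by_contra hcon
      have : (v : ℝ) ≤ 0 := not_lt.mp hcon
      nlinarith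
    have hpos : (0 : ℝ) < (⌊δ * (v : ℝ)⌋₊ : ℝ) := by linarith
    have hle : Real.log (⌊δ * (v : ℝ)⌋₊ : ℝ) ≤ Real.log v := by
      apply Real.log_le_log hpos
      nlinarith
    have hge : Real.log v - Real.log (⌊δ * (v : ℝ)⌋₊ : ℝ) ≤ Real.log (2 / δ) := by
      rw [← Real.log_div hvpos.ne' hpos.ne']
      apply Real.log_le_log (div_pos hvpos hpos)
      rw [div_le_div_iff₀ hpos hδ]
      nlinarith
    rw [Real.norm_eq_abs, abs_div, abs_of_nonneg (by linarith), abs_of_pos hl]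
    gcongr
  have h3 := h0.add_const 1
  rw [zero_add] at h3
  refine h3.congr' ?_
  filter_upwards [h1l.eventually_gt_atTop 0] with v hl
  field_simp
  ring

end ZDN

theorem zd_limit : S_ZD := by
  intro δ hδ hδ1
  refine ⟨?_, ?_⟩
  · intro a b hab
    refine Pool.Agent.T2H32.BF.z0_mono (Nat.floor_mono ?_)
    have : (a : ℝ) ≤ b := by exact_mod_cast hab
    nlinarith
  · have hv : Tendsto (fun v : ℕ => δ * (v : ℝ)) atTop atTop :=
      tendsto_natCast_atTop_atTop.const_mul_atTop hδ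
    have h1 : Tendsto (fun v : ℕ => ⌊δ * (v : ℝ)⌋₊) atTop atTop := tendsto_nat_floor_atTop.comp hv
    have h1l : Tendsto (fun v : ℕ => Real.log (⌊δ * (v : ℝ)⌋₊ : ℝ)) atTop atTop :=
      Real.tendsto_log_atTop.comp (tendsto_natCast_atTop_atTop.comp h1)
    have h2 := (Pool.Agent.T2H32.BF.z0_lim.comp h1).mul (ZDN.log_ratio δ hδ hδ1)
    rw [one_mul] at h2
    refine h2.congr' ?_
    filter_upwards [h1l.eventually_gt_atTop 0] with v hl
    simp only [Function.comp_apply, zd]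
    field_simp

end Pool.Agent.H531.IX
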