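import Pool.Agent.H531.IX.Eng
import Pool.Agent.H531.IX.SMALL
import Pool.Agent.H531.IX.NTH
import Pool.Agent.H531.IX.ZD
import Pool.Agent.H531.IX.WIN
import Pool.Agent.H531.IX.CBE
import Pool.Agent.H531.IX.REG1
import Pool.Agent.H531.IX.AEE
import Pool.Agent.H531.IX.EAU
import Pool.Agent.H531.IX.EAL
import Pool.Agent.H531.IX.NEA

set_option autoImplicit false

/-!
# The asymptotic number of the decompositions of MP_ea8352
-/

open Finset MeasureTheory ProbabilityTheory Filter Topology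

namespace Pool.Agent.H531.IX

open Pool.Agent.T2H32.BF (Model z0 V)
open Pool.Agent.H559.BS (Limit)
open Pool.Agent.H559.HY (OK WW Cut)
open Pool.Agent.T2H32.GB (C2)

theorem limit_z0 : Limit z0 := ⟨Pool.Agent.T2H32.BF.z0_mono, Pool.Agent.T2H32.BF.z0_lim⟩

theorem zero_notMem (z W : ℕ → ℕ) (b : ℕ → ℕ) : 0 ∉ RS z W b := by
  intro h
  have h1 : 3 ≤ 0 := h.1
  omega

/-- the set of the random primes is infinite -/
theorem rs_inf (hc : S_CNT) (c c₂ : ℝ) (h1 : 1 < c) (hc₂ : Tendsto C2 atTop (𝓝 c₂)) (b : ℕ → ℕ) (hb : OK z0 (WW c) b) :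
    (RS z0 (WW c) b).Infinite := by
  intro hfin
  have h := (hc win z0 limit_z0 c c₂ h1 hc₂ b hb).1
  have hle : ∀ x : ℕ, (pin (RS z0 (WW c) b) x : ℝ) ≤ (RS z0 (WW c) b).ncard := by
    intro x
    exact_mod_cast Set.ncard_le_ncard Set.inter_subset_left hfin
  have h2 : Tendsto (fun x : ℕ => Real.log x / x) atTop (𝓝 0) := by
    have := (Real.isLittleO_log_id_atTop.tendsto_div_nhds_zero).comp tendsto_natCast_atTop_atTop
    simpa [Function.comp_def] using this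
  have h3 : Tendsto (fun x : ℕ => ((RS z0 (WW c) b).ncard : ℝ) * (Real.log x / x)) atTop (𝓝 0) := by
    simpa using h2.const_mul ((RS z0 (WW c) b).ncard : ℝ)
  have h4 : Tendsto (fun x : ℕ => (pin (RS z0 (WW c) b) x : ℝ) * Real.log x / x) atTop (𝓝 0) := by
    refine squeeze_zero (fun x => ?_) (fun x => ?_) h3
    · have : 0 ≤ Real.log x := Real.log_natCast_nonneg x
      positivity
    · rw [mul_div_assoc]
      exact mul_le_mul_of_nonneg_right (hle x) (div_nonneg (Real.log_natCast_nonneg x) (Nat.cast_nonneg x))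
  exact one_ne_zero (tendsto_nhds_unique h h4)

theorem ae_inf (hcnt : S_CNT) (c : ℝ) (hc : 1 < c)
    (Ω : Type) [MeasurableSpace Ω] (P : Measure Ω) (a : ℕ → Ω → ℕ) (hM : Model P a) :
    ∀ᵐ ω ∂P, (RS z0 (WW c) (fun q => a q ω)).Infinite := by
  obtain ⟨κ, hκ, hlim⟩ := Pool.Agent.T2H32.GB.C2_lim id monotone_id
  filter_upwards [aee law zd_limit small c hc Ω P a hM] with ω hω
  exact rs_inf hcnt c κ hc hlim _ hω.1

theorem fin1 (hcnt : S_CNT) (hchn : S_CHN) (c c₂ : ℝ) (hc : 1 < c) (h0 : 0 < c₂) (hc₂ : Tendsto C2 atTop (𝓝 c₂))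
    (Ω : Type) [MeasurableSpace Ω] (P : Measure Ω) (a : ℕ → Ω → ℕ) (hM : Model P a) :
    ∀ᵐ ω ∂P, Tendsto (fun n : ℕ => (NE (RS z0 (WW c) (fun q => a q ω)) n : ℝ) * Real.log n ^ 3 / n) atTop
      (𝓝 (24 * c₂ ^ 2)) := by
  filter_upwards [aee law zd_limit small c hc Ω P a hM] with ω hω
  have hinf := rs_inf hcnt c c₂ hc hc₂ _ hω.1
  have hNE : ∀ n, NE (RS z0 (WW c) (fun q => a q ω)) n = NA (RS z0 (WW c) (fun q => a q ω)) n :=
    nea nth _ hinf (zero_notMem _ _ _)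
  simp_rw [hNE]
  rw [Metric.tendsto_atTop]
  intro ε hε
  have h1 := eau win hcnt cbe hchn reg1 small zd_limit c c₂ hc h0 hc₂ _ hω (ε / 2) (half_pos hε)
  have h2 := eal win hcnt cbe hchn reg1 small zd_limit c c₂ hc h0 hc₂ _ hω (ε / 2) (half_pos hε)
  obtain ⟨N, hN⟩ := eventually_atTop.1 (h1.and h2)
  refine ⟨N, fun n hn => ?_⟩
  obtain ⟨h3, h4⟩ := hN n hn
  rw [Real.dist_eq, abs_lt]
  constructor <;> linarith

end Pool.Agent.H531.IX
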