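import Pool.Agent.H531.IX.Stm2

set_option autoImplicit false

/-!
# The index of a random prime: MP_04e9b2 (`n = k + m`, `r_k + 2` and `r_{r_m} + 2` random primes)
-/

open Finset MeasureTheory ProbabilityTheory Filter Topology

namespace Pool.Agent.H531.IX

open Pool.Agent.T2H32.BF (Model z0 V)
open Pool.Agent.H559.BS (Limit)
open Pool.Agent.H559.HY (OK WW Cut)
open Pool.Agent.T2H32.GB (C2)

/-- the possible indices `q = r_m` of `p = r_q`: `q ∈ A`, `δ n ≤ m = pin A q < n`, `n - m ≥ n ^ (1 - κ)` and the element `t = r_{n-m}` has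
`t + 2 ∈ A`; only elements up to `Z` are used -/
def TF (A : Set ℕ) (δ κ : ℝ) (n Z : ℕ) : Set ℕ :=
  {q | q ∈ A ∧ q ≤ Z ∧ δ * n ≤ pin A q ∧ pin A q < n ∧ (n : ℝ) ^ (1 - κ) ≤ ((n - pin A q : ℕ) : ℝ) ∧
    ∃ t ∈ A, t + 2 ≤ Z ∧ t + 2 ∈ A ∧ pin A t = n - pin A q}

/-- the bound for the elements used -/
noncomputable def ZF (n : ℕ) : ℕ := ⌈2 * n * Real.log n⌉₊

/-- **REG2** (150 lines; uses WIN, CNT, NTH as hypotheses).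

Proof. `R = RS z0 (WW c) b`, `L = n log n`. CNT: `pin R x ~ x/log x`; so `r_n := rk R n ≤ (1 + η) L`, and `r_k ≥ k`. Let `q` run over the elements of
`R ∩ (j, j + h]`: the indices `m = pin q` run over all integers in `(pin j, pin (j+h)]`; `s = pin (j+h) - pin j`. `k = n - m`.
(1) We may assume that some `q ∈ TF ∩ (j, j+h]` exists; `δ n ≤ pin q ≤ q ≤ ZF n`, so `δ n/2 ≤ j` (or `j ≥ δ n - h`), `log j ~ log n`, and WIN gives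
`s ≤ (1 + ε') h/log n` (windows of length `h ≥ n^α ≥ j^(α/2)`). The `k` with `k ≥ n^(1-κ)` lie in `[K0, K0 + s)`, `K0 = max ⌈n^(1-κ)⌉ (n - pin (j+h))`.
Let `Y = r_{K0} - 1` (`n^(1-κ) - 1 ≤ Y ≤ 2 L`) and `y = ⌈(1 + 3ε') (h/log n) log Y⌉`. WIN: `(Y, Y + y]` has at least `(1 - ε'/2) y/log Y ≥ s` elements of `R`
(`Y^(α/4) ≤ y ≤ Y`), so all `t = r_k`, `k ∈ [K0, K0 + s)`, are in `(Y, Y+y]`. The number of twins there is at most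
`(2 c₂ + ε') y/(log Y)² ≤ (2 c₂ + ε')(1 + 4ε') h/(log n log Y)` and `log Y ≥ (1 - κ - ε') log n`… (`Y ≥ n^(1-κ) - 1`). `q ↦ t` is injective.
(2) `δ n ≤ pin j`, `pin (j+h) + 2 n^(1-κ) ≤ n`: `j + h ≤ (1+η) L`, `log j ~ log n` (`j ≥ pin j ≥ δ n`), `s ≥ (1 - ε') h/log n`; `K0 = n - pin (j+h) ≥ 2 n^(1-κ)`,
`Y = r_{K0} - 1`, `y = ⌊(1 - 3ε') (h/log n) log Y⌋`: `(Y, Y+y]` has at most `(1 + ε'/2) y/log Y ≤ s` elements of `R`, so they are `r_k`,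
`k ∈ [K0, K0 + s)`; the twins among them, at least `(2 c₂ - ε') y/(log Y)²`, `log Y ≤ log (2L) ~ log n`, give elements
`q = rk R (n - k) ∈ (j, j + h]` of `TF` (`t + 2 ≤ 2L ≤ ZF n`, `q ≤ ZF n`, `n - m = k ≥ n^(1-κ)`, `m > pin j ≥ δ n`). -/
def S_REG2 : Prop := S_WIN → S_CNT → S_NTH → ∀ (c c₂ : ℝ), 1 < c → 0 < c₂ → Tendsto C2 atTop (𝓝 c₂) →
  ∀ b : ℕ → ℕ, OK z0 (WW c) b → ∀ α δ κ ε : ℝ, 0 < α → 0 < δ → 0 < κ → κ ≤ 1 / 4 → 0 < ε → ∀ᶠ n : ℕ in atTop, ∀ j h : ℕ,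
    (n : ℝ) ^ α ≤ h → (h : ℝ) ≤ (n : ℝ) ^ (1 / 2 : ℝ) →
    ((TF (RS z0 (WW c) b) δ κ n (ZF n) ∩ Set.Ioc j (j + h)).ncard : ℝ) ≤
      (1 + ε) * (2 * c₂) / ((1 - κ) * Real.log n ^ 2) * h ∧
    (δ * n ≤ pin (RS z0 (WW c) b) j → (pin (RS z0 (WW c) b) (j + h) : ℝ) + 2 * (n : ℝ) ^ (1 - κ) ≤ n →
      (1 - ε) * (2 * c₂) / Real.log n ^ 2 * h ≤ ((TF (RS z0 (WW c) b) δ κ n (ZF n) ∩ Set.Ioc j (j + h)).ncard : ℝ))

/-- what is needed from the model for MP_04e9b2 (`δ, κ, r` rational) -/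
def OKF (c : ℝ) (b : ℕ → ℕ) : Prop :=
  OK z0 (WW c) b ∧ ∀ (δ κ r : ℚ) (k : ℕ), 0 < δ → 0 < κ → 0 < r →
    Law (WW c) {0, 2} 2 (1 / ((k : ℝ) + 1)) (fun _ _ _ => Set.univ)
      (fun n X b _ => if ZF n ≤ X then TF (RS z0 (WW c) b) δ κ n (ZF n) else ∅)
      (fun n X _ => cl X (r / Real.log n ^ 2)) b

/-- **AEF** (60 lines; uses AEL, SMALL as hypotheses).

Proof. `Pool.Agent.H559.HY.ae_OK h z0 (WW c) _ (cut_WW c hc)` (`Limit z0`: `z0_mono`, `z0_lim`); the `Law`s for all rational parameters from AEL with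
`H = {0, 2}`, `A = 2` (`ae_all_iff`). The dependence: for `v ≤ X` the property `v ∈ RS z0 W b` depends on the coordinates `q ≤ z0 v ≤ z0 X`; all elements
in the definition of `TF … (ZF n)` are `≤ ZF n ≤ X` (also `pin A q`, `pin A t` for `q, t ≤ X`; `pin A q ≤ q`). `cl` is in `[X^(-0.001), 1]`. -/
def S_AEF : Prop := S_AEL → S_SMALL → ∀ (c : ℝ), 1 < c →
  ∀ (Ω : Type) [MeasurableSpace Ω] (P : Measure Ω) (a : ℕ → Ω → ℕ), Model P a → ∀ᵐ ω ∂P, OKF c (fun q => a q ω)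

/-- the number of the decompositions with `m ≥ δ n` in terms of `p = r_{r_m}` -/
noncomputable def NB (A : Set ℕ) (δ : ℝ) (n : ℕ) : ℕ :=
  {p : ℕ | p ∈ A ∧ p + 2 ∈ A ∧ pin A p ∈ A ∧ δ * n ≤ pin A (pin A p) ∧ pin A (pin A p) < n ∧
    rk A (n - pin A (pin A p)) + 2 ∈ A}.ncard

/-- **EBU** (upper bound, 150 lines; uses WIN, CNT, CBE, CHN, REG2, NTH as hypotheses).

Proof. `R = RS z0 (WW c) b`, `L = n log n`; rational `κ` small, `r` rational with `r ≥ (1 + ε')2 c₂/(1-κ)`, `t n = r/(log n)²`, `η` small, `k` large. Let `p` be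
counted, `q = pin p ∈ R`, `m = pin q`. At most `n^(1-κ) + 1` of them have `n - m < n^(1-κ)` (`p ↦ m` is injective: `p = rk R q`, `q = rk R m`). For the
others `q ∈ TF R δ κ n (ZF n)`: `q = r_m ≤ r_n ≤ (1+η) L ≤ ZF n`, `t = r_{n-m}`, `t + 2 ≤ (1+η)L + 2 ≤ ZF n`. By CNT (`pin x ~ x/log x`): `m ≥ δ n` gives
`q ≥ (1-η) δ L`, hence `p ≥ (1-η)² δ n (log n)² =: X` and `p ≤ (1+η)² n (log n)² =: Y` (`pin X < (1-η) δ L`, `pin Y ≥ (1+η) L`; `log X, log Y ~ log n`).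
CHN (`A = 2`, `Z n = ZF n ≤ X`, split `(X, Y]` is not needed) with REG2 (1) for the regularity (`hX X ≥ n^0.004`, `hX Y ≤ √n`): the number is at most
`(1 + 1/(k+1)) t tw(X, Y) + Y^0.995`, and `tw (X, Y) ~ 2 c₂ ((1+η)² - (1-η)² δ) n`. So
`limsup NB (log n)²/n ≤ (1 + 1/(k+1)) r 2 c₂ ((1+η)² - (1-η)² δ)`. -/
def S_EBU : Prop := S_WIN → S_CNT → S_CBE → S_CHN → S_REG2 → S_NTH → ∀ (c c₂ : ℝ), 1 < c → 0 < c₂ →
  Tendsto C2 atTop (𝓝 c₂) → ∀ b : ℕ → ℕ, OKF c b → ∀ δ : ℚ, 0 < δ → δ < 1 → ∀ ε : ℝ, 0 < ε →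
  ∀ᶠ n : ℕ in atTop, (NB (RS z0 (WW c) b) δ n : ℝ) * Real.log n ^ 2 / n ≤ 4 * c₂ ^ 2 * (1 - δ) + ε

/-- **EBL** (lower bound, 120 lines; uses WIN, CNT, CBE, CHN, REG2, NTH as hypotheses).

Proof. Notation as in EBU, `κ = 1/4`, `r` rational with `r ≤ (1 - ε')2 c₂`, `X = ⌈(1+η)² δ n (log n)²⌉`, `Y = ⌊(1-η)² n (log n)²⌋`, `η` so small that
`(1+η)² δ < (1-η)²`. For `pin X ≤ j + h + 1`, `j ≤ pin Y + 3 uX Y`, `h ≤ hX Y`: `j ≥ (1+η/2) δ L`, so `pin j ≥ δ n`; `j + h ≤ (1-η/2) L`, so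
`pin (j+h) ≤ (1 - η/4) n ≤ n - 2 n^(3/4)`; REG2 (2) gives the lower regularity. CHN: `NT ≥ (1 - 1/(k+1)) t tw(X, Y) - Y^0.995`, and every `p` counted by `NT`
(`p, p+2 ∈ R`, `pin p ∈ TF`) is counted by `NB` (the `t` in `TF` is `rk R (n - m)` by NTH). `tw (X, Y) ~ 2 c₂ ((1-η)² - (1+η)² δ) n`. -/
def S_EBL : Prop := S_WIN → S_CNT → S_CBE → S_CHN → S_REG2 → S_NTH → ∀ (c c₂ : ℝ), 1 < c → 0 < c₂ →
  Tendsto C2 atTop (𝓝 c₂) → ∀ b : ℕ → ℕ, OKF c b → ∀ δ : ℚ, 0 < δ → δ < 1 → ∀ ε : ℝ, 0 < ε →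
  ∀ᶠ n : ℕ in atTop, 4 * c₂ ^ 2 * (1 - δ) - ε ≤ (NB (RS z0 (WW c) b) δ n : ℝ) * Real.log n ^ 2 / n

/-- the number of the `m` with `δ n ≤ m < n`, `r_{n-m} + 2 ∈ A`, `r_{r_m} + 2 ∈ A` -/
noncomputable def NF (A : Set ℕ) (δ : ℝ) (n : ℕ) : ℕ :=
  {m : ℕ | 1 ≤ m ∧ δ * n ≤ m ∧ m < n ∧ rk A (n - m) + 2 ∈ A ∧ rk A (rk A m) + 2 ∈ A}.ncard

/-- **NEB** (30 lines; uses NTH as a hypothesis). `m ↦ p = rk A (rk A m)` is a bijection (inverse `p ↦ pin A (pin A p)`; `rk A m ∈ A` is `≥ 1`; for the inverse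
use `1 ≤ pin A p` for `p ∈ A`). -/
def S_NEB : Prop := S_NTH → ∀ A : Set ℕ, A.Infinite → 0 ∉ A → ∀ (δ : ℝ) (n : ℕ), NF A δ n = NB A δ n

end Pool.Agent.H531.IX
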