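import Pool.Agent.H531.IX.Fin1
import Pool.Agent.H531.IX.Stm3
import Pool.Agent.H531.IX.AEF
import Pool.Agent.H531.IX.EBL

set_option autoImplicit false

/-!
# The asymptotic number of the decompositions of MP_04e9b2
-/

open Finset MeasureTheory ProbabilityTheory Filter Topology

namespace Pool.Agent.H531.IX

open Pool.Agent.T2H32.BF (Model z0 V)
open Pool.Agent.H559.BS (Limit)
open Pool.Agent.H559.HY (OK WW Cut)
open Pool.Agent.T2H32.GB (C2)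

theorem nf_fin (A : Set ℕ) (δ : ℝ) (n : ℕ) :
    {m : ℕ | 1 ≤ m ∧ δ * n ≤ m ∧ m < n ∧ rk A (n - m) + 2 ∈ A ∧ rk A (rk A m) + 2 ∈ A}.Finite :=
  (Set.finite_lt_nat n).subset fun _ h => h.2.2.1

theorem nf_anti (A : Set ℕ) (δ δ' : ℝ) (h : δ ≤ δ') (n : ℕ) : NF A δ' n ≤ NF A δ n := by
  refine Set.ncard_le_ncard ?_ (nf_fin A δ n)
  rintro m ⟨h1, h2, h3, h4, h5⟩
  exact ⟨h1, (mul_le_mul_of_nonneg_right h (Nat.cast_nonneg n)).trans h2, h3, h4, h5⟩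

/-- rational `δ` -/
theorem fin2q (hcnt : S_CNT) (hchn : S_CHN) (hreg : S_REG2) (hebu : S_EBU) (hneb : S_NEB) (c c₂ : ℝ) (hc : 1 < c)
    (h0 : 0 < c₂) (hc₂ : Tendsto C2 atTop (𝓝 c₂)) (b : ℕ → ℕ) (hω : OKF c b) (δ : ℚ) (hδ : 0 < δ) (hδ1 : δ < 1) :
    Tendsto (fun n : ℕ => (NF (RS z0 (WW c) b) δ n : ℝ) * Real.log n ^ 2 / n) atTop (𝓝 (4 * c₂ ^ 2 * (1 - δ))) := by
  have hinf := rs_inf hcnt c c₂ hc hc₂ b hω.1
  have hNE : ∀ (δ : ℝ) n, NF (RS z0 (WW c) b) δ n = NB (RS z0 (WW c) b) δ n :=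
    hneb nth _ hinf (zero_notMem _ _ _)
  simp_rw [hNE]
  rw [Metric.tendsto_atTop]
  intro ε hε
  have h1 := hebu win hcnt cbe hchn hreg nth c c₂ hc h0 hc₂ b hω δ hδ hδ1 (ε / 2) (half_pos hε)
  have h2 := ebl win hcnt cbe hchn hreg nth c c₂ hc h0 hc₂ b hω δ hδ hδ1 (ε / 2) (half_pos hε)
  obtain ⟨N, hN⟩ := eventually_atTop.1 (h1.and h2)
  refine ⟨N, fun n hn => ?_⟩
  obtain ⟨h3, h4⟩ := hN n hn
  rw [Real.dist_eq, abs_lt]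
  constructor <;> linarith

/-- all real `δ` -/
theorem fin2r (hcnt : S_CNT) (hchn : S_CHN) (hreg : S_REG2) (hebu : S_EBU) (hneb : S_NEB) (c c₂ : ℝ) (hc : 1 < c)
    (h0 : 0 < c₂) (hc₂ : Tendsto C2 atTop (𝓝 c₂)) (b : ℕ → ℕ) (hω : OKF c b) (δ : ℝ) (hδ : 0 < δ) (hδ1 : δ < 1) :
    Tendsto (fun n : ℕ => (NF (RS z0 (WW c) b) δ n : ℝ) * Real.log n ^ 2 / n) atTop (𝓝 (4 * c₂ ^ 2 * (1 - δ))) := by
  rw [Metric.tendsto_atTop]
  intro ε hε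
  have hK : 0 < 4 * c₂ ^ 2 := by positivity
  set η : ℝ := ε / (2 * (4 * c₂ ^ 2)) with hη
  have hη0 : 0 < η := by positivity
  obtain ⟨δ1, h11, h12⟩ := exists_rat_btwn (show max 0 (δ - η) < δ from max_lt hδ (by linarith))
  obtain ⟨δ2, h21, h22⟩ := exists_rat_btwn (show δ < min 1 (δ + η) from lt_min hδ1 (by linarith))
  have g1 : (0 : ℝ) < δ1 := lt_of_le_of_lt (le_max_left _ _) h11
  have g2 : δ - η < δ1 := lt_of_le_of_lt (le_max_right _ _) h11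
  have g3 : (δ2 : ℝ) < 1 := h22.trans_le (min_le_left _ _)
  have g4 : (δ2 : ℝ) < δ + η := h22.trans_le (min_le_right _ _)
  have q1 := fin2q hcnt hchn hreg hebu hneb c c₂ hc h0 hc₂ b hω δ1 (by exact_mod_cast g1)
    (by exact_mod_cast h12.trans hδ1)
  have q2 := fin2q hcnt hchn hreg hebu hneb c c₂ hc h0 hc₂ b hω δ2 (by exact_mod_cast hδ.trans h21)
    (by exact_mod_cast g3)
  rw [Metric.tendsto_atTop] at q1 q2
  obtain ⟨N1, hN1⟩ := q1 (ε / 2) (half_pos hε)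
  obtain ⟨N2, hN2⟩ := q2 (ε / 2) (half_pos hε)
  refine ⟨max N1 N2, fun n hn => ?_⟩
  have a1 := hN1 n (le_trans (le_max_left _ _) hn)
  have a2 := hN2 n (le_trans (le_max_right _ _) hn)
  rw [Real.dist_eq, abs_lt] at a1 a2 ⊢
  have m1 : (NF (RS z0 (WW c) b) δ n : ℝ) * Real.log n ^ 2 / n ≤ (NF (RS z0 (WW c) b) δ1 n : ℝ) * Real.log n ^ 2 / n := by
    have : (NF (RS z0 (WW c) b) δ n : ℝ) ≤ NF (RS z0 (WW c) b) δ1 n := by exact_mod_cast nf_anti _ _ _ h12.le n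
    gcongr
  have m2 : (NF (RS z0 (WW c) b) δ2 n : ℝ) * Real.log n ^ 2 / n ≤ (NF (RS z0 (WW c) b) δ n : ℝ) * Real.log n ^ 2 / n := by
    have : (NF (RS z0 (WW c) b) δ2 n : ℝ) ≤ NF (RS z0 (WW c) b) δ n := by exact_mod_cast nf_anti _ _ _ h21.le n
    gcongr
  have e : 4 * c₂ ^ 2 * η = ε / 2 := by
    rw [hη]
    field_simp
  have b1 : 4 * c₂ ^ 2 * (δ - δ1) ≤ ε / 2 := by
    rw [← e]
    exact mul_le_mul_of_nonneg_left (by linarith) hK.le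
  have b2 : 4 * c₂ ^ 2 * (δ2 - δ) ≤ ε / 2 := by
    rw [← e]
    exact mul_le_mul_of_nonneg_left (by linarith) hK.le
  constructor <;> nlinarith [a1.1, a1.2, a2.1, a2.2, m1, m2, b1, b2]

theorem fin2 (hcnt : S_CNT) (hchn : S_CHN) (hreg : S_REG2) (hebu : S_EBU) (hneb : S_NEB) (c c₂ : ℝ) (hc : 1 < c)
    (h0 : 0 < c₂) (hc₂ : Tendsto C2 atTop (𝓝 c₂))
    (Ω : Type) [MeasurableSpace Ω] (P : Measure Ω) (a : ℕ → Ω → ℕ) (hM : Model P a) :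
    ∀ᵐ ω ∂P, ∀ δ : ℝ, 0 < δ → δ < 1 →
      Tendsto (fun n : ℕ => (NF (RS z0 (WW c) (fun q => a q ω)) δ n : ℝ) * Real.log n ^ 2 / n) atTop
        (𝓝 (4 * c₂ ^ 2 * (1 - δ))) := by
  filter_upwards [aef law small c hc Ω P a hM] with ω hω δ h1 h2
  exact fin2r hcnt hchn hreg hebu hneb c c₂ hc h0 hc₂ _ hω δ h1 h2

end Pool.Agent.H531.IX
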