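import Pool.Agent.H531.IX.Stm2
import Pool.Agent.H559.SI.GWF

set_option autoImplicit false

/-!
# All types `(a, b)` at once (page MP_e3f158): sums of iterated-index random primes

`ra A i` are the elements of `A` of the form `r^(i+1)(x)`, where `r x` is the `x`-th element of `A`. With `A = RS z0 (WW c) b` (the
random primes) we show, for almost every sample, that for all large `n` and ALL `i, k ≤ 2 √(log n)` the number `2 n` is a sum of an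
element of `ra A i` and an element of `ra A k` (in at least `n ^ 0.99` ways).

Plan. Only summands `v ∈ (YY n, YY n + LL n]`, `YY n = n/2`, `LL n = n^0.998`, and `2n - v ∈ (XX n, XX n + LL n]`.
(1) REGU: the sets `ra A i` are regular in short intervals. (2) For `i ≥ 1` the index law at `X = YY n` (with the condition that `2n - v`
survives the primes `≤ z0 (YY n)`), then few `v` are lost by the primes in `(z0 (YY n), z0 (YY n + LL n)]` (SQ), then the thinning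
by the independent classes modulo the primes in `(z0 (YY n + LL n), z0 (2n)]` (THIN): many `v ∈ ra A i` with `2n - v ∈ A`. (3) The
index law at `X = XX n` for `p = 2n - v`.
-/

open Finset MeasureTheory ProbabilityTheory Filter Topology

namespace Pool.Agent.H531.IX

open Pool.Agent.T2H31.HV (Pt Ev Dep)
open Pool.Agent.T2H32.BF (Model z0 V)
open Pool.Agent.H559.BS (Limit)
open Pool.Agent.H559.HY (OK WW Cut)
open Pool.Agent.T2H32.GB (C2)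

/-- iterated indices: `ra A 0 = A`, and `p ∈ ra A (i + 1)` iff `p ∈ A` and the index of `p` is in `ra A i` -/
def ra (A : Set ℕ) : ℕ → Set ℕ
  | 0 => A
  | i + 1 => {p | p ∈ A ∧ pin A p ∈ ra A i}

/-- the number of the iterations -/
noncomputable def kk (n : ℕ) : ℕ := ⌊2 * √(Real.log n)⌋₊

/-- the left end point of the range of the smaller summand -/
def YY (n : ℕ) : ℕ := n / 2

/-- the length of the range -/
noncomputable def LL (n : ℕ) : ℕ := ⌊(n : ℝ) ^ (0.998 : ℝ)⌋₊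

/-- the left end point of the range of the larger summand -/
noncomputable def XX (n : ℕ) : ℕ := 2 * n - YY n - LL n - 1

/-- **RAI** (40 lines; uses NTH as a hypothesis).

Proof. First part: induction on `i`; `A.Infinite`, `0 ∉ A`. `p ∈ ra A 0 = A`: `x = pin A p`, `rk A x = p`, `1 ≤ x` (NTH). `p ∈ ra A (i+1)`:
`pin A p = (rk A)^[i+1] x`, so `p = rk A (pin A p) = rk A ((rk A)^[i+1] x) = (rk A)^[i+2] x` (`Function.iterate_succ_apply'`).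
Second part: if `A` and `A'` have the same elements `≤ X` then `ra A i` and `ra A' i` have the same elements `≤ X`: induction on `i`,
`pin A p = pin A' p` for `p ≤ X` (`A ∩ Icc 1 p = A' ∩ Icc 1 p`) and `pin A p ≤ p ≤ X` (`Set.ncard_le_ncard`, `ncard (Icc 1 p) = p`).
Third part: `z0` is monotone (`Pool.Agent.T2H32.BF.z0_mono`), `Sv W (z0 v) b v` depends on the `b q`, `q ≤ z0 v` prime. -/
def S_RAI : Prop := (∀ A : Set ℕ, A.Infinite → 0 ∉ A → ∀ i, ∀ p ∈ ra A i, ∃ x, 1 ≤ x ∧ (rk A)^[i + 1] x = p) ∧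
  (∀ (A A' : Set ℕ) (X : ℕ), (∀ v ≤ X, v ∈ A ↔ v ∈ A') → ∀ i, ∀ v ≤ X, v ∈ ra A i ↔ v ∈ ra A' i) ∧
  ∀ (W : ℕ → ℕ) (X : ℕ) (b b' : ℕ → ℕ), (∀ q ≤ z0 X, q.Prime → b q = b' q) → ∀ v ≤ X, v ∈ RS z0 W b ↔ v ∈ RS z0 W b'

/-- **KK** (20 lines). `√(log n) log (4 log n) = o(log n)`: take logarithms. -/
def S_KK : Prop := ∀ᶠ n : ℕ in atTop, (4 * Real.log n) ^ (kk n + 1) ≤ (n : ℝ) ^ (0.0005 : ℝ)

/-- **REGU** (regularity of the iterated sets, 100 lines; uses WIN, CNT, KK, NTH as hypotheses).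

Proof. `A = RS z0 (WW c) b`, `Λ = 4 log n`. Claim, for large `n` and all `i`: for all `j, h` with `n^0.3 Λ^i ≤ j ≤ n^2`,
`n^0.001 Λ^i ≤ h ≤ n^0.1`: `h/Λ^(i+1) ≤ |ra A i ∩ (j, j+h]|`. Induction on `i`.
`i = 0`: WIN (first formula) with `δ = 0.0005`, `ε = 1/2`, `X := j ≥ n^0.3`, `y := h ≥ n^0.001 ≥ j^0.0005` (as `j ≤ n^2`), `h ≤ n^0.1 ≤ j`:
`pin (j+h) - pin j ≥ h/(2 log j) ≥ h/(4 log n)`; it is the number of the elements of `A` in `(j, j+h]` (`0 < j`).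
`i → i + 1`: let `j' = pin A j`, `h' = pin A (j+h) - pin A j`. The map `p ↦ pin A p` is a bijection of `ra A (i+1) ∩ (j, j+h]` onto
`ra A i ∩ (j', j'+h']` (injective on `A`; for `m ∈ (j', j'+h']`, `p = rk A m ∈ A`, `pin A p = m` by NTH, and `j < p ≤ j+h` by the
monotonicity of `pin`; only `≥` is needed). `j' ≥ j/(2 log j) ≥ j/Λ ≥ n^0.3 Λ^i` by CNT (first limit; `j` is large), `j' ≤ j ≤ n²`,
`h' ≥ h/Λ ≥ n^0.001 Λ^i` by the case `i = 0`, `h' ≤ h ≤ n^0.1`. So the number is at least `h'/Λ^(i+1) ≥ h/Λ^(i+2)`. The bounds for n are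
those of WIN and CNT and do not depend on `i` (choose `n` so large that WIN and CNT hold for all `j ≥ n^0.3`).
Then `Λ^i ≤ Λ^(kk n + 1) ≤ n^0.0005` for `i ≤ kk n` (KK; `Λ ≥ 1`), so that `n^0.31 ≤ j`, `n^0.002 ≤ h` suffice.
(`A` is infinite by CNT, see `rs_inf` in `Pool/Agent/H531/IX/Fin1.lean`; you may copy it.) -/
def S_REGU : Prop := S_WIN → S_CNT → S_KK → S_NTH → ∀ (c c₂ : ℝ), 1 < c → Tendsto C2 atTop (𝓝 c₂) → ∀ b : ℕ → ℕ,
  OK z0 (WW c) b → ∀ᶠ n : ℕ in atTop, ∀ i ≤ kk n, ∀ j h : ℕ, (n : ℝ) ^ (0.31 : ℝ) ≤ j → j ≤ n ^ 2 →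
    (n : ℝ) ^ (0.002 : ℝ) ≤ h → (h : ℝ) ≤ (n : ℝ) ^ (0.1 : ℝ) →
    (n : ℝ) ^ (-(0.0005 : ℝ)) * h ≤ ((ra (RS z0 (WW c) b) i ∩ Set.Ioc j (j + h)).ncard : ℝ)

/-- **SQ** (the sieving limit over the range, 60 lines).

Proof. (1), (2): `z0 n = n^(e^(-γ) + o(1))`, as in `Pool/Agent/H531/IX/NUM.lean` (`NUMN.z0_ge`; for the upper bound `e^(-γ) < 0.5616 < 0.6`:
`Real.one_half_lt_eulerMascheroniConstant` gives `e^(-γ) < e^(-1/2) < 0.607`, so prove `z0 (2n) ≤ n^0.61`): from `V (z0 n) log n → 1`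
(`z0_lim`) and `V m log m → e^(-γ)` (`mertens`, `m = z0 n → ∞`): `log z0 n/log n → e^(-γ)`. (3): `x = YY n`, `x' = x + LL n`: as in NUM,
`V (z0 x)/V (z0 x') = ∏ (1 - 1/q)⁻¹ ≥ exp (∑ 1/q)` (`V_ratio`), and
`V (z0 x)/V (z0 x') ≤ log x'/(log x (1 - 1/(z0 x + 1)))` (`z0_mem`, `z0_lt`, `V_step`) `≤ (1 + LL n/x) (1 + 2/z0 x)`, so
`∑ 1/q ≤ LL n/x + 2/z0 x ≤ 3 n^(-0.002) + 2 n^(-0.5) ≤ n^(-0.0019)`. (4): `V (z0 x')/V (z0 (2n)) → 1` by `z0_lim`, so the sum tends to `0`. -/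
def S_SQ : Prop := ∀ᶠ n : ℕ in atTop, (n : ℝ) ^ (0.5 : ℝ) ≤ z0 (YY n) ∧ (z0 (2 * n) : ℝ) ≤ (n : ℝ) ^ (0.61 : ℝ) ∧
  ∑ q ∈ fr z0 (YY n) (YY n + LL n), 1 / (q : ℝ) ≤ (n : ℝ) ^ (-(0.0019 : ℝ)) ∧
  ∑ q ∈ fr z0 (YY n + LL n) (2 * n), 1 / (q : ℝ) ≤ 1 / 4

open Classical in
/-- the `v ∈ (X, X2]`, `v` a random prime (with index in `ra … (i-1)` if `i ≥ 1`), such that `2n - v` survives the primes `≤ y` -/
noncomputable def G1 (W : ℕ → ℕ) (n i y X X2 : ℕ) (b : ℕ → ℕ) : Finset ℕ :=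
  (Ioc X X2).filter fun v => v ∈ ra (RS z0 W b) i ∧ Sv W y b (2 * n - v)

open Classical in
/-- the `v ∈ (x, y]` with `v ∈ A`, `2n - v ∈ B` -/
noncomputable def G3 (A B : Set ℕ) (n x y : ℕ) : Finset ℕ := (Ioc x y).filter fun v => v ∈ A ∧ 2 * n - v ∈ B

open Classical in
/-- the `p ∈ (X, X2]`, `p ∈ ra … i`, `2n - p ∈ ra … k`, `2n - p ≤ X` -/
noncomputable def G2 (W : ℕ → ℕ) (n i k X X2 : ℕ) (b : ℕ → ℕ) : Finset ℕ :=
  (Ioc X X2).filter fun p => p ∈ ra (RS z0 W b) i ∧ 2 * n - p ∈ ra (RS z0 W b) k ∧ 2 * n - p ≤ X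

/-- the index law for the two families -/
def LU (W : ℕ → ℕ) (b : ℕ → ℕ) : Prop := ∀ᶠ X : ℕ in atTop, CB z0 W X b → ∀ n i k X2 : ℕ, n ≤ 3 * X → i ≤ X → k ≤ X →
  X ≤ X2 → X2 ≤ 2 * X →
  (∀ j, pin (RS z0 W b) X ≤ j + hX X + 1 → j ≤ pin (RS z0 W b) X2 + 3 * uX X →
    (X : ℝ) ^ (-(0.001 : ℝ)) * hX X ≤ ((ra (RS z0 W b) i ∩ Set.Iic X ∩ Set.Ioc j (j + hX X)).ncard : ℝ)) →
  1 / 2 * ((X : ℝ) ^ (-(0.001 : ℝ)) * (G1 W n 0 (z0 X) X X2 b).card) - (X : ℝ) ^ (0.99 : ℝ) ≤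
    (G1 W n (i + 1) (z0 X) X X2 b).card ∧
  1 / 2 * ((X : ℝ) ^ (-(0.001 : ℝ)) * (G2 W n 0 k X X2 b).card) - (X : ℝ) ^ (0.99 : ℝ) ≤ (G2 W n (i + 1) k X X2 b).card

/-- **LUE** (the families, 80 lines; uses AEL, RAI, SMALL as hypotheses).

Proof. Two applications of AEL with `W = WW c` (SMALL), `H = {0}`, `A = 6`, `ε = 1/2`, `τ N X b = X^(-0.001)` (`≤ 1`, also for `X = 0`; for `X ≥ 1` by
`Real.rpow_le_one_of_one_le_of_nonpos`). First family: the parameter `N` encodes `(n, i)`: `n = N.unpair.1`, `i = N.unpair.2`,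
`B N X b = {v | Sv W (z0 X) b (2n - v)}`, `T N X b p = ra (RS z0 W b) i ∩ Set.Iic X`. Second family: `n = N.unpair.1`,
`i = N.unpair.2.unpair.1`, `k = N.unpair.2.unpair.2`, `B N X b = {p | 2n - p ∈ ra (RS z0 W b) k ∧ 2n - p ≤ X}`, the same `T`. The dependence on
the coordinates `≤ z0 X`: RAI (2), (3). The lower parts of the two `Law`s, `N = Nat.pair n i` resp. `Nat.pair n (Nat.pair i k)`, `N ≤ X^6`
(`Nat.pair_lt_max_add_one_sq`; `n ≤ 3X`, `i, k ≤ X`, `X` large); `NT` and `MT` are the cardinalities of the sets (`p + 0 = p`; `pin ≤ X` for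
the elements: in `NT` the index is in `ra … i ∩ Iic X ⊆ ra … i`, only `≤` is needed). -/
def S_LUE : Prop := S_AEL → S_RAI → S_SMALL → ∀ (c : ℝ), 1 < c →
  ∀ (Ω : Type) [MeasurableSpace Ω] (P : Measure Ω) (a : ℕ → Ω → ℕ), Model P a → ∀ᵐ ω ∂P, LU (WW c) (fun q => a q ω)

/-- **THP** (thinning by the fresh primes, 120 lines; uses AZP, SQ, RAI as hypotheses).

Proof. `x' = YY n + LL n`, `S(b) = G1 W n i (z0 x') (YY n) x' b` (it depends on the coordinates `≤ z0 x'` only: `v ≤ x'`, RAI (2), (3)). AZP with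
`E k = ` the primes `≤ z0 x' + k`, `K = z0 (2n) - z0 x'` (`E` monotone). For `k < K` and `q = z0 x' + k + 1` let
`g k b = |{v ∈ S(b) : (2n - v) % q = b q}| - |S(b)|/q` if `q` is prime and `g k b = 0` otherwise. `E (k+1) \ E k = {q}` (or `∅`), and for `q > z0 x'` the
set `S (gl {q} b b') = S b`, so the mean value over the new coordinate is `0` (`∑_{r<q} |{v ∈ S : (2n-v) % q = r}| = |S|`). `|g k b| ≤ u :=
n^0.5`: at most `LL n/q + 1 ≤ n^0.498 + 1` of the `v ∈ (YY n, x']` are in one class mod `q`, `q > z0 x' ≥ z0 (YY n) ≥ n^0.5` (SQ), and `|S|/q ≤ LL n/q`.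
`l = n^(-0.75)`, `t = n^0.9`: `l u ≤ 1`, `K l² u² ≤ n^(0.61 - 1.5 + 1) = n^0.11`, `l t = n^0.15`, so the probability is at most
`exp (n^0.11 - n^0.15) ≤ exp (- n^0.1)`. Outside of this
event `∑_q |{v ∈ S : (2n - v) % q = b q}| ≤ |S| ∑ 1/q + n^0.9 ≤ |S|/4 + n^0.9` (`∑` over the primes of `fr z0 x' (2n)`, SQ), and every `v ∈ S` which is
not in `G1 W n i (z0 (2n)) …` is counted in this sum (for `q > z0 x'` the class is `b q`, as `W (2n - v) ≤ z0 x'`: hypothesis on `W`). -/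
def S_THP : Prop := S_AZP → S_SQ → S_RAI → ∀ (W : ℕ → ℕ), (∀ᶠ v : ℕ in atTop, (W v : ℝ) ≤ (v : ℝ) ^ (0.1 : ℝ)) → Monotone W →
  ∀ᶠ n : ℕ in atTop, ∀ (Ω : Type) [MeasurableSpace Ω] (P : Measure Ω) (a : ℕ → Ω → ℕ), Model P a → ∀ i : ℕ,
    P.real {ω | ((G1 W n i (z0 (2 * n)) (YY n) (YY n + LL n) (fun q => a q ω)).card : ℝ) <
      1 / 2 * (G1 W n i (z0 (YY n + LL n)) (YY n) (YY n + LL n) (fun q => a q ω)).card - (n : ℝ) ^ (0.9 : ℝ)} ≤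
      Real.exp (-(n : ℝ) ^ (0.1 : ℝ))

/-- the thinning for one sample -/
def TH (W : ℕ → ℕ) (b : ℕ → ℕ) : Prop := ∀ᶠ n : ℕ in atTop, ∀ i ≤ n,
  1 / 2 * ((G1 W n i (z0 (YY n + LL n)) (YY n) (YY n + LL n) b).card : ℝ) - (n : ℝ) ^ (0.9 : ℝ) ≤
    (G1 W n i (z0 (2 * n)) (YY n) (YY n + LL n) b).card

/-- **THE** (Borel–Cantelli, 40 lines; uses THP as a hypothesis; see `Pool/Agent/H531/IX/AEL.lean` for the same argument).
`∑_n (n + 1) exp (-n^0.1) < ∞`. -/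
def S_THE : Prop := S_AZP → S_SQ → S_RAI → S_THP → ∀ (W : ℕ → ℕ), (∀ᶠ v : ℕ in atTop, (W v : ℝ) ≤ (v : ℝ) ^ (0.1 : ℝ)) →
  Monotone W → ∀ (Ω : Type) [MeasurableSpace Ω] (P : Measure Ω) (a : ℕ → Ω → ℕ), Model P a → ∀ᵐ ω ∂P, TH W (fun q => a q ω)

/-- **GOL** (Goldbach in the short range, 50 lines).

Proof. `Pool.Agent.H559.SI.gshort` (with `Cut (WW c)`: `Pool.Agent.H559.HY.cut_WW c hc`; `TG c₂ N ≥ 2 c₂`: `Pool.Agent.H559.HY.TG_ge`) with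
`N = 2n`, `u = YY n`, `y = LL n`, `δ = 1/2`, `ε = 1/2`: at least `(1/2) LL n · 2 c₂/(log (YY n) log (2n - YY n)) ≥ c₂ LL n/(log (2n))²` of the `v ∈ (YY n, YY n + LL n]`
have `v ∈ A` and `2n - v ∈ A` (`gw A N u y` counts the `p` with `u < p ≤ u + y`, `p ∈ A`, `∃ q ∈ A, p + q = N`), and this is at least
`n^0.9979` for large `n`. -/
def S_GOL : Prop := ∀ (c c₂ : ℝ), 1 < c → 0 < c₂ → Tendsto C2 atTop (𝓝 c₂) → ∀ b : ℕ → ℕ, OK z0 (WW c) b →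
  ∀ᶠ n : ℕ in atTop, (n : ℝ) ^ (0.9979 : ℝ) ≤ ((G3 (RS z0 (WW c) b) (RS z0 (WW c) b) n (YY n) (YY n + LL n)).card : ℝ)

/-- **ONE** (one summand with iterated index, 100 lines; uses CBE, REGU, SQ, GOL, SMALL (and WIN, CNT, KK, NTH for CBE and REGU) as
hypotheses).

Proof. `A = RS z0 (WW c) b`, `x = YY n`, `x' = x + LL n`. `k = 0`: GOL. `k = i + 1`: LU at `X = x`, `X2 = x'` (CBE gives `CB`; `n ≤ 3x`, `i ≤ x`). The
regularity: `hX x ≤ n^0.005`, `hX x ≥ n^0.004`; for `pin A x ≤ j + hX x + 1`: `j ≥ n^0.31` (`pin A x ≥ x/(2 log x)` by CNT) and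
`j + hX x ≤ pin A x' + 3 uX x + hX x ≤ x/2 + … ≤ x` (CNT: `pin A x' ≤ 2 x'/log x'`), so `∩ Iic x` may be left out, and REGU gives
`n^(-0.0005) hX x ≥ x^(-0.001) hX x`. `|G1 W n 0 (z0 x) x x'| ≥ ` the number in GOL `≥ n^0.9979` (`2n - v ∈ A` and `x ≤ 2n - v` give
`Sv W (z0 x) b (2n - v)`). So `|G1 W n k (z0 x) x x'| ≥ (1/2) x^(-0.001) n^0.9979 - x^0.99 ≥ n^0.9968`. The `v` among these for which `2n - v` does not
survive the primes `≤ z0 x'`: for some `q ∈ fr z0 x x'`: `(2n - v) % q = b q` (`W (2n - v) ≤ z0 x` for large `n`, SMALL and `z0 x ≥ n^0.5`), their number is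
at most `∑_q (LL n/q + 1) ≤ LL n · n^(-0.0019) + z0 x' ∑ 1/q ≤ n^0.9961 + n^0.61` (SQ; `1 ≤ z0 x'/q`). So
`|G1 W n k (z0 x') x x'| ≥ n^0.9968 - 2 n^0.9961 ≥ n^0.9967`. TH: `|G1 W n k (z0 (2n)) x x'| ≥ n^0.9967/2 - n^0.9 ≥ n^0.996`; for `v` in this set
`2n - v ∈ A` (`3 ≤ 2n - v`, `z0 (2n - v) ≤ z0 (2n)`). -/
def S_ONE : Prop := S_WIN → S_CNT → S_KK → S_NTH → S_CBE → S_REGU → S_SQ → S_GOL → S_SMALL → ∀ (c c₂ : ℝ), 1 < c → 0 < c₂ →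
  Tendsto C2 atTop (𝓝 c₂) → ∀ b : ℕ → ℕ, OK z0 (WW c) b → LU (WW c) b → TH (WW c) b →
  ∀ᶠ n : ℕ in atTop, ∀ k ≤ kk n, (n : ℝ) ^ (0.996 : ℝ) ≤
    ((G3 (ra (RS z0 (WW c) b) k) (RS z0 (WW c) b) n (YY n) (YY n + LL n)).card : ℝ)

/-- **TWO** (both summands, 80 lines; uses CBE, REGU, ONE and what they need as hypotheses).

Proof. `A = RS z0 (WW c) b`. For `i = 0` this is ONE (`YY n + LL n ≤ n - 1`; `G3` is monotone in the interval). For `i + 1`: LU at `X = XX n`, `X2 = XX n + LL n = 2n - YY n - 1`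
(`n ≤ 3X`, `LL n ≤ X`; CBE gives `CB`): `p = 2n - v` is a bijection of the `v ∈ (YY n, YY n + LL n]` onto the `p ∈ [2n - YY n - LL n, 2n - YY n - 1] = (XX n, XX n + LL n]`,
and `v ≤ YY n + LL n ≤ XX n`. So `|G2 W n 0 k X X2| ≥ n^0.996` by ONE. The regularity as in ONE (`pin A X ≥ X/(2 log X)`, `j + hX X ≤ X` by CNT, REGU
with `h = hX X`, `n^(-0.0005) ≥ X^(-0.001)`). So `|G2 W n (i+1) k X X2| ≥ (1/2) X^(-0.001) n^0.996 - X^0.99 ≥ n^0.99` (`X ≤ 2n`); `p ↦ v = 2n - p`. -/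
def S_TWO : Prop := S_WIN → S_CNT → S_KK → S_NTH → S_CBE → S_REGU → S_SQ → S_GOL → S_SMALL → S_ONE → ∀ (c c₂ : ℝ), 1 < c → 0 < c₂ →
  Tendsto C2 atTop (𝓝 c₂) → ∀ b : ℕ → ℕ, OK z0 (WW c) b → LU (WW c) b → TH (WW c) b →
  ∀ᶠ n : ℕ in atTop, ∀ i k : ℕ, i ≤ kk n → k ≤ kk n → (n : ℝ) ^ (0.99 : ℝ) ≤
    ((G3 (ra (RS z0 (WW c) b) k) (ra (RS z0 (WW c) b) i) n 0 (n - 1)).card : ℝ)

/-- the threshold `f₂` of the page -/
noncomputable def f2 (a b : ℕ) : ℝ :=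
  if a = b then
    if a = 0 then 2 ^ ((a + 1) * (b + 1) * (a + b + 2))
    else (2 : ℝ) ^ (((a : ℝ) + 1) ^ 2 * (2 * a + 3) / a - 2 * a)
  else (2 : ℝ) ^ ((((a + 1) * (b + 1) * (a + b + 2) : ℕ) : ℝ) - (((a : ℝ) + b) - 2))

/-- **FB** (40 lines). `log 2 > 1/2` (`Real.log_two_gt_d9`: `0.693…`).

Proof. Let `s = a + b`. If `a ≠ b`: the exponent is at least `(s + 1)(s + 2) - s + 2 ≥ s²` (`(a+1)(b+1) ≥ s + 1`). If `a = b > 0`: the exponent is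
`(a+1)²(2 + 3/a) - 2a ≥ 2 (a+1)² - 2a ≥ a²`. In both cases `f2 a b ≥ 2^(m²)` (real power) with `m = max a b ≤ s`. `f2 a b ≤ n` gives `m² log 2 ≤ log n`,
`m² ≤ 4 log n`, `m ≤ 2 √(log n)`, so `m ≤ kk n` (`Nat.le_floor`). For `a = b = 0` nothing is to show. -/
def S_FB : Prop := ∀ n a b : ℕ, 1 ≤ n → f2 a b ≤ n → a ≤ kk n ∧ b ≤ kk n

end Pool.Agent.H531.IX
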