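import Pool.Agent.H531.IX.Fin1
import Pool.Agent.H531.IX.Stm4

set_option autoImplicit false

/-!
# All types at once: assembly
-/

open Finset MeasureTheory ProbabilityTheory Filter Topology

namespace Pool.Agent.H531.IX

open Pool.Agent.T2H32.BF (Model z0 V)
open Pool.Agent.H559.BS (Limit)
open Pool.Agent.H559.HY (OK WW Cut)
open Pool.Agent.T2H32.GB (C2)

/-- the number of the representations `2n = r^(a+1)(x) + r^(b+1)(y)` with different summands -/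
noncomputable def NR (A : Set ℕ) (a b n : ℕ) : ℕ :=
  {w : ℕ × ℕ | 1 ≤ w.1 ∧ 1 ≤ w.2 ∧ (rk A)^[a + 1] w.1 + (rk A)^[b + 1] w.2 = 2 * n ∧
    (rk A)^[a + 1] w.1 ≠ (rk A)^[b + 1] w.2}.ncard

theorem mem_G3 (A B : Set ℕ) (n x y v : ℕ) : v ∈ G3 A B n x y ↔ (x < v ∧ v ≤ y) ∧ v ∈ A ∧ 2 * n - v ∈ B := by
  classical
  unfold G3
  rw [mem_filter, mem_Ioc]

theorem rk_ge (A : Set ℕ) (hA : A.Infinite) (h0 : 0 ∉ A) (m : ℕ) : m ≤ rk A m := by
  rcases Nat.eq_zero_or_pos m with h | h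
  · omega
  · have h1 := (nth A hA h0).2 m h
    have h2 : pin A (rk A m) ≤ rk A m := by
      unfold pin
      calc (A ∩ Set.Icc 1 (rk A m)).ncard ≤ (Set.Icc 1 (rk A m)).ncard :=
            Set.ncard_le_ncard Set.inter_subset_right (Set.finite_Icc _ _)
        _ = rk A m := by
            rw [← Finset.coe_Icc, Set.ncard_coe_finset, Nat.card_Icc]
            omega
    rw [h1.2] at h2
    exact h2

theorem rk_it_ge (A : Set ℕ) (hA : A.Infinite) (h0 : 0 ∉ A) (i m : ℕ) : m ≤ (rk A)^[i] m := by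
  induction i with
  | zero => simp
  | succ i ih =>
    rw [Function.iterate_succ_apply']
    exact ih.trans (rk_ge A hA h0 _)

theorem fin4 (hcnt : S_CNT) (hkk : S_KK) (hrai : S_RAI) (hregu : S_REGU) (hsq : S_SQ) (hlue : S_LUE) (hthp : S_THP)
    (hthe : S_THE) (hgol : S_GOL) (hone : S_ONE) (htwo : S_TWO) (hfb : S_FB) (c : ℝ) (hc : 1 < c)
    (Ω : Type) [MeasurableSpace Ω] (P : Measure Ω) (a : ℕ → Ω → ℕ) (hM : Model P a) :
    ∀ᵐ ω ∂P, (RS z0 (WW c) (fun q => a q ω)).Infinite ∧ ∀ᶠ n : ℕ in atTop, ∀ i k : ℕ, f2 i k ≤ n →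
      (n : ℝ) ^ (0.99 : ℝ) ≤ NR (RS z0 (WW c) (fun q => a q ω)) i k n := by
  obtain ⟨κ, hκ, hlim⟩ := Pool.Agent.T2H32.GB.C2_lim id monotone_id
  have hW := small c (by linarith)
  filter_upwards [aee law zd_limit small c hc Ω P a hM, hlue law hrai small c hc Ω P a hM,
    hthe (azp (az evu)) hsq hrai hthp (WW c) hW.1 hW.2.1 Ω P a hM] with ω h1 h2 h3
  have hinf := rs_inf hcnt c κ hc hlim _ h1.1
  have h0 : 0 ∉ RS z0 (WW c) (fun q => a q ω) := zero_notMem _ _ _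
  refine ⟨hinf, ?_⟩
  have h4 := htwo win hcnt hkk nth cbe hregu hsq hgol small hone c κ hc (by linarith) hlim _ h1.1 h2 h3
  filter_upwards [h4, eventually_ge_atTop 1] with n hn hn1 i k hf
  obtain ⟨hi, hk⟩ := hfb n i k hn1 hf
  refine (hn i k hi hk).trans ?_
  rw [Nat.cast_le]
  set A := RS z0 (WW c) (fun q => a q ω) with hA
  have hfin : {w : ℕ × ℕ | 1 ≤ w.1 ∧ 1 ≤ w.2 ∧ (rk A)^[i + 1] w.1 + (rk A)^[k + 1] w.2 = 2 * n ∧
      (rk A)^[i + 1] w.1 ≠ (rk A)^[k + 1] w.2}.Finite := by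
    refine ((Set.finite_Iic (2 * n)).prod (Set.finite_Iic (2 * n))).subset ?_
    rintro ⟨x, y⟩ ⟨_, _, h5, _⟩
    have h6 := rk_it_ge A hinf h0 (i + 1) x
    have h7 := rk_it_ge A hinf h0 (k + 1) y
    simp only at h5
    exact ⟨Set.mem_Iic.2 (by omega : x ≤ 2 * n), Set.mem_Iic.2 (by omega : y ≤ 2 * n)⟩
  -- the map from the representations to the smaller summand
  have hsub : ((G3 (ra A k) (ra A i) n 0 (n - 1) : Finset ℕ) : Set ℕ) ⊆
      (fun w : ℕ × ℕ => (rk A)^[k + 1] w.2) '' {w : ℕ × ℕ | 1 ≤ w.1 ∧ 1 ≤ w.2 ∧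
        (rk A)^[i + 1] w.1 + (rk A)^[k + 1] w.2 = 2 * n ∧ (rk A)^[i + 1] w.1 ≠ (rk A)^[k + 1] w.2} := by
    intro v hv
    rw [Finset.mem_coe, mem_G3] at hv
    obtain ⟨⟨hv1, hv2⟩, hv3, hv4⟩ := hv
    obtain ⟨y, hy1, hy2⟩ := hrai.1 A hinf h0 k v hv3
    obtain ⟨x, hx1, hx2⟩ := hrai.1 A hinf h0 i _ hv4
    refine ⟨(x, y), ⟨hx1, hy1, ?_, ?_⟩, hy2⟩
    · simp only [hx2, hy2]
      omega
    · simp only [hx2, hy2]
      omega
  unfold NR
  calc (G3 (ra A k) (ra A i) n 0 (n - 1)).card = ((G3 (ra A k) (ra A i) n 0 (n - 1) : Finset ℕ) : Set ℕ).ncard :=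
        (Set.ncard_coe_finset _).symm
    _ ≤ _ := Set.ncard_le_ncard hsub (hfin.image _)
    _ ≤ _ := Set.ncard_image_le hfin

end Pool.Agent.H531.IX
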