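import Pool.Agent.H531.IX.Stm4

set_option autoImplicit false

/-!
# Sums of two iterated-index random primes, fixed types: the asymptotic number of representations

`A = RS z0 (WW c) b` (the random primes), `ra A i` the elements of the form `r^(i+1)(x)`. For fixed `i`, `k` the number of the
representations of `2n` is asymptotic to `TG c₂ (2n) · 2n/(log n)^(i+k+2)` (`TG`: the Goldbach singular series). All windows are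
`(u, u + y]` with `n/(log n)^C ≤ u`, `n^0.995 ≤ y`, `u + y < n` (range of the smaller summand `v`).
-/

open Finset MeasureTheory ProbabilityTheory Filter Topology

namespace Pool.Agent.H531.IX

open Pool.Agent.T2H31.HV (Pt Ev Dep)
open Pool.Agent.T2H32.BF (Model z0 V)
open Pool.Agent.H559.BS (Limit)
open Pool.Agent.H559.HY (OK WW Cut TG)
open Pool.Agent.T2H32.GB (C2)

/-- **RGA** (regularity of the iterated sets, 90 lines; uses WIN, CNT, NTH as hypotheses; REGU in `Pool/Agent/H531/IX/REGU.lean` is a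
similar statement: its lemma `REGUN.shift` can be used by importing that file).

Proof. Induction on `i` (for all `C`, `β`, `ε`). `i = 0`: WIN (first formula) with `δ = β/2`, `ε/4`, `X := j`, `y := h`: `j ≥ n/(log n)^C ≥ √n`, `j^(β/2) ≤ n^β ≤ h`
(`j ≤ n (log n)^C ≤ n²`), `h ≤ n^0.1 ≤ j`; `pin A (j+h) - pin A j` is the number of the elements of `A` in `(j, j+h]`, and
`log j/log n → 1` uniformly (`|log j - log n| ≤ C log log n`).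
`i → i + 1`: `j' = pin A j`, `h' = pin A (j+h) - pin A j`. `p ↦ pin A p` is a bijection of `ra A (i+1) ∩ (j, j+h]` onto
`ra A i ∩ (j', j'+h']` (inverse `rk A`, NTH). `j' ~ j/log j` (CNT), so `n/(log n)^(C+2) ≤ j' ≤ n (log n)^C`; `h' = (1 ± ε') h/log n` (case
`i = 0`), `n^(β/2) ≤ h' ≤ n^0.1`. Use the induction hypothesis with `C + 2`, `β/2`, `ε'`. -/
def S_RGA : Prop := S_WIN → S_CNT → S_NTH → ∀ (c c₂ : ℝ), 1 < c → Tendsto C2 atTop (𝓝 c₂) → ∀ b : ℕ → ℕ,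
  OK z0 (WW c) b → ∀ (i C : ℕ) (β ε : ℝ), 0 < β → 0 < ε → ∀ᶠ n : ℕ in atTop, ∀ j h : ℕ, (n : ℝ) / Real.log n ^ C ≤ j →
    (j : ℝ) ≤ n * Real.log n ^ C → (n : ℝ) ^ β ≤ h → (h : ℝ) ≤ (n : ℝ) ^ (0.1 : ℝ) →
    |((ra (RS z0 (WW c) b) i ∩ Set.Ioc j (j + h)).ncard : ℝ) * Real.log n ^ (i + 1) / h - 1| ≤ ε

/-- the index law for the two families, upper and lower bounds -/
def LV (W : ℕ → ℕ) (b : ℕ → ℕ) : Prop := ∀ (i k m : ℕ) (r : ℚ), 0 < r → ∀ᶠ X : ℕ in atTop, CB z0 W X b → ∀ n X2 : ℕ,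
  n ≤ X ^ 2 → X ≤ X2 → X2 ≤ 2 * X →
  ((∀ j, pin (RS z0 W b) X ≤ j + hX X + 1 → j ≤ pin (RS z0 W b) X2 + 3 * uX X →
      ((ra (RS z0 W b) i ∩ Set.Iic X ∩ Set.Ioc j (j + hX X)).ncard : ℝ) ≤ cl X (r / Real.log n ^ (i + 1)) * hX X) →
    pin (RS z0 W b) X2 ≤ X →
    ((G1 W n (i + 1) (z0 X) X X2 b).card : ℝ) ≤ (1 + 1 / ((m : ℝ) + 1)) *
        (cl X (r / Real.log n ^ (i + 1)) * (G1 W n 0 (z0 X) X X2 b).card) + (X : ℝ) ^ (0.99 : ℝ) ∧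
    ((G2 W n (i + 1) k X X2 b).card : ℝ) ≤ (1 + 1 / ((m : ℝ) + 1)) *
        (cl X (r / Real.log n ^ (i + 1)) * (G2 W n 0 k X X2 b).card) + (X : ℝ) ^ (0.99 : ℝ)) ∧
  ((∀ j, pin (RS z0 W b) X ≤ j + hX X + 1 → j ≤ pin (RS z0 W b) X2 + 3 * uX X →
      cl X (r / Real.log n ^ (i + 1)) * hX X ≤ ((ra (RS z0 W b) i ∩ Set.Iic X ∩ Set.Ioc j (j + hX X)).ncard : ℝ)) →
    (1 - 1 / ((m : ℝ) + 1)) * (cl X (r / Real.log n ^ (i + 1)) * (G1 W n 0 (z0 X) X X2 b).card) - (X : ℝ) ^ (0.99 : ℝ) ≤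
      (G1 W n (i + 1) (z0 X) X X2 b).card ∧
    (1 - 1 / ((m : ℝ) + 1)) * (cl X (r / Real.log n ^ (i + 1)) * (G2 W n 0 k X X2 b).card) - (X : ℝ) ^ (0.99 : ℝ) ≤
      (G2 W n (i + 1) k X X2 b).card)

/-- **LVE** (100 lines; uses AEL, RAI, SMALL as hypotheses; S_LUE is a similar statement).

Proof. For fixed `i, k, m, r` (`ae_all_iff`, countably many) two applications of AEL with `W = WW c` (SMALL), `H = {0}`, `A = 2`, `ε = 1/(m+1) ≤ 1`,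
`τ n X b = cl X (r/(log n)^(i+1))` (in `[X^(-0.001), 1]`, also for `X = 0`), `T n X b p = ra (RS z0 W b) i ∩ Set.Iic X`. First family:
`B n X b = {v | Sv W (z0 X) b (2n - v)}`, second family: `B n X b = {p | 2n - p ∈ ra (RS z0 W b) k ∧ 2n - p ≤ X}`. The dependence on the
coordinates `≤ z0 X`: RAI (2), (3) (see AEE/AEF for the form needed). `NT` and `MT` are the cardinalities of the sets (`p + 0 = p`): in
`NT` the index is in `ra … i ∩ Iic X`; for the upper bound `pin p ≤ pin X2 ≤ X` for the elements (`pin` is monotone). -/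
def S_LVE : Prop := S_AEL → S_RAI → S_SMALL → ∀ (c : ℝ), 1 < c →
  ∀ (Ω : Type) [MeasurableSpace Ω] (P : Measure Ω) (a : ℕ → Ω → ℕ), Model P a → ∀ᵐ ω ∂P, LV (WW c) (fun q => a q ω)

/-- **SQ5** (the sieving limit, 70 lines; adapt `Pool/Agent/H531/IX/SQ.lean`, which proves the same for fixed `u`, `y`).

Proof. (1), (2): `z0 x = x^(e^(-γ) + o(1))`, `e^(-γ) > 0.513`, `u ≥ n/(log n)^C`; `z0 (2n) ≤ n^0.61`. (3): `V (z0 u)/V (z0 (u+y)) = ∏ (1 - 1/q)⁻¹ ≥ exp (∑ 1/q)`, and it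
is `≤ log (u+y)/(log u (1 - 1/(z0 u + 1))) ≤ (1 + y/(u log u)) (1 + 2/z0 u)`. So `∑ 1/q ≤ y/(u log u) + 2/z0 u`. (4): `V (z0 (u+y))/V (z0 (2n)) → 1` by
`z0_lim` (`log (u+y)/log (2n) → 1`, uniformly for `n/(log n)^C ≤ u + y ≤ n`; `V (z0 x) log x → 1` at both). -/
def S_SQ5 : Prop := ∀ (C : ℕ) (ε : ℝ), 0 < ε → ∀ᶠ n : ℕ in atTop, ∀ u y : ℕ, (n : ℝ) / Real.log n ^ C ≤ u → u + y ≤ n →
  (n : ℝ) ^ (0.5 : ℝ) ≤ z0 u ∧ (z0 (2 * n) : ℝ) ≤ (n : ℝ) ^ (0.61 : ℝ) ∧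
  ∑ q ∈ fr z0 u (u + y), 1 / (q : ℝ) ≤ 3 * y / u + (n : ℝ) ^ (-(0.4 : ℝ)) ∧
  ∑ q ∈ fr z0 (u + y) (2 * n), 1 / (q : ℝ) ≤ ε

/-- **THP5** (thinning by the fresh primes, 120 lines; uses AZP, SQ5, RAI as hypotheses; adapt `Pool/Agent/H531/IX/THP.lean`, which is the
same statement for one window and `ε = 1/2`).

Proof. `x' = u + y`, `S(b) = G1 W n i (z0 x') u x' b` (depends on the coordinates `≤ z0 x'` only: RAI (2), (3)). AZP with `E k = ` the primes `≤ z0 x' + k`,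
`K = z0 (2n) - z0 x'`; for `q = z0 x' + k + 1` prime `g k b = |{v ∈ S(b) : (2n - v) % q = b q}| - |S(b)|/q`, otherwise `0`. `|g k b| ≤ y/q + 1 ≤ 3 n^0.5` (`q > z0 x' ≥ z0 u ≥ n^0.5`).
`l = n^(-0.75)`, `t = n^0.9`: `K l² u² ≤ 9 n^0.11`, `l t = n^0.15`, probability `≤ exp (9 n^0.11 - n^0.15) ≤ exp (-n^0.1)`. Outside of this event
`∑_q |{v ∈ S : (2n - v) % q = b q}| ≤ |S| ∑ 1/q + n^0.9 ≤ ε |S| + n^0.9` (SQ5 (4)). -/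
def S_THP5 : Prop := S_AZP → S_SQ5 → S_RAI → ∀ (C : ℕ) (ε : ℝ), 0 < ε → ∀ (W : ℕ → ℕ),
  (∀ᶠ v : ℕ in atTop, (W v : ℝ) ≤ (v : ℝ) ^ (0.1 : ℝ)) → Monotone W →
  ∀ᶠ n : ℕ in atTop, ∀ (Ω : Type) [MeasurableSpace Ω] (P : Measure Ω) (a : ℕ → Ω → ℕ), Model P a → ∀ i u y : ℕ,
    (n : ℝ) / Real.log n ^ C ≤ u → u + y ≤ n →
    P.real {ω | ((G1 W n i (z0 (2 * n)) u (u + y) (fun q => a q ω)).card : ℝ) <
      (1 - ε) * (G1 W n i (z0 (u + y)) u (u + y) (fun q => a q ω)).card - (n : ℝ) ^ (0.9 : ℝ)} ≤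
      Real.exp (-(n : ℝ) ^ (0.1 : ℝ))

/-- the thinning for one sample -/
def TH5 (W : ℕ → ℕ) (b : ℕ → ℕ) : Prop := ∀ C i m : ℕ, ∀ᶠ n : ℕ in atTop, ∀ u y : ℕ, (n : ℝ) / Real.log n ^ C ≤ u → u + y ≤ n →
  (1 - 1 / ((m : ℝ) + 1)) * ((G1 W n i (z0 (u + y)) u (u + y) b).card : ℝ) - (n : ℝ) ^ (0.9 : ℝ) ≤
    (G1 W n i (z0 (2 * n)) u (u + y) b).card

/-- **THE5** (Borel–Cantelli, 40 lines; uses THP5 as a hypothesis; adapt `Pool/Agent/H531/IX/THE.lean`). `∑_n (n + 1)² exp (-n^0.1) < ∞`,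
`ae_all_iff` for `C, i, m`. -/
def S_THE5 : Prop := S_AZP → S_SQ5 → S_RAI → S_THP5 → ∀ (W : ℕ → ℕ), (∀ᶠ v : ℕ in atTop, (W v : ℝ) ≤ (v : ℝ) ^ (0.1 : ℝ)) →
  Monotone W → ∀ (Ω : Type) [MeasurableSpace Ω] (P : Measure Ω) (a : ℕ → Ω → ℕ), Model P a → ∀ᵐ ω ∂P, TH5 W (fun q => a q ω)

/-- **ONE5** (one summand with iterated index in a window, 130 lines; uses WIN, CNT, NTH, CBE, RGA, SQ5, SMALL as hypotheses; see
`Pool/Agent/H531/IX/ONE.lean` for the same argument with lower bounds).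

Proof. `x' = u + y`, `W = WW c`, `A = RS z0 W b`, `g(e, s) = |G1 W n e s u x' b|`, `F(e) = |G3 (ra A e) A n u x'|`, `ℓ = log n`. `k = 0`: trivial. `k = i + 1`, `e ∈ {0, k}`.
(d) `g(e, z0 (2n)) ≤ F(e) ≤ g(e, z0 x')` (`v ≤ x' ≤ n` gives `x' ≤ 2n - v ≤ 2n`, `z0` monotone; `3 ≤ 2n - v`).
(c) TH5: `(1 - ε') g(e, z0 x') ≤ g(e, z0 (2n)) + n^0.9`.
(b) `g(e, z0 x') ≤ g(e, z0 u) ≤ g(e, z0 x') + Δ`, `Δ ≤ ∑_{q ∈ fr z0 u x'} (y/q + 1) ≤ (y + z0 (2n)) ∑ 1/q ≤ ε' y/ℓ^(k+2)` (SQ5 (3), `y ≤ u/ℓ^(k+3)`, `n^0.995 ≤ y`; the lost `v` have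
`(2n - v) % q = b q` for such a `q`, as `W (2n - v) ≤ n^0.2 ≤ z0 u` by SMALL).
(a) LV at `X = u`, `X2 = x'` (CBE gives `CB`; `n ≤ u²`): `g(k, z0 u) ≤ (1 + ε') (r/ℓ^k) g(0, z0 u) + u^0.99` with a rational `r ∈ (1, 1 + ε')`, and `≥ (1 - ε') (r/ℓ^k) g(0, z0 u) - u^0.99` with
a rational `r ∈ (1 - ε', 1)`; `cl u (r/ℓ^k) = r/ℓ^k` for large `n`; the regularity by RGA for `i` with `β = 0.004`, `C + 2`, `j` between `pin A u - hX u - 1 ≥ n/ℓ^(C+2)` (CNT) and `2n`; `∩ Iic u` may be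
left out since `j + hX u ≤ pin A x' + 3 uX u + hX u ≤ u` (CNT: `pin A x' ≤ 2 x'/log x'`, `x' ≤ 2u`).
Together: `F(k) ≤ (1 + ε')²/(1 - ε') F(0)/ℓ^k + 3 ε' y/ℓ^(k+2)` and the lower bound in the same way. -/
def S_ONE5 : Prop := S_WIN → S_CNT → S_NTH → S_CBE → S_RGA → S_SQ5 → S_SMALL → ∀ (c c₂ : ℝ), 1 < c → 0 < c₂ →
  Tendsto C2 atTop (𝓝 c₂) → ∀ b : ℕ → ℕ, OK z0 (WW c) b → LV (WW c) b → TH5 (WW c) b →
  ∀ (k C : ℕ) (ε : ℝ), 0 < ε → ∀ᶠ n : ℕ in atTop, ∀ u y : ℕ, (n : ℝ) / Real.log n ^ C ≤ u → (n : ℝ) ^ (0.995 : ℝ) ≤ y →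
    (y : ℝ) ≤ u / Real.log n ^ (k + 3) → u + y < n →
    |((G3 (ra (RS z0 (WW c) b) k) (RS z0 (WW c) b) n u (u + y)).card : ℝ) -
      (G3 (RS z0 (WW c) b) (RS z0 (WW c) b) n u (u + y)).card / Real.log n ^ k| ≤
      ε * ((G3 (RS z0 (WW c) b) (RS z0 (WW c) b) n u (u + y)).card / Real.log n ^ k + y / Real.log n ^ (k + 2))

/-- **TWO5** (both summands, 100 lines; uses WIN, CNT, NTH, CBE, RGA as hypotheses; see `Pool/Agent/H531/IX/TWO.lean`).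

Proof. `i = 0`: trivial. `i + 1`: `X = 2n - u - y - 1 ≥ n`, `X2 = X + y`; `v ↦ p = 2n - v` is a bijection of the `v ∈ (u, u + y]` onto `(X, X2]` and `v ≤ u + y ≤ X`
(`u + y < n`), so `|G2 W n e k X X2 b| = |G3 (ra A k) (ra A e) n u (u + y)|`. LV at `X`, `X2` (CBE; `n ≤ X²`) with rational `r` near `1`, the regularity by RGA for `i`
with `β = 0.004`, `C = 2` (`pin A X ≥ X/(2 log X)`, `j ≤ 2n`), `∩ Iic X` may be left out. `X^0.99 ≤ (2n)^0.99 ≤ ε' y/(log n)^(i+k+3)`. -/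
def S_TWO5 : Prop := S_WIN → S_CNT → S_NTH → S_CBE → S_RGA → ∀ (c c₂ : ℝ), 1 < c → 0 < c₂ →
  Tendsto C2 atTop (𝓝 c₂) → ∀ b : ℕ → ℕ, OK z0 (WW c) b → LV (WW c) b →
  ∀ (i k : ℕ) (ε : ℝ), 0 < ε → ∀ᶠ n : ℕ in atTop, ∀ u y : ℕ, (n : ℝ) ^ (0.995 : ℝ) ≤ y → u + y < n →
    |((G3 (ra (RS z0 (WW c) b) k) (ra (RS z0 (WW c) b) i) n u (u + y)).card : ℝ) -
      (G3 (ra (RS z0 (WW c) b) k) (RS z0 (WW c) b) n u (u + y)).card / Real.log n ^ i| ≤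
      ε * ((G3 (ra (RS z0 (WW c) b) k) (RS z0 (WW c) b) n u (u + y)).card / Real.log n ^ i + y / Real.log n ^ (i + k + 2))

/-- **BAS5** (Goldbach in the windows, 60 lines; adapt `Pool/Agent/H531/IX/GOL.lean`).

Proof. `Pool.Agent.H559.SI.gshort` (`Cut (WW c)`: `Pool.Agent.H559.HY.cut_WW c hc`) with `N = 2n`, `δ = 0.9`, `ε/4`: `y ≤ u`, `u + 2y ≤ 2n`; `gw A N u y` is the number of the `v ∈ (u, u + y]`
with `v, 2n - v ∈ A`; `log u/log n → 1`, `log (2n - u)/log n → 1` uniformly for `n/(log n)^C ≤ u ≤ n`. -/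
def S_BAS5 : Prop := ∀ (c c₂ : ℝ), 1 < c → 0 < c₂ → Tendsto C2 atTop (𝓝 c₂) → ∀ b : ℕ → ℕ, OK z0 (WW c) b →
  ∀ (C : ℕ) (ε : ℝ), 0 < ε → ∀ᶠ n : ℕ in atTop, ∀ u y : ℕ, (n : ℝ) / Real.log n ^ C ≤ u → (n : ℝ) ^ (0.995 : ℝ) ≤ y →
    y ≤ u → u + y ≤ n →
    |((G3 (RS z0 (WW c) b) (RS z0 (WW c) b) n u (u + y)).card : ℝ) * Real.log n ^ 2 / (y * TG c₂ (2 * n)) - 1| ≤ ε

/-- **WT5** (the window theorem, 60 lines; uses ONE5, TWO5, BAS5 (as statements about `A`) as hypotheses).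

Proof. `TG c₂ (2n) ≥ 2 c₂ > 0` (`Pool.Agent.H559.HY.TG_ge`). `F(k, i) = |G3 (ra A k) (ra A i) n u (u+y)|`, `ℓ = log n`. BAS5: `F(0,0) = (1 ± ε') TG y/ℓ²`. ONE5:
`F(k,0) = (1 ± ε') F(0,0)/ℓ^k ± ε' y/ℓ^(k+2)`, TWO5: `F(k,i) = (1 ± ε') F(k,0)/ℓ^i ± ε' y/ℓ^(i+k+2)`. (`ra A 0 = A` by definition.) -/
def S_WT5 : Prop := ∀ (A : Set ℕ) (c₂ : ℝ) (i k C : ℕ), 0 < c₂ →
  (∀ ε : ℝ, 0 < ε → ∀ᶠ n : ℕ in atTop, ∀ u y : ℕ, (n : ℝ) / Real.log n ^ C ≤ u → (n : ℝ) ^ (0.995 : ℝ) ≤ y →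
    y ≤ u → u + y ≤ n → |((G3 A A n u (u + y)).card : ℝ) * Real.log n ^ 2 / (y * TG c₂ (2 * n)) - 1| ≤ ε) →
  (∀ ε : ℝ, 0 < ε → ∀ᶠ n : ℕ in atTop, ∀ u y : ℕ, (n : ℝ) / Real.log n ^ C ≤ u → (n : ℝ) ^ (0.995 : ℝ) ≤ y →
    (y : ℝ) ≤ u / Real.log n ^ (k + 3) → u + y < n → |((G3 (ra A k) A n u (u + y)).card : ℝ) -
      (G3 A A n u (u + y)).card / Real.log n ^ k| ≤
      ε * ((G3 A A n u (u + y)).card / Real.log n ^ k + y / Real.log n ^ (k + 2))) →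
  (∀ ε : ℝ, 0 < ε → ∀ᶠ n : ℕ in atTop, ∀ u y : ℕ, (n : ℝ) ^ (0.995 : ℝ) ≤ y → u + y < n →
    |((G3 (ra A k) (ra A i) n u (u + y)).card : ℝ) - (G3 (ra A k) A n u (u + y)).card / Real.log n ^ i| ≤
      ε * ((G3 (ra A k) A n u (u + y)).card / Real.log n ^ i + y / Real.log n ^ (i + k + 2))) →
  ∀ ε : ℝ, 0 < ε → ∀ᶠ n : ℕ in atTop, ∀ u y : ℕ, (n : ℝ) / Real.log n ^ C ≤ u → (n : ℝ) ^ (0.995 : ℝ) ≤ y →
    (y : ℝ) ≤ u / Real.log n ^ (k + 3) → u + y < n →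
    |((G3 (ra A k) (ra A i) n u (u + y)).card : ℝ) * Real.log n ^ (i + k + 2) / (y * TG c₂ (2 * n)) - 1| ≤ ε

/-- **SUM5** (summation over the windows, 90 lines). `B`, `B'` arbitrary sets; `C = e + 1`.

Proof. `ℓ = log n`, `u₀ = ⌈n/ℓ^(e+1)⌉₊`, `y = ⌊n/ℓ^(e+1+d+1)⌋₊`, `J = ⌊(n - 1 - u₀)/y⌋` (natural division). The windows `(u₀ + j y, u₀ + (j+1) y]`, `j < J`, satisfy the
conditions (`u₀ + (j+1) y ≤ n - 1 < n`, `y ≤ n/ℓ^(e+1+d) ≤ u₀/ℓ^d`, `n^0.995 ≤ y` for large `n`); the rest of `(0, n-1]` has at most `u₀ + y ≤ 3 n/ℓ^(e+1)`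
elements, and `(n - u₀ - 1 - y)/y ≤ J ≤ n/y`. So `|G3 B B' n 0 (n-1)| = (1 ± ε') J y TG/ℓ^e + O(3n/ℓ^(e+1))`, `J y = n (1 ± ε')`, and `TG c₂ (2n) ≥ 2 c₂ > 0`
(`Pool.Agent.H559.HY.TG_ge`). -/
def S_SUM5 : Prop := ∀ (B B' : Set ℕ) (c₂ : ℝ) (e d : ℕ), 0 < c₂ →
  (∀ ε : ℝ, 0 < ε → ∀ᶠ n : ℕ in atTop, ∀ u y : ℕ, (n : ℝ) / Real.log n ^ (e + 1) ≤ u → (n : ℝ) ^ (0.995 : ℝ) ≤ y →
    (y : ℝ) ≤ u / Real.log n ^ d → u + y < n →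
    |((G3 B B' n u (u + y)).card : ℝ) * Real.log n ^ e / (y * TG c₂ (2 * n)) - 1| ≤ ε) →
  Tendsto (fun n : ℕ => ((G3 B B' n 0 (n - 1)).card : ℝ) * Real.log n ^ e / (n * TG c₂ (2 * n))) atTop (𝓝 1)

/-- **BIJ5** (50 lines; uses RAI, NTH as hypotheses). Both sets are bijective images: `(x, y) ↦ ((rk A)^[i+1] x, (rk A)^[k+1] y)` is injective on the `x, y ≥ 1`
(`rk A` is injective on the `m ≥ 1` with values `≥ 1`: NTH; the values are the elements of `ra A i`, `ra A k`: induction, for the converse RAI (1)); the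
representations with second summand `v < n` correspond to `G3 (ra A k) (ra A i) n 0 (n-1)`, those with first summand `v < n` to `G3 (ra A i) (ra A k) n 0 (n-1)`.
Second formula: `p < n`: `v = p ∈ ra A 1`, `2n - v ∈ A`; `p > n`: `v = 2n - p ∈ A`, `2n - v ∈ ra A 1`; `p = n` is at most one. -/
def S_BIJ5 : Prop := S_RAI → S_NTH → ∀ A : Set ℕ, A.Infinite → 0 ∉ A → ∀ n : ℕ,
  (∀ i k : ℕ, {w : ℕ × ℕ | 1 ≤ w.1 ∧ 1 ≤ w.2 ∧ (rk A)^[i + 1] w.1 + (rk A)^[k + 1] w.2 = 2 * n ∧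
      (rk A)^[i + 1] w.1 ≠ (rk A)^[k + 1] w.2}.ncard =
    (G3 (ra A k) (ra A i) n 0 (n - 1)).card + (G3 (ra A i) (ra A k) n 0 (n - 1)).card) ∧
  (G3 (ra A 1) A n 0 (n - 1)).card + (G3 A (ra A 1) n 0 (n - 1)).card ≤
    {p : ℕ | p ∈ A ∧ p < 2 * n ∧ pin A p ∈ A ∧ 2 * n - p ∈ A}.ncard ∧
  {p : ℕ | p ∈ A ∧ p < 2 * n ∧ pin A p ∈ A ∧ 2 * n - p ∈ A}.ncard ≤
    (G3 (ra A 1) A n 0 (n - 1)).card + (G3 A (ra A 1) n 0 (n - 1)).card + 1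

end Pool.Agent.H531.IX
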