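import Pool.Agent.H531.IX.Fin1
import Pool.Agent.H531.IX.Stm5

set_option autoImplicit false

/-!
# The asymptotic number of representations by two iterated random primes: assembly
-/

open Finset MeasureTheory ProbabilityTheory Filter Topology

namespace Pool.Agent.H531.IX

open Pool.Agent.T2H32.BF (Model z0 V)
open Pool.Agent.H559.BS (Limit)
open Pool.Agent.H559.HY (OK WW Cut TG)
open Pool.Agent.T2H32.GB (C2)

/-- the asymptotic formula for the representations with the smaller summand `v` in `ra A k`, the larger one in `ra A i` -/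
theorem half5 (hcnt : S_CNT) (hrga : S_RGA) (hsq : S_SQ5) (hone : S_ONE5) (htwo : S_TWO5) (hbas : S_BAS5) (hwt : S_WT5)
    (hsum : S_SUM5) (c c₂ : ℝ) (hc : 1 < c) (hc0 : 0 < c₂) (hlim : Tendsto C2 atTop (𝓝 c₂)) (b : ℕ → ℕ)
    (hOK : OK z0 (WW c) b) (hLV : LV (WW c) b) (hTH : TH5 (WW c) b) (i k : ℕ) :
    Tendsto (fun n : ℕ => ((G3 (ra (RS z0 (WW c) b) k) (ra (RS z0 (WW c) b) i) n 0 (n - 1)).card : ℝ) *
      Real.log n ^ (i + k + 2) / (n * TG c₂ (2 * n))) atTop (𝓝 1) :=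
  hsum _ _ c₂ (i + k + 2) (k + 3) hc0 (hwt (RS z0 (WW c) b) c₂ i k (i + k + 2 + 1) hc0
    (fun ε hε => hbas c c₂ hc hc0 hlim b hOK _ ε hε)
    (fun ε hε => hone win hcnt nth cbe hrga hsq small c c₂ hc hc0 hlim b hOK hLV hTH k _ ε hε)
    (fun ε hε => htwo win hcnt nth cbe hrga c c₂ hc hc0 hlim b hOK hLV i k ε hε))

theorem TG_pos5 (c₂ : ℝ) (hc0 : 0 < c₂) (n : ℕ) : 0 < TG c₂ n :=
  lt_of_lt_of_le (by linarith) (Pool.Agent.H559.HY.TG_ge c₂ hc0 n)

/-- **the two theorems**: all fixed types, and the question with the index -/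
theorem fin5 (hcnt : S_CNT) (hrai : S_RAI) (hrga : S_RGA) (hlve : S_LVE) (hsq : S_SQ5) (hthp : S_THP5) (hthe : S_THE5)
    (hone : S_ONE5) (htwo : S_TWO5) (hbas : S_BAS5) (hwt : S_WT5) (hsum : S_SUM5) (hbij : S_BIJ5) (c c₂ : ℝ) (hc : 1 < c)
    (hc0 : 0 < c₂) (hlim : Tendsto C2 atTop (𝓝 c₂))
    (Ω : Type) [MeasurableSpace Ω] (P : Measure Ω) (a : ℕ → Ω → ℕ) (hM : Model P a) :
    ∀ᵐ ω ∂P, (RS z0 (WW c) (fun q => a q ω)).Infinite ∧
      (∀ i k : ℕ, Tendsto (fun n : ℕ => ({w : ℕ × ℕ | 1 ≤ w.1 ∧ 1 ≤ w.2 ∧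
        (rk (RS z0 (WW c) (fun q => a q ω)))^[i + 1] w.1 + (rk (RS z0 (WW c) (fun q => a q ω)))^[k + 1] w.2 = 2 * n ∧
        (rk (RS z0 (WW c) (fun q => a q ω)))^[i + 1] w.1 ≠ (rk (RS z0 (WW c) (fun q => a q ω)))^[k + 1] w.2}.ncard : ℝ) *
        Real.log n ^ (i + k + 2) / (2 * n * TG c₂ (2 * n))) atTop (𝓝 1)) ∧
      Tendsto (fun n : ℕ => ({p : ℕ | p ∈ RS z0 (WW c) (fun q => a q ω) ∧ p < 2 * n ∧
        pin (RS z0 (WW c) (fun q => a q ω)) p ∈ RS z0 (WW c) (fun q => a q ω) ∧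
        2 * n - p ∈ RS z0 (WW c) (fun q => a q ω)}.ncard : ℝ) *
        Real.log n ^ 3 / (2 * n * TG c₂ (2 * n))) atTop (𝓝 1) := by
  have hW := small c (by linarith)
  filter_upwards [aee law zd_limit small c hc Ω P a hM, hlve law hrai small c hc Ω P a hM,
    hthe (azp (az evu)) hsq hrai hthp (WW c) hW.1 hW.2.1 Ω P a hM] with ω h1 h2 h3
  have hinf := rs_inf hcnt c c₂ hc hlim _ h1.1
  have h0 : 0 ∉ RS z0 (WW c) (fun q => a q ω) := zero_notMem _ _ _
  have hh := half5 hcnt hrga hsq hone htwo hbas hwt hsum c c₂ hc hc0 hlim _ h1.1 h2 h3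
  have hb := hbij hrai nth _ hinf h0
  set A := RS z0 (WW c) (fun q => a q ω) with hA
  refine ⟨hinf, fun i k => ?_, ?_⟩
  · have e1 := ((hh i k).add (hh k i)).div_const 2
    rw [show ((1 : ℝ) + 1) / 2 = 1 by norm_num] at e1
    refine e1.congr fun n => ?_
    rw [(hb n).1 i k, Nat.cast_add, show k + i + 2 = i + k + 2 by ring]
    ring
  · have e1 := ((hh 0 1).add (hh 1 0)).div_const 2
    rw [show ((1 : ℝ) + 1) / 2 = 1 by norm_num] at e1
    have e2 : Tendsto (fun n : ℕ => Real.log n ^ 3 / (2 * n * TG c₂ (2 * n))) atTop (𝓝 0) := by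
      have e3 : Tendsto (fun n : ℕ => Real.log n ^ 3 / (n : ℝ)) atTop (𝓝 0) := by
        have e4 : Tendsto (fun x : ℝ => Real.log x ^ 3 / x) atTop (𝓝 0) := by
          have := Real.tendsto_pow_log_div_mul_add_atTop 1 0 3 one_ne_zero
          simpa using this
        exact e4.comp tendsto_natCast_atTop_atTop
      have e5 := e3.div_const (4 * c₂)
      rw [zero_div] at e5
      refine squeeze_zero' ?_ ?_ e5
      · filter_upwards with n
        have := TG_pos5 c₂ hc0 (2 * n)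
        have := Real.log_natCast_nonneg n
        positivity
      · filter_upwards [eventually_ge_atTop 1] with n hn
        have hn0 : (0 : ℝ) < n := by exact_mod_cast hn
        have e6 := Pool.Agent.H559.HY.TG_ge c₂ hc0 (2 * n)
        have e7 : (0 : ℝ) ≤ Real.log n ^ 3 := pow_nonneg (Real.log_natCast_nonneg n) 3
        rw [div_div]
        refine div_le_div_of_nonneg_left e7 (by positivity) ?_
        nlinarith
    have e3 := e1.add e2
    rw [add_zero (1 : ℝ)] at e3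
    refine tendsto_of_tendsto_of_tendsto_of_le_of_le e1 e3 (fun n => ?_) (fun n => ?_)
    · have e4 : (((G3 (ra A 1) A n 0 (n - 1)).card + (G3 A (ra A 1) n 0 (n - 1)).card : ℕ) : ℝ) ≤
          ({p : ℕ | p ∈ A ∧ p < 2 * n ∧ pin A p ∈ A ∧ 2 * n - p ∈ A}.ncard : ℝ) := by exact_mod_cast (hb n).2.1
      rw [Nat.cast_add] at e4
      have e5 : (0 : ℝ) ≤ Real.log n ^ 3 / (2 * n * TG c₂ (2 * n)) := by
        have := TG_pos5 c₂ hc0 (2 * n)
        have := Real.log_natCast_nonneg n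
        positivity
      have e6 := mul_le_mul_of_nonneg_right e4 e5
      calc _ = (((G3 (ra A 1) A n 0 (n - 1)).card : ℝ) + (G3 A (ra A 1) n 0 (n - 1)).card) *
            (Real.log n ^ 3 / (2 * n * TG c₂ (2 * n))) := by
              change (((G3 (ra A 1) (ra A 0) n 0 (n - 1)).card : ℝ) * Real.log n ^ (0 + 1 + 2) / (n * TG c₂ (2 * n)) +
                ((G3 (ra A 0) (ra A 1) n 0 (n - 1)).card : ℝ) * Real.log n ^ (1 + 0 + 2) / (n * TG c₂ (2 * n))) / 2 = _
              change _ = (((G3 (ra A 1) (ra A 0) n 0 (n - 1)).card : ℝ) + (G3 (ra A 0) (ra A 1) n 0 (n - 1)).card) *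
                (Real.log n ^ 3 / (2 * n * TG c₂ (2 * n)))
              rw [show 0 + 1 + 2 = 3 from rfl]
              ring
        _ ≤ _ := e6
        _ = _ := by ring
    · have e4 : ({p : ℕ | p ∈ A ∧ p < 2 * n ∧ pin A p ∈ A ∧ 2 * n - p ∈ A}.ncard : ℝ) ≤
          (((G3 (ra A 1) A n 0 (n - 1)).card + (G3 A (ra A 1) n 0 (n - 1)).card + 1 : ℕ) : ℝ) := by
        exact_mod_cast (hb n).2.2
      rw [Nat.cast_add, Nat.cast_add, Nat.cast_one] at e4
      have e5 : (0 : ℝ) ≤ Real.log n ^ 3 / (2 * n * TG c₂ (2 * n)) := by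
        have := TG_pos5 c₂ hc0 (2 * n)
        have := Real.log_natCast_nonneg n
        positivity
      have e6 := mul_le_mul_of_nonneg_right e4 e5
      calc _ = _ := by ring
        _ ≤ _ := e6
        _ = _ := by
              change (((G3 (ra A 1) (ra A 0) n 0 (n - 1)).card : ℝ) + (G3 (ra A 0) (ra A 1) n 0 (n - 1)).card + 1) *
                (Real.log n ^ 3 / (2 * n * TG c₂ (2 * n))) =
                (((G3 (ra A 1) (ra A 0) n 0 (n - 1)).card : ℝ) * Real.log n ^ (0 + 1 + 2) / (n * TG c₂ (2 * n)) +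
                ((G3 (ra A 0) (ra A 1) n 0 (n - 1)).card : ℝ) * Real.log n ^ (1 + 0 + 2) / (n * TG c₂ (2 * n))) / 2 +
                Real.log n ^ 3 / (2 * n * TG c₂ (2 * n))
              rw [show 0 + 1 + 2 = 3 from rfl]
              ring

end Pool.Agent.H531.IX
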