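import Pool.Agent.H531.IX.Stm5
import Pool.Agent.H559.SI.GWF

set_option autoImplicit false

/-!
# Goldbach representations with a twin condition on the index (MP_0ec542) in the random sieve model: statements

`A = RS z0 (WW c) b` (the random primes), `r_m = rk A m`. The number of the `q ∈ A` with `2n - q ∈ A` and `r_{q+2} + 2 ∈ A` is
asymptotic to `2 c₂ TG c₂ (2n) · 2n/(log n)³` (`TG`: the Goldbach singular series). Same plan as for MP_ea8352 (`Stm2.lean`: TE, REG1, OKE, AEE,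
NA, EAU, EAL, NEA), with `L = 2 n log n` in place of `n log n`.
-/

open Finset MeasureTheory ProbabilityTheory Filter Topology

namespace Pool.Agent.H531.IX

open Pool.Agent.T2H32.BF (Model z0 V)
open Pool.Agent.H559.BS (Limit)
open Pool.Agent.H559.HY (OK WW Cut TG)
open Pool.Agent.H559.SI (gw)
open Pool.Agent.T2H32.GB (C2)

/-- the possible indices: `m = q + 2`, `q + s = 2n`, `q, s ∈ A`, `q, s ≥ n ^ (1 - κ)` -/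
def TQ (A : Set ℕ) (κ : ℝ) (n : ℕ) : Set ℕ :=
  {m | ∃ q s : ℕ, m = q + 2 ∧ q + s = 2 * n ∧ q ∈ A ∧ s ∈ A ∧ (n : ℝ) ^ (1 - κ) ≤ q ∧ (n : ℝ) ^ (1 - κ) ≤ s}

/-- **TGU** (a bound for the singular series, 40 lines).

Proof. `Pool.Agent.H559.SI.gshort` (`z0`: `⟨z0_mono, z0_lim⟩ : Limit z0`; `Pool.Agent.H559.HY.cut_WW c hc`) with `N = 2n`, `δ = 1/2`, `ε = 1/2`, `u = n/2`, `y = n/4` (natural
division): `gw A N u y ≥ (1/2) y TG/(log u log (2n - u))`; and `gw A N u y` is at most the number of the elements of `A` in `(u, u + y]`, which is at most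
`(3/2) y/log u` by WIN. So `TG ≤ 3 log (2n - u) ≤ 3 log (2n) ≤ 4 log n`. -/
def S_TGU : Prop := S_WIN → ∀ (c c₂ : ℝ), 1 < c → 0 < c₂ → Tendsto C2 atTop (𝓝 c₂) → ∀ b : ℕ → ℕ, OK z0 (WW c) b →
  ∀ᶠ n : ℕ in atTop, TG c₂ (2 * n) ≤ 4 * Real.log n

/-- **REGQ** (100 lines).

Proof. `R = RS z (WW c) b`, `ℓ = log n`, `D = TG c₂ (2n) ≥ 2 c₂ > 0` (`Pool.Agent.H559.HY.TG_ge`), `ε' = ε/8` (w.l.o.g. `ε ≤ 1`).
`Pool.Agent.H559.SI.gshort z (WW c) hz (Pool.Agent.H559.HY.cut_WW c hc) b hOK c₂ …` with `N = 2n`, `δ = α/2`, `ε'`: for `h ≤ u`, `u + 2h ≤ 2n`: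
`|gw R (2n) u h · (log u · log (2n - u))/(h D) - 1| ≤ ε'`; `gw R (2n) u h` is the number of the `q ∈ (u, u + h]` with `q, 2n - q ∈ R`. (`(2n)^(α/2) ≤ n^α ≤ h`.)
(1) Let `a = ⌈n^(1-κ)⌉`. If the intersection is empty there is nothing to prove. `m = q + 2 ∈ (j, j+h]`, `q ≥ a`: all these `q` lie in `(u, u + h]`,
`u = max (j - 2) (a - 1)` (if `j < 2` then `q ∈ (0, h]`, but `q ≥ a > h + 2`: empty; if `u = a - 1 > j - 2` then `u + h ≥ j + h - 2`). As `q ≤ 2n - n^(1-κ)` for one `q > u`: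
`2n - u ≥ n^(1-κ)` and `u + 2h ≤ 2n` (`2h ≤ 2 n^(1/2) ≤ n^(1-κ)`), `h ≤ u`. One of `u`, `2n - u` is `≥ n`, the other `≥ n^(1-κ) - 1`, so
`log u · log (2n - u) ≥ ℓ · log (n^(1-κ) - 1) ≥ (1 - ε'')(1-κ) ℓ²`. `m ↦ m - 2` is injective on the `m ≥ 2`.
(2) `u = j - 2 ≥ n^(1-κ)` (`n^(1-κ) ≥ 2`), `u + h + 2 n^(1-κ) ≤ 2n`: `u + 2h ≤ 2n`; all `q` counted by `gw R (2n) u h` have `q > u ≥ n^(1-κ)` and `s = 2n - q ≥ n^(1-κ)`, so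
`q + 2 ∈ TQ ∩ (j, j+h]`: at least `(1 - ε') h D/(log u · log (2n - u)) ≥ (1 - ε') h D/(log (2n))²`. -/
def S_REGQ : Prop := ∀ (z : ℕ → ℕ), Limit z → ∀ (c c₂ : ℝ), 1 < c → 0 < c₂ → Tendsto C2 atTop (𝓝 c₂) →
  ∀ b : ℕ → ℕ, OK z (WW c) b → ∀ α κ ε : ℝ, 0 < α → 0 < κ → κ ≤ 1 / 4 → 0 < ε → ∀ᶠ n : ℕ in atTop, ∀ j h : ℕ,
    (n : ℝ) ^ α ≤ h → (h : ℝ) ≤ (n : ℝ) ^ (1 / 2 : ℝ) →
    ((TQ (RS z (WW c) b) κ n ∩ Set.Ioc j (j + h)).ncard : ℝ) ≤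
      (1 + ε) * TG c₂ (2 * n) / ((1 - κ) * Real.log n ^ 2) * h ∧
    (2 * (n : ℝ) ^ (1 - κ) ≤ j → (j : ℝ) + h + 2 * (n : ℝ) ^ (1 - κ) ≤ 2 * n →
      (1 - ε) * TG c₂ (2 * n) / Real.log n ^ 2 * h ≤ ((TQ (RS z (WW c) b) κ n ∩ Set.Ioc j (j + h)).ncard : ℝ))

/-- what is needed from the model for MP_0ec542 (`δ, κ, r` rational) -/
def OKQ (c c₂ : ℝ) (b : ℕ → ℕ) : Prop :=
  OK z0 (WW c) b ∧ (∀ δ : ℚ, 0 < δ → δ ≤ 1 → OK (zd δ) (WW c) b) ∧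
  ∀ (δ κ r : ℚ) (k : ℕ), 0 < δ → δ ≤ 1 → 0 < κ → 0 < r →
    Law (WW c) {0, 2} 2 (1 / ((k : ℝ) + 1)) (fun _ _ _ => Set.univ)
      (fun n X b _ => if ⌈2 * (δ : ℝ) * n⌉₊ ≤ X then TQ (RS (zd δ) (WW c) b) κ n else ∅)
      (fun n X _ => cl X (r * TG c₂ (2 * n) / Real.log n ^ 2)) b

/-- **AEQ** (60 lines; uses AEL, ZD, SMALL as hypotheses; adapt `Pool/Agent/H531/IX/AEE.lean`, which proves the same for `TE`).

Proof. `Pool.Agent.H559.HY.ae_OK h (zd δ) (WW c) (hZD δ _ _) (cut_WW c hc)` for the rational `δ` (and for `z0`: `Limit z0`), `ae_all_iff`.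
The `Law`s: AEL with `H = {0, 2}`, `A = 2`. The dependence: if `2 δ n ≤ X` then `TQ (RS (zd δ) W b) κ n` depends on the coordinates
`q ≤ z0 X` only: the elements `v = q, s ≤ 2n`, `zd δ v = z0 ⌊δ v⌋ ≤ z0 X`. `cl` is in `[X^(-0.001), 1]` (`X^(-0.001) ≤ 1`, also for `X = 0`). -/
def S_AEQ : Prop := S_AEL → S_ZD → S_SMALL → ∀ (c c₂ : ℝ), 1 < c →
  ∀ (Ω : Type) [MeasurableSpace Ω] (P : Measure Ω) (a : ℕ → Ω → ℕ), Model P a → ∀ᵐ ω ∂P, OKQ c c₂ (fun q => a q ω)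

/-- the number of the representations in terms of the `p = r_{q+2}`: `p, p + 2 ∈ A`, index `q + 2`, `q, 2n - q ∈ A` -/
noncomputable def NQ (A : Set ℕ) (n : ℕ) : ℕ :=
  {p : ℕ | p ∈ A ∧ p + 2 ∈ A ∧ ∃ q s : ℕ, pin A p = q + 2 ∧ q + s = 2 * n ∧ q ∈ A ∧ s ∈ A}.ncard

/-- **QAU** (upper bound, 150 lines; uses WIN, CNT, CBE, CHN, REGQ, TGU, SMALL, ZD as hypotheses; adapt `Pool/Agent/H531/IX/EAU.lean` (theorem for `TE`, `NA`), the proof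
is the same).

Proof. `R = RS z0 (WW c) b`, `L = 2 n log n`, `D = TG c₂ (2n)`, small rational `κ, η, δ > 0` and `k` large, `r` rational slightly larger than `1/(1-κ)`
(`r ≥ (1 + ε')/(1-κ)`); `t n = r D/(log n)²` (`≤ 1` by TGU, `≥ X^(-0.001)` by `D ≥ 2 c₂`). The `p` counted by `NQ R n` are of the following kinds.
I. `q < n^(1-κ)` or `s < n^(1-κ)`: at most `2 (n^(1-κ) + 1)` (the index is injective on `R`).
II. `p ≤ 2 δ n + 1` and `pin p ∈ TQ R κ n`: the index is at most `M = pin (2δn + 1) ≤ 3 δ n/log n` (CNT), the number is at most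
`|TQ R κ n ∩ (0, M]| ≤ (M/h + 1) t h ≤ 2 t M` by REGQ with `h = ⌈n^(1/4)⌉`: `≤ 6 r δ D n/(log n)³`.
III. `2 δ n ≤ p ≤ 2 n + 1`: `RS z0 ⊆ RS (zd δ)` (`zd δ ≤ z0`), so the index is in `T = TQ (RS (zd δ) (WW c) b) κ n`; CHN with `X = ⌈2 δ n⌉`,
`Y = 2n + 1`, regularity by REGQ for `zd δ` (`h` between `hX X ≥ n^0.004` and `hX Y ≤ √n`; all `j`): at most
`2 t tw(0, 2n+1) + (2n+1)^0.995 ≤ C D n/(log n)⁴`.
IV. `2 n ≤ p`: the index is `≤ 2n + 2 ≤ pin ((1 + η) L)` (CNT: `pin ((1+η)L) ~ (1+η) 2n`), so `p ≤ (1+η) L`; CHN with `δ = 1`, `X = 2n`,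
`Y = ⌊(1+η)L⌋` (`zd 1 = z0` up to `⌊1 * v⌋ = v`): at most `(1 + 1/(k+1)) t tw(0, Y) + Y^0.995`, and `tw(0, Y) ~ 2 c₂ (1+η) 2n/log n`
(`log Y ~ log n`). (`MT … {0,2} univ X Y b ≤ tw R 0 Y`.)
Sum: `limsup NQ (log n)³/(n D) ≤ 6 r δ + (1 + 1/(k+1)) r 4 c₂ (1 + η)`; choose the parameters. -/
def S_QAU : Prop := S_WIN → S_CNT → S_CBE → S_CHN → S_REGQ → S_TGU → S_SMALL → S_ZD → ∀ (c c₂ : ℝ), 1 < c → 0 < c₂ →
  Tendsto C2 atTop (𝓝 c₂) → ∀ b : ℕ → ℕ, OKQ c c₂ b → ∀ ε : ℝ, 0 < ε →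
  ∀ᶠ n : ℕ in atTop, (NQ (RS z0 (WW c) b) n : ℝ) * Real.log n ^ 3 / (n * TG c₂ (2 * n)) ≤ 4 * c₂ + ε

/-- **QAL** (lower bound, 100 lines; uses WIN, CNT, CBE, CHN, REGQ, TGU, SMALL, ZD as hypotheses; adapt `Pool/Agent/H531/IX/EAL.lean`, the proof is the same).

Proof. Notation as in QAU; `r` rational slightly smaller than `1`, `κ = 1/4`, `δ = 1`, `X = ⌈η L⌉`, `Y = ⌊(1 - η) L⌋` (`X ≥ 2 n`). For
`pin X ≤ j + h + 1`, `j ≤ pin Y + 3 uX Y`, `h ≤ hX Y`: `j ≥ η n ≥ 2 n^(3/4)` (`pin X ~ 2 η n`) and `j + h + 2 n^(3/4) ≤ 2n` (`pin Y ~ (1-η) 2n`), so REGQ (2) gives the lower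
regularity with `t n = r D/(log n)²`. All the `p ∈ (X, Y]` counted by `NT` are counted by `NQ`. CHN:
`NQ ≥ (1 - 1/(k+1)) t MT(X, Y) - Y^0.995`, and `MT = tw (X, Y) = tw (0, Y) - tw (0, X) ~ 2 c₂ (1 - 2η) 2n/log n`. -/
def S_QAL : Prop := S_WIN → S_CNT → S_CBE → S_CHN → S_REGQ → S_TGU → S_SMALL → S_ZD → ∀ (c c₂ : ℝ), 1 < c → 0 < c₂ →
  Tendsto C2 atTop (𝓝 c₂) → ∀ b : ℕ → ℕ, OKQ c c₂ b → ∀ ε : ℝ, 0 < ε →
  ∀ᶠ n : ℕ in atTop, 4 * c₂ - ε ≤ (NQ (RS z0 (WW c) b) n : ℝ) * Real.log n ^ 3 / (n * TG c₂ (2 * n))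

/-- the number of the `q` with `q`, `2n - q ∈ A`, `r_{q+2} + 2 ∈ A` -/
noncomputable def NG (A : Set ℕ) (n : ℕ) : ℕ :=
  {q : ℕ | q ∈ A ∧ q < 2 * n ∧ 2 * n - q ∈ A ∧ rk A (q + 2) + 2 ∈ A}.ncard

/-- **NGQ** (30 lines; uses NTH as a hypothesis; see `Pool/Agent/H531/IX/NEA.lean`). `q ↦ p = rk A (q + 2)` is a bijection (inverse `p ↦ pin A p - 2`; `s = 2n - q ∈ A` gives
`s ≥ 1`, so `q < 2n`). -/
def S_NGQ : Prop := S_NTH → ∀ A : Set ℕ, A.Infinite → 0 ∉ A → ∀ n, NG A n = NQ A n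

end Pool.Agent.H531.IX
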