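import Pool.Agent.H531.IX.Fin1
import Pool.Agent.H531.IX.Stm6

set_option autoImplicit false

/-!
# The asymptotic number of Goldbach representations with a twin condition on the index: assembly
-/

open Finset MeasureTheory ProbabilityTheory Filter Topology

namespace Pool.Agent.H531.IX

open Pool.Agent.T2H32.BF (Model z0 V)
open Pool.Agent.H559.BS (Limit)
open Pool.Agent.H559.HY (OK WW Cut TG)
open Pool.Agent.T2H32.GB (C2)

theorem fin6 (hcnt : S_CNT) (hchn : S_CHN) (htgu : S_TGU) (hregq : S_REGQ) (haeq : S_AEQ) (hqau : S_QAU) (hqal : S_QAL)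
    (hngq : S_NGQ) (c c₂ : ℝ) (hc : 1 < c) (h0 : 0 < c₂) (hc₂ : Tendsto C2 atTop (𝓝 c₂))
    (Ω : Type) [MeasurableSpace Ω] (P : Measure Ω) (a : ℕ → Ω → ℕ) (hM : Model P a) :
    ∀ᵐ ω ∂P, (RS z0 (WW c) (fun q => a q ω)).Infinite ∧
      Tendsto (fun n : ℕ => (NG (RS z0 (WW c) (fun q => a q ω)) n : ℝ) * Real.log n ^ 3 /
        (2 * c₂ * TG c₂ (2 * n) * (2 * n))) atTop (𝓝 1) := by
  filter_upwards [haeq law zd_limit small c c₂ hc Ω P a hM] with ω hω
  have hinf := rs_inf hcnt c c₂ hc hc₂ _ hω.1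
  refine ⟨hinf, ?_⟩
  have hNG : ∀ n, NG (RS z0 (WW c) (fun q => a q ω)) n = NQ (RS z0 (WW c) (fun q => a q ω)) n :=
    hngq nth _ hinf (zero_notMem _ _ _)
  simp_rw [hNG]
  have key : Tendsto (fun n : ℕ => (NQ (RS z0 (WW c) (fun q => a q ω)) n : ℝ) * Real.log n ^ 3 /
      (n * TG c₂ (2 * n))) atTop (𝓝 (4 * c₂)) := by
    rw [Metric.tendsto_atTop]
    intro ε hε
    have h1 := hqau win hcnt cbe hchn hregq htgu small zd_limit c c₂ hc h0 hc₂ _ hω (ε / 2) (half_pos hε)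
    have h2 := hqal win hcnt cbe hchn hregq htgu small zd_limit c c₂ hc h0 hc₂ _ hω (ε / 2) (half_pos hε)
    obtain ⟨N, hN⟩ := eventually_atTop.1 (h1.and h2)
    refine ⟨N, fun n hn => ?_⟩
    obtain ⟨h3, h4⟩ := hN n hn
    rw [Real.dist_eq, abs_lt]
    constructor <;> linarith
  have k2 := key.div_const (4 * c₂)
  rw [div_self (by positivity)] at k2
  refine k2.congr fun n => ?_
  rw [div_div]
  congr 1
  ring

end Pool.Agent.H531.IX
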