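import Pool.Agent.H531.IX.Stm2

set_option autoImplicit false

/-!
# The place of a random prime with given index (MP_be93de): statements

`r_m` is the `m`-th random prime. For a finite deterministic set `T` of indices (e.g. `{k ^ e * n : k ≤ K}`) the number of the `m ∈ T` with
`r_m + 2` a random prime is asymptotic to `∑ 2 c₂/log r_m`, as soon as `|T|` is a bit larger than `X ^ 0.246`, where `r_m ≈ X`. In contrast to the law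
of `Stm.lean` (`Law`, for dense sets `T`) the proof treats every index `t` separately: given the classes modulo the primes `≤ z0 x` the place of `r_t`
in the block `(x + u, x + 2u]` is smeared out by the fresh primes over more than `X ^ 0.01` consecutive survivors.
-/

open Finset MeasureTheory ProbabilityTheory Filter Topology

namespace Pool.Agent.H531.IX

open Pool.Agent.T2H31.HV (Pt Ev Dep)
open Pool.Agent.T2H32.BF (Model z0 V)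
open Pool.Agent.H559.BS (Limit)
open Pool.Agent.H559.HY (OK WW Cut)
open Pool.Agent.T2H32.GB (C2)

/-- the distribution of the number of the removed elements -/
noncomputable def dd (L O : Finset ℕ) (S : ℕ → ℕ → Prop) [∀ q v, Decidable (S q v)] (a : ℕ) : ℝ :=
  Ev L (fun b => if DD L O S b = a then 1 else 0)

/-- **TV1** (60 lines; uses LOC as a hypothesis).

Proof. `R = 2/√c + 2|O|(∑1/q)²`. LOC with `F j = [j ≤ a]`: `Ev [DD ≤ a] - Ev [DD + 1 ≤ a] = dd a ≤ R`. With `F j = [j - 1 ∈ Z⁺, j ≥ 1]`,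
`Z⁺ = {a ∈ Z : dd a ≥ dd (a + 1)}`: `Ev (F ∘ (DD + 1)) = ∑_{a ∈ Z⁺} dd a`, `Ev (F ∘ DD) = ∑_{a ∈ Z⁺} dd (a+1)`, so the sum over `Z⁺` is `≤ R`; in the same way for
`Z \ Z⁺`. `DD ≤ |L|`: every `q ∈ L` removes at most one element of `O` (injectivity), so `dd a = 0` for `a > |L|`. -/
def S_TV1 : Prop := S_LOC → ∀ (L O : Finset ℕ) (S : ℕ → ℕ → Prop) [∀ q v, Decidable (S q v)] (c : ℝ),
  (∀ q ∈ L, q.Prime ∧ 2 * O.card ≤ q) → 0 < c →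
  (∀ q ∈ L, ∀ v ∈ O, ∀ v' ∈ O, v % q = v' % q → v = v') →
  c ≤ ∑ q ∈ L, ((O.filter (S q)).card : ℝ) / q →
  (∀ a, 0 ≤ dd L O S a ∧ dd L O S a ≤ 2 / √c + 2 * O.card * (∑ q ∈ L, 1 / (q : ℝ)) ^ 2) ∧
  (∀ a, L.card < a → dd L O S a = 0) ∧
  ∀ Z : Finset ℕ, ∑ a ∈ Z, |dd L O S a - dd L O S (a + 1)| ≤ 2 * (2 / √c + 2 * O.card * (∑ q ∈ L, 1 / (q : ℝ)) ^ 2)

open Classical in
/-- **AVG** (elementary, 80 lines).

Proof. For finite `D` and `s`: `|∑_{k ∈ D, s ≤ k} g (k - s) - ∑_{k ∈ D, s + 1 ≤ k} g (k - s - 1)| ≤ g 0 + ∑_a |g (a+1) - g a| ≤ 3ρ`. So for `i < h` the sum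
`∑_{k ∈ D, t ≤ k} g (k - t)` differs from `∑_{k ∈ D, t + i ≤ k} g (k - t - i)` by at most `3 h ρ`. The sum of the latter over `i < h` is
`∑_{a ≤ M} g a · |D ∩ [t + a, t + a + h - 1]|`. A window `(j, j+h]` that is not inside `(K1, K2]` meets `D` in a subset of the window `(j', j'+h]`,
`j' = max K1 (min j (K2 - h))`. Upper bound: the sum is at most `τ h ∑ g a` over the `a` with `K1 < t + a + h - 1`, `t + a ≤ K2`, and all but `h - 1` of these `a` have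
`K1 < t + a ≤ K2`. Lower bound: at least `τ h ∑ g a` over the `a` with `K1 < t + a`, `t + a + h - 1 ≤ K2`. (`g a ≤ ρ`, `τ ≤ 1`.) -/
def S_AVG : Prop := ∀ (g : ℕ → ℝ) (D : Set ℕ) (ρ τ : ℝ) (h K1 K2 t M : ℕ), 1 ≤ h → K1 + h ≤ K2 →
  (∀ a, 0 ≤ g a ∧ g a ≤ ρ) → (∀ a, M < a → g a = 0) → (∀ Z : Finset ℕ, ∑ a ∈ Z, |g a - g (a + 1)| ≤ 2 * ρ) →
  0 ≤ τ → τ ≤ 1 → D ⊆ Set.Ioc K1 K2 →
  ((∀ j, K1 ≤ j → j + h ≤ K2 → ((D ∩ Set.Ioc j (j + h)).ncard : ℝ) ≤ τ * h) →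
    ∑ k ∈ (Ioc K1 K2).filter (fun k => t ≤ k ∧ k ∈ D), g (k - t) ≤
      τ * ∑ k ∈ (Ioc K1 K2).filter (fun k => t ≤ k), g (k - t) + 4 * h * ρ) ∧
  ((∀ j, K1 ≤ j → j + h ≤ K2 → τ * h ≤ ((D ∩ Set.Ioc j (j + h)).ncard : ℝ)) →
    τ * ∑ k ∈ (Ioc K1 K2).filter (fun k => t ≤ k), g (k - t) - 4 * h * ρ ≤
      ∑ k ∈ (Ioc K1 K2).filter (fun k => t ≤ k ∧ k ∈ D), g (k - t))

/-- the index of `p` if no fresh prime removes anything after `x` -/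
noncomputable def KP (z W : ℕ → ℕ) (x p : ℕ) (b : ℕ → ℕ) : ℕ := pin (RS z W b) x + (Old z W x p b).card

/-- the values of `KP` at the old twins in `(x + u, x + 2u]` -/
def DP (z W : ℕ → ℕ) (x u : ℕ) (b : ℕ → ℕ) : Set ℕ :=
  {k | ∃ p, x + u < p ∧ p ≤ x + 2 * u ∧ Sv W (z x) b p ∧ Sv W (z x) b (p + 2) ∧ k = KP z W x p b}

/-- **ONEB** (one block, one index; 200 lines; uses TV1 (with LOC), AVG, PIF as hypotheses; see `Pool/Agent/H531/IX/BLK.lean` for similar arguments).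

Proof. `L = fr z x (x + 3u)`, `β = gl L b b'`, `s = ∑_{q ∈ L} 1/q`, `K p = KP z W x p b`, `O = Old z W x (x + 2u) b`, `O_p = Old z W x p b`. By PIF
`pin (RS β) p = K p - DD L O_p S b'` for `p ∈ (x + u, x + 2u]` (`S q v : q ≤ z v`); `DD ≤ |L| ≤ M` (`q ≥ 8u`: each `q ∈ L` removes at most one element). `p ↦ K p` is a
bijection from the block `B = O ∩ (x + u, x + 2u]` onto `(K1, K2]`, `K1 = K (x + u)`, `K2 = K (x + 2u)`, and from the old twins in the block onto `DP`.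
`O' = {v ∈ O : K v ≤ max t K1} ⊇ Old z W x (x + u) b`, `g = dd L O' S`. TV1 for `O'` (`2|O'| ≤ 4u ≤ q`; `∑_{q ∈ L} |{v ∈ O' : q ≤ z v}|/q ≥ m0 ∑_{q ∈ fr z x (x + u/2)} 1/q ≥ c`) gives
the hypotheses of AVG for `g`, `ρ = 2/√c + 4 u s²`. `f p = Ev L [pin (RS β) p = t]`: `f p = 0` unless `t ≤ K p ≤ t + M`, and for these at most `M + 1` elements `p ∈ B`:
`|O_p \ O'| ≤ M`, so `|f p - g (K p - t)| ≤ Ev L [DD O_p ≠ DD O'] ≤ M s` (`Ev L [v % q = b' q] = 1/q`, union bound).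
Upper bound: a `p` counted by `NT {0,2}` is an old twin of the block, so `Ev NT {0,2} ≤ ∑_{old twins} f p ≤ ∑_{k ∈ DP, t ≤ k} g (k - t) + (M+1) M s ≤` (AVG)
`τ₂ ∑_{k ∈ (K1, K2], t ≤ k} g (k - t) + 4hρ + (M+1) M s ≤ τ₂ ∑_{p ∈ B} f p + 4hρ + 2 (M+1) M s`, and `∑_{p ∈ B} f p ≤ Ev NT {0} + (M+1) s` (the `p ∈ B` with
`pin (RS β) p = t` and `p ∉ RS β` are hit by a `q ∈ L`). Lower bound: `Ev NT {0,2} ≥ ∑_{old twins} f p - 2 (M+1) s` (`p` or `p + 2` is hit; `p + 2 ≤ x + 3u`) and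
`∑_{p ∈ B} f p ≥ Ev NT {0}`. -/
def S_ONEB : Prop := S_LOC → S_TV1 → S_AVG → S_PIF → ∀ (z W : ℕ → ℕ), Monotone z → ∀ (x u h m0 M t : ℕ) (c τ₁ τ₂ : ℝ)
  (b : ℕ → ℕ), 3 ≤ x → 2 ≤ u → (∀ v ≤ x + 3 * u, W v ≤ z x) → (∀ q ∈ fr z x (x + 3 * u), 8 * u ≤ q) → 1 ≤ h →
  m0 + (Old z W x (x + u / 2) b).card ≤ (Old z W x (x + u) b).card → 0 < c →
  c ≤ m0 * ∑ q ∈ fr z x (x + u / 2), 1 / (q : ℝ) → (fr z x (x + 3 * u)).card ≤ M →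
  KP z W x (x + u) b + h ≤ KP z W x (x + 2 * u) b → 0 ≤ τ₁ → τ₁ ≤ 1 → 0 ≤ τ₂ → τ₂ ≤ 1 →
  (∀ j, KP z W x (x + u) b ≤ j → j + h ≤ KP z W x (x + 2 * u) b →
    τ₁ * h ≤ ((DP z W x u b ∩ Set.Ioc j (j + h)).ncard : ℝ) ∧ ((DP z W x u b ∩ Set.Ioc j (j + h)).ncard : ℝ) ≤ τ₂ * h) →
  Ev (fr z x (x + 3 * u)) (fun b' => (NT z W {0, 2} Set.univ (fun _ => {t}) (x + u) (x + 2 * u) (gl (fr z x (x + 3 * u)) b b') : ℝ)) ≤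
    τ₂ * Ev (fr z x (x + 3 * u)) (fun b' => (NT z W {0} Set.univ (fun _ => {t}) (x + u) (x + 2 * u)
      (gl (fr z x (x + 3 * u)) b b') : ℝ)) + (8 * h * (2 / √c + 4 * u * (∑ q ∈ fr z x (x + 3 * u), 1 / (q : ℝ)) ^ 2) +
      4 * ((M : ℝ) + 1) ^ 2 * ∑ q ∈ fr z x (x + 3 * u), 1 / (q : ℝ)) ∧
  τ₁ * Ev (fr z x (x + 3 * u)) (fun b' => (NT z W {0} Set.univ (fun _ => {t}) (x + u) (x + 2 * u)
      (gl (fr z x (x + 3 * u)) b b') : ℝ)) - (8 * h * (2 / √c + 4 * u * (∑ q ∈ fr z x (x + 3 * u), 1 / (q : ℝ)) ^ 2) +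
      4 * ((M : ℝ) + 1) ^ 2 * ∑ q ∈ fr z x (x + 3 * u), 1 / (q : ℝ)) ≤
    Ev (fr z x (x + 3 * u)) (fun b' => (NT z W {0, 2} Set.univ (fun _ => {t}) (x + u) (x + 2 * u) (gl (fr z x (x + 3 * u)) b b') : ℝ))

/-- the old twins of the block are regular among the old survivors (a property of the coordinates `≤ z0 x`) -/
def RWB (W : ℕ → ℕ) (τ₁ τ₂ : ℝ) (X x : ℕ) (b : ℕ → ℕ) : Prop :=
  KP z0 W x (x + uX X) b + hX X ≤ KP z0 W x (x + 2 * uX X) b ∧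
  ∀ j, KP z0 W x (x + uX X) b ≤ j → j + hX X ≤ KP z0 W x (x + 2 * uX X) b →
    τ₁ * hX X ≤ ((DP z0 W x (uX X) b ∩ Set.Ioc j (j + hX X)).ncard : ℝ) ∧
    ((DP z0 W x (uX X) b ∩ Set.Ioc j (j + hX X)).ncard : ℝ) ≤ τ₂ * hX X

/-- the largest number of fresh primes in a block -/
noncomputable def MX (X : ℕ) : ℕ := ⌊(X : ℝ) ^ (0.14 : ℝ)⌋₊

/-- **GBP** (one block with numbers, 80 lines; uses LOC, TV1, AVG, PIF, ONEB and NUM as hypotheses; see `Pool/Agent/H531/IX/GB.lean`, same conditions).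

Proof. ONEB with `z = z0`, `u = uX X`, `h = hX X`, `m0 = ⌈u/(16 log X)⌉`, `c = X^0.02`, `M = MX X`; the conditions are checked in `GB.lean` (`W v ≤ v^0.1 ≤ z0 x`;
`8u ≤ z0 x < q`; `c ≤ m0 ∑` by NUM). `|fr z0 x (x + 3u)| ≤ z0 (x + 3u) ∑ 1/q ≤ X^0.61 X^(-0.48) ≤ MX X`: `z0 (5X) ≤ X^0.61` for large `X` (`z0 x = x^(e^(-γ)+o(1))`,
`e^(-γ) < 0.6`; see `SQ.lean`/`SQ5.lean`, `z0 (2n) ≤ n^0.61`). Errors: `8h (2/√c + 4us²) ≤ 16 X^(0.005-0.01) + 32 X^(0.005+0.511-0.96)`, `4 (M+1)² s ≤ 16 X^(0.28-0.48)`, the sum is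
`≤ X^(-0.004)` for large `X`. The second claim: `pin (RS β) p = KP p - DD` with `DD ≤ |L| ≤ MX X` (PIF; every `q ∈ L` removes at most one element) and `KP (x+u) < KP p ≤ KP (x+2u)`
for `p ∈ RS β` in the block. -/
def S_GBP : Prop := S_LOC → S_TV1 → S_AVG → S_PIF → S_ONEB → S_NUM → ∀ (W : ℕ → ℕ),
  (∀ᶠ v : ℕ in atTop, (W v : ℝ) ≤ (v : ℝ) ^ (0.1 : ℝ)) → Monotone W → ∀ᶠ X : ℕ in atTop, ∀ (x t : ℕ) (τ₁ τ₂ : ℝ) (b : ℕ → ℕ),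
  X ≤ x → x ≤ 3 * X → 0 ≤ τ₁ → τ₁ ≤ 1 → 0 ≤ τ₂ → τ₂ ≤ 1 → G0 W X x b → RWB W τ₁ τ₂ X x b →
  Ev (fr z0 x (x + 3 * uX X)) (fun b' => (NT z0 W {0, 2} Set.univ (fun _ => {t}) (x + uX X) (x + 2 * uX X)
      (gl (fr z0 x (x + 3 * uX X)) b b') : ℝ)) ≤
    τ₂ * Ev (fr z0 x (x + 3 * uX X)) (fun b' => (NT z0 W {0} Set.univ (fun _ => {t}) (x + uX X) (x + 2 * uX X)
      (gl (fr z0 x (x + 3 * uX X)) b b') : ℝ)) + (X : ℝ) ^ (-(0.004 : ℝ)) ∧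
  τ₁ * Ev (fr z0 x (x + 3 * uX X)) (fun b' => (NT z0 W {0} Set.univ (fun _ => {t}) (x + uX X) (x + 2 * uX X)
      (gl (fr z0 x (x + 3 * uX X)) b b') : ℝ)) - (X : ℝ) ^ (-(0.004 : ℝ)) ≤
    Ev (fr z0 x (x + 3 * uX X)) (fun b' => (NT z0 W {0, 2} Set.univ (fun _ => {t}) (x + uX X) (x + 2 * uX X)
      (gl (fr z0 x (x + 3 * uX X)) b b') : ℝ)) ∧
  ∀ b' : ℕ → ℕ, ∀ p, x + uX X < p → p ≤ x + 2 * uX X → p ∈ RS z0 W (gl (fr z0 x (x + 3 * uX X)) b b') →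
    KP z0 W x (x + uX X) b < pin (RS z0 W (gl (fr z0 x (x + 3 * uX X)) b b')) p + MX X ∧
    pin (RS z0 W (gl (fr z0 x (x + 3 * uX X)) b b')) p ≤ KP z0 W x (x + 2 * uX X) b

/-- **MAINP** (200 lines; uses AZ3 and GBP as hypotheses; see `Pool/Agent/H531/IX/MAIN.lean`, same structure).

Proof. `u = uX X`, `x_i = X + i u`, `I` the largest number with `x_{I+1} ≤ X2`; block `i` is `(x_i, x_{i+1}] = (x + u, x + 2u]` with `x = x_{i-1}`, `1 ≤ i ≤ I`.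
`T_i(b) = {t ∈ T : KP (x+u) < t + MX X, t ≤ KP (x + 2u)}` (depends on the coordinates `≤ z0 x`), `|T_i| ≤ B` (`KP (x+2u) - KP (x+u) + MX X ≤ 2u`). For
`g_i(b) = (u/B) ∑_{t ∈ T_i} (NT_i{0,2}{t} - τ₂ NT_i{0}{t} - X^(-0.004))` if `G0 W X x b` and `RWB W τ₁ τ₂ X x b`, otherwise `0`: GBP gives the hypothesis of AZ3
(the mean value over the fresh primes is `≤ 0`), `|g_i| ≤ 2u` (`NT_i{t} ≤ 1`: the index is injective), dependence as in MAIN. AZ3 with `t = u X^0.2455`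
(`≤ 4X`): but for a probability `3 exp (-u X^0.491/(24 X)) ≤ 3 exp (-X^0.001)`: `∑_i ∑_{t ∈ T_i} (…) ≤ 3 B X^0.2455`. In the same way for
`τ₁ NT_i{0}{t} - NT_i{0,2}{t} - X^(-0.004)`. Outside of the two events, if CB and all RWB hold (then all `G0` hold, see MAIN): `NT_i(T) = ∑_{t ∈ T_i} NT_i{t}` by the last part of
GBP (for both `H`), each `t` lies in at most two `T_i` (`pin x_i - MX X < t ≤ pin x_{i+1} + MX X`: `pin x_i ≤ KP_{x_{i-1}} x_i ≤ pin x_i + MX X`, and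
`pin x_{i+1} - pin x_i ≥ u/(16 log X) > 2 MX X` by CB), so `∑ |T_i| ≤ 2 |T|`; the `p ∈ (X, x_1]` and `p ∈ (x_{I+1}, X2]` with index in `T` are at most `2B`
(the indices in an interval of length `≤ u` lie in an interval of length `≤ u`). So
`NT{0,2}(T) ≤ 2B + ∑ NT_i{0,2} ≤ 2B + τ₂ NT{0}(T) + 2 X^(-0.004)|T| + 3 B X^0.2455`, and the lower bound in the same way. (AZ3 for `x := X`: see MAIN.) -/
def S_MAINP : Prop := S_LOC → S_TV1 → S_AVG → S_PIF → S_ONEB → S_NUM → S_GBP → S_AZ3 → ∀ (W : ℕ → ℕ),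
  (∀ᶠ v : ℕ in atTop, (W v : ℝ) ≤ (v : ℝ) ^ (0.1 : ℝ)) → Monotone W → ∀ᶠ X : ℕ in atTop,
  ∀ (Ω : Type) [MeasurableSpace Ω] (P : Measure Ω) (a : ℕ → Ω → ℕ), Model P a →
  ∀ (X2 B : ℕ) (T : Finset ℕ) (τ₁ τ₂ : ℝ), X ≤ X2 → X2 ≤ 2 * X → 1 ≤ B →
  (∀ j, (T.filter fun t => j < t ∧ t ≤ j + 2 * uX X).card ≤ B) → 0 ≤ τ₁ → τ₁ ≤ 1 → 0 ≤ τ₂ → τ₂ ≤ 1 →
  P.real {ω | CB z0 W X (fun q => a q ω) ∧ (∀ x, X ≤ x → x ≤ 3 * X → RWB W τ₁ τ₂ X x (fun q => a q ω)) ∧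
      (τ₂ * NT z0 W {0} Set.univ (fun _ => (T : Set ℕ)) X X2 (fun q => a q ω) + (2 * (X : ℝ) ^ (-(0.004 : ℝ)) * T.card +
          B * (X : ℝ) ^ (0.246 : ℝ)) < NT z0 W {0, 2} Set.univ (fun _ => (T : Set ℕ)) X X2 (fun q => a q ω) ∨
        (NT z0 W {0, 2} Set.univ (fun _ => (T : Set ℕ)) X X2 (fun q => a q ω) : ℝ) <
          τ₁ * NT z0 W {0} Set.univ (fun _ => (T : Set ℕ)) X X2 (fun q => a q ω) - (2 * (X : ℝ) ^ (-(0.004 : ℝ)) * T.card +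
          B * (X : ℝ) ^ (0.246 : ℝ)))} ≤ 6 * Real.exp (-(X : ℝ) ^ (0.001 : ℝ))

open Classical in
/-- the indices `k ^ e * n`, `K/(log K)² ≤ k ≤ K` -/
noncomputable def TP (e n K : ℕ) : Finset ℕ :=
  ((Icc 1 K).filter fun k : ℕ => (K : ℝ) / Real.log K ^ 2 ≤ (k : ℝ)).image fun k => k ^ e * n

/-- the law for the sets `TP e n K` for one sample -/
def LawP (W : ℕ → ℕ) (e : ℕ) (r₁ r₂ : ℝ) (b : ℕ → ℕ) : Prop :=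
  ∀ᶠ X : ℕ in atTop, ∀ n K X2 B : ℕ, n ≤ X ^ 2 → K ≤ X ^ 2 → X ≤ X2 → X2 ≤ 2 * X → 1 ≤ B → B ≤ X →
    (∀ j, ((TP e n K).filter fun t => j < t ∧ t ≤ j + 2 * uX X).card ≤ B) → CB z0 W X b →
    (∀ x, X ≤ x → x ≤ 3 * X → RWB W (r₁ / Real.log X) (r₂ / Real.log X) X x b) →
    (NT z0 W {0, 2} Set.univ (fun _ => (TP e n K : Set ℕ)) X X2 b : ℝ) ≤
      r₂ / Real.log X * NT z0 W {0} Set.univ (fun _ => (TP e n K : Set ℕ)) X X2 b +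
        (2 * (X : ℝ) ^ (-(0.004 : ℝ)) * (TP e n K).card + B * (X : ℝ) ^ (0.246 : ℝ)) ∧
    r₁ / Real.log X * NT z0 W {0} Set.univ (fun _ => (TP e n K : Set ℕ)) X X2 b -
        (2 * (X : ℝ) ^ (-(0.004 : ℝ)) * (TP e n K).card + B * (X : ℝ) ^ (0.246 : ℝ)) ≤
      (NT z0 W {0, 2} Set.univ (fun _ => (TP e n K : Set ℕ)) X X2 b : ℝ)

/-- **AELP** (Borel–Cantelli, 70 lines; uses MAINP as a hypothesis in the form given here; see `Pool/Agent/H531/IX/AEL.lean`).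

Proof. For large `X` (`0 ≤ r/log X ≤ 1`) the exceptional set of `LawP` at `X` is the union over `n, K ≤ X²`, `X2 ≤ 2X`, `B ≤ X` (with the condition on `TP e n K`) of the sets of
MAINP with `T = TP e n K`: outer measure `≤ (X² + 1)² (2X + 1)(X + 1) · 6 exp (-X^0.001)`, summable. -/
def S_AELP : Prop := ∀ (W : ℕ → ℕ), (∀ᶠ X : ℕ in atTop,
    ∀ (Ω : Type) [MeasurableSpace Ω] (P : Measure Ω) (a : ℕ → Ω → ℕ), Model P a →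
    ∀ (X2 B : ℕ) (T : Finset ℕ) (τ₁ τ₂ : ℝ), X ≤ X2 → X2 ≤ 2 * X → 1 ≤ B →
    (∀ j, (T.filter fun t => j < t ∧ t ≤ j + 2 * uX X).card ≤ B) → 0 ≤ τ₁ → τ₁ ≤ 1 → 0 ≤ τ₂ → τ₂ ≤ 1 →
    P.real {ω | CB z0 W X (fun q => a q ω) ∧ (∀ x, X ≤ x → x ≤ 3 * X → RWB W τ₁ τ₂ X x (fun q => a q ω)) ∧
      (τ₂ * NT z0 W {0} Set.univ (fun _ => (T : Set ℕ)) X X2 (fun q => a q ω) + (2 * (X : ℝ) ^ (-(0.004 : ℝ)) * T.card +
          B * (X : ℝ) ^ (0.246 : ℝ)) < NT z0 W {0, 2} Set.univ (fun _ => (T : Set ℕ)) X X2 (fun q => a q ω) ∨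
        (NT z0 W {0, 2} Set.univ (fun _ => (T : Set ℕ)) X X2 (fun q => a q ω) : ℝ) <
          τ₁ * NT z0 W {0} Set.univ (fun _ => (T : Set ℕ)) X X2 (fun q => a q ω) - (2 * (X : ℝ) ^ (-(0.004 : ℝ)) * T.card +
          B * (X : ℝ) ^ (0.246 : ℝ)))} ≤ 6 * Real.exp (-(X : ℝ) ^ (0.001 : ℝ))) →
  ∀ (e : ℕ) (r₁ r₂ : ℝ), 0 < r₁ → 0 < r₂ →
  ∀ (Ω : Type) [MeasurableSpace Ω] (P : Measure Ω) (a : ℕ → Ω → ℕ), Model P a → ∀ᵐ ω ∂P, LawP W e r₁ r₂ (fun q => a q ω)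

/-- **WREG** (120 lines; uses WIN, CNT as hypotheses).

Proof. `A0 = RS z0 (WW c) b`, `A1 = RS (zd (1/2)) (WW c) b`, `u = uX X`, `h = hX X`, `ℓ = log X`, `X ≤ x ≤ 3X`. For `v ∈ (x, x + 3u]` (`v ≤ 2x`): `zd (1/2) v = z0 ⌊v/2⌋ ≤ z0 x ≤ z0 v`, so
`v ∈ A0 → Sv (WW c) (z0 x) b v → v ∈ A1`. WIN for `z0` and for `zd (1/2)` with `δ = 0.004`: in the windows `(w, w + y]`, `x ≤ w ≤ 2x`, `X^0.0045 ≤ y ≤ X^0.01`, both `A0` and `A1` have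
`(1 ± ε) y/ℓ` elements and `(2 c₂ ± ε) y/ℓ²` twins (`log w/ℓ → 1`). `KP (x+2u) - KP (x+u) = |Old ∩ (x+u, x+2u]| ≥ |A0 ∩ (x+u, x+u+X^0.01]| ≥ h`. Let `(j, j+h] ⊆ (KP (x+u), KP (x+2u)]` and let
`w ≥ x + u` be the survivor with `KP w = j` (`w = x + u` if there is none, i.e. `j = KP (x+u)`), `w'` the survivor with `KP w' = j + h`: `(w, w']` has exactly `h` survivors (of the primes `≤ z0 x`), and
`DP ∩ (j, j+h]` corresponds to the survivors `p` in `(w, w']` with `p + 2` a survivor. With `y₁ = ⌊(1 - 3ε) h ℓ⌋`, `y₂ = ⌈(1 + 3ε) h ℓ⌉`: `w + y₁ ≤ w' ≤ w + y₂` (`(w, w + y₁]` has at most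
`(1 + ε) y₁/ℓ < h` elements of `A1`, `(w, w + y₂]` has at least `(1 - ε) y₂/ℓ ≥ h` elements of `A0`), so the number of the twins is between `tw A0 w (w + y₁) ≥ (2c₂ - ε) y₁/ℓ²` and
`tw A1 w (w + y₂) ≤ (2 c₂ + ε) y₂/ℓ²`. -/
def S_WREG : Prop := S_WIN → S_ZD → ∀ (c c₂ : ℝ), 1 < c → 0 < c₂ → Tendsto C2 atTop (𝓝 c₂) → ∀ b : ℕ → ℕ,
  OK z0 (WW c) b → OK (zd (1 / 2)) (WW c) b → ∀ r₁ r₂ : ℝ, 0 < r₁ → r₁ < 2 * c₂ → 2 * c₂ < r₂ →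
  ∀ᶠ X : ℕ in atTop, ∀ x, X ≤ x → x ≤ 3 * X → RWB (WW c) (r₁ / Real.log X) (r₂ / Real.log X) X x b

/-- the number of the `k ≤ K` with `r_{k^e n} + 2 ∈ A` -/
noncomputable def NK (A : Set ℕ) (e n K : ℕ) : ℕ := {k : ℕ | 1 ≤ k ∧ k ≤ K ∧ rk A (k ^ e * n) + 2 ∈ A}.ncard

/-- **FINP** (200 lines; uses CNT (with WIN), NTH as hypotheses).

Proof. `A = RS z0 (WW c) b`, `M₀ = K^e n → ∞`, `K ≥ M₀^0.26` (so `K → ∞`), `T = TP e n K`. `|T| = K - ⌈K/(log K)²⌉ + 1 ~ K`, and all but `K/(log K)² = o(K/log M₀)` of the `k ≤ K` are in `T`.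
`t ∈ T`: `M₀/(log K)^(2e) ≤ t ≤ M₀`, `t ≤ r_t` (`rk A t ≥ t`), `r_t ≤ r_{M₀} ≤ 2 M₀ log M₀` (CNT). `X_0 = ⌈M₀/(log K)^(2e)⌉ - 1 < r_t`, `X_i = 2^i X_0`, `J` minimal with `X_J ≥ 2 M₀ log M₀`:
`J ≤ log M₀` and `log X_i/log M₀ → 1` uniformly for `i ≤ J`. `∑_{i<J} NT{0}(T; X_i, X_{i+1}) = |T|` and `∑_{i<J} NT{0,2}(T; X_i, X_{i+1}) = |{t ∈ T : r_t + 2 ∈ A}|` (NTH; `0 + p = p`). The
sets `TP` have gaps `(k+1)^e n - k^e n ≥ k^(e-1) n ≥ G := M₀/(K (log K)^(2e))`, so with `B = ⌊2 uX X_i/G⌋ + 1` (`≤ X_i`) the condition of LawP holds, and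
`B X_i^0.246 ≤ 2 K (log K)^(2e) (3M₀ log M₀)^(0.511 + 0.246)/M₀ + (3 M₀ log M₀)^0.246 ≤ K M₀^(-0.01)`. LawP at `X_i` with rational `r₁ < 2c₂ < r₂` near `2 c₂`: the sum over `i` gives
`r₁ |T|/log X_J - err ≤ |{t ∈ T : r_t + 2 ∈ A}| ≤ r₂ |T|/log X_0 + err`, `err ≤ J (2 X_0^(-0.004) K + K M₀^(-0.01)) = o(K/log M₀)`. -/
def S_FINP : Prop := S_WIN → S_CNT → S_NTH → ∀ (c c₂ : ℝ), 1 < c → 0 < c₂ → Tendsto C2 atTop (𝓝 c₂) → ∀ b : ℕ → ℕ,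
  OK z0 (WW c) b → (∀ᶠ X : ℕ in atTop, CB z0 (WW c) X b) →
  ∀ e : ℕ, 1 ≤ e → (∀ r₁ r₂ : ℚ, 0 < r₁ → 0 < r₂ → LawP (WW c) e r₁ r₂ b) →
  (∀ r₁ r₂ : ℝ, 0 < r₁ → r₁ < 2 * c₂ → 2 * c₂ < r₂ →
    ∀ᶠ X : ℕ in atTop, ∀ x, X ≤ x → x ≤ 3 * X → RWB (WW c) (r₁ / Real.log X) (r₂ / Real.log X) X x b) →
  ∀ ε : ℝ, 0 < ε → ∃ N₀ : ℕ, ∀ n K : ℕ, 1 ≤ n → 1 ≤ K → N₀ ≤ K ^ e * n → ((K ^ e * n : ℕ) : ℝ) ^ (0.26 : ℝ) ≤ K →
    |(NK (RS z0 (WW c) b) e n K : ℝ) * Real.log ((K ^ e * n : ℕ) : ℝ) / K - 2 * c₂| ≤ ε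

end Pool.Agent.H531.IX
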