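import Pool.Agent.H531.IX.Fin1
import Pool.Agent.H531.IX.Stm7

set_option autoImplicit false

/-!
# The place of a random prime with given index: assembly
-/

open Finset MeasureTheory ProbabilityTheory Filter Topology

namespace Pool.Agent.H531.IX

open Pool.Agent.T2H32.BF (Model z0 V)
open Pool.Agent.H559.BS (Limit)
open Pool.Agent.H559.HY (OK WW Cut)
open Pool.Agent.T2H32.GB (C2)

theorem fin7 (hcnt : S_CNT) (htv : S_TV1) (havg : S_AVG) (honeb : S_ONEB) (hgbp : S_GBP) (hmainp : S_MAINP) (haelp : S_AELP)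
    (hwreg : S_WREG) (hfinp : S_FINP) (c c₂ : ℝ) (hc : 1 < c) (h0 : 0 < c₂) (hc₂ : Tendsto C2 atTop (𝓝 c₂))
    (Ω : Type) [MeasurableSpace Ω] (P : Measure Ω) (a : ℕ → Ω → ℕ) (hM : Model P a) :
    ∀ᵐ ω ∂P, (RS z0 (WW c) (fun q => a q ω)).Infinite ∧
      ∀ e : ℕ, 1 ≤ e → ∀ ε : ℝ, 0 < ε → ∃ N₀ : ℕ, ∀ n K : ℕ, 1 ≤ n → 1 ≤ K → N₀ ≤ K ^ e * n →
        ((K ^ e * n : ℕ) : ℝ) ^ (0.26 : ℝ) ≤ K →
        |(NK (RS z0 (WW c) (fun q => a q ω)) e n K : ℝ) * Real.log ((K ^ e * n : ℕ) : ℝ) / K - 2 * c₂| ≤ ε := by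
  obtain ⟨hW1, hW2, -⟩ := small c (by linarith)
  have hm := hmainp (loc (pbs bin pbe pbt pbc)) htv havg pif honeb num hgbp (az3 (azp (az evu))) (WW c) hW1 hW2
  have hl : ∀ᵐ ω ∂P, ∀ e : ℕ, ∀ r₁ r₂ : ℚ, 0 < r₁ → 0 < r₂ → LawP (WW c) e r₁ r₂ (fun q => a q ω) := by
    rw [ae_all_iff]
    intro e
    rw [ae_all_iff]
    intro r₁
    rw [ae_all_iff]
    intro r₂
    by_cases h1 : 0 < r₁
    · by_cases h2 : 0 < r₂
      · filter_upwards [haelp (WW c) hm e r₁ r₂ (by exact_mod_cast h1) (by exact_mod_cast h2) Ω P a hM] with ω hω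
        intro _ _
        exact hω
      · exact ae_of_all _ fun ω _ h3 => absurd h3 h2
    · exact ae_of_all _ fun ω h3 => absurd h3 h1
  filter_upwards [aee law zd_limit small c hc Ω P a hM, hl] with ω hω hω2
  refine ⟨rs_inf hcnt c c₂ hc hc₂ _ hω.1, fun e he ε hε => ?_⟩
  have hz : OK (zd (1 / 2)) (WW c) (fun q => a q ω) := by
    have h := hω.2.1 (1 / 2) (by norm_num) (by norm_num)
    have e1 : (((1 / 2 : ℚ) : ℚ) : ℝ) = 1 / 2 := by norm_num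
    rwa [e1] at h
  exact hfinp win hcnt nth c c₂ hc h0 hc₂ _ hω.1 (cbe win hcnt c c₂ hc hc₂ _ hω.1) e he (hω2 e)
    (fun r₁ r₂ h1 h2 h3 => hwreg win zd_limit c c₂ hc h0 hc₂ _ hω.1 hz r₁ r₂ h1 h2 h3) ε hε

/-- existence from the asymptotic formula -/
theorem exK (A : Set ℕ) (e : ℕ) (c₂ : ℝ) (h0 : 0 < c₂)
    (h : ∃ N₀ : ℕ, ∀ n K : ℕ, 1 ≤ n → 1 ≤ K → N₀ ≤ K ^ e * n → ((K ^ e * n : ℕ) : ℝ) ^ (0.26 : ℝ) ≤ K →
      |(NK A e n K : ℝ) * Real.log ((K ^ e * n : ℕ) : ℝ) / K - 2 * c₂| ≤ c₂) :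
    ∃ N₀ : ℕ, ∀ n K : ℕ, N₀ ≤ n → 1 ≤ K → ((K ^ e * n : ℕ) : ℝ) ^ (0.26 : ℝ) ≤ K →
      ∃ k, 1 ≤ k ∧ k ≤ K ∧ rk A (k ^ e * n) + 2 ∈ A := by
  obtain ⟨N₀, hN⟩ := h
  refine ⟨max N₀ 1, fun n K hn hK h26 => ?_⟩
  have hn1 : 1 ≤ n := (le_max_right _ _).trans hn
  have hnN : N₀ ≤ K ^ e * n := by
    have h1 : 1 ≤ K ^ e := Nat.one_le_pow _ _ (by omega)
    calc N₀ ≤ n := (le_max_left _ _).trans hn
      _ = 1 * n := (one_mul n).symm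
      _ ≤ K ^ e * n := Nat.mul_le_mul_right n h1
  have h1 := (abs_le.1 (hN n K hn1 hK hnN h26)).1
  have h2 : NK A e n K ≠ 0 := by
    intro h3
    rw [h3] at h1
    simp only [Nat.cast_zero, zero_mul, zero_div] at h1
    linarith
  unfold NK at h2
  obtain ⟨k, hk⟩ := Set.nonempty_of_ncard_ne_zero h2
  exact ⟨k, hk.1, hk.2.1, hk.2.2⟩

/-- the assertions of the page, for large `n` -/
theorem page (A : Set ℕ) (c₂ : ℝ) (h0 : 0 < c₂)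
    (h : ∀ e : ℕ, 1 ≤ e → ∀ ε : ℝ, 0 < ε → ∃ N₀ : ℕ, ∀ n K : ℕ, 1 ≤ n → 1 ≤ K → N₀ ≤ K ^ e * n →
      ((K ^ e * n : ℕ) : ℝ) ^ (0.26 : ℝ) ≤ K →
      |(NK A e n K : ℝ) * Real.log ((K ^ e * n : ℕ) : ℝ) / K - 2 * c₂| ≤ ε) :
    ∀ᶠ n : ℕ in atTop, (∃ k, 1 ≤ k ∧ k ≤ n ∧ rk A (k * n) + 2 ∈ A) ∧ (∃ k, 1 ≤ k ∧ k ≤ n ∧ rk A (k ^ 2 * n) + 2 ∈ A) ∧
      ∃ k : ℕ, 1 ≤ k ∧ (k : ℝ) < 3 * √(n : ℝ) + 6 ∧ rk A (k * n) + 2 ∈ A := by
  obtain ⟨N1, h1⟩ := exK A 1 c₂ h0 (h 1 le_rfl c₂ h0)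
  obtain ⟨N2, h2⟩ := exK A 2 c₂ h0 (h 2 one_le_two c₂ h0)
  filter_upwards [eventually_ge_atTop (max (max N1 N2) 1)] with n hn
  have hn1 : N1 ≤ n := (le_max_left _ _).trans ((le_max_left _ _).trans hn)
  have hn2 : N2 ≤ n := (le_max_right _ _).trans ((le_max_left _ _).trans hn)
  have hn3 : 1 ≤ n := (le_max_right _ _).trans hn
  have hn0 : (1 : ℝ) ≤ n := by exact_mod_cast hn3
  have hnp : (0 : ℝ) < n := by linarith
  have r1 : ∀ (m : ℕ) (s : ℝ), (m : ℝ) = (n : ℝ) ^ s → s * 0.26 ≤ 1 → (m : ℝ) ^ (0.26 : ℝ) ≤ n := by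
    intro m s hm hs
    rw [hm, ← Real.rpow_mul hnp.le]
    calc (n : ℝ) ^ (s * 0.26) ≤ (n : ℝ) ^ (1 : ℝ) := Real.rpow_le_rpow_of_exponent_le hn0 hs
      _ = n := Real.rpow_one _
  refine ⟨?_, ?_, ?_⟩
  · obtain ⟨k, hk⟩ := h1 n n hn1 hn3 (r1 _ 2 (by push_cast; rw [Real.rpow_two]; ring) (by norm_num))
    refine ⟨k, hk.1, hk.2.1, ?_⟩
    have := hk.2.2
    rwa [pow_one] at this
  · obtain ⟨k, hk⟩ := h2 n n hn2 hn3 (r1 _ 3 (by push_cast; rw [show (3 : ℝ) = ((3 : ℕ) : ℝ) by norm_num, Real.rpow_natCast]; ring)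
      (by norm_num))
    exact ⟨k, hk.1, hk.2.1, hk.2.2⟩
  · obtain ⟨K, hK⟩ : ∃ K : ℕ, K = ⌊3 * √(n : ℝ)⌋₊ + 5 := ⟨_, rfl⟩
    have hs1 : 1 ≤ √(n : ℝ) := by
      rw [Real.le_sqrt (by norm_num) hnp.le]
      simpa using hn0
    have hs2 : √(n : ℝ) ^ 2 = n := Real.sq_sqrt hnp.le
    have k1 : (K : ℝ) ≤ 3 * √(n : ℝ) + 5 := by
      rw [hK]
      push_cast
      have := Nat.floor_le (show 0 ≤ 3 * √(n : ℝ) by positivity)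
      linarith
    have k2 : 3 * √(n : ℝ) ≤ K := by
      rw [hK]
      push_cast
      have := Nat.lt_floor_add_one (3 * √(n : ℝ))
      linarith
    have k3 : ((K ^ 1 * n : ℕ) : ℝ) ^ (0.26 : ℝ) ≤ K := by
      refine le_trans ?_ k2
      have e1 : ((K ^ 1 * n : ℕ) : ℝ) ≤ 8 * √(n : ℝ) ^ (3 : ℕ) := by
        push_cast
        rw [pow_one]
        calc (K : ℝ) * n ≤ (3 * √(n : ℝ) + 5) * n := mul_le_mul_of_nonneg_right k1 hnp.le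
          _ ≤ (8 * √(n : ℝ)) * √(n : ℝ) ^ 2 := by
              rw [hs2]
              exact mul_le_mul_of_nonneg_right (by linarith) hnp.le
          _ = _ := by ring
      calc ((K ^ 1 * n : ℕ) : ℝ) ^ (0.26 : ℝ) ≤ (8 * √(n : ℝ) ^ (3 : ℕ)) ^ (0.26 : ℝ) :=
            Real.rpow_le_rpow (Nat.cast_nonneg _) e1 (by norm_num)
        _ ≤ (8 * √(n : ℝ) ^ (3 : ℕ)) ^ (1 / 3 : ℝ) := by
            refine Real.rpow_le_rpow_of_exponent_le ?_ (by norm_num)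
            have : 1 ≤ √(n : ℝ) ^ (3 : ℕ) := one_le_pow₀ hs1
            linarith
        _ = 2 * √(n : ℝ) := by
            rw [show 8 * √(n : ℝ) ^ (3 : ℕ) = (2 * √(n : ℝ)) ^ (3 : ℕ) by ring, ← Real.rpow_natCast, ← Real.rpow_mul (by positivity)]
            norm_num
        _ ≤ 3 * √(n : ℝ) := by linarith
    obtain ⟨k, hk⟩ := h1 n K hn1 (by omega) k3
    refine ⟨k, hk.1, ?_, ?_⟩
    · have : (k : ℝ) ≤ K := by exact_mod_cast hk.2.1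
      linarith
    · have := hk.2.2
      rwa [pow_one] at this

end Pool.Agent.H531.IX
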