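import Pool.Agent.H531.IX.Stm4
import Pool.Agent.H531.IX.NUM

set_option autoImplicit false

/-! # `S_SQ`: the sieving limit over the range -/

open Finset MeasureTheory ProbabilityTheory Filter Topology

namespace Pool.Agent.H531.IX

open Pool.Agent.T2H32.BF (Model z0 V V_pos V_anti V_ratio V_step mertens z0_mem z0_lt z0_mono
  z0_top z0_lim)

namespace SQN

theorem exp_gamma_up : Real.exp (-Real.eulerMascheroniConstant) < 0.608 := by
  have h1 := Real.one_half_lt_eulerMascheroniConstant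
  have h2 : Real.exp (-Real.eulerMascheroniConstant) < Real.exp (-(1 / 2 : ℝ)) :=
    Real.exp_lt_exp.2 (by linarith)
  refine lt_trans h2 ?_
  have h3 : Real.exp (-(1 / 2 : ℝ)) ^ 2 * Real.exp 1 = 1 := by
    rw [← Real.exp_nat_mul, ← Real.exp_add]
    have h0 : ((2 : ℕ) : ℝ) * -(1 / 2 : ℝ) + 1 = 0 := by
      push_cast
      ring
    rw [h0, Real.exp_zero]
  by_contra hcon
  rw [not_lt] at hcon
  have h5 := Real.exp_one_gt_d9
  have h6 := Real.exp_pos 1
  have h4 : (0.608 : ℝ) ^ 2 ≤ Real.exp (-(1 / 2 : ℝ)) ^ 2 := by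
    gcongr
  have h8 : (0.608 : ℝ) ^ 2 * 2.7182818283 ≤ Real.exp (-(1 / 2 : ℝ)) ^ 2 * Real.exp 1 :=
    mul_le_mul h4 h5.le (by positivity) (by positivity)
  rw [h3] at h8
  norm_num at h8

theorem sum_le' {x x' : ℕ} {δ : ℝ} (hx : 3 ≤ x) (hxx : x ≤ x') (hz : 1 ≤ z0 x) (hδ0 : 0 ≤ δ)
    (h4 : Real.log x' ≤ Real.log x * (1 + δ)) :
    ∑ q ∈ fr z0 x x', 1 / (q : ℝ) ≤ (1 + δ) * (1 + 1 / (z0 x : ℝ)) - 1 := by
  have hr := V_ratio (z0 x) (z0 x') (z0_mono hxx)
  have h1 : ∏ q ∈ fr z0 x x', (1 - 1 / (q : ℝ)) ≤ Real.exp (-∑ q ∈ fr z0 x x', 1 / (q : ℝ)) := by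
    rw [← Finset.sum_neg_distrib, Real.exp_sum]
    refine Finset.prod_le_prod (fun q hq => ?_) (fun q hq => ?_)
    · have hq1 : (1 : ℝ) ≤ q := by exact_mod_cast (mem_filter.1 hq).2.one_le
      have : 1 / (q : ℝ) ≤ 1 := by rw [div_le_one (by linarith)]; exact hq1
      linarith
    · have := Real.add_one_le_exp (-(1 / (q : ℝ)))
      linarith
  have h2 : V (z0 x') / V (z0 x) ≤ Real.exp (-∑ q ∈ fr z0 x x', 1 / (q : ℝ)) := by
    rw [hr]; exact h1
  obtain ⟨S, hS⟩ : ∃ S, S = ∑ q ∈ fr z0 x x', 1 / (q : ℝ) := ⟨_, rfl⟩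
  rw [← hS] at h2 ⊢
  have hV := V_pos (z0 x)
  have hV' := V_pos (z0 x')
  have hl := NUMN.log_ge_one hx
  rw [div_le_iff₀ hV] at h2
  have h3 : Real.exp S * V (z0 x') ≤ V (z0 x) := by
    calc Real.exp S * V (z0 x') ≤ Real.exp S * (Real.exp (-S) * V (z0 x)) :=
          mul_le_mul_of_nonneg_left h2 (Real.exp_pos _).le
      _ = V (z0 x) := by rw [← mul_assoc, ← Real.exp_add, add_neg_cancel, Real.exp_zero, one_mul]
  have h5 := NUMN.V_low (x := x') (hx.trans hxx)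
  have h6 := NUMN.V_up hz
  have h7 : Real.exp S ≤ (1 + δ) * (1 + 1 / (z0 x : ℝ)) := by
    calc Real.exp S = Real.exp S * 1 := (mul_one _).symm
      _ ≤ Real.exp S * (V (z0 x') * Real.log x') :=
          mul_le_mul_of_nonneg_left h5 (Real.exp_pos _).le
      _ = Real.exp S * V (z0 x') * Real.log x' := by ring
      _ ≤ V (z0 x) * (Real.log x * (1 + δ)) := by
          refine mul_le_mul h3 h4 ?_ hV.le
          exact (zero_le_one.trans (NUMN.log_ge_one (hx.trans hxx)))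
      _ = (1 + δ) * (V (z0 x) * Real.log x) := by ring
      _ ≤ (1 + δ) * (1 + 1 / (z0 x : ℝ)) := mul_le_mul_of_nonneg_left h6 (by linarith)
  have h8 := Real.add_one_le_exp S
  linarith

theorem ev_log_big (C : ℝ) : ∀ᶠ n : ℕ in atTop, C ≤ Real.log n :=
  (Real.tendsto_log_atTop.comp tendsto_natCast_atTop_atTop).eventually_ge_atTop C

/-- the growth of the sieving limit, from above -/
theorem z0_le : ∀ᶠ n : ℕ in atTop, (z0 (2 * n) : ℝ) ≤ (n : ℝ) ^ (0.61 : ℝ) := by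
  have h0 : Tendsto (fun n : ℕ => 2 * n) atTop atTop :=
    tendsto_id.const_mul_atTop' (by norm_num)
  filter_upwards [(NUMN.z0_log.comp h0).eventually_lt_const exp_gamma_up, eventually_ge_atTop 3,
    z0_top.eventually_ge_atTop 1, ev_log_big 500] with n h1 h2 h3 h4
  have h1' : Real.log (z0 (2 * n)) / Real.log ((2 * n : ℕ) : ℝ) < 0.608 := h1
  have hn : (3 : ℝ) ≤ n := by exact_mod_cast h2
  have e1 : Real.log ((2 * n : ℕ) : ℝ) = Real.log 2 + Real.log n := by
    push_cast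
    rw [Real.log_mul (by norm_num) (by positivity)]
  have hl2 : Real.log 2 < 0.6931471808 := Real.log_two_lt_d9
  have hl2' : 0.6931471803 < Real.log 2 := Real.log_two_gt_d9
  rw [e1, div_lt_iff₀ (by linarith)] at h1'
  have hz : (0 : ℝ) < z0 (2 * n) := by
    have h5 : z0 n ≤ z0 (2 * n) := z0_mono (by omega)
    exact_mod_cast (by omega : 0 < z0 (2 * n))
  calc (z0 (2 * n) : ℝ) = Real.exp (Real.log (z0 (2 * n))) := (Real.exp_log hz).symm
    _ ≤ Real.exp (Real.log n * 0.61) := Real.exp_le_exp.2 (by nlinarith)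
    _ = (n : ℝ) ^ (0.61 : ℝ) := (Real.rpow_def_of_pos (by linarith) _).symm

theorem tend_YY : Tendsto YY atTop atTop := by
  rw [tendsto_atTop]
  intro M
  filter_upwards [eventually_ge_atTop (2 * M)] with n hn
  unfold YY
  omega

end SQN

theorem sq : S_SQ := by
  filter_upwards [SQN.tend_YY.eventually NUMN.z0_ge, SQN.z0_le, eventually_ge_atTop 16,
    NUMN.ev_pow 0.0125 3 (by norm_num), NUMN.ev_pow 0.0001 7 (by norm_num),
    NUMN.ev_pow 0.5 32 (by norm_num), SQN.ev_log_big 500] with n h1 h2 hn h4 h5 h6 h7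
  have hnR : (16 : ℝ) ≤ n := by exact_mod_cast hn
  have hn0 : (0 : ℝ) < n := by linarith
  obtain ⟨x, hx⟩ : ∃ x, x = YY n := ⟨_, rfl⟩
  rw [← hx] at h1 ⊢
  have hxn : n ≤ 3 * x := by
    rw [hx]
    unfold YY
    omega
  have hxn2 : 2 * x ≤ n := by
    rw [hx]
    unfold YY
    omega
  have hx3 : 3 ≤ x := by omega
  have hxR : (n : ℝ) ≤ 3 * x := by exact_mod_cast hxn
  have hx0 : (0 : ℝ) < x := by exact_mod_cast (by omega : 0 < x)
  have A1 : (n : ℝ) ^ (0.5 : ℝ) ≤ z0 x := by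
    refine le_trans ?_ h1
    have e1 : ((n : ℝ) / 3) ^ (0.5125 : ℝ) ≤ (x : ℝ) ^ (0.5125 : ℝ) :=
      Real.rpow_le_rpow (by positivity) (by linarith) (by norm_num)
    refine le_trans ?_ e1
    rw [Real.div_rpow hn0.le (by norm_num), le_div_iff₀ (by positivity)]
    have e2 : (3 : ℝ) ^ (0.5125 : ℝ) ≤ 3 := by
      calc (3 : ℝ) ^ (0.5125 : ℝ) ≤ (3 : ℝ) ^ (1 : ℝ) :=
            Real.rpow_le_rpow_of_exponent_le (by norm_num) (by norm_num)
        _ = 3 := Real.rpow_one 3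
    have e3 : (n : ℝ) ^ (0.5125 : ℝ) = (n : ℝ) ^ (0.5 : ℝ) * (n : ℝ) ^ (0.0125 : ℝ) := by
      rw [← Real.rpow_add hn0]
      norm_num
    rw [e3]
    exact mul_le_mul_of_nonneg_left (e2.trans h4) (by positivity)
  have hz32 : (32 : ℝ) ≤ z0 x := h6.trans A1
  have hz1 : 1 ≤ z0 x := by
    have : (1 : ℝ) ≤ z0 x := by linarith
    exact_mod_cast this
  refine ⟨A1, h2, ?_, ?_⟩
  · obtain ⟨ρ, hρ⟩ : ∃ ρ, ρ = (n : ℝ) ^ (-(0.002 : ℝ)) := ⟨_, rfl⟩
    have hρ0 : 0 < ρ := by rw [hρ]; positivity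
    have hρ1 : ρ ≤ 1 := by
      rw [hρ]
      exact Real.rpow_le_one_of_one_le_of_nonpos (by linarith) (by norm_num)
    have hL : (LL n : ℝ) ≤ n * ρ := by
      have e1 : (LL n : ℝ) ≤ (n : ℝ) ^ (0.998 : ℝ) := Nat.floor_le (by positivity)
      refine e1.trans (le_of_eq ?_)
      rw [hρ]
      nth_rewrite 2 [← Real.rpow_one (n : ℝ)]
      rw [← Real.rpow_add hn0]
      norm_num
    have key := NUMN.sum_le (x := x) (x' := x + LL n) (δ := 3 * ρ) hx3 (by omega) hz1 (by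
      push_cast
      have : (n : ℝ) * ρ ≤ 3 * x * ρ := mul_le_mul_of_nonneg_right hxR hρ0.le
      nlinarith)
    refine key.trans ?_
    have hz2 : 1 / (z0 x : ℝ) ≤ ρ := by
      have e1 : ρ * (n : ℝ) ^ (0.002 : ℝ) = 1 := by
        rw [hρ, ← Real.rpow_add hn0]
        norm_num
      rw [div_le_iff₀ (by linarith), ← e1]
      refine mul_le_mul_of_nonneg_left ?_ hρ0.le
      exact (Real.rpow_le_rpow_of_exponent_le (by linarith) (by norm_num)).trans A1
    have hz3 : 0 ≤ 1 / (z0 x : ℝ) := by positivity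
    have e4 : (n : ℝ) ^ (-(0.0019 : ℝ)) = (n : ℝ) ^ (0.0001 : ℝ) * ρ := by
      rw [hρ, ← Real.rpow_add hn0]
      norm_num
    rw [e4]
    have e5 : 7 * ρ ≤ (n : ℝ) ^ (0.0001 : ℝ) * ρ := mul_le_mul_of_nonneg_right h5 hρ0.le
    nlinarith
  · obtain ⟨w, hw⟩ : ∃ w, w = x + LL n := ⟨_, rfl⟩
    rw [← hw]
    have hLn : LL n ≤ n := by
      have e1 : (LL n : ℝ) ≤ (n : ℝ) ^ (0.998 : ℝ) := Nat.floor_le (by positivity)
      have e2 : (n : ℝ) ^ (0.998 : ℝ) ≤ (n : ℝ) ^ (1 : ℝ) :=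
        Real.rpow_le_rpow_of_exponent_le (by linarith) (by norm_num)
      rw [Real.rpow_one] at e2
      exact_mod_cast e1.trans e2
    have hzw : (z0 x : ℝ) ≤ z0 w := by
      exact_mod_cast z0_mono (by omega : x ≤ w)
    have hwn : (n : ℝ) / 3 ≤ w := by
      have : (x : ℝ) ≤ w := by exact_mod_cast (by omega : x ≤ w)
      linarith
    have key := SQN.sum_le' (x := w) (x' := 2 * n) (δ := 1 / 8) (by omega) (by omega)
      (by
        have : (1 : ℝ) ≤ z0 w := by linarith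
        exact_mod_cast this) (by norm_num) (by
        have e1 : Real.log ((2 * n : ℕ) : ℝ) = Real.log 2 + Real.log n := by
          push_cast
          rw [Real.log_mul (by norm_num) (by positivity)]
        have e2 : Real.log n - Real.log 3 ≤ Real.log w := by
          rw [← Real.log_div (by positivity) (by norm_num)]
          exact Real.log_le_log (by positivity) hwn
        have hl2 : Real.log 2 < 0.6931471808 := Real.log_two_lt_d9
        have hl3 : Real.log 3 ≤ 2 := by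
          have := Real.log_le_sub_one_of_pos (show (0 : ℝ) < 3 by norm_num)
          linarith
        rw [e1]
        linarith)
    refine key.trans ?_
    have e3 : 1 / (z0 w : ℝ) ≤ 1 / 32 :=
      one_div_le_one_div_of_le (by norm_num) (hz32.trans hzw)
    linarith

end Pool.Agent.H531.IX
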