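import Pool.Agent.H531.IX.Stm7
import Pool.Agent.H531.IX.GB
import Pool.Agent.H531.IX.BLK
import Pool.Agent.H531.IX.PIF
import Pool.Agent.H531.IX.SQ

set_option autoImplicit false

/-!
# IX-GBP: one block with numbers, for one index (helper372)
-/

open Finset MeasureTheory ProbabilityTheory Filter Topology

namespace Pool.Agent.H531.IX

open Pool.Agent.T2H31.HV (Pt Ev Dep)
open Pool.Agent.T2H32.BF (Model z0 V)

namespace GBPN

/-- the number of the fresh primes -/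
theorem card_fr_le {z : ℕ → ℕ} {x x' : ℕ} {Z s : ℝ} (hZ : (z x' : ℝ) ≤ Z) (hZ0 : 0 < Z)
    (hs : ∑ q ∈ fr z x x', 1 / (q : ℝ) ≤ s) : ((fr z x x').card : ℝ) ≤ Z * s := by
  have h1 : ∀ q ∈ fr z x x', 1 / Z ≤ 1 / (q : ℝ) := by
    intro q hq
    unfold fr at hq
    rw [mem_filter, mem_Ioc] at hq
    have hq0 : (0 : ℝ) < q := by exact_mod_cast hq.2.pos
    have hq1 : (q : ℝ) ≤ z x' := by exact_mod_cast hq.1.2
    exact one_div_le_one_div_of_le hq0 (hq1.trans hZ)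
  have h2 : ∑ q ∈ fr z x x', 1 / Z ≤ ∑ q ∈ fr z x x', 1 / (q : ℝ) := sum_le_sum h1
  rw [sum_const, nsmul_eq_mul] at h2
  have h3 : ((fr z x x').card : ℝ) * (1 / Z) ≤ s := h2.trans hs
  calc ((fr z x x').card : ℝ) = Z * (((fr z x x').card : ℝ) * (1 / Z)) := by field_simp
    _ ≤ Z * s := mul_le_mul_of_nonneg_left h3 hZ0.le

/-- every `q ∈ L` removes at most one element -/
theorem DD_le (L O : Finset ℕ) (S : ℕ → ℕ → Prop) [∀ q v, Decidable (S q v)] (b : ℕ → ℕ)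
    (hinj : ∀ q ∈ L, ∀ v ∈ O, ∀ v' ∈ O, v % q = v' % q → v = v') : DD L O S b ≤ L.card := by
  classical
  unfold DD
  have h1 : (O.filter fun v => ∃ q ∈ L, S q v ∧ v % q = b q) ⊆
      L.biUnion (fun q => O.filter fun v => v % q = b q) := by
    intro v hv
    rw [mem_filter] at hv
    obtain ⟨hv, q, hq, -, h⟩ := hv
    rw [mem_biUnion]
    exact ⟨q, hq, mem_filter.2 ⟨hv, h⟩⟩
  refine (card_le_card h1).trans ?_
  have h2 := card_biUnion_le_card_mul L (fun q => O.filter fun v => v % q = b q) 1 (fun q hq => by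
    rw [card_le_one]
    intro v hv v' hv'
    rw [mem_filter] at hv hv'
    exact hinj q hq v hv.1 v' hv'.1 (hv.2.trans hv'.2.symm))
  rwa [mul_one] at h2

/-- the error terms -/
theorem err_le {y h u s M : ℝ} (hy : 1 ≤ y) (u0 : 0 ≤ u) (s0 : 0 ≤ s) (M0 : 0 ≤ M)
    (hh : h ≤ y ^ (0.005 : ℝ)) (hu : u ≤ y ^ (0.511 : ℝ)) (hs : s ≤ y ^ (-(0.48 : ℝ)))
    (hM : M ≤ y ^ (0.14 : ℝ)) (a1 : 16 * y ^ (-(0.001 : ℝ)) ≤ 1 / 3)
    (a2 : 32 * y ^ (-(0.44 : ℝ)) ≤ 1 / 3) (a3 : 16 * y ^ (-(0.196 : ℝ)) ≤ 1 / 3) :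
    8 * h * (2 / √(y ^ (0.02 : ℝ)) + 4 * u * s ^ 2) + 4 * (M + 1) ^ 2 * s ≤ y ^ (-(0.004 : ℝ)) := by
  have hy0 : 0 < y := by linarith
  have hsq : √(y ^ (0.02 : ℝ)) = y ^ (0.01 : ℝ) := by
    rw [Real.sqrt_eq_rpow, ← Real.rpow_mul hy0.le]
    norm_num
  have t0 : 0 ≤ y ^ (-(0.004 : ℝ)) := by positivity
  have b1 : 8 * h * (2 / √(y ^ (0.02 : ℝ))) ≤ 16 * y ^ (-(0.001 : ℝ)) * y ^ (-(0.004 : ℝ)) := by
    rw [hsq]
    calc 8 * h * (2 / y ^ (0.01 : ℝ)) ≤ 8 * y ^ (0.005 : ℝ) * (2 / y ^ (0.01 : ℝ)) :=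
          mul_le_mul_of_nonneg_right (by linarith) (by positivity)
      _ = 16 * (y ^ (0.005 : ℝ) * (y ^ (0.01 : ℝ))⁻¹) := by ring
      _ = 16 * y ^ (-(0.001 : ℝ)) * y ^ (-(0.004 : ℝ)) := by
          rw [← Real.rpow_neg hy0.le, ← Real.rpow_add hy0, mul_assoc, ← Real.rpow_add hy0]
          norm_num
  have b2 : 8 * h * (4 * u * s ^ 2) ≤ 32 * y ^ (-(0.44 : ℝ)) * y ^ (-(0.004 : ℝ)) := by
    have hs2 : s ^ 2 ≤ (y ^ (-(0.48 : ℝ))) ^ 2 := pow_le_pow_left₀ s0 hs 2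
    have e2 : (y ^ (-(0.48 : ℝ))) ^ 2 = y ^ (-(0.96 : ℝ)) := by
      rw [← Real.rpow_natCast (y ^ (-(0.48 : ℝ))) 2, ← Real.rpow_mul hy0.le]
      norm_num
    rw [e2] at hs2
    calc 8 * h * (4 * u * s ^ 2)
        ≤ 8 * y ^ (0.005 : ℝ) * (4 * y ^ (0.511 : ℝ) * y ^ (-(0.96 : ℝ))) := by
          refine mul_le_mul (by linarith) ?_ (by positivity) (by positivity)
          exact mul_le_mul (by linarith) hs2 (by positivity) (by positivity)
      _ = 32 * (y ^ (0.005 : ℝ) * y ^ (0.511 : ℝ) * y ^ (-(0.96 : ℝ))) := by ring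
      _ = 32 * y ^ (-(0.44 : ℝ)) * y ^ (-(0.004 : ℝ)) := by
          rw [← Real.rpow_add hy0, ← Real.rpow_add hy0, mul_assoc, ← Real.rpow_add hy0]
          norm_num
  have b3 : 4 * (M + 1) ^ 2 * s ≤ 16 * y ^ (-(0.196 : ℝ)) * y ^ (-(0.004 : ℝ)) := by
    have k1 : (1 : ℝ) ≤ y ^ (0.14 : ℝ) := Real.one_le_rpow hy (by norm_num)
    have k2 : (M + 1) ^ 2 ≤ (2 * y ^ (0.14 : ℝ)) ^ 2 :=
      pow_le_pow_left₀ (by linarith) (by linarith) 2
    have k3 : (2 * y ^ (0.14 : ℝ)) ^ 2 = 4 * y ^ (0.28 : ℝ) := by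
      rw [mul_pow, ← Real.rpow_natCast (y ^ (0.14 : ℝ)) 2, ← Real.rpow_mul hy0.le]
      norm_num
    rw [k3] at k2
    calc 4 * (M + 1) ^ 2 * s ≤ 4 * (4 * y ^ (0.28 : ℝ)) * y ^ (-(0.48 : ℝ)) :=
          mul_le_mul (by linarith) hs s0 (by positivity)
      _ = 16 * (y ^ (0.28 : ℝ) * y ^ (-(0.48 : ℝ))) := by ring
      _ = 16 * y ^ (-(0.196 : ℝ)) * y ^ (-(0.004 : ℝ)) := by
          rw [← Real.rpow_add hy0, mul_assoc, ← Real.rpow_add hy0]
          norm_num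
  have c1 := mul_le_mul_of_nonneg_right a1 t0
  have c2 := mul_le_mul_of_nonneg_right a2 t0
  have c3 := mul_le_mul_of_nonneg_right a3 t0
  calc 8 * h * (2 / √(y ^ (0.02 : ℝ)) + 4 * u * s ^ 2) + 4 * (M + 1) ^ 2 * s
      = 8 * h * (2 / √(y ^ (0.02 : ℝ))) + 8 * h * (4 * u * s ^ 2) + 4 * (M + 1) ^ 2 * s := by ring
    _ ≤ 1 / 3 * y ^ (-(0.004 : ℝ)) + 1 / 3 * y ^ (-(0.004 : ℝ)) + 1 / 3 * y ^ (-(0.004 : ℝ)) :=
        add_le_add (add_le_add (b1.trans c1) (b2.trans c2)) (b3.trans c3)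
    _ = y ^ (-(0.004 : ℝ)) := by ring

/-- the bound for the number of the fresh primes -/
theorem card_num {y : ℝ} (hy : 1 ≤ y) (h3 : 3 ≤ y ^ (0.01 : ℝ)) :
    (3 * y) ^ (0.61 : ℝ) * y ^ (-(0.48 : ℝ)) ≤ y ^ (0.14 : ℝ) := by
  have hy0 : 0 < y := by linarith
  have e1 : (3 : ℝ) ^ (0.61 : ℝ) ≤ 3 := by
    have h := Real.rpow_le_rpow_of_exponent_le (x := 3) (y := (0.61 : ℝ)) (z := 1) (by norm_num)
      (by norm_num)
    rwa [Real.rpow_one] at h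
  rw [Real.mul_rpow (by norm_num) hy0.le]
  calc (3 : ℝ) ^ (0.61 : ℝ) * y ^ (0.61 : ℝ) * y ^ (-(0.48 : ℝ))
      = (3 : ℝ) ^ (0.61 : ℝ) * (y ^ (0.61 : ℝ) * y ^ (-(0.48 : ℝ))) := by ring
    _ = (3 : ℝ) ^ (0.61 : ℝ) * y ^ (0.13 : ℝ) := by
        rw [← Real.rpow_add hy0]
        norm_num
    _ ≤ y ^ (0.01 : ℝ) * y ^ (0.13 : ℝ) :=
        mul_le_mul_of_nonneg_right (e1.trans h3) (by positivity)
    _ = y ^ (0.14 : ℝ) := by
        rw [← Real.rpow_add hy0]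
        norm_num

theorem ev_z0 : ∀ᶠ X : ℕ in atTop, (z0 (6 * X) : ℝ) ≤ (3 * (X : ℝ)) ^ (0.61 : ℝ) := by
  have h0 : Tendsto (fun n : ℕ => 3 * n) atTop atTop := tendsto_id.const_mul_atTop' (by norm_num)
  have h1 := h0.eventually SQN.z0_le
  filter_upwards [h1] with X hX
  rw [show 2 * (3 * X) = 6 * X by ring] at hX
  push_cast at hX
  exact hX

end GBPN

open GBN GBPN in
/-- **GBP** -/
theorem gbp : S_GBP := by
  intro hLOC hTV1 hAVG hPIF hONEB hNUM W hW hWm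
  obtain ⟨v0, hv0⟩ := eventually_atTop.1 hW
  filter_upwards [hNUM, ev_log, ev_small 16 (show (0 : ℝ) < 0.001 by norm_num) (show (0 : ℝ) < 1 / 3 by norm_num),
    ev_small 32 (show (0 : ℝ) < 0.44 by norm_num) (show (0 : ℝ) < 1 / 3 by norm_num),
    ev_small 16 (show (0 : ℝ) < 0.196 by norm_num) (show (0 : ℝ) < 1 / 3 by norm_num),
    ev_large 4 (show (0 : ℝ) < 0.511 by norm_num), ev_large 3 (show (0 : ℝ) < 0.01 by norm_num), ev_z0,
    eventually_ge_atTop 6, eventually_ge_atTop v0]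
    with X hnum hlog a1 a2 a3 hlarge hlarge3 hz6 hX6 hXv0 x t τ₁ τ₂ b hx1 hx2 ht1 ht1' ht2 ht2' hG hR
  obtain ⟨n1, n2, n3⟩ := hnum x hx1 (by omega)
  obtain ⟨R1, R2⟩ := hR
  obtain ⟨u, hu⟩ : ∃ u, u = uX X := ⟨_, rfl⟩
  obtain ⟨h, hh⟩ : ∃ h, h = hX X := ⟨_, rfl⟩
  obtain ⟨y, hy⟩ : ∃ y : ℝ, y = X := ⟨_, rfl⟩
  obtain ⟨M, hM⟩ : ∃ M, M = MX X := ⟨_, rfl⟩
  rw [← hu] at n1 n2 n3
  rw [← hy] at hlog a1 a2 a3 hlarge hlarge3 hz6 n2
  rw [← hu, ← hh] at R1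
  rw [← hu, ← hh] at R2
  rw [← hu, ← hM, ← hy]
  have hy6 : 6 ≤ y := by rw [hy]; exact_mod_cast hX6
  have hy0 : 0 < y := by linarith
  have hy1 : 1 ≤ y := by linarith
  have hL : 0 < Real.log y := Real.log_pos (by linarith)
  have u1 : (u : ℝ) ≤ y ^ (0.511 : ℝ) := by
    rw [hu, uX, hy]
    exact Nat.floor_le (by positivity)
  have u2 : y ^ (0.511 : ℝ) - 1 < u := by
    rw [hu, uX, ← hy]
    exact Nat.sub_one_lt_floor _
  have u3 : y ^ (0.511 : ℝ) / 2 ≤ u := by linarith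
  have u4 : 2 ≤ u := by
    have : (2 : ℝ) ≤ u := by linarith
    exact_mod_cast this
  have h1 : (h : ℝ) ≤ y ^ (0.005 : ℝ) := by
    rw [hh, hX, hy]
    exact Nat.floor_le (by positivity)
  have h2 : 1 ≤ h := by
    rw [hh, hX, ← hy]
    refine Nat.le_floor ?_
    rw [Nat.cast_one]
    exact Real.one_le_rpow hy1 (by norm_num)
  have uX' : u ≤ X := by
    have : (u : ℝ) ≤ X := by
      rw [← hy]
      refine u1.trans ?_
      calc y ^ (0.511 : ℝ) ≤ y ^ (1 : ℝ) := Real.rpow_le_rpow_of_exponent_le hy1 (by norm_num)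
        _ = y := Real.rpow_one y
    exact_mod_cast this
  -- the levels
  have hWz : ∀ v ≤ x + 3 * u, W v ≤ z0 x := by
    intro v hv
    refine (hWm hv).trans ?_
    refine le_trans ?_ n1
    have k1 := hv0 (x + 3 * u) (by omega)
    have k2 : ((x + 3 * u : ℕ) : ℝ) ≤ y ^ (2 : ℝ) := by
      have : x + 3 * u ≤ 6 * X := by omega
      have k3 : ((x + 3 * u : ℕ) : ℝ) ≤ 6 * y := by rw [hy]; exact_mod_cast this
      rw [Real.rpow_two]
      nlinarith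
    have k3 : ((x + 3 * u : ℕ) : ℝ) ^ (0.1 : ℝ) ≤ 8 * u := by
      calc ((x + 3 * u : ℕ) : ℝ) ^ (0.1 : ℝ) ≤ (y ^ (2 : ℝ)) ^ (0.1 : ℝ) :=
            Real.rpow_le_rpow (Nat.cast_nonneg _) k2 (by norm_num)
        _ = y ^ (0.2 : ℝ) := by
            rw [← Real.rpow_mul hy0.le]
            norm_num
        _ ≤ y ^ (0.511 : ℝ) := Real.rpow_le_rpow_of_exponent_le hy1 (by norm_num)
        _ ≤ 8 * u := by linarith
    have k4 : (W (x + 3 * u) : ℝ) ≤ ((8 * u : ℕ) : ℝ) := by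
      push_cast
      push_cast at k1 k3
      exact k1.trans k3
    exact_mod_cast k4
  have hq : ∀ q ∈ fr z0 x (x + 3 * u), 8 * u ≤ q := by
    intro q hq
    unfold fr at hq
    rw [mem_filter, mem_Ioc] at hq
    omega
  obtain ⟨g1, g2⟩ := hG
  rw [← hu, ← hy] at g1
  obtain ⟨m0, hm0⟩ : ∃ m0 : ℕ, m0 = ⌈(u : ℝ) / (16 * Real.log y)⌉₊ := ⟨_, rfl⟩
  have m1 : m0 + (Old z0 W x (x + u / 2) b).card ≤ (Old z0 W x (x + u) b).card := by
    have k1 : (Old z0 W x (x + u / 2) b).card ≤ (Old z0 W x (x + u) b).card := by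
      have k0 : (0 : ℝ) ≤ (u : ℝ) / (16 * Real.log y) := by positivity
      have : ((Old z0 W x (x + u / 2) b).card : ℝ) ≤ (Old z0 W x (x + u) b).card := by linarith
      exact_mod_cast this
    have k2 : m0 ≤ (Old z0 W x (x + u) b).card - (Old z0 W x (x + u / 2) b).card := by
      rw [hm0, Nat.ceil_le, Nat.cast_sub k1]
      linarith
    omega
  have m2 : (u : ℝ) / (16 * Real.log y) ≤ m0 := by
    rw [hm0]
    exact Nat.le_ceil _
  have hx0 : 0 < (x : ℝ) := by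
    have : 0 < x := by omega
    exact_mod_cast this
  have hx3 : (x : ℝ) ≤ 3 * y := by rw [hy]; exact_mod_cast hx2
  have hxy : y ≤ x := by rw [hy]; exact_mod_cast hx1
  have hlx0 : 0 < Real.log x := Real.log_pos (by linarith)
  have hlx : Real.log x ≤ 2 * Real.log y := by
    have k1 : Real.log x ≤ Real.log (y ^ 2) := Real.log_le_log hx0 (by nlinarith)
    rw [Real.log_pow] at k1
    exact_mod_cast k1
  have n4 : (u : ℝ) / (240 * y * Real.log y) ≤ ∑ q ∈ fr z0 x (x + u / 2), 1 / (q : ℝ) := by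
    refine le_trans ?_ n3
    refine div_le_div_of_nonneg_left (Nat.cast_nonneg _) (by positivity) ?_
    calc 40 * (x : ℝ) * Real.log x ≤ 40 * (3 * y) * (2 * Real.log y) :=
          mul_le_mul (by linarith) hlx hlx0.le (by positivity)
      _ = 240 * y * Real.log y := by ring
  have hc : y ^ (0.02 : ℝ) ≤ m0 * ∑ q ∈ fr z0 x (x + u / 2), 1 / (q : ℝ) := by
    refine (prod_ge hy1 hL u3 hlog).trans ?_
    exact mul_le_mul m2 n4 (by positivity) (Nat.cast_nonneg _)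
  have hs0 : 0 ≤ ∑ q ∈ fr z0 x (x + 3 * u), 1 / (q : ℝ) := sum_nonneg fun q _ => by positivity
  -- the number of the fresh primes
  have hMy : (M : ℝ) ≤ y ^ (0.14 : ℝ) := by
    rw [hM, MX, hy]
    exact Nat.floor_le (by positivity)
  have hcard : (fr z0 x (x + 3 * u)).card ≤ M := by
    have k1 : (z0 (x + 3 * u) : ℝ) ≤ (3 * y) ^ (0.61 : ℝ) := by
      refine le_trans ?_ hz6
      exact_mod_cast Pool.Agent.T2H32.BF.z0_mono (show x + 3 * u ≤ 6 * X by omega)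
    have k2 := (card_fr_le k1 (by positivity) n2).trans (card_num hy1 hlarge3)
    rw [hM, MX, ← hy]
    exact Nat.le_floor k2
  have herr := err_le (M := (M : ℝ)) hy1 (Nat.cast_nonneg u) hs0 (Nat.cast_nonneg M) h1 u1 n2 hMy
    a1 a2 a3
  have hone := hONEB hLOC hTV1 hAVG hPIF z0 W Pool.Agent.T2H32.BF.z0_mono x u h m0 M t
    (y ^ (0.02 : ℝ)) τ₁ τ₂ b (by omega) u4 hWz hq h2 m1 (by positivity) hc hcard R1 ht1 ht1' ht2
    ht2' R2
  refine ⟨?_, ?_, ?_⟩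
  · exact hone.1.trans (by linarith)
  · exact le_trans (by linarith) hone.2
  · classical
    intro b' p hp1 hp2 hp
    have hpif := hPIF z0 W Pool.Agent.T2H32.BF.z0_mono x (x + 3 * u) p b b' (by omega) (by omega)
      (by omega) hWz
    have memO : ∀ p v, v ∈ Old z0 W x p b ↔ (x < v ∧ v ≤ p) ∧ Sv W (z0 x) b v := by
      intro p v
      unfold Old
      rw [mem_filter, mem_Ioc]
    have hDD : DD (fr z0 x (x + 3 * u)) (Old z0 W x p b) (fun q v => q ≤ z0 v) b' ≤ M := by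
      refine (DD_le _ _ _ _ ?_).trans hcard
      intro q hq' v hv v' hv' he
      rw [memO] at hv hv'
      exact BLKN.inj_mod (by omega) (hq q hq') hv.1.1 (hv.1.2.trans hp2) hv'.1.1
        (hv'.1.2.trans hp2) he
    have hpS : Sv W (z0 x) b p :=
      ((PIFN.new_iff Pool.Agent.T2H32.BF.z0_mono b b' (by omega) (by omega) (by omega)
        (hWz p (by omega))).1 hp).1
    have c1 : (Old z0 W x (x + u) b).card < (Old z0 W x p b).card := by
      refine card_lt_card ⟨?_, ?_⟩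
      · intro v hv
        rw [memO] at hv ⊢
        exact ⟨⟨hv.1.1, by omega⟩, hv.2⟩
      · intro hsub
        have k1 : p ∈ Old z0 W x p b := (memO p p).2 ⟨⟨by omega, le_rfl⟩, hpS⟩
        have k2 := (memO (x + u) p).1 (hsub k1)
        omega
    have c2 : (Old z0 W x p b).card ≤ (Old z0 W x (x + 2 * u) b).card := by
      refine card_le_card ?_
      intro v hv
      rw [memO] at hv ⊢
      exact ⟨⟨hv.1.1, by omega⟩, hv.2⟩
    have e1 : KP z0 W x (x + u) b = pin (RS z0 W b) x + (Old z0 W x (x + u) b).card := rfl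
    have e2 : KP z0 W x (x + 2 * u) b = pin (RS z0 W b) x + (Old z0 W x (x + 2 * u) b).card := rfl
    omega

end Pool.Agent.H531.IX
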