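import Pool.Agent.H531.IX.Stm4

set_option autoImplicit false

/-!
# GOL: Goldbach in a short range (helper791, for project IX of helper531)
-/

open Finset MeasureTheory ProbabilityTheory Filter Topology

namespace Pool.Agent.H531.IX

open Pool.Agent.T2H32.BF (Model z0 V)
open Pool.Agent.H559.BS (Limit)
open Pool.Agent.H559.HY (OK WW Cut)
open Pool.Agent.T2H32.GB (C2)

namespace GOLN

theorem pow_ev (r M : ℝ) (hr : 0 < r) : ∀ᶠ n : ℕ in atTop, M ≤ (n : ℝ) ^ r :=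
  ((tendsto_rpow_atTop hr).comp tendsto_natCast_atTop_atTop).eventually_ge_atTop M

theorem log_ev (r ε : ℝ) (hr : 0 < r) (hε : 0 < ε) :
    ∀ᶠ n : ℕ in atTop, Real.log n ≤ ε * (n : ℝ) ^ r := by
  have h := ((isLittleO_log_rpow_atTop hr).comp_tendsto tendsto_natCast_atTop_atTop).bound hε
  filter_upwards [h] with n hn
  simp only [Function.comp_apply, Real.norm_eq_abs] at hn
  rw [abs_of_nonneg (by positivity : (0 : ℝ) ≤ (n : ℝ) ^ r)] at hn
  exact (le_abs_self _).trans hn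

/-- the number of the representations -/
theorem gw_le (A : Set ℕ) (n u y : ℕ) :
    Pool.Agent.H559.SI.gw A (2 * n) u y ≤ (G3 A A n u (u + y)).card := by
  unfold Pool.Agent.H559.SI.gw
  rw [← Set.ncard_coe_finset]
  refine Set.ncard_le_ncard ?_ (Finset.finite_toSet _)
  rintro p ⟨h1, h2, h3, q, hq, hpq⟩
  have h4 : 2 * n - p ∈ A := by
    have : 2 * n - p = q := by omega
    rw [this]
    exact hq
  rw [Finset.mem_coe]
  unfold G3
  simp only [Finset.mem_filter, Finset.mem_Ioc]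
  exact ⟨⟨h1, h2⟩, h3, h4⟩

end GOLN

open GOLN in
theorem gol : S_GOL := by
  intro c c₂ hc hc₂ hlim b hb
  have hg := Pool.Agent.H559.SI.gshort z0 (WW c)
    ⟨Pool.Agent.T2H32.BF.z0_mono, Pool.Agent.T2H32.BF.z0_lim⟩ (Pool.Agent.H559.HY.cut_WW c hc)
    b hb c₂ hc₂ hlim (1 / 2) (1 / 2) (by norm_num) (by norm_num)
  have h2n : Tendsto (fun n : ℕ => 2 * n) atTop atTop :=
    tendsto_id.const_mul_atTop' (by norm_num)
  obtain ⟨ε, hε, hεc⟩ : ∃ ε : ℝ, 0 < ε ∧ 4 * ε ^ 2 = c₂ / 2 := by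
    refine ⟨√(c₂ / 8), by positivity, ?_⟩
    rw [Real.sq_sqrt (by positivity)]
    ring
  filter_upwards [h2n.eventually hg, pow_ev 0.498 4 (by norm_num), pow_ev 0.002 4 (by norm_num),
    pow_ev 0.998 2 (by norm_num), log_ev 0.00005 ε (by norm_num) hε, eventually_ge_atTop 4]
    with n h1 h2 h3 h4 h5 h6
  have hn0 : (0 : ℝ) < n := by exact_mod_cast (by omega : 0 < n)
  have hn4 : (4 : ℝ) ≤ n := by exact_mod_cast h6
  have hL1 : (LL n : ℝ) ≤ (n : ℝ) ^ (0.998 : ℝ) := Nat.floor_le (by positivity)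
  have hL2 : (n : ℝ) ^ (0.998 : ℝ) / 2 ≤ LL n := by
    have h7 : (n : ℝ) ^ (0.998 : ℝ) < LL n + 1 := Nat.lt_floor_add_one _
    linarith
  have hL3 : (n : ℝ) ^ (0.998 : ℝ) * 4 ≤ n := by
    calc (n : ℝ) ^ (0.998 : ℝ) * 4 ≤ (n : ℝ) ^ (0.998 : ℝ) * (n : ℝ) ^ (0.002 : ℝ) :=
          mul_le_mul_of_nonneg_left h3 (by positivity)
      _ = (n : ℝ) ^ (1 : ℝ) := by
          rw [← Real.rpow_add hn0]
          norm_num
      _ = n := Real.rpow_one _
  have hL4 : 4 * LL n ≤ n := by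
    have : (4 : ℝ) * LL n ≤ n := by linarith
    exact_mod_cast this
  have hL0 : 0 < LL n := by
    have : (0 : ℝ) < LL n := lt_of_lt_of_le (by positivity) hL2
    exact_mod_cast this
  have hu : YY n = n / 2 := rfl
  have hyu : LL n ≤ YY n := by omega
  have huy : YY n + 2 * LL n ≤ 2 * n := by omega
  have hδ : ((2 * n : ℕ) : ℝ) ^ (1 / 2 : ℝ) ≤ LL n := by
    refine le_trans ?_ hL2
    have e1 : ((2 * n : ℕ) : ℝ) ^ (1 / 2 : ℝ) ≤ 2 * (n : ℝ) ^ (1 / 2 : ℝ) := by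
      push_cast
      rw [Real.mul_rpow (by norm_num) hn0.le]
      refine mul_le_mul_of_nonneg_right ?_ (by positivity)
      calc (2 : ℝ) ^ (1 / 2 : ℝ) ≤ (2 : ℝ) ^ (1 : ℝ) :=
            Real.rpow_le_rpow_of_exponent_le (by norm_num) (by norm_num)
        _ = 2 := Real.rpow_one _
    have e2 : 4 * (n : ℝ) ^ (1 / 2 : ℝ) ≤ (n : ℝ) ^ (0.998 : ℝ) := by
      calc 4 * (n : ℝ) ^ (1 / 2 : ℝ) ≤ (n : ℝ) ^ (0.498 : ℝ) * (n : ℝ) ^ (1 / 2 : ℝ) :=
            mul_le_mul_of_nonneg_right h2 (by positivity)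
        _ = (n : ℝ) ^ (0.998 : ℝ) := by
            rw [← Real.rpow_add hn0]
            norm_num
    linarith
  have h7 := h1 (even_two_mul n) (YY n) (LL n) hδ hyu huy
  have hgle := gw_le (RS z0 (WW c) b) n (YY n) (LL n)
  obtain ⟨g, hgdef⟩ : ∃ g : ℝ, g = (Pool.Agent.H559.SI.gw (RS z0 (WW c) b) (2 * n) (YY n) (LL n) : ℝ) :=
    ⟨_, rfl⟩
  have hg0 : 0 ≤ g := by
    rw [hgdef]
    exact Nat.cast_nonneg _
  have h8 : |g * (Real.log (YY n) * Real.log ((2 * n - YY n : ℕ) : ℝ)) /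
      (LL n * Pool.Agent.H559.HY.TG c₂ (2 * n)) - 1| ≤ 1 / 2 := by
    rw [hgdef]
    exact h7
  have hTG := Pool.Agent.H559.HY.TG_ge c₂ hc₂ (2 * n)
  have hLr : (0 : ℝ) < LL n := by exact_mod_cast hL0
  have hpos : 0 < (LL n : ℝ) * Pool.Agent.H559.HY.TG c₂ (2 * n) := mul_pos hLr (by linarith)
  have h9 : 1 / 2 * ((LL n : ℝ) * Pool.Agent.H559.HY.TG c₂ (2 * n)) ≤
      g * (Real.log (YY n) * Real.log ((2 * n - YY n : ℕ) : ℝ)) := by
    have h10 := (abs_le.1 h8).1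
    rw [← le_div_iff₀ hpos]
    linarith
  have h10 : c₂ * LL n ≤ 1 / 2 * ((LL n : ℝ) * Pool.Agent.H559.HY.TG c₂ (2 * n)) := by
    nlinarith
  -- the logarithms
  have hlog : ∀ m : ℕ, 1 ≤ m → m ≤ 2 * n → 0 ≤ Real.log m ∧ Real.log m ≤ 2 * Real.log n := by
    intro m hm hm2
    have hm0 : (0 : ℝ) < m := by exact_mod_cast hm
    refine ⟨Real.log_natCast_nonneg m, ?_⟩
    have e1 : Real.log m ≤ Real.log (2 * n) := by
      refine Real.log_le_log hm0 ?_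
      exact_mod_cast hm2
    have e2 : Real.log (2 * n) = Real.log 2 + Real.log n :=
      Real.log_mul (by norm_num) hn0.ne'
    have e3 : Real.log 2 ≤ Real.log n := Real.log_le_log (by norm_num) (by linarith)
    linarith
  obtain ⟨a1, a2⟩ := hlog (YY n) (by omega) (by omega)
  obtain ⟨b1, b2⟩ := hlog (2 * n - YY n) (by omega) (by omega)
  have hln0 : 0 ≤ Real.log n := Real.log_natCast_nonneg n
  have h11 : Real.log (YY n) * Real.log ((2 * n - YY n : ℕ) : ℝ) ≤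
      (2 * Real.log n) * (2 * Real.log n) := mul_le_mul a2 b2 b1 (by positivity)
  have h12 : (2 * Real.log n) * (2 * Real.log n) ≤ c₂ / 2 * (n : ℝ) ^ (0.0001 : ℝ) := by
    have e1 : (2 * Real.log n) * (2 * Real.log n) ≤
        (2 * (ε * (n : ℝ) ^ (0.00005 : ℝ))) * (2 * (ε * (n : ℝ) ^ (0.00005 : ℝ))) := by
      have : 2 * Real.log n ≤ 2 * (ε * (n : ℝ) ^ (0.00005 : ℝ)) := by linarith
      exact mul_le_mul this this (by positivity) (by positivity)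
    have e2 : (n : ℝ) ^ (0.00005 : ℝ) * (n : ℝ) ^ (0.00005 : ℝ) = (n : ℝ) ^ (0.0001 : ℝ) := by
      rw [← Real.rpow_add hn0]
      norm_num
    calc (2 * Real.log n) * (2 * Real.log n)
        ≤ (2 * (ε * (n : ℝ) ^ (0.00005 : ℝ))) * (2 * (ε * (n : ℝ) ^ (0.00005 : ℝ))) := e1
      _ = 4 * ε ^ 2 * ((n : ℝ) ^ (0.00005 : ℝ) * (n : ℝ) ^ (0.00005 : ℝ)) := by ring
      _ = c₂ / 2 * (n : ℝ) ^ (0.0001 : ℝ) := by rw [e2, hεc]
  have h13 : c₂ * LL n ≤ g * (c₂ / 2 * (n : ℝ) ^ (0.0001 : ℝ)) :=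
    h10.trans (h9.trans (mul_le_mul_of_nonneg_left (h11.trans h12) hg0))
  have h14 : (n : ℝ) ^ (0.998 : ℝ) = (n : ℝ) ^ (0.9979 : ℝ) * (n : ℝ) ^ (0.0001 : ℝ) := by
    rw [← Real.rpow_add hn0]
    norm_num
  have h15 : (n : ℝ) ^ (0.9979 : ℝ) ≤ g := by
    have e1 : c₂ / 2 * (n : ℝ) ^ (0.0001 : ℝ) * (n : ℝ) ^ (0.9979 : ℝ) ≤
        c₂ / 2 * (n : ℝ) ^ (0.0001 : ℝ) * g := by
      calc c₂ / 2 * (n : ℝ) ^ (0.0001 : ℝ) * (n : ℝ) ^ (0.9979 : ℝ)
          = c₂ * ((n : ℝ) ^ (0.998 : ℝ) / 2) := by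
            rw [h14]
            ring
        _ ≤ c₂ * LL n := mul_le_mul_of_nonneg_left hL2 hc₂.le
        _ ≤ _ := by linarith
    exact le_of_mul_le_mul_left e1 (by positivity)
  refine h15.trans ?_
  rw [hgdef]
  exact_mod_cast hgle

end Pool.Agent.H531.IX
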