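import Pool.Agent.H531.IX.Stm4
set_option autoImplicit false
open Filter Topology

namespace Pool.Agent.H531.IX
theorem kk_ev : S_KK := by
  have hlog : Tendsto (fun n : ℕ => 4 * Real.log (n : ℝ)) atTop atTop :=
    (Real.tendsto_log_atTop.comp tendsto_natCast_atTop_atTop).const_mul_atTop (by norm_num)
  have h1 := (isLittleO_log_rpow_atTop (r := 1 / 2) (by norm_num)).bound
    (show (0 : ℝ) < 0.00005 by norm_num)
  have h2 := hlog.eventually h1
  unfold S_KK
  filter_upwards [h2, hlog.eventually_ge_atTop 4, eventually_ge_atTop 2] with n h3 h4 h5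
  have hn : (0 : ℝ) < n := by exact_mod_cast (by omega : 0 < n)
  set L : ℝ := Real.log (n : ℝ) with hL
  have hL1 : 1 ≤ L := by linarith
  have hL0 : 0 < L := by linarith
  have hs1 : 1 ≤ √L := by
    rw [Real.one_le_sqrt]
    exact hL1
  have hss : √L * √L = L := Real.mul_self_sqrt hL0.le
  have hlog0 : 0 ≤ Real.log (4 * L) := Real.log_nonneg (by linarith)
  have h6 : Real.log (4 * L) ≤ 0.00005 * (2 * √L) := by
    have e : (4 * L) ^ (1 / 2 : ℝ) = 2 * √L := by
      rw [← Real.sqrt_eq_rpow, Real.sqrt_mul (by norm_num)]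
      congr 1
      rw [show (4 : ℝ) = 2 ^ 2 by norm_num, Real.sqrt_sq (by norm_num)]
    rw [Real.norm_of_nonneg hlog0, Real.norm_of_nonneg (by positivity), e] at h3
    exact h3
  have h7 : ((kk n + 1 : ℕ) : ℝ) ≤ 3 * √L := by
    have h8 : ((kk n : ℕ) : ℝ) ≤ 2 * √L := Nat.floor_le (by positivity)
    push_cast
    linarith
  have h9 : ((kk n + 1 : ℕ) : ℝ) * Real.log (4 * L) ≤ 0.0005 * L := by
    calc ((kk n + 1 : ℕ) : ℝ) * Real.log (4 * L) ≤ (3 * √L) * (0.00005 * (2 * √L)) :=
          mul_le_mul h7 h6 hlog0 (by positivity)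
      _ = 0.0003 * (√L * √L) := by ring
      _ ≤ 0.0005 * L := by
          rw [hss]
          linarith
  have e1 : (4 * L) ^ (kk n + 1) = Real.exp (((kk n + 1 : ℕ) : ℝ) * Real.log (4 * L)) := by
    rw [← Real.log_pow, Real.exp_log (by positivity)]
  have e2 : (n : ℝ) ^ (0.0005 : ℝ) = Real.exp (0.0005 * L) := by
    rw [Real.rpow_def_of_pos hn, mul_comm]
  rw [e1, e2]
  exact Real.exp_le_exp.2 h9

end Pool.Agent.H531.IX
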