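import Pool.Agent.H531.IX.Stm4

set_option autoImplicit false

open Finset MeasureTheory ProbabilityTheory Filter Topology

namespace Pool.Agent.H531.IX

open Pool.Agent.T2H32.BF (Model z0 V)
open Pool.Agent.H559.HY (OK WW Cut)

namespace LUEN

/-- the first family: the parameter is the pair of `n` and `i` -/
def B1 (W : ℕ → ℕ) (N X : ℕ) (b : ℕ → ℕ) : Set ℕ := {v | Sv W (z0 X) b (2 * N.unpair.1 - v)}

/-- the indices of the first family -/
def T1 (W : ℕ → ℕ) (N X : ℕ) (b : ℕ → ℕ) (_ : ℕ) : Set ℕ :=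
  ra (RS z0 W b) N.unpair.2 ∩ Set.Iic X

/-- the second family: the parameter is the pair of `n` and the pair of `i` and `k` -/
def B2 (W : ℕ → ℕ) (N X : ℕ) (b : ℕ → ℕ) : Set ℕ :=
  {p | 2 * N.unpair.1 - p ∈ ra (RS z0 W b) N.unpair.2.unpair.2 ∧ 2 * N.unpair.1 - p ≤ X}

/-- the indices of the second family -/
def T2 (W : ℕ → ℕ) (N X : ℕ) (b : ℕ → ℕ) (_ : ℕ) : Set ℕ :=
  ra (RS z0 W b) N.unpair.2.unpair.1 ∩ Set.Iic X

/-- the regularity -/
noncomputable def tt (_ X : ℕ) (_ : ℕ → ℕ) : ℝ := (X : ℝ) ^ (-(0.001 : ℝ))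

theorem tt_mem (N X : ℕ) (b : ℕ → ℕ) : (X : ℝ) ^ (-(0.001 : ℝ)) ≤ tt N X b ∧ tt N X b ≤ 1 := by
  refine ⟨le_rfl, ?_⟩
  unfold tt
  rcases Nat.eq_zero_or_pos X with hX | hX
  · subst hX
    rw [Nat.cast_zero, Real.zero_rpow (by norm_num)]
    exact zero_le_one
  · exact Real.rpow_le_one_of_one_le_of_nonpos (by exact_mod_cast hX) (by norm_num)

theorem Sv_congr (W : ℕ → ℕ) (y : ℕ) (b b' : ℕ → ℕ) (h : ∀ q ≤ y, b q = b' q) (v : ℕ) :
    Sv W y b v ↔ Sv W y b' v := by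
  unfold Sv
  constructor
  · intro hv q hq hp
    have := hv q hq hp
    rwa [h q hq] at this
  · intro hv q hq hp
    have := hv q hq hp
    rwa [← h q hq] at this

theorem ra_congr (hRAI : S_RAI) (W : ℕ → ℕ) (X : ℕ) (b b' : ℕ → ℕ)
    (h : ∀ q ≤ z0 X, b q = b' q) (i v : ℕ) (hv : v ≤ X) :
    v ∈ ra (RS z0 W b) i ↔ v ∈ ra (RS z0 W b') i :=
  hRAI.2.1 _ _ X (hRAI.2.2 W X b b' fun q hq _ => h q hq) i v hv

theorem ra_inter (hRAI : S_RAI) (W : ℕ → ℕ) (X : ℕ) (b b' : ℕ → ℕ)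
    (h : ∀ q ≤ z0 X, b q = b' q) (i : ℕ) :
    ra (RS z0 W b) i ∩ Set.Iic X = ra (RS z0 W b') i ∩ Set.Iic X := by
  ext v
  constructor
  · rintro ⟨h1, h2⟩
    exact ⟨(ra_congr hRAI W X b b' h i v h2).1 h1, h2⟩
  · rintro ⟨h1, h2⟩
    exact ⟨(ra_congr hRAI W X b b' h i v h2).2 h1, h2⟩

theorem dep1 (hRAI : S_RAI) (W : ℕ → ℕ) (N X : ℕ) (b b' : ℕ → ℕ)
    (h : ∀ q ≤ z0 X, b q = b' q) :
    B1 W N X b = B1 W N X b' ∧ T1 W N X b = T1 W N X b' ∧ tt N X b = tt N X b' := by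
  refine ⟨?_, ?_, rfl⟩
  · ext v
    exact Sv_congr W (z0 X) b b' h _
  · funext _
    exact ra_inter hRAI W X b b' h _

theorem dep2 (hRAI : S_RAI) (W : ℕ → ℕ) (N X : ℕ) (b b' : ℕ → ℕ)
    (h : ∀ q ≤ z0 X, b q = b' q) :
    B2 W N X b = B2 W N X b' ∧ T2 W N X b = T2 W N X b' ∧ tt N X b = tt N X b' := by
  refine ⟨?_, ?_, rfl⟩
  · ext v
    constructor
    · rintro ⟨h1, h2⟩
      exact ⟨(ra_congr hRAI W X b b' h _ _ h2).1 h1, h2⟩
    · rintro ⟨h1, h2⟩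
      exact ⟨(ra_congr hRAI W X b b' h _ _ h2).2 h1, h2⟩
  · funext _
    exact ra_inter hRAI W X b b' h _

theorem pair_le {X n i : ℕ} (hX : 4 ≤ X) (hn : n ≤ 3 * X) (hi : i ≤ X) :
    Nat.pair n i ≤ X ^ 6 := by
  have h1 := Nat.pair_lt_max_add_one_sq n i
  have h2 : max n i + 1 ≤ 4 * X := by
    have : max n i ≤ 3 * X := max_le hn (by omega)
    omega
  have h3 : (max n i + 1) ^ 2 ≤ (4 * X) ^ 2 := Nat.pow_le_pow_left h2 2
  have h4 : (4 * X) ^ 2 ≤ X ^ 6 := by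
    calc (4 * X) ^ 2 = 4 ^ 2 * X ^ 2 := by ring
      _ ≤ X ^ 2 * X ^ 2 := Nat.mul_le_mul_right _ (Nat.pow_le_pow_left hX 2)
      _ = X ^ 4 := by ring
      _ ≤ X ^ 6 := Nat.pow_le_pow_right (by omega) (by norm_num)
  omega

theorem pair_le' {X n i k : ℕ} (hX : 4 ≤ X) (hn : n ≤ 3 * X) (hi : i ≤ X) (hk : k ≤ X) :
    Nat.pair n (Nat.pair i k) ≤ X ^ 6 := by
  have h0 := Nat.pair_lt_max_add_one_sq i k
  have h1 := Nat.pair_lt_max_add_one_sq n (Nat.pair i k)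
  have h5 : (max i k + 1) ^ 2 ≤ (X + 1) ^ 2 :=
    Nat.pow_le_pow_left (Nat.succ_le_succ (max_le hi hk)) 2
  have h6 : n + 1 ≤ (X + 1) ^ 2 := by nlinarith
  have h2 : max n (Nat.pair i k) + 1 ≤ (X + 1) ^ 2 := by
    rcases max_cases n (Nat.pair i k) with ⟨h, _⟩ | ⟨h, _⟩
    · omega
    · omega
  have h3 : (max n (Nat.pair i k) + 1) ^ 2 ≤ ((X + 1) ^ 2) ^ 2 := Nat.pow_le_pow_left h2 2
  have h4 : ((X + 1) ^ 2) ^ 2 ≤ X ^ 6 := by
    calc ((X + 1) ^ 2) ^ 2 ≤ ((2 * X) ^ 2) ^ 2 :=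
          Nat.pow_le_pow_left (Nat.pow_le_pow_left (by omega) 2) 2
      _ = 4 ^ 2 * X ^ 4 := by ring
      _ ≤ X ^ 2 * X ^ 4 := Nat.mul_le_mul_right _ (Nat.pow_le_pow_left hX 2)
      _ = X ^ 6 := by ring
  omega

theorem lu_of_law (W : ℕ → ℕ) (b : ℕ → ℕ)
    (h1 : Law W {0} 6 (1 / 2) (B1 W) (T1 W) tt b)
    (h2 : Law W {0} 6 (1 / 2) (B2 W) (T2 W) tt b) : LU W b := by
  classical
  filter_upwards [h1, h2, eventually_ge_atTop 4] with X k1 k2 hX4
  intro hCB n i k X2 hn hi hk hX hX2 hreg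
  constructor
  · have h3 := (k1 (Nat.pair n i) (pair_le hX4 hn hi) X2 hX hX2 hCB).2 (by
      intro p _ _ _ j hj1 hj2
      have h4 := hreg j hj1 hj2
      simp only [tt, T1, Nat.unpair_pair]
      exact h4)
    have hM : MT z0 W {0} (B1 W (Nat.pair n i) X b) X X2 b = (G1 W n 0 (z0 X) X X2 b).card := by
      unfold MT G1
      congr 1
      ext v
      rw [Finset.mem_filter, Finset.mem_filter]
      simp only [mem_singleton, forall_eq, add_zero, B1, Nat.unpair_pair,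
        Set.mem_ofPred_eq, ra]
      tauto
    have hN : NT z0 W {0} (B1 W (Nat.pair n i) X b) (T1 W (Nat.pair n i) X b) X X2 b ≤
        (G1 W n (i + 1) (z0 X) X X2 b).card := by
      unfold NT G1
      refine card_le_card ?_
      intro v
      rw [Finset.mem_filter, Finset.mem_filter]
      simp only [mem_singleton, forall_eq, add_zero, B1, T1, Nat.unpair_pair,
        Set.mem_ofPred_eq, ra, Set.mem_inter_iff]
      tauto
    have hN' : (NT z0 W {0} (B1 W (Nat.pair n i) X b) (T1 W (Nat.pair n i) X b) X X2 b : ℝ) ≤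
        ((G1 W n (i + 1) (z0 X) X X2 b).card : ℝ) := by exact_mod_cast hN
    rw [hM, tt] at h3
    refine le_trans ?_ (h3.trans hN')
    have e : (1 - 1 / 2 : ℝ) = 1 / 2 := by norm_num
    rw [e]
  · have h3 := (k2 (Nat.pair n (Nat.pair i k)) (pair_le' hX4 hn hi hk) X2 hX hX2 hCB).2 (by
      intro p _ _ _ j hj1 hj2
      have h4 := hreg j hj1 hj2
      simp only [tt, T2, Nat.unpair_pair]
      exact h4)
    have hM : MT z0 W {0} (B2 W (Nat.pair n (Nat.pair i k)) X b) X X2 b =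
        (G2 W n 0 k X X2 b).card := by
      unfold MT G2
      congr 1
      ext v
      rw [Finset.mem_filter, Finset.mem_filter]
      simp only [mem_singleton, forall_eq, add_zero, B2, Nat.unpair_pair,
        Set.mem_ofPred_eq, ra]
      tauto
    have hN : NT z0 W {0} (B2 W (Nat.pair n (Nat.pair i k)) X b)
        (T2 W (Nat.pair n (Nat.pair i k)) X b) X X2 b ≤ (G2 W n (i + 1) k X X2 b).card := by
      unfold NT G2
      refine card_le_card ?_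
      intro v
      rw [Finset.mem_filter, Finset.mem_filter]
      simp only [mem_singleton, forall_eq, add_zero, B2, T2, Nat.unpair_pair,
        Set.mem_ofPred_eq, ra, Set.mem_inter_iff]
      tauto
    have hN' : (NT z0 W {0} (B2 W (Nat.pair n (Nat.pair i k)) X b)
        (T2 W (Nat.pair n (Nat.pair i k)) X b) X X2 b : ℝ) ≤
        ((G2 W n (i + 1) k X X2 b).card : ℝ) := by exact_mod_cast hN
    rw [hM, tt] at h3
    refine le_trans ?_ (h3.trans hN')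
    have e : (1 - 1 / 2 : ℝ) = 1 / 2 := by norm_num
    rw [e]

end LUEN

open LUEN in
theorem lue : S_LUE := by
  intro hAEL hRAI hSM c hc Ω _ P a hM
  obtain ⟨hs1, hs2, -⟩ := hSM c (by linarith)
  have h1 := hAEL (WW c) {0} 6 (1 / 2) (B1 (WW c)) (T1 (WW c)) tt hs1 hs2 (by norm_num)
    (by norm_num) (fun N X b b' h => dep1 hRAI (WW c) N X b b' h) tt_mem Ω P a hM
  have h2 := hAEL (WW c) {0} 6 (1 / 2) (B2 (WW c)) (T2 (WW c)) tt hs1 hs2 (by norm_num)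
    (by norm_num) (fun N X b b' h => dep2 hRAI (WW c) N X b b' h) tt_mem Ω P a hM
  filter_upwards [h1, h2] with ω k1 k2
  exact lu_of_law (WW c) (fun q => a q ω) k1 k2

end Pool.Agent.H531.IX
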