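import Pool.Agent.H531.IX.Stm5

set_option autoImplicit false

/-!
# LVE: the index law for the two families, upper and lower bounds (helper106 for helper531)
-/

open Finset MeasureTheory ProbabilityTheory Filter Topology

namespace Pool.Agent.H531.IX

open Pool.Agent.T2H32.BF (Model z0 V)
open Pool.Agent.H559.BS (Limit)
open Pool.Agent.H559.HY (OK WW Cut TG)
open Pool.Agent.T2H32.GB (C2)

namespace LVEN

theorem cl_bounds (X : ℕ) (t : ℝ) : (X : ℝ) ^ (-(0.001 : ℝ)) ≤ cl X t ∧ cl X t ≤ 1 := by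
  unfold cl
  refine ⟨le_max_left _ _, max_le ?_ (min_le_right _ _)⟩
  rcases Nat.eq_zero_or_pos X with h | h
  · rw [h, Nat.cast_zero, Real.zero_rpow (by norm_num)]
    exact zero_le_one
  · exact Real.rpow_le_one_of_one_le_of_nonpos (by exact_mod_cast h) (by norm_num)

theorem Sv_congr (W : ℕ → ℕ) (y : ℕ) (b b' : ℕ → ℕ) (h : ∀ q ≤ y, b q = b' q) (v : ℕ) :
    Sv W y b v ↔ Sv W y b' v := by
  unfold Sv
  refine forall_congr' fun q => forall_congr' fun hq => forall_congr' fun _ => ?_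
  rw [h q hq]

theorem ra_congr (hR : S_RAI) (W : ℕ → ℕ) (X : ℕ) (b b' : ℕ → ℕ)
    (h : ∀ q ≤ z0 X, b q = b' q) (i v : ℕ) (hv : v ≤ X) :
    v ∈ ra (RS z0 W b) i ↔ v ∈ ra (RS z0 W b') i :=
  hR.2.1 _ _ X (hR.2.2 W X b b' (fun q hq _ => h q hq)) i v hv

theorem pin_mono (A : Set ℕ) {p p' : ℕ} (h : p ≤ p') : pin A p ≤ pin A p' := by
  unfold pin
  exact Set.ncard_le_ncard (Set.inter_subset_inter_right _ (Set.Icc_subset_Icc_right h))
    ((Set.finite_Icc _ _).inter_of_right _)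

/-- first family -/
def B1 (W : ℕ → ℕ) (n X : ℕ) (b : ℕ → ℕ) : Set ℕ := {v | Sv W (z0 X) b (2 * n - v)}

/-- second family -/
def B2 (W : ℕ → ℕ) (k n X : ℕ) (b : ℕ → ℕ) : Set ℕ :=
  {p | 2 * n - p ∈ ra (RS z0 W b) k ∧ 2 * n - p ≤ X}

/-- the indices -/
def T1 (W : ℕ → ℕ) (i : ℕ) (_n X : ℕ) (b : ℕ → ℕ) (_p : ℕ) : Set ℕ :=
  ra (RS z0 W b) i ∩ Set.Iic X

open Classical in
/-- both kinds of sets -/
noncomputable def GG (W : ℕ → ℕ) (b : ℕ → ℕ) (B : Set ℕ) (i X X2 : ℕ) : Finset ℕ :=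
  (Ioc X X2).filter fun v => v ∈ ra (RS z0 W b) i ∧ v ∈ B

theorem G1_eq (W : ℕ → ℕ) (n i X X2 : ℕ) (b : ℕ → ℕ) :
    G1 W n i (z0 X) X X2 b = GG W b (B1 W n X b) i X X2 := rfl

open Classical in
theorem G2_eq (W : ℕ → ℕ) (n i k X X2 : ℕ) (b : ℕ → ℕ) :
    G2 W n i k X X2 b = GG W b (B2 W k n X b) i X X2 := by
  unfold G2 GG
  ext v
  exact ⟨fun hv => mem_filter.2 (mem_filter.1 hv), fun hv => mem_filter.2 (mem_filter.1 hv)⟩

open Classical in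
theorem MT_eq (W : ℕ → ℕ) (b : ℕ → ℕ) (B : Set ℕ) (X X2 : ℕ) :
    MT z0 W {0} B X X2 b = (GG W b B 0 X X2).card := by
  unfold MT GG
  congr 1
  ext v
  constructor
  · intro hv
    obtain ⟨h1, h2, h3⟩ := mem_filter.1 hv
    have h4 := h3 0 (mem_singleton_self 0)
    rw [add_zero] at h4
    exact mem_filter.2 ⟨h1, h4, h2⟩
  · intro hv
    obtain ⟨h1, h2, h3⟩ := mem_filter.1 hv
    refine mem_filter.2 ⟨h1, h3, fun h hh => ?_⟩
    rw [mem_singleton.1 hh, add_zero]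
    exact h2

open Classical in
theorem NT_le (W : ℕ → ℕ) (b : ℕ → ℕ) (B : Set ℕ) (i n X X2 : ℕ) :
    NT z0 W {0} B (T1 W i n X b) X X2 b ≤ (GG W b B (i + 1) X X2).card := by
  unfold NT GG
  refine card_le_card fun v hv => ?_
  obtain ⟨h1, h2, h3, h4⟩ := mem_filter.1 hv
  have h5 := h3 0 (mem_singleton_self 0)
  rw [add_zero] at h5
  exact mem_filter.2 ⟨h1, ⟨h5, h4.1⟩, h2⟩

open Classical in
theorem le_NT (W : ℕ → ℕ) (b : ℕ → ℕ) (B : Set ℕ) (i n X X2 : ℕ)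
    (hp : pin (RS z0 W b) X2 ≤ X) :
    (GG W b B (i + 1) X X2).card ≤ NT z0 W {0} B (T1 W i n X b) X X2 b := by
  unfold NT GG
  refine card_le_card fun v hv => ?_
  obtain ⟨h1, h2, h3⟩ := mem_filter.1 hv
  refine mem_filter.2 ⟨h1, h3, fun h hh => ?_, h2.2, ?_⟩
  · rw [mem_singleton.1 hh, add_zero]
    exact h2.1
  · exact (pin_mono _ (mem_Ioc.1 h1).2).trans hp

theorem law_of (c : ℝ) (hc : 1 < c) (hAEL : S_AEL) (hRAI : S_RAI) (hSMALL : S_SMALL)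
    (i m : ℕ) (r : ℚ) (B : ℕ → ℕ → (ℕ → ℕ) → Set ℕ)
    (hB : ∀ n X, ∀ b b' : ℕ → ℕ, (∀ q ≤ z0 X, b q = b' q) → B n X b = B n X b')
    (Ω : Type) [MeasurableSpace Ω] (P : Measure Ω) (a : ℕ → Ω → ℕ) (hM : Model P a) :
    ∀ᵐ ω ∂P, Law (WW c) {0} 2 (1 / ((m : ℝ) + 1)) B (T1 (WW c) i)
      (fun n X _ => cl X (r / Real.log n ^ (i + 1))) (fun q => a q ω) := by
  obtain ⟨h1, h2, -⟩ := hSMALL c (by linarith)
  refine hAEL (WW c) {0} 2 (1 / ((m : ℝ) + 1)) B (T1 (WW c) i)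
    (fun n X _ => cl X (r / Real.log n ^ (i + 1))) h1 h2 (by positivity) ?_ ?_ ?_ Ω P a hM
  · rw [div_le_one (by positivity)]
    have : (0 : ℝ) ≤ m := Nat.cast_nonneg m
    linarith
  · intro n X b b' hb
    refine ⟨hB n X b b' hb, ?_, rfl⟩
    funext p
    unfold T1
    ext v
    rw [Set.mem_inter_iff, Set.mem_inter_iff]
    refine and_congr_left fun hv => ?_
    exact ra_congr hRAI (WW c) X b b' hb i v hv
  · intro n X b
    exact cl_bounds X _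

/-- one family -/
theorem step (W : ℕ → ℕ) (b : ℕ → ℕ) (i m : ℕ) (r : ℚ) (B : ℕ → ℕ → (ℕ → ℕ) → Set ℕ)
    (h : Law W {0} 2 (1 / ((m : ℝ) + 1)) B (T1 W i)
      (fun n X _ => cl X (r / Real.log n ^ (i + 1))) b) :
    ∀ᶠ X : ℕ in atTop, CB z0 W X b → ∀ n X2 : ℕ, n ≤ X ^ 2 → X ≤ X2 → X2 ≤ 2 * X →
    ((∀ j, pin (RS z0 W b) X ≤ j + hX X + 1 → j ≤ pin (RS z0 W b) X2 + 3 * uX X →
        ((ra (RS z0 W b) i ∩ Set.Iic X ∩ Set.Ioc j (j + hX X)).ncard : ℝ) ≤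
          cl X (r / Real.log n ^ (i + 1)) * hX X) →
      pin (RS z0 W b) X2 ≤ X →
      ((GG W b (B n X b) (i + 1) X X2).card : ℝ) ≤ (1 + 1 / ((m : ℝ) + 1)) *
        (cl X (r / Real.log n ^ (i + 1)) * (GG W b (B n X b) 0 X X2).card) +
          (X : ℝ) ^ (0.99 : ℝ)) ∧
    ((∀ j, pin (RS z0 W b) X ≤ j + hX X + 1 → j ≤ pin (RS z0 W b) X2 + 3 * uX X →
        cl X (r / Real.log n ^ (i + 1)) * hX X ≤
          ((ra (RS z0 W b) i ∩ Set.Iic X ∩ Set.Ioc j (j + hX X)).ncard : ℝ)) →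
      (1 - 1 / ((m : ℝ) + 1)) *
        (cl X (r / Real.log n ^ (i + 1)) * (GG W b (B n X b) 0 X X2).card) -
          (X : ℝ) ^ (0.99 : ℝ) ≤ (GG W b (B n X b) (i + 1) X X2).card) := by
  filter_upwards [h] with X hX hCB n X2 hn h1 h2
  obtain ⟨hu, hl⟩ := hX n hn X2 h1 h2 hCB
  constructor
  · intro hj hp
    have h3 := hu (fun p _ _ _ j hj1 hj2 => hj j hj1 hj2)
    rw [MT_eq] at h3
    have h4 : ((GG W b (B n X b) (i + 1) X X2).card : ℝ) ≤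
        NT z0 W {0} (B n X b) (T1 W i n X b) X X2 b := by
      exact_mod_cast le_NT W b (B n X b) i n X X2 hp
    exact h4.trans h3
  · intro hj
    have h3 := hl (fun p _ _ _ j hj1 hj2 => hj j hj1 hj2)
    rw [MT_eq] at h3
    have h4 : (NT z0 W {0} (B n X b) (T1 W i n X b) X X2 b : ℝ) ≤
        ((GG W b (B n X b) (i + 1) X X2).card : ℝ) := by
      exact_mod_cast NT_le W b (B n X b) i n X X2
    exact h3.trans h4

end LVEN

theorem lve : S_LVE := by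
  intro hAEL hRAI hSMALL c hc Ω _ P a hM
  have hL1 : ∀ᵐ ω ∂P, ∀ (i m : ℕ) (r : ℚ),
      Law (WW c) {0} 2 (1 / ((m : ℝ) + 1)) (LVEN.B1 (WW c)) (LVEN.T1 (WW c) i)
        (fun n X _ => cl X (r / Real.log n ^ (i + 1))) (fun q => a q ω) := by
    simp only [ae_all_iff]
    intro i m r
    refine LVEN.law_of c hc hAEL hRAI hSMALL i m r (LVEN.B1 (WW c)) ?_ Ω P a hM
    intro n X b b' hb
    unfold LVEN.B1
    ext v
    exact LVEN.Sv_congr (WW c) (z0 X) b b' hb (2 * n - v)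
  have hL2 : ∀ᵐ ω ∂P, ∀ (i k m : ℕ) (r : ℚ),
      Law (WW c) {0} 2 (1 / ((m : ℝ) + 1)) (LVEN.B2 (WW c) k) (LVEN.T1 (WW c) i)
        (fun n X _ => cl X (r / Real.log n ^ (i + 1))) (fun q => a q ω) := by
    simp only [ae_all_iff]
    intro i k m r
    refine LVEN.law_of c hc hAEL hRAI hSMALL i m r (LVEN.B2 (WW c) k) ?_ Ω P a hM
    intro n X b b' hb
    unfold LVEN.B2
    ext v
    exact and_congr_left fun hv => LVEN.ra_congr hRAI (WW c) X b b' hb k (2 * n - v) hv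
  filter_upwards [hL1, hL2] with ω h1 h2
  intro i k m r hr
  filter_upwards [LVEN.step (WW c) (fun q => a q ω) i m r (LVEN.B1 (WW c)) (h1 i m r),
    LVEN.step (WW c) (fun q => a q ω) i m r (LVEN.B2 (WW c) k) (h2 i k m r)]
    with X e1 e2 hCB n X2 hn hX1 hX2
  obtain ⟨u1, l1⟩ := e1 hCB n X2 hn hX1 hX2
  obtain ⟨u2, l2⟩ := e2 hCB n X2 hn hX1 hX2
  rw [LVEN.G1_eq, LVEN.G1_eq, LVEN.G2_eq, LVEN.G2_eq]
  exact ⟨fun hj hp => ⟨u1 hj hp, u2 hj hp⟩, fun hj => ⟨l1 hj, l2 hj⟩⟩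

end Pool.Agent.H531.IX
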