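import Pool.Agent.H531.IX.Stm7
import Pool.Agent.H531.IX.MAIN
import Pool.Agent.H531.IX.NUM

set_option autoImplicit false

/-!
# The place of a random prime with given index: all blocks (S_MAINP)
-/

open Finset MeasureTheory ProbabilityTheory Filter Topology

namespace Pool.Agent.H531.IX

open Pool.Agent.T2H31.HV (Pt Ev Dep Ev_const)
open Pool.Agent.T2H32.BF (Model z0 V z0_mono z0_top)

namespace MAINPN

open MAINN

/-! ## Indices -/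

lemma pin_lt {A : Set ℕ} {p p' : ℕ} (h : p < p') (hp : p' ∈ A) : pin A p < pin A p' := by
  unfold pin
  refine Set.ncard_lt_ncard ?_ ((Set.finite_Icc 1 p').subset Set.inter_subset_right)
  refine ⟨Set.inter_subset_inter_right _ (Set.Icc_subset_Icc_right h.le), ?_⟩
  intro hcon
  have h1 := hcon (show p' ∈ A ∩ Set.Icc 1 p' from ⟨hp, by omega, le_refl _⟩)
  have h2 := h1.2.2
  omega

lemma pin_add (A : Set ℕ) (y k : ℕ) : pin A (y + k) ≤ pin A y + k := by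
  unfold pin
  have h1 : A ∩ Set.Icc 1 (y + k) ⊆ (A ∩ Set.Icc 1 y) ∪ ((Ioc y (y + k) : Finset ℕ) : Set ℕ) := by
    rintro v ⟨hv, hv1, hv2⟩
    by_cases hvy : v ≤ y
    · exact Or.inl ⟨hv, hv1, hvy⟩
    · refine Or.inr ?_
      rw [Finset.mem_coe, Finset.mem_Ioc]
      omega
  refine (Set.ncard_le_ncard h1 ?_).trans ((Set.ncard_union_le _ _).trans ?_)
  · exact Set.Finite.union ((Set.finite_Icc 1 y).subset Set.inter_subset_right)
      (Finset.finite_toSet _)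
  · rw [Set.ncard_coe_finset, Nat.card_Ioc]
    omega

lemma pin_inj {A : Set ℕ} {p p' : ℕ} (hp : p ∈ A) (hp' : p' ∈ A) (h : pin A p = pin A p') :
    p = p' := by
  rcases lt_trichotomy p p' with h1 | h1 | h1
  · have := pin_lt h1 hp'
    omega
  · exact h1
  · have := pin_lt h1 hp
    omega

/-! ## Numbers with one index -/

open Classical in
lemma nt1' (z W : ℕ → ℕ) {H : Finset ℕ} (hH : 0 ∈ H) (D : Set ℕ) (t : ℕ) (F : ℕ → Set ℕ)
    (hF : ∀ p k, k ∈ F p → k = t) (x x' : ℕ) (b : ℕ → ℕ) :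
    NT z W H D F x x' b ≤ 1 := by
  unfold NT
  rw [Finset.card_le_one]
  intro p hp p' hp'
  rw [Finset.mem_filter] at hp hp'
  have h1 := hp.2.2.1 0 hH
  have h2 := hp'.2.2.1 0 hH
  rw [add_zero] at h1 h2
  refine pin_inj h1 h2 ?_
  rw [hF _ _ hp.2.2.2, hF _ _ hp'.2.2.2]

lemma nt1 (z W : ℕ → ℕ) {H : Finset ℕ} (hH : 0 ∈ H) (D : Set ℕ) (t x x' : ℕ) (b : ℕ → ℕ) :
    NT z W H D (fun _ => {t}) x x' b ≤ 1 :=
  nt1' z W hH D t _ (fun _ _ h => h) x x' b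

open Classical in
lemma nt_sub (z W : ℕ → ℕ) (D : Set ℕ) (T : ℕ → Set ℕ) (x x' : ℕ) (b : ℕ → ℕ) :
    NT z W {0, 2} D T x x' b ≤ NT z W {0} D T x x' b := by
  unfold NT
  refine Finset.card_le_card ?_
  intro p hp
  rw [Finset.mem_filter] at hp ⊢
  refine ⟨hp.1, hp.2.1, ?_, hp.2.2.2⟩
  intro h hh
  rw [Finset.mem_singleton] at hh
  exact hp.2.2.1 h (by rw [hh]; simp)

open Classical in
lemma nt_sum' (z W : ℕ → ℕ) {H : Finset ℕ} (hH : 0 ∈ H) (D : Set ℕ) (T S : Finset ℕ)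
    (hST : S ⊆ T) (G : ℕ → Set ℕ) (F : ℕ → ℕ → Set ℕ) (hG : ∀ p k, k ∈ G p ↔ k ∈ T)
    (hF : ∀ t p k, k ∈ F t p ↔ k = t) (x x' : ℕ) (b : ℕ → ℕ)
    (h : ∀ p, x < p → p ≤ x' → p ∈ RS z W b → pin (RS z W b) p ∈ T → pin (RS z W b) p ∈ S) :
    NT z W H D G x x' b = ∑ t ∈ S, NT z W H D (F t) x x' b := by
  unfold NT
  rw [Finset.card_eq_sum_card_fiberwise (f := fun p => pin (RS z W b) p) (t := S)]
  · refine Finset.sum_congr rfl fun t ht => ?_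
    congr 1
    ext p
    rw [Finset.mem_filter, Finset.mem_filter, Finset.mem_filter, hG, hF]
    constructor
    · rintro ⟨⟨h1, h2, h3, h4⟩, h5⟩
      exact ⟨h1, h2, h3, h5⟩
    · rintro ⟨h1, h2, h3, h5⟩
      refine ⟨⟨h1, h2, h3, ?_⟩, h5⟩
      rw [h5]
      exact hST ht
  · intro p hp
    have hp := Finset.mem_filter.1 (Finset.mem_coe.1 hp)
    have h1 := hp.2.2.1 0 hH
    rw [add_zero] at h1
    have h2 := Finset.mem_Ioc.1 hp.1
    exact Finset.mem_coe.2 (h p h2.1 h2.2 h1 ((hG _ _).1 hp.2.2.2))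

lemma nt_sum (z W : ℕ → ℕ) {H : Finset ℕ} (hH : 0 ∈ H) (D : Set ℕ) (T S : Finset ℕ)
    (hST : S ⊆ T) (x x' : ℕ) (b : ℕ → ℕ)
    (h : ∀ p, x < p → p ≤ x' → p ∈ RS z W b → pin (RS z W b) p ∈ T → pin (RS z W b) p ∈ S) :
    NT z W H D (fun _ => (T : Set ℕ)) x x' b = ∑ t ∈ S, NT z W H D (fun _ => {t}) x x' b :=
  nt_sum' z W hH D T S hST (fun _ => (T : Set ℕ)) (fun t _ => {t}) (fun _ _ => Finset.mem_coe)
    (fun _ _ _ => Iff.rfl) x x' b h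

open Classical in
lemma endp (z W : ℕ → ℕ) {H : Finset ℕ} (hH : 0 ∈ H) (D : Set ℕ) (T : Finset ℕ) {u B : ℕ}
    (hB : ∀ j, (T.filter fun t => j < t ∧ t ≤ j + 2 * u).card ≤ B) (G : ℕ → Set ℕ)
    (hG : ∀ p k, k ∈ G p ↔ k ∈ T) {y y' : ℕ} (hy : y' ≤ y + 2 * u) (b : ℕ → ℕ) :
    ((Ioc y y').filter fun p => p ∈ D ∧ (∀ h ∈ H, p + h ∈ RS z W b) ∧
      pin (RS z W b) p ∈ G p).card ≤ B := by
  refine le_trans ?_ (hB (pin (RS z W b) y))
  refine Finset.card_le_card_of_injOn (fun p => pin (RS z W b) p) ?_ ?_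
  · intro p hp
    have hp := Finset.mem_filter.1 (Finset.mem_coe.1 hp)
    have h1 := hp.2.2.1 0 hH
    rw [add_zero] at h1
    have h2 := Finset.mem_Ioc.1 hp.1
    rw [Finset.mem_coe, Finset.mem_filter]
    refine ⟨(hG _ _).1 hp.2.2.2, pin_lt h2.1 h1, ?_⟩
    have h3 := pin_add (RS z W b) y (2 * u)
    have h4 := pin_mono (RS z W b) (show p ≤ y + 2 * u by omega)
    show pin (RS z W b) p ≤ _
    omega
  · intro p hp p' hp' he
    have hp := Finset.mem_filter.1 (Finset.mem_coe.1 hp)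
    have hp' := Finset.mem_filter.1 (Finset.mem_coe.1 hp')
    have h1 := hp.2.2.1 0 hH
    have h2 := hp'.2.2.1 0 hH
    rw [add_zero] at h1 h2
    exact pin_inj h1 h2 he

lemma blk_up2 (Q : ℕ → Prop) [DecidablePred Q] (X X2 u I B : ℕ) (hI : X2 ≤ X + (I + 2) * u)
    (hB : ∀ y y', y' ≤ y + 2 * u → ((Ioc y y').filter Q).card ≤ B) :
    ((Ioc X X2).filter Q).card ≤ 2 * B +
      ∑ i ∈ Icc 1 I, ((Ioc (X + (i - 1) * u + u) (X + (i - 1) * u + 2 * u)).filter Q).card := by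
  rw [blk_sum]
  have e1 : X + (I + 2) * u = X + (I + 1) * u + u := by ring
  have hsub : (Ioc X X2).filter Q ⊆ ((Ioc X (X + u)).filter Q ∪
      (Ioc (X + (I + 1) * u) (X + (I + 2) * u)).filter Q) ∪
      (Ioc (X + u) (X + (I + 1) * u)).filter Q := by
    intro v hv
    rw [Finset.mem_filter, Finset.mem_Ioc] at hv
    rw [Finset.mem_union, Finset.mem_union, Finset.mem_filter, Finset.mem_filter,
      Finset.mem_Ioc, Finset.mem_Ioc, Finset.mem_filter, Finset.mem_Ioc]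
    by_cases h1 : v ≤ X + u
    · exact Or.inl (Or.inl ⟨⟨hv.1.1, h1⟩, hv.2⟩)
    · by_cases h2 : v ≤ X + (I + 1) * u
      · exact Or.inr ⟨⟨by omega, h2⟩, hv.2⟩
      · exact Or.inl (Or.inr ⟨⟨by omega, by omega⟩, hv.2⟩)
  have h1 := Finset.card_le_card hsub
  have h2 := Finset.card_union_le ((Ioc X (X + u)).filter Q ∪
      (Ioc (X + (I + 1) * u) (X + (I + 2) * u)).filter Q)
    ((Ioc (X + u) (X + (I + 1) * u)).filter Q)
  have h3 := Finset.card_union_le ((Ioc X (X + u)).filter Q)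
    ((Ioc (X + (I + 1) * u) (X + (I + 2) * u)).filter Q)
  have h4 := hB X (X + u) (by omega)
  have h5 := hB (X + (I + 1) * u) (X + (I + 2) * u) (by omega)
  omega

lemma nt_up2' (z W : ℕ → ℕ) {H : Finset ℕ} (hH : 0 ∈ H) (D : Set ℕ) (T : Finset ℕ) {u B : ℕ}
    (hB : ∀ j, (T.filter fun t => j < t ∧ t ≤ j + 2 * u).card ≤ B) (G : ℕ → Set ℕ)
    (hG : ∀ p k, k ∈ G p ↔ k ∈ T) (b : ℕ → ℕ)
    (X X2 I : ℕ) (hI : X2 ≤ X + (I + 2) * u) :
    NT z W H D G X X2 b ≤ 2 * B +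
      ∑ i ∈ Icc 1 I, NT z W H D G (X + (i - 1) * u + u) (X + (i - 1) * u + 2 * u) b := by
  classical
  unfold NT
  exact blk_up2 _ X X2 u I B hI (fun y y' hy => endp z W hH D T hB G hG hy b)

lemma nt_up2 (z W : ℕ → ℕ) {H : Finset ℕ} (hH : 0 ∈ H) (D : Set ℕ) (T : Finset ℕ) {u B : ℕ}
    (hB : ∀ j, (T.filter fun t => j < t ∧ t ≤ j + 2 * u).card ≤ B) (b : ℕ → ℕ)
    (X X2 I : ℕ) (hI : X2 ≤ X + (I + 2) * u) :
    NT z W H D (fun _ => (T : Set ℕ)) X X2 b ≤ 2 * B +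
      ∑ i ∈ Icc 1 I, NT z W H D (fun _ => (T : Set ℕ)) (X + (i - 1) * u + u)
        (X + (i - 1) * u + 2 * u) b :=
  nt_up2' z W hH D T hB (fun _ => (T : Set ℕ)) (fun _ _ => Finset.mem_coe) b X X2 I hI

/-! ## Every index in at most two blocks -/

lemma two (T : Finset ℕ) (I : ℕ) (C : ℕ → ℕ → Prop) [∀ i, DecidablePred (C i)]
    (h : ∀ i i' t, 1 ≤ i → i + 2 ≤ i' → i' ≤ I → C i t → C i' t → False) :
    ∑ i ∈ Icc 1 I, (T.filter (C i)).card ≤ 2 * T.card := by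
  simp only [Finset.card_filter]
  rw [Finset.sum_comm]
  have h1 : ∀ t ∈ T, ∑ i ∈ Icc 1 I, (if C i t then 1 else 0) ≤ 2 := by
    intro t _
    rw [← Finset.card_filter]
    by_cases hne : ((Icc 1 I).filter fun i => C i t).Nonempty
    · have hm := Finset.mem_filter.1 (Finset.min'_mem _ hne)
      have hm1 := Finset.mem_Icc.1 hm.1
      have hsub : (Icc 1 I).filter (fun i => C i t) ⊆
          {((Icc 1 I).filter fun i => C i t).min' hne,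
            ((Icc 1 I).filter fun i => C i t).min' hne + 1} := by
        intro i hi
        have hle := Finset.min'_le _ i hi
        have hi := Finset.mem_filter.1 hi
        have hi1 := Finset.mem_Icc.1 hi.1
        rw [Finset.mem_insert, Finset.mem_singleton]
        by_contra hcon
        rw [not_or] at hcon
        exact h _ i t hm1.1 (by omega) hi1.2 hm.2 hi.2
      exact (Finset.card_le_card hsub).trans Finset.card_le_two
    · rw [Finset.not_nonempty_iff_eq_empty] at hne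
      rw [hne]
      simp
  calc ∑ t ∈ T, ∑ i ∈ Icc 1 I, (if C i t then 1 else 0) ≤ ∑ t ∈ T, 2 := Finset.sum_le_sum h1
    _ = 2 * T.card := by rw [Finset.sum_const, smul_eq_mul, mul_comm]

/-! ## The indices without fresh primes -/

lemma gl_self (L : Finset ℕ) (b : ℕ → ℕ) : gl L b b = b := by
  funext i
  unfold gl
  rw [ite_self]

open Classical in
lemma dd_le {L O : Finset ℕ} {S : ℕ → ℕ → Prop} [∀ q v, Decidable (S q v)]
    (hinj : ∀ q ∈ L, ∀ v ∈ O, ∀ v' ∈ O, v % q = v' % q → v = v') (b : ℕ → ℕ) :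
    DD L O S b ≤ L.card := by
  unfold DD
  apply card_le_card_of_forall_subsingleton (fun v q => S q v ∧ v % q = b q)
  · intro v hv
    rw [mem_filter] at hv
    obtain ⟨hvO, q, hq, hS, hb⟩ := hv
    exact ⟨q, hq, hS, hb⟩
  · intro q hq v hv v' hv'
    obtain ⟨hv1, hS, hb⟩ := hv
    obtain ⟨hv1', hS', hb'⟩ := hv'
    exact hinj q hq v (mem_filter.1 hv1).1 v' (mem_filter.1 hv1').1 (hb.trans hb'.symm)

/-- the index is at most the index without fresh primes -/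
lemma pin_le_KP {W : ℕ → ℕ} {x p : ℕ} (hxp : x ≤ p) (b : ℕ → ℕ) :
    pin (RS z0 W b) p ≤ KP z0 W x p b := by
  have h1 := pin_old (W := W) z0_mono (x := x) (y := x) (y' := p) (le_refl _) hxp b
  have h2 : Old z0 W x x b = ∅ := by
    unfold Old
    rw [Finset.Ioc_self, Finset.filter_empty]
  rw [h2, Finset.card_empty] at h1
  unfold KP
  omega

lemma KP_le_pin (hPIF : S_PIF) {W : ℕ → ℕ} {x u : ℕ} (hx : 3 ≤ x) (hu : 1 ≤ u)
    (hW : ∀ v ≤ x + 3 * u, W v ≤ z0 x) (hq : 8 * u ≤ z0 x) (b : ℕ → ℕ) :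
    KP z0 W x (x + 2 * u) b ≤ pin (RS z0 W b) (x + 2 * u) + (fr z0 x (x + 3 * u)).card := by
  classical
  have h1 := hPIF z0 W z0_mono x (x + 3 * u) (x + 2 * u) b b hx (by omega) (by omega) hW
  rw [gl_self] at h1
  have h2 : DD (fr z0 x (x + 3 * u)) (Old z0 W x (x + 2 * u) b) (fun q v => q ≤ z0 v) b ≤
      (fr z0 x (x + 3 * u)).card := by
    refine dd_le ?_ b
    intro q hq1 v hv v' hv' he
    have hq2 : z0 x < q := (Finset.mem_Ioc.1 (Finset.mem_filter.1 hq1).1).1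
    unfold Old at hv hv'
    have hv1 := Finset.mem_Ioc.1 (Finset.mem_filter.1 hv).1
    have hv2 := Finset.mem_Ioc.1 (Finset.mem_filter.1 hv').1
    by_contra hne
    rcases lt_or_gt_of_ne hne with h3 | h3
    · have h4 := (Nat.modEq_iff_dvd' h3.le).1 he
      have h5 := Nat.le_of_dvd (by omega) h4
      omega
    · have h4 := (Nat.modEq_iff_dvd' h3.le).1 he.symm
      have h5 := Nat.le_of_dvd (by omega) h4
      omega
  unfold KP
  omega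

lemma KP_step {W : ℕ → ℕ} {x u : ℕ} (b : ℕ → ℕ) :
    KP z0 W x (x + 2 * u) b ≤ KP z0 W x (x + u) b + u := by
  classical
  unfold KP
  have h1 : Old z0 W x (x + 2 * u) b ⊆ Old z0 W x (x + u) b ∪ Ioc (x + u) (x + 2 * u) := by
    intro v hv
    unfold Old at hv ⊢
    rw [Finset.mem_filter, Finset.mem_Ioc] at hv
    rw [Finset.mem_union, Finset.mem_filter, Finset.mem_Ioc, Finset.mem_Ioc]
    by_cases h : v ≤ x + u
    · exact Or.inl ⟨⟨hv.1.1, h⟩, hv.2⟩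
    · exact Or.inr ⟨by omega, hv.1.2⟩
  have h2 := (Finset.card_le_card h1).trans (Finset.card_union_le _ _)
  rw [Nat.card_Ioc] at h2
  omega

lemma KP_ag {W : ℕ → ℕ} {x p : ℕ} {b b' : ℕ → ℕ} (h : Ag (z0 x) b b') :
    KP z0 W x p b = KP z0 W x p b' := by
  unfold KP
  rw [old_ag h, pin_ag z0_mono h]

lemma DP_ag {W : ℕ → ℕ} {x u : ℕ} {b b' : ℕ → ℕ} (h : Ag (z0 x) b b') :
    DP z0 W x u b = DP z0 W x u b' := by
  unfold DP
  ext k
  constructor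
  · rintro ⟨p, h1, h2, h3, h4, h5⟩
    exact ⟨p, h1, h2, (sv_ag h _).mp h3, (sv_ag h _).mp h4, by rw [h5, KP_ag h]⟩
  · rintro ⟨p, h1, h2, h3, h4, h5⟩
    exact ⟨p, h1, h2, (sv_ag h _).mpr h3, (sv_ag h _).mpr h4, by rw [h5, KP_ag h]⟩

lemma rwb_ag {W : ℕ → ℕ} {τ₁ τ₂ : ℝ} {X x : ℕ} {b b' : ℕ → ℕ} (h : Ag (z0 x) b b') :
    RWB W τ₁ τ₂ X x b ↔ RWB W τ₁ τ₂ X x b' := by
  unfold RWB
  rw [KP_ag h, KP_ag h, DP_ag h]

/-! ## The functions of one block -/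

/-- the indices which can fall into the block -/
noncomputable def Ti (W : ℕ → ℕ) (T : Finset ℕ) (X x : ℕ) (b : ℕ → ℕ) : Finset ℕ :=
  T.filter fun t => 1 ≤ t ∧ KP z0 W x (x + uX X) b < t + MX X ∧ t ≤ KP z0 W x (x + 2 * uX X) b

/-- the number for one index -/
noncomputable def NN1 (W : ℕ → ℕ) (H : Finset ℕ) (X x t : ℕ) (b : ℕ → ℕ) : ℝ :=
  (NT z0 W H Set.univ (fun _ => {t}) (x + uX X) (x + 2 * uX X) b : ℝ)

/-- the term of one index -/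
noncomputable def hF (W : ℕ → ℕ) (α β e : ℝ) (X x t : ℕ) (b : ℕ → ℕ) : ℝ :=
  α * NN1 W {0, 2} X x t b + β * NN1 W {0} X x t b - e

/-- the function of one block -/
noncomputable def gF (W : ℕ → ℕ) (T : Finset ℕ) (B : ℕ) (τ₁ τ₂ α β e : ℝ) (X x : ℕ)
    (b : ℕ → ℕ) : ℝ := by
  classical exact if G0 W X x b ∧ RWB W τ₁ τ₂ X x b then
    ((uX X : ℝ) / B) * ∑ t ∈ Ti W T X x b, hF W α β e X x t b else 0

lemma gF_pos {W : ℕ → ℕ} {T : Finset ℕ} {B : ℕ} {τ₁ τ₂ α β e : ℝ} {X x : ℕ} {b : ℕ → ℕ}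
    (h : G0 W X x b ∧ RWB W τ₁ τ₂ X x b) :
    gF W T B τ₁ τ₂ α β e X x b =
      ((uX X : ℝ) / B) * ∑ t ∈ Ti W T X x b, hF W α β e X x t b := by
  unfold gF
  rw [if_pos h]

lemma gF_neg {W : ℕ → ℕ} {T : Finset ℕ} {B : ℕ} {τ₁ τ₂ α β e : ℝ} {X x : ℕ} {b : ℕ → ℕ}
    (h : ¬ (G0 W X x b ∧ RWB W τ₁ τ₂ X x b)) : gF W T B τ₁ τ₂ α β e X x b = 0 := by
  unfold gF
  rw [if_neg h]

lemma Ti_card {W : ℕ → ℕ} {T : Finset ℕ} {B X : ℕ}
    (hB : ∀ j, (T.filter fun t => j < t ∧ t ≤ j + 2 * uX X).card ≤ B) (hM : MX X ≤ uX X)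
    (x : ℕ) (b : ℕ → ℕ) : (Ti W T X x b).card ≤ B := by
  refine le_trans (Finset.card_le_card ?_) (hB (KP z0 W x (x + uX X) b - MX X))
  intro t ht
  unfold Ti at ht
  rw [Finset.mem_filter] at ht ⊢
  have h1 := KP_step (W := W) (x := x) (u := uX X) b
  refine ⟨ht.1, ?_, ?_⟩ <;> omega

lemma Ti_ag {W : ℕ → ℕ} {T : Finset ℕ} {X x : ℕ} {b b' : ℕ → ℕ} (h : Ag (z0 x) b b') :
    Ti W T X x b = Ti W T X x b' := by
  unfold Ti
  rw [KP_ag h, KP_ag h]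

lemma gF_bd {W : ℕ → ℕ} {T : Finset ℕ} {B : ℕ} {τ₁ τ₂ α β e : ℝ} {X x : ℕ} {b : ℕ → ℕ}
    (hB : ∀ j, (T.filter fun t => j < t ∧ t ≤ j + 2 * uX X).card ≤ B) (hM : MX X ≤ uX X)
    (hB1 : 1 ≤ B) (hab : ∀ s r : ℝ, 0 ≤ s → s ≤ r → r ≤ 1 → |α * s + β * r - e| ≤ 2) :
    |gF W T B τ₁ τ₂ α β e X x b| ≤ 2 * uX X := by
  by_cases h : G0 W X x b ∧ RWB W τ₁ τ₂ X x b
  · rw [gF_pos h, abs_mul]
    have hB0 : (0 : ℝ) < B := by exact_mod_cast hB1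
    have hu0 : (0 : ℝ) ≤ uX X := Nat.cast_nonneg _
    have h1 : |∑ t ∈ Ti W T X x b, hF W α β e X x t b| ≤ B * 2 := by
      refine (Finset.abs_sum_le_sum_abs _ _).trans ?_
      calc ∑ t ∈ Ti W T X x b, |hF W α β e X x t b| ≤ ∑ t ∈ Ti W T X x b, (2 : ℝ) := by
            refine Finset.sum_le_sum fun t _ => ?_
            unfold hF NN1
            refine hab _ _ (Nat.cast_nonneg _) ?_ ?_
            · exact_mod_cast nt_sub z0 W Set.univ (fun _ => {t}) _ _ b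
            · exact_mod_cast nt1 z0 W (by simp) Set.univ t _ _ b
        _ = (Ti W T X x b).card * 2 := by rw [Finset.sum_const, nsmul_eq_mul]
        _ ≤ B * 2 := by
            have : ((Ti W T X x b).card : ℝ) ≤ B := by exact_mod_cast Ti_card hB hM x b
            linarith
    rw [abs_of_nonneg (by positivity : (0 : ℝ) ≤ (uX X : ℝ) / B)]
    calc (uX X : ℝ) / B * |∑ t ∈ Ti W T X x b, hF W α β e X x t b| ≤ (uX X : ℝ) / B * (B * 2) :=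
          mul_le_mul_of_nonneg_left h1 (by positivity)
      _ = 2 * uX X := by field_simp
  · rw [gF_neg h, abs_zero]
    positivity

lemma gF_ag {W : ℕ → ℕ} {T : Finset ℕ} {B : ℕ} {τ₁ τ₂ α β e : ℝ} {X x : ℕ} (hu : 2 ≤ uX X)
    {b b' : ℕ → ℕ} (h : Ag (z0 (x + 3 * uX X)) b b') :
    gF W T B τ₁ τ₂ α β e X x b = gF W T B τ₁ τ₂ α β e X x b' := by
  have hx1 : Ag (z0 x) b b' := h.mono (z0_mono (by omega))
  have hiff : (G0 W X x b ∧ RWB W τ₁ τ₂ X x b) ↔ (G0 W X x b' ∧ RWB W τ₁ τ₂ X x b') := by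
    rw [g0_ag hx1, rwb_ag hx1]
  have hF1 : ∀ t, hF W α β e X x t b = hF W α β e X x t b' := by
    intro t
    unfold hF NN1
    rw [nt_ag z0_mono h (by omega) (fun i hi => by
        rw [Finset.mem_insert, Finset.mem_singleton] at hi
        omega),
      nt_ag z0_mono h (by omega) (fun i hi => by
        rw [Finset.mem_singleton] at hi
        omega)]
  by_cases hc : G0 W X x b ∧ RWB W τ₁ τ₂ X x b
  · rw [gF_pos hc, gF_pos (hiff.mp hc), Ti_ag hx1]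
    simp only [hF1]
  · rw [gF_neg hc, gF_neg (fun h' => hc (hiff.mpr h'))]

lemma Ev_nonpos (S : Finset ℕ) {c : ℝ} (hc : 0 ≤ c) (A : Finset ℕ) (F : ℕ → (ℕ → ℕ) → ℝ)
    (h : ∀ t ∈ A, Ev S (F t) ≤ 0) : Ev S (fun b' => c * ∑ t ∈ A, F t b') ≤ 0 := by
  have h1 : Ev S (fun b' => c * ∑ t ∈ A, F t b') = c * ∑ t ∈ A, Ev S (F t) := by
    unfold Ev
    rw [← Finset.mul_sum, Finset.sum_comm, ← Finset.mul_sum]
    ring
  rw [h1]
  exact mul_nonpos_of_nonneg_of_nonpos hc (Finset.sum_nonpos h)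

lemma Ev_lin (S : Finset ℕ) (hS : ∀ p ∈ S, 0 < p) (α β e : ℝ) (F G : (ℕ → ℕ) → ℝ) :
    Ev S (fun b' => α * F b' + β * G b' - e) = α * Ev S F + β * Ev S G - e := by
  rw [Ev_sub_const S hS]
  unfold Ev
  rw [Finset.sum_add_distrib, ← Finset.mul_sum, ← Finset.mul_sum]
  ring

/-- the hypothesis on the mean value -/
def MVX (W : ℕ → ℕ) (τ₁ τ₂ α β e : ℝ) (X : ℕ) : Prop :=
  ∀ (x t : ℕ) (b : ℕ → ℕ), X ≤ x → x ≤ 3 * X → G0 W X x b → RWB W τ₁ τ₂ X x b →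
    α * Ev (fr z0 x (x + 3 * uX X)) (fun b' => (NT z0 W {0, 2} Set.univ (fun _ => {t})
      (x + uX X) (x + 2 * uX X) (gl (fr z0 x (x + 3 * uX X)) b b') : ℝ)) +
    β * Ev (fr z0 x (x + 3 * uX X)) (fun b' => (NT z0 W {0} Set.univ (fun _ => {t})
      (x + uX X) (x + 2 * uX X) (gl (fr z0 x (x + 3 * uX X)) b b') : ℝ)) ≤ e

lemma gF_Ev {W : ℕ → ℕ} {T : Finset ℕ} {B : ℕ} {τ₁ τ₂ α β e : ℝ} {X x : ℕ}
    (hMV : MVX W τ₁ τ₂ α β e X) (hx : X ≤ x) (hx3 : x ≤ 3 * X) (b : ℕ → ℕ) :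
    Ev (fr z0 x (x + 3 * uX X))
      (fun b' => gF W T B τ₁ τ₂ α β e X x (gl (fr z0 x (x + 3 * uX X)) b b')) ≤ 0 := by
  by_cases hc : G0 W X x b ∧ RWB W τ₁ τ₂ X x b
  · have h1 : ∀ b' : ℕ → ℕ, gF W T B τ₁ τ₂ α β e X x (gl (fr z0 x (x + 3 * uX X)) b b') =
        ((uX X : ℝ) / B) * ∑ t ∈ Ti W T X x b,
          hF W α β e X x t (gl (fr z0 x (x + 3 * uX X)) b b') := by
      intro b'
      have hA := gl_ag z0 x (x + 3 * uX X) b b'
      rw [gF_pos, Ti_ag hA]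
      rw [g0_ag hA, rwb_ag hA]
      exact hc
    simp only [h1]
    refine Ev_nonpos _ (by positivity) _
      (fun t b' => hF W α β e X x t (gl (fr z0 x (x + 3 * uX X)) b b')) ?_
    intro t _
    unfold hF NN1
    rw [Ev_lin _ (fr_pos _ _ _)]
    have h2 := hMV x t b hx hx3 hc.1 hc.2
    linarith
  · have h1 : ∀ b' : ℕ → ℕ, gF W T B τ₁ τ₂ α β e X x
        (gl (fr z0 x (x + 3 * uX X)) b b') = 0 := by
      intro b'
      have hA := gl_ag z0 x (x + 3 * uX X) b b'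
      rw [gF_neg]
      rw [g0_ag hA, rwb_ag hA]
      exact hc
    simp only [h1]
    rw [Ev_const _ (fr_pos _ _ _)]

/-! ## Numbers -/

/-- what is needed of `X` -/
structure NP (W : ℕ → ℕ) (X : ℕ) : Prop where
  X1 : 3 ≤ X
  u1 : 2 ≤ uX X
  ule : uX X ≤ X
  h1 : 1 ≤ hX X
  M1 : MX X ≤ uX X
  q1 : ∀ x, X ≤ x → x ≤ 3 * X → 8 * uX X ≤ z0 x
  W1 : ∀ x, X ≤ x → x ≤ 3 * X → ∀ v ≤ x + 3 * uX X, W v ≤ z0 x
  f1 : ∀ x, X ≤ x → x ≤ 3 * X →
    ((fr z0 x (x + 3 * uX X)).card : ℝ) + MX X < (uX X : ℝ) / (16 * Real.log X)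
  t1 : (uX X : ℝ) * (X : ℝ) ^ (0.2455 : ℝ) ≤ 4 * X
  e1 : (X : ℝ) ^ (0.001 : ℝ) ≤ ((uX X : ℝ) * (X : ℝ) ^ (0.2455 : ℝ)) ^ 2 / (24 * X * uX X)
  s1 : 2 + 3 * (X : ℝ) ^ (0.2455 : ℝ) ≤ (X : ℝ) ^ (0.246 : ℝ)

/-! ## Azuma for the blocks -/

lemma azG (hAZ3 : S_AZ3) {Ω : Type} [MeasurableSpace Ω] {P : Measure Ω} {a : ℕ → Ω → ℕ}
    (hM : Model P a) {W : ℕ → ℕ} {T : Finset ℕ} {B : ℕ} {τ₁ τ₂ α β e : ℝ} {X I : ℕ}
    (hN : NP W X) (hB : ∀ j, (T.filter fun t => j < t ∧ t ≤ j + 2 * uX X).card ≤ B)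
    (hB1 : 1 ≤ B) (hab : ∀ s r : ℝ, 0 ≤ s → s ≤ r → r ≤ 1 → |α * s + β * r - e| ≤ 2)
    (hMV : MVX W τ₁ τ₂ α β e X) (hI : I * uX X ≤ X) :
    P.real {ω | 3 * ((uX X : ℝ) * (X : ℝ) ^ (0.2455 : ℝ)) ≤ ∑ i ∈ Icc 1 I,
      gF W T B τ₁ τ₂ α β e X (X + (i - 1) * uX X) (fun q => a q ω)} ≤
      3 * Real.exp (-(X : ℝ) ^ (0.001 : ℝ)) := by
  have hin : ∀ i, 1 ≤ i → i ≤ I → (i - 1) * uX X ≤ X := by
    intro i h1 h2
    exact (Nat.mul_le_mul_right (uX X) (by omega : i - 1 ≤ I)).trans hI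
  have h1 := az3 hAZ3 hM z0 z0_mono X (uX X) I ((uX X : ℝ) * (X : ℝ) ^ (0.2455 : ℝ))
    (fun i b => gF W T B τ₁ τ₂ α β e X (X + (i - 1) * uX X) b) (by have := hN.u1; omega)
    hN.ule hI
    (mul_nonneg (Nat.cast_nonneg _) (Real.rpow_nonneg (Nat.cast_nonneg _) _)) hN.t1
    (fun i h1 h2 b b' hb => by
      rw [blk_eq h1] at hb
      exact gF_ag hN.u1 hb)
    (fun i h1 h2 b => gF_bd hB hN.M1 hB1 hab)
    (fun i h1 h2 b => by
      rw [blk_eq h1]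
      have := hin i h1 h2
      exact gF_Ev hMV (by omega) (by omega) b)
  refine h1.trans ?_
  have h2 := hN.e1
  have h3 : Real.exp (-(((uX X : ℝ) * (X : ℝ) ^ (0.2455 : ℝ)) ^ 2 / (24 * X * uX X))) ≤
      Real.exp (-(X : ℝ) ^ (0.001 : ℝ)) := Real.exp_le_exp.mpr (by linarith)
  linarith

theorem exp_gamma_up : Real.exp (-Real.eulerMascheroniConstant) < 0.608 := by
  have h1 := Real.one_half_lt_eulerMascheroniConstant
  have h2 : Real.exp (-Real.eulerMascheroniConstant) < Real.exp (-(1 / 2 : ℝ)) :=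
    Real.exp_lt_exp.2 (by linarith)
  refine lt_trans h2 ?_
  have h3 : Real.exp (-(1 / 2 : ℝ)) ^ 2 * Real.exp 1 = 1 := by
    rw [← Real.exp_nat_mul, ← Real.exp_add]
    have h0 : ((2 : ℕ) : ℝ) * -(1 / 2 : ℝ) + 1 = 0 := by
      push_cast
      ring
    rw [h0, Real.exp_zero]
  by_contra hcon
  rw [not_lt] at hcon
  have h5 := Real.exp_one_gt_d9
  have h6 := Real.exp_pos 1
  have h4 : (0.608 : ℝ) ^ 2 ≤ Real.exp (-(1 / 2 : ℝ)) ^ 2 := by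
    gcongr
  have h8 : (0.608 : ℝ) ^ 2 * 2.7182818283 ≤ Real.exp (-(1 / 2 : ℝ)) ^ 2 * Real.exp 1 :=
    mul_le_mul h4 h5.le (by positivity) (by positivity)
  rw [h3] at h8
  norm_num at h8

theorem ev_log_big (C : ℝ) : ∀ᶠ n : ℕ in atTop, C ≤ Real.log n :=
  (Real.tendsto_log_atTop.comp tendsto_natCast_atTop_atTop).eventually_ge_atTop C

/-- the growth of the sieving limit, from above -/
theorem z0_le : ∀ᶠ n : ℕ in atTop, (z0 (2 * n) : ℝ) ≤ (n : ℝ) ^ (0.61 : ℝ) := by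
  have h0 : Tendsto (fun n : ℕ => 2 * n) atTop atTop :=
    tendsto_id.const_mul_atTop' (by norm_num)
  filter_upwards [(NUMN.z0_log.comp h0).eventually_lt_const exp_gamma_up, eventually_ge_atTop 3,
    z0_top.eventually_ge_atTop 1, ev_log_big 500] with n h1 h2 h3 h4
  have h1' : Real.log (z0 (2 * n)) / Real.log ((2 * n : ℕ) : ℝ) < 0.608 := h1
  have hn : (3 : ℝ) ≤ n := by exact_mod_cast h2
  have e1 : Real.log ((2 * n : ℕ) : ℝ) = Real.log 2 + Real.log n := by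
    push_cast
    rw [Real.log_mul (by norm_num) (by positivity)]
  have hl2 : Real.log 2 < 0.6931471808 := Real.log_two_lt_d9
  have hl2' : 0.6931471803 < Real.log 2 := Real.log_two_gt_d9
  rw [e1, div_lt_iff₀ (by linarith)] at h1'
  have hz : (0 : ℝ) < z0 (2 * n) := by
    have h5 : z0 n ≤ z0 (2 * n) := z0_mono (by omega)
    exact_mod_cast (by omega : 0 < z0 (2 * n))
  calc (z0 (2 * n) : ℝ) = Real.exp (Real.log (z0 (2 * n))) := (Real.exp_log hz).symm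
    _ ≤ Real.exp (Real.log n * 0.61) := Real.exp_le_exp.2 (by nlinarith)
    _ = (n : ℝ) ^ (0.61 : ℝ) := (Real.rpow_def_of_pos (by linarith) _).symm

lemma fr_card {x x' : ℕ} {s : ℝ} (hs : ∑ q ∈ fr z0 x x', 1 / (q : ℝ) ≤ s) :
    ((fr z0 x x').card : ℝ) ≤ z0 x' * s := by
  calc ((fr z0 x x').card : ℝ) = ∑ q ∈ fr z0 x x', (1 : ℝ) := by
        rw [Finset.sum_const, nsmul_eq_mul, mul_one]
    _ ≤ ∑ q ∈ fr z0 x x', (z0 x' : ℝ) * (1 / (q : ℝ)) := by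
        refine Finset.sum_le_sum fun q hq => ?_
        have h1 : q ≤ z0 x' := (Finset.mem_Ioc.1 (Finset.mem_filter.1 hq).1).2
        have h2 : 0 < q := fr_pos _ _ _ q hq
        have h3 : (q : ℝ) ≤ z0 x' := by exact_mod_cast h1
        have h4 : (0 : ℝ) < q := by exact_mod_cast h2
        rw [mul_one_div, le_div_iff₀ h4, one_mul]
        exact h3
    _ = z0 x' * ∑ q ∈ fr z0 x x', 1 / (q : ℝ) := by rw [Finset.mul_sum]
    _ ≤ z0 x' * s := mul_le_mul_of_nonneg_left hs (Nat.cast_nonneg _)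

lemma np (hNUM : S_NUM) {W : ℕ → ℕ}
    (hW : ∀ᶠ v : ℕ in atTop, (W v : ℝ) ≤ (v : ℝ) ^ (0.1 : ℝ)) (hWm : Monotone W) :
    ∀ᶠ X : ℕ in atTop, NP W X := by
  obtain ⟨v0, hv0⟩ := eventually_atTop.1 hW
  have hr : ∀ r : ℝ, 0 < r → Tendsto (fun X : ℕ => (X : ℝ) ^ r) atTop atTop := fun r hr =>
    (tendsto_rpow_atTop hr).comp tendsto_natCast_atTop_atTop
  have hu : Tendsto uX atTop atTop := by
    have : Tendsto (fun X : ℕ => ⌊(X : ℝ) ^ (0.511 : ℝ)⌋₊) atTop atTop :=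
      tendsto_nat_floor_atTop.comp (hr 0.511 (by norm_num))
    exact this
  have hh : Tendsto hX atTop atTop := by
    have : Tendsto (fun X : ℕ => ⌊(X : ℝ) ^ (0.005 : ℝ)⌋₊) atTop atTop :=
      tendsto_nat_floor_atTop.comp (hr 0.005 (by norm_num))
    exact this
  have h3X : Tendsto (fun n : ℕ => 3 * n) atTop atTop :=
    tendsto_id.const_mul_atTop' (by norm_num)
  filter_upwards [hNUM, h3X.eventually z0_le, hu.eventually_ge_atTop 2, hh.eventually_ge_atTop 1,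
    (hr 0.001 (by norm_num)).eventually_ge_atTop 48,
    (hr 0.0005 (by norm_num)).eventually_ge_atTop 5,
    (hr 0.271 (by norm_num)).eventually_ge_atTop 1281, eventually_ge_atTop 6,
    eventually_ge_atTop v0] with X hnum hz hu2 hh1 p1 p2 p3 hX6 hXv
  obtain ⟨y, hy⟩ : ∃ y : ℝ, y = X := ⟨_, rfl⟩
  have hy6 : 6 ≤ y := by rw [hy]; exact_mod_cast hX6
  have hy0 : 0 < y := by linarith
  have hy1 : 1 ≤ y := by linarith
  have u1 : (uX X : ℝ) ≤ y ^ (0.511 : ℝ) := by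
    rw [uX, hy]
    exact Nat.floor_le (by positivity)
  have u2 : y ^ (0.511 : ℝ) - 1 < uX X := by
    rw [uX, ← hy]
    exact Nat.sub_one_lt_floor _
  have u3 : (2 : ℝ) ≤ uX X := by exact_mod_cast hu2
  have u4 : y ^ (0.511 : ℝ) / 2 ≤ uX X := by linarith
  have hle : ∀ r s : ℝ, r ≤ s → y ^ r ≤ y ^ s := fun r s hrs =>
    Real.rpow_le_rpow_of_exponent_le hy1 hrs
  have hx1 : y ^ (1 : ℝ) = y := Real.rpow_one _
  have uleX : uX X ≤ X := by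
    have : (uX X : ℝ) ≤ X := by
      rw [← hy]
      exact u1.trans ((hle 0.511 1 (by norm_num)).trans_eq hx1)
    exact_mod_cast this
  rw [← hy] at p1 p2 p3
  refine ⟨by omega, hu2, uleX, hh1, ?_, ?_, ?_, ?_, ?_, ?_, ?_⟩
  · unfold MX uX
    rw [← hy]
    exact Nat.floor_mono (hle _ _ (by norm_num))
  · intro x h1 h2
    exact (hnum x h1 (by omega)).1
  · intro x h1 h2 v hv
    obtain ⟨n1, n2, n3⟩ := hnum x h1 (by omega)
    refine (hWm hv).trans ?_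
    refine le_trans ?_ n1
    have k1 := hv0 (x + 3 * uX X) (by omega)
    have k2 : ((x + 3 * uX X : ℕ) : ℝ) ≤ y ^ (2 : ℝ) := by
      have : x + 3 * uX X ≤ 6 * X := by omega
      have k3 : ((x + 3 * uX X : ℕ) : ℝ) ≤ 6 * y := by rw [hy]; exact_mod_cast this
      rw [Real.rpow_two]
      nlinarith
    have k3 : ((x + 3 * uX X : ℕ) : ℝ) ^ (0.1 : ℝ) ≤ 8 * uX X := by
      calc ((x + 3 * uX X : ℕ) : ℝ) ^ (0.1 : ℝ) ≤ (y ^ (2 : ℝ)) ^ (0.1 : ℝ) :=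
            Real.rpow_le_rpow (Nat.cast_nonneg _) k2 (by norm_num)
        _ = y ^ (0.2 : ℝ) := by
            rw [← Real.rpow_mul hy0.le]
            norm_num
        _ ≤ y ^ (0.511 : ℝ) := Real.rpow_le_rpow_of_exponent_le hy1 (by norm_num)
        _ ≤ 8 * uX X := by linarith
    have k4 : (W (x + 3 * uX X) : ℝ) ≤ ((8 * uX X : ℕ) : ℝ) := by
      push_cast
      exact k1.trans k3
    exact_mod_cast k4
  · intro x h1 h2
    obtain ⟨n1, n2, n3⟩ := hnum x h1 (by omega)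
    have c1 := fr_card n2
    have c2 : (z0 (x + 3 * uX X) : ℝ) ≤ 3 * y ^ (0.61 : ℝ) := by
      have d1 : z0 (x + 3 * uX X) ≤ z0 (2 * (3 * X)) := z0_mono (by omega)
      have d2 : (z0 (x + 3 * uX X) : ℝ) ≤ z0 (2 * (3 * X)) := by exact_mod_cast d1
      refine d2.trans (hz.trans ?_)
      push_cast
      rw [← hy, Real.mul_rpow (by norm_num) hy0.le]
      refine mul_le_mul_of_nonneg_right ?_ (by positivity)
      calc (3 : ℝ) ^ (0.61 : ℝ) ≤ (3 : ℝ) ^ (1 : ℝ) :=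
            Real.rpow_le_rpow_of_exponent_le (by norm_num) (by norm_num)
        _ = 3 := Real.rpow_one _
    have c3 : ((fr z0 x (x + 3 * uX X)).card : ℝ) ≤ 3 * y ^ (0.13 : ℝ) := by
      refine c1.trans ?_
      rw [← hy]
      calc (z0 (x + 3 * uX X) : ℝ) * y ^ (-(0.48 : ℝ)) ≤
            3 * y ^ (0.61 : ℝ) * y ^ (-(0.48 : ℝ)) :=
            mul_le_mul_of_nonneg_right c2 (by positivity)
        _ = 3 * y ^ (0.13 : ℝ) := by
            rw [mul_assoc, ← Real.rpow_add hy0]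
            norm_num
    have c4 : (MX X : ℝ) ≤ y ^ (0.14 : ℝ) := by
      rw [MX, hy]
      exact Nat.floor_le (by positivity)
    have c5 := hle 0.13 0.14 (by norm_num)
    have c6 : Real.log y ≤ 10 * y ^ (0.1 : ℝ) := by
      have := Real.log_le_rpow_div hy0.le (show (0 : ℝ) < 0.1 by norm_num)
      calc Real.log y ≤ y ^ (0.1 : ℝ) / 0.1 := this
        _ = 10 * y ^ (0.1 : ℝ) := by ring
    have c7 : 0 < Real.log y := Real.log_pos (by linarith)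
    rw [← hy, lt_div_iff₀ (by positivity)]
    have q1 : 0 < y ^ (0.14 : ℝ) := Real.rpow_pos_of_pos hy0 _
    have q2 : 0 < y ^ (0.24 : ℝ) := Real.rpow_pos_of_pos hy0 _
    calc (((fr z0 x (x + 3 * uX X)).card : ℝ) + MX X) * (16 * Real.log y) ≤
          (4 * y ^ (0.14 : ℝ)) * (16 * (10 * y ^ (0.1 : ℝ))) := by
          refine mul_le_mul (by linarith) (by linarith) (by positivity) (by positivity)
      _ = 640 * y ^ (0.24 : ℝ) := by
          have : y ^ (0.24 : ℝ) = y ^ (0.14 : ℝ) * y ^ (0.1 : ℝ) := by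
            rw [← Real.rpow_add hy0]
            norm_num
          rw [this]
          ring
      _ < y ^ (0.511 : ℝ) / 2 := by
          have : y ^ (0.511 : ℝ) = y ^ (0.24 : ℝ) * y ^ (0.271 : ℝ) := by
            rw [← Real.rpow_add hy0]
            norm_num
          rw [this]
          nlinarith
      _ ≤ uX X := u4
  · rw [← hy]
    calc (uX X : ℝ) * y ^ (0.2455 : ℝ) ≤ y ^ (0.511 : ℝ) * y ^ (0.2455 : ℝ) :=
          mul_le_mul_of_nonneg_right u1 (by positivity)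
      _ = y ^ (0.7565 : ℝ) := by
          rw [← Real.rpow_add hy0]
          norm_num
      _ ≤ y ^ (1 : ℝ) := hle _ _ (by norm_num)
      _ ≤ 4 * y := by rw [hx1]; linarith
  · rw [← hy, le_div_iff₀ (by positivity)]
    have q1 : 0 < y ^ (1.001 : ℝ) := Real.rpow_pos_of_pos hy0 _
    have q2 : 0 < y ^ (0.2455 : ℝ) := Real.rpow_pos_of_pos hy0 _
    have s1 : y ^ (0.001 : ℝ) * (24 * y) ≤ uX X * (y ^ (0.2455 : ℝ)) ^ 2 := by
      calc y ^ (0.001 : ℝ) * (24 * y) = 24 * y ^ (1.001 : ℝ) := by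
            have : y ^ (1.001 : ℝ) = y ^ (0.001 : ℝ) * y ^ (1 : ℝ) := by
              rw [← Real.rpow_add hy0]
              norm_num
            rw [this, hx1]
            ring
        _ ≤ y ^ (0.001 : ℝ) * y ^ (1.001 : ℝ) / 2 := by nlinarith
        _ = y ^ (0.511 : ℝ) / 2 * (y ^ (0.2455 : ℝ)) ^ 2 := by
            have e1 : y ^ (0.001 : ℝ) * y ^ (1.001 : ℝ) =
                y ^ (0.511 : ℝ) * (y ^ (0.2455 : ℝ)) ^ 2 := by
              rw [sq, ← Real.rpow_add hy0, ← Real.rpow_add hy0, ← Real.rpow_add hy0]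
              norm_num
            rw [e1]
            ring
        _ ≤ uX X * (y ^ (0.2455 : ℝ)) ^ 2 := mul_le_mul_of_nonneg_right u4 (by positivity)
    calc y ^ (0.001 : ℝ) * (24 * y * uX X) = y ^ (0.001 : ℝ) * (24 * y) * uX X := by ring
      _ ≤ uX X * (y ^ (0.2455 : ℝ)) ^ 2 * uX X :=
          mul_le_mul_of_nonneg_right s1 (Nat.cast_nonneg _)
      _ = ((uX X : ℝ) * y ^ (0.2455 : ℝ)) ^ 2 := by ring
  · rw [← hy]
    have e1 : y ^ (0.246 : ℝ) = y ^ (0.0005 : ℝ) * y ^ (0.2455 : ℝ) := by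
      rw [← Real.rpow_add hy0]
      norm_num
    have e2 : 1 ≤ y ^ (0.2455 : ℝ) := Real.one_le_rpow hy1 (by norm_num)
    rw [e1]
    nlinarith

/-! ## The deterministic part -/

/-- the place of the indices of a block -/
def IXX (W : ℕ → ℕ) (τ₁ τ₂ : ℝ) (X : ℕ) : Prop :=
  ∀ (x : ℕ) (b : ℕ → ℕ), X ≤ x → x ≤ 3 * X → G0 W X x b → RWB W τ₁ τ₂ X x b →
    ∀ p, x + uX X < p → p ≤ x + 2 * uX X → p ∈ RS z0 W b →
      KP z0 W x (x + uX X) b < pin (RS z0 W b) p + MX X ∧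
      pin (RS z0 W b) p ≤ KP z0 W x (x + 2 * uX X) b

lemma blk_T {W : ℕ → ℕ} {τ₁ τ₂ : ℝ} {X x : ℕ} {b : ℕ → ℕ} (hIX : IXX W τ₁ τ₂ X) (hx : X ≤ x)
    (hx3 : x ≤ 3 * X) (hG : G0 W X x b) (hR : RWB W τ₁ τ₂ X x b) {H : Finset ℕ} (hH : 0 ∈ H)
    (T : Finset ℕ) :
    (NT z0 W H Set.univ (fun _ => (T : Set ℕ)) (x + uX X) (x + 2 * uX X) b : ℝ) =
      ∑ t ∈ Ti W T X x b, NN1 W H X x t b := by
  rw [nt_sum z0 W hH Set.univ T (Ti W T X x b) (Finset.filter_subset _ _)]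
  · push_cast
    rfl
  · intro p h1 h2 h3 h4
    obtain ⟨h5, h6⟩ := hIX x b hx hx3 hG hR p h1 h2 h3
    unfold Ti
    rw [Finset.mem_filter]
    have h7 := pin_lt h1 h3
    exact ⟨h4, by omega, h5, h6⟩

lemma sumTi (hPIF : S_PIF) {W : ℕ → ℕ} {X X2 I : ℕ} {b : ℕ → ℕ} (hN : NP W X)
    (hX2 : X2 ≤ 2 * X) (hI1 : X + (I + 1) * uX X ≤ X2 ∨ I = 0) (hCB : CB z0 W X b)
    (T : Finset ℕ) :
    ∑ i ∈ Icc 1 I, (Ti W T X (X + (i - 1) * uX X) b).card ≤ 2 * T.card := by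
  unfold Ti
  refine two T I (fun i t => 1 ≤ t ∧
    KP z0 W (X + (i - 1) * uX X) (X + (i - 1) * uX X + uX X) b < t + MX X ∧
    t ≤ KP z0 W (X + (i - 1) * uX X) (X + (i - 1) * uX X + 2 * uX X) b) ?_
  rintro i i' t hi hii hi' ⟨_, _, h1⟩ ⟨_, h2, _⟩
  have hu := hN.ule
  have hu1 := hN.u1
  have hX3 := hN.X1
  have e1 := blk_eq (X := X) (u := uX X) hi
  have m1 := Nat.mul_le_mul_right (uX X) (show i + 2 ≤ i' - 1 + 1 by omega)
  have e2 : (i' - 1 + 1) * uX X = (i' - 1) * uX X + uX X := by ring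
  have hb := blk_in (X := X) (X2 := X2) (u := uX X) hI1
    (Finset.mem_Icc.2 ⟨hi, by omega⟩ : i ∈ Icc 1 I)
  obtain ⟨x, hx⟩ : ∃ x, x = X + (i - 1) * uX X := ⟨_, rfl⟩
  obtain ⟨x', hx'⟩ : ∃ x', x' = X + (i' - 1) * uX X := ⟨_, rfl⟩
  rw [← hx] at h1 hb e1
  rw [← hx'] at h2
  have h3 := KP_le_pin hPIF (x := x) (u := uX X) (by omega) (by omega)
    (hN.W1 x hb.1 (by omega)) (hN.q1 x hb.1 (by omega)) b
  have h4 := pin_le_KP (W := W) (x := x') (p := x' + uX X) (by omega) b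
  have h5 := pin_mono (RS z0 W b) (show x + 3 * uX X ≤ x' + uX X by omega)
  have h6 := hCB.2 (x + 2 * uX X) (by omega) (by omega)
  have h7 := pin_mono (RS z0 W b) (show x + 2 * uX X ≤ x + 2 * uX X + uX X / 2 by omega)
  have e3 : x + 2 * uX X + uX X = x + 3 * uX X := by ring
  rw [e3] at h6
  have h8 := hN.f1 x hb.1 (by omega)
  have h9 : pin (RS z0 W b) (x + 3 * uX X) ≤
      pin (RS z0 W b) (x + 2 * uX X) + ((fr z0 x (x + 3 * uX X)).card + MX X) := by omega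
  have h10 : (pin (RS z0 W b) (x + 3 * uX X) : ℝ) ≤
      pin (RS z0 W b) (x + 2 * uX X) + (((fr z0 x (x + 3 * uX X)).card : ℝ) + MX X) := by
    exact_mod_cast h9
  have h11 : (pin (RS z0 W b) (x + 2 * uX X) : ℝ) ≤ pin (RS z0 W b) (x + 2 * uX X + uX X / 2) := by
    exact_mod_cast h7
  linarith

lemma det {W : ℕ → ℕ} {T : Finset ℕ} {B : ℕ} {τ₁ τ₂ α β e : ℝ} {X X2 I : ℕ} {b : ℕ → ℕ}
    (hPIF : S_PIF) (hN : NP W X) (hX2 : X2 ≤ 2 * X) (hI1 : X + (I + 1) * uX X ≤ X2 ∨ I = 0)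
    (hIX : IXX W τ₁ τ₂ X) (hB1 : 1 ≤ B) (he : 0 ≤ e) (hCB : CB z0 W X b)
    (hreg : ∀ x, X ≤ x → x ≤ 3 * X → RWB W τ₁ τ₂ X x b)
    (hs : ∑ i ∈ Icc 1 I, gF W T B τ₁ τ₂ α β e X (X + (i - 1) * uX X) b <
      3 * ((uX X : ℝ) * (X : ℝ) ^ (0.2455 : ℝ))) :
    α * (∑ i ∈ Icc 1 I, NT z0 W {0, 2} Set.univ (fun _ => (T : Set ℕ))
        (X + (i - 1) * uX X + uX X) (X + (i - 1) * uX X + 2 * uX X) b : ℕ) +
    β * (∑ i ∈ Icc 1 I, NT z0 W {0} Set.univ (fun _ => (T : Set ℕ))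
        (X + (i - 1) * uX X + uX X) (X + (i - 1) * uX X + 2 * uX X) b : ℕ) ≤
      2 * e * T.card + B * (3 * (X : ℝ) ^ (0.2455 : ℝ)) := by
  have hG : ∀ i ∈ Icc 1 I, X ≤ X + (i - 1) * uX X ∧ X + (i - 1) * uX X ≤ 3 * X ∧
      G0 W X (X + (i - 1) * uX X) b := by
    intro i hi
    obtain ⟨a1, a2⟩ := blk_in hI1 hi
    exact ⟨a1, by omega, g0_of hCB hN.h1 a1 (by omega)⟩
  have e1 : ∑ i ∈ Icc 1 I, gF W T B τ₁ τ₂ α β e X (X + (i - 1) * uX X) b =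
      ((uX X : ℝ) / B) * ∑ i ∈ Icc 1 I, ∑ t ∈ Ti W T X (X + (i - 1) * uX X) b,
        hF W α β e X (X + (i - 1) * uX X) t b := by
    rw [Finset.mul_sum]
    refine Finset.sum_congr rfl fun i hi => ?_
    obtain ⟨a1, a2, a3⟩ := hG i hi
    exact gF_pos ⟨a3, hreg _ a1 a2⟩
  have e2 : ∑ i ∈ Icc 1 I, ∑ t ∈ Ti W T X (X + (i - 1) * uX X) b,
        hF W α β e X (X + (i - 1) * uX X) t b =
      α * (∑ i ∈ Icc 1 I, NT z0 W {0, 2} Set.univ (fun _ => (T : Set ℕ))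
        (X + (i - 1) * uX X + uX X) (X + (i - 1) * uX X + 2 * uX X) b : ℕ) +
      β * (∑ i ∈ Icc 1 I, NT z0 W {0} Set.univ (fun _ => (T : Set ℕ))
        (X + (i - 1) * uX X + uX X) (X + (i - 1) * uX X + 2 * uX X) b : ℕ) -
      e * (∑ i ∈ Icc 1 I, (Ti W T X (X + (i - 1) * uX X) b).card : ℕ) := by
    push_cast
    rw [Finset.mul_sum, Finset.mul_sum, Finset.mul_sum, ← Finset.sum_add_distrib,
      ← Finset.sum_sub_distrib]
    refine Finset.sum_congr rfl fun i hi => ?_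
    obtain ⟨a1, a2, a3⟩ := hG i hi
    rw [blk_T hIX a1 a2 a3 (hreg _ a1 a2) (by simp) T,
      blk_T hIX a1 a2 a3 (hreg _ a1 a2) (by simp) T, Finset.mul_sum, Finset.mul_sum,
      ← Finset.sum_add_distrib]
    unfold hF
    rw [Finset.sum_sub_distrib, Finset.sum_const, nsmul_eq_mul]
    ring
  rw [e1, e2] at hs
  have hC := sumTi hPIF hN hX2 hI1 hCB T
  obtain ⟨N2, hN2⟩ : ∃ N2 : ℕ, N2 = ∑ i ∈ Icc 1 I, NT z0 W {0, 2} Set.univ
    (fun _ => (T : Set ℕ)) (X + (i - 1) * uX X + uX X) (X + (i - 1) * uX X + 2 * uX X) b :=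
    ⟨_, rfl⟩
  obtain ⟨N1, hN1⟩ : ∃ N1 : ℕ, N1 = ∑ i ∈ Icc 1 I, NT z0 W {0} Set.univ
    (fun _ => (T : Set ℕ)) (X + (i - 1) * uX X + uX X) (X + (i - 1) * uX X + 2 * uX X) b :=
    ⟨_, rfl⟩
  obtain ⟨C, hC'⟩ : ∃ C : ℕ, C = ∑ i ∈ Icc 1 I, (Ti W T X (X + (i - 1) * uX X) b).card :=
    ⟨_, rfl⟩
  rw [← hN2, ← hN1, ← hC'] at hs
  rw [← hC'] at hC
  rw [← hN2, ← hN1]
  have hu := hN.u1
  have hu0 : (0 : ℝ) < uX X := by exact_mod_cast (by omega : 0 < uX X)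
  have hB0 : (0 : ℝ) < B := by exact_mod_cast hB1
  have hs2 : ((uX X : ℝ) / B) * (α * N2 + β * N1 - e * C) <
      ((uX X : ℝ) / B) * (B * (3 * (X : ℝ) ^ (0.2455 : ℝ))) := by
    have e3 : ((uX X : ℝ) / B) * (B * (3 * (X : ℝ) ^ (0.2455 : ℝ))) =
        3 * ((uX X : ℝ) * (X : ℝ) ^ (0.2455 : ℝ)) := by
      field_simp
    rw [e3]
    exact hs
  have hs3 := lt_of_mul_lt_mul_left hs2 (by positivity)
  have hC2 : (C : ℝ) ≤ 2 * T.card := by exact_mod_cast hC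
  have hC3 := mul_le_mul_of_nonneg_left hC2 he
  linarith

end MAINPN

open MAINN MAINPN

/-- **MAINP** -/
theorem mainp : S_MAINP := by
  intro hLOC hTV1 hAVG hPIF hONEB hNUM hGBP hAZ3 W hW hWm
  filter_upwards [hGBP hLOC hTV1 hAVG hPIF hONEB hNUM W hW hWm, np hNUM hW hWm] with X hGBX hN
  intro Ω _ P a hM X2 B T τ₁ τ₂ hX2 hX22 hB1 hB h10 h11 h20 h21
  have hprob := Pool.Agent.T2H32.BF.prob hM
  have hu1 := hN.u1
  have hX3 := hN.X1
  obtain ⟨I, hI1, hI2, hI3⟩ := exI (u := uX X) (by omega) hX2 hX22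
  have hX1 : (1 : ℝ) ≤ X := by exact_mod_cast (by omega : 1 ≤ X)
  obtain ⟨e, he⟩ : ∃ e : ℝ, e = (X : ℝ) ^ (-(0.004 : ℝ)) := ⟨_, rfl⟩
  have he0 : 0 ≤ e := by
    rw [he]
    exact Real.rpow_nonneg (Nat.cast_nonneg _) _
  have he1 : e ≤ 1 := by
    rw [he]
    exact Real.rpow_le_one_of_one_le_of_nonpos hX1 (by norm_num)
  have hIX : IXX W τ₁ τ₂ X := by
    intro x b hx hx3 hG hR p hp1 hp2 hp3
    have h1 := (hGBX x 0 τ₁ τ₂ b hx hx3 h10 h11 h20 h21 hG hR).2.2 b p hp1 hp2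
    rw [gl_self] at h1
    exact h1 hp3
  have hMV1 : MVX W τ₁ τ₂ 1 (-τ₂) e X := by
    intro x t b hx hx3 hG hR
    have h1 := (hGBX x t τ₁ τ₂ b hx hx3 h10 h11 h20 h21 hG hR).1
    rw [← he] at h1
    linarith
  have hMV2 : MVX W τ₁ τ₂ (-1) τ₁ e X := by
    intro x t b hx hx3 hG hR
    have h1 := (hGBX x t τ₁ τ₂ b hx hx3 h10 h11 h20 h21 hG hR).2.1
    rw [← he] at h1
    linarith
  have hab1 : ∀ s r : ℝ, 0 ≤ s → s ≤ r → r ≤ 1 → |1 * s + -τ₂ * r - e| ≤ 2 := by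
    intro s r hs hsr hr
    have h1 : 0 ≤ τ₂ * r := mul_nonneg h20 (hs.trans hsr)
    have h2 : τ₂ * r ≤ 1 := mul_le_one₀ h21 (hs.trans hsr) hr
    rw [abs_le]
    constructor <;> linarith
  have hab2 : ∀ s r : ℝ, 0 ≤ s → s ≤ r → r ≤ 1 → |-1 * s + τ₁ * r - e| ≤ 2 := by
    intro s r hs hsr hr
    have h1 : 0 ≤ τ₁ * r := mul_nonneg h10 (hs.trans hsr)
    have h2 : τ₁ * r ≤ 1 := mul_le_one₀ h11 (hs.trans hsr) hr
    rw [abs_le]
    constructor <;> linarith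
  have hP1 := azG hAZ3 hM hN hB hB1 hab1 hMV1 hI3
  have hP2 := azG hAZ3 hM hN hB hB1 hab2 hMV2 hI3
  refine (measureReal_mono (μ := P) ?_ (measure_ne_top _ _)).trans
    ((measureReal_union_le {ω | 3 * ((uX X : ℝ) * (X : ℝ) ^ (0.2455 : ℝ)) ≤ ∑ i ∈ Icc 1 I,
      gF W T B τ₁ τ₂ 1 (-τ₂) e X (X + (i - 1) * uX X) (fun q => a q ω)}
      {ω | 3 * ((uX X : ℝ) * (X : ℝ) ^ (0.2455 : ℝ)) ≤ ∑ i ∈ Icc 1 I,
      gF W T B τ₁ τ₂ (-1) τ₁ e X (X + (i - 1) * uX X) (fun q => a q ω)}).trans (by linarith))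
  rintro ω ⟨hCB, hreg, hlt⟩
  by_contra hcon
  rw [Set.mem_union, not_or] at hcon
  have c1 : ∑ i ∈ Icc 1 I, gF W T B τ₁ τ₂ 1 (-τ₂) e X (X + (i - 1) * uX X) (fun q => a q ω) <
      3 * ((uX X : ℝ) * (X : ℝ) ^ (0.2455 : ℝ)) := lt_of_not_ge fun h => hcon.1 h
  have c2 : ∑ i ∈ Icc 1 I, gF W T B τ₁ τ₂ (-1) τ₁ e X (X + (i - 1) * uX X) (fun q => a q ω) <
      3 * ((uX X : ℝ) * (X : ℝ) ^ (0.2455 : ℝ)) := lt_of_not_ge fun h => hcon.2 h
  have d1 := det hPIF hN hX22 hI1 hIX hB1 he0 hCB hreg c1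
  have d2 := det hPIF hN hX22 hI1 hIX hB1 he0 hCB hreg c2
  have u1 := nt_up2 z0 W (H := {0, 2}) (by simp) Set.univ T hB (fun q => a q ω) X X2 I hI2
  have u2 := nt_up2 z0 W (H := {0}) (by simp) Set.univ T hB (fun q => a q ω) X X2 I hI2
  have l1 := nt_lo z0 W {0, 2} Set.univ (fun _ => (T : Set ℕ)) (fun q => a q ω) X X2 (uX X) I hI1
  have l2 := nt_lo z0 W {0} Set.univ (fun _ => (T : Set ℕ)) (fun q => a q ω) X X2 (uX X) I hI1
  obtain ⟨N2, hN2⟩ : ∃ N2 : ℕ, N2 = ∑ i ∈ Icc 1 I, NT z0 W {0, 2} Set.univ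
    (fun _ => (T : Set ℕ)) (X + (i - 1) * uX X + uX X) (X + (i - 1) * uX X + 2 * uX X)
    (fun q => a q ω) := ⟨_, rfl⟩
  obtain ⟨N1, hN1⟩ : ∃ N1 : ℕ, N1 = ∑ i ∈ Icc 1 I, NT z0 W {0} Set.univ
    (fun _ => (T : Set ℕ)) (X + (i - 1) * uX X + uX X) (X + (i - 1) * uX X + 2 * uX X)
    (fun q => a q ω) := ⟨_, rfl⟩
  rw [← hN2, ← hN1] at d1 d2
  rw [← hN2] at u1 l1
  rw [← hN1] at u2 l2
  obtain ⟨M2, hM2⟩ : ∃ M2 : ℕ, M2 = NT z0 W {0, 2} Set.univ (fun _ => (T : Set ℕ)) X X2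
    (fun q => a q ω) := ⟨_, rfl⟩
  obtain ⟨M1, hM1⟩ : ∃ M1 : ℕ, M1 = NT z0 W {0} Set.univ (fun _ => (T : Set ℕ)) X X2
    (fun q => a q ω) := ⟨_, rfl⟩
  rw [← hM2] at u1 l1
  rw [← hM1] at u2 l2
  rw [← hM2, ← hM1, ← he] at hlt
  have u1' : (M2 : ℝ) ≤ 2 * B + N2 := by exact_mod_cast u1
  have u2' : (M1 : ℝ) ≤ 2 * B + N1 := by exact_mod_cast u2
  have l1' : (N2 : ℝ) ≤ M2 := by exact_mod_cast l1
  have l2' : (N1 : ℝ) ≤ M1 := by exact_mod_cast l2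
  have hB0 : (0 : ℝ) < B := by exact_mod_cast hB1
  have hs : 2 * (B : ℝ) + B * (3 * (X : ℝ) ^ (0.2455 : ℝ)) ≤ B * (X : ℝ) ^ (0.246 : ℝ) := by
    have := mul_le_mul_of_nonneg_left hN.s1 hB0.le
    linarith
  rcases hlt with hlt | hlt
  · have f1 := mul_le_mul_of_nonneg_left l2' h20
    linarith
  · have f1 := mul_le_mul_of_nonneg_left u2' h10
    have f2 := mul_le_mul_of_nonneg_right h11 (by linarith : (0 : ℝ) ≤ 2 * B)
    linarith

end Pool.Agent.H531.IX
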