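import Pool.Agent.H531.IX.Stm3

set_option autoImplicit false

/-! # NEB: the two counts agree -/

namespace Pool.Agent.H531.IX

theorem neb : S_NEB := by
  intro hN A hinf h0 δ n
  obtain ⟨h1, h2⟩ := hN A hinf h0
  have key : ∀ m, 1 ≤ m → 1 ≤ rk A m ∧ rk A m ∈ A ∧ pin A (rk A m) = m ∧
      rk A (rk A m) ∈ A ∧ pin A (rk A (rk A m)) = rk A m := by
    intro m hm
    obtain ⟨h3, h4⟩ := h2 m hm
    have h5 : 1 ≤ rk A m := by
      rcases Nat.eq_zero_or_pos (rk A m) with h | h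
      · exact absurd (h ▸ h3) h0
      · exact h
    exact ⟨h5, h3, h4, h2 _ h5⟩
  unfold NF NB
  symm
  have himg : {p : ℕ | p ∈ A ∧ p + 2 ∈ A ∧ pin A p ∈ A ∧ δ * n ≤ pin A (pin A p) ∧
      pin A (pin A p) < n ∧ rk A (n - pin A (pin A p)) + 2 ∈ A} =
      (fun m => rk A (rk A m)) '' {m : ℕ | 1 ≤ m ∧ δ * n ≤ m ∧ m < n ∧ rk A (n - m) + 2 ∈ A ∧
        rk A (rk A m) + 2 ∈ A} := by
    ext p
    constructor
    · rintro ⟨hp, hp2, hq, hd, hn, ht⟩
      obtain ⟨h3, h4⟩ := h1 p hp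
      obtain ⟨h5, h6⟩ := h1 _ hq
      have h7 : rk A (rk A (pin A (pin A p))) = p := by rw [h5, h3]
      exact ⟨pin A (pin A p), ⟨h6, hd, hn, ht, by rw [h7]; exact hp2⟩, h7⟩
    · rintro ⟨m, ⟨hm, hd, hn, ht, hp2⟩, rfl⟩
      obtain ⟨h3, h4, h5, h6, h7⟩ := key m hm
      refine ⟨h6, hp2, ?_, ?_, ?_, ?_⟩
      · rw [h7]
        exact h4
      · rw [h7, h5]
        exact hd
      · rw [h7, h5]
        exact hn
      · rw [h7, h5]
        exact ht
  rw [himg]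
  apply Set.InjOn.ncard_image
  intro m hm m' hm' h
  obtain ⟨h3, h4, h5, h6, h7⟩ := key m hm.1
  obtain ⟨h3', h4', h5', h6', h7'⟩ := key m' hm'.1
  have h8 : pin A (rk A (rk A m)) = pin A (rk A (rk A m')) := by
    have := congrArg (pin A) h
    exact this
  rw [h7, h7'] at h8
  rw [← h5, ← h5', h8]

end Pool.Agent.H531.IX
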