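import Pool.Agent.H531.IX.Stm6

set_option autoImplicit false

/-!
# NGQ: the two counts agree
-/

namespace Pool.Agent.H531.IX

theorem ngq : S_NGQ := by
  intro hN A hA h0 n
  obtain ⟨h1, h2⟩ := hN A hA h0
  have himg : {p : ℕ | p ∈ A ∧ p + 2 ∈ A ∧ ∃ q s : ℕ, pin A p = q + 2 ∧ q + s = 2 * n ∧ q ∈ A ∧ s ∈ A} =
      (fun q => rk A (q + 2)) '' {q : ℕ | q ∈ A ∧ q < 2 * n ∧ 2 * n - q ∈ A ∧ rk A (q + 2) + 2 ∈ A} := by
    apply Set.Subset.antisymm
    · rintro p ⟨hp, hp2, q, s, hpq, hqs, hq, hs⟩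
      obtain ⟨h3, _⟩ := h1 p hp
      have hs0 : s ≠ 0 := fun h => h0 (h ▸ hs)
      have h4 : rk A (q + 2) = p := by
        rw [← hpq]
        exact h3
      have h5 : 2 * n - q = s := by omega
      refine ⟨q, ⟨hq, by omega, ?_, ?_⟩, h4⟩
      · rw [h5]
        exact hs
      · rw [h4]
        exact hp2
    · rintro _ ⟨q, ⟨hq, hqn, hs, h3⟩, rfl⟩
      obtain ⟨h4, h5⟩ := h2 (q + 2) (by omega)
      exact ⟨h4, h3, q, 2 * n - q, h5, by omega, hq, hs⟩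
  unfold NG NQ
  rw [himg, Set.InjOn.ncard_image]
  intro q _ q' _ h
  have h3 := (h2 (q + 2) (by omega)).2
  have h4 := (h2 (q' + 2) (by omega)).2
  have h5 : pin A (rk A (q + 2)) = pin A (rk A (q' + 2)) := congrArg (pin A) h
  rw [h3, h4] at h5
  omega

end Pool.Agent.H531.IX
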