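import Pool.Agent.H531.IX.Stm4

set_option autoImplicit false

/-!
# `S_ONE`: one summand with iterated index
-/

open Finset MeasureTheory ProbabilityTheory Filter Topology

namespace Pool.Agent.H531.IX

open Pool.Agent.T2H32.BF (Model z0 V z0_mono z0_lim)
open Pool.Agent.H559.BS (Limit)
open Pool.Agent.H559.HY (OK WW Cut)
open Pool.Agent.T2H32.GB (C2)

namespace ONEN

/-- the elements of an interval in one class -/
theorem cls (n x L q r : ℕ) (hq : 0 < q) (h : x + L ≤ 2 * n) :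
    ((Ioc x (x + L)).filter fun v => (2 * n - v) % q = r).card ≤ L / q + 1 := by
  have h1 : ((Ioc x (x + L)).filter fun v => (2 * n - v) % q = r).card ≤ (range (L / q + 1)).card := by
    refine card_le_card_of_injOn (fun v => (v - x - 1) / q) (fun v hv => ?_) ?_
    · simp only [coe_filter, mem_Ioc, Set.mem_ofPred_eq] at hv
      simp only [coe_range, Set.mem_Iio]
      have : (v - x - 1) / q ≤ L / q := Nat.div_le_div_right (by omega)
      omega
    · have key : ∀ v w : ℕ, x < v → w ≤ x + L → (2 * n - v) % q = r → (2 * n - w) % q = r → v ≤ w →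
          (v - x - 1) / q = (w - x - 1) / q → v = w := by
        intro v w hv hw hv2 hw2 hle hvw
        have h2 : q ∣ w - v := by
          have h3 : (2 * n - w) % q = (2 * n - v) % q := by rw [hv2, hw2]
          have h4 := (Nat.modEq_iff_dvd' (by omega : 2 * n - w ≤ 2 * n - v)).1 h3
          rwa [show 2 * n - v - (2 * n - w) = w - v by omega] at h4
        obtain ⟨k, hk⟩ := h2
        rcases Nat.eq_zero_or_pos k with h3 | h3
        · subst h3
          omega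
        · exfalso
          have h4 : w - x - 1 = (v - x - 1) + q * k := by omega
          rw [h4, Nat.add_mul_div_left _ _ hq] at hvw
          omega
      intro v hv w hw hvw
      simp only [coe_filter, mem_Ioc, Set.mem_ofPred_eq] at hv hw
      simp only at hvw
      rcases le_total v w with hle | hle
      · exact key v w hv.1.1 hw.1.2 hv.2 hw.2 hle hvw
      · exact (key w v hw.1.1 hv.1.2 hw.2 hv.2 hle hvw.symm).symm
  rwa [card_range] at h1

theorem loss (W : ℕ → ℕ) (b : ℕ → ℕ) (n k x L : ℕ)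
    (hW : ∀ v, x < v → v ≤ x + L → W (2 * n - v) ≤ z0 x) (h : x + L ≤ 2 * n) :
    ((G1 W n k (z0 x) x (x + L) b).card : ℝ) ≤ (G1 W n k (z0 (x + L)) x (x + L) b).card +
      (L + z0 (x + L)) * ∑ q ∈ fr z0 x (x + L), 1 / (q : ℝ) := by
  classical
  have hsub : G1 W n k (z0 x) x (x + L) b ⊆ G1 W n k (z0 (x + L)) x (x + L) b ∪
      (fr z0 x (x + L)).biUnion fun q => (Ioc x (x + L)).filter fun v => (2 * n - v) % q = b q := by
    intro v hv
    unfold G1 at hv ⊢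
    rw [mem_filter, mem_Ioc] at hv
    obtain ⟨⟨h1, h2⟩, h3, h4⟩ := hv
    rw [mem_union]
    by_cases h5 : Sv W (z0 (x + L)) b (2 * n - v)
    · left
      rw [mem_filter, mem_Ioc]
      exact ⟨⟨h1, h2⟩, h3, h5⟩
    · right
      unfold Sv at h5
      push Not at h5
      obtain ⟨q, hq, hqp, hqe⟩ := h5
      have h6 : z0 x < q := by
        by_contra h7
        exact h4 q (by omega) hqp hqe
      have h7 : ¬ q ≤ W (2 * n - v) := by
        have := hW v h1 h2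
        omega
      rw [if_neg h7] at hqe
      rw [mem_biUnion]
      refine ⟨q, ?_, ?_⟩
      · unfold fr
        rw [mem_filter, mem_Ioc]
        exact ⟨⟨h6, hq⟩, hqp⟩
      · rw [mem_filter, mem_Ioc]
        exact ⟨⟨h1, h2⟩, hqe⟩
  have h1 := card_le_card hsub
  have h2 := h1.trans (card_union_le _ _)
  have h3 : (((fr z0 x (x + L)).biUnion fun q => (Ioc x (x + L)).filter fun v => (2 * n - v) % q = b q).card : ℝ) ≤
      (L + z0 (x + L)) * ∑ q ∈ fr z0 x (x + L), 1 / (q : ℝ) := by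
    have h4 : (((fr z0 x (x + L)).biUnion fun q => (Ioc x (x + L)).filter fun v => (2 * n - v) % q = b q).card : ℝ) ≤
        ∑ q ∈ fr z0 x (x + L), (((Ioc x (x + L)).filter fun v => (2 * n - v) % q = b q).card : ℝ) := by
      exact_mod_cast card_biUnion_le
    refine h4.trans ?_
    rw [mul_sum]
    refine sum_le_sum fun q hq => ?_
    unfold fr at hq
    rw [mem_filter, mem_Ioc] at hq
    have hq0 : (0 : ℝ) < q := by exact_mod_cast hq.2.pos
    have h5 : (((Ioc x (x + L)).filter fun v => (2 * n - v) % q = b q).card : ℝ) ≤ ((L / q : ℕ) : ℝ) + 1 := by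
      exact_mod_cast cls n x L q (b q) hq.2.pos h
    have h6 : ((L / q : ℕ) : ℝ) ≤ L / q := Nat.cast_div_le
    have h7 : (1 : ℝ) ≤ z0 (x + L) / q := by
      rw [le_div_iff₀ hq0, one_mul]
      exact_mod_cast hq.1.2
    calc (((Ioc x (x + L)).filter fun v => (2 * n - v) % q = b q).card : ℝ) ≤ L / q + z0 (x + L) / q := by linarith
      _ = (L + z0 (x + L)) * (1 / (q : ℝ)) := by ring
  have h5 : ((G1 W n k (z0 x) x (x + L) b).card : ℝ) ≤ (G1 W n k (z0 (x + L)) x (x + L) b).card +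
      ((fr z0 x (x + L)).biUnion fun q => (Ioc x (x + L)).filter fun v => (2 * n - v) % q = b q).card := by
    exact_mod_cast h2
  linarith

theorem pw {a b : ℝ} (C : ℝ) (h : a < b) : ∀ᶠ n : ℕ in atTop, C * (n : ℝ) ^ a ≤ (n : ℝ) ^ b := by
  have h1 : Tendsto (fun n : ℕ => (n : ℝ) ^ (b - a)) atTop atTop :=
    (tendsto_rpow_atTop (by linarith)).comp tendsto_natCast_atTop_atTop
  filter_upwards [h1.eventually_ge_atTop C, eventually_ge_atTop 1] with n h2 h3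
  have hn : (0 : ℝ) < n := by exact_mod_cast h3
  calc C * (n : ℝ) ^ a ≤ (n : ℝ) ^ (b - a) * (n : ℝ) ^ a :=
        mul_le_mul_of_nonneg_right h2 (by positivity)
    _ = (n : ℝ) ^ b := by rw [← Real.rpow_add hn, sub_add_cancel]

theorem lg {a : ℝ} (C : ℝ) (h : 0 < a) : ∀ᶠ n : ℕ in atTop, C * Real.log n ≤ (n : ℝ) ^ a := by
  have h1 := (isLittleO_log_rpow_atTop h).bound (show 0 < 1 / (|C| + 1) by positivity)
  have h2 := tendsto_natCast_atTop_atTop.eventually h1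
  filter_upwards [h2] with n h3
  rw [Real.norm_eq_abs, Real.norm_eq_abs, abs_of_nonneg (Real.rpow_nonneg (Nat.cast_nonneg n) a)] at h3
  have h4 : 0 ≤ (n : ℝ) ^ a := Real.rpow_nonneg (Nat.cast_nonneg n) a
  calc C * Real.log n ≤ |C * Real.log n| := le_abs_self _
    _ = |C| * |Real.log n| := abs_mul _ _
    _ ≤ |C| * (1 / (|C| + 1) * (n : ℝ) ^ a) := mul_le_mul_of_nonneg_left h3 (abs_nonneg _)
    _ = (|C| / (|C| + 1)) * (n : ℝ) ^ a := by ring
    _ ≤ 1 * (n : ℝ) ^ a := by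
        refine mul_le_mul_of_nonneg_right ?_ h4
        rw [div_le_one (by positivity)]
        linarith
    _ = (n : ℝ) ^ a := one_mul _

theorem YY_top : Tendsto YY atTop atTop := by
  rw [tendsto_atTop]
  intro m
  filter_upwards [eventually_ge_atTop (2 * m)] with n hn
  unfold YY
  omega

theorem XX_top : Tendsto (fun n => YY n + LL n) atTop atTop :=
  tendsto_atTop_mono (fun _ => Nat.le_add_right _ _) YY_top

/-- facts on the count -/
theorem F1 (A : Set ℕ) (h : Tendsto (fun x : ℕ => (pin A x : ℝ) * Real.log x / x) atTop (𝓝 1)) :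
    ∀ᶠ x : ℕ in atTop, (x : ℝ) ^ (0.9 : ℝ) ≤ pin A x ∧ 8 * (pin A x : ℝ) ≤ x := by
  have h16 : ∀ᶠ x : ℕ in atTop, (16 : ℝ) ≤ Real.log x :=
    (Real.tendsto_log_atTop.comp tendsto_natCast_atTop_atTop).eventually_ge_atTop 16
  filter_upwards [h.eventually_const_lt (show (1 / 2 : ℝ) < 1 by norm_num),
    h.eventually_lt_const (show (1 : ℝ) < 2 by norm_num), lg 2 (show (0 : ℝ) < 0.1 by norm_num), h16,
    eventually_ge_atTop 1] with x h1 h2 h3 h4 h5
  have hx : (0 : ℝ) < x := by exact_mod_cast h5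
  rw [lt_div_iff₀ hx] at h1
  rw [div_lt_iff₀ hx] at h2
  have hp : (0 : ℝ) ≤ pin A x := Nat.cast_nonneg _
  constructor
  · have h6 : (x : ℝ) ^ (0.9 : ℝ) * (x : ℝ) ^ (0.1 : ℝ) = x := by
      rw [← Real.rpow_add hx]
      norm_num
    have h7 : 0 < (x : ℝ) ^ (0.1 : ℝ) := Real.rpow_pos_of_pos hx _
    have h8 : (pin A x : ℝ) * (2 * Real.log x) ≤ pin A x * (x : ℝ) ^ (0.1 : ℝ) :=
      mul_le_mul_of_nonneg_left h3 hp
    by_contra h9
    rw [not_le] at h9
    have h10 : (pin A x : ℝ) * (x : ℝ) ^ (0.1 : ℝ) < (x : ℝ) ^ (0.9 : ℝ) * (x : ℝ) ^ (0.1 : ℝ) :=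
      mul_lt_mul_of_pos_right h9 h7
    linarith
  · have h6 : (pin A x : ℝ) * 16 ≤ pin A x * Real.log x := mul_le_mul_of_nonneg_left h4 hp
    linarith

/-- the numerical facts for one `n` -/
structure Num (n : ℕ) : Prop where
  n3 : 100 ≤ n
  yl : (n : ℝ) / 3 ≤ YY n
  yu : (YY n : ℝ) ≤ n / 2
  ll : (LL n : ℝ) ≤ n / 100
  ll1 : (LL n : ℝ) ≤ (n : ℝ) ^ (0.998 : ℝ)
  kk : (kk n : ℝ) ≤ n / 3
  hl : (n : ℝ) ^ (0.002 : ℝ) ≤ hX (YY n)
  hu : (hX (YY n) : ℝ) ≤ (n : ℝ) ^ (0.1 : ℝ)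
  hs : (n : ℝ) ^ (0.1 : ℝ) ≤ n / 100
  us : (uX (YY n) : ℝ) ≤ n / 100
  r1 : (YY n : ℝ) ^ (-(0.001 : ℝ)) ≤ (n : ℝ) ^ (-(0.0005 : ℝ))
  r2 : (n : ℝ) ^ (-(0.001 : ℝ)) ≤ (YY n : ℝ) ^ (-(0.001 : ℝ))
  r3 : (YY n : ℝ) ^ (0.99 : ℝ) ≤ (n : ℝ) ^ (0.99 : ℝ)
  pl : (n : ℝ) ^ (0.31 : ℝ) + (n : ℝ) ^ (0.1 : ℝ) + 1 ≤ (YY n : ℝ) ^ (0.9 : ℝ)
  f1 : (n : ℝ) ^ (0.9968 : ℝ) + (n : ℝ) ^ (0.99 : ℝ) ≤
    1 / 2 * ((n : ℝ) ^ (-(0.001 : ℝ)) * (n : ℝ) ^ (0.9979 : ℝ))
  f2 : (n : ℝ) ^ (0.9967 : ℝ) + ((n : ℝ) ^ (0.998 : ℝ) + (n : ℝ) ^ (0.61 : ℝ)) * (n : ℝ) ^ (-(0.0019 : ℝ)) ≤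
    (n : ℝ) ^ (0.9968 : ℝ)
  f3 : (n : ℝ) ^ (0.996 : ℝ) + (n : ℝ) ^ (0.9 : ℝ) ≤ 1 / 2 * (n : ℝ) ^ (0.9967 : ℝ)
  f4 : (2 * n : ℝ) ^ (0.1 : ℝ) ≤ (n : ℝ) ^ (0.5 : ℝ)

theorem third {n a : ℝ} (hn : 0 ≤ n) (ha : a ≤ 1) : n ^ a / 3 ≤ (n / 3) ^ a := by
  rw [Real.div_rpow hn (by norm_num)]
  have h1 : (3 : ℝ) ^ a ≤ 3 ^ (1 : ℝ) := Real.rpow_le_rpow_of_exponent_le (by norm_num) ha
  rw [Real.rpow_one] at h1
  exact div_le_div_of_nonneg_left (Real.rpow_nonneg hn a) (by positivity) h1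

theorem num : ∀ᶠ n : ℕ in atTop, Num n := by
  filter_upwards [eventually_ge_atTop 100, pw (a := 0.998) (b := 1) 100 (by norm_num),
    lg (a := 0.5) 2 (by norm_num), pw (a := 0.5) (b := 1) 3 (by norm_num),
    pw (a := 0.002) (b := 0.005) 6 (by norm_num), pw (a := 0.1) (b := 1) 100 (by norm_num),
    pw (a := 0.511) (b := 1) 100 (by norm_num), pw (a := -0.001) (b := -0.0005) 3 (by norm_num),
    pw (a := 0.31) (b := 0.9) 9 (by norm_num), pw (a := 0.1) (b := 0.9) 9 (by norm_num),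
    pw (a := 0) (b := 0.9) 9 (by norm_num), pw (a := 0.9968) (b := 0.9969) 4 (by norm_num),
    pw (a := 0.99) (b := 0.9969) 4 (by norm_num), pw (a := 0.9967) (b := 0.9968) 3 (by norm_num),
    pw (a := 0.9961) (b := 0.9968) 3 (by norm_num), pw (a := 0.6081) (b := 0.9968) 3 (by norm_num),
    pw (a := 0.996) (b := 0.9967) 4 (by norm_num), pw (a := 0.9) (b := 0.9967) 4 (by norm_num),
    pw (a := 0.1) (b := 0.5) 2 (by norm_num)] with n n100 p1 p2 p3 p4 p5 p6 p7 p8 p9 p10 p11 p12 p13 p14 p15 p16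
      p17 p18
  have hn : (100 : ℝ) ≤ n := by exact_mod_cast n100
  have hn0 : (0 : ℝ) < n := by linarith
  rw [Real.rpow_one] at p1 p3 p5 p6
  rw [Real.rpow_zero] at p10
  have hyl : (n : ℝ) / 3 ≤ YY n := by
    have : n ≤ 3 * YY n := by
      unfold YY
      omega
    have h : (n : ℝ) ≤ 3 * YY n := by exact_mod_cast this
    linarith
  have hyu : (YY n : ℝ) ≤ n / 2 := by
    have : 2 * YY n ≤ n := by
      unfold YY
      omega
    have h : 2 * (YY n : ℝ) ≤ n := by exact_mod_cast this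
    linarith
  have hyn : (YY n : ℝ) ≤ n := by linarith
  have hy0 : (0 : ℝ) < YY n := by linarith
  have hfl : ∀ a : ℝ, 0 ≤ a → a ≤ 1 → (n : ℝ) ^ a / 3 ≤ (YY n : ℝ) ^ a := fun a h0 h1 =>
    (third hn0.le h1).trans (Real.rpow_le_rpow (by positivity) hyl h0)
  have hful : ∀ a : ℝ, 0 ≤ a → (YY n : ℝ) ^ a ≤ (n : ℝ) ^ a := fun a h0 => Real.rpow_le_rpow hy0.le hyn h0
  have hll1 : (LL n : ℝ) ≤ (n : ℝ) ^ (0.998 : ℝ) := Nat.floor_le (by positivity)
  have hone : (1 : ℝ) ≤ (n : ℝ) ^ (0.002 : ℝ) := Real.one_le_rpow (by linarith) (by norm_num)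
  refine ⟨n100, hyl, hyu, by linarith, hll1, ?_, ?_, ?_, by linarith, ?_, ?_, ?_, hful _ (by norm_num), ?_, ?_, ?_,
    ?_, ?_⟩
  · have h1 : (kk n : ℝ) ≤ 2 * √(Real.log n) := Nat.floor_le (by positivity)
    have h2 : 1 ≤ Real.log n := by
      rw [Real.le_log_iff_exp_le hn0]
      have := Real.exp_one_lt_d9
      linarith
    have h3 : √(Real.log n) ≤ Real.log n := by
      rw [Real.sqrt_le_left (by linarith)]
      nlinarith
    linarith
  · have h1 : (YY n : ℝ) ^ (0.005 : ℝ) < hX (YY n) + 1 := Nat.lt_floor_add_one _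
    have h2 := hfl 0.005 (by norm_num) (by norm_num)
    linarith
  · have h1 : (hX (YY n) : ℝ) ≤ (YY n : ℝ) ^ (0.005 : ℝ) := Nat.floor_le (by positivity)
    have h2 := hful 0.005 (by norm_num)
    have h3 : (n : ℝ) ^ (0.005 : ℝ) ≤ (n : ℝ) ^ (0.1 : ℝ) :=
      Real.rpow_le_rpow_of_exponent_le (by linarith) (by norm_num)
    linarith
  · have h1 : (uX (YY n) : ℝ) ≤ (YY n : ℝ) ^ (0.511 : ℝ) := Nat.floor_le (by positivity)
    have h2 := hful 0.511 (by norm_num)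
    linarith
  · have h1 : (YY n : ℝ) ^ (-(0.001 : ℝ)) ≤ ((n : ℝ) / 3) ^ (-(0.001 : ℝ)) :=
      Real.rpow_le_rpow_of_nonpos (by positivity) hyl (by norm_num)
    have h2 : ((n : ℝ) / 3) ^ (-(0.001 : ℝ)) ≤ 3 * (n : ℝ) ^ (-(0.001 : ℝ)) := by
      rw [Real.div_rpow hn0.le (by norm_num), div_le_iff₀ (by positivity)]
      have h3 : (1 : ℝ) ≤ 3 * (3 : ℝ) ^ (-(0.001 : ℝ)) := by
        have h4 : (3 : ℝ) * (3 : ℝ) ^ (-(0.001 : ℝ)) = (3 : ℝ) ^ (0.999 : ℝ) := by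
          have h5 : (3 : ℝ) ^ (1 : ℝ) * (3 : ℝ) ^ (-(0.001 : ℝ)) = (3 : ℝ) ^ (0.999 : ℝ) := by
            rw [← Real.rpow_add (by norm_num)]
            norm_num
          rwa [Real.rpow_one] at h5
        rw [h4]
        exact Real.one_le_rpow (by norm_num) (by norm_num)
      have h6 : 0 ≤ (n : ℝ) ^ (-(0.001 : ℝ)) := by positivity
      nlinarith
    exact h1.trans (h2.trans p7)
  · exact Real.rpow_le_rpow_of_nonpos hy0 hyn (by norm_num)
  · have h2 := hfl 0.9 (by norm_num) (by norm_num)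
    linarith
  · rw [← Real.rpow_add hn0, show -(0.001 : ℝ) + 0.9979 = 0.9969 by norm_num]
    linarith
  · rw [add_mul, ← Real.rpow_add hn0, ← Real.rpow_add hn0, show (0.998 : ℝ) + -0.0019 = 0.9961 by norm_num,
      show (0.61 : ℝ) + -0.0019 = 0.6081 by norm_num]
    linarith
  · linarith
  · rw [Real.mul_rpow (by norm_num) hn0.le]
    have h1 : (2 : ℝ) ^ (0.1 : ℝ) ≤ 2 ^ (1 : ℝ) := Real.rpow_le_rpow_of_exponent_le (by norm_num) (by norm_num)
    rw [Real.rpow_one] at h1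
    have h2 : 0 ≤ (n : ℝ) ^ (0.1 : ℝ) := by positivity
    exact (mul_le_mul_of_nonneg_right h1 h2).trans p18

end ONEN

theorem one : S_ONE := by
  classical
  intro hwin hcnt hkk hnth hcbe hregu hsq hgol hsmall c c₂ hc hc₂ hC2 b hOK hLU hTH
  have hLim : Limit z0 := ⟨z0_mono, z0_lim⟩
  obtain ⟨hW1, hW2, -⟩ := hsmall c (by linarith)
  have hpin := ONEN.F1 _ (hcnt hwin z0 hLim c c₂ hc hC2 b hOK).1
  have h2top : Tendsto (fun n : ℕ => 2 * n) atTop atTop :=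
    tendsto_atTop_mono (fun n => by
      show n ≤ 2 * n
      omega) tendsto_id
  filter_upwards [ONEN.num, ONEN.YY_top.eventually hLU, hTH,
    hregu hwin hcnt hkk hnth c c₂ hc hC2 b hOK, hsq, hgol c c₂ hc hc₂ hC2 b hOK,
    ONEN.YY_top.eventually (hcbe hwin hcnt c c₂ hc hC2 b hOK), h2top.eventually hW1,
    ONEN.YY_top.eventually hpin, ONEN.XX_top.eventually hpin] with n hn e1 e2 e3 e4 e5 e6 e7 e8 e9
  intro k hk
  obtain ⟨n3, yl, yu, ll, ll1, kkn, hl, hu, hs, us, r1, r2, r3, pl, f1, f2, f3, f4⟩ := hn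
  have hnr : (100 : ℝ) ≤ n := by exact_mod_cast n3
  have hn0 : (0 : ℝ) < n := by linarith
  have hkn : k ≤ n := by
    have h1 : (k : ℝ) ≤ kk n := by exact_mod_cast hk
    have h2 : (k : ℝ) ≤ n := by linarith
    exact_mod_cast h2
  rcases k with _ | i
  · refine le_trans ?_ e5
    exact Real.rpow_le_rpow_of_exponent_le (by linarith) (by norm_num)
  · have n1 : YY n + LL n ≤ n := by
      have h1 : (YY n : ℝ) + LL n ≤ n := by linarith
      exact_mod_cast h1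
    have n2 : YY n + LL n ≤ 2 * YY n := by
      have h1 : (YY n : ℝ) + LL n ≤ 2 * YY n := by linarith
      exact_mod_cast h1
    have n4 : n ≤ 3 * YY n := by
      have h1 : (n : ℝ) ≤ 3 * YY n := by linarith
      exact_mod_cast h1
    have n5 : i ≤ YY n := by
      have h1 : ((i + 1 : ℕ) : ℝ) ≤ kk n := by exact_mod_cast hk
      push_cast at h1
      have h2 : (i : ℝ) ≤ YY n := by linarith
      exact_mod_cast h2
    have hreg : ∀ j, pin (RS z0 (WW c) b) (YY n) ≤ j + hX (YY n) + 1 →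
        j ≤ pin (RS z0 (WW c) b) (YY n + LL n) + 3 * uX (YY n) →
        (YY n : ℝ) ^ (-(0.001 : ℝ)) * hX (YY n) ≤
          ((ra (RS z0 (WW c) b) i ∩ Set.Iic (YY n) ∩ Set.Ioc j (j + hX (YY n))).ncard : ℝ) := by
      intro j h1 h2
      have h1' : (pin (RS z0 (WW c) b) (YY n) : ℝ) ≤ j + hX (YY n) + 1 := by exact_mod_cast h1
      have h2' : (j : ℝ) ≤ pin (RS z0 (WW c) b) (YY n + LL n) + 3 * uX (YY n) := by
        exact_mod_cast h2
      have h3 : (n : ℝ) ^ (0.31 : ℝ) ≤ j := by linarith [e8.1]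
      have h4 : (pin (RS z0 (WW c) b) (YY n + LL n) : ℝ) ≤ YY n / 4 := by
        have h5 := e9.2
        push_cast at h5
        linarith
      have h5 : (j : ℝ) + hX (YY n) ≤ YY n := by linarith
      have h6 : j + hX (YY n) ≤ YY n := by exact_mod_cast h5
      have h7 : ra (RS z0 (WW c) b) i ∩ Set.Iic (YY n) ∩ Set.Ioc j (j + hX (YY n)) =
          ra (RS z0 (WW c) b) i ∩ Set.Ioc j (j + hX (YY n)) := by
        ext v
        simp only [Set.mem_inter_iff, Set.mem_Iic, Set.mem_Ioc]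
        constructor
        · rintro ⟨⟨g1, g2⟩, g3⟩
          exact ⟨g1, g3⟩
        · rintro ⟨g1, g2, g3⟩
          exact ⟨⟨g1, by omega⟩, g2, g3⟩
      rw [h7]
      have h8 : j ≤ n ^ 2 := by
        have h9 : j ≤ n := by omega
        have h10 : n ≤ n ^ 2 := Nat.le_self_pow (by norm_num) n
        exact h9.trans h10
      refine le_trans ?_ (e3 i (by omega) j (hX (YY n)) h3 h8 hl hu)
      exact mul_le_mul_of_nonneg_right r1 (Nat.cast_nonneg _)
    have a1 := (e1 e6 n i 0 (YY n + LL n) n4 n5 (Nat.zero_le _) (Nat.le_add_right _ _) n2 hreg).1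
    have a2 : (G3 (RS z0 (WW c) b) (RS z0 (WW c) b) n (YY n) (YY n + LL n)).card ≤
        (G1 (WW c) n 0 (z0 (YY n)) (YY n) (YY n + LL n) b).card := by
      refine card_le_card fun v hv => ?_
      unfold G3 at hv
      unfold G1
      rw [mem_filter, mem_Ioc] at hv ⊢
      obtain ⟨⟨g1, g2⟩, g3, g4⟩ := hv
      refine ⟨⟨g1, g2⟩, g3, fun q hq hqp => ?_⟩
      exact g4.2 q (hq.trans (z0_mono (by omega))) hqp
    have a2' : (n : ℝ) ^ (0.9979 : ℝ) ≤
        ((G1 (WW c) n 0 (z0 (YY n)) (YY n) (YY n + LL n) b).card : ℝ) :=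
      e5.trans (by exact_mod_cast a2)
    have a6 : (n : ℝ) ^ (-(0.001 : ℝ)) * (n : ℝ) ^ (0.9979 : ℝ) ≤
        (YY n : ℝ) ^ (-(0.001 : ℝ)) * ((G1 (WW c) n 0 (z0 (YY n)) (YY n) (YY n + LL n) b).card : ℝ) :=
      mul_le_mul r2 a2' (by positivity) (by positivity)
    have a3 := ONEN.loss (WW c) b n (i + 1) (YY n) (LL n) (fun v hv1 hv2 => by
      have h1 : WW c (2 * n - v) ≤ WW c (2 * n) := hW2 (Nat.sub_le _ _)
      have h2 : (WW c (2 * n) : ℝ) ≤ z0 (YY n) := by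
        have h3 := e4.1
        push_cast at e7
        linarith
      have h3 : WW c (2 * n) ≤ z0 (YY n) := by exact_mod_cast h2
      exact h1.trans h3) (by omega)
    have a7 : (z0 (YY n + LL n) : ℝ) ≤ (n : ℝ) ^ (0.61 : ℝ) := by
      refine le_trans ?_ e4.2.1
      exact_mod_cast z0_mono (by omega : YY n + LL n ≤ 2 * n)
    have a8 : ((LL n : ℝ) + z0 (YY n + LL n)) * ∑ q ∈ fr z0 (YY n) (YY n + LL n), 1 / (q : ℝ) ≤
        ((n : ℝ) ^ (0.998 : ℝ) + (n : ℝ) ^ (0.61 : ℝ)) * (n : ℝ) ^ (-(0.0019 : ℝ)) := by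
      refine mul_le_mul (add_le_add ll1 a7) e4.2.2.1 ?_ (by positivity)
      exact sum_nonneg fun q _ => by positivity
    have a4 := e2 (i + 1) hkn
    have a5 : (G1 (WW c) n (i + 1) (z0 (2 * n)) (YY n) (YY n + LL n) b).card ≤
        (G3 (ra (RS z0 (WW c) b) (i + 1)) (RS z0 (WW c) b) n (YY n) (YY n + LL n)).card := by
      refine card_le_card fun v hv => ?_
      unfold G1 at hv
      unfold G3
      rw [mem_filter, mem_Ioc] at hv ⊢
      obtain ⟨⟨g1, g2⟩, g3, g4⟩ := hv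
      refine ⟨⟨g1, g2⟩, g3, by omega, fun q hq hqp => ?_⟩
      exact g4 q (hq.trans (z0_mono (Nat.sub_le _ _))) hqp
    have a5' : ((G1 (WW c) n (i + 1) (z0 (2 * n)) (YY n) (YY n + LL n) b).card : ℝ) ≤
        ((G3 (ra (RS z0 (WW c) b) (i + 1)) (RS z0 (WW c) b) n (YY n) (YY n + LL n)).card : ℝ) := by
      exact_mod_cast a5
    linarith

end Pool.Agent.H531.IX
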