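import Pool.Agent.H531.IX.Stm5

set_option autoImplicit false

/-!
# `S_ONE5`: one summand with iterated index in a window
-/

open Finset MeasureTheory ProbabilityTheory Filter Topology

namespace Pool.Agent.H531.IX

open Pool.Agent.T2H32.BF (Model z0 V z0_mono z0_lim)
open Pool.Agent.H559.BS (Limit)
open Pool.Agent.H559.HY (OK WW Cut)
open Pool.Agent.T2H32.GB (C2)

namespace ONE5N

/-- the elements of an interval in one class -/
theorem cls (n x L q r : ℕ) (hq : 0 < q) (h : x + L ≤ 2 * n) :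
    ((Ioc x (x + L)).filter fun v => (2 * n - v) % q = r).card ≤ L / q + 1 := by
  have h1 : ((Ioc x (x + L)).filter fun v => (2 * n - v) % q = r).card ≤ (range (L / q + 1)).card := by
    refine card_le_card_of_injOn (fun v => (v - x - 1) / q) (fun v hv => ?_) ?_
    · simp only [coe_filter, mem_Ioc, Set.mem_ofPred_eq] at hv
      simp only [coe_range, Set.mem_Iio]
      have : (v - x - 1) / q ≤ L / q := Nat.div_le_div_right (by omega)
      omega
    · have key : ∀ v w : ℕ, x < v → w ≤ x + L → (2 * n - v) % q = r → (2 * n - w) % q = r → v ≤ w →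
          (v - x - 1) / q = (w - x - 1) / q → v = w := by
        intro v w hv hw hv2 hw2 hle hvw
        have h2 : q ∣ w - v := by
          have h3 : (2 * n - w) % q = (2 * n - v) % q := by rw [hv2, hw2]
          have h4 := (Nat.modEq_iff_dvd' (by omega : 2 * n - w ≤ 2 * n - v)).1 h3
          rwa [show 2 * n - v - (2 * n - w) = w - v by omega] at h4
        obtain ⟨k, hk⟩ := h2
        rcases Nat.eq_zero_or_pos k with h3 | h3
        · subst h3
          omega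
        · exfalso
          have h4 : w - x - 1 = (v - x - 1) + q * k := by omega
          rw [h4, Nat.add_mul_div_left _ _ hq] at hvw
          omega
      intro v hv w hw hvw
      simp only [coe_filter, mem_Ioc, Set.mem_ofPred_eq] at hv hw
      simp only at hvw
      rcases le_total v w with hle | hle
      · exact key v w hv.1.1 hw.1.2 hv.2 hw.2 hle hvw
      · exact (key w v hw.1.1 hv.1.2 hw.2 hv.2 hle hvw.symm).symm
  rwa [card_range] at h1

theorem loss (W : ℕ → ℕ) (b : ℕ → ℕ) (n k x L : ℕ)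
    (hW : ∀ v, x < v → v ≤ x + L → W (2 * n - v) ≤ z0 x) (h : x + L ≤ 2 * n) :
    ((G1 W n k (z0 x) x (x + L) b).card : ℝ) ≤ (G1 W n k (z0 (x + L)) x (x + L) b).card +
      (L + z0 (x + L)) * ∑ q ∈ fr z0 x (x + L), 1 / (q : ℝ) := by
  classical
  have hsub : G1 W n k (z0 x) x (x + L) b ⊆ G1 W n k (z0 (x + L)) x (x + L) b ∪
      (fr z0 x (x + L)).biUnion fun q => (Ioc x (x + L)).filter fun v => (2 * n - v) % q = b q := by
    intro v hv
    unfold G1 at hv ⊢
    rw [mem_filter, mem_Ioc] at hv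
    obtain ⟨⟨h1, h2⟩, h3, h4⟩ := hv
    rw [mem_union]
    by_cases h5 : Sv W (z0 (x + L)) b (2 * n - v)
    · left
      rw [mem_filter, mem_Ioc]
      exact ⟨⟨h1, h2⟩, h3, h5⟩
    · right
      unfold Sv at h5
      push Not at h5
      obtain ⟨q, hq, hqp, hqe⟩ := h5
      have h6 : z0 x < q := by
        by_contra h7
        exact h4 q (by omega) hqp hqe
      have h7 : ¬ q ≤ W (2 * n - v) := by
        have := hW v h1 h2
        omega
      rw [if_neg h7] at hqe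
      rw [mem_biUnion]
      refine ⟨q, ?_, ?_⟩
      · unfold fr
        rw [mem_filter, mem_Ioc]
        exact ⟨⟨h6, hq⟩, hqp⟩
      · rw [mem_filter, mem_Ioc]
        exact ⟨⟨h1, h2⟩, hqe⟩
  have h1 := card_le_card hsub
  have h2 := h1.trans (card_union_le _ _)
  have h3 : (((fr z0 x (x + L)).biUnion fun q => (Ioc x (x + L)).filter fun v => (2 * n - v) % q = b q).card : ℝ) ≤
      (L + z0 (x + L)) * ∑ q ∈ fr z0 x (x + L), 1 / (q : ℝ) := by
    have h4 : (((fr z0 x (x + L)).biUnion fun q => (Ioc x (x + L)).filter fun v => (2 * n - v) % q = b q).card : ℝ) ≤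
        ∑ q ∈ fr z0 x (x + L), (((Ioc x (x + L)).filter fun v => (2 * n - v) % q = b q).card : ℝ) := by
      exact_mod_cast card_biUnion_le
    refine h4.trans ?_
    rw [mul_sum]
    refine sum_le_sum fun q hq => ?_
    unfold fr at hq
    rw [mem_filter, mem_Ioc] at hq
    have hq0 : (0 : ℝ) < q := by exact_mod_cast hq.2.pos
    have h5 : (((Ioc x (x + L)).filter fun v => (2 * n - v) % q = b q).card : ℝ) ≤ ((L / q : ℕ) : ℝ) + 1 := by
      exact_mod_cast cls n x L q (b q) hq.2.pos h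
    have h6 : ((L / q : ℕ) : ℝ) ≤ L / q := Nat.cast_div_le
    have h7 : (1 : ℝ) ≤ z0 (x + L) / q := by
      rw [le_div_iff₀ hq0, one_mul]
      exact_mod_cast hq.1.2
    calc (((Ioc x (x + L)).filter fun v => (2 * n - v) % q = b q).card : ℝ) ≤ L / q + z0 (x + L) / q := by linarith
      _ = (L + z0 (x + L)) * (1 / (q : ℝ)) := by ring
  have h5 : ((G1 W n k (z0 x) x (x + L) b).card : ℝ) ≤ (G1 W n k (z0 (x + L)) x (x + L) b).card +
      ((fr z0 x (x + L)).biUnion fun q => (Ioc x (x + L)).filter fun v => (2 * n - v) % q = b q).card := by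
    exact_mod_cast h2
  linarith

/-- powers of the logarithm are small -/
theorem lw (K : ℝ) (j : ℕ) {a b : ℝ} (h : a < b) :
    ∀ᶠ n : ℕ in atTop, K * Real.log n ^ j * (n : ℝ) ^ a ≤ (n : ℝ) ^ b := by
  have h1 := (isLittleO_log_rpow_rpow_atTop (j : ℝ) (show 0 < b - a by linarith)).bound
    (show 0 < 1 / (|K| + 1) by positivity)
  have h2 := tendsto_natCast_atTop_atTop.eventually h1
  filter_upwards [h2, eventually_ge_atTop 1] with n h3 hn1
  have hn : (0 : ℝ) < n := by exact_mod_cast hn1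
  rw [Real.norm_eq_abs, Real.norm_eq_abs, Real.rpow_natCast,
    abs_of_nonneg (Real.rpow_nonneg (Nat.cast_nonneg n) _)] at h3
  have h4 : 0 ≤ (n : ℝ) ^ a := Real.rpow_nonneg hn.le a
  have h5 : (n : ℝ) ^ (b - a) * (n : ℝ) ^ a = (n : ℝ) ^ b := by
    rw [← Real.rpow_add hn, sub_add_cancel]
  calc K * Real.log n ^ j * (n : ℝ) ^ a ≤ |K * Real.log n ^ j| * (n : ℝ) ^ a :=
        mul_le_mul_of_nonneg_right (le_abs_self _) h4
    _ = |K| * |Real.log n ^ j| * (n : ℝ) ^ a := by rw [abs_mul]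
    _ ≤ |K| * (1 / (|K| + 1) * (n : ℝ) ^ (b - a)) * (n : ℝ) ^ a :=
        mul_le_mul_of_nonneg_right (mul_le_mul_of_nonneg_left h3 (abs_nonneg _)) h4
    _ = (|K| / (|K| + 1)) * ((n : ℝ) ^ (b - a) * (n : ℝ) ^ a) := by ring
    _ ≤ 1 * ((n : ℝ) ^ (b - a) * (n : ℝ) ^ a) := by
        refine mul_le_mul_of_nonneg_right ?_ (by rw [h5]; positivity)
        rw [div_le_one (by positivity)]
        linarith
    _ = (n : ℝ) ^ b := by rw [one_mul, h5]

/-- facts on the count -/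
theorem F1 (A : Set ℕ) (h : Tendsto (fun x : ℕ => (pin A x : ℝ) * Real.log x / x) atTop (𝓝 1)) :
    ∀ᶠ x : ℕ in atTop, (x : ℝ) ≤ 2 * (pin A x * Real.log x) ∧ 8 * (pin A x : ℝ) ≤ x := by
  have h16 : ∀ᶠ x : ℕ in atTop, (16 : ℝ) ≤ Real.log x :=
    (Real.tendsto_log_atTop.comp tendsto_natCast_atTop_atTop).eventually_ge_atTop 16
  filter_upwards [h.eventually_const_lt (show (1 / 2 : ℝ) < 1 by norm_num),
    h.eventually_lt_const (show (1 : ℝ) < 2 by norm_num), h16,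
    eventually_ge_atTop 1] with x h1 h2 h4 h5
  have hx : (0 : ℝ) < x := by exact_mod_cast h5
  rw [lt_div_iff₀ hx] at h1
  rw [div_lt_iff₀ hx] at h2
  have hp : (0 : ℝ) ≤ pin A x := Nat.cast_nonneg _
  constructor
  · linarith
  · have h6 : (pin A x : ℝ) * 16 ≤ pin A x * Real.log x := mul_le_mul_of_nonneg_left h4 hp
    linarith

/-- the numerical facts for one `n` -/
structure Num (C i M X0 n : ℕ) : Prop where
  n3 : 3 ≤ n
  ll : 8 * (M : ℝ) ≤ Real.log n
  l10 : 10 ≤ Real.log n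
  a2 : (M : ℝ) * Real.log n ^ (i + 3) * ((n : ℝ) ^ (0.99 : ℝ) + (n : ℝ) ^ (0.9 : ℝ)) ≤ (n : ℝ) ^ (0.995 : ℝ)
  a3 : Real.log n ^ (i + 4) * (n : ℝ) ^ (-(0.4 : ℝ)) ≤ 1
  a4 : (n : ℝ) ^ (0.61 : ℝ) ≤ (n : ℝ) ^ (0.995 : ℝ)
  a6 : Real.log n ^ C * (n : ℝ) ^ (0.9 : ℝ) ≤ n
  a7 : (X0 : ℝ) ≤ (n : ℝ) ^ (0.9 : ℝ)
  a8 : 2 * Real.log n ^ (i + 1) ≤ (n : ℝ) ^ (0.0009 : ℝ)
  a9 : (n : ℝ) ^ (0.004 : ℝ) + 1 ≤ (n : ℝ) ^ (0.0045 : ℝ)
  a10 : 4 * Real.log n ^ (C + 1) * ((n : ℝ) ^ (0.005 : ℝ) + 1) ≤ n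
  a11 : (2 * n : ℝ) ^ (0.1 : ℝ) ≤ (n : ℝ) ^ (0.5 : ℝ)
  a12 : (n : ℝ) ^ (0.005 : ℝ) ≤ (n : ℝ) ^ (0.1 : ℝ)

theorem num (C i M X0 : ℕ) : ∀ᶠ n : ℕ in atTop, Num C i M X0 n := by
  have hlog : ∀ r : ℝ, ∀ᶠ n : ℕ in atTop, r ≤ Real.log n := fun r =>
    (Real.tendsto_log_atTop.comp tendsto_natCast_atTop_atTop).eventually_ge_atTop r
  filter_upwards [eventually_ge_atTop 3, hlog (8 * M), hlog 10,
    lw (2 * M) (i + 3) (a := 0.99) (b := 0.995) (by norm_num),
    lw (2 * M) (i + 3) (a := 0.9) (b := 0.995) (by norm_num),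
    lw 1 (i + 4) (a := -0.4) (b := 0) (by norm_num),
    lw 1 0 (a := 0.61) (b := 0.995) (by norm_num),
    lw 1 C (a := 0.9) (b := 1) (by norm_num),
    lw X0 0 (a := 0) (b := 0.9) (by norm_num),
    lw 2 (i + 1) (a := 0) (b := 0.0009) (by norm_num),
    lw 2 0 (a := 0.004) (b := 0.0045) (by norm_num),
    lw 8 (C + 1) (a := 0.005) (b := 1) (by norm_num),
    lw 8 (C + 1) (a := 0) (b := 1) (by norm_num),
    lw 2 0 (a := 0.1) (b := 0.5) (by norm_num),
    lw 1 0 (a := 0.005) (b := 0.1) (by norm_num)] with n n3 l1 l2 p1 p2 p3 p4 p5 p6 p7 p8 p9 p10 p11 p12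
  have hnr : (3 : ℝ) ≤ n := by exact_mod_cast n3
  have hn0 : (0 : ℝ) < n := by linarith
  rw [Real.rpow_zero, one_mul] at p3
  rw [pow_zero, one_mul, one_mul] at p4 p12
  rw [Real.rpow_one, one_mul] at p5
  rw [Real.rpow_zero, pow_zero, mul_one, mul_one] at p6
  rw [Real.rpow_zero, mul_one] at p7
  rw [pow_zero, mul_one] at p8 p11
  rw [Real.rpow_one] at p9
  rw [Real.rpow_one, Real.rpow_zero, mul_one] at p10
  have hone : (1 : ℝ) ≤ (n : ℝ) ^ (0.004 : ℝ) := Real.one_le_rpow (by linarith) (by norm_num)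
  refine ⟨n3, l1, l2, by linarith, by simpa using p3, p4, p5, p6, p7, by linarith, by linarith, ?_, p12⟩
  rw [Real.mul_rpow (by norm_num) hn0.le]
  have h1 : (2 : ℝ) ^ (0.1 : ℝ) ≤ 2 ^ (1 : ℝ) := Real.rpow_le_rpow_of_exponent_le (by norm_num) (by norm_num)
  rw [Real.rpow_one] at h1
  have h2 : 0 ≤ (n : ℝ) ^ (0.1 : ℝ) := by positivity
  exact (mul_le_mul_of_nonneg_right h1 h2).trans p11

/-- the final combination -/
theorem fin {δ' δ L Fk F0 gk2 gkx gku g02 g0x g0u Δ E9 E99 : ℝ} (hδ0 : 0 ≤ δ') (hδ1 : δ' ≤ δ)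
    (hδ2 : δ ≤ 1 / 10) (hL : 1 ≤ L) (hgkx : 0 ≤ gkx) (hg0x : 0 ≤ g0x) (hF0 : 0 ≤ F0)
    (hΔ : 0 ≤ Δ) (hE9 : 0 ≤ E9) (hE99 : 0 ≤ E99) (d1 : gk2 ≤ Fk) (d2 : Fk ≤ gkx) (d3 : g02 ≤ F0) (d4 : F0 ≤ g0x)
    (c1 : (1 - δ') * gkx - E9 ≤ gk2) (c2 : (1 - δ') * g0x - E9 ≤ g02) (b1 : gkx ≤ gku) (b2 : gku ≤ gkx + Δ)
    (b3 : g0x ≤ g0u) (b4 : g0u ≤ g0x + Δ) (a1 : gku ≤ (1 + δ') * ((1 + δ) / L * g0u) + E99)
    (a2 : (1 - δ') * ((1 - δ) / L * g0u) - E99 ≤ gku) :
    |Fk - F0 / L| ≤ 4 * δ * (F0 / L) + 2 * (E9 + Δ + E99) := by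
  have hL0 : 0 < L := by linarith
  obtain ⟨a, ha⟩ : ∃ a : ℝ, a = 1 / L := ⟨_, rfl⟩
  have ha0 : 0 ≤ a := by rw [ha]; positivity
  have ha1 : a ≤ 1 := by rw [ha, div_le_one hL0]; exact hL
  have e1 : F0 / L = a * F0 := by rw [ha]; ring
  have e2 : (1 + δ) / L = a * (1 + δ) := by rw [ha]; ring
  have e3 : (1 - δ) / L = a * (1 - δ) := by rw [ha]; ring
  rw [e1]
  rw [e2] at a1
  rw [e3] at a2
  have hδ : 0 ≤ δ := hδ0.trans hδ1
  have hg0u : 0 ≤ g0u := hg0x.trans b3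
  rw [abs_le]
  constructor
  · -- lower bound
    have s1 : (1 - δ) * gkx ≤ (1 - δ') * gkx := mul_le_mul_of_nonneg_right (by linarith) hgkx
    have s2 : (1 - δ) * (a * (1 - δ) * g0u) ≤ (1 - δ') * (a * (1 - δ) * g0u) :=
      mul_le_mul_of_nonneg_right (by linarith) (mul_nonneg (mul_nonneg ha0 (by linarith)) hg0u)
    have s3 : (1 - δ) * (gku - Δ) ≤ (1 - δ) * gkx := mul_le_mul_of_nonneg_left (by linarith) (by linarith)
    have s4 : (1 - δ) * ((1 - δ) * (a * (1 - δ) * g0u) - E99 - Δ) ≤ (1 - δ) * (gku - Δ) :=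
      mul_le_mul_of_nonneg_left (by linarith) (by linarith)
    have s5 : F0 ≤ g0u := d4.trans b3
    have s6 : a * (1 - δ) ^ 3 * F0 ≤ a * (1 - δ) ^ 3 * g0u :=
      mul_le_mul_of_nonneg_left s5 (mul_nonneg ha0 (pow_nonneg (by linarith) 3))
    have s7 : (1 - 4 * δ) * (a * F0) ≤ (1 - δ) ^ 3 * (a * F0) := by
      refine mul_le_mul_of_nonneg_right ?_ (mul_nonneg ha0 hF0)
      nlinarith [sq_nonneg δ, mul_nonneg hδ (sq_nonneg δ)]
    have s8 : (1 - δ) * (E99 + Δ) ≤ 1 * (E99 + Δ) := mul_le_mul_of_nonneg_right (by linarith) (by linarith)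
    linarith
  · -- upper bound
    have s1 : (1 - δ) * g0x ≤ (1 - δ') * g0x := mul_le_mul_of_nonneg_right (by linarith) hg0x
    have s2 : (1 - δ) * g0x ≤ F0 + E9 := by linarith
    have s3 : (1 + δ) ^ 2 * g0x ≤ (1 + 4 * δ) * ((1 - δ) * g0x) := by
      have : (1 + δ) ^ 2 ≤ (1 + 4 * δ) * (1 - δ) := by nlinarith
      calc (1 + δ) ^ 2 * g0x ≤ (1 + 4 * δ) * (1 - δ) * g0x := mul_le_mul_of_nonneg_right this hg0x
        _ = (1 + 4 * δ) * ((1 - δ) * g0x) := by ring
    have s4 : (1 + 4 * δ) * ((1 - δ) * g0x) ≤ (1 + 4 * δ) * (F0 + E9) :=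
      mul_le_mul_of_nonneg_left s2 (by linarith)
    have s5 : (1 + δ') * (a * (1 + δ) * g0u) ≤ (1 + δ) * (a * (1 + δ) * g0u) :=
      mul_le_mul_of_nonneg_right (by linarith) (mul_nonneg (mul_nonneg ha0 (by linarith)) hg0u)
    have s6 : (1 + δ) ^ 2 * g0u ≤ (1 + δ) ^ 2 * (g0x + Δ) := mul_le_mul_of_nonneg_left b4 (sq_nonneg _)
    have s7 : (1 + δ) ^ 2 * Δ ≤ 2 * Δ := mul_le_mul_of_nonneg_right (by nlinarith) hΔ
    have s8 : (1 + 4 * δ) * E9 ≤ 2 * E9 := mul_le_mul_of_nonneg_right (by linarith) hE9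
    have s9 : a * ((1 + δ) ^ 2 * g0u) ≤ a * ((1 + 4 * δ) * F0 + (2 * E9 + 2 * Δ)) :=
      mul_le_mul_of_nonneg_left (by linarith) ha0
    have s10 : a * (2 * E9 + 2 * Δ) ≤ 1 * (2 * E9 + 2 * Δ) := mul_le_mul_of_nonneg_right ha1 (by linarith)
    linarith

end ONE5N

theorem one5 : S_ONE5 := by
  classical
  intro hwin hcnt hnth hcbe hrga hsq hsmall c c₂ hc hc₂ hC2 b hOK hLV hTH k C ε hε
  rcases k with _ | i
  · refine Eventually.of_forall fun n u y _ _ _ _ => ?_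
    have h0 : ra (RS z0 (WW c) b) 0 = RS z0 (WW c) b := rfl
    rw [h0, pow_zero, div_one, sub_self, abs_zero]
    positivity
  · have hLim : Limit z0 := ⟨z0_mono, z0_lim⟩
    obtain ⟨hW1, hW2, -⟩ := hsmall c (by linarith)
    obtain ⟨M, hM⟩ : ∃ M : ℕ, max 10 (4 / ε) ≤ (M : ℝ) := exists_nat_ge _
    have hM10 : (10 : ℝ) ≤ M := (le_max_left _ _).trans hM
    have hMε : 4 / ε ≤ M := (le_max_right _ _).trans hM
    have hM0 : (0 : ℝ) < M := by linarith
    have hM10n : 10 ≤ M := by exact_mod_cast hM10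
    have hM10q : (10 : ℚ) ≤ M := by exact_mod_cast hM10n
    have hδε : 4 * (1 / (M : ℝ)) ≤ ε := by
      rw [div_le_iff₀ hε] at hMε
      rw [mul_one_div, div_le_iff₀ hM0]
      linarith
    have hδ10 : 1 / (M : ℝ) ≤ 1 / 10 := one_div_le_one_div_of_le (by norm_num) hM10
    have hδ0 : 0 < 1 / (M : ℝ) := by positivity
    have hr1 : (0 : ℚ) < 1 + 1 / (M : ℚ) := by positivity
    have hr2 : (0 : ℚ) < 1 - 1 / (M : ℚ) := by
      have : 1 / (M : ℚ) ≤ 1 / 10 := one_div_le_one_div_of_le (by norm_num) hM10q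
      linarith
    have hc1 : (((1 + 1 / (M : ℚ) : ℚ)) : ℝ) = 1 + 1 / (M : ℝ) := by push_cast; ring
    have hc2 : (((1 - 1 / (M : ℚ) : ℚ)) : ℝ) = 1 - 1 / (M : ℝ) := by push_cast; ring
    have hpin := ONE5N.F1 _ (hcnt hwin z0 hLim c c₂ hc hC2 b hOK).1
    have hXs : ∀ᶠ X : ℕ in atTop, 3 * (X : ℝ) ^ (0.511 : ℝ) + (X : ℝ) ^ (0.005 : ℝ) ≤ X / 2 := by
      filter_upwards [ONE5N.lw 12 0 (a := 0.511) (b := 1) (by norm_num),
        ONE5N.lw 4 0 (a := 0.005) (b := 1) (by norm_num)] with X h1 h2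
      rw [pow_zero, mul_one, Real.rpow_one] at h1 h2
      linarith
    obtain ⟨X0, hX0⟩ := eventually_atTop.1 ((((hLV i 0 M _ hr1).and (hLV i 0 M _ hr2)).and
      ((hcbe hwin hcnt c c₂ hc hC2 b hOK).and hpin)).and (hXs.and (eventually_ge_atTop 1)))
    have h2top : Tendsto (fun n : ℕ => 2 * n) atTop atTop :=
      tendsto_atTop_mono (fun n => by
        show n ≤ 2 * n
        omega) tendsto_id
    filter_upwards [ONE5N.num C i M X0, hTH C (i + 1) M, hTH C 0 M,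
      hrga hwin hcnt hnth c c₂ hc hC2 b hOK i (C + 2) 0.004 (1 / M) (by norm_num) hδ0,
      hsq C 1 one_pos, h2top.eventually hW1] with n hn e1 e2 e3 e4 e5
    intro u y hu hy hyu huy
    obtain ⟨n3, l8, l10, a2, a3, a4, a6, a7, a8, a9, a10, a11, a12⟩ := hn
    have hnr : (3 : ℝ) ≤ n := by exact_mod_cast n3
    have hn0 : (0 : ℝ) < n := by linarith
    have hl0 : 0 < Real.log n := by linarith
    have hl1 : 1 ≤ Real.log n := by linarith
    have hu9 : (n : ℝ) ^ (0.9 : ℝ) ≤ u := by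
      refine le_trans ?_ hu
      rw [le_div_iff₀ (by positivity)]
      linarith
    have huC : (n : ℝ) ≤ u * Real.log n ^ C := by
      rw [div_le_iff₀ (by positivity)] at hu
      exact hu
    have hn9 : 0 < (n : ℝ) ^ (0.9 : ℝ) := Real.rpow_pos_of_pos hn0 _
    have hu0 : (0 : ℝ) < u := lt_of_lt_of_le hn9 hu9
    have hXu : X0 ≤ u := by
      have : (X0 : ℝ) ≤ u := a7.trans hu9
      exact_mod_cast this
    obtain ⟨⟨⟨f1, f2⟩, f3, f4⟩, f5, f6⟩ := hX0 u hXu
    have f7 := (hX0 (u + y) (by omega)).1.2.2.2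
    have hyu' : (y : ℝ) ≤ u := hyu.trans (div_le_self (Nat.cast_nonneg u) (one_le_pow₀ hl1))
    have hyun : y ≤ u := by exact_mod_cast hyu'
    have hunn : u ≤ n := by omega
    have hun : (u : ℝ) ≤ n := by exact_mod_cast hunn
    have hx2 : u + y ≤ 2 * u := by omega
    have hy0 : (0 : ℝ) ≤ y := Nat.cast_nonneg y
    have hpx : (pin (RS z0 (WW c) b) (u + y) : ℝ) ≤ u / 4 := by
      push_cast at f7
      linarith
    have hpxn : pin (RS z0 (WW c) b) (u + y) ≤ u := by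
      have : (pin (RS z0 (WW c) b) (u + y) : ℝ) ≤ u := by linarith
      exact_mod_cast this
    have hnu2 : n ≤ u ^ 2 := by
      have h1 : (n : ℝ) ≤ (n : ℝ) ^ (0.9 : ℝ) * (n : ℝ) ^ (0.9 : ℝ) := by
        rw [← Real.rpow_add hn0]
        calc (n : ℝ) = (n : ℝ) ^ (1 : ℝ) := (Real.rpow_one _).symm
          _ ≤ (n : ℝ) ^ ((0.9 : ℝ) + 0.9) := Real.rpow_le_rpow_of_exponent_le (by linarith) (by norm_num)
      have h2 : (n : ℝ) ≤ (u : ℝ) ^ 2 := by
        rw [sq]
        exact h1.trans (mul_le_mul hu9 hu9 hn9.le hu0.le)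
      exact_mod_cast h2
    have hlogu : Real.log u ≤ Real.log n := Real.log_le_log hu0 hun
    have hLi : (10 : ℝ) ≤ Real.log n ^ (i + 1) := l10.trans (le_self_pow₀ hl1 (by omega))
    have hLi0 : 0 < Real.log n ^ (i + 1) := by positivity
    -- the clamp
    have hcl : ∀ r : ℝ, 1 / 2 ≤ r → r ≤ 2 →
        cl u (r / Real.log n ^ (i + 1)) = r / Real.log n ^ (i + 1) := by
      intro r hr1 hr2
      unfold cl
      have h1 : r / Real.log n ^ (i + 1) ≤ 1 := by
        rw [div_le_one hLi0]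
        linarith
      have h2 : (u : ℝ) ^ (-(0.001 : ℝ)) ≤ r / Real.log n ^ (i + 1) := by
        calc (u : ℝ) ^ (-(0.001 : ℝ)) ≤ ((n : ℝ) ^ (0.9 : ℝ)) ^ (-(0.001 : ℝ)) :=
              Real.rpow_le_rpow_of_nonpos hn9 hu9 (by norm_num)
          _ = ((n : ℝ) ^ (0.0009 : ℝ))⁻¹ := by
              rw [← Real.rpow_mul hn0.le, ← Real.rpow_neg hn0.le]
              norm_num
          _ ≤ (2 * Real.log n ^ (i + 1))⁻¹ := inv_anti₀ (by positivity) a8
          _ = (1 / 2) / Real.log n ^ (i + 1) := by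
              rw [mul_inv]
              ring
          _ ≤ r / Real.log n ^ (i + 1) := div_le_div_of_nonneg_right hr1 hLi0.le
      rw [min_eq_left h1, max_eq_right h2]
    have hcl1 := hcl (1 + 1 / (M : ℝ)) (by linarith) (by linarith)
    have hcl2 := hcl (1 - 1 / (M : ℝ)) (by linarith) (by linarith)
    -- the windows of the indices
    have hhu : (hX u : ℝ) ≤ (u : ℝ) ^ (0.005 : ℝ) := Nat.floor_le (by positivity)
    have huu : (uX u : ℝ) ≤ (u : ℝ) ^ (0.511 : ℝ) := Nat.floor_le (by positivity)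
    have hhn : (hX u : ℝ) ≤ (n : ℝ) ^ (0.005 : ℝ) :=
      hhu.trans (Real.rpow_le_rpow hu0.le hun (by norm_num))
    have hhl : (n : ℝ) ^ (0.004 : ℝ) ≤ hX u := by
      have h1 : (u : ℝ) ^ (0.005 : ℝ) < hX u + 1 := Nat.lt_floor_add_one _
      have h2 : (n : ℝ) ^ (0.0045 : ℝ) ≤ (u : ℝ) ^ (0.005 : ℝ) := by
        calc (n : ℝ) ^ (0.0045 : ℝ) = ((n : ℝ) ^ (0.9 : ℝ)) ^ (0.005 : ℝ) := by
              rw [← Real.rpow_mul hn0.le]
              norm_num
          _ ≤ (u : ℝ) ^ (0.005 : ℝ) := Real.rpow_le_rpow hn9.le hu9 (by norm_num)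
      linarith
    have hhpos : (0 : ℝ) < hX u := lt_of_lt_of_le (Real.rpow_pos_of_pos hn0 _) hhl
    have hreg : ∀ j, pin (RS z0 (WW c) b) u ≤ j + hX u + 1 →
        j ≤ pin (RS z0 (WW c) b) (u + y) + 3 * uX u →
        ((ra (RS z0 (WW c) b) i ∩ Set.Iic u ∩ Set.Ioc j (j + hX u)).ncard : ℝ) ≤
          (1 + 1 / (M : ℝ)) / Real.log n ^ (i + 1) * hX u ∧
        (1 - 1 / (M : ℝ)) / Real.log n ^ (i + 1) * hX u ≤
          ((ra (RS z0 (WW c) b) i ∩ Set.Iic u ∩ Set.Ioc j (j + hX u)).ncard : ℝ) := by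
      intro j h1 h2
      have h1' : (pin (RS z0 (WW c) b) u : ℝ) ≤ j + hX u + 1 := by exact_mod_cast h1
      have h2' : (j : ℝ) ≤ pin (RS z0 (WW c) b) (u + y) + 3 * uX u := by exact_mod_cast h2
      have h5 : (j : ℝ) + hX u ≤ u := by linarith
      have h6 : j + hX u ≤ u := by exact_mod_cast h5
      have h7 : ra (RS z0 (WW c) b) i ∩ Set.Iic u ∩ Set.Ioc j (j + hX u) =
          ra (RS z0 (WW c) b) i ∩ Set.Ioc j (j + hX u) := by
        ext v
        simp only [Set.mem_inter_iff, Set.mem_Iic, Set.mem_Ioc]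
        constructor
        · rintro ⟨⟨g1, g2⟩, g3⟩
          exact ⟨g1, g3⟩
        · rintro ⟨g1, g2, g3⟩
          exact ⟨⟨g1, by omega⟩, g2, g3⟩
      rw [h7]
      have h8 : (n : ℝ) / Real.log n ^ (C + 2) ≤ j := by
        rw [div_le_iff₀ (by positivity)]
        have hP : 0 < Real.log n ^ C := by positivity
        have g1 : (u : ℝ) ≤ 2 * (pin (RS z0 (WW c) b) u * Real.log n) := by
          have g2 : (pin (RS z0 (WW c) b) u : ℝ) * Real.log u ≤
              pin (RS z0 (WW c) b) u * Real.log n :=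
            mul_le_mul_of_nonneg_left hlogu (Nat.cast_nonneg _)
          linarith [f4.1]
        have g3 : (n : ℝ) ≤ 2 * (pin (RS z0 (WW c) b) u * Real.log n) * Real.log n ^ C :=
          huC.trans (mul_le_mul_of_nonneg_right g1 hP.le)
        have g4 : (pin (RS z0 (WW c) b) u : ℝ) * (4 * Real.log n ^ (C + 1)) ≤
            (j + hX u + 1) * (4 * Real.log n ^ (C + 1)) :=
          mul_le_mul_of_nonneg_right h1' (by positivity)
        have g5 : ((hX u : ℝ) + 1) * (4 * Real.log n ^ (C + 1)) ≤ n := by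
          refine le_trans ?_ a10
          rw [mul_comm]
          exact mul_le_mul_of_nonneg_left (by linarith) (by positivity)
        have g6 : (pin (RS z0 (WW c) b) u : ℝ) * (4 * Real.log n ^ (C + 1)) =
            2 * (2 * (pin (RS z0 (WW c) b) u * Real.log n) * Real.log n ^ C) := by
          rw [pow_succ]
          ring
        have g7 : (n : ℝ) ≤ j * (4 * Real.log n ^ (C + 1)) := by linarith
        calc (n : ℝ) ≤ j * (4 * Real.log n ^ (C + 1)) := g7
          _ ≤ j * (Real.log n * Real.log n ^ (C + 1)) := by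
              refine mul_le_mul_of_nonneg_left ?_ (Nat.cast_nonneg _)
              exact mul_le_mul_of_nonneg_right (by linarith) (by positivity)
          _ = j * Real.log n ^ (C + 2) := by
              rw [pow_succ _ (C + 1)]
              ring
      have h9 : (j : ℝ) ≤ n * Real.log n ^ (C + 2) := by
        have g1 : (j : ℝ) ≤ n := by linarith
        exact g1.trans (le_mul_of_one_le_right hn0.le (one_le_pow₀ hl1))
      have h10 := e3 j (hX u) h8 h9 hhl (hhn.trans a12)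
      rw [abs_le] at h10
      obtain ⟨h11, h12⟩ := h10
      generalize ((ra (RS z0 (WW c) b) i ∩ Set.Ioc j (j + hX u)).ncard : ℝ) = N at h11 h12 ⊢
      constructor
      · have h13 : N * Real.log n ^ (i + 1) / hX u ≤ 1 + 1 / (M : ℝ) := by linarith
        rw [div_le_iff₀ hhpos] at h13
        rw [div_mul_eq_mul_div, le_div_iff₀ hLi0]
        exact h13
      · have h13 : 1 - 1 / (M : ℝ) ≤ N * Real.log n ^ (i + 1) / hX u := by linarith
        rw [le_div_iff₀ hhpos] at h13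
        rw [div_mul_eq_mul_div, div_le_iff₀ hLi0]
        exact h13
    -- the index law
    have k1 := ((f1 f3 n (u + y) hnu2 (Nat.le_add_right _ _) hx2).1 (fun j h1 h2 => by
      rw [hc1, hcl1]
      exact (hreg j h1 h2).1) hpxn).1
    have k2 := ((f2 f3 n (u + y) hnu2 (Nat.le_add_right _ _) hx2).2 (fun j h1 h2 => by
      rw [hc2, hcl2]
      exact (hreg j h1 h2).2)).1
    rw [hc1, hcl1] at k1
    rw [hc2, hcl2] at k2
    -- comparison of the sieves
    have hG1 : ∀ e s s' : ℕ, s ≤ s' → ((G1 (WW c) n e s' u (u + y) b).card : ℝ) ≤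
        (G1 (WW c) n e s u (u + y) b).card := by
      intro e s s' hs
      have : (G1 (WW c) n e s' u (u + y) b).card ≤ (G1 (WW c) n e s u (u + y) b).card := by
        refine card_le_card fun v hv => ?_
        unfold G1 at hv ⊢
        rw [mem_filter, mem_Ioc] at hv ⊢
        obtain ⟨⟨g1, g2⟩, g3, g4⟩ := hv
        exact ⟨⟨g1, g2⟩, g3, fun q hq hqp => g4 q (hq.trans hs) hqp⟩
      exact_mod_cast this
    have hd2 : ∀ e, ((G3 (ra (RS z0 (WW c) b) e) (RS z0 (WW c) b) n u (u + y)).card : ℝ) ≤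
        (G1 (WW c) n e (z0 (u + y)) u (u + y) b).card := by
      intro e
      have : (G3 (ra (RS z0 (WW c) b) e) (RS z0 (WW c) b) n u (u + y)).card ≤
          (G1 (WW c) n e (z0 (u + y)) u (u + y) b).card := by
        refine card_le_card fun v hv => ?_
        unfold G3 at hv
        unfold G1
        rw [mem_filter, mem_Ioc] at hv ⊢
        obtain ⟨⟨g1, g2⟩, g3, g4⟩ := hv
        refine ⟨⟨g1, g2⟩, g3, fun q hq hqp => ?_⟩
        exact g4.2 q (hq.trans (z0_mono (by omega))) hqp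
      exact_mod_cast this
    have hd1 : ∀ e, ((G1 (WW c) n e (z0 (2 * n)) u (u + y) b).card : ℝ) ≤
        (G3 (ra (RS z0 (WW c) b) e) (RS z0 (WW c) b) n u (u + y)).card := by
      intro e
      have : (G1 (WW c) n e (z0 (2 * n)) u (u + y) b).card ≤
          (G3 (ra (RS z0 (WW c) b) e) (RS z0 (WW c) b) n u (u + y)).card := by
        refine card_le_card fun v hv => ?_
        unfold G1 at hv
        unfold G3
        rw [mem_filter, mem_Ioc] at hv ⊢
        obtain ⟨⟨g1, g2⟩, g3, g4⟩ := hv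
        refine ⟨⟨g1, g2⟩, g3, by omega, fun q hq hqp => ?_⟩
        exact g4 q (hq.trans (z0_mono (Nat.sub_le _ _))) hqp
      exact_mod_cast this
    obtain ⟨q1, q2, q3, -⟩ := e4 u y hu huy.le
    have hloss : ∀ e, ((G1 (WW c) n e (z0 u) u (u + y) b).card : ℝ) ≤
        (G1 (WW c) n e (z0 (u + y)) u (u + y) b).card +
          (y + z0 (u + y)) * ∑ q ∈ fr z0 u (u + y), 1 / (q : ℝ) := fun e =>
      ONE5N.loss (WW c) b n e u y (fun v hv1 hv2 => by
        have h1 : WW c (2 * n - v) ≤ WW c (2 * n) := hW2 (Nat.sub_le _ _)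
        have h2 : (WW c (2 * n) : ℝ) ≤ z0 u := by
          push_cast at e5
          linarith
        have h3 : WW c (2 * n) ≤ z0 u := by exact_mod_cast h2
        exact h1.trans h3) (by omega)
    have hS0 : 0 ≤ ∑ q ∈ fr z0 u (u + y), 1 / (q : ℝ) := sum_nonneg fun q _ => by positivity
    have hzx : (z0 (u + y) : ℝ) ≤ y := by
      have h1 : (z0 (u + y) : ℝ) ≤ z0 (2 * n) := by exact_mod_cast z0_mono (by omega : u + y ≤ 2 * n)
      linarith
    have hL4 : 0 < Real.log n ^ (i + 4) := by positivity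
    have hL3 : 0 < Real.log n ^ (i + 3) := by positivity
    have hΔ : (y + z0 (u + y)) * ∑ q ∈ fr z0 u (u + y), 1 / (q : ℝ) ≤
        1 / (M : ℝ) * (y / Real.log n ^ (i + 3)) := by
      have h1 : 3 * (y : ℝ) / u ≤ 3 / Real.log n ^ (i + 4) := by
        have h2 : (y : ℝ) * Real.log n ^ (i + 4) ≤ u := by
          have h3 := hyu
          rw [show i + 1 + 3 = i + 4 from rfl, le_div_iff₀ hL4] at h3
          exact h3
        rw [div_le_div_iff₀ hu0 hL4]
        linarith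
      have h2 : (n : ℝ) ^ (-(0.4 : ℝ)) ≤ 1 / Real.log n ^ (i + 4) := by
        rw [le_div_iff₀ hL4]
        linarith
      have h3 : ∑ q ∈ fr z0 u (u + y), 1 / (q : ℝ) ≤ 4 / Real.log n ^ (i + 4) := by
        have h4 : 3 / Real.log n ^ (i + 4) + 1 / Real.log n ^ (i + 4) = 4 / Real.log n ^ (i + 4) := by
          rw [← add_div]
          norm_num
        linarith
      calc (y + z0 (u + y)) * ∑ q ∈ fr z0 u (u + y), 1 / (q : ℝ) ≤
          (y + y) * (4 / Real.log n ^ (i + 4)) := mul_le_mul (by linarith) h3 hS0 (by linarith)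
        _ = y / Real.log n ^ (i + 3) * (8 / Real.log n) := by
            rw [pow_succ _ (i + 3)]
            field_simp
            ring
        _ ≤ y / Real.log n ^ (i + 3) * (1 / (M : ℝ)) := by
            refine mul_le_mul_of_nonneg_left ?_ (by positivity)
            rw [div_le_div_iff₀ hl0 hM0]
            linarith
        _ = 1 / (M : ℝ) * (y / Real.log n ^ (i + 3)) := mul_comm _ _
    have hE : (u : ℝ) ^ (0.99 : ℝ) + (n : ℝ) ^ (0.9 : ℝ) ≤ 1 / (M : ℝ) * (y / Real.log n ^ (i + 3)) := by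
      have h1 : (u : ℝ) ^ (0.99 : ℝ) ≤ (n : ℝ) ^ (0.99 : ℝ) := Real.rpow_le_rpow hu0.le hun (by norm_num)
      have h2 : (n : ℝ) ^ (0.99 : ℝ) + (n : ℝ) ^ (0.9 : ℝ) ≤ y / (M * Real.log n ^ (i + 3)) := by
        rw [le_div_iff₀ (by positivity)]
        linarith
      have h3 : y / (M * Real.log n ^ (i + 3)) = 1 / (M : ℝ) * (y / Real.log n ^ (i + 3)) := by
        field_simp
      linarith
    have hδ' : 1 / ((M : ℝ) + 1) ≤ 1 / (M : ℝ) := one_div_le_one_div_of_le hM0 (by linarith)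
    have hfin := ONE5N.fin (δ' := 1 / ((M : ℝ) + 1)) (δ := 1 / (M : ℝ)) (L := Real.log n ^ (i + 1))
      (by positivity) hδ' hδ10 (by linarith) (Nat.cast_nonneg _) (Nat.cast_nonneg _)
      (Nat.cast_nonneg _) (mul_nonneg (by positivity) hS0) hn9.le (Real.rpow_nonneg hu0.le (0.99 : ℝ))
      (hd1 (i + 1)) (hd2 (i + 1)) (hd1 0) (hd2 0) (e1 u y hu huy.le) (e2 u y hu huy.le)
      (hG1 (i + 1) _ _ (z0_mono (Nat.le_add_right u y))) (hloss (i + 1))
      (hG1 0 _ _ (z0_mono (Nat.le_add_right u y))) (hloss 0) k1 k2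
    have h0 : ra (RS z0 (WW c) b) 0 = RS z0 (WW c) b := rfl
    rw [h0] at hfin
    rw [show i + 1 + 2 = i + 3 from rfl, mul_add]
    have hF0 : 0 ≤ ((G3 (RS z0 (WW c) b) (RS z0 (WW c) b) n u (u + y)).card : ℝ) / Real.log n ^ (i + 1) := by
      positivity
    have hY0 : 0 ≤ (y : ℝ) / Real.log n ^ (i + 3) := by positivity
    have m1 := mul_le_mul_of_nonneg_right hδε hF0
    have m2 := mul_le_mul_of_nonneg_right hδε hY0
    refine hfin.trans ?_
    linarith

end Pool.Agent.H531.IX
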