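import Pool.Agent.H531.IX.Stm7

set_option autoImplicit false

/-!
# One block, one index (S_ONEB; by helper339)
-/

open Finset MeasureTheory ProbabilityTheory Filter Topology

namespace Pool.Agent.H531.IX

open Pool.Agent.T2H31.HV (Pt Ev Dep)
open Pool.Agent.T2H32.BF (Model z0 V)

namespace ONEBN

theorem ev_mono {S : Finset ℕ} {F G : (ℕ → ℕ) → ℝ} (h : ∀ b, F b ≤ G b) : Ev S F ≤ Ev S G := by
  unfold Ev
  exact mul_le_mul_of_nonneg_left (sum_le_sum fun b _ => h b)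
    (inv_nonneg.2 (prod_nonneg fun p _ => Nat.cast_nonneg p))

theorem ev_sum {ι : Type} (S : Finset ℕ) (I : Finset ι) (F : ι → (ℕ → ℕ) → ℝ) :
    Ev S (fun b => ∑ i ∈ I, F i b) = ∑ i ∈ I, Ev S (F i) := by
  unfold Ev
  rw [sum_comm, mul_sum]

theorem ev_add (S : Finset ℕ) (F G : (ℕ → ℕ) → ℝ) :
    Ev S (fun b => F b + G b) = Ev S F + Ev S G := by
  unfold Ev
  rw [sum_add_distrib, mul_add]

theorem ev_class {S : Finset ℕ} (hS : ∀ q ∈ S, 0 < q) {q : ℕ} (hq : q ∈ S) (n : ℕ) :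
    Ev S (fun b => if n % q = b q then (1 : ℝ) else 0) = 1 / q := by
  have hd : Dep {q} (fun b => if n % q = b q then (1 : ℝ) else 0) := by
    intro b b' h
    simp only [h q (mem_singleton_self q)]
  rw [Pool.Agent.T2H31.HV.Ev_eq_of_dep S {q} (singleton_subset_iff.2 hq) hS _ hd]
  unfold Ev
  have h1 := Pool.Agent.T2H31.HV.sum_Pt_insert ∅ q (notMem_empty q)
    (fun b => if n % q = b q then (1 : ℝ) else 0)
  have h2 : insert q (∅ : Finset ℕ) = {q} := rfl
  rw [h2] at h1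
  rw [h1, Pool.Agent.T2H31.HV.Pt_empty, sum_singleton, prod_singleton]
  simp only [Function.update_self]
  rw [sum_ite_eq (range q) (n % q), if_pos (mem_range.2 (Nat.mod_lt _ (hS q hq))), mul_one, one_div]

theorem inj_mod {x u q v v' : ℕ} (hq : 8 * u ≤ q) (h1 : x < v) (h2 : v ≤ x + 2 * u)
    (h3 : x < v') (h4 : v' ≤ x + 2 * u) (h : v % q = v' % q) : v = v' := by
  rcases le_total v v' with h5 | h5
  · have h6 : q ∣ v' - v := (Nat.modEq_iff_dvd' h5).1 h
    have h7 := Nat.eq_zero_of_dvd_of_lt h6 (by omega)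
    omega
  · have h6 : q ∣ v - v' := (Nat.modEq_iff_dvd' h5).1 (show v' ≡ v [MOD q] from h.symm)
    have h7 := Nat.eq_zero_of_dvd_of_lt h6 (by omega)
    omega

theorem mem_Old {z W : ℕ → ℕ} {x p v : ℕ} {b : ℕ → ℕ} :
    v ∈ Old z W x p b ↔ (x < v ∧ v ≤ p) ∧ Sv W (z x) b v := by
  classical
  unfold Old
  rw [mem_filter, mem_Ioc]

theorem Old_mono {z W : ℕ → ℕ} {x p p' : ℕ} {b : ℕ → ℕ} (h : p ≤ p') :
    Old z W x p b ⊆ Old z W x p' b := by
  intro v hv
  rw [mem_Old] at hv ⊢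
  exact ⟨⟨hv.1.1, hv.1.2.trans h⟩, hv.2⟩

theorem KP_mono {z W : ℕ → ℕ} {x p p' : ℕ} {b : ℕ → ℕ} (h : p ≤ p') :
    KP z W x p b ≤ KP z W x p' b := by
  unfold KP
  have := card_le_card (Old_mono (z := z) (W := W) (x := x) (b := b) h)
  omega

theorem KP_lt {z W : ℕ → ℕ} {x p p' : ℕ} {b : ℕ → ℕ} (h : p < p') (hx : x < p')
    (hs : Sv W (z x) b p') : KP z W x p b < KP z W x p' b := by
  unfold KP
  have h1 : Old z W x p b ⊂ Old z W x p' b := by
    rw [ssubset_iff_of_subset (Old_mono h.le)]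
    refine ⟨p', mem_Old.2 ⟨⟨hx, le_rfl⟩, hs⟩, fun h2 => ?_⟩
    have := (mem_Old.1 h2).1.2
    omega
  have := card_lt_card h1
  omega

theorem KP_inj {z W : ℕ → ℕ} {x p p' : ℕ} {b : ℕ → ℕ} (hx : x < p) (hx' : x < p')
    (hs : Sv W (z x) b p) (hs' : Sv W (z x) b p') (h : KP z W x p b = KP z W x p' b) : p = p' := by
  rcases lt_trichotomy p p' with h1 | h1 | h1
  · have := KP_lt (z := z) (W := W) (b := b) h1 hx' hs'
    omega
  · exact h1
  · have := KP_lt (z := z) (W := W) (b := b) h1 hx hs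
    omega

theorem DD_le_card {L O : Finset ℕ} {S : ℕ → ℕ → Prop} [∀ q v, Decidable (S q v)]
    (hinj : ∀ q ∈ L, ∀ v ∈ O, ∀ v' ∈ O, v % q = v' % q → v = v') (b : ℕ → ℕ) :
    DD L O S b ≤ L.card := by
  unfold DD
  have h1 : (O.filter fun v => ∃ q ∈ L, S q v ∧ v % q = b q) ⊆
      L.biUnion fun q => O.filter fun v => v % q = b q := by
    intro v hv
    rw [mem_filter] at hv
    obtain ⟨hv1, q, hq, -, h2⟩ := hv
    exact mem_biUnion.2 ⟨q, hq, mem_filter.2 ⟨hv1, h2⟩⟩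
  refine (card_le_card h1).trans (card_biUnion_le.trans ?_)
  rw [card_eq_sum_ones]
  refine sum_le_sum fun q hq => card_le_one.2 fun v hv v' hv' => ?_
  rw [mem_filter] at hv hv'
  exact hinj q hq v hv.1 v' hv'.1 (hv.2.trans hv'.2.symm)

theorem DD_le_cardO {L O : Finset ℕ} {S : ℕ → ℕ → Prop} [∀ q v, Decidable (S q v)] (b : ℕ → ℕ) :
    DD L O S b ≤ O.card := by
  unfold DD
  exact card_filter_le _ _

theorem one_le_hit {A L : Finset ℕ} {w : ℕ → ℕ} {b : ℕ → ℕ} (h : ∃ v ∈ A, ∃ q ∈ L, w v % q = b q) :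
    (1 : ℝ) ≤ ∑ v ∈ A, ∑ q ∈ L, (if w v % q = b q then (1 : ℝ) else 0) := by
  obtain ⟨v, hv, q, hq, h1⟩ := h
  have h0 : ∀ v q : ℕ, (0 : ℝ) ≤ (if w v % q = b q then (1 : ℝ) else 0) := by
    intro v q
    split_ifs
    · exact zero_le_one
    · exact le_rfl
  refine le_trans ?_ (single_le_sum (f := fun v => ∑ q ∈ L,
    (if w v % q = b q then (1 : ℝ) else 0)) (fun i _ => sum_nonneg fun q _ => h0 i q) hv)
  refine le_trans ?_ (single_le_sum (f := fun q => (if w v % q = b q then (1 : ℝ) else 0))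
    (fun q _ => h0 v q) hq)
  show (1 : ℝ) ≤ if w v % q = b q then (1 : ℝ) else 0
  rw [if_pos h1]

/-- the comparison of two sets -/
theorem dd_diff {L O O' : Finset ℕ} {S : ℕ → ℕ → Prop} [∀ q v, Decidable (S q v)]
    (hL : ∀ q ∈ L, 0 < q) (hO : O' ⊆ O) (a : ℕ) (M : ℕ) (hM : (O \ O').card ≤ M) :
    |dd L O S a - dd L O' S a| ≤ M * ∑ q ∈ L, 1 / (q : ℝ) := by
  have hs0 : 0 ≤ ∑ q ∈ L, 1 / (q : ℝ) := sum_nonneg fun q _ => by positivity
  have hev : Ev L (fun b => ∑ v ∈ O \ O', ∑ q ∈ L, (if v % q = b q then (1 : ℝ) else 0)) ≤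
      M * ∑ q ∈ L, 1 / (q : ℝ) := by
    rw [ev_sum]
    have e1 : ∀ v ∈ O \ O', Ev L (fun b => ∑ q ∈ L, (if v % q = b q then (1 : ℝ) else 0)) =
        ∑ q ∈ L, 1 / (q : ℝ) := by
      intro v _
      rw [ev_sum]
      exact sum_congr rfl fun q hq => ev_class hL hq v
    rw [sum_congr rfl e1, sum_const, nsmul_eq_mul]
    exact mul_le_mul_of_nonneg_right (by exact_mod_cast hM) hs0
  have hpt : ∀ b : ℕ → ℕ, DD L O S b ≠ DD L O' S b →
      (1 : ℝ) ≤ ∑ v ∈ O \ O', ∑ q ∈ L, (if v % q = b q then (1 : ℝ) else 0) := by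
    intro b hne
    have hex : ∃ v ∈ O \ O', ∃ q ∈ L, v % q = b q := by
      by_contra hno
      push Not at hno
      apply hne
      unfold DD
      congr 1
      ext v
      rw [mem_filter, mem_filter]
      constructor
      · rintro ⟨hv, q, hq, h1, h2⟩
        refine ⟨?_, q, hq, h1, h2⟩
        by_contra hv'
        exact hno v (Finset.mem_sdiff.2 ⟨hv, hv'⟩) q hq h2
      · rintro ⟨hv, h1⟩
        exact ⟨hO hv, h1⟩
    exact one_le_hit (w := fun v => v) hex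
  have hn0 : ∀ b : ℕ → ℕ, (0 : ℝ) ≤ ∑ v ∈ O \ O', ∑ q ∈ L, (if v % q = b q then (1 : ℝ) else 0) :=
    fun b => sum_nonneg fun v _ => sum_nonneg fun q _ => by positivity
  rw [abs_sub_le_iff]
  constructor
  · rw [sub_le_iff_le_add]
    refine le_trans ?_ (add_le_add_left hev _)
    unfold dd
    rw [← ev_add]
    refine ev_mono fun b => ?_
    by_cases hne : DD L O S b = DD L O' S b
    · rw [hne]
      have := hn0 b
      linarith
    · have h1 := hpt b hne
      have h2 : (if DD L O S b = a then (1 : ℝ) else 0) ≤ 1 := by split_ifs <;> norm_num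
      have h3 : (0 : ℝ) ≤ (if DD L O' S b = a then (1 : ℝ) else 0) := by split_ifs <;> norm_num
      linarith
  · rw [sub_le_iff_le_add]
    refine le_trans ?_ (add_le_add_left hev _)
    unfold dd
    rw [← ev_add]
    refine ev_mono fun b => ?_
    by_cases hne : DD L O S b = DD L O' S b
    · rw [hne]
      have := hn0 b
      linarith
    · have h1 := hpt b hne
      have h2 : (if DD L O' S b = a then (1 : ℝ) else 0) ≤ 1 := by split_ifs <;> norm_num
      have h3 : (0 : ℝ) ≤ (if DD L O S b = a then (1 : ℝ) else 0) := by split_ifs <;> norm_num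
      linarith

open Classical in
/-- the survivors of the block -/
noncomputable def BB (z W : ℕ → ℕ) (x u : ℕ) (H : Finset ℕ) (b : ℕ → ℕ) : Finset ℕ :=
  (Ioc (x + u) (x + 2 * u)).filter fun p => ∀ i ∈ H, Sv W (z x) b (p + i)

theorem mem_BB {z W : ℕ → ℕ} {x u p : ℕ} {H : Finset ℕ} {b : ℕ → ℕ} :
    p ∈ BB z W x u H b ↔ (x + u < p ∧ p ≤ x + 2 * u) ∧ ∀ i ∈ H, Sv W (z x) b (p + i) := by
  classical
  unfold BB
  rw [mem_filter, mem_Ioc]

theorem inj_BB {z W : ℕ → ℕ} {x u : ℕ} {H : Finset ℕ} {b : ℕ → ℕ} (hH : 0 ∈ H) :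
    Set.InjOn (fun p => KP z W x p b) (BB z W x u H b) := by
  intro p hp p' hp' h
  rw [mem_coe, mem_BB] at hp hp'
  exact KP_inj (by omega) (by omega) (hp.2 0 hH) (hp'.2 0 hH) h

theorem image_BB {z W : ℕ → ℕ} {x u : ℕ} {b : ℕ → ℕ} :
    (BB z W x u {0} b).image (fun p => KP z W x p b) =
      Ioc (KP z W x (x + u) b) (KP z W x (x + 2 * u) b) := by
  apply eq_of_subset_of_card_le
  · intro k hk
    obtain ⟨p, hp, rfl⟩ := mem_image.1 hk
    rw [mem_BB] at hp
    rw [mem_Ioc]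
    exact ⟨KP_lt hp.1.1 (by omega) (hp.2 0 (mem_singleton_self 0)), KP_mono hp.1.2⟩
  · rw [card_image_of_injOn (inj_BB (mem_singleton_self 0)), Nat.card_Ioc]
    unfold KP
    have h1 : Old z W x (x + 2 * u) b ⊆ Old z W x (x + u) b ∪ BB z W x u {0} b := by
      intro v hv
      rw [mem_Old] at hv
      rw [mem_union, mem_Old, mem_BB]
      rcases le_or_gt v (x + u) with h2 | h2
      · exact Or.inl ⟨⟨hv.1.1, h2⟩, hv.2⟩
      · refine Or.inr ⟨⟨h2, hv.1.2⟩, fun i hi => ?_⟩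
        rw [mem_singleton] at hi
        rw [hi]
        exact hv.2
    have h2 := (card_le_card h1).trans (card_union_le _ _)
    omega

/-- the indices near `t` -/
theorem card_near {z W : ℕ → ℕ} {x u t M : ℕ} {H : Finset ℕ} {b : ℕ → ℕ} (hH : 0 ∈ H) :
    ((BB z W x u H b).filter fun p => t ≤ KP z W x p b ∧ KP z W x p b ≤ t + M).card ≤ M + 1 := by
  have h1 : (((BB z W x u H b).filter fun p => t ≤ KP z W x p b ∧ KP z W x p b ≤ t + M).image
      (fun p => KP z W x p b)) ⊆ Icc t (t + M) := by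
    intro k hk
    obtain ⟨p, hp, rfl⟩ := mem_image.1 hk
    rw [mem_filter] at hp
    rw [mem_Icc]
    exact hp.2
  have h2 := card_le_card h1
  rw [card_image_of_injOn ((inj_BB hH).mono (by
    intro p hp
    rw [mem_coe, mem_filter] at hp
    exact hp.1)), Nat.card_Icc] at h2
  omega


/-- the sums over the indices and over the survivors -/
theorem sum_K {z W : ℕ → ℕ} {x u t : ℕ} {H : Finset ℕ} {b : ℕ → ℕ} (hH : 0 ∈ H) (g : ℕ → ℝ)
    (A : Finset ℕ) (hA : ∀ k, k ∈ A ↔ t ≤ k ∧ ∃ p ∈ BB z W x u H b, KP z W x p b = k) :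
    ∑ k ∈ A, g (k - t) =
      ∑ p ∈ (BB z W x u H b).filter (fun p => t ≤ KP z W x p b), g (KP z W x p b - t) := by
  have h1 : A = ((BB z W x u H b).filter (fun p => t ≤ KP z W x p b)).image
      (fun p => KP z W x p b) := by
    ext k
    rw [hA, mem_image]
    constructor
    · rintro ⟨h1, p, hp, rfl⟩
      exact ⟨p, mem_filter.2 ⟨hp, h1⟩, rfl⟩
    · rintro ⟨p, hp, rfl⟩
      rw [mem_filter] at hp
      exact ⟨hp.2, p, hp.1, rfl⟩
  rw [h1, sum_image]
  exact (inj_BB hH).mono (by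
    intro p hp
    rw [mem_coe, mem_filter] at hp
    exact hp.1)

end ONEBN

open ONEBN in
theorem oneb : S_ONEB := by
  classical
  intro hLOC hTV1 hAVG hPIF z W hz x u h m0 M t c τ₁ τ₂ b hx hu hW hL8 hh hm0 hc hcs hLM hK12
    hτ₁0 hτ₁1 hτ₂0 hτ₂1 hD
  have memL : ∀ q, q ∈ fr z x (x + 3 * u) ↔ (z x < q ∧ q ≤ z (x + 3 * u)) ∧ q.Prime := by
    intro q
    unfold fr
    rw [mem_filter, mem_Ioc]
  have hpb0 : ∀ p, x + u < p → p ≤ x + 2 * u → ∀ b', pin (RS z W (gl (fr z x (x + 3 * u)) b b')) p =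
      KP z W x p b -
        DD (fr z x (x + 3 * u)) (Old z W x p b) (fun q v => q ≤ z v) b' := fun p hp1 hp2 b' =>
    hPIF z W hz x (x + 3 * u) p b b' hx (by omega) (by omega) hW
  have hsub : fr z x (x + u / 2) ⊆ fr z x (x + 3 * u) := by
    intro q hq
    unfold fr at hq
    rw [mem_filter, mem_Ioc] at hq
    rw [memL]
    exact ⟨⟨hq.1.1, hq.1.2.trans (hz (by omega))⟩, hq.2⟩
  obtain ⟨L, hL⟩ : ∃ L : Finset ℕ, L = fr z x (x + 3 * u) := ⟨_, rfl⟩
  rw [← hL] at hpb0 hsub hL8 hLM ⊢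
  simp only [← hL] at memL
  have hLpos : ∀ q ∈ L, 0 < q := fun q hq => ((memL q).1 hq).2.pos
  obtain ⟨s, hs⟩ : ∃ s : ℝ, s = ∑ q ∈ L, 1 / (q : ℝ) := ⟨_, rfl⟩
  have hs0 : 0 ≤ s := by
    rw [hs]
    exact sum_nonneg fun q _ => by positivity
  rw [← hs]
  have hcard : ∀ p, p ≤ x + 2 * u → (Old z W x p b).card ≤ 2 * u := by
    intro p hp
    unfold Old
    refine (card_filter_le _ _).trans ?_
    rw [Nat.card_Ioc]
    omega
  have hinj : ∀ q ∈ L, ∀ v ∈ Old z W x (x + 2 * u) b, ∀ v' ∈ Old z W x (x + 2 * u) b,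
      v % q = v' % q → v = v' := by
    intro q hq v hv v' hv' he
    rw [mem_Old] at hv hv'
    exact inj_mod (hL8 q hq) hv.1.1 hv.1.2 hv'.1.1 hv'.1.2 he
  -- the comparison set
  obtain ⟨O', hO'⟩ : ∃ O' : Finset ℕ, O' = (Old z W x (x + 2 * u) b).filter
      (fun v => KP z W x v b ≤ max t (KP z W x (x + u) b)) := ⟨_, rfl⟩
  have memO' : ∀ v, v ∈ O' ↔ ((x < v ∧ v ≤ x + 2 * u) ∧ Sv W (z x) b v) ∧
      KP z W x v b ≤ max t (KP z W x (x + u) b) := by
    intro v
    rw [hO', mem_filter, mem_Old]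
  have hO'card : O'.card ≤ 2 * u := by
    rw [hO']
    exact (card_filter_le _ _).trans (hcard _ le_rfl)
  have hcO' : c ≤ ∑ q ∈ L, ((O'.filter (fun v => q ≤ z v)).card : ℝ) / q := by
    refine hcs.trans ?_
    rw [mul_sum]
    refine (sum_le_sum fun q hq => ?_).trans
      (sum_le_sum_of_subset_of_nonneg hsub fun q _ _ => by positivity)
    have hq' := hq
    unfold fr at hq'
    rw [mem_filter, mem_Ioc] at hq'
    have h1 : (Old z W x (x + u) b).card ≤ (Old z W x (x + u / 2) b).card +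
        (O'.filter (fun v => q ≤ z v)).card := by
      refine (card_le_card ?_).trans (card_union_le _ _)
      intro v hv
      rw [mem_Old] at hv
      rw [mem_union, mem_filter, mem_Old, memO']
      rcases le_or_gt v (x + u / 2) with h2 | h2
      · exact Or.inl ⟨⟨hv.1.1, h2⟩, hv.2⟩
      · exact Or.inr ⟨⟨⟨⟨hv.1.1, by omega⟩, hv.2⟩, (KP_mono hv.1.2).trans (le_max_right _ _)⟩,
          hq'.1.2.trans (hz h2.le)⟩
    have h2 : m0 ≤ (O'.filter (fun v => q ≤ z v)).card := by omega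
    have h3 : (m0 : ℝ) ≤ ((O'.filter (fun v => q ≤ z v)).card : ℝ) := by exact_mod_cast h2
    have h4 : (0 : ℝ) ≤ 1 / (q : ℝ) := by positivity
    calc (m0 : ℝ) * (1 / (q : ℝ)) ≤
        ((O'.filter (fun v => q ≤ z v)).card : ℝ) * (1 / (q : ℝ)) :=
          mul_le_mul_of_nonneg_right h3 h4
      _ = _ := by ring
  obtain ⟨hg0, hgz, hgv⟩ := hTV1 hLOC L O' (fun q v => q ≤ z v) c
    (fun q hq => ⟨((memL q).1 hq).2, by
      have h2 := hL8 q hq
      omega⟩) hc
    (fun q hq v hv v' hv' he => by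
      rw [hO', mem_filter] at hv hv'
      exact hinj q hq v hv.1 v' hv'.1 he) hcO'
  rw [← hs] at hgv
  simp only [← hs] at hg0
  obtain ⟨g, hg⟩ : ∃ g : ℕ → ℝ, g = dd L O' (fun q v => q ≤ z v) := ⟨_, rfl⟩
  rw [← hg] at hg0 hgz hgv
  obtain ⟨ρ, hρ⟩ : ∃ ρ : ℝ, ρ = 2 / √c + 4 * u * s ^ 2 := ⟨_, rfl⟩
  have hρ1 : 2 / √c + 2 * (O'.card : ℝ) * s ^ 2 ≤ ρ := by
    rw [hρ]
    have h1 : (O'.card : ℝ) ≤ 2 * u := by exact_mod_cast hO'card
    have h2 := mul_le_mul_of_nonneg_right h1 (sq_nonneg s)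
    linarith
  have hρ0 : 0 ≤ ρ := by
    rw [hρ]
    positivity
  obtain ⟨K1, hK1⟩ : ∃ K1 : ℕ, K1 = KP z W x (x + u) b := ⟨_, rfl⟩
  obtain ⟨K2, hK2⟩ : ∃ K2 : ℕ, K2 = KP z W x (x + 2 * u) b := ⟨_, rfl⟩
  rw [← hK1, ← hK2] at hD hK12
  have him := image_BB (z := z) (W := W) (x := x) (u := u) (b := b)
  rw [← hK1, ← hK2] at him
  have hmemDP : ∀ k, k ∈ DP z W x u b ↔ ∃ p ∈ BB z W x u {0, 2} b, KP z W x p b = k := by
    intro k
    constructor
    · rintro ⟨p, h1, h2, h3, h4, h5⟩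
      refine ⟨p, mem_BB.2 ⟨⟨h1, h2⟩, fun i hi => ?_⟩, h5.symm⟩
      rw [mem_insert, mem_singleton] at hi
      rcases hi with rfl | rfl
      · exact h3
      · exact h4
    · rintro ⟨p, hp, rfl⟩
      rw [mem_BB] at hp
      exact ⟨p, hp.1.1, hp.1.2, hp.2 0 (by simp), hp.2 2 (by simp), rfl⟩
  have hDsub : DP z W x u b ⊆ Set.Ioc K1 K2 := by
    intro k hk
    obtain ⟨p, hp, rfl⟩ := (hmemDP k).1 hk
    rw [mem_BB] at hp
    rw [hK1, hK2]
    exact ⟨KP_lt hp.1.1 (by omega) (hp.2 0 (by simp)), KP_mono hp.1.2⟩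
  have hAV : ∀ τ : ℝ, 0 ≤ τ → τ ≤ 1 → _ := fun τ h0 h1 =>
    hAVG g (DP z W x u b) ρ τ h K1 K2 t M hh hK12 (fun a => ⟨(hg0 a).1, (hg0 a).2.trans hρ1⟩)
      (fun a ha => hgz a (lt_of_le_of_lt hLM ha)) (fun Z => (hgv Z).trans (by linarith)) h0 h1 hDsub
  have hup := (hAV τ₂ hτ₂0 hτ₂1).1 fun j hj1 hj2 => (hD j hj1 hj2).2
  have hlo := (hAV τ₁ hτ₁0 hτ₁1).2 fun j hj1 hj2 => (hD j hj1 hj2).1
  have eG2 : ∑ k ∈ (Ioc K1 K2).filter (fun k => t ≤ k ∧ k ∈ DP z W x u b), g (k - t) =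
      ∑ p ∈ (BB z W x u {0, 2} b).filter (fun p => t ≤ KP z W x p b), g (KP z W x p b - t) := by
    refine sum_K (by simp) g _ fun k => ?_
    rw [mem_filter, mem_Ioc]
    constructor
    · rintro ⟨h1, h2, h3⟩
      exact ⟨h2, (hmemDP k).1 h3⟩
    · rintro ⟨h1, h2⟩
      have h3 := (hmemDP k).2 h2
      exact ⟨hDsub h3, h1, h3⟩
  have eG1 : ∑ k ∈ (Ioc K1 K2).filter (fun k => t ≤ k), g (k - t) =
      ∑ p ∈ (BB z W x u {0} b).filter (fun p => t ≤ KP z W x p b), g (KP z W x p b - t) := by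
    refine sum_K (by simp) g _ fun k => ?_
    rw [mem_filter, ← him, mem_image]
    exact and_comm
  rw [eG2, eG1] at hup hlo
  -- the probabilities
  have hf : ∀ p ∈ BB z W x u {0} b, (t ≤ KP z W x p b ∧ KP z W x p b ≤ t + M →
      |Ev L (fun b' => if pin (RS z W (gl L b b')) p = t then (1 : ℝ) else 0) -
        g (KP z W x p b - t)| ≤ M * s) ∧
      (¬(t ≤ KP z W x p b ∧ KP z W x p b ≤ t + M) → ∀ b',
        (if pin (RS z W (gl L b b')) p = t then (1 : ℝ) else 0) = 0) := by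
    intro p hp
    have hp' := mem_BB.1 hp
    have hp0 : Sv W (z x) b p := hp'.2 0 (mem_singleton_self 0)
    have hd1 : ∀ b', DD L (Old z W x p b) (fun q v => q ≤ z v) b' ≤ M := fun b' =>
      (DD_le_card (fun q hq v hv v' hv' he =>
        hinj q hq v (Old_mono hp'.1.2 hv) v' (Old_mono hp'.1.2 hv') he) b').trans hLM
    have hd2 : ∀ b', DD L (Old z W x p b) (fun q v => q ≤ z v) b' ≤ KP z W x p b := fun b' => by
      refine (DD_le_cardO b').trans ?_
      unfold KP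
      omega
    constructor
    · rintro ⟨ht1, ht2⟩
      have e1 : Ev L (fun b' => if pin (RS z W (gl L b b')) p = t then (1 : ℝ) else 0) =
          dd L (Old z W x p b) (fun q v => q ≤ z v) (KP z W x p b - t) := by
        unfold dd
        congr 1
        funext b'
        rw [hpb0 p hp'.1.1 hp'.1.2 b']
        have h2 := hd2 b'
        have h3 : (KP z W x p b - DD L (Old z W x p b) (fun q v => q ≤ z v) b' = t) ↔
            (DD L (Old z W x p b) (fun q v => q ≤ z v) b' = KP z W x p b - t) := by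
          omega
        simp only [h3]
      rw [e1, hg, hs]
      have hK1p : KP z W x (x + u) b < KP z W x p b := KP_lt hp'.1.1 (by omega) hp0
      refine dd_diff hLpos ?_ _ M ?_
      · intro v hv
        rw [memO'] at hv
        rw [mem_Old]
        refine ⟨⟨hv.1.1.1, ?_⟩, hv.1.2⟩
        by_contra hcon
        rw [not_le] at hcon
        have h1 := KP_lt (z := z) (W := W) (b := b) hcon hv.1.1.1 hv.1.2
        have h2 := hv.2
        rcases le_total t (KP z W x (x + u) b) with h3 | h3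
        · rw [max_eq_right h3] at h2
          omega
        · rw [max_eq_left h3] at h2
          omega
      · have h1 : ((Old z W x p b \ O').image (fun v => KP z W x v b)) ⊆ Ioc t (t + M) := by
          intro k hk
          obtain ⟨v, hv, rfl⟩ := mem_image.1 hk
          rw [Finset.mem_sdiff, mem_Old, memO'] at hv
          obtain ⟨⟨⟨h1, h2⟩, h3⟩, h4⟩ := hv
          have h5 : ¬ KP z W x v b ≤ max t (KP z W x (x + u) b) := fun h6 =>
            h4 ⟨⟨⟨h1, h2.trans hp'.1.2⟩, h3⟩, h6⟩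
          rw [not_le, max_lt_iff] at h5
          rw [mem_Ioc]
          exact ⟨h5.1, (KP_mono h2).trans ht2⟩
        have h2 := card_le_card h1
        rw [card_image_of_injOn, Nat.card_Ioc] at h2
        · omega
        · intro v hv v' hv' he
          rw [mem_coe, Finset.mem_sdiff, mem_Old] at hv hv'
          exact KP_inj hv.1.1.1 hv'.1.1.1 hv.1.2 hv'.1.2 he
    · intro hno b'
      rw [if_neg]
      rw [hpb0 p hp'.1.1 hp'.1.2 b']
      have h1 := hd1 b'
      have h2 := hd2 b'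
      omega
  obtain ⟨f, hfd⟩ : ∃ f : ℕ → ℝ, f = fun p =>
      Ev L (fun b' => if pin (RS z W (gl L b b')) p = t then (1 : ℝ) else 0) := ⟨_, rfl⟩
  have hsum : ∀ H : Finset ℕ, 0 ∈ H → BB z W x u H b ⊆ BB z W x u {0} b →
      |∑ p ∈ BB z W x u H b, f p -
        ∑ p ∈ (BB z W x u H b).filter (fun p => t ≤ KP z W x p b), g (KP z W x p b - t)| ≤
        ((M : ℝ) + 1) * (M * s) := by
    intro H hH hsubH
    have e1 : ∑ p ∈ BB z W x u H b, f p = ∑ p ∈ (BB z W x u H b).filter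
        (fun p => t ≤ KP z W x p b ∧ KP z W x p b ≤ t + M), f p := by
      rw [sum_filter]
      refine sum_congr rfl fun p hp => ?_
      split_ifs with h1
      · rfl
      · rw [hfd]
        have h2 := (hf p (hsubH hp)).2 h1
        simp only [h2]
        unfold Ev
        rw [sum_const_zero, mul_zero]
    have e2 : ∑ p ∈ (BB z W x u H b).filter (fun p => t ≤ KP z W x p b), g (KP z W x p b - t) =
        ∑ p ∈ (BB z W x u H b).filter
        (fun p => t ≤ KP z W x p b ∧ KP z W x p b ≤ t + M), g (KP z W x p b - t) := by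
      rw [sum_filter, sum_filter]
      refine sum_congr rfl fun p _ => ?_
      split_ifs with h1 h2 h2
      · rfl
      · exact hgz _ (by omega)
      · exact absurd h2.1 h1
      · rfl
    rw [e1, e2, ← sum_sub_distrib]
    refine (abs_sum_le_sum_abs _ _).trans ?_
    refine (sum_le_card_nsmul _ _ (M * s) fun p hp => ?_).trans ?_
    · rw [mem_filter] at hp
      rw [hfd]
      exact (hf p (hsubH hp.1)).1 hp.2
    · rw [nsmul_eq_mul]
      refine mul_le_mul_of_nonneg_right ?_ (by positivity)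
      exact_mod_cast card_near hH
  -- the values of `β`
  have hglo : ∀ b' q, q ≤ z x → gl L b b' q = b q := by
    intro b' q hq
    unfold gl
    rw [if_neg]
    intro h1
    have := ((memL q).1 h1).1.1
    omega
  have hgli : ∀ b', ∀ q ∈ L, gl L b b' q = b' q := by
    intro b' q hq
    unfold gl
    rw [if_pos hq]
  have hRS1 : ∀ b' n, x ≤ n → n ∈ RS z W (gl L b b') → Sv W (z x) b n := by
    rintro b' n hn ⟨-, h1⟩ q hq hqp
    have h2 := h1 q (hq.trans (hz hn)) hqp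
    rwa [hglo b' q hq] at h2
  have hRS2 : ∀ b' n, x < n → n ≤ x + 3 * u → Sv W (z x) b n →
      (∀ q ∈ L, n % q ≠ b' q) → n ∈ RS z W (gl L b b') := by
    intro b' n hn1 hn2 h1 h2
    refine ⟨by omega, fun q hq hqp => ?_⟩
    rcases le_or_gt q (z x) with h3 | h3
    · rw [hglo b' q h3]
      exact h1 q h3 hqp
    · have h4 : q ∈ L := (memL q).2 ⟨⟨h3, hq.trans (hz hn2)⟩, hqp⟩
      have h5 : ¬q ≤ W n := by
        have := hW n hn2
        omega
      rw [if_neg h5, hgli b' q h4]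
      exact h2 q h4
  have hNT : ∀ H : Finset ℕ, 0 ∈ H → (∀ i ∈ H, i ≤ u) → ∀ b',
      (NT z W H Set.univ (fun _ => {t}) (x + u) (x + 2 * u) (gl L b b') : ℝ) =
      ∑ p ∈ BB z W x u H b, if (∀ i ∈ H, p + i ∈ RS z W (gl L b b')) ∧
        pin (RS z W (gl L b b')) p = t then (1 : ℝ) else 0 := by
    intro H hH hHu b'
    rw [← natCast_card_filter]
    unfold NT
    congr 1
    refine congrArg Finset.card ?_
    ext p
    simp only [Finset.mem_filter, mem_BB, Finset.mem_Ioc]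
    constructor
    · rintro ⟨h1, -, h3, h4⟩
      exact ⟨⟨h1, fun i hi => hRS1 b' (p + i) (by omega) (h3 i hi)⟩, h3, h4⟩
    · rintro ⟨⟨h1, -⟩, h3, h4⟩
      exact ⟨h1, trivial, h3, h4⟩
  have hNTle : ∀ H : Finset ℕ, 0 ∈ H → (∀ i ∈ H, i ≤ u) →
      Ev L (fun b' => (NT z W H Set.univ (fun _ => {t}) (x + u) (x + 2 * u) (gl L b b') : ℝ)) ≤
        ∑ p ∈ BB z W x u H b, f p := by
    intro H hH hHu
    rw [hfd, ← ev_sum]
    refine ev_mono fun b' => ?_
    rw [hNT H hH hHu b']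
    refine sum_le_sum fun p _ => ?_
    split_ifs with h1 h2 h2
    · exact le_rfl
    · exact absurd h1.2 h2
    · exact zero_le_one
    · exact le_rfl
  have hNTge : ∀ H : Finset ℕ, 0 ∈ H → (∀ i ∈ H, i ≤ u) → BB z W x u H b ⊆ BB z W x u {0} b →
      ∑ p ∈ BB z W x u H b, f p ≤
      Ev L (fun b' => (NT z W H Set.univ (fun _ => {t}) (x + u) (x + 2 * u) (gl L b b') : ℝ)) +
        ((M : ℝ) + 1) * (H.card * s) := by
    intro H hH hHu hsubH
    have hc2 : Ev L (fun b' => ∑ p ∈ (BB z W x u H b).filter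
        (fun p => t ≤ KP z W x p b ∧ KP z W x p b ≤ t + M), ∑ i ∈ H, ∑ q ∈ L,
        (if (p + i) % q = b' q then (1 : ℝ) else 0)) ≤ ((M : ℝ) + 1) * (H.card * s) := by
      rw [ev_sum]
      have e1 : ∀ p ∈ (BB z W x u H b).filter
          (fun p => t ≤ KP z W x p b ∧ KP z W x p b ≤ t + M), Ev L (fun b' => ∑ i ∈ H, ∑ q ∈ L,
          (if (p + i) % q = b' q then (1 : ℝ) else 0)) = H.card * s := by
        intro p _
        rw [ev_sum, ← nsmul_eq_mul, ← sum_const]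
        refine sum_congr rfl fun i _ => ?_
        rw [ev_sum, hs]
        exact sum_congr rfl fun q hq => ev_class hLpos hq (p + i)
      rw [sum_congr rfl e1, sum_const, nsmul_eq_mul]
      refine mul_le_mul_of_nonneg_right ?_ (by positivity)
      exact_mod_cast card_near hH
    refine le_trans ?_ (add_le_add_right hc2 _)
    rw [hfd, ← ev_sum, ← ev_add]
    refine ev_mono fun b' => ?_
    rw [hNT H hH hHu b', sum_filter, ← sum_add_distrib]
    refine sum_le_sum fun p hp => ?_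
    have hp' := mem_BB.1 hp
    have hnn0 : (0 : ℝ) ≤ ∑ i ∈ H, ∑ q ∈ L, (if (p + i) % q = b' q then (1 : ℝ) else 0) :=
      sum_nonneg fun i _ => sum_nonneg fun q _ => by positivity
    by_cases hnear : t ≤ KP z W x p b ∧ KP z W x p b ≤ t + M
    · rw [if_pos hnear]
      by_cases hpt : pin (RS z W (gl L b b')) p = t
      · rw [if_pos hpt]
        by_cases hbad : ∃ i ∈ H, ∃ q ∈ L, (p + i) % q = b' q
        · have h1 : (1 : ℝ) ≤ ∑ i ∈ H, ∑ q ∈ L, (if (p + i) % q = b' q then (1 : ℝ) else 0) :=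
            one_le_hit (w := fun i => p + i) hbad
          have h3 : (0 : ℝ) ≤ if (∀ i ∈ H, p + i ∈ RS z W (gl L b b')) ∧
              pin (RS z W (gl L b b')) p = t then (1 : ℝ) else 0 := by
            split_ifs
            · exact zero_le_one
            · exact le_rfl
          linarith
        · push Not at hbad
          have h1 : ∀ i ∈ H, p + i ∈ RS z W (gl L b b') := by
            intro i hi
            have := hHu i hi
            exact hRS2 b' (p + i) (by omega) (by omega) (hp'.2 i hi) fun q hq => hbad i hi q hq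
          rw [if_pos ⟨h1, hpt⟩]
          linarith
      · rw [if_neg hpt]
        have h3 : (0 : ℝ) ≤ if (∀ i ∈ H, p + i ∈ RS z W (gl L b b')) ∧
            pin (RS z W (gl L b b')) p = t then (1 : ℝ) else 0 := by
          split_ifs
          · exact zero_le_one
          · exact le_rfl
        linarith
    · rw [if_neg hnear, (hf p (hsubH hp)).2 hnear b', add_zero]
      split_ifs
      · exact zero_le_one
      · exact le_rfl
  have hsub2 : BB z W x u {0, 2} b ⊆ BB z W x u {0} b := by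
    intro p hp
    rw [mem_BB] at hp ⊢
    exact ⟨hp.1, fun i hi => hp.2 i (by
      rw [mem_singleton] at hi
      rw [hi]
      simp)⟩
  have hu2 : ∀ i ∈ ({0, 2} : Finset ℕ), i ≤ u := by
    intro i hi
    rw [mem_insert, mem_singleton] at hi
    omega
  have hu1 : ∀ i ∈ ({0} : Finset ℕ), i ≤ u := by
    intro i hi
    rw [mem_singleton] at hi
    omega
  have a1 := hNTle {0, 2} (by simp) hu2
  have a2 := hNTge {0, 2} (by simp) hu2 hsub2
  have a3 := hNTle {0} (by simp) hu1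
  have a4 := hNTge {0} (by simp) hu1 subset_rfl
  have a5 := abs_sub_le_iff.1 (hsum {0, 2} (by simp) hsub2)
  have a6 := abs_sub_le_iff.1 (hsum {0} (by simp) subset_rfl)
  have c2 : ((({0, 2} : Finset ℕ).card : ℕ) : ℝ) = 2 := by
    rw [card_pair (by norm_num)]
    norm_num
  have c1 : ((({0} : Finset ℕ).card : ℕ) : ℝ) = 1 := by
    rw [card_singleton]
    norm_num
  rw [c2] at a2
  rw [c1] at a4
  rw [← hρ]
  obtain ⟨E2, hE2⟩ : ∃ E2 : ℝ, E2 = Ev L (fun b' =>
    (NT z W {0, 2} Set.univ (fun _ => {t}) (x + u) (x + 2 * u) (gl L b b') : ℝ)) := ⟨_, rfl⟩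
  obtain ⟨E1, hE1⟩ : ∃ E1 : ℝ, E1 = Ev L (fun b' =>
    (NT z W {0} Set.univ (fun _ => {t}) (x + u) (x + 2 * u) (gl L b b') : ℝ)) := ⟨_, rfl⟩
  rw [← hE2] at a1 a2 ⊢
  rw [← hE1] at a3 a4 ⊢
  obtain ⟨f2, hf2⟩ : ∃ f2 : ℝ, f2 = ∑ p ∈ BB z W x u {0, 2} b, f p := ⟨_, rfl⟩
  obtain ⟨f1, hf1⟩ : ∃ f1 : ℝ, f1 = ∑ p ∈ BB z W x u {0} b, f p := ⟨_, rfl⟩
  rw [← hf2] at a1 a2 a5
  rw [← hf1] at a3 a4 a6
  obtain ⟨G2, hG2⟩ : ∃ G2 : ℝ, G2 = ∑ p ∈ (BB z W x u {0, 2} b).filter
    (fun p => t ≤ KP z W x p b), g (KP z W x p b - t) := ⟨_, rfl⟩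
  obtain ⟨G1, hG1⟩ : ∃ G1 : ℝ, G1 = ∑ p ∈ (BB z W x u {0} b).filter
    (fun p => t ≤ KP z W x p b), g (KP z W x p b - t) := ⟨_, rfl⟩
  rw [← hG2] at a5 hup hlo
  rw [← hG1] at a6 hup hlo
  have hM0 : (0 : ℝ) ≤ M := Nat.cast_nonneg M
  have hh0 : (0 : ℝ) ≤ h := Nat.cast_nonneg h
  have hhρ : 0 ≤ h * ρ := mul_nonneg hh0 hρ0
  have hMs : 0 ≤ (M : ℝ) * s := mul_nonneg hM0 hs0
  have hMMs : 0 ≤ (M : ℝ) * (M * s) := mul_nonneg hM0 hMs
  constructor
  · have b1 : τ₂ * G1 ≤ τ₂ * (E1 + ((M : ℝ) + 1) * (1 * s) + ((M : ℝ) + 1) * (M * s)) :=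
      mul_le_mul_of_nonneg_left (by linarith [a6.2]) hτ₂0
    have b2 : τ₂ * (((M : ℝ) + 1) * (1 * s) + ((M : ℝ) + 1) * (M * s)) ≤
        1 * (((M : ℝ) + 1) * (1 * s) + ((M : ℝ) + 1) * (M * s)) :=
      mul_le_mul_of_nonneg_right hτ₂1 (by positivity)
    nlinarith [a5.1]
  · have b1 : τ₁ * (E1 - ((M : ℝ) + 1) * (M * s)) ≤ τ₁ * G1 :=
      mul_le_mul_of_nonneg_left (by linarith [a6.1]) hτ₁0
    have b2 : τ₁ * (((M : ℝ) + 1) * (M * s)) ≤ 1 * (((M : ℝ) + 1) * (M * s)) :=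
      mul_le_mul_of_nonneg_right hτ₁1 (by positivity)
    nlinarith [a5.2]

end Pool.Agent.H531.IX
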