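import Pool.Agent.H531.IX.Stm6
import Pool.Agent.H531.IX.EAL

set_option autoImplicit false

/-! QAL: the lower bound for the number of representations (MP_0ec542); adapted from `EAL.lean`. -/

open Finset MeasureTheory ProbabilityTheory Filter Topology

namespace Pool.Agent.H531.IX

open Pool.Agent.T2H32.BF (Model z0 V)
open Pool.Agent.H559.BS (Limit)
open Pool.Agent.H559.HY (OK WW Cut TG)
open Pool.Agent.T2H32.GB (C2)

namespace QALN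

open EALN (log_t pos_ev top lg cnt1 cnt2 nlog_t rpow_t tw_add MT_tw pin_lt)

/-- the end points -/
noncomputable def Xn (η : ℝ) (n : ℕ) : ℕ := ⌈2 * η * (n * Real.log n)⌉₊
noncomputable def Yn (η : ℝ) (n : ℕ) : ℕ := ⌊(2 - 2 * η) * (n * Real.log n)⌋₊

lemma Xn_lim {η : ℝ} (hη : 0 < η) :
    Tendsto (fun n : ℕ => (Xn η n : ℝ) / (n * Real.log n)) atTop (𝓝 (2 * η)) := by
  have h1 : Tendsto (fun x : ℝ => (⌈2 * η * x⌉₊ : ℝ) / x) atTop (𝓝 (2 * η)) :=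
    tendsto_nat_ceil_mul_div_atTop (by linarith)
  exact h1.comp nlog_t

lemma Yn_lim {η : ℝ} (hη : η < 1) :
    Tendsto (fun n : ℕ => (Yn η n : ℝ) / (n * Real.log n)) atTop (𝓝 (2 - 2 * η)) := by
  have h1 : Tendsto (fun x : ℝ => (⌊(2 - 2 * η) * x⌋₊ : ℝ) / x) atTop (𝓝 (2 - 2 * η)) :=
    tendsto_nat_floor_mul_div_atTop (by linarith)
  exact h1.comp nlog_t

/-- elementary inequalities -/
lemma ineq {η ρ : ℝ} (hη : 0 < η) (hη4 : η ≤ 1 / 4) (hρ : 0 < ρ) (B : ℝ) : ∀ᶠ n : ℕ in atTop,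
    2 * n ≤ Xn η n ∧ Xn η n ≤ Yn η n ∧ ((Xn η n : ℝ) ^ (-(0.001 : ℝ)) ≤ ρ / Real.log n ^ 2) ∧
    B ≤ Real.log n ∧ (Yn η n : ℝ) ≤ (n : ℝ) ^ (1.001 : ℝ) ∧ 1 ≤ n ∧ Real.log n ≤ (n : ℝ) ^ (0.001 : ℝ) ∧
    1 ≤ Real.log n := by
  have hl : ∀ᶠ n : ℕ in atTop, 2 * Real.log (n : ℝ) ≤ (n : ℝ) ^ (0.001 : ℝ) := by
    have h1 := (isLittleO_log_rpow_atTop (show (0 : ℝ) < 0.001 by norm_num)).bound
      (show (0 : ℝ) < 1 / 2 by norm_num)
    filter_upwards [(tendsto_natCast_atTop_atTop (R := ℝ)).eventually h1,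
      log_t.eventually (eventually_ge_atTop 0)] with n h2 h3
    rw [Real.norm_eq_abs, Real.norm_eq_abs, abs_of_nonneg h3, abs_of_nonneg (by positivity)] at h2
    linarith
  have hl2 : ∀ᶠ n : ℕ in atTop, Real.log (n : ℝ) ^ 2 ≤ ρ * (n : ℝ) ^ (0.001 : ℝ) := by
    have h1 := (isLittleO_log_rpow_rpow_atTop (s := 0.001) 2 (by norm_num)).bound hρ
    filter_upwards [(tendsto_natCast_atTop_atTop (R := ℝ)).eventually h1,
      log_t.eventually (eventually_ge_atTop 0)] with n h2 h3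
    rw [Real.norm_eq_abs, Real.norm_eq_abs, Real.rpow_two, abs_of_nonneg (by positivity),
      abs_of_nonneg (by positivity)] at h2
    exact h2
  filter_upwards [hl, hl2, log_t.eventually (eventually_ge_atTop (max (1 / η) (max 1 B))),
    eventually_ge_atTop 4] with n h1 h2 h3 h4
  have hn0 : (0 : ℝ) < n := by
    have : 0 < n := by omega
    exact_mod_cast this
  have hn4 : (4 : ℝ) ≤ n := by exact_mod_cast h4
  have h7 : 1 / η ≤ Real.log n := (le_max_left _ _).trans h3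
  have hl1 : 1 ≤ Real.log (n : ℝ) := ((le_max_left _ _).trans (le_max_right _ _)).trans h3
  have hlB : B ≤ Real.log (n : ℝ) := ((le_max_right _ _).trans (le_max_right _ _)).trans h3
  have h7' : 1 ≤ η * Real.log n := by
    rw [div_le_iff₀ hη] at h7
    linarith
  have hX7 : 2 * n ≤ Xn η n := by
    have h8 : ((2 * n : ℕ) : ℝ) ≤ 2 * η * (n * Real.log n) := by
      push_cast
      nlinarith
    have h9 : 2 * η * (n * Real.log n) ≤ (Xn η n : ℝ) := Nat.le_ceil _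
    exact_mod_cast h8.trans h9
  have hnl : (4 : ℝ) ≤ n * Real.log n := by nlinarith
  have hXY : Xn η n ≤ Yn η n := by
    have h8 : (Xn η n : ℝ) < 2 * η * (n * Real.log n) + 1 := Nat.ceil_lt_add_one (by positivity)
    have h9 : (2 - 2 * η) * (n * Real.log n) < (Yn η n : ℝ) + 1 := Nat.lt_floor_add_one _
    have h10 : (Xn η n : ℝ) < (Yn η n : ℝ) + 1 := by nlinarith
    have h11 : Xn η n < Yn η n + 1 := by exact_mod_cast h10
    omega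
  have h0001 : 0 < (n : ℝ) ^ (0.001 : ℝ) := by positivity
  refine ⟨hX7, hXY, ?_, hlB, ?_, by omega, by linarith, hl1⟩
  · have hXn : (n : ℝ) ≤ Xn η n := by
      have : n ≤ Xn η n := by omega
      exact_mod_cast this
    have h8 : (Xn η n : ℝ) ^ (-(0.001 : ℝ)) ≤ (n : ℝ) ^ (-(0.001 : ℝ)) :=
      Real.rpow_le_rpow_of_nonpos hn0 hXn (by norm_num)
    refine h8.trans ?_
    rw [Real.rpow_neg hn0.le, le_div_iff₀ (by positivity), inv_mul_le_iff₀ (by positivity)]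
    linarith
  · have h8 : (Yn η n : ℝ) ≤ (2 - 2 * η) * (n * Real.log n) :=
      Nat.floor_le (mul_nonneg (by linarith) (by positivity))
    have h9 : (n : ℝ) ^ (1.001 : ℝ) = n * (n : ℝ) ^ (0.001 : ℝ) := by
      rw [show (1.001 : ℝ) = 1 + 0.001 by norm_num, Real.rpow_add hn0, Real.rpow_one]
    rw [h9]
    refine h8.trans ?_
    have h10 : (n : ℝ) * (2 * Real.log n) ≤ n * (n : ℝ) ^ (0.001 : ℝ) := mul_le_mul_of_nonneg_left h1 hn0.le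
    nlinarith [mul_pos hn0 (show (0 : ℝ) < Real.log n by linarith)]

/-- the error is small -/
lemma err {η : ℝ} (hη : 0 < η) (hη4 : η ≤ 1 / 4) :
    Tendsto (fun n : ℕ => (Yn η n : ℝ) ^ (0.995 : ℝ) * Real.log n ^ 3 / n) atTop (𝓝 0) := by
  have h0 : Tendsto (fun n : ℕ => ((n : ℝ) ^ (0.001 : ℝ))⁻¹) atTop (𝓝 0) :=
    (rpow_t 0.001 (by norm_num)).inv_tendsto_atTop
  refine squeeze_zero' ?_ ?_ h0
  · filter_upwards [log_t.eventually (eventually_ge_atTop 0)] with n h1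
    positivity
  · filter_upwards [ineq (ρ := 1) hη hη4 one_pos 0] with n h1
    obtain ⟨-, -, -, -, h2, h3, h4, h5⟩ := h1
    have hn0 : (0 : ℝ) < n := by
      have : 0 < n := by omega
      exact_mod_cast this
    have hn1 : (1 : ℝ) ≤ n := by exact_mod_cast h3
    have h6 : (Yn η n : ℝ) ^ (0.995 : ℝ) ≤ (n : ℝ) ^ (0.995995 : ℝ) := by
      refine (Real.rpow_le_rpow (Nat.cast_nonneg _) h2 (by norm_num)).trans (le_of_eq ?_)
      rw [← Real.rpow_mul hn0.le]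
      norm_num
    have h7 : Real.log (n : ℝ) ^ 3 ≤ (n : ℝ) ^ (0.003 : ℝ) := by
      refine (pow_le_pow_left₀ (by linarith) h4 3).trans (le_of_eq ?_)
      rw [← Real.rpow_natCast, ← Real.rpow_mul hn0.le]
      norm_num
    rw [div_le_iff₀ hn0, ← Real.rpow_neg hn0.le]
    calc (Yn η n : ℝ) ^ (0.995 : ℝ) * Real.log n ^ 3 ≤ (n : ℝ) ^ (0.995995 : ℝ) * (n : ℝ) ^ (0.003 : ℝ) :=
          mul_le_mul h6 h7 (by positivity) (by positivity)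
      _ = (n : ℝ) ^ (0.998995 : ℝ) := by
          rw [← Real.rpow_add hn0]
          norm_num
      _ ≤ (n : ℝ) ^ (-(0.001 : ℝ) + 1) := Real.rpow_le_rpow_of_exponent_le hn1 (by norm_num)
      _ = (n : ℝ) ^ (-(0.001 : ℝ)) * n := by rw [Real.rpow_add hn0, Real.rpow_one]

/-- the lengths of the windows -/
lemma win {η : ℝ} (hη : 0 < η) (hη4 : η ≤ 1 / 4) : ∀ᶠ n : ℕ in atTop,
    (n : ℝ) ^ (0.004 : ℝ) ≤ (⌊(Xn η n : ℝ) ^ (0.005 : ℝ)⌋₊ : ℝ) ∧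
    (⌊(Yn η n : ℝ) ^ (0.005 : ℝ)⌋₊ : ℝ) ≤ (n : ℝ) ^ (1 / 2 : ℝ) ∧
    3 * (⌊(Yn η n : ℝ) ^ (0.511 : ℝ)⌋₊ : ℝ) + (n : ℝ) ^ (1 / 2 : ℝ) + 2 * (n : ℝ) ^ (1 - 1 / 4 : ℝ) ≤ η / 2 * n ∧
    1 ≤ η * n := by
  filter_upwards [ineq (ρ := 1) hη hη4 one_pos 0, (rpow_t 0.001 (by norm_num)).eventually (eventually_ge_atTop 2),
    (rpow_t 0.004 (by norm_num)).eventually (eventually_ge_atTop 1),
    (rpow_t (1 / 4) (by norm_num)).eventually (eventually_ge_atTop (12 / η))] with n h1 ha hb hc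
  obtain ⟨h0, -, -, -, h2, h3, h4, h5⟩ := h1
  have hn0 : (0 : ℝ) < n := by
    have : 0 < n := by omega
    exact_mod_cast this
  have hn1 : (1 : ℝ) ≤ n := by exact_mod_cast h3
  have hA : 3 * (⌊(Yn η n : ℝ) ^ (0.511 : ℝ)⌋₊ : ℝ) + (n : ℝ) ^ (1 / 2 : ℝ) + 2 * (n : ℝ) ^ (1 - 1 / 4 : ℝ) ≤
      η / 2 * n := by
    have h6 : (⌊(Yn η n : ℝ) ^ (0.511 : ℝ)⌋₊ : ℝ) ≤ (n : ℝ) ^ (3 / 4 : ℝ) := by
      refine (Nat.floor_le (by positivity)).trans ?_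
      refine (Real.rpow_le_rpow (Nat.cast_nonneg _) h2 (by norm_num)).trans ?_
      rw [← Real.rpow_mul hn0.le]
      exact Real.rpow_le_rpow_of_exponent_le hn1 (by norm_num)
    have h7 : (n : ℝ) ^ (1 / 2 : ℝ) ≤ (n : ℝ) ^ (3 / 4 : ℝ) :=
      Real.rpow_le_rpow_of_exponent_le hn1 (by norm_num)
    have h8 : (n : ℝ) ^ (1 - 1 / 4 : ℝ) = (n : ℝ) ^ (3 / 4 : ℝ) := by norm_num
    have h9 : (n : ℝ) = (n : ℝ) ^ (3 / 4 : ℝ) * (n : ℝ) ^ (1 / 4 : ℝ) := by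
      rw [← Real.rpow_add hn0]
      norm_num
    rw [h8]
    have h10 : (0 : ℝ) < (n : ℝ) ^ (3 / 4 : ℝ) := by positivity
    have h11 : 12 ≤ η * (n : ℝ) ^ (1 / 4 : ℝ) := by
      rw [div_le_iff₀ hη] at hc
      linarith
    have h12 : 6 * (n : ℝ) ^ (3 / 4 : ℝ) ≤ η / 2 * ((n : ℝ) ^ (3 / 4 : ℝ) * (n : ℝ) ^ (1 / 4 : ℝ)) := by
      nlinarith
    rw [← h9] at h12
    linarith
  refine ⟨?_, ?_, hA, ?_⟩
  · have h6 : (Xn η n : ℝ) ^ (0.005 : ℝ) < (⌊(Xn η n : ℝ) ^ (0.005 : ℝ)⌋₊ : ℝ) + 1 := Nat.lt_floor_add_one _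
    have h7 : (n : ℝ) ^ (0.005 : ℝ) ≤ (Xn η n : ℝ) ^ (0.005 : ℝ) := by
      refine Real.rpow_le_rpow hn0.le ?_ (by norm_num)
      have : n ≤ Xn η n := by omega
      exact_mod_cast this
    have h8 : (n : ℝ) ^ (0.005 : ℝ) = (n : ℝ) ^ (0.004 : ℝ) * (n : ℝ) ^ (0.001 : ℝ) := by
      rw [← Real.rpow_add hn0]
      norm_num
    nlinarith
  · refine (Nat.floor_le (by positivity)).trans ?_
    refine (Real.rpow_le_rpow (Nat.cast_nonneg _) h2 (by norm_num)).trans ?_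
    rw [← Real.rpow_mul hn0.le]
    exact Real.rpow_le_rpow_of_exponent_le hn1 (by norm_num)
  · have h6 : 1 ≤ (n : ℝ) ^ (1 / 2 : ℝ) := Real.one_le_rpow hn1 (by norm_num)
    have h7 : 0 ≤ (n : ℝ) ^ (1 - 1 / 4 : ℝ) := by positivity
    have h8 : (0 : ℝ) ≤ (⌊(Yn η n : ℝ) ^ (0.511 : ℝ)⌋₊ : ℝ) := Nat.cast_nonneg _
    nlinarith

/-- the choice of the parameters -/
lemma params {c₂ ε : ℝ} (hc : 0 < c₂) (hε : 0 < ε) : ∃ (η : ℝ) (k : ℕ) (r : ℚ), 0 < η ∧ η ≤ 1 / 4 ∧ 0 < r ∧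
    (r : ℝ) < 1 ∧ 4 * c₂ - ε <
      (1 - 1 / ((k : ℝ) + 1)) * (r * (2 * c₂ * (2 - 2 * η) - 2 * c₂ * (2 * η))) := by
  set s := min (1 / 4) (ε / (13 * c₂ + 1)) with hs
  have hs0 : 0 < s := by
    rw [hs]
    positivity
  have hs4 : s ≤ 1 / 4 := min_le_left _ _
  have hse : 13 * c₂ * s < ε := by
    have h1 : s ≤ ε / (13 * c₂ + 1) := min_le_right _ _
    rw [le_div_iff₀ (by positivity)] at h1
    nlinarith
  obtain ⟨k, hk⟩ := exists_nat_one_div_lt hs0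
  obtain ⟨r, hr1, hr2⟩ := exists_rat_btwn (show 1 - s < 1 by linarith)
  have hr0 : (0 : ℝ) < r := by
    linarith
  refine ⟨s / 2, k, r, by positivity, by linarith, by exact_mod_cast hr0, hr2, ?_⟩
  have h1 : 1 - s < 1 - 1 / ((k : ℝ) + 1) := by linarith
  have h2 : 2 * c₂ * (2 - 2 * (s / 2)) - 2 * c₂ * (2 * (s / 2)) = 4 * c₂ * (1 - s) := by ring
  rw [h2]
  have h3 : (0 : ℝ) < 1 - s := by linarith
  have h4 : (1 - s) * (4 * c₂ * (1 - s)) < r * (4 * c₂ * (1 - s)) :=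
    mul_lt_mul_of_pos_right hr1 (by positivity)
  have h5 : (1 - s) * ((1 - s) * (4 * c₂ * (1 - s))) <
      (1 - 1 / ((k : ℝ) + 1)) * (r * (4 * c₂ * (1 - s))) := by
    refine mul_lt_mul'' h1 h4 h3.le (by positivity)
  refine lt_trans ?_ h5
  have h6 : (1 - s) * ((1 - s) * (4 * c₂ * (1 - s))) = 4 * c₂ * (1 - s) ^ 3 := by ring
  rw [h6]
  have h7 : 1 - 3 * s ≤ (1 - s) ^ 3 := by nlinarith [sq_nonneg s, mul_nonneg hs0.le (sq_nonneg s)]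
  nlinarith

lemma NQ_fin (A : Set ℕ) (n : ℕ) :
    {p : ℕ | p ∈ A ∧ p + 2 ∈ A ∧ ∃ q s : ℕ, pin A p = q + 2 ∧ q + s = 2 * n ∧ q ∈ A ∧ s ∈ A}.Finite := by
  refine Set.Finite.of_finite_image (f := pin A) ((Set.finite_Iic (2 * n + 2)).subset ?_) ?_
  · rintro _ ⟨p, ⟨-, -, q, s, h1, h2, -, -⟩, rfl⟩
    simp only [Set.mem_Iic]
    omega
  · intro p hp q hq h
    rcases lt_trichotomy p q with h1 | h1 | h1
    · exact absurd h (pin_lt A hq.1 h1).ne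
    · exact h1
    · exact absurd h (pin_lt A hp.1 h1).ne'

lemma NT_le (z W : ℕ → ℕ) (κ : ℝ) (n X Y : ℕ) (b : ℕ → ℕ) :
    NT z W {0, 2} Set.univ (fun _ => TQ (RS z W b) κ n) X Y b ≤ NQ (RS z W b) n := by
  classical
  unfold NT NQ
  rw [← Set.ncard_coe_finset]
  refine Set.ncard_le_ncard (fun p hp => ?_) (NQ_fin _ n)
  simp only [Finset.coe_filter, Finset.mem_Ioc, Set.mem_univ, true_and, Finset.mem_insert, Finset.mem_singleton,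
    forall_eq_or_imp, forall_eq, add_zero, Set.mem_ofPred_eq, TQ] at hp
  obtain ⟨-, ⟨h1, h2⟩, q, s, h3, h4, h5, h6, -, -⟩ := hp
  exact ⟨h1, h2, q, s, h3, h4, h5, h6⟩

lemma alg (a r D l P Q E n : ℝ) (hD : D ≠ 0) (hl : l ≠ 0) (hn : n ≠ 0) :
    (a * (r * D / l ^ 2 * (P - Q)) - E) * l ^ 3 / (n * D) =
      a * (r * (P * l / n - Q * l / n)) - E * l ^ 3 / n / D := by
  field_simp

lemma core (z W : ℕ → ℕ) (b : ℕ → ℕ) (c₂ η : ℝ) (k : ℕ) (r : ℚ) (hη : 0 < η) (hη4 : η ≤ 1 / 4) (hr : 0 < r)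
    (hc2 : 0 < c₂) (D : ℕ → ℝ) (hD : ∀ n, 2 * c₂ ≤ D n) (hDu : ∀ᶠ n : ℕ in atTop, D n ≤ 4 * Real.log n)
    (hp : Tendsto (fun x : ℕ => (pin (RS z W b) x : ℝ) * Real.log x / x) atTop (𝓝 1))
    (ht : Tendsto (fun x : ℕ => (tw (RS z W b) 0 x : ℝ) * Real.log x ^ 2 / x) atTop (𝓝 (2 * c₂)))
    (hreg : ∀ᶠ n : ℕ in atTop, ∀ j h : ℕ, (n : ℝ) ^ (0.004 : ℝ) ≤ h → (h : ℝ) ≤ (n : ℝ) ^ (1 / 2 : ℝ) →
      2 * (n : ℝ) ^ (1 - 1 / 4 : ℝ) ≤ j → (j : ℝ) + h + 2 * (n : ℝ) ^ (1 - 1 / 4 : ℝ) ≤ 2 * n →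
      (r : ℝ) * D n / Real.log n ^ 2 * h ≤ ((TQ (RS z W b) (1 / 4) n ∩ Set.Ioc j (j + h)).ncard : ℝ))
    (hchn : ∀ᶠ X : ℕ in atTop, ∀ n Y : ℕ, 2 * n ≤ X → n ≤ X ^ 2 → X ≤ Y →
      (X : ℝ) ^ (-(0.001 : ℝ)) ≤ (r : ℝ) * D n / Real.log n ^ 2 → (r : ℝ) * D n / Real.log n ^ 2 ≤ 1 →
      (∀ j h, hX X ≤ h → h ≤ hX Y → pin (RS z W b) X ≤ j + h + 1 → j ≤ pin (RS z W b) Y + 3 * uX Y →
        (r : ℝ) * D n / Real.log n ^ 2 * h ≤ ((TQ (RS z W b) (1 / 4) n ∩ Set.Ioc j (j + h)).ncard : ℝ)) →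
      (1 - 1 / ((k : ℝ) + 1)) * ((r : ℝ) * D n / Real.log n ^ 2 * MT z W {0, 2} Set.univ X Y b) -
          (Y : ℝ) ^ (0.995 : ℝ) ≤
        NT z W {0, 2} Set.univ (fun _ => TQ (RS z W b) (1 / 4) n) X Y b)
    (ε : ℝ) (hε : 4 * c₂ - ε < (1 - 1 / ((k : ℝ) + 1)) * (r * (2 * c₂ * (2 - 2 * η) - 2 * c₂ * (2 * η)))) :
    ∀ᶠ n : ℕ in atTop, 4 * c₂ - ε ≤ (NQ (RS z W b) n : ℝ) * Real.log n ^ 3 / (n * D n) := by
  have hr' : (0 : ℝ) < r := by exact_mod_cast hr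
  have hη1 : η < 1 := by linarith
  have hYX := cnt2 (Xn η) (2 * η) (by linarith) (Xn_lim hη) _ _ ht
  have hYY := cnt2 (Yn η) (2 - 2 * η) (by linarith) (Yn_lim hη1) _ _ ht
  have hpY := cnt1 (Yn η) (2 - 2 * η) (by linarith) (Yn_lim hη1) _ _ hp
  have hpX := cnt1 (Xn η) (2 * η) (by linarith) (Xn_lim hη) _ _ hp
  have hG := ((((hYY.sub hYX).const_mul (r : ℝ)).const_mul (1 - 1 / ((k : ℝ) + 1))).sub
    ((err hη hη4).div_const (2 * c₂)))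
  rw [zero_div, sub_zero] at hG
  filter_upwards [hG.eventually (lt_mem_nhds hε),
    hpY.eventually (gt_mem_nhds (show 1 * (2 - 2 * η) < 2 - η by linarith)),
    hpX.eventually (lt_mem_nhds (show 3 / 2 * η < 1 * (2 * η) by linarith)),
    (top (Xn η) (2 * η) (by linarith) (Xn_lim hη)).eventually hchn, hreg,
    ineq hη hη4 (show 0 < (r : ℝ) * (2 * c₂) by positivity) (4 * r), win hη hη4, hDu]
    with n h1 h2 h2' h3 h4 h5 h6 hDn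
  obtain ⟨a1, a2, a3, a4, a5, a6, a7, a8⟩ := h5
  obtain ⟨w1, w2, w3, w4⟩ := h6
  have hn0 : (0 : ℝ) < n := by
    have : 0 < n := by omega
    exact_mod_cast this
  have hl0 : 0 < Real.log (n : ℝ) := by linarith
  have hD0 : 0 < D n := by
    have := hD n
    linarith
  rw [div_lt_iff₀ hn0] at h2
  rw [lt_div_iff₀ hn0] at h2'
  have b3 : (Xn η n : ℝ) ^ (-(0.001 : ℝ)) ≤ (r : ℝ) * D n / Real.log n ^ 2 := by
    refine a3.trans ?_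
    exact div_le_div_of_nonneg_right (mul_le_mul_of_nonneg_left (hD n) hr'.le) (by positivity)
  have b4 : (r : ℝ) * D n / Real.log n ^ 2 ≤ 1 := by
    rw [div_le_one (by positivity)]
    have b5 : (r : ℝ) * D n ≤ r * (4 * Real.log n) := mul_le_mul_of_nonneg_left hDn hr'.le
    nlinarith
  have h7 := h3 n (Yn η n) a1 (by nlinarith) a2 b3 b4 (fun j h g1 g2 g3 g4 => by
    have g1' : (⌊(Xn η n : ℝ) ^ (0.005 : ℝ)⌋₊ : ℝ) ≤ h := by exact_mod_cast g1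
    have g2' : (h : ℝ) ≤ (⌊(Yn η n : ℝ) ^ (0.005 : ℝ)⌋₊ : ℝ) := by exact_mod_cast g2
    have g3' : (pin (RS z W b) (Xn η n) : ℝ) ≤ j + h + 1 := by exact_mod_cast g3
    have g4' : (j : ℝ) ≤ pin (RS z W b) (Yn η n) + 3 * (⌊(Yn η n : ℝ) ^ (0.511 : ℝ)⌋₊ : ℝ) := by exact_mod_cast g4
    have g5 := g2'.trans w2
    have g6 : (0 : ℝ) ≤ (⌊(Yn η n : ℝ) ^ (0.511 : ℝ)⌋₊ : ℝ) := Nat.cast_nonneg _
    refine h4 j h (w1.trans g1') (g2'.trans w2) ?_ ?_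
    · nlinarith
    · nlinarith)
  have h8 : (NT z W {0, 2} Set.univ (fun _ => TQ (RS z W b) (1 / 4) n) (Xn η n) (Yn η n) b : ℝ) ≤ NQ (RS z W b) n := by
    exact_mod_cast NT_le z W (1 / 4) n (Xn η n) (Yn η n) b
  have h9 : (MT z W {0, 2} Set.univ (Xn η n) (Yn η n) b : ℝ) =
      (tw (RS z W b) 0 (Yn η n) : ℝ) - tw (RS z W b) 0 (Xn η n) := by
    rw [MT_tw, tw_add _ a2]
    push_cast
    ring
  rw [h9] at h7
  have h10 := h7.trans h8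
  refine h1.le.trans ?_
  have hE : 0 ≤ (Yn η n : ℝ) ^ (0.995 : ℝ) * Real.log n ^ 3 / n := by positivity
  have h12 : (Yn η n : ℝ) ^ (0.995 : ℝ) * Real.log n ^ 3 / n / D n ≤
      (Yn η n : ℝ) ^ (0.995 : ℝ) * Real.log n ^ 3 / n / (2 * c₂) :=
    div_le_div_of_nonneg_left hE (by positivity) (hD n)
  have h11 := div_le_div_of_nonneg_right (mul_le_mul_of_nonneg_right h10 (pow_nonneg hl0.le 3))
    (show 0 ≤ (n : ℝ) * D n by positivity)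
  refine le_trans ?_ h11
  have h13 : ((1 - 1 / ((k : ℝ) + 1)) * ((r : ℝ) * D n / Real.log n ^ 2 *
      ((tw (RS z W b) 0 (Yn η n) : ℝ) - tw (RS z W b) 0 (Xn η n))) - (Yn η n : ℝ) ^ (0.995 : ℝ)) *
      Real.log n ^ 3 / (n * D n) =
      (1 - 1 / ((k : ℝ) + 1)) * (r * ((tw (RS z W b) 0 (Yn η n) : ℝ) * Real.log n / n -
        (tw (RS z W b) 0 (Xn η n) : ℝ) * Real.log n / n)) -
      (Yn η n : ℝ) ^ (0.995 : ℝ) * Real.log n ^ 3 / n / D n :=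
    alg _ _ _ _ _ _ _ _ hD0.ne' hl0.ne' hn0.ne'
  rw [h13]
  linarith

end QALN

theorem qal : S_QAL := by
  intro hWIN hCNT hCBE hCHN hREG hTGU hSM hZD c c₂ hc hc2 hC2 b hO ε hε
  have hz : zd (1 : ℝ) = z0 := by
    funext v
    simp [zd]
  have hL : Limit z0 := by
    have h := hZD 1 one_pos le_rfl
    rwa [hz] at h
  obtain ⟨hOK, -, hLaw⟩ := hO
  have hcnt := hCNT hWIN z0 hL c c₂ hc hC2 b hOK
  have hcb := hCBE hWIN hCNT c c₂ hc hC2 b hOK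
  obtain ⟨η, k, r, h1, h2, h3, h4, h5⟩ := QALN.params hc2 hε
  have hr' : (0 : ℝ) < r := by exact_mod_cast h3
  have hlaw := hLaw 1 (1 / 4) r k one_pos le_rfl (by norm_num) h3
  have hreg := hREG z0 hL c c₂ hc hc2 hC2 b hOK 0.004 (1 / 4) (1 - r) (by norm_num) (by norm_num)
    le_rfl (by rw [sub_pos]; exact h4)
  have hchn := hCHN (WW c) {0, 2} 2 (1 / ((k : ℝ) + 1))
    (fun n b => TQ (RS (zd ((1 : ℚ) : ℝ)) (WW c) b) ((1 / 4 : ℚ) : ℝ) n) (fun n => ⌈2 * ((1 : ℚ) : ℝ) * n⌉₊)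
    (fun n => (r : ℝ) * TG c₂ (2 * n) / Real.log n ^ 2) b (by positivity) hcb hlaw
  have hq1 : ((1 : ℚ) : ℝ) = 1 := by norm_num
  have hq4 : ((1 / 4 : ℚ) : ℝ) = 1 / 4 := by norm_num
  have hce : ∀ n : ℕ, ⌈2 * (1 : ℝ) * n⌉₊ = 2 * n := fun n => by
    have h : 2 * (1 : ℝ) * n = ((2 * n : ℕ) : ℝ) := by
      push_cast
      ring
    rw [h, Nat.ceil_natCast]
  rw [hq1, hq4, hz] at hchn
  simp only [hce] at hchn
  refine QALN.core z0 (WW c) b c₂ η k r h1 h2 h3 hc2 (fun n => TG c₂ (2 * n))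
    (fun n => Pool.Agent.H559.HY.TG_ge c₂ hc2 _) (hTGU hWIN c c₂ hc hc2 hC2 b hOK)
    hcnt.1 hcnt.2 ?_ ?_ ε h5
  · filter_upwards [hreg] with n hn j h g1 g2 g3 g4
    have h6 := (hn j h g1 g2).2 g3 g4
    rwa [sub_sub_cancel] at h6
  · filter_upwards [hchn] with X hX n Y g1 g2 g3 g4 g5 g6
    exact (hX n Y g1 g2 g3 g4 g5).2 g6

end Pool.Agent.H531.IX
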