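import Pool.Agent.H531.IX.Stm6
import Pool.Agent.H531.IX.EAU

set_option autoImplicit false

/-!
# The asymptotic upper bound for MP_0ec542 (helper977 for helper531)
-/

open Finset MeasureTheory ProbabilityTheory Filter Topology

namespace Pool.Agent.H531.IX

open Pool.Agent.T2H32.BF (Model z0 V z0_mono)
open Pool.Agent.H559.BS (Limit)
open Pool.Agent.H559.HY (OK WW Cut TG)
open Pool.Agent.T2H32.GB (C2)

namespace QAUN

open EAUN (pin_mono pin_lt pin_injOn pin_pos rs_sub cover nt_eq mt_eq mt_le ev_pow ev_logC ev_log ev_Q)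

/-! ## sets -/

theorem tq_mono {A A' : Set ℕ} (h : A ⊆ A') (κ : ℝ) (n : ℕ) : TQ A κ n ⊆ TQ A' κ n := by
  rintro m ⟨q, s, h1, h2, h3, h4, h5, h6⟩
  exact ⟨q, s, h1, h2, h h3, h h4, h5, h6⟩

theorem nq_le (z W : ℕ → ℕ) (b : ℕ → ℕ) (A3 A4 : Set ℕ) (h3 : RS z W b ⊆ A3) (h4 : RS z W b ⊆ A4)
    (κ : ℝ) (n X0 Y4 : ℕ) (hpin : 2 * n + 3 ≤ pin (RS z W b) Y4) :
    NQ (RS z W b) n ≤ 2 * (⌊(n : ℝ) ^ (1 - κ)⌋₊ + 1) +
      (TQ (RS z W b) κ n ∩ Set.Ioc 0 (pin (RS z W b) X0)).ncard +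
      NT z W {0, 2} Set.univ (fun _ => TQ A3 κ n) X0 (2 * n) b +
      NT z W {0, 2} Set.univ (fun _ => TQ A4 κ n) (2 * n) Y4 b := by
  rw [nt_eq, nt_eq]
  unfold NQ
  obtain ⟨R, hR⟩ : ∃ R, R = RS z W b := ⟨_, rfl⟩
  have hR3 : ∀ v ∈ R, 3 ≤ v := fun v hv => by
    rw [hR] at hv
    exact hv.1
  rw [← hR] at h3 h4 hpin ⊢
  have hY : ∀ p, pin R p ≤ 2 * n + 2 → p < Y4 := by
    intro p hp
    by_contra h
    rw [not_lt] at h
    have := pin_mono R h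
    omega
  obtain ⟨S0, hS0⟩ : ∃ S0 : Set ℕ, S0 = {p | p ∈ R ∧ ∃ q s : ℕ, pin R p = q + 2 ∧ q + s = 2 * n ∧
    (q : ℝ) < (n : ℝ) ^ (1 - κ)} := ⟨_, rfl⟩
  obtain ⟨S1, hS1⟩ : ∃ S1 : Set ℕ, S1 = {p | p ∈ R ∧ ∃ q s : ℕ, pin R p = q + 2 ∧ q + s = 2 * n ∧
    (s : ℝ) < (n : ℝ) ^ (1 - κ)} := ⟨_, rfl⟩
  obtain ⟨S2, hS2⟩ : ∃ S2 : Set ℕ, S2 = {p | p ∈ R ∧ p ≤ X0 ∧ pin R p ∈ TQ R κ n} := ⟨_, rfl⟩
  obtain ⟨F3, hF3⟩ : ∃ F3 : Set ℕ, F3 = {p : ℕ | (X0 < p ∧ p ≤ 2 * n) ∧ p ∈ Set.univ ∧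
    (∀ h ∈ ({0, 2} : Finset ℕ), p + h ∈ R) ∧ pin R p ∈ TQ A3 κ n} := ⟨_, rfl⟩
  obtain ⟨F4, hF4⟩ : ∃ F4 : Set ℕ, F4 = {p : ℕ | (2 * n < p ∧ p ≤ Y4) ∧ p ∈ Set.univ ∧
    (∀ h ∈ ({0, 2} : Finset ℕ), p + h ∈ R) ∧ pin R p ∈ TQ A4 κ n} := ⟨_, rfl⟩
  rw [← hF3, ← hF4]
  have hS0f : S0.Finite := by
    refine (Set.finite_Iio Y4).subset fun p hp => ?_
    rw [hS0] at hp
    obtain ⟨-, q, s, h5, h6, -⟩ := hp
    exact hY p (by omega)
  have hS1f : S1.Finite := by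
    refine (Set.finite_Iio Y4).subset fun p hp => ?_
    rw [hS1] at hp
    obtain ⟨-, q, s, h5, h6, -⟩ := hp
    exact hY p (by omega)
  have hS2f : S2.Finite := by
    refine (Set.finite_Iic X0).subset fun p hp => ?_
    rw [hS2] at hp
    exact hp.2.1
  have hF3f : F3.Finite := by
    refine (Set.finite_Iic (2 * n)).subset fun p hp => ?_
    rw [hF3] at hp
    exact hp.1.2
  have hF4f : F4.Finite := by
    refine (Set.finite_Iic Y4).subset fun p hp => ?_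
    rw [hF4] at hp
    exact hp.1.2
  have hsub : {p : ℕ | p ∈ R ∧ p + 2 ∈ R ∧ ∃ q s : ℕ, pin R p = q + 2 ∧ q + s = 2 * n ∧ q ∈ R ∧ s ∈ R} ⊆
      (((S0 ∪ S1) ∪ S2) ∪ F3) ∪ F4 := by
    rintro p ⟨hp, hp2, q, s, hpin', hqs, hq, hs⟩
    rcases lt_or_ge (q : ℝ) ((n : ℝ) ^ (1 - κ)) with hlt | hge
    · left; left; left; left
      rw [hS0]
      exact ⟨hp, q, s, hpin', hqs, hlt⟩
    · rcases lt_or_ge (s : ℝ) ((n : ℝ) ^ (1 - κ)) with hlt' | hge'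
      · left; left; left; right
        rw [hS1]
        exact ⟨hp, q, s, hpin', hqs, hlt'⟩
      · have hTE : pin R p ∈ TQ R κ n := ⟨q, s, hpin', hqs, hq, hs, hge, hge'⟩
        have hH : ∀ h ∈ ({0, 2} : Finset ℕ), p + h ∈ R := by
          intro h hh
          rw [Finset.mem_insert, Finset.mem_singleton] at hh
          rcases hh with rfl | rfl
          · exact hp
          · exact hp2
        rcases le_or_gt p X0 with hX | hX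
        · left; left; right
          rw [hS2]
          exact ⟨hp, hX, hTE⟩
        · rcases le_or_gt p (2 * n) with h7 | h7
          · left; right
            rw [hF3]
            exact ⟨⟨hX, h7⟩, Set.mem_univ _, hH, tq_mono h3 κ n hTE⟩
          · right
            rw [hF4]
            exact ⟨⟨h7, (hY p (by omega)).le⟩, Set.mem_univ _, hH, tq_mono h4 κ n hTE⟩
  have hcard : (Set.Icc 0 ⌊(n : ℝ) ^ (1 - κ)⌋₊).ncard = ⌊(n : ℝ) ^ (1 - κ)⌋₊ + 1 := by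
    rw [← Finset.coe_Icc, Set.ncard_coe_finset, Nat.card_Icc]
    omega
  have hc0 : S0.ncard ≤ ⌊(n : ℝ) ^ (1 - κ)⌋₊ + 1 := by
    rw [← hcard]
    refine Set.ncard_le_ncard_of_injOn (fun p => pin R p - 2) (fun p hp => ?_) (fun p hp p' hp' hpq => ?_)
      (Set.finite_Icc _ _)
    · rw [hS0] at hp
      obtain ⟨hp1, q, s, h5, h6, h7⟩ := hp
      have h8 : pin R p - 2 = q := by omega
      show pin R p - 2 ∈ _
      rw [h8]
      exact ⟨Nat.zero_le _, Nat.le_floor h7.le⟩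
    · rw [hS0] at hp hp'
      obtain ⟨hp1, q, s, h5, h6, -⟩ := hp
      obtain ⟨hp1', q', s', h5', h6', -⟩ := hp'
      have h7 : pin R p - 2 = pin R p' - 2 := hpq
      exact pin_injOn R hp1 hp1' (by omega)
  have hc1 : S1.ncard ≤ ⌊(n : ℝ) ^ (1 - κ)⌋₊ + 1 := by
    rw [← hcard]
    refine Set.ncard_le_ncard_of_injOn (fun p => 2 * n + 2 - pin R p) (fun p hp => ?_)
      (fun p hp p' hp' hpq => ?_) (Set.finite_Icc _ _)
    · rw [hS1] at hp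
      obtain ⟨hp1, q, s, h5, h6, h7⟩ := hp
      have h8 : 2 * n + 2 - pin R p = s := by omega
      show 2 * n + 2 - pin R p ∈ _
      rw [h8]
      exact ⟨Nat.zero_le _, Nat.le_floor h7.le⟩
    · rw [hS1] at hp hp'
      obtain ⟨hp1, q, s, h5, h6, -⟩ := hp
      obtain ⟨hp1', q', s', h5', h6', -⟩ := hp'
      have h7 : 2 * n + 2 - pin R p = 2 * n + 2 - pin R p' := hpq
      exact pin_injOn R hp1 hp1' (by omega)
  have hc2 : S2.ncard ≤ (TQ R κ n ∩ Set.Ioc 0 (pin R X0)).ncard := by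
    refine Set.ncard_le_ncard_of_injOn (pin R) (fun p hp => ?_) (fun p hp q hq hpq => ?_)
      ((Set.finite_Ioc _ _).subset Set.inter_subset_right)
    · rw [hS2] at hp
      obtain ⟨hp1, hp2, hp3⟩ := hp
      have h5 := hR3 p hp1
      exact ⟨hp3, pin_pos R hp1 (by omega), pin_mono R hp2⟩
    · rw [hS2] at hp hq
      exact pin_injOn R hp.1 hq.1 hpq
  have hall := Set.ncard_le_ncard hsub ((((hS0f.union hS1f).union hS2f).union hF3f).union hF4f)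
  have hu1 := Set.ncard_union_le (S0 ∪ S1 ∪ S2 ∪ F3) F4
  have hu2 := Set.ncard_union_le (S0 ∪ S1 ∪ S2) F3
  have hu3 := Set.ncard_union_le (S0 ∪ S1) S2
  have hu4 := Set.ncard_union_le S0 S1
  omega

/-! ## eventual inequalities -/

theorem tendsto_X0 (δ : ℝ) (hδ : 0 < δ) : Tendsto (fun n : ℕ => ⌈2 * δ * (n : ℝ)⌉₊) atTop atTop :=
  tendsto_nat_ceil_atTop.comp
    (Tendsto.const_mul_atTop (by positivity) tendsto_natCast_atTop_atTop)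

theorem ev_X0 (δ : ℝ) (hδ : 0 < δ) : ∀ᶠ n : ℕ in atTop, (n : ℝ) ^ (0.9 : ℝ) ≤ (⌈2 * δ * (n : ℝ)⌉₊ : ℝ) := by
  filter_upwards [ev_pow 0.1 (1 / (2 * δ)) (by norm_num), eventually_gt_atTop 0] with n h1 hn
  have hn' : (0 : ℝ) < n := by exact_mod_cast hn
  refine le_trans ?_ (Nat.le_ceil _)
  have h2 : (n : ℝ) = (n : ℝ) ^ (0.9 : ℝ) * (n : ℝ) ^ (0.1 : ℝ) := by
    rw [← Real.rpow_add hn']
    norm_num
  have h3 : 0 < (n : ℝ) ^ (0.9 : ℝ) := by positivity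
  rw [div_le_iff₀ (by positivity)] at h1
  calc (n : ℝ) ^ (0.9 : ℝ) = (n : ℝ) ^ (0.9 : ℝ) * 1 := by ring
    _ ≤ (n : ℝ) ^ (0.9 : ℝ) * ((n : ℝ) ^ (0.1 : ℝ) * (2 * δ)) := mul_le_mul_of_nonneg_left h1 h3.le
    _ = 2 * δ * ((n : ℝ) ^ (0.9 : ℝ) * (n : ℝ) ^ (0.1 : ℝ)) := by ring
    _ = 2 * δ * n := by rw [← h2]

/-! ## one range of `p` -/

theorem piece (hWIN : S_WIN) (hCHN : S_CHN) (hREG : S_REGQ) (hTGU : S_TGU) (hZD : S_ZD) (c c₂ : ℝ)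
    (hc : 1 < c) (hc2 : 0 < c₂) (hC2 : Tendsto C2 atTop (𝓝 c₂)) (b : ℕ → ℕ) (hOK : OKQ c c₂ b)
    (hCB : ∀ᶠ X : ℕ in atTop, CB z0 (WW c) X b) (δ κ r : ℚ) (k : ℕ) (e : ℝ) (he : 0 < e)
    (hδ : 0 < δ) (hδ1 : δ ≤ 1) (hκ : 0 < κ) (hκ1 : (κ : ℝ) ≤ 1 / 4) (hr0 : 0 < r)
    (hr : (1 + e) / (1 - (κ : ℝ)) ≤ r) :
    ∀ᶠ n : ℕ in atTop, ∀ Y : ℕ, ⌈2 * (δ : ℝ) * n⌉₊ ≤ Y → (Y : ℝ) ≤ (n : ℝ) ^ 2 →
      (NT z0 (WW c) {0, 2} Set.univ (fun _ => TQ (RS (zd δ) (WW c) b) κ n) ⌈2 * (δ : ℝ) * n⌉₊ Y b : ℝ) ≤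
      (1 + 1 / ((k : ℝ) + 1)) * (r * TG c₂ (2 * n) / Real.log n ^ 2 *
        MT z0 (WW c) {0, 2} Set.univ ⌈2 * (δ : ℝ) * n⌉₊ Y b) + (Y : ℝ) ^ (0.995 : ℝ) := by
  have hδ' : (0 : ℝ) < δ := by exact_mod_cast hδ
  have hδ1' : (δ : ℝ) ≤ 1 := by exact_mod_cast hδ1
  have hκ' : (0 : ℝ) < κ := by exact_mod_cast hκ
  have hr0' : (0 : ℝ) < r := by exact_mod_cast hr0
  have hchn := hCHN (WW c) {0, 2} 2 (1 / ((k : ℝ) + 1)) (fun n b => TQ (RS (zd δ) (WW c) b) κ n)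
    (fun n => ⌈2 * (δ : ℝ) * n⌉₊) (fun n => r * TG c₂ (2 * n) / Real.log n ^ 2) b (by positivity) hCB
    (hOK.2.2 δ κ r k hδ hδ1 hκ hr0)
  have hreg := hREG (zd δ) (hZD δ hδ' hδ1') c c₂ hc hc2 hC2 b (hOK.2.1 δ hδ hδ1)
    0.004 κ e (by norm_num) hκ' hκ1 he
  have htgu := hTGU hWIN c c₂ hc hc2 hC2 b hOK.1
  filter_upwards [(tendsto_X0 δ hδ').eventually hchn, hreg, ev_X0 δ hδ', eventually_gt_atTop 0,
    ev_pow 0.0005 2 (by norm_num), ev_log 0.0009 (1 / (r * (2 * c₂))) (by norm_num), ev_logC 1,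
    ev_logC (4 * r), htgu] with n h1 h2 h3 hn h4 h5 h6 h7 h70 Y hY1 hY2
  have hn1 : (1 : ℝ) ≤ n := by exact_mod_cast hn
  have hn0 : (0 : ℝ) < n := by linarith
  have hDge := Pool.Agent.H559.HY.TG_ge c₂ hc2 (2 * n)
  obtain ⟨D, hD⟩ : ∃ D : ℝ, D = TG c₂ (2 * n) := ⟨_, rfl⟩
  rw [← hD] at h2 h70 hDge ⊢
  have hD0 : 0 < D := by linarith
  obtain ⟨X, hXd⟩ : ∃ X : ℕ, X = ⌈2 * (δ : ℝ) * n⌉₊ := ⟨_, rfl⟩
  rw [← hXd] at h1 h3 hY1 ⊢
  have hX0 : (0 : ℝ) < X := lt_of_lt_of_le (by positivity) h3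
  have e1 : n ≤ X ^ 2 := by
    have h8 : (n : ℝ) ≤ (X : ℝ) ^ 2 := by
      calc (n : ℝ) = (n : ℝ) ^ (1 : ℝ) := (Real.rpow_one _).symm
        _ ≤ (n : ℝ) ^ (1.8 : ℝ) := Real.rpow_le_rpow_of_exponent_le hn1 (by norm_num)
        _ = ((n : ℝ) ^ (0.9 : ℝ)) ^ 2 := by
            rw [← Real.rpow_natCast, ← Real.rpow_mul hn0.le]
            norm_num
        _ ≤ (X : ℝ) ^ 2 := pow_le_pow_left₀ (by positivity) h3 2
    exact_mod_cast h8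
  have e20 : (X : ℝ) ^ (-(0.001 : ℝ)) ≤ r * (2 * c₂) / Real.log n ^ 2 := by
    rw [Real.rpow_neg hX0.le, inv_le_comm₀ (by positivity) (by positivity), inv_div]
    calc Real.log n ^ 2 / (r * (2 * c₂)) ≤ 1 / (r * (2 * c₂)) * Real.log n ^ 4 := by
          have h8 : Real.log n ^ 2 ≤ Real.log n ^ 4 := pow_le_pow_right₀ h6 (by norm_num)
          rw [one_div, inv_mul_eq_div]
          exact div_le_div_of_nonneg_right h8 (by positivity)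
      _ ≤ (n : ℝ) ^ (0.0009 : ℝ) := h5
      _ = ((n : ℝ) ^ (0.9 : ℝ)) ^ (0.001 : ℝ) := by
            rw [← Real.rpow_mul hn0.le]
            norm_num
      _ ≤ (X : ℝ) ^ (0.001 : ℝ) := Real.rpow_le_rpow (by positivity) h3 (by norm_num)
  have e2 : (X : ℝ) ^ (-(0.001 : ℝ)) ≤ r * D / Real.log n ^ 2 :=
    e20.trans (div_le_div_of_nonneg_right (mul_le_mul_of_nonneg_left hDge hr0'.le) (by positivity))
  have e3 : r * D / Real.log n ^ 2 ≤ 1 := by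
    rw [div_le_one (by positivity)]
    have h8 : r * D ≤ r * (4 * Real.log n) := mul_le_mul_of_nonneg_left h70 hr0'.le
    have h9 : 4 * r * Real.log n ≤ Real.log n * Real.log n :=
      mul_le_mul_of_nonneg_right h7 (by linarith)
    nlinarith
  have h1' := (h1 n Y (by rw [hXd]) e1 hY1 (by rw [← hD]; exact e2) (by rw [← hD]; exact e3)).1
  rw [← hD] at h1'
  refine h1' fun j h hh1 hh2 _ _ => ?_
  have e4 : (n : ℝ) ^ (0.004 : ℝ) ≤ h := by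
    have h8 : (n : ℝ) ^ (0.0045 : ℝ) ≤ (X : ℝ) ^ (0.005 : ℝ) := by
      calc (n : ℝ) ^ (0.0045 : ℝ) = ((n : ℝ) ^ (0.9 : ℝ)) ^ (0.005 : ℝ) := by
            rw [← Real.rpow_mul hn0.le]
            norm_num
        _ ≤ (X : ℝ) ^ (0.005 : ℝ) := Real.rpow_le_rpow (by positivity) h3 (by norm_num)
    have h9 : (X : ℝ) ^ (0.005 : ℝ) < hX X + 1 := Nat.lt_floor_add_one _
    have h10 : ((hX X : ℕ) : ℝ) ≤ h := by exact_mod_cast hh1
    have h11 : (n : ℝ) ^ (0.0045 : ℝ) = (n : ℝ) ^ (0.004 : ℝ) * (n : ℝ) ^ (0.0005 : ℝ) := by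
      rw [← Real.rpow_add hn0]
      norm_num
    have h12 : (1 : ℝ) ≤ (n : ℝ) ^ (0.004 : ℝ) := Real.one_le_rpow hn1 (by norm_num)
    have h13 : (n : ℝ) ^ (0.004 : ℝ) * 2 ≤ (n : ℝ) ^ (0.004 : ℝ) * (n : ℝ) ^ (0.0005 : ℝ) :=
      mul_le_mul_of_nonneg_left h4 (by positivity)
    linarith
  have e5 : (h : ℝ) ≤ (n : ℝ) ^ (1 / 2 : ℝ) := by
    have h8 : (h : ℝ) ≤ (hX Y : ℕ) := by exact_mod_cast hh2
    have h9 : ((hX Y : ℕ) : ℝ) ≤ (Y : ℝ) ^ (0.005 : ℝ) := Nat.floor_le (by positivity)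
    calc (h : ℝ) ≤ (Y : ℝ) ^ (0.005 : ℝ) := h8.trans h9
      _ ≤ ((n : ℝ) ^ 2) ^ (0.005 : ℝ) := Real.rpow_le_rpow (by positivity) hY2 (by norm_num)
      _ = (n : ℝ) ^ (0.01 : ℝ) := by
          rw [← Real.rpow_natCast, ← Real.rpow_mul hn0.le]
          norm_num
      _ ≤ (n : ℝ) ^ (1 / 2 : ℝ) := Real.rpow_le_rpow_of_exponent_le hn1 (by norm_num)
  refine ((h2 j h e4 e5).1).trans ?_
  apply mul_le_mul_of_nonneg_right _ (Nat.cast_nonneg h)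
  rw [← div_div]
  refine div_le_div_of_nonneg_right ?_ (by positivity)
  have h14 := mul_le_mul_of_nonneg_right hr hD0.le
  calc (1 + e) * D / (1 - (κ : ℝ)) = (1 + e) / (1 - (κ : ℝ)) * D := by ring
    _ ≤ r * D := h14

/-! ## the parameters -/

theorem choose_theta (c₂ ε : ℝ) (hc2 : 0 < c₂) (hε : 0 < ε) : ∃ θ : ℚ, 0 < θ ∧ (θ : ℝ) ≤ 1 / 4 ∧
    ∀ r : ℝ, r ≤ (1 + 2 * (θ : ℝ)) / (1 - (θ : ℝ)) →
      4 * (θ : ℝ) + 8 * r * θ + (1 + (θ : ℝ)) ^ 2 * r * (2 * (2 * c₂ + θ)) ≤ 4 * c₂ + ε := by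
  obtain ⟨g, hg⟩ : ∃ g : ℝ → ℝ, g = fun x => 4 * x + 8 * ((1 + 2 * x) / (1 - x)) * x +
    (1 + x) ^ 2 * ((1 + 2 * x) / (1 - x)) * (2 * (2 * c₂ + x)) := ⟨_, rfl⟩
  have hcont : ContinuousAt g 0 := by
    have h1 : ContinuousAt (fun x : ℝ => (1 + 2 * x) / (1 - x)) 0 := by
      apply ContinuousAt.div
      · fun_prop
      · fun_prop
      · norm_num
    rw [hg]
    have h2 : ContinuousAt (fun x : ℝ => 4 * x) 0 := by fun_prop
    have h3 : ContinuousAt (fun x : ℝ => x) 0 := by fun_prop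
    have h4 : ContinuousAt (fun x : ℝ => (1 + x) ^ 2) 0 := by fun_prop
    have h5 : ContinuousAt (fun x : ℝ => 2 * (2 * c₂ + x)) 0 := by fun_prop
    exact (h2.add ((h1.const_mul 8).mul h3)).add ((h4.mul h1).mul h5)
  have hg0 : g 0 = 4 * c₂ := by rw [hg]; norm_num; ring
  obtain ⟨d, hd, hd'⟩ := Metric.continuousAt_iff.mp hcont ε hε
  obtain ⟨θ, hθ1, hθ2⟩ := exists_rat_btwn (show (0 : ℝ) < min d (1 / 4) from lt_min hd (by norm_num))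
  have hθ0 : 0 < θ := by exact_mod_cast hθ1
  refine ⟨θ, hθ0, (hθ2.trans_le (min_le_right _ _)).le, fun r hr => ?_⟩
  have h1 := hd' (x := (θ : ℝ)) (by
    rw [Real.dist_eq, sub_zero, abs_of_pos hθ1]
    exact hθ2.trans_le (min_le_left _ _))
  rw [Real.dist_eq, hg0] at h1
  have h2 := (abs_lt.mp h1).2
  rw [hg] at h2
  simp only at h2
  have h3 : 8 * r * θ ≤ 8 * ((1 + 2 * (θ : ℝ)) / (1 - (θ : ℝ))) * θ := by
    have := mul_le_mul_of_nonneg_right hr hθ1.le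
    linarith
  have h4 : (1 + (θ : ℝ)) ^ 2 * r * (2 * (2 * c₂ + θ)) ≤
      (1 + (θ : ℝ)) ^ 2 * ((1 + 2 * (θ : ℝ)) / (1 - (θ : ℝ))) * (2 * (2 * c₂ + θ)) := by
    have h5 : 0 ≤ (1 + (θ : ℝ)) ^ 2 := by positivity
    have h6 : 0 ≤ 2 * (2 * c₂ + (θ : ℝ)) := by positivity
    exact mul_le_mul_of_nonneg_right (mul_le_mul_of_nonneg_left hr h5) h6
  linarith

/-- `Y = ⌊(1 + θ) 2 n log n⌋` -/
theorem ev_Y4 (A : Set ℕ) (θ : ℝ) (hθ : 0 < θ) (hθ4 : θ ≤ 1 / 4)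
    (hA : Tendsto (fun x : ℕ => (pin A x : ℝ) * Real.log x / x) atTop (𝓝 1)) :
    Tendsto (fun n : ℕ => ⌊(1 + θ) * (2 * n) * Real.log n⌋₊) atTop atTop ∧
    ∀ᶠ n : ℕ in atTop, 2 * n + 3 ≤ pin A ⌊(1 + θ) * (2 * n) * Real.log n⌋₊ ∧
      2 * n ≤ ⌊(1 + θ) * (2 * n) * Real.log n⌋₊ ∧
      (⌊(1 + θ) * (2 * n) * Real.log n⌋₊ : ℝ) ≤ (n : ℝ) ^ 2 := by
  have ht : Tendsto (fun n : ℕ => ⌊(1 + θ) * (2 * n) * Real.log n⌋₊) atTop atTop := by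
    refine tendsto_atTop_mono' atTop ?_ tendsto_id
    filter_upwards [ev_logC 1] with n hL
    refine Nat.le_floor ?_
    have hn : (0 : ℝ) ≤ n := Nat.cast_nonneg n
    have h1 : (n : ℝ) * 1 ≤ n * Real.log n := mul_le_mul_of_nonneg_left hL hn
    have h2 : 0 ≤ θ * (n * Real.log n) := by positivity
    show ((n : ℕ) : ℝ) ≤ _
    linarith
  refine ⟨ht, ?_⟩
  have hlow := (hA.comp ht).eventually_const_le (show 1 - θ / 8 < 1 by linarith)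
  filter_upwards [hlow, ev_logC 7, ev_log (θ / 8) 4 (by positivity), eventually_gt_atTop 0,
    ev_log 1 4 one_pos, ev_pow 1 (12 / θ) one_pos] with n h1 hL h3 hn h5 h6
  have hn0 : (0 : ℝ) < n := by exact_mod_cast hn
  have hL0 : 0 < Real.log n := by linarith
  have hLL : Real.log n ≤ Real.log n ^ 4 := by
    calc Real.log n = Real.log n ^ 1 := (pow_one _).symm
      _ ≤ Real.log n ^ 4 := pow_le_pow_right₀ (by linarith) (by norm_num)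
  rw [Real.rpow_one] at h5 h6
  obtain ⟨Y, hY⟩ : ∃ Y : ℕ, Y = ⌊(1 + θ) * (2 * n) * Real.log n⌋₊ := ⟨_, rfl⟩
  simp only [Function.comp_apply] at h1
  rw [← hY] at h1 ⊢
  have hYle : (Y : ℝ) ≤ (1 + θ) * (2 * n) * Real.log n := by
    rw [hY]
    exact Nat.floor_le (by positivity)
  have hYlt : (1 + θ) * (2 * n) * Real.log n < Y + 1 := by
    rw [hY]
    exact Nat.lt_floor_add_one _
  have hnL : 0 < n * Real.log n := by positivity
  have hY2 : (Y : ℝ) ≤ 4 * (n * Real.log n) := by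
    nlinarith
  have e0 : 12 ≤ θ * (n : ℝ) := by
    rw [div_le_iff₀ hθ] at h6
    linarith
  have e00 : θ * (n : ℝ) * 1 ≤ θ * n * Real.log n :=
    mul_le_mul_of_nonneg_left (by linarith) (by positivity)
  have h7 : 2 * (n : ℝ) ≤ Y := by
    have e1 : 7 * (n : ℝ) ≤ n * Real.log n := by
      have := mul_le_mul_of_nonneg_left hL hn0.le
      linarith
    linarith
  have hY0 : (0 : ℝ) < Y := by linarith
  have hYn2 : (Y : ℝ) ≤ (n : ℝ) ^ 2 := by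
    have e1 : 4 * Real.log n ≤ n := by linarith
    have e2 : (n : ℝ) * (4 * Real.log n) ≤ n * n := mul_le_mul_of_nonneg_left e1 hn0.le
    nlinarith
  have hlogY : Real.log Y ≤ (1 + θ / 8) * Real.log n := by
    have e1 : (Y : ℝ) ≤ (n : ℝ) ^ (1 + θ / 8) := by
      rw [Real.rpow_add hn0, Real.rpow_one]
      have e2 : 4 * Real.log n ≤ (n : ℝ) ^ (θ / 8) := by linarith
      have e3 := mul_le_mul_of_nonneg_left e2 hn0.le
      linarith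
    calc Real.log Y ≤ Real.log ((n : ℝ) ^ (1 + θ / 8)) := Real.log_le_log hY0 e1
      _ = (1 + θ / 8) * Real.log n := Real.log_rpow hn0 _
  refine ⟨?_, by exact_mod_cast h7, hYn2⟩
  rw [le_div_iff₀ hY0] at h1
  have hp0 : (0 : ℝ) ≤ pin A Y := Nat.cast_nonneg _
  have h8 : (pin A Y : ℝ) * Real.log Y ≤ pin A Y * ((1 + θ / 8) * Real.log n) :=
    mul_le_mul_of_nonneg_left hlogY hp0
  have h9 : (1 + θ / 2) * (2 * (n * Real.log n)) ≤ Y := by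
    linarith
  have h10 : (1 + θ / 8) * (1 + θ / 8) * (2 * (n * Real.log n)) ≤ (1 - θ / 8) * Y := by
    have e1 : (1 - θ / 8) * ((1 + θ / 2) * (2 * (n * Real.log n))) ≤ (1 - θ / 8) * Y :=
      mul_le_mul_of_nonneg_left h9 (by linarith)
    have e2 : (1 + θ / 8) * (1 + θ / 8) * (2 * (n * Real.log n)) ≤
        (1 - θ / 8) * ((1 + θ / 2) * (2 * (n * Real.log n))) := by
      have e3 : (1 + θ / 8) * (1 + θ / 8) ≤ (1 - θ / 8) * (1 + θ / 2) := by nlinarith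
      have e4 := mul_le_mul_of_nonneg_right e3 (show 0 ≤ 2 * (n * Real.log n) by positivity)
      linarith
    linarith
  have h11 : (1 + θ / 8) * (2 * n) * ((1 + θ / 8) * Real.log n) ≤ pin A Y * ((1 + θ / 8) * Real.log n) := by
    linarith
  have h12 : (1 + θ / 8) * (2 * (n : ℝ)) ≤ pin A Y := le_of_mul_le_mul_right h11 (by positivity)
  have h13 : 2 * (n : ℝ) + 3 ≤ pin A Y := by linarith
  exact_mod_cast h13

end QAUN

open EAUN (pin_mono pin_lt pin_injOn pin_pos rs_sub cover nt_eq mt_eq mt_le ev_pow ev_logC ev_log ev_Q)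

open QAUN in
/-- **QAU** -/
theorem qau : S_QAU := by
  intro hWIN hCNT hCBE hCHN hREG hTGU hSM hZD c c₂ hc hc2 hC2 b hOK ε hε
  obtain ⟨θ, hθ0, hθ4, hθg⟩ := choose_theta c₂ ε hc2 hε
  have hθ0' : (0 : ℝ) < θ := by exact_mod_cast hθ0
  have hθ1 : θ ≤ 1 := by
    have : (θ : ℝ) ≤ 1 := by linarith
    exact_mod_cast this
  have hden : 0 < 1 - (θ : ℝ) := by linarith
  obtain ⟨r, hr1, hr2⟩ := exists_rat_btwn (show (1 + (θ : ℝ)) / (1 - (θ : ℝ)) <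
      (1 + 2 * (θ : ℝ)) / (1 - (θ : ℝ)) from by
    apply div_lt_div_of_pos_right _ hden
    linarith)
  have hr0' : (0 : ℝ) < r := lt_trans (by positivity) hr1
  have hr0 : 0 < r := by exact_mod_cast hr0'
  have hfin := hθg r hr2.le
  obtain ⟨k, hk⟩ := exists_nat_one_div_lt hθ0'
  have hzd1 : zd 1 = z0 := by
    funext v
    unfold zd
    rw [one_mul, Nat.floor_natCast]
  have hLim : Limit z0 := by
    have := hZD 1 one_pos le_rfl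
    rwa [hzd1] at this
  obtain ⟨hpinT, htwT⟩ := hCNT hWIN z0 hLim c c₂ hc hC2 b hOK.1
  have hCB := hCBE hWIN hCNT c c₂ hc hC2 b hOK.1
  obtain ⟨hY4t, hY4⟩ := ev_Y4 (RS z0 (WW c) b) θ hθ0' hθ4 hpinT
  have hp3 := piece hWIN hCHN hREG hTGU hZD c c₂ hc hc2 hC2 b hOK hCB θ θ r k θ hθ0' hθ0 hθ1 hθ0 hθ4 hr0 hr1.le
  have hp4 := piece hWIN hCHN hREG hTGU hZD c c₂ hc hc2 hC2 b hOK hCB 1 θ r k θ hθ0' one_pos le_rfl hθ0 hθ4 hr0 hr1.le
  have hreg := hREG z0 hLim c c₂ hc hc2 hC2 b hOK.1 0.1 θ θ (by norm_num) hθ0' hθ4 hθ0'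
  have hX0t := tendsto_X0 (θ : ℝ) hθ0'
  have h2t : Tendsto (fun n : ℕ => 2 * n) atTop atTop :=
    tendsto_id.const_mul_atTop' (by norm_num)
  have hpX := (hpinT.comp hX0t).eventually_le_const (show (1 : ℝ) < 2 by norm_num)
  have htw7 := (htwT.comp h2t).eventually_le_const (show 2 * c₂ < 2 * c₂ + θ by linarith)
  have htwY := (htwT.comp hY4t).eventually_le_const (show 2 * c₂ < 2 * c₂ + θ by linarith)
  have hθc : 0 < (θ : ℝ) * (2 * c₂) := by positivity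
  filter_upwards [hY4, hp3, hp4, hreg, hpX, htw7, htwY, ev_Q θ 4 (θ * (2 * c₂)) hθ0' hθc,
    ev_Q 0.005 2 (θ * (2 * c₂)) (by norm_num) hθc, ev_Q 0.005 4 (θ * (2 * c₂)) (by norm_num) hθc,
    ev_Q (3 / 4) 2 θ (by norm_num) hθ0',
    ev_X0 θ hθ0', ev_logC 1, ev_logC ((1 + θ) * r * (2 * (2 * c₂ + θ)) / θ), eventually_ge_atTop 7,
    ev_pow 1 (1 / θ) one_pos, ev_pow (1 / 4) 2 (by norm_num)] with n hY4n hp3n hp4n hregn hpXn htw7n htwYn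
    hQ1 hQ2 hQ3 hQ4 hX09 hL1 hL2 hn7 hnθ hn4
  obtain ⟨hnpin, h7Y, hYn2⟩ := hY4n
  simp only [Function.comp_apply] at hpXn htw7n htwYn
  have hDge := Pool.Agent.H559.HY.TG_ge c₂ hc2 (2 * n)
  obtain ⟨D, hD⟩ : ∃ D : ℝ, D = TG c₂ (2 * n) := ⟨_, rfl⟩
  rw [← hD] at hp3n hp4n hregn hDge ⊢
  have hD0 : 0 < D := by linarith
  obtain ⟨Y, hY⟩ : ∃ Y : ℕ, Y = ⌊(1 + (θ : ℝ)) * (2 * n) * Real.log n⌋₊ := ⟨_, rfl⟩
  obtain ⟨X, hX⟩ : ∃ X : ℕ, X = ⌈2 * (θ : ℝ) * n⌉₊ := ⟨_, rfl⟩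
  have hX1 : ⌈2 * ((1 : ℚ) : ℝ) * n⌉₊ = 2 * n := by
    rw [Rat.cast_one, mul_one, show (2 : ℝ) * n = ((2 * n : ℕ) : ℝ) by push_cast; ring,
      Nat.ceil_natCast]
  rw [hX1] at hp4n
  rw [← hY] at hnpin h7Y hYn2 htwYn
  rw [← hX] at hp3n hpXn hX09
  obtain ⟨L, hL⟩ : ∃ L : ℝ, L = Real.log n := ⟨_, rfl⟩
  obtain ⟨Q, hQ⟩ : ∃ Q : ℝ, Q = n / Real.log n ^ 3 := ⟨_, rfl⟩
  have hnR : (7 : ℝ) ≤ n := by exact_mod_cast hn7
  have hn0 : (0 : ℝ) < n := by linarith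
  have hL0 : 0 < L := by rw [hL]; linarith
  have hQL : Q * L ^ 3 = n := by
    rw [hQ, hL]
    rw [hL] at hL0
    field_simp
  have hQ0 : 0 < Q := by rw [hQ, ← hL]; positivity
  rw [← hQ] at hQ1 hQ2 hQ3 hQ4
  rw [← hL] at hQ1 hQ2 hQ3 hQ4 hL1 hL2 hp3n hp4n hregn hY
  -- `θ (2 c₂) Q ≤ θ (D Q)`
  have hcD : θ * (2 * c₂) * Q ≤ θ * (D * Q) := by
    have := mul_le_mul_of_nonneg_right hDge (show 0 ≤ θ * Q by positivity)
    linarith
  have hmain := nq_le z0 (WW c) b (RS (zd θ) (WW c) b) (RS (zd ((1 : ℚ) : ℝ)) (WW c) b)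
    (rs_sub θ (by linarith) (WW c) b) (rs_sub _ (by rw [Rat.cast_one]) (WW c) b) θ n X Y hnpin
  have hmain' : (NQ (RS z0 (WW c) b) n : ℝ) ≤ 2 * ((⌊(n : ℝ) ^ (1 - (θ : ℝ))⌋₊ : ℝ) + 1) +
      ((TQ (RS z0 (WW c) b) θ n ∩ Set.Ioc 0 (pin (RS z0 (WW c) b) X)).ncard : ℝ) +
      (NT z0 (WW c) {0, 2} Set.univ (fun _ => TQ (RS (zd θ) (WW c) b) θ n) X (2 * n) b : ℝ) +
      (NT z0 (WW c) {0, 2} Set.univ (fun _ => TQ (RS (zd ((1 : ℚ) : ℝ)) (WW c) b) θ n) (2 * n) Y b : ℝ) := by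
    exact_mod_cast hmain
  -- kind I
  have hI : 2 * ((⌊(n : ℝ) ^ (1 - (θ : ℝ))⌋₊ : ℝ) + 1) ≤ θ * (D * Q) := by
    have e1 : (⌊(n : ℝ) ^ (1 - (θ : ℝ))⌋₊ : ℝ) ≤ (n : ℝ) ^ (1 - (θ : ℝ)) := Nat.floor_le (by positivity)
    have e0 : (1 : ℝ) ≤ (n : ℝ) ^ (1 - (θ : ℝ)) := Real.one_le_rpow (by linarith) (by linarith)
    have e2 : (n : ℝ) ^ (1 - (θ : ℝ)) * 1 ≤ (n : ℝ) ^ (1 - (θ : ℝ)) * L :=
      mul_le_mul_of_nonneg_left hL1 (by positivity)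
    linarith
  -- kind II
  have hII : ((TQ (RS z0 (WW c) b) θ n ∩ Set.Ioc 0 (pin (RS z0 (WW c) b) X)).ncard : ℝ) ≤
      8 * r * θ * (D * Q) := by
    obtain ⟨h, hh⟩ : ∃ h : ℕ, h = ⌈(n : ℝ) ^ (1 / 4 : ℝ)⌉₊ := ⟨_, rfl⟩
    have hn1 : (1 : ℝ) ≤ n := by linarith
    have e1 : (n : ℝ) ^ (1 / 4 : ℝ) ≤ h := by rw [hh]; exact Nat.le_ceil _
    have e2 : (h : ℝ) < (n : ℝ) ^ (1 / 4 : ℝ) + 1 := by
      rw [hh]
      exact Nat.ceil_lt_add_one (by positivity)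
    have e3 : (1 : ℝ) ≤ (n : ℝ) ^ (1 / 4 : ℝ) := by linarith
    have e4 : (n : ℝ) ^ (0.1 : ℝ) ≤ h :=
      (Real.rpow_le_rpow_of_exponent_le hn1 (by norm_num)).trans e1
    have e5 : (n : ℝ) ^ (1 / 2 : ℝ) = (n : ℝ) ^ (1 / 4 : ℝ) * (n : ℝ) ^ (1 / 4 : ℝ) := by
      rw [← Real.rpow_add hn0]
      norm_num
    have e6 : (h : ℝ) ≤ (n : ℝ) ^ (1 / 2 : ℝ) := by
      rw [e5]
      nlinarith
    have e7 : 1 ≤ h := by
      have : (1 : ℝ) ≤ h := by linarith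
      exact_mod_cast this
    have hcov := cover (TQ (RS z0 (WW c) b) θ n) ((1 + (θ : ℝ)) * D / ((1 - (θ : ℝ)) * L ^ 2)) h e7
      (fun j => (hregn j h e4 e6).1) (pin (RS z0 (WW c) b) X)
    -- the length
    have hX0 : (0 : ℝ) < X := lt_of_lt_of_le (by positivity) hX09
    have e8 : (X : ℝ) ≤ 3 * θ * n := by
      have e9 : (X : ℝ) < 2 * θ * n + 1 := by
        rw [hX]
        exact Nat.ceil_lt_add_one (by positivity)
      rw [Real.rpow_one, div_le_iff₀ hθ0'] at hnθ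
      linarith
    have e10 : 0.9 * L ≤ Real.log X := by
      rw [hL]
      calc 0.9 * Real.log n = Real.log ((n : ℝ) ^ (0.9 : ℝ)) := (Real.log_rpow hn0 _).symm
        _ ≤ Real.log X := Real.log_le_log (by positivity) hX09
    have e11 : (pin (RS z0 (WW c) b) X : ℝ) ≤ 7 * θ * (Q * L ^ 2) := by
      rw [div_le_iff₀ hX0] at hpXn
      have e12 : (pin (RS z0 (WW c) b) X : ℝ) * (0.9 * L) ≤ pin (RS z0 (WW c) b) X * Real.log X :=
        mul_le_mul_of_nonneg_left e10 (Nat.cast_nonneg _)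
      have e13 : (pin (RS z0 (WW c) b) X : ℝ) * L ≤ 7 * θ * n := by
        have : 0 < θ * (n : ℝ) := by positivity
        linarith
      have e14 : 7 * θ * (Q * L ^ 2) * L = 7 * θ * n := by rw [← hQL]; ring
      exact le_of_mul_le_mul_right (by rw [e14]; exact e13) hL0
    have e15 : (h : ℝ) ≤ θ * (Q * L ^ 2) := by
      have e16 : (1 : ℝ) - 3 / 4 = 1 / 4 := by norm_num
      rw [e16] at hQ4
      have e17 : 2 * (n : ℝ) ^ (1 / 4 : ℝ) * 1 ≤ 2 * (n : ℝ) ^ (1 / 4 : ℝ) * L :=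
        mul_le_mul_of_nonneg_left hL1 (by positivity)
      have e18 : θ * Q * 1 ≤ θ * Q * L ^ 2 :=
        mul_le_mul_of_nonneg_left (one_le_pow₀ hL1) (by positivity)
      linarith
    have e19 : (1 + (θ : ℝ)) * D / ((1 - (θ : ℝ)) * L ^ 2) ≤ r * D / L ^ 2 := by
      rw [← div_div]
      refine div_le_div_of_nonneg_right ?_ (by positivity)
      have h14 := mul_le_mul_of_nonneg_right hr1.le hD0.le
      calc (1 + (θ : ℝ)) * D / (1 - (θ : ℝ)) = (1 + (θ : ℝ)) / (1 - (θ : ℝ)) * D := by ring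
        _ ≤ r * D := h14
    calc ((TQ (RS z0 (WW c) b) θ n ∩ Set.Ioc 0 (pin (RS z0 (WW c) b) X)).ncard : ℝ)
        ≤ (1 + (θ : ℝ)) * D / ((1 - (θ : ℝ)) * L ^ 2) * ((pin (RS z0 (WW c) b) X : ℝ) + h) := hcov
      _ ≤ r * D / L ^ 2 * (8 * θ * (Q * L ^ 2)) := by
          apply mul_le_mul e19 _ (by positivity) (by positivity)
          linarith
      _ = 8 * r * θ * (D * Q) := by field_simp
  have hk' : 1 + 1 / ((k : ℝ) + 1) ≤ 1 + θ := by linarith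
  -- kind III
  have hXle : X ≤ 2 * n := by
    rw [hX, Nat.ceil_le]
    push_cast
    nlinarith
  have h7n2 : (((2 * n : ℕ)) : ℝ) ≤ (n : ℝ) ^ 2 := by
    push_cast
    nlinarith
  have hIII : (NT z0 (WW c) {0, 2} Set.univ (fun _ => TQ (RS (zd θ) (WW c) b) θ n) X (2 * n) b : ℝ) ≤
      2 * θ * (D * Q) := by
    have e1 := hp3n (2 * n) hXle h7n2
    have e2 : (MT z0 (WW c) {0, 2} Set.univ X (2 * n) b : ℝ) ≤ tw (RS z0 (WW c) b) 0 (2 * n) := by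
      exact_mod_cast mt_le z0 (WW c) b X (2 * n)
    have h7n0 : (0 : ℝ) < ((2 * n : ℕ) : ℝ) := by push_cast; positivity
    have e3 : (tw (RS z0 (WW c) b) 0 (2 * n) : ℝ) * L ^ 2 ≤ (2 * c₂ + θ) * (2 * n) := by
      rw [div_le_iff₀ h7n0] at htw7n
      have e4 : L ≤ Real.log ((2 * n : ℕ) : ℝ) := by
        rw [hL]
        apply Real.log_le_log hn0
        push_cast
        linarith
      have e5 : L ^ 2 ≤ Real.log ((2 * n : ℕ) : ℝ) ^ 2 := pow_le_pow_left₀ hL0.le e4 2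
      have e6 := mul_le_mul_of_nonneg_left e5 (Nat.cast_nonneg (α := ℝ) (tw (RS z0 (WW c) b) 0 (2 * n)))
      refine e6.trans (htw7n.trans (le_of_eq ?_))
      push_cast
      ring
    have e7 : (MT z0 (WW c) {0, 2} Set.univ X (2 * n) b : ℝ) ≤ 2 * (2 * c₂ + θ) * (Q * L) := by
      have e8 : 2 * (2 * c₂ + θ) * (Q * L) * L ^ 2 = (2 * c₂ + θ) * (2 * n) := by rw [← hQL]; ring
      exact e2.trans (le_of_mul_le_mul_right (by rw [e8]; exact e3) (by positivity))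
    have e9 : (1 + 1 / ((k : ℝ) + 1)) * (r * D / L ^ 2 * MT z0 (WW c) {0, 2} Set.univ X (2 * n) b) ≤
        (1 + θ) * (r * D / L ^ 2 * (2 * (2 * c₂ + θ) * (Q * L))) :=
      mul_le_mul hk' (mul_le_mul_of_nonneg_left e7 (by positivity)) (by positivity) (by positivity)
    have e10 : (1 + θ) * (r * D / L ^ 2 * (2 * (2 * c₂ + θ) * (Q * L))) ≤ θ * (D * Q) := by
      rw [div_le_iff₀ hθ0'] at hL2
      have e11 : (1 + θ) * (r * D / L ^ 2 * (2 * (2 * c₂ + θ) * (Q * L))) =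
          (1 + θ) * r * (2 * (2 * c₂ + θ)) * (D * Q) / L := by
        field_simp
      rw [e11, div_le_iff₀ hL0]
      have := mul_le_mul_of_nonneg_right hL2 (show 0 ≤ D * Q by positivity)
      linarith
    have e12 : (((2 * n : ℕ)) : ℝ) ^ (0.995 : ℝ) ≤ θ * (D * Q) := by
      have e13 : (((2 * n : ℕ)) : ℝ) ^ (0.995 : ℝ) ≤ 2 * (n : ℝ) ^ (0.995 : ℝ) := by
        push_cast
        rw [Real.mul_rpow (by norm_num) hn0.le]
        apply mul_le_mul_of_nonneg_right _ (by positivity)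
        calc (2 : ℝ) ^ (0.995 : ℝ) ≤ (2 : ℝ) ^ (1 : ℝ) :=
              Real.rpow_le_rpow_of_exponent_le (by norm_num) (by norm_num)
          _ = 2 := Real.rpow_one _
      have e14 : (1 : ℝ) - 0.005 = 0.995 := by norm_num
      rw [e14] at hQ2
      have e15 : 2 * (n : ℝ) ^ (0.995 : ℝ) * 1 ≤ 2 * (n : ℝ) ^ (0.995 : ℝ) * L :=
        mul_le_mul_of_nonneg_left hL1 (by positivity)
      linarith
    linarith
  -- kind IV
  have hIV : (NT z0 (WW c) {0, 2} Set.univ (fun _ => TQ (RS (zd ((1 : ℚ) : ℝ)) (WW c) b) θ n) (2 * n) Y b : ℝ) ≤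
      (1 + (θ : ℝ)) ^ 2 * r * (2 * (2 * c₂ + θ)) * (D * Q) + θ * (D * Q) := by
    have e1 := hp4n Y h7Y hYn2
    have e2 : (MT z0 (WW c) {0, 2} Set.univ (2 * n) Y b : ℝ) ≤ tw (RS z0 (WW c) b) 0 Y := by
      exact_mod_cast mt_le z0 (WW c) b (2 * n) Y
    have h7Y' : 2 * (n : ℝ) ≤ Y := by exact_mod_cast h7Y
    have hY0 : (0 : ℝ) < Y := by linarith
    have hYle : (Y : ℝ) ≤ (1 + θ) * (2 * n) * L := by
      rw [hY]
      exact Nat.floor_le (by positivity)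
    have e3 : (tw (RS z0 (WW c) b) 0 Y : ℝ) * L ^ 2 ≤ (2 * c₂ + θ) * ((1 + θ) * (2 * n) * L) := by
      rw [div_le_iff₀ hY0] at htwYn
      have e4 : L ≤ Real.log Y := by
        rw [hL]
        apply Real.log_le_log hn0
        linarith
      have e5 : L ^ 2 ≤ Real.log Y ^ 2 := pow_le_pow_left₀ hL0.le e4 2
      have e6 := mul_le_mul_of_nonneg_left e5 (Nat.cast_nonneg (α := ℝ) (tw (RS z0 (WW c) b) 0 Y))
      exact e6.trans (htwYn.trans (mul_le_mul_of_nonneg_left hYle (by positivity)))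
    have e7 : (MT z0 (WW c) {0, 2} Set.univ (2 * n) Y b : ℝ) ≤
        2 * (2 * c₂ + θ) * (1 + θ) * (Q * L ^ 2) := by
      have e8 : 2 * (2 * c₂ + θ) * (1 + θ) * (Q * L ^ 2) * L ^ 2 =
          (2 * c₂ + θ) * ((1 + θ) * (2 * n) * L) := by
        rw [← hQL]; ring
      exact e2.trans (le_of_mul_le_mul_right (by rw [e8]; exact e3) (by positivity))
    have e9 : (1 + 1 / ((k : ℝ) + 1)) * (r * D / L ^ 2 * MT z0 (WW c) {0, 2} Set.univ (2 * n) Y b) ≤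
        (1 + θ) * (r * D / L ^ 2 * (2 * (2 * c₂ + θ) * (1 + θ) * (Q * L ^ 2))) :=
      mul_le_mul hk' (mul_le_mul_of_nonneg_left e7 (by positivity)) (by positivity) (by positivity)
    have e10 : (1 + θ) * (r * D / L ^ 2 * (2 * (2 * c₂ + θ) * (1 + θ) * (Q * L ^ 2))) =
        (1 + (θ : ℝ)) ^ 2 * r * (2 * (2 * c₂ + θ)) * (D * Q) := by
      field_simp
    have e12 : (Y : ℝ) ^ (0.995 : ℝ) ≤ θ * (D * Q) := by
      have e13 : (Y : ℝ) ≤ (n : ℝ) * (4 * L) := by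
        have : 0 < (n : ℝ) * L := by positivity
        nlinarith
      have e14 : (Y : ℝ) ^ (0.995 : ℝ) ≤ 4 * (n : ℝ) ^ (0.995 : ℝ) * L := by
        calc (Y : ℝ) ^ (0.995 : ℝ) ≤ ((n : ℝ) * (4 * L)) ^ (0.995 : ℝ) :=
              Real.rpow_le_rpow hY0.le e13 (by norm_num)
          _ = (n : ℝ) ^ (0.995 : ℝ) * (4 * L) ^ (0.995 : ℝ) := Real.mul_rpow hn0.le (by positivity)
          _ ≤ (n : ℝ) ^ (0.995 : ℝ) * (4 * L) := by
              apply mul_le_mul_of_nonneg_left _ (by positivity)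
              calc (4 * L) ^ (0.995 : ℝ) ≤ (4 * L) ^ (1 : ℝ) :=
                    Real.rpow_le_rpow_of_exponent_le (by linarith) (by norm_num)
                _ = 4 * L := Real.rpow_one _
          _ = 4 * (n : ℝ) ^ (0.995 : ℝ) * L := by ring
      have e15 : (1 : ℝ) - 0.005 = 0.995 := by norm_num
      rw [e15] at hQ3
      linarith
    rw [e10] at e9
    exact e1.trans (add_le_add e9 e12)
  rw [← hL]
  rw [div_le_iff₀ (by positivity)]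
  have hsum : (NQ (RS z0 (WW c) b) n : ℝ) ≤ (4 * c₂ + ε) * (D * Q) := by
    have e1 := mul_le_mul_of_nonneg_right hfin (show 0 ≤ D * Q by positivity)
    linarith
  calc (NQ (RS z0 (WW c) b) n : ℝ) * L ^ 3 ≤ (4 * c₂ + ε) * (D * Q) * L ^ 3 :=
        mul_le_mul_of_nonneg_right hsum (by positivity)
    _ = (4 * c₂ + ε) * (n * D) := by rw [← hQL]; ring

end Pool.Agent.H531.IX
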