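import Pool.Agent.H531.IX.Stm4
import Pool.Agent.H531.IX.NTH

set_option autoImplicit false

/-!
# IX4-RAI: iterated indices
-/

open Finset MeasureTheory ProbabilityTheory Filter Topology

namespace Pool.Agent.H531.IX

open Pool.Agent.T2H32.BF (z0 z0_mono)

namespace RAIN

/-- elements of the iterated set are values of the iterates -/
theorem iter (hn : S_NTH) {A : Set ℕ} (hA : A.Infinite) (h0 : 0 ∉ A) (i : ℕ) :
    ∀ p ∈ ra A i, ∃ x, 1 ≤ x ∧ (rk A)^[i + 1] x = p := by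
  induction i with
  | zero =>
    intro p hp
    obtain ⟨h1, h2⟩ := (hn A hA h0).1 p hp
    exact ⟨pin A p, h2, h1⟩
  | succ i ih =>
    intro p hp
    obtain ⟨hp1, hp2⟩ := hp
    obtain ⟨x, hx, hxp⟩ := ih _ hp2
    refine ⟨x, hx, ?_⟩
    rw [Function.iterate_succ_apply', hxp]
    exact ((hn A hA h0).1 p hp1).1

theorem pin_le (A : Set ℕ) (p : ℕ) : pin A p ≤ p := by
  unfold pin
  calc (A ∩ Set.Icc 1 p).ncard ≤ (Set.Icc 1 p).ncard :=
        Set.ncard_le_ncard Set.inter_subset_right (Set.finite_Icc 1 p)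
    _ = p := by
        rw [← Finset.coe_Icc, Set.ncard_coe_finset, Nat.card_Icc, Nat.add_sub_cancel]

theorem pin_congr {A A' : Set ℕ} {X : ℕ} (h : ∀ v ≤ X, v ∈ A ↔ v ∈ A') {v : ℕ} (hv : v ≤ X) :
    pin A v = pin A' v := by
  unfold pin
  congr 1
  ext x
  constructor
  · rintro ⟨h1, h2⟩
    exact ⟨(h x (h2.2.trans hv)).1 h1, h2⟩
  · rintro ⟨h1, h2⟩
    exact ⟨(h x (h2.2.trans hv)).2 h1, h2⟩

/-- locality -/
theorem loc {A A' : Set ℕ} {X : ℕ} (h : ∀ v ≤ X, v ∈ A ↔ v ∈ A') (i : ℕ) :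
    ∀ v ≤ X, v ∈ ra A i ↔ v ∈ ra A' i := by
  induction i with
  | zero => exact h
  | succ i ih =>
    intro v hv
    show (v ∈ A ∧ pin A v ∈ ra A i) ↔ (v ∈ A' ∧ pin A' v ∈ ra A' i)
    rw [h v hv, ← pin_congr h hv, ih _ ((pin_le A v).trans hv)]

/-- the coordinates which matter -/
theorem dep (W : ℕ → ℕ) (X : ℕ) (b b' : ℕ → ℕ) (h : ∀ q ≤ z0 X, q.Prime → b q = b' q) :
    ∀ v ≤ X, v ∈ RS z0 W b ↔ v ∈ RS z0 W b' := by
  intro v hv
  show (3 ≤ v ∧ Sv W (z0 v) b v) ↔ (3 ≤ v ∧ Sv W (z0 v) b' v)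
  refine and_congr_right fun _ => ?_
  unfold Sv
  refine forall_congr' fun q => forall_congr' fun hq => forall_congr' fun hp => ?_
  rw [h q (hq.trans (z0_mono hv)) hp]

end RAIN

theorem rai : S_RAI :=
  ⟨fun _ hA h0 i => RAIN.iter nth hA h0 i, fun _ _ _ h i => RAIN.loc h i, RAIN.dep⟩

end Pool.Agent.H531.IX
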