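import Pool.Agent.H531.IX.Stm3

/-!
# Task IX3 REG2 (helper571 for helper531): regularity of the set of indices `q = r_m` with `r_(n-m)` a twin
-/

set_option autoImplicit false

open Finset MeasureTheory ProbabilityTheory Filter Topology

namespace Pool.Agent.H531.IX

open Pool.Agent.T2H32.BF (Model z0 V)
open Pool.Agent.H559.BS (Limit)
open Pool.Agent.H559.HY (OK WW Cut)
open Pool.Agent.T2H32.GB (C2)

namespace REG2N

theorem pin_mono (A : Set ℕ) {x y : ℕ} (h : x ≤ y) : pin A x ≤ pin A y :=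
  Set.ncard_le_ncard (Set.inter_subset_inter_right _ (Set.Icc_subset_Icc_right h))
    ((Set.finite_Icc 1 y).inter_of_right A)

theorem pin_le (A : Set ℕ) (x : ℕ) : pin A x ≤ x := by
  have h1 : pin A x ≤ (Set.Icc 1 x).ncard :=
    Set.ncard_le_ncard Set.inter_subset_right (Set.finite_Icc 1 x)
  have h2 : (Set.Icc 1 x).ncard = x := by
    rw [← Finset.coe_Icc, Set.ncard_coe_finset, Nat.card_Icc]
    omega
  omega

theorem pin_succ {A : Set ℕ} {x : ℕ} (h : x + 1 ∈ A) : pin A (x + 1) = pin A x + 1 := by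
  have h1 : A ∩ Set.Icc 1 (x + 1) = insert (x + 1) (A ∩ Set.Icc 1 x) := by
    ext v
    simp only [Set.mem_inter_iff, Set.mem_Icc, Set.mem_insert_iff]
    constructor
    · rintro ⟨h2, h3, h4⟩
      rcases Nat.lt_or_ge x v with h5 | h5
      · left; omega
      · right; exact ⟨h2, h3, h5⟩
    · rintro (rfl | ⟨h2, h3, h4⟩)
      · exact ⟨h, by omega, le_rfl⟩
      · exact ⟨h2, h3, by omega⟩
  unfold pin
  rw [h1, Set.ncard_insert_of_notMem _ ((Set.finite_Icc 1 x).inter_of_right A)]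
  rintro ⟨-, -, h2⟩
  omega

theorem pin_lt {A : Set ℕ} {t x : ℕ} (ht : t ∈ A) (h : x < t) : pin A x < pin A t := by
  obtain ⟨t', rfl⟩ : ∃ t', t = t' + 1 := ⟨t - 1, by omega⟩
  rw [pin_succ ht]
  exact Nat.lt_succ_of_le (pin_mono A (Nat.le_of_lt_succ h))

theorem le_of_pin {A : Set ℕ} {t x : ℕ} (ht : t ∈ A) (h : pin A t ≤ pin A x) : t ≤ x := by
  by_contra hc
  exact absurd (pin_lt ht (not_le.1 hc)) (not_lt.2 h)

/-- the properties of the enumeration -/
def NH (A : Set ℕ) : Prop :=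
  (∀ p ∈ A, rk A (pin A p) = p ∧ 1 ≤ pin A p) ∧ ∀ m, 1 ≤ m → rk A m ∈ A ∧ pin A (rk A m) = m

theorem up_count {A : Set ℕ} (hN : NH A)
    {δ κ : ℝ} {n Z j h K0 s Y y : ℕ} (hY : Y + 1 ∈ A) (hK : pin A (Y + 1) = K0)
    (hs : s + pin A Y ≤ pin A (Y + y))
    (hq : ∀ q ∈ TF A δ κ n Z ∩ Set.Ioc j (j + h), K0 ≤ n - pin A q ∧ n - pin A q < K0 + s) :
    (TF A δ κ n Z ∩ Set.Ioc j (j + h)).ncard ≤ tw A Y (Y + y) := by
  have hfin : {p : ℕ | Y < p ∧ p ≤ Y + y ∧ p ∈ A ∧ p + 2 ∈ A}.Finite :=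
    (Set.finite_Iic (Y + y)).subset fun p hp => hp.2.1
  have h3 := pin_succ hY
  refine Set.ncard_le_ncard_of_injOn (fun q => rk A (n - pin A q)) ?_ ?_ hfin
  · intro q hq0
    obtain ⟨h1, h2⟩ := hq q hq0
    obtain ⟨⟨hqA, hqZ, hqδ, hqn, hqκ, t, htA, htZ, ht2, htp⟩, hqj⟩ := hq0
    have ht : rk A (n - pin A q) = t := by
      rw [← htp]
      exact (hN.1 t htA).1
    show Y < rk A (n - pin A q) ∧ rk A (n - pin A q) ≤ Y + y ∧ rk A (n - pin A q) ∈ A ∧
      rk A (n - pin A q) + 2 ∈ A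
    rw [ht]
    refine ⟨?_, ?_, htA, ht2⟩
    · by_contra hc
      have h4 := pin_mono A (not_lt.1 hc)
      omega
    · apply le_of_pin htA
      omega
  · intro q hq0 q' hq0' he
    have he' : rk A (n - pin A q) = rk A (n - pin A q') := he
    obtain ⟨⟨hqA, -, -, hqn, -⟩, -⟩ := hq0
    obtain ⟨⟨hqA', -, -, hqn', -⟩, -⟩ := hq0'
    have h5 : n - pin A q = n - pin A q' := by
      rw [← (hN.2 (n - pin A q) (by omega)).2, he', (hN.2 (n - pin A q') (by omega)).2]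
    have h6 : pin A q = pin A q' := by omega
    rw [← (hN.1 q hqA).1, h6, (hN.1 q' hqA').1]

theorem low_count {A : Set ℕ} (hN : NH A)
    {δ κ : ℝ} {n Z j h K0 Y y : ℕ} (hY : Y + 1 ∈ A) (hK : pin A (Y + 1) = K0)
    (hK0 : K0 + pin A (j + h) = n) (hs : pin A (Y + y) + pin A j ≤ pin A Y + pin A (j + h))
    (hδ : δ * n ≤ pin A j) (hκ : (n : ℝ) ^ (1 - κ) ≤ K0)
    (hZ : ∀ t ∈ A, pin A t ≤ n → t + 2 ≤ Z) :
    tw A Y (Y + y) ≤ (TF A δ κ n Z ∩ Set.Ioc j (j + h)).ncard := by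
  have hfin : (TF A δ κ n Z ∩ Set.Ioc j (j + h)).Finite :=
    (Set.finite_Ioc j (j + h)).inter_of_right _
  have h3 := pin_succ hY
  have hkey : ∀ t, Y < t → t ≤ Y + y → t ∈ A → K0 ≤ pin A t ∧ pin A t + pin A j < n := by
    intro t h4 h5 h6
    have h7 := pin_mono A (Nat.succ_le_of_lt h4)
    have h8 := pin_mono A h5
    rw [Nat.succ_eq_add_one] at h7
    constructor <;> omega
  refine Set.ncard_le_ncard_of_injOn (fun t => rk A (n - pin A t)) ?_ ?_ hfin
  · rintro t ⟨h4, h5, h6, h7⟩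
    obtain ⟨h8, h9⟩ := hkey t h4 h5 h6
    show rk A (n - pin A t) ∈ TF A δ κ n Z ∩ Set.Ioc j (j + h)
    obtain ⟨hqA, hqp⟩ := hN.2 (n - pin A t) (by omega)
    generalize rk A (n - pin A t) = q at hqA hqp ⊢
    have h10 : pin A t = n - pin A q := by omega
    refine ⟨⟨hqA, ?_, ?_, by omega, ?_, t, h6, hZ t h6 (by omega), h7, h10⟩, ?_, ?_⟩
    · have := hZ q hqA (by omega)
      omega
    · refine hδ.trans ?_
      exact_mod_cast (by omega : pin A j ≤ pin A q)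
    · refine hκ.trans ?_
      rw [← h10]
      exact_mod_cast h8
    · by_contra hc
      have := pin_mono A (not_lt.1 hc)
      omega
    · apply le_of_pin hqA
      omega
  · rintro t ⟨h4, h5, h6, -⟩ t' ⟨h4', h5', h6', -⟩ he
    have he' : rk A (n - pin A t) = rk A (n - pin A t') := he
    obtain ⟨h8, h9⟩ := hkey t h4 h5 h6
    obtain ⟨h8', h9'⟩ := hkey t' h4' h5' h6'
    have h10 : n - pin A t = n - pin A t' := by
      rw [← (hN.2 (n - pin A t) (by omega)).2, he', (hN.2 (n - pin A t') (by omega)).2]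
    have h11 : pin A t = pin A t' := by omega
    rw [← (hN.1 t h6).1, h11, (hN.1 t' h6').1]

theorem win_bd {D M y c r : ℝ} (hM : 0 < M) (hy : 0 < y) (h : |D * M / y - c| ≤ r) :
    (c - r) * y / M ≤ D ∧ D ≤ (c + r) * y / M := by
  obtain ⟨h1, h2⟩ := abs_le.1 h
  constructor
  · rw [div_le_iff₀ hM]
    have h3 : c - r ≤ D * M / y := by linarith
    rwa [le_div_iff₀ hy] at h3
  · rw [le_div_iff₀ hM]
    have h3 : D * M / y ≤ c + r := by linarith
    rwa [div_le_iff₀ hy] at h3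

theorem up_num {a e ε κ l h LY y T : ℝ} (ha : 0 < a) (he : 0 < e) (hl : 0 < l) (hh : 0 < h)
    (hLY : 0 < LY) (hκ : 0 < 1 - κ) (he1 : e < 1) (hε : 0 < ε)
    (h1 : y ≤ (1 + 3 * e) * (h / l * LY) + 1) (h2 : 1 ≤ e * (h / l * LY))
    (h3 : T ≤ (a + e / 4) * y / LY ^ 2) (h4 : (1 - κ) * (1 - e) * l ≤ LY)
    (h5 : (a + e) * (1 + 4 * e) ≤ (1 + ε) * (1 - e) * a) :
    T ≤ (1 + ε) * a / ((1 - κ) * l ^ 2) * h := by
  have hy : y ≤ (1 + 4 * e) * (h / l * LY) := by linarith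
  have h6 : 0 < h / l := by positivity
  have h7 : (a + e / 4) * y ≤ (1 + ε) * (1 - e) * a * (h / l * LY) := by
    have h8 : (a + e / 4) * y ≤ (a + e / 4) * ((1 + 4 * e) * (h / l * LY)) :=
      mul_le_mul_of_nonneg_left hy (by positivity)
    have h9 : (a + e / 4) * ((1 + 4 * e) * (h / l * LY)) ≤
        (a + e) * ((1 + 4 * e) * (h / l * LY)) :=
      mul_le_mul_of_nonneg_right (by linarith) (by positivity)
    have h10 : (a + e) * ((1 + 4 * e) * (h / l * LY)) ≤ (1 + ε) * (1 - e) * a * (h / l * LY) := by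
      rw [← mul_assoc]
      exact mul_le_mul_of_nonneg_right h5 (by positivity)
    linarith
  have h8 : (a + e / 4) * y / LY ^ 2 ≤ (1 + ε) * (1 - e) * a * (h / l) / LY := by
    rw [div_le_div_iff₀ (by positivity) hLY]
    have h9 := mul_le_mul_of_nonneg_right h7 hLY.le
    have h10 : (1 + ε) * (1 - e) * a * (h / l * LY) * LY =
      (1 + ε) * (1 - e) * a * (h / l) * LY ^ 2 := by ring
    linarith
  have he2 : 0 < 1 - e := by linarith
  have h9 : (1 + ε) * (1 - e) * a * (h / l) / LY ≤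
      (1 + ε) * (1 - e) * a * (h / l) / ((1 - κ) * (1 - e) * l) :=
    div_le_div_of_nonneg_left (by positivity) (by positivity) h4
  have h10 : (1 + ε) * (1 - e) * a * (h / l) / ((1 - κ) * (1 - e) * l) =
      (1 + ε) * a / ((1 - κ) * l ^ 2) * h := by
    field_simp
  linarith

theorem low_num {a e ε l h LY y T : ℝ} (he : 0 < e) (hl : 0 < l) (hh : 0 < h)
    (hLY : 0 < LY) (he1 : e ≤ 1 / 100) (hae : 0 < a - e)
    (h1 : (1 - 3 * e) * (h / l * LY) - 1 ≤ y) (h2 : 1 ≤ e * (h / l * LY))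
    (h3 : (a - e / 4) * y / LY ^ 2 ≤ T) (h4 : LY ≤ (1 + e) * l)
    (h5 : (1 - ε) * (1 + e) * a ≤ (a - e) * (1 - 4 * e)) :
    (1 - ε) * a / l ^ 2 * h ≤ T := by
  have hy : (1 - 4 * e) * (h / l * LY) ≤ y := by linarith
  have h6 : 0 < h / l := by positivity
  have h14 : 0 < 1 - 4 * e := by linarith
  have h7 : (a - e) * (1 - 4 * e) * (h / l * LY) ≤ (a - e / 4) * y := by
    have h8 : (a - e) * ((1 - 4 * e) * (h / l * LY)) ≤ (a - e) * y :=
      mul_le_mul_of_nonneg_left hy hae.le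
    have h9 : 0 ≤ y := le_trans (by positivity) hy
    have h10 : (a - e) * y ≤ (a - e / 4) * y := mul_le_mul_of_nonneg_right (by linarith) h9
    rw [mul_assoc]
    linarith
  have h8 : (a - e) * (1 - 4 * e) * (h / l) / LY ≤ (a - e / 4) * y / LY ^ 2 := by
    rw [div_le_div_iff₀ hLY (by positivity)]
    have h9 := mul_le_mul_of_nonneg_right h7 hLY.le
    have h10 : (a - e) * (1 - 4 * e) * (h / l * LY) * LY =
      (a - e) * (1 - 4 * e) * (h / l) * LY ^ 2 := by ring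
    linarith
  have h9 : (a - e) * (1 - 4 * e) * (h / l) / ((1 + e) * l) ≤
      (a - e) * (1 - 4 * e) * (h / l) / LY :=
    div_le_div_of_nonneg_left (by positivity) hLY h4
  have h10 : (1 - ε) * a / l ^ 2 * h ≤ (a - e) * (1 - 4 * e) * (h / l) / ((1 + e) * l) := by
    rw [le_div_iff₀ (by positivity)]
    have h11 : (1 - ε) * a / l ^ 2 * h * ((1 + e) * l) = (1 - ε) * (1 + e) * a * (h / l) := by
      field_simp
    rw [h11]
    exact mul_le_mul_of_nonneg_right h5 h6.le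
  linarith

end REG2N

namespace REG2N

theorem exists_e (a ε : ℝ) (ha : 0 < a) (hε : 0 < ε) : ∃ e : ℝ, 0 < e ∧ e ≤ 1 / 100 ∧ 0 < a - e ∧
    (a + e) * (1 + 4 * e) ≤ (1 + ε) * (1 - e) * a ∧
    (1 - ε) * (1 + e) * a ≤ (a - e) * (1 - 4 * e) := by
  have hD : 0 < 2 + 5 * a + ε * a := by positivity
  obtain ⟨e, he, h1, h2, h3⟩ : ∃ e : ℝ, 0 < e ∧ e ≤ 1 / 100 ∧ e ≤ a / 2 ∧
      e ≤ ε * a / (2 + 5 * a + ε * a) :=
    ⟨min (1 / 100) (min (a / 2) (ε * a / (2 + 5 * a + ε * a))), by positivity,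
      min_le_left _ _, (min_le_right _ _).trans (min_le_left _ _),
      (min_le_right _ _).trans (min_le_right _ _)⟩
  rw [le_div_iff₀ hD] at h3
  have h4 : 0 ≤ e * (1 - 4 * e) := mul_nonneg he.le (by linarith)
  have h5 : 0 ≤ ε * e * a := by positivity
  have h6 : 0 ≤ e * e := by positivity
  refine ⟨e, he, h1, by linarith, ?_, ?_⟩
  · nlinarith
  · nlinarith

theorem n1 {e : ℝ} (he : 0 < e) : (1 - e) * (1 + e / 4) ≤ 1 - e / 4 := by
  nlinarith [mul_pos he he]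

theorem n2 {e : ℝ} (he : 0 < e) (he1 : e ≤ 1 / 100) : 1 + e / 4 ≤ (1 + e) * (1 - e / 4) := by
  nlinarith [mul_nonneg he.le (sub_nonneg.2 he1)]

theorem n3 {e : ℝ} (he : 0 < e) (he1 : e ≤ 1 / 100) : 1 + e ≤ (1 - e / 4) * (1 + 3 * e) := by
  nlinarith [mul_nonneg he.le (sub_nonneg.2 he1)]

theorem n4 {e : ℝ} (he : 0 < e) : (1 + e / 4) * (1 - 3 * e) ≤ 1 - e := by
  nlinarith [mul_pos he he]

theorem n5 {e : ℝ} (he : 0 < e) (he1 : e ≤ 1 / 100) : (1 + 3 * e) * (1 + e / 4) ≤ 2 := by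
  nlinarith [mul_nonneg he.le (sub_nonneg.2 he1)]

theorem ev_rpow (r C : ℝ) (hr : 0 < r) : ∀ᶠ n : ℕ in atTop, C ≤ (n : ℝ) ^ r :=
  ((tendsto_rpow_atTop hr).comp tendsto_natCast_atTop_atTop).eventually_ge_atTop C

theorem ev_log (C : ℝ) : ∀ᶠ n : ℕ in atTop, C ≤ Real.log n :=
  (Real.tendsto_log_atTop.comp tendsto_natCast_atTop_atTop).eventually_ge_atTop C

theorem ev_ZF (e : ℝ) (he : 0 < e) :
    ∀ᶠ n : ℕ in atTop, (ZF n : ℝ) ≤ (n : ℝ) ^ (1 + e / 4) := by
  have h1 := (isLittleO_log_rpow_atTop (show 0 < e / 4 by positivity)).def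
    (show (0 : ℝ) < 1 / 4 by norm_num)
  have h2 := tendsto_natCast_atTop_atTop.eventually h1
  filter_upwards [h2, eventually_ge_atTop 3] with n hn h3
  have h3' : (3 : ℝ) ≤ n := by exact_mod_cast h3
  have hlog : 0 ≤ Real.log n := Real.log_nonneg (by linarith)
  have hp : 0 ≤ (n : ℝ) ^ (e / 4) := by positivity
  rw [Real.norm_of_nonneg hlog, Real.norm_of_nonneg hp] at hn
  have h4 : (ZF n : ℝ) < 2 * n * Real.log n + 1 := Nat.ceil_lt_add_one (by positivity)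
  have h5 : (n : ℝ) ^ (1 + e / 4) = n * (n : ℝ) ^ (e / 4) := by
    rw [Real.rpow_add (by linarith), Real.rpow_one]
  have h6 : (1 : ℝ) ≤ (n : ℝ) ^ (e / 4) := Real.one_le_rpow (by linarith) (by positivity)
  rw [h5]
  have h7 : (n : ℝ) * Real.log n ≤ n * (1 / 4 * (n : ℝ) ^ (e / 4)) :=
    mul_le_mul_of_nonneg_left hn (by linarith)
  have h8 : (n : ℝ) * 1 ≤ n * (n : ℝ) ^ (e / 4) := mul_le_mul_of_nonneg_left h6 (by linarith)
  linarith

theorem ev_pin {A : Set ℕ}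
    (hC : Tendsto (fun x : ℕ => (pin A x : ℝ) * Real.log x / x) atTop (𝓝 1)) :
    ∀ᶠ n : ℕ in atTop, n ≤ pin A (ZF n - 2) := by
  have h1 : ∀ᶠ x : ℕ in atTop, (3 / 4 : ℝ) < (pin A x : ℝ) * Real.log x / x :=
    hC.eventually (lt_mem_nhds (by norm_num))
  have h2 : Tendsto (fun n : ℕ => ZF n - 2) atTop atTop := by
    refine tendsto_atTop_mono' atTop ?_ tendsto_id
    filter_upwards [ev_log 2, eventually_ge_atTop 3] with n hn h3
    have h3' : (3 : ℝ) ≤ n := by exact_mod_cast h3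
    have h4 : 2 * (n : ℝ) * Real.log n ≤ ZF n := Nat.le_ceil _
    have h5 : ((n + 2 : ℕ) : ℝ) ≤ ZF n := by
      push_cast
      have h6 : (n : ℝ) * 2 ≤ n * Real.log n := mul_le_mul_of_nonneg_left hn (by linarith)
      linarith
    have h6 : n + 2 ≤ ZF n := by exact_mod_cast h5
    show n ≤ ZF n - 2
    omega
  filter_upwards [h2.eventually h1, ev_ZF (1 / 100) (by norm_num), ev_log 2,
    eventually_ge_atTop 10] with n hn hZ hl h10
  by_contra hc
  have h10' : (10 : ℝ) ≤ n := by exact_mod_cast h10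
  have hn0 : (0 : ℝ) < n := by linarith
  have h4 : 2 * (n : ℝ) * Real.log n ≤ ZF n := Nat.le_ceil _
  have hw : (n : ℝ) * 2 ≤ n * Real.log n := mul_le_mul_of_nonneg_left hl hn0.le
  have h40 : (40 : ℝ) ≤ ZF n := by linarith
  have h41 : 40 ≤ ZF n := by exact_mod_cast h40
  obtain ⟨x, hx⟩ : ∃ x, x = ZF n - 2 := ⟨_, rfl⟩
  rw [← hx] at hn hc
  have hxr : (x : ℝ) = (ZF n : ℝ) - 2 := by
    have : x + 2 = ZF n := by omega
    have : ((x + 2 : ℕ) : ℝ) = ZF n := by exact_mod_cast this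
    push_cast at this
    linarith
  have hx0 : (0 : ℝ) < x := by linarith
  rw [lt_div_iff₀ hx0] at hn
  have h5 : Real.log x ≤ (1 + 1 / 100 / 4) * Real.log n := by
    have h6 := Real.log_le_log hx0 (show (x : ℝ) ≤ (n : ℝ) ^ (1 + 1 / 100 / 4 : ℝ) by linarith)
    rwa [Real.log_rpow hn0] at h6
  have h6 : 0 ≤ Real.log x := Real.log_nonneg (by linarith)
  have h7 : (pin A x : ℝ) ≤ n := by exact_mod_cast (not_le.1 hc).le
  have h8 : (pin A x : ℝ) * Real.log x ≤ n * ((1 + 1 / 100 / 4) * Real.log n) :=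
    mul_le_mul h7 h5 h6 hn0.le
  have h9 : (n : ℝ) * ((1 + 1 / 100 / 4) * Real.log n) =
    (1 + 1 / 100 / 4) * ((n : ℝ) * Real.log n) := by ring
  linarith

theorem core {A : Set ℕ} (h0 : 0 ∉ A) {c₂ : ℝ} (hc₂ : 0 < c₂) (hN : NH A)
    (hW : ∀ δ ε : ℝ, 0 < δ → 0 < ε → ∀ᶠ X : ℕ in atTop, ∀ y : ℕ, (X : ℝ) ^ δ ≤ y → y ≤ X →
      |((pin A (X + y) : ℝ) - pin A X) * Real.log X / y - 1| ≤ ε ∧
      |(tw A X (X + y) : ℝ) * Real.log X ^ 2 / y - 2 * c₂| ≤ ε)
    (hC : Tendsto (fun x : ℕ => (pin A x : ℝ) * Real.log x / x) atTop (𝓝 1))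
    (α δ κ ε : ℝ) (hα : 0 < α) (hδ : 0 < δ) (hκ : 0 < κ) (hκ4 : κ ≤ 1 / 4) (hε : 0 < ε) :
    ∀ᶠ n : ℕ in atTop, ∀ j h : ℕ, (n : ℝ) ^ α ≤ h → (h : ℝ) ≤ (n : ℝ) ^ (1 / 2 : ℝ) →
    ((TF A δ κ n (ZF n) ∩ Set.Ioc j (j + h)).ncard : ℝ) ≤
      (1 + ε) * (2 * c₂) / ((1 - κ) * Real.log n ^ 2) * h ∧
    (δ * n ≤ pin A j → (pin A (j + h) : ℝ) + 2 * (n : ℝ) ^ (1 - κ) ≤ n →
      (1 - ε) * (2 * c₂) / Real.log n ^ 2 * h ≤
        ((TF A δ κ n (ZF n) ∩ Set.Ioc j (j + h)).ncard : ℝ)) := by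
  obtain ⟨e, he, he1, hae, hE1, hE2⟩ := exists_e (2 * c₂) ε (by positivity) hε
  obtain ⟨X0, hX0⟩ := eventually_atTop.1 (hW (α / 4) (e / 4) (by positivity) (by positivity))
  filter_upwards [eventually_ge_atTop 10, ev_ZF e he, ev_pin hC,
    ev_log (4 / e * |Real.log (δ / 2)|), ev_log (2 / e), ev_log 2,
    ev_rpow (1 / 2) (2 / δ) (by norm_num), ev_rpow (3 / 4) (2 * (X0 + 1)) (by norm_num),
    ev_rpow (1 / 4) 10 (by norm_num), ev_rpow (α / 2) 6 (by positivity), ev_rpow α (8 / e) hα,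
    tendsto_natCast_atTop_atTop.eventually_ge_atTop (2 / δ * X0)]
    with n hn10 hZ hP hl1 hl2 hl3 hr hk h4 hα1 hα2 hX
  have hn : (10 : ℝ) ≤ n := by exact_mod_cast hn10
  have hn0 : (0 : ℝ) < n := by linarith
  have hlogn : Real.log n = Real.log n := rfl
  obtain ⟨l, hl⟩ : ∃ l, l = Real.log n := ⟨_, rfl⟩
  rw [← hl] at hl1 hl2 hl3 ⊢
  have hl0 : 0 < l := by linarith
  have hhalf : (n : ℝ) ^ (1 / 2 : ℝ) * (n : ℝ) ^ (1 / 2 : ℝ) = n := by
    rw [← Real.rpow_add hn0]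
    norm_num
  have h34 : (n : ℝ) ^ (3 / 4 : ℝ) = (n : ℝ) ^ (1 / 2 : ℝ) * (n : ℝ) ^ (1 / 4 : ℝ) := by
    rw [← Real.rpow_add hn0]
    norm_num
  have hκ34 : (n : ℝ) ^ (3 / 4 : ℝ) ≤ (n : ℝ) ^ (1 - κ) :=
    Real.rpow_le_rpow_of_exponent_le (by linarith) (by linarith)
  have hκ1 : (n : ℝ) ^ (1 - κ) ≤ n := by
    have h5 : (n : ℝ) ^ (1 - κ) ≤ (n : ℝ) ^ (1 : ℝ) :=
      Real.rpow_le_rpow_of_exponent_le (by linarith) (by linarith)
    rwa [Real.rpow_one] at h5
  have hκ0 : 0 < (n : ℝ) ^ (1 - κ) := by positivity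
  have hαα : (n : ℝ) ^ (α / 2) * (n : ℝ) ^ (α / 2) = (n : ℝ) ^ α := by
    rw [← Real.rpow_add hn0, add_halves]
  have hZ2 : (ZF n : ℝ) ^ (α / 4) ≤ (n : ℝ) ^ (α / 2) := by
    have h5 : (ZF n : ℝ) ≤ (n : ℝ) ^ (2 : ℝ) :=
      hZ.trans (Real.rpow_le_rpow_of_exponent_le (by linarith) (by linarith))
    calc (ZF n : ℝ) ^ (α / 4) ≤ ((n : ℝ) ^ (2 : ℝ)) ^ (α / 4) :=
          Real.rpow_le_rpow (by positivity) h5 (by positivity)
      _ = (n : ℝ) ^ (2 * (α / 4)) := by rw [← Real.rpow_mul hn0.le]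
      _ = (n : ℝ) ^ (α / 2) := by
        have h6 : 2 * (α / 4) = α / 2 := by ring
        rw [h6]
  have hlogZ : ∀ x : ℕ, 1 ≤ x → x ≤ ZF n → Real.log x ≤ (1 + e / 4) * l := by
    intro x hx1 hx2
    have h5 : (x : ℝ) ≤ (n : ℝ) ^ (1 + e / 4) := (by exact_mod_cast hx2 : (x : ℝ) ≤ ZF n).trans hZ
    have h6 := Real.log_le_log (by exact_mod_cast hx1) h5
    rwa [Real.log_rpow hn0, ← hl] at h6
  have hZ12 : n + 2 ≤ ZF n := by
    have h5 := pin_le A (ZF n - 2)
    omega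
  have hpZ : ∀ t ∈ A, pin A t ≤ n → t + 2 ≤ ZF n := by
    intro t ht h5
    have h6 := le_of_pin ht (h5.trans hP)
    omega
  intro j h hh1 hh2
  have hh0 : (0 : ℝ) < h := lt_of_lt_of_le (by positivity) hh1
  have hh8 : 8 / e ≤ h := hα2.trans hh1
  have heh : 8 ≤ e * h := by
    rw [div_le_iff₀ he] at hh8
    linarith
  have hsmall : (ZF n : ℝ) ^ (α / 4) ≤ (h : ℝ) / 4 - 1 := by
    have h5 : 6 * (n : ℝ) ^ (α / 2) ≤ (n : ℝ) ^ (α / 2) * (n : ℝ) ^ (α / 2) :=
      mul_le_mul_of_nonneg_right hα1 (by positivity)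
    linarith
  have hZα0 : 0 < (ZF n : ℝ) ^ (α / 4) := by
    have : (0 : ℝ) < ZF n := by
      have : 0 < ZF n := by omega
      exact_mod_cast this
    positivity
  have hrδ : (n : ℝ) ^ (1 / 2 : ℝ) ≤ δ * n / 2 := by
    rw [div_le_iff₀ hδ] at hr
    have h5 : 0 < (n : ℝ) ^ (1 / 2 : ℝ) := by positivity
    have h6 := mul_le_mul_of_nonneg_right hr h5.le
    have h7 : δ * (n : ℝ) = (n : ℝ) ^ (1 / 2 : ℝ) * δ * (n : ℝ) ^ (1 / 2 : ℝ) := by
      linear_combination (-δ) * hhalf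
    linarith
  have hXδ : (X0 : ℝ) ≤ δ * n / 2 := by
    have h5 : δ / 2 * (2 / δ * X0) ≤ δ / 2 * n := mul_le_mul_of_nonneg_left hX (by positivity)
    have h6 : δ / 2 * (2 / δ * X0) = X0 := by field_simp
    linarith
  -- windows at j
  have hwj : δ * n / 2 ≤ j → j ≤ ZF n →
      (1 - e) * (h / l) ≤ (pin A (j + h) : ℝ) - pin A j ∧
      (pin A (j + h) : ℝ) - pin A j ≤ (1 + e) * (h / l) := by
    intro h5 h6
    have hr1 : 10 ≤ (n : ℝ) ^ (1 / 2 : ℝ) :=
      h4.trans (Real.rpow_le_rpow_of_exponent_le (by linarith) (by norm_num))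
    have hj1r : (1 : ℝ) ≤ j := by linarith
    have hj1 : 1 ≤ j := by exact_mod_cast hj1r
    have h7 : (X0 : ℝ) ≤ j := hXδ.trans h5
    have h8 : (j : ℝ) ^ (α / 4) ≤ h :=
      (Real.rpow_le_rpow (by positivity) (by exact_mod_cast h6) (by positivity)).trans
        (hsmall.trans (by linarith))
    have h9 : (h : ℝ) ≤ j := hh2.trans (hrδ.trans h5)
    obtain ⟨h10, -⟩ := hX0 j (by exact_mod_cast h7) h h8 (by exact_mod_cast h9)
    have hlj1 : (1 - e / 4) * l ≤ Real.log j := by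
      have h11 : Real.log (δ / 2 * n) ≤ Real.log j :=
        Real.log_le_log (by positivity) (by linarith)
      rw [Real.log_mul (by positivity) hn0.ne', ← hl] at h11
      have h12 : -|Real.log (δ / 2)| ≤ Real.log (δ / 2) := neg_abs_le _
      have h13 : |Real.log (δ / 2)| ≤ e / 4 * l := by
        have h14 := mul_le_mul_of_nonneg_left hl1 (show 0 ≤ e / 4 by positivity)
        have h15 : e / 4 * (4 / e * |Real.log (δ / 2)|) = |Real.log (δ / 2)| := by field_simp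
        linarith
      linarith
    have hlj2 := hlogZ j hj1 h6
    have he4 : 0 < 1 - e / 4 := by linarith
    have he5 : 0 < 1 - e := by linarith
    have hlj0 : 0 < Real.log j := lt_of_lt_of_le (by positivity) hlj1
    obtain ⟨h11, h12⟩ := win_bd hlj0 hh0 h10
    have hq0 : 0 < (h : ℝ) / l := by positivity
    have hql : (h : ℝ) / l * l = h := by field_simp
    constructor
    · refine le_trans ?_ h11
      rw [le_div_iff₀ hlj0]
      have h13 : (1 - e) * (h / l) * Real.log j ≤ (1 - e) * (h / l) * ((1 + e / 4) * l) :=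
        mul_le_mul_of_nonneg_left hlj2 (by positivity)
      have h14 : (1 - e) * (h / l) * ((1 + e / 4) * l) = (1 - e) * (1 + e / 4) * h := by
        rw [← hql]
        field_simp
      have h15 : (1 - e) * (1 + e / 4) * h ≤ (1 - e / 4) * h :=
        mul_le_mul_of_nonneg_right (n1 he) hh0.le
      linarith
    · refine h12.trans ?_
      rw [div_le_iff₀ hlj0]
      have h13 : (1 + e) * (h / l) * ((1 - e / 4) * l) ≤ (1 + e) * (h / l) * Real.log j :=
        mul_le_mul_of_nonneg_left hlj1 (by positivity)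
      have h14 : (1 + e) * (h / l) * ((1 - e / 4) * l) = (1 + e) * (1 - e / 4) * h := by
        rw [← hql]
        field_simp
      have h15 : (1 + e / 4) * h ≤ (1 + e) * (1 - e / 4) * h :=
        mul_le_mul_of_nonneg_right (n2 he he1) hh0.le
      linarith
  -- the second window
  have hYf : ∀ K0 : ℕ, (n : ℝ) ^ (1 - κ) ≤ K0 → K0 ≤ n → ∃ Y : ℕ, Y + 1 ∈ A ∧
      pin A (Y + 1) = K0 ∧ (1 - κ) * (1 - e) * l ≤ Real.log Y ∧ Real.log Y ≤ (1 + e / 4) * l ∧
      0 < Real.log Y ∧ (h : ℝ) / 2 ≤ h / l * Real.log Y ∧ h / l * Real.log Y ≤ (1 + e / 4) * h ∧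
      ∀ y : ℕ, (h : ℝ) / 4 - 1 ≤ y → (y : ℝ) ≤ 2 * h + 1 →
        ((1 - e / 4) * y / Real.log Y ≤ (pin A (Y + y) : ℝ) - pin A Y ∧
          (pin A (Y + y) : ℝ) - pin A Y ≤ (1 + e / 4) * y / Real.log Y) ∧
        ((2 * c₂ - e / 4) * y / Real.log Y ^ 2 ≤ tw A Y (Y + y) ∧
          (tw A Y (Y + y) : ℝ) ≤ (2 * c₂ + e / 4) * y / Real.log Y ^ 2) := by
    intro K0 hK0 hKn
    have hK1 : 1 ≤ K0 := by
      have h5 : (0 : ℝ) < K0 := lt_of_lt_of_le hκ0 hK0
      exact_mod_cast h5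
    obtain ⟨hrA, hrp⟩ := hN.2 K0 hK1
    have hr0 : rk A K0 ≠ 0 := fun h5 => h0 (h5 ▸ hrA)
    obtain ⟨Y, hY⟩ : ∃ Y, rk A K0 = Y + 1 := ⟨rk A K0 - 1, by omega⟩
    rw [hY] at hrA hrp
    have hYK : K0 ≤ Y + 1 := by
      rw [← hrp]
      exact pin_le A _
    have hYK' : (K0 : ℝ) ≤ Y + 1 := by exact_mod_cast hYK
    have hX2 : (0 : ℝ) ≤ X0 := by positivity
    have hYn : (n : ℝ) ^ (1 - κ) / 2 ≤ Y := by linarith
    have hYZ : Y ≤ ZF n := by
      have := hpZ (Y + 1) hrA (by omega)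
      omega
    have hr1 : 10 ≤ (n : ℝ) ^ (1 / 2 : ℝ) :=
      h4.trans (Real.rpow_le_rpow_of_exponent_le (by linarith) (by norm_num))
    have hY5 : 5 * (n : ℝ) ^ (1 / 2 : ℝ) ≤ Y := by
      have h5 : (n : ℝ) ^ (1 / 2 : ℝ) * 10 ≤ (n : ℝ) ^ (1 / 2 : ℝ) * (n : ℝ) ^ (1 / 4 : ℝ) :=
        mul_le_mul_of_nonneg_left h4 (by positivity)
      linarith
    have hY1r : (1 : ℝ) ≤ Y := by linarith
    have hY1 : 1 ≤ Y := by exact_mod_cast hY1r
    have hup := hlogZ Y hY1 hYZ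
    have hlow : (1 - κ) * (1 - e) * l ≤ Real.log Y := by
      have h5 : Real.log ((n : ℝ) ^ (1 - κ) / 2) ≤ Real.log Y :=
        Real.log_le_log (by positivity) hYn
      rw [Real.log_div hκ0.ne' (by norm_num), Real.log_rpow hn0, ← hl] at h5
      have h6 : Real.log 2 ≤ 1 := by
        have := Real.log_two_lt_d9
        linarith
      have h7 : 2 ≤ e * l := by
        rw [div_le_iff₀ he] at hl2
        linarith
      have h8 : (3 / 4 : ℝ) * 2 ≤ (1 - κ) * (e * l) :=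
        mul_le_mul (by linarith) h7 (by norm_num) (by linarith)
      have h9 : (1 - κ) * (1 - e) * l = (1 - κ) * l - (1 - κ) * (e * l) := by ring
      linarith
    have hlow2 : l / 2 ≤ Real.log Y := by
      have h5 : (3 / 4 : ℝ) * (99 / 100) ≤ (1 - κ) * (1 - e) :=
        mul_le_mul (by linarith) (by linarith) (by norm_num) (by linarith)
      have h6 := mul_le_mul_of_nonneg_right h5 hl0.le
      linarith
    have hLY0 : 0 < Real.log Y := by linarith
    have hq0 : 0 < (h : ℝ) / l := by positivity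
    have hql : (h : ℝ) / l * l = h := by field_simp
    refine ⟨Y, hrA, hrp, hlow, hup, hLY0, ?_, ?_, ?_⟩
    · have h5 := mul_le_mul_of_nonneg_left hlow2 hq0.le
      have h6 : (h : ℝ) / l * (l / 2) = h / 2 := by
        rw [← hql]
        field_simp
      linarith
    · have h5 := mul_le_mul_of_nonneg_left hup hq0.le
      have h6 : (h : ℝ) / l * ((1 + e / 4) * l) = (1 + e / 4) * h := by
        rw [← hql]
        field_simp
      linarith
    · intro y hy1 hy2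
      have hy0 : (0 : ℝ) < y := by linarith
      have h5 : (Y : ℝ) ^ (α / 4) ≤ y :=
        (Real.rpow_le_rpow (by positivity) (by exact_mod_cast hYZ) (by positivity)).trans
          (hsmall.trans hy1)
      have h6 : (y : ℝ) ≤ Y := by linarith
      have h7 : (X0 : ℝ) ≤ Y := by linarith
      obtain ⟨h8, h9⟩ := hX0 Y (by exact_mod_cast h7) y h5 (by exact_mod_cast h6)
      exact ⟨win_bd hLY0 hy0 h8, win_bd (by positivity) hy0 h9⟩
  constructor
  · rcases Set.eq_empty_or_nonempty (TF A δ κ n (ZF n) ∩ Set.Ioc j (j + h)) with hS | ⟨q0, hq0⟩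
    · rw [hS, Set.ncard_empty]
      have h5 : 0 < 1 - κ := by linarith
      push_cast
      positivity
    · obtain ⟨⟨hqA, hqZ, hqδ, hqn, hqκ, -⟩, hqj⟩ := hq0
      have hjZ : j ≤ ZF n := hqj.1.le.trans hqZ
      have hjδ : δ * n / 2 ≤ j := by
        have h5 : (pin A q0 : ℝ) ≤ j + h := by exact_mod_cast (pin_le A q0).trans hqj.2
        linarith
      obtain ⟨-, hs⟩ := hwj hjδ hjZ
      obtain ⟨K0, hK0⟩ : ∃ K0, K0 = max ⌈(n : ℝ) ^ (1 - κ)⌉₊ (n - pin A (j + h)) := ⟨_, rfl⟩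
      have hKl : ⌈(n : ℝ) ^ (1 - κ)⌉₊ ≤ K0 := by
        rw [hK0]
        exact le_max_left _ _
      have hKr : n - pin A (j + h) ≤ K0 := by
        rw [hK0]
        exact le_max_right _ _
      have hK1 : (n : ℝ) ^ (1 - κ) ≤ K0 := (Nat.le_ceil _).trans (by exact_mod_cast hKl)
      have hKn : K0 ≤ n := by
        rw [hK0]
        exact max_le (Nat.ceil_le.2 hκ1) (Nat.sub_le _ _)
      obtain ⟨Y, hYA, hYp, hY1, hY2, hLY0, hYl, hYu, hYw⟩ := hYf K0 hK1 hKn
      obtain ⟨y, hy⟩ : ∃ y, y = ⌈(1 + 3 * e) * (h / l * Real.log Y)⌉₊ := ⟨_, rfl⟩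
      have hy1 : (1 + 3 * e) * (h / l * Real.log Y) ≤ y := by
        rw [hy]
        exact Nat.le_ceil _
      have hy2 : (y : ℝ) ≤ (1 + 3 * e) * (h / l * Real.log Y) + 1 := by
        rw [hy]
        exact (Nat.ceil_lt_add_one (by positivity)).le
      have hP0 : 0 ≤ h / l * Real.log Y := by positivity
      have hPP : h / l * Real.log Y ≤ (1 + 3 * e) * (h / l * Real.log Y) :=
        le_mul_of_one_le_left hP0 (by linarith)
      have hPQ : (1 + 3 * e) * (h / l * Real.log Y) ≤ 2 * h := by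
        have h5 : (1 + 3 * e) * (h / l * Real.log Y) ≤ (1 + 3 * e) * ((1 + e / 4) * h) :=
          mul_le_mul_of_nonneg_left hYu (by linarith)
        have h6 : (1 + 3 * e) * (1 + e / 4) * h ≤ 2 * h :=
          mul_le_mul_of_nonneg_right (n5 he he1) hh0.le
        rw [mul_assoc] at h6
        exact h5.trans h6
      obtain ⟨⟨hw1, -⟩, ⟨-, hw2⟩⟩ := hYw y (by linarith) (by linarith)
      have hcount : (TF A δ κ n (ZF n) ∩ Set.Ioc j (j + h)).ncard ≤ tw A Y (Y + y) := by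
        refine up_count hN (s := pin A (j + h) - pin A j) hYA hYp ?_ ?_
        · have h5 : (1 + e) * (h / l) ≤ (1 - e / 4) * y / Real.log Y := by
            rw [le_div_iff₀ hLY0]
            have h6 : (1 - e / 4) * ((1 + 3 * e) * (h / l * Real.log Y)) ≤ (1 - e / 4) * y :=
              mul_le_mul_of_nonneg_left hy1 (by linarith)
            have h7 : (1 + e) * (h / l * Real.log Y) ≤
                (1 - e / 4) * (1 + 3 * e) * (h / l * Real.log Y) :=
              mul_le_mul_of_nonneg_right (n3 he he1) hP0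
            have h8 : (1 + e) * (h / l) * Real.log Y = (1 + e) * (h / l * Real.log Y) := by ring
            have h9 : (1 - e / 4) * ((1 + 3 * e) * (h / l * Real.log Y)) =
              (1 - e / 4) * (1 + 3 * e) * (h / l * Real.log Y) := by ring
            linarith
          have h6 : ((pin A (j + h) + pin A Y : ℕ) : ℝ) ≤ ((pin A (Y + y) + pin A j : ℕ) : ℝ) := by
            push_cast
            linarith
          have h7 : pin A (j + h) + pin A Y ≤ pin A (Y + y) + pin A j := by exact_mod_cast h6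
          have h8 := pin_mono A (Nat.le_add_right j h)
          omega
        · rintro q ⟨⟨hqA', -, -, hqn', hqκ', -⟩, hqj'⟩
          have h5 := pin_mono A hqj'.2
          have h6 := pin_lt hqA' hqj'.1
          have h7 := Nat.ceil_le.2 hqκ'
          refine ⟨?_, by omega⟩
          rw [hK0]
          exact max_le h7 (by omega)
      refine le_trans (by exact_mod_cast hcount) (up_num (a := 2 * c₂) (e := e) (LY := Real.log Y)
        (y := y) (by positivity) he hl0 hh0 hLY0 (by linarith) (by linarith) hε hy2 ?_ hw2 hY1 hE1)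
      have h5 := mul_le_mul_of_nonneg_left hYl he.le
      linarith
  · intro hδj hjh
    have hjmono := pin_mono A (Nat.le_add_right j h)
    have hjn' : pin A (j + h) < n := by
      have h5 : (pin A (j + h) : ℝ) < n := by linarith
      exact_mod_cast h5
    have hjZ : j ≤ ZF n := by
      by_contra hc
      have h5 := pin_mono A (show ZF n - 2 ≤ j by omega)
      omega
    have hjδ : δ * n / 2 ≤ j := by
      have h5 : (pin A j : ℝ) ≤ j := by exact_mod_cast pin_le A j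
      have h6 : 0 ≤ δ * n := by positivity
      linarith
    obtain ⟨hs, -⟩ := hwj hjδ hjZ
    obtain ⟨K0, hK0⟩ : ∃ K0, K0 + pin A (j + h) = n := ⟨n - pin A (j + h), by omega⟩
    have hK0r : (K0 : ℝ) + pin A (j + h) = n := by exact_mod_cast hK0
    have hK1 : (n : ℝ) ^ (1 - κ) ≤ K0 := by linarith
    obtain ⟨Y, hYA, hYp, hY1, hY2, hLY0, hYl, hYu, hYw⟩ := hYf K0 hK1 (by omega)
    have hP0 : 0 ≤ h / l * Real.log Y := by positivity
    have he3 : 0 < 1 - 3 * e := by linarith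
    obtain ⟨y, hy⟩ : ∃ y, y = ⌊(1 - 3 * e) * (h / l * Real.log Y)⌋₊ := ⟨_, rfl⟩
    have hy1 : (y : ℝ) ≤ (1 - 3 * e) * (h / l * Real.log Y) := by
      rw [hy]
      exact Nat.floor_le (by positivity)
    have hy2 : (1 - 3 * e) * (h / l * Real.log Y) - 1 ≤ y := by
      rw [hy]
      have := Nat.lt_floor_add_one ((1 - 3 * e) * (h / l * Real.log Y))
      linarith
    have hPP : 97 / 100 * (h / l * Real.log Y) ≤ (1 - 3 * e) * (h / l * Real.log Y) :=
      mul_le_mul_of_nonneg_right (by linarith) hP0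
    have hPQ : (1 - 3 * e) * (h / l * Real.log Y) ≤ h / l * Real.log Y :=
      mul_le_of_le_one_left hP0 (by linarith)
    have hPR : (1 + e / 4) * (h : ℝ) ≤ 2 * h := mul_le_mul_of_nonneg_right (by linarith) hh0.le
    obtain ⟨⟨-, hw1⟩, ⟨hw2, -⟩⟩ := hYw y (by linarith) (by linarith)
    have hcount : tw A Y (Y + y) ≤ (TF A δ κ n (ZF n) ∩ Set.Ioc j (j + h)).ncard := by
      refine low_count hN hYA hYp hK0 ?_ hδj hK1 hpZ
      have h5 : (1 + e / 4) * y / Real.log Y ≤ (1 - e) * (h / l) := by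
        rw [div_le_iff₀ hLY0]
        have h6 : (1 + e / 4) * y ≤ (1 + e / 4) * ((1 - 3 * e) * (h / l * Real.log Y)) :=
          mul_le_mul_of_nonneg_left hy1 (by linarith)
        have h7 : (1 + e / 4) * (1 - 3 * e) * (h / l * Real.log Y) ≤
            (1 - e) * (h / l * Real.log Y) := mul_le_mul_of_nonneg_right (n4 he) hP0
        have h8 : (1 - e) * (h / l) * Real.log Y = (1 - e) * (h / l * Real.log Y) := by ring
        have h9 : (1 + e / 4) * ((1 - 3 * e) * (h / l * Real.log Y)) =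
          (1 + e / 4) * (1 - 3 * e) * (h / l * Real.log Y) := by ring
        linarith
      have h6 : ((pin A (Y + y) + pin A j : ℕ) : ℝ) ≤ ((pin A Y + pin A (j + h) : ℕ) : ℝ) := by
        push_cast
        linarith
      exact_mod_cast h6
    refine le_trans (low_num (a := 2 * c₂) (e := e) (LY := Real.log Y) (y := y) he hl0 hh0 hLY0
      he1 hae hy2 ?_ hw2 (hY2.trans (mul_le_mul_of_nonneg_right (by linarith) hl0.le)) hE2)
      (by exact_mod_cast hcount)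
    have h5 := mul_le_mul_of_nonneg_left hYl he.le
    linarith

end REG2N

theorem reg2 : S_REG2 := by
  intro hWIN hCNT hNTH c c₂ hc hc₂ hC2 b hOK α δ κ ε hα hδ hκ hκ4 hε
  have hz : Limit z0 := ⟨Pool.Agent.T2H32.BF.z0_mono, Pool.Agent.T2H32.BF.z0_lim⟩
  have hA0 : 0 ∉ RS z0 (WW c) b := fun h => absurd h.1 (by norm_num)
  have hC := (hCNT hWIN z0 hz c c₂ hc hC2 b hOK).1
  have hinf : (RS z0 (WW c) b).Infinite := by
    intro hfin
    obtain ⟨n, hn, hn2⟩ := ((REG2N.ev_pin hC).and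
      (eventually_gt_atTop (RS z0 (WW c) b).ncard)).exists
    have h1 : pin (RS z0 (WW c) b) (ZF n - 2) ≤ (RS z0 (WW c) b).ncard :=
      Set.ncard_le_ncard Set.inter_subset_left hfin
    omega
  exact REG2N.core hA0 hc₂ (hNTH _ hinf hA0) (hWIN z0 hz c c₂ hc hC2 b hOK) hC α δ κ ε hα hδ hκ
    hκ4 hε

end Pool.Agent.H531.IX
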