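import Pool.Agent.H531.IX.Stm6

set_option autoImplicit false

/-!
# REGQ: Goldbach pairs in short windows of the index
-/

open Finset MeasureTheory ProbabilityTheory Filter Topology

namespace Pool.Agent.H531.IX

open Pool.Agent.T2H32.BF (Model z0 V)
open Pool.Agent.H559.BS (Limit)
open Pool.Agent.H559.HY (OK WW Cut TG)
open Pool.Agent.H559.SI (gw)
open Pool.Agent.T2H32.GB (C2)

namespace REGQN

theorem gw_fin (A : Set ℕ) (N u y : ℕ) : {p : ℕ | u < p ∧ p ≤ u + y ∧ p ∈ A ∧ ∃ q ∈ A, p + q = N}.Finite :=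
  (Set.finite_Ioc u (u + y)).subset fun _ hp => ⟨hp.1, hp.2.1⟩

theorem up (R : Set ℕ) (κ : ℝ) (n j h u : ℕ) (h1 : j - 2 ≤ u) (h2 : ∀ q : ℕ, j < q + 2 → (n : ℝ) ^ (1 - κ) ≤ q → u < q) :
    (TQ R κ n ∩ Set.Ioc j (j + h)).ncard ≤ gw R (2 * n) u h := by
  unfold gw
  refine Set.ncard_le_ncard_of_injOn (fun m => m - 2) ?_ ?_ (gw_fin R _ _ _)
  · rintro m ⟨⟨q, s, hm, hqs, hq, hs, hq1, hs1⟩, hm1, hm2⟩
    subst hm
    have h3 := h2 q hm1 hq1
    refine ⟨?_, ?_, ?_, s, hs, ?_⟩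
    · show u < q + 2 - 2
      omega
    · show q + 2 - 2 ≤ u + h
      omega
    · show q + 2 - 2 ∈ R
      rw [Nat.add_sub_cancel]
      exact hq
    · show q + 2 - 2 + s = 2 * n
      omega
  · rintro m ⟨⟨q, s, hm, -⟩, -⟩ m' ⟨⟨q', s', hm', -⟩, -⟩ he
    have he' : m - 2 = m' - 2 := he
    omega

theorem low (R : Set ℕ) (κ : ℝ) (n j h : ℕ) (hj : 2 ≤ j) (h1 : ∀ p : ℕ, j - 2 < p → (n : ℝ) ^ (1 - κ) ≤ p)
    (h2 : ∀ p s : ℕ, p + s = 2 * n → p + 2 ≤ j + h → (n : ℝ) ^ (1 - κ) ≤ s) :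
    gw R (2 * n) (j - 2) h ≤ (TQ R κ n ∩ Set.Ioc j (j + h)).ncard := by
  unfold gw
  refine Set.ncard_le_ncard_of_injOn (fun p => p + 2) ?_ ?_
    ((Set.finite_Ioc j (j + h)).subset Set.inter_subset_right)
  · rintro p ⟨hp1, hp2, hp3, q, hq, hpq⟩
    refine ⟨⟨p, q, rfl, hpq, hp3, hq, h1 p hp1, h2 p q hpq (by omega)⟩, ?_, ?_⟩
    · show j < p + 2
      omega
    · show p + 2 ≤ j + h
      omega
  · intro p _ p' _ he
    have he' : p + 2 = p' + 2 := he
    omega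

end REGQN

open REGQN in
/-- **REGQ** -/
theorem regq : S_REGQ := by
  intro z hz c c₂ hc hc₂ hlim b hOK α κ ε₀ hα hκ0 hκ hε₀
  obtain ⟨ε, hεd⟩ : ∃ ε, ε = min ε₀ 1 := ⟨_, rfl⟩
  have hε : 0 < ε := by rw [hεd]; exact lt_min hε₀ one_pos
  have hε1 : ε ≤ 1 := by rw [hεd]; exact min_le_right _ _
  have hε2 : ε ≤ ε₀ := by rw [hεd]; exact min_le_left _ _
  obtain ⟨η, hη⟩ : ∃ η, η = ε / 8 := ⟨_, rfl⟩
  have hη0 : 0 < η := by rw [hη]; positivity
  have hg := Pool.Agent.H559.SI.gshort z (WW c) hz (Pool.Agent.H559.HY.cut_WW c hc) b hOK c₂ hc₂ hlim (α / 2) η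
    (by linarith) hη0
  have h2n : Tendsto (fun n : ℕ => 2 * n) atTop atTop := tendsto_id.const_mul_atTop' (by norm_num)
  have t1 : Tendsto (fun n : ℕ => (n : ℝ) ^ (1 / 4 : ℝ)) atTop atTop :=
    (tendsto_rpow_atTop (by norm_num)).comp tendsto_natCast_atTop_atTop
  have t2 : Tendsto (fun n : ℕ => Real.log n) atTop atTop :=
    Real.tendsto_log_atTop.comp tendsto_natCast_atTop_atTop
  filter_upwards [h2n.eventually hg, t1.eventually_ge_atTop 4, t2.eventually_ge_atTop (2 * Real.log 2 / η),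
    eventually_ge_atTop 2] with n hn hn1 hn2 hn3 j h hh1 hh2
  have hG := hn (even_two_mul n)
  have hnr : (2 : ℝ) ≤ n := by exact_mod_cast hn3
  have hn0 : (0 : ℝ) < n := by linarith
  have hl2 : 0 < Real.log 2 := Real.log_pos (by norm_num)
  obtain ⟨ℓ, hℓ⟩ : ∃ ℓ, ℓ = Real.log n := ⟨_, rfl⟩
  have hℓ2 : 2 * Real.log 2 ≤ η * ℓ := by
    rw [div_le_iff₀ hη0] at hn2
    rw [hℓ]
    linarith
  have hℓ0 : 0 < ℓ := by
    rw [hℓ]
    exact Real.log_pos (by linarith)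
  rw [← hℓ]
  obtain ⟨D, hD⟩ : ∃ D, D = TG c₂ (2 * n) := ⟨_, rfl⟩
  have hD0 : 0 < D := by
    rw [hD]
    exact lt_of_lt_of_le (by linarith) (Pool.Agent.H559.HY.TG_ge c₂ hc₂ (2 * n))
  rw [← hD] at hG ⊢
  obtain ⟨R, hR⟩ : ∃ R, R = RS z (WW c) b := ⟨_, rfl⟩
  have hRR : Pool.Agent.H559.HY.RS z (WW c) b = R := by rw [hR]; rfl
  rw [hRR] at hG
  rw [← hR]
  -- the power
  obtain ⟨w, hw⟩ : ∃ w, w = (n : ℝ) ^ (1 - κ) := ⟨_, rfl⟩
  rw [← hw]
  have hs1 : 1 ≤ (n : ℝ) ^ (1 / 2 : ℝ) := Real.one_le_rpow (by linarith) (by norm_num)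
  have hw1 : 4 * (n : ℝ) ^ (1 / 2 : ℝ) ≤ w := by
    have e1 : (n : ℝ) ^ (1 / 4 : ℝ) * (n : ℝ) ^ (1 / 2 : ℝ) ≤ w := by
      rw [hw, ← Real.rpow_add hn0]
      exact Real.rpow_le_rpow_of_exponent_le (by linarith) (by linarith)
    nlinarith
  have hw4 : 4 ≤ w := by linarith
  have hwh : 4 * (h : ℝ) ≤ w := by linarith
  have hh0 : (0 : ℝ) < h := lt_of_lt_of_le (Real.rpow_pos_of_pos hn0 _) hh1
  have hyw : ((2 * n : ℕ) : ℝ) ^ (α / 2) ≤ h := by
    refine le_trans ?_ hh1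
    calc ((2 * n : ℕ) : ℝ) ^ (α / 2) ≤ ((n : ℝ) ^ (2 : ℝ)) ^ (α / 2) := by
          refine Real.rpow_le_rpow (Nat.cast_nonneg _) ?_ (by linarith)
          rw [Real.rpow_two]
          push_cast
          nlinarith
      _ = (n : ℝ) ^ α := by
          rw [← Real.rpow_mul hn0.le]
          congr 1
          ring
  have hκ1 : 0 < 1 - κ := by linarith
  have hlw : (1 - η) * ((1 - κ) * ℓ) ≤ Real.log (w - 1) := by
    have e1 : Real.log (w / 2) ≤ Real.log (w - 1) := Real.log_le_log (by linarith) (by linarith)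
    have e2 : Real.log (w / 2) = (1 - κ) * ℓ - Real.log 2 := by
      rw [Real.log_div (by linarith) (by norm_num), hw, Real.log_rpow hn0, hℓ]
    have e3 : Real.log 2 ≤ η * ((1 - κ) * ℓ) := by
      have : η * ℓ * (1 / 2) ≤ η * ℓ * (1 - κ) := mul_le_mul_of_nonneg_left (by linarith) (by positivity)
      nlinarith
    rw [e2] at e1
    linarith
  constructor
  · -- upper bound
    by_cases hemp : (TQ R κ n ∩ Set.Ioc j (j + h)) = ∅
    · rw [hemp, Set.ncard_empty, Nat.cast_zero]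
      positivity
    · obtain ⟨m0, hm0⟩ := Set.nonempty_iff_ne_empty.2 hemp
      obtain ⟨⟨q0, s0, hm0e, hqs0, -, -, hq0, hs0⟩, hj0, hj1⟩ := hm0
      rw [← hw] at hq0 hs0
      obtain ⟨u, hu⟩ : ∃ u, u = max (j - 2) (⌈w⌉₊ - 1) := ⟨_, rfl⟩
      have hu1 : j - 2 ≤ u := by rw [hu]; exact le_max_left _ _
      have hu2 : ⌈w⌉₊ - 1 ≤ u := by rw [hu]; exact le_max_right _ _
      have hc1 : 1 ≤ ⌈w⌉₊ := Nat.one_le_ceil_iff.2 (by linarith)
      have huq : ∀ q : ℕ, j < q + 2 → w ≤ q → u < q := by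
        intro q h1 h2
        have h3 : ⌈w⌉₊ ≤ q := Nat.ceil_le.2 h2
        rw [hu]
        exact max_lt (by omega) (by omega)
      have hup := up R κ n j h u hu1 (by rw [← hw]; exact huq)
      have hq0u : u < q0 := huq q0 (by omega) hq0
      have huw : w - 1 ≤ u := by
        have h3 : (⌈w⌉₊ : ℝ) ≤ u + 1 := by exact_mod_cast (by omega : ⌈w⌉₊ ≤ u + 1)
        have := Nat.le_ceil w
        linarith
      have hhu : h ≤ u := by
        have : (h : ℝ) ≤ u := by linarith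
        exact_mod_cast this
      have hsum : (q0 : ℝ) + s0 = 2 * n := by exact_mod_cast hqs0
      have hq0u' : (u : ℝ) + 1 ≤ q0 := by exact_mod_cast hq0u
      have hu2n : u + 2 * h ≤ 2 * n := by
        have : (u : ℝ) + 2 * h ≤ 2 * n := by linarith
        exact_mod_cast this
      have hsub : ((2 * n - u : ℕ) : ℝ) = 2 * n - u := by
        rw [Nat.cast_sub (by omega)]
        push_cast
        ring
      have key := (abs_le.1 (hG u h hyw hhu hu2n)).2
      have hu0 : (0 : ℝ) < u := by linarith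
      have hx : (1 - η) * ((1 - κ) * ℓ) * ℓ ≤ Real.log u * Real.log ((2 * n - u : ℕ) : ℝ) := by
        rw [hsub]
        have hη1 : 0 ≤ 1 - η := by rw [hη]; linarith
        rcases le_total (u : ℝ) n with h1 | h1
        · have e1 : ℓ ≤ Real.log (2 * n - u) := by
            rw [hℓ]
            exact Real.log_le_log hn0 (by linarith)
          have e2 : (1 - η) * ((1 - κ) * ℓ) ≤ Real.log u :=
            hlw.trans (Real.log_le_log (by linarith) huw)
          exact mul_le_mul e2 e1 hℓ0.le ((by positivity : (0 : ℝ) ≤ (1 - η) * ((1 - κ) * ℓ)).trans e2)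
        · have e1 : ℓ ≤ Real.log u := by
            rw [hℓ]
            exact Real.log_le_log hn0 h1
          have e2 : (1 - η) * ((1 - κ) * ℓ) ≤ Real.log (2 * n - u) :=
            hlw.trans (Real.log_le_log (by linarith) (by linarith))
          rw [mul_comm (Real.log (u : ℝ))]
          exact mul_le_mul e2 e1 hℓ0.le ((by positivity : (0 : ℝ) ≤ (1 - η) * ((1 - κ) * ℓ)).trans e2)
      obtain ⟨x, hxd⟩ : ∃ x, x = Real.log u * Real.log ((2 * n - u : ℕ) : ℝ) := ⟨_, rfl⟩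
      rw [← hxd] at hx key
      obtain ⟨G, hGd⟩ : ∃ G : ℝ, G = gw R (2 * n) u h := ⟨_, rfl⟩
      rw [← hGd] at key
      have hG0 : 0 ≤ G := by rw [hGd]; exact Nat.cast_nonneg _
      have hupr : ((TQ R κ n ∩ Set.Ioc j (j + h)).ncard : ℝ) ≤ G := by
        rw [hGd]
        exact_mod_cast hup
      have k1 : G * x ≤ (1 + η) * (h * D) := by
        rw [← div_le_iff₀ (by positivity)]
        linarith
      have k2 : G * ((1 - η) * ((1 - κ) * ℓ) * ℓ) ≤ (1 + η) * (h * D) :=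
        (mul_le_mul_of_nonneg_left hx hG0).trans k1
      have k3 : (1 + η) ≤ (1 + ε₀) * (1 - η) := by
        have : (1 + ε) * (1 - η) ≤ (1 + ε₀) * (1 - η) := mul_le_mul_of_nonneg_right (by linarith) (by rw [hη]; linarith)
        refine le_trans ?_ this
        rw [hη]
        nlinarith
      refine hupr.trans ?_
      rw [div_mul_eq_mul_div, le_div_iff₀ (by positivity)]
      have hη1 : 0 < 1 - η := by rw [hη]; linarith
      have k4 : (G * ((1 - κ) * ℓ ^ 2)) * (1 - η) ≤ ((1 + ε₀) * D * h) * (1 - η) := by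
        calc (G * ((1 - κ) * ℓ ^ 2)) * (1 - η) = G * ((1 - η) * ((1 - κ) * ℓ) * ℓ) := by ring
          _ ≤ (1 + η) * (h * D) := k2
          _ ≤ ((1 + ε₀) * (1 - η)) * (h * D) := mul_le_mul_of_nonneg_right k3 (by positivity)
          _ = _ := by ring
      exact le_of_mul_le_mul_right k4 hη1
  · -- lower bound
    intro hj1 hj2
    have hj8 : (8 : ℝ) ≤ j := by linarith
    have hj : 2 ≤ j := by
      have : (2 : ℝ) ≤ j := by linarith
      exact_mod_cast this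
    have hjc : ((j - 2 : ℕ) : ℝ) = j - 2 := by
      rw [Nat.cast_sub hj]
      push_cast
      ring
    have hlow := low R κ n j h hj (fun p hp => by
      rw [← hw]
      have : ((j - 2 : ℕ) : ℝ) < p := by exact_mod_cast hp
      rw [hjc] at this
      linarith) (fun p s hps hp => by
      rw [← hw]
      have h1 : (p : ℝ) + s = 2 * n := by exact_mod_cast hps
      have h2 : (p : ℝ) + 2 ≤ j + h := by exact_mod_cast hp
      linarith)
    have hhu : h ≤ j - 2 := by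
      have : (h : ℝ) ≤ ((j - 2 : ℕ) : ℝ) := by rw [hjc]; linarith
      exact_mod_cast this
    have hu2n : j - 2 + 2 * h ≤ 2 * n := by
      have : ((j - 2 : ℕ) : ℝ) + 2 * h ≤ 2 * n := by rw [hjc]; linarith
      exact_mod_cast this
    have key := (abs_le.1 (hG (j - 2) h hyw hhu hu2n)).1
    have hsub : ((2 * n - (j - 2) : ℕ) : ℝ) = 2 * n - (j - 2) := by
      rw [Nat.cast_sub (by omega), hjc]
      push_cast
      ring
    have hl3 : Real.log (2 * n) ≤ (1 + η) * ℓ := by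
      rw [Real.log_mul (by norm_num) hn0.ne', ← hℓ]
      linarith
    have hx : Real.log ((j - 2 : ℕ) : ℝ) * Real.log ((2 * n - (j - 2) : ℕ) : ℝ) ≤ ((1 + η) * ℓ) * ((1 + η) * ℓ) := by
      have e1 : Real.log ((j - 2 : ℕ) : ℝ) ≤ (1 + η) * ℓ := by
        refine le_trans (Real.log_le_log (by rw [hjc]; linarith) ?_) hl3
        rw [hjc]
        linarith
      have e2 : Real.log ((2 * n - (j - 2) : ℕ) : ℝ) ≤ (1 + η) * ℓ := by
        refine le_trans (Real.log_le_log (by rw [hsub]; linarith) ?_) hl3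
        rw [hsub]
        linarith
      have e3 : 0 ≤ Real.log ((2 * n - (j - 2) : ℕ) : ℝ) := Real.log_nonneg (by rw [hsub]; linarith)
      exact mul_le_mul e1 e2 e3 (by positivity)
    obtain ⟨x, hxd⟩ : ∃ x, x = Real.log ((j - 2 : ℕ) : ℝ) * Real.log ((2 * n - (j - 2) : ℕ) : ℝ) := ⟨_, rfl⟩
    rw [← hxd] at hx key
    obtain ⟨G, hGd⟩ : ∃ G : ℝ, G = gw R (2 * n) (j - 2) h := ⟨_, rfl⟩
    rw [← hGd] at key
    have hG0 : 0 ≤ G := by rw [hGd]; exact Nat.cast_nonneg _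
    have hlr : G ≤ ((TQ R κ n ∩ Set.Ioc j (j + h)).ncard : ℝ) := by
      rw [hGd]
      exact_mod_cast hlow
    have k1 : (1 - η) * (h * D) ≤ G * x := by
      rw [← le_div_iff₀ (by positivity)]
      linarith
    have k2 : (1 - η) * (h * D) ≤ G * (((1 + η) * ℓ) * ((1 + η) * ℓ)) :=
      k1.trans (mul_le_mul_of_nonneg_left hx hG0)
    have k3 : (1 - ε₀) * (1 + η) ^ 2 ≤ 1 - η := by
      have : (1 - ε₀) * (1 + η) ^ 2 ≤ (1 - ε) * (1 + η) ^ 2 := mul_le_mul_of_nonneg_right (by linarith) (sq_nonneg _)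
      refine this.trans ?_
      rw [hη]
      nlinarith [mul_pos hε hε, mul_pos (mul_pos hε hε) hε]
    refine le_trans ?_ hlr
    rw [div_mul_eq_mul_div, div_le_iff₀ (by positivity)]
    have k4 : ((1 - ε₀) * D * h) * (1 + η) ^ 2 ≤ (G * ℓ ^ 2) * (1 + η) ^ 2 := by
      calc ((1 - ε₀) * D * h) * (1 + η) ^ 2 = ((1 - ε₀) * (1 + η) ^ 2) * (h * D) := by ring
        _ ≤ (1 - η) * (h * D) := mul_le_mul_of_nonneg_right k3 (by positivity)
        _ ≤ G * (((1 + η) * ℓ) * ((1 + η) * ℓ)) := k2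
        _ = _ := by ring
    exact le_of_mul_le_mul_right k4 (by positivity)

end Pool.Agent.H531.IX
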