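import Pool.Agent.H531.IX.Stm4

set_option autoImplicit false

/-!
# REGU: regularity of the iterated sets in short windows
-/

open Finset MeasureTheory ProbabilityTheory Filter Topology

namespace Pool.Agent.H531.IX

open Pool.Agent.T2H31.HV (Pt Ev Dep)
open Pool.Agent.T2H32.BF (Model z0 V)
open Pool.Agent.H559.BS (Limit)
open Pool.Agent.H559.HY (OK WW Cut)
open Pool.Agent.T2H32.GB (C2)

namespace REGUN

theorem limit_z0 : Limit z0 := ⟨Pool.Agent.T2H32.BF.z0_mono, Pool.Agent.T2H32.BF.z0_lim⟩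

theorem pin_le (A : Set ℕ) (x : ℕ) : pin A x ≤ x := by
  unfold pin
  calc (A ∩ Set.Icc 1 x).ncard ≤ (Set.Icc 1 x).ncard :=
        Set.ncard_le_ncard Set.inter_subset_right (Set.finite_Icc 1 x)
    _ = x := by
        rw [← Finset.coe_Icc, Set.ncard_coe_finset, Nat.card_Icc]
        omega

theorem pin_mono (A : Set ℕ) {x y : ℕ} (h : x ≤ y) : pin A x ≤ pin A y := by
  unfold pin
  refine Set.ncard_le_ncard ?_ ((Set.finite_Icc 1 y).inter_of_right A)
  exact Set.inter_subset_inter_right A (Set.Icc_subset_Icc_right h)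

theorem pin_lt (A : Set ℕ) {x p : ℕ} (hp : p ∈ A) (h : x < p) : pin A x < pin A p := by
  unfold pin
  refine Set.ncard_lt_ncard ?_ ((Set.finite_Icc 1 p).inter_of_right A)
  refine ⟨Set.inter_subset_inter_right A (Set.Icc_subset_Icc_right h.le), fun hs => ?_⟩
  have h1 : p ∈ A ∩ Set.Icc 1 x := hs ⟨hp, by omega, le_rfl⟩
  have h2 := h1.2.2
  omega

theorem pin_add (A : Set ℕ) (j h : ℕ) :
    pin A (j + h) = pin A j + (A ∩ Set.Ioc j (j + h)).ncard := by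
  unfold pin
  rw [← Set.ncard_union_eq ?_ ((Set.finite_Icc 1 j).inter_of_right A)
    ((Set.finite_Ioc j (j + h)).inter_of_right A)]
  · congr 1
    ext v
    simp only [Set.mem_inter_iff, Set.mem_union, Set.mem_Icc, Set.mem_Ioc]
    constructor
    · rintro ⟨h1, h2, h3⟩
      by_cases h4 : v ≤ j
      · exact Or.inl ⟨h1, h2, h4⟩
      · exact Or.inr ⟨h1, by omega, h3⟩
    · rintro (⟨h1, h2, h3⟩ | ⟨h1, h2, h3⟩)
      · exact ⟨h1, h2, by omega⟩
      · exact ⟨h1, by omega, h3⟩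
  · rw [Set.disjoint_left]
    rintro v ⟨_, h1⟩ ⟨_, h2⟩
    have h3 := h1.2
    have h4 := h2.1
    omega

theorem shift (A : Set ℕ) (hN : S_NTH) (hinf : A.Infinite) (h0 : 0 ∉ A) (i j h : ℕ) :
    (ra A i ∩ Set.Ioc (pin A j) (pin A (j + h))).ncard ≤
      (ra A (i + 1) ∩ Set.Ioc j (j + h)).ncard := by
  obtain ⟨-, hm⟩ := hN A hinf h0
  refine Set.ncard_le_ncard_of_injOn (fun m => rk A m) ?_ ?_
    ((Set.finite_Ioc j (j + h)).inter_of_right _)
  · rintro m ⟨h1, h2, h3⟩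
    obtain ⟨h4, h5⟩ := hm m (by omega)
    refine ⟨⟨h4, ?_⟩, ?_, ?_⟩
    · rw [h5]
      exact h1
    · by_contra h6
      have h7 := pin_mono A (not_lt.1 h6)
      rw [h5] at h7
      omega
    · by_contra h6
      have h7 := pin_lt A h4 (not_le.1 h6)
      rw [h5] at h7
      omega
  · rintro m ⟨_, h2, _⟩ m' ⟨_, h2', _⟩ he
    have he' : rk A m = rk A m' := he
    rw [← (hm m (by omega)).2, ← (hm m' (by omega)).2, he']

theorem core (A : Set ℕ) (hN : S_NTH) (hinf : A.Infinite) (h0 : 0 ∉ A) (X0 : ℕ)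
    (hW : ∀ X : ℕ, X0 ≤ X → ∀ y : ℕ, (X : ℝ) ^ (0.0005 : ℝ) ≤ y → y ≤ X →
      |((pin A (X + y) : ℝ) - pin A X) * Real.log X / y - 1| ≤ 1 / 2)
    (hC : ∀ x : ℕ, X0 ≤ x → 1 / 2 ≤ (pin A x : ℝ) * Real.log x / x)
    (n : ℕ) (hn : (X0 : ℝ) ≤ (n : ℝ) ^ (0.3 : ℝ)) (hn1 : 1 < (n : ℝ)) (hlog : 1 ≤ 4 * Real.log n) :
    ∀ i j h : ℕ, (n : ℝ) ^ (0.3 : ℝ) * (4 * Real.log n) ^ i ≤ j → j ≤ n ^ 2 →
      (n : ℝ) ^ (0.001 : ℝ) * (4 * Real.log n) ^ i ≤ h → (h : ℝ) ≤ (n : ℝ) ^ (0.1 : ℝ) →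
      (h : ℝ) / (4 * Real.log n) ^ (i + 1) ≤ ((ra A i ∩ Set.Ioc j (j + h)).ncard : ℝ) := by
  obtain ⟨L, hL⟩ : ∃ L : ℝ, L = 4 * Real.log n := ⟨_, rfl⟩
  rw [← hL] at hlog ⊢
  have hL0 : 0 < L := by linarith
  -- facts on `j`
  have hn0 : (0 : ℝ) ≤ n := by linarith
  have h3 : 1 < (n : ℝ) ^ (0.3 : ℝ) := Real.one_lt_rpow hn1 (by norm_num)
  have hj0 : ∀ j : ℕ, (n : ℝ) ^ (0.3 : ℝ) ≤ j → j ≤ n ^ 2 → X0 ≤ j ∧ 0 < Real.log j ∧
      2 * Real.log j ≤ L ∧ (1 : ℝ) < j := by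
    intro j h1 h2
    have h4 : (1 : ℝ) < j := lt_of_lt_of_le h3 h1
    refine ⟨by exact_mod_cast hn.trans h1, Real.log_pos h4, ?_, h4⟩
    have h5 : Real.log j ≤ Real.log ((n : ℝ) ^ 2) := by
      apply Real.log_le_log (by linarith)
      exact_mod_cast h2
    rw [Real.log_pow] at h5
    push_cast at h5
    rw [hL]
    linarith
  -- the case `i = 0`
  have base : ∀ j h : ℕ, (n : ℝ) ^ (0.3 : ℝ) ≤ j → j ≤ n ^ 2 → (n : ℝ) ^ (0.001 : ℝ) ≤ h →
      (h : ℝ) ≤ (n : ℝ) ^ (0.1 : ℝ) → (h : ℝ) / L ≤ ((A ∩ Set.Ioc j (j + h)).ncard : ℝ) := by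
    intro j h h1 h2 h4 h5
    obtain ⟨h6, h7, h8, h9⟩ := hj0 j h1 h2
    have h10 : (j : ℝ) ^ (0.0005 : ℝ) ≤ h := by
      refine le_trans ?_ h4
      have h11 : (j : ℝ) ≤ (n : ℝ) ^ (2 : ℝ) := by
        rw [Real.rpow_two]
        exact_mod_cast h2
      calc (j : ℝ) ^ (0.0005 : ℝ) ≤ ((n : ℝ) ^ (2 : ℝ)) ^ (0.0005 : ℝ) :=
            Real.rpow_le_rpow (by linarith) h11 (by norm_num)
        _ = (n : ℝ) ^ (0.001 : ℝ) := by
            rw [← Real.rpow_mul hn0]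
            norm_num
    have h11 : h ≤ j := by
      have h12 : (n : ℝ) ^ (0.1 : ℝ) ≤ (n : ℝ) ^ (0.3 : ℝ) :=
        Real.rpow_le_rpow_of_exponent_le hn1.le (by norm_num)
      exact_mod_cast (h5.trans h12).trans h1
    have h12 := hW j h6 h h10 h11
    have hh0 : (0 : ℝ) < h := lt_of_lt_of_le (Real.rpow_pos_of_pos (by linarith) _) h4
    rw [pin_add, Nat.cast_add, add_sub_cancel_left] at h12
    have h13 := (abs_le.1 h12).1
    have h14 : 1 / 2 ≤ ((A ∩ Set.Ioc j (j + h)).ncard : ℝ) * Real.log j / h := by linarith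
    rw [le_div_iff₀ hh0] at h14
    rw [div_le_iff₀ hL0]
    have h15 : ((A ∩ Set.Ioc j (j + h)).ncard : ℝ) * (2 * Real.log j) ≤
        ((A ∩ Set.Ioc j (j + h)).ncard : ℝ) * L :=
      mul_le_mul_of_nonneg_left h8 (Nat.cast_nonneg _)
    linarith
  intro i
  induction i with
  | zero =>
    intro j h h1 h2 h4 h5
    rw [pow_zero, mul_one] at h1 h4
    rw [zero_add, pow_one]
    exact base j h h1 h2 h4 h5
  | succ i ih =>
    intro j h h1 h2 h4 h5
    have hp1 : 1 ≤ L ^ (i + 1) := one_le_pow₀ hlog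
    have h6 : (n : ℝ) ^ (0.3 : ℝ) ≤ j :=
      (le_mul_of_one_le_right (by positivity) hp1).trans h1
    have h7 : (n : ℝ) ^ (0.001 : ℝ) ≤ h :=
      (le_mul_of_one_le_right (by positivity) hp1).trans h4
    obtain ⟨h8, h9, h10, h11⟩ := hj0 j h6 h2
    have h12 := base j h h6 h2 h7 h5
    have hadd := pin_add A j h
    obtain ⟨h', hh'⟩ : ∃ h', h' = (A ∩ Set.Ioc j (j + h)).ncard := ⟨_, rfl⟩
    rw [← hh'] at h12 hadd
    -- the new `j`
    have hpj : (j : ℝ) / L ≤ (pin A j : ℝ) := by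
      have h13 := hC j h8
      rw [le_div_iff₀ (by linarith)] at h13
      rw [div_le_iff₀ hL0]
      have h14 : (pin A j : ℝ) * (2 * Real.log j) ≤ (pin A j : ℝ) * L :=
        mul_le_mul_of_nonneg_left h10 (Nat.cast_nonneg _)
      linarith
    have hj' : (n : ℝ) ^ (0.3 : ℝ) * L ^ i ≤ (pin A j : ℕ) := by
      refine le_trans ?_ hpj
      rw [le_div_iff₀ hL0, mul_assoc, ← pow_succ]
      exact h1
    have hj2 : pin A j ≤ n ^ 2 := (pin_le A j).trans h2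
    have hh1 : (n : ℝ) ^ (0.001 : ℝ) * L ^ i ≤ (h' : ℕ) := by
      refine le_trans ?_ h12
      rw [le_div_iff₀ hL0, mul_assoc, ← pow_succ]
      exact h4
    have hh2 : ((h' : ℕ) : ℝ) ≤ (n : ℝ) ^ (0.1 : ℝ) := by
      refine le_trans ?_ h5
      have h15 : h' ≤ h := by
        rw [hh']
        calc (A ∩ Set.Ioc j (j + h)).ncard ≤ (Set.Ioc j (j + h)).ncard :=
              Set.ncard_le_ncard Set.inter_subset_right (Set.finite_Ioc _ _)
          _ = h := by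
              rw [← Finset.coe_Ioc, Set.ncard_coe_finset, Nat.card_Ioc]
              omega
      exact_mod_cast h15
    have h16 := ih (pin A j) h' hj' hj2 hh1 hh2
    have h17 := shift A hN hinf h0 i j h
    rw [hadd] at h17
    calc (h : ℝ) / L ^ (i + 1 + 1) = (h : ℝ) / L / L ^ (i + 1) := by
          rw [pow_succ L (i + 1), div_div, mul_comm L]
      _ ≤ (h' : ℝ) / L ^ (i + 1) := div_le_div_of_nonneg_right h12 (by positivity)
      _ ≤ ((ra A i ∩ Set.Ioc (pin A j) (pin A j + h')).ncard : ℝ) := h16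
      _ ≤ _ := by exact_mod_cast h17

theorem rs_inf' (A : Set ℕ)
    (h : Tendsto (fun x : ℕ => (pin A x : ℝ) * Real.log x / x) atTop (𝓝 1)) : A.Infinite := by
  intro hfin
  have hle : ∀ x : ℕ, (pin A x : ℝ) ≤ A.ncard := by
    intro x
    exact_mod_cast Set.ncard_le_ncard Set.inter_subset_left hfin
  have h2 : Tendsto (fun x : ℕ => Real.log x / x) atTop (𝓝 0) := by
    have := (Real.isLittleO_log_id_atTop.tendsto_div_nhds_zero).comp tendsto_natCast_atTop_atTop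
    simpa [Function.comp_def] using this
  have h3 : Tendsto (fun x : ℕ => (A.ncard : ℝ) * (Real.log x / x)) atTop (𝓝 0) := by
    simpa using h2.const_mul (A.ncard : ℝ)
  have h4 : Tendsto (fun x : ℕ => (pin A x : ℝ) * Real.log x / x) atTop (𝓝 0) := by
    refine squeeze_zero (fun x => ?_) (fun x => ?_) h3
    · have : 0 ≤ Real.log x := Real.log_natCast_nonneg x
      positivity
    · rw [mul_div_assoc]
      exact mul_le_mul_of_nonneg_right (hle x)
        (div_nonneg (Real.log_natCast_nonneg x) (Nat.cast_nonneg x))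
  exact one_ne_zero (tendsto_nhds_unique h h4)

end REGUN

open REGUN in
/-- **REGU**: regularity of the iterated sets in short windows -/
theorem regu : S_REGU := by
  intro hW hC hK hN c c₂ hc hc₂ b hb
  have hct := (hC hW z0 limit_z0 c c₂ hc hc₂ b hb).1
  have hwin := hW z0 limit_z0 c c₂ hc hc₂ b hb 0.0005 (1 / 2) (by norm_num) (by norm_num)
  obtain ⟨A, hA⟩ : ∃ A : Set ℕ, A = RS z0 (WW c) b := ⟨_, rfl⟩
  rw [← hA] at hct hwin ⊢
  have hinf : A.Infinite := rs_inf' A hct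
  have h0 : 0 ∉ A := by
    rw [hA]
    intro h
    have h1 : 3 ≤ 0 := h.1
    omega
  have hev : ∀ᶠ x : ℕ in atTop, 1 / 2 ≤ (pin A x : ℝ) * Real.log x / x :=
    hct.eventually_const_le (by norm_num)
  obtain ⟨X0, hX0⟩ := eventually_atTop.1 (hwin.and hev)
  have hrp : Tendsto (fun n : ℕ => (n : ℝ) ^ (0.3 : ℝ)) atTop atTop :=
    (tendsto_rpow_atTop (by norm_num)).comp tendsto_natCast_atTop_atTop
  have hlg : Tendsto (fun n : ℕ => Real.log (n : ℝ)) atTop atTop :=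
    Real.tendsto_log_atTop.comp tendsto_natCast_atTop_atTop
  filter_upwards [hrp.eventually_ge_atTop (X0 : ℝ), hlg.eventually_ge_atTop 1, hK,
    eventually_gt_atTop 1] with n h1 h2 h3 h4 i hi j h hj1 hj2 hh1 hh2
  have hn1 : 1 < (n : ℝ) := by exact_mod_cast h4
  have hn0 : 0 < (n : ℝ) := by linarith
  have hL1 : 1 ≤ 4 * Real.log n := by linarith
  have hpow : ∀ k : ℕ, k ≤ kk n + 1 → (4 * Real.log n) ^ k ≤ (n : ℝ) ^ (0.0005 : ℝ) := fun k hk =>
    (pow_le_pow_right₀ hL1 hk).trans h3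
  have hc1 : (n : ℝ) ^ (0.3 : ℝ) * (4 * Real.log n) ^ i ≤ j := by
    refine le_trans ?_ hj1
    calc (n : ℝ) ^ (0.3 : ℝ) * (4 * Real.log n) ^ i
        ≤ (n : ℝ) ^ (0.3 : ℝ) * (n : ℝ) ^ (0.0005 : ℝ) :=
          mul_le_mul_of_nonneg_left (hpow i (by omega)) (by positivity)
      _ = (n : ℝ) ^ (0.3005 : ℝ) := by
          rw [← Real.rpow_add hn0]
          norm_num
      _ ≤ (n : ℝ) ^ (0.31 : ℝ) := Real.rpow_le_rpow_of_exponent_le hn1.le (by norm_num)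
  have hc2 : (n : ℝ) ^ (0.001 : ℝ) * (4 * Real.log n) ^ i ≤ h := by
    refine le_trans ?_ hh1
    calc (n : ℝ) ^ (0.001 : ℝ) * (4 * Real.log n) ^ i
        ≤ (n : ℝ) ^ (0.001 : ℝ) * (n : ℝ) ^ (0.0005 : ℝ) :=
          mul_le_mul_of_nonneg_left (hpow i (by omega)) (by positivity)
      _ = (n : ℝ) ^ (0.0015 : ℝ) := by
          rw [← Real.rpow_add hn0]
          norm_num
      _ ≤ (n : ℝ) ^ (0.002 : ℝ) := Real.rpow_le_rpow_of_exponent_le hn1.le (by norm_num)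
  have h5 := core A hN hinf h0 X0 (fun X hX y hy1 hy2 => ((hX0 X hX).1 y hy1 hy2).1) (fun x hx => (hX0 x hx).2) n h1 hn1
    hL1 i j h hc1 hj2 hc2 hh2
  refine le_trans ?_ h5
  rw [Real.rpow_neg hn0.le, inv_mul_eq_div]
  exact div_le_div_of_nonneg_left (Nat.cast_nonneg _) (by positivity) (hpow (i + 1) (by omega))

end Pool.Agent.H531.IX
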