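import Pool.Agent.H531.IX.Stm5
import Pool.Agent.H531.IX.REGU

set_option autoImplicit false

/-!
# RGA: asymptotic regularity of the iterated sets in short windows
-/

open Finset MeasureTheory ProbabilityTheory Filter Topology

namespace Pool.Agent.H531.IX

open Pool.Agent.T2H31.HV (Pt Ev Dep)
open Pool.Agent.T2H32.BF (Model z0 V)
open Pool.Agent.H559.BS (Limit)
open Pool.Agent.H559.HY (OK WW Cut TG)
open Pool.Agent.T2H32.GB (C2)

namespace RGAN

open REGUN (pin_le pin_mono pin_lt pin_add shift)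

theorem shift_le (A : Set ℕ) (hN : S_NTH) (hinf : A.Infinite) (h0 : 0 ∉ A) (i j h : ℕ) :
    (ra A (i + 1) ∩ Set.Ioc j (j + h)).ncard ≤
      (ra A i ∩ Set.Ioc (pin A j) (pin A (j + h))).ncard := by
  obtain ⟨hp, -⟩ := hN A hinf h0
  refine Set.ncard_le_ncard_of_injOn (fun p => pin A p) ?_ ?_
    ((Set.finite_Ioc _ _).inter_of_right _)
  · rintro p ⟨⟨h1, h2⟩, h3, h4⟩
    exact ⟨h2, pin_lt A h1 h3, pin_mono A h4⟩
  · rintro p ⟨⟨h1, _⟩, _⟩ q ⟨⟨h1', _⟩, _⟩ he
    have he' : pin A p = pin A q := he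
    rw [← (hp p h1).1, ← (hp q h1').1, he']

theorem mul2 {a r e : ℝ} (ha : |a - 1| ≤ e) (hr : |r - 1| ≤ e) (he1 : e ≤ 1) :
    |a * r - 1| ≤ 3 * e := by
  have he : 0 ≤ e := (abs_nonneg _).trans ha
  have h1 : a * r - 1 = (a - 1) * (r - 1) + (a - 1) + (r - 1) := by ring
  have h2 : |(a - 1) * (r - 1)| ≤ e := by
    rw [abs_mul]
    have := mul_le_mul ha (hr.trans he1) (abs_nonneg _) he
    linarith
  rw [h1]
  have h3 := abs_add_le ((a - 1) * (r - 1) + (a - 1)) (r - 1)
  have h4 := abs_add_le ((a - 1) * (r - 1)) (a - 1)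
  linarith

theorem log_tendsto : Tendsto (fun n : ℕ => Real.log (n : ℝ)) atTop atTop :=
  Real.tendsto_log_atTop.comp tendsto_natCast_atTop_atTop

/-- a power of the logarithm is smaller than a power -/
theorem log_pow_le (C : ℕ) (K β : ℝ) (hβ : 0 < β) :
    ∀ᶠ n : ℕ in atTop, K * Real.log n ^ C ≤ (n : ℝ) ^ β := by
  have h1 : (fun x : ℝ => Real.log x ^ (C : ℝ)) =o[atTop] fun x => x ^ β :=
    isLittleO_log_rpow_rpow_atTop (C : ℝ) hβ
  have h2 := (h1.const_mul_left K).bound zero_lt_one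
  have h3 := (tendsto_natCast_atTop_atTop (R := ℝ)).eventually h2
  filter_upwards [h3, eventually_ge_atTop 1] with n h4 h5
  rw [one_mul, Real.norm_eq_abs, Real.norm_eq_abs, Real.rpow_natCast,
    abs_of_nonneg (Real.rpow_nonneg (Nat.cast_nonneg n) β)] at h4
  exact (le_abs_self _).trans h4

/-- the logarithms of the numbers in the window -/
theorem log_ratio (C : ℕ) (ε : ℝ) (hε : 0 < ε) : ∀ᶠ n : ℕ in atTop, ∀ j : ℕ,
    (n : ℝ) / Real.log n ^ C ≤ j → (j : ℝ) ≤ n * Real.log n ^ C →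
    |Real.log n / Real.log j - 1| ≤ ε := by
  obtain ⟨η, hη, hη1, hη2⟩ : ∃ η : ℝ, 0 < η ∧ η ≤ 1 / 2 ∧ 2 * η ≤ ε :=
    ⟨min (1 / 2) (ε / 2), by positivity, min_le_left _ _, by
      have := min_le_right (1 / 2) (ε / 2); linarith⟩
  have h1 : Tendsto (fun n : ℕ => Real.log (Real.log n) / Real.log n) atTop (𝓝 0) :=
    (Real.isLittleO_log_id_atTop.tendsto_div_nhds_zero).comp log_tendsto
  have h2 : Tendsto (fun n : ℕ => (C : ℝ) * (Real.log (Real.log n) / Real.log n)) atTop (𝓝 0) := by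
    have := h1.const_mul (C : ℝ)
    rwa [mul_zero] at this
  have h3 := h2.eventually (Iic_mem_nhds (show (0 : ℝ) < η from hη))
  filter_upwards [h3, log_tendsto.eventually_ge_atTop 1, eventually_ge_atTop 1] with n h4 h5 h6
  intro j hj1 hj2
  have hn0 : (0 : ℝ) < n := by exact_mod_cast h6
  have hL0 : 0 < Real.log n := by linarith
  have hLC : 0 < Real.log n ^ C := by positivity
  have hj0 : (0 : ℝ) < j := lt_of_lt_of_le (by positivity) hj1
  have h7 : (C : ℝ) * Real.log (Real.log n) ≤ η * Real.log n := by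
    have h8 : (C : ℝ) * (Real.log (Real.log n) / Real.log n) ≤ η := h4
    rw [← mul_div_assoc, div_le_iff₀ hL0] at h8
    exact h8
  have h9 : Real.log n - (C : ℝ) * Real.log (Real.log n) ≤ Real.log j := by
    have := Real.log_le_log (by positivity) hj1
    rwa [Real.log_div hn0.ne' hLC.ne', Real.log_pow] at this
  have h10 : Real.log j ≤ Real.log n + (C : ℝ) * Real.log (Real.log n) := by
    have := Real.log_le_log hj0 hj2
    rwa [Real.log_mul hn0.ne' hLC.ne', Real.log_pow] at this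
  have h11 : Real.log n / 2 ≤ Real.log j := by nlinarith
  have h12 : 0 < Real.log j := by linarith
  have h13 : |Real.log n - Real.log j| ≤ η * Real.log n := by
    rw [abs_le]
    constructor <;> linarith
  have h14 : Real.log n / Real.log j - 1 = (Real.log n - Real.log j) / Real.log j := by
    field_simp
  rw [h14, abs_div, abs_of_pos h12, div_le_iff₀ h12]
  have h15 : η * Real.log n ≤ 2 * η * Real.log j := by nlinarith
  have h16 : 2 * η * Real.log j ≤ ε * Real.log j := mul_le_mul_of_nonneg_right hη2 h12.le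
  linarith

/-- the left end points of the windows are large -/
theorem j_large (C : ℕ) (M : ℝ) : ∀ᶠ n : ℕ in atTop, ∀ j : ℕ,
    (n : ℝ) / Real.log n ^ C ≤ j → M ≤ (j : ℝ) := by
  have h1 := log_pow_le C M (1 / 2) (by norm_num)
  have h1' := log_pow_le C 1 (1 / 2) (by norm_num)
  filter_upwards [h1, h1', log_tendsto.eventually_ge_atTop 1, eventually_ge_atTop 1] with n h2 h2' h3 h4
  intro j hj
  have hn1 : (1 : ℝ) ≤ n := by exact_mod_cast h4
  have hn0 : (0 : ℝ) < n := by linarith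
  have hLC : 0 < Real.log n ^ C := by positivity
  refine le_trans ?_ hj
  rw [le_div_iff₀ hLC]
  refine h2.trans ?_
  calc (n : ℝ) ^ (1 / 2 : ℝ) ≤ (n : ℝ) ^ (1 : ℝ) :=
        Real.rpow_le_rpow_of_exponent_le hn1 (by norm_num)
    _ = n := Real.rpow_one _

/-- the properties of the random primes which are used -/
structure Hyp (A : Set ℕ) : Prop where
  win : ∀ δ ε : ℝ, 0 < δ → 0 < ε → ∀ᶠ X : ℕ in atTop, ∀ y : ℕ, (X : ℝ) ^ δ ≤ y → y ≤ X →
    |((pin A (X + y) : ℝ) - pin A X) * Real.log X / y - 1| ≤ ε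
  cnt : Tendsto (fun x : ℕ => (pin A x : ℝ) * Real.log x / x) atTop (𝓝 1)
  inf : A.Infinite
  zero : 0 ∉ A
  nth : S_NTH

theorem base {A : Set ℕ} (hA : Hyp A) (C : ℕ) (β ε : ℝ) (hβ : 0 < β) (hε : 0 < ε) :
    ∀ᶠ n : ℕ in atTop, ∀ j h : ℕ, (n : ℝ) / Real.log n ^ C ≤ j →
    (j : ℝ) ≤ n * Real.log n ^ C → (n : ℝ) ^ β ≤ h → (h : ℝ) ≤ (n : ℝ) ^ (0.1 : ℝ) →
    |((A ∩ Set.Ioc j (j + h)).ncard : ℝ) * Real.log n / h - 1| ≤ ε := by
  obtain ⟨e, he, he1, he2⟩ : ∃ e : ℝ, 0 < e ∧ e ≤ 1 ∧ 3 * e ≤ ε :=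
    ⟨min 1 (ε / 3), by positivity, min_le_left _ _, by
      have := min_le_right 1 (ε / 3); linarith⟩
  obtain ⟨X0, hX0⟩ := eventually_atTop.1 (hA.win (β / 2) e (by positivity) he)
  filter_upwards [log_ratio C e he, j_large C X0, log_pow_le C 1 0.5 (by norm_num),
    log_tendsto.eventually_ge_atTop 1, eventually_ge_atTop 1, j_large C 2]
    with n h1 h2 h3 h4 h5 h6
  intro j h hj1 hj2 hh1 hh2
  have hn1 : (1 : ℝ) ≤ n := by exact_mod_cast h5
  have hn0 : (0 : ℝ) < n := by linarith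
  have hLC : 0 < Real.log n ^ C := by positivity
  rw [one_mul] at h3
  have hj0 : (2 : ℝ) ≤ j := h6 j hj1
  have hh0 : (0 : ℝ) < h := lt_of_lt_of_le (Real.rpow_pos_of_pos hn0 _) hh1
  have hlj : 0 < Real.log j := Real.log_pos (by linarith)
  -- conditions of the window
  have c1 : (j : ℝ) ^ (β / 2) ≤ h := by
    refine le_trans ?_ hh1
    have hj3 : (j : ℝ) ≤ (n : ℝ) ^ (2 : ℝ) := by
      refine hj2.trans ?_
      rw [Real.rpow_two, sq]
      refine mul_le_mul_of_nonneg_left (h3.trans ?_) hn0.le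
      calc (n : ℝ) ^ (0.5 : ℝ) ≤ (n : ℝ) ^ (1 : ℝ) :=
            Real.rpow_le_rpow_of_exponent_le hn1 (by norm_num)
        _ = n := Real.rpow_one _
    calc (j : ℝ) ^ (β / 2) ≤ ((n : ℝ) ^ (2 : ℝ)) ^ (β / 2) :=
          Real.rpow_le_rpow (by linarith) hj3 (by positivity)
      _ = (n : ℝ) ^ β := by
          rw [← Real.rpow_mul hn0.le]
          congr 1
          ring
  have c2 : h ≤ j := by
    have h7 : (n : ℝ) ^ (0.1 : ℝ) ≤ n / Real.log n ^ C := by
      rw [le_div_iff₀ hLC]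
      calc (n : ℝ) ^ (0.1 : ℝ) * Real.log n ^ C ≤ (n : ℝ) ^ (0.1 : ℝ) * (n : ℝ) ^ (0.5 : ℝ) :=
            mul_le_mul_of_nonneg_left h3 (by positivity)
        _ = (n : ℝ) ^ (0.6 : ℝ) := by
            rw [← Real.rpow_add hn0]
            norm_num
        _ ≤ (n : ℝ) ^ (1 : ℝ) := Real.rpow_le_rpow_of_exponent_le hn1 (by norm_num)
        _ = n := Real.rpow_one _
    exact_mod_cast (hh2.trans h7).trans hj1
  have h8 := hX0 j (by exact_mod_cast h2 j hj1) h c1 c2
  rw [pin_add, Nat.cast_add, add_sub_cancel_left] at h8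
  have h9 := h1 j hj1 hj2
  have h10 := mul2 h8 h9 he1
  have h11 : ((A ∩ Set.Ioc j (j + h)).ncard : ℝ) * Real.log j / h * (Real.log n / Real.log j) =
      ((A ∩ Set.Ioc j (j + h)).ncard : ℝ) * Real.log n / h := by
    field_simp
  rw [h11] at h10
  exact h10.trans he2

theorem rga_core {A : Set ℕ} (hA : Hyp A) : ∀ (i C : ℕ) (β ε : ℝ), 0 < β → 0 < ε →
    ∀ᶠ n : ℕ in atTop, ∀ j h : ℕ, (n : ℝ) / Real.log n ^ C ≤ j →
    (j : ℝ) ≤ n * Real.log n ^ C → (n : ℝ) ^ β ≤ h → (h : ℝ) ≤ (n : ℝ) ^ (0.1 : ℝ) →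
    |((ra A i ∩ Set.Ioc j (j + h)).ncard : ℝ) * Real.log n ^ (i + 1) / h - 1| ≤ ε := by
  intro i
  induction i with
  | zero =>
    intro C β ε hβ hε
    filter_upwards [base hA C β ε hβ hε] with n h1
    intro j h hj1 hj2 hh1 hh2
    rw [zero_add, pow_one]
    exact h1 j h hj1 hj2 hh1 hh2
  | succ i ih =>
    intro C β ε hβ hε
    obtain ⟨e, he, he1, he2⟩ : ∃ e : ℝ, 0 < e ∧ e ≤ 1 / 2 ∧ 3 * e ≤ ε :=
      ⟨min (1 / 2) (ε / 3), by positivity, min_le_left _ _, by
        have := min_le_right (1 / 2) (ε / 3); linarith⟩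
    obtain ⟨X0, hX0⟩ := eventually_atTop.1 (hA.cnt.eventually_const_le (show (1 / 2 : ℝ) < 1 by norm_num))
    filter_upwards [ih (C + 2) (β / 2) e (by positivity) he, base hA C β e hβ he,
      log_ratio C (1 / 2) (by norm_num), j_large C X0, j_large C 2,
      log_pow_le 1 2 (β / 2) (by positivity), log_tendsto.eventually_ge_atTop 4,
      eventually_ge_atTop 1] with n h1 h2 h3 h4 h5 h6 h7 h8
    intro j h hj1 hj2 hh1 hh2
    have hn1 : (1 : ℝ) ≤ n := by exact_mod_cast h8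
    have hn0 : (0 : ℝ) < n := by linarith
    have hL0 : 0 < Real.log n := by linarith
    have hLC : 0 < Real.log n ^ C := by positivity
    have hj0 : (2 : ℝ) ≤ j := h5 j hj1
    have hh0 : (0 : ℝ) < h := lt_of_lt_of_le (Real.rpow_pos_of_pos hn0 _) hh1
    have hlj : 0 < Real.log j := Real.log_pos (by linarith)
    -- the new window
    have b0 := h2 j h hj1 hj2 hh1 hh2
    obtain ⟨h', hh'⟩ : ∃ h', h' = (A ∩ Set.Ioc j (j + h)).ncard := ⟨_, rfl⟩
    rw [← hh'] at b0
    have hadd := pin_add A j h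
    rw [← hh'] at hadd
    -- bounds of `j'`
    have hr := h3 j hj1 hj2
    have hlj2 : Real.log j ≤ 2 * Real.log n := by
      have h9 := (abs_le.1 hr).1
      have h10 : 1 / 2 ≤ Real.log n / Real.log j := by linarith
      rw [le_div_iff₀ hlj] at h10
      linarith
    have hcn := hX0 j (by exact_mod_cast h4 j hj1)
    rw [le_div_iff₀ (by linarith)] at hcn
    have hj'1 : (n : ℝ) / Real.log n ^ (C + 2) ≤ (pin A j : ℕ) := by
      rw [pow_add, ← div_div, div_le_iff₀ (by positivity)]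
      refine hj1.trans ?_
      have h9 : (j : ℝ) ≤ (pin A j : ℝ) * (4 * Real.log n) := by
        have h10 : (pin A j : ℝ) * Real.log j ≤ (pin A j : ℝ) * (2 * Real.log n) :=
          mul_le_mul_of_nonneg_left hlj2 (Nat.cast_nonneg _)
        linarith
      refine h9.trans (mul_le_mul_of_nonneg_left ?_ (Nat.cast_nonneg _))
      rw [sq]
      exact mul_le_mul_of_nonneg_right h7 hL0.le
    have hj'2 : ((pin A j : ℕ) : ℝ) ≤ n * Real.log n ^ (C + 2) := by
      have h9 : ((pin A j : ℕ) : ℝ) ≤ j := by exact_mod_cast pin_le A j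
      refine (h9.trans hj2).trans (mul_le_mul_of_nonneg_left ?_ hn0.le)
      exact pow_le_pow_right₀ (by linarith) (by omega)
    -- bounds of `h'`
    have hh'0 : (h : ℝ) / (2 * Real.log n) ≤ h' := by
      have h9 := (abs_le.1 b0).1
      have h10 : 1 / 2 ≤ (h' : ℝ) * Real.log n / h := by linarith
      rw [le_div_iff₀ hh0] at h10
      rw [div_le_iff₀ (by positivity)]
      linarith
    have hh'1 : (n : ℝ) ^ (β / 2) ≤ (h' : ℕ) := by
      refine le_trans ?_ hh'0
      rw [le_div_iff₀ (by positivity)]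
      refine le_trans ?_ hh1
      rw [pow_one] at h6
      calc (n : ℝ) ^ (β / 2) * (2 * Real.log n) ≤ (n : ℝ) ^ (β / 2) * (n : ℝ) ^ (β / 2) :=
            mul_le_mul_of_nonneg_left h6 (by positivity)
        _ = (n : ℝ) ^ β := by
            rw [← Real.rpow_add hn0]
            congr 1
            ring
    have hh'2 : ((h' : ℕ) : ℝ) ≤ (n : ℝ) ^ (0.1 : ℝ) := by
      refine le_trans ?_ hh2
      have h15 : h' ≤ h := by
        rw [hh']
        calc (A ∩ Set.Ioc j (j + h)).ncard ≤ (Set.Ioc j (j + h)).ncard :=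
              Set.ncard_le_ncard Set.inter_subset_right (Set.finite_Ioc _ _)
          _ = h := by
              rw [← Finset.coe_Ioc, Set.ncard_coe_finset, Nat.card_Ioc]
              omega
      exact_mod_cast h15
    have b1 := h1 (pin A j) h' hj'1 hj'2 hh'1 hh'2
    have hsh : (ra A (i + 1) ∩ Set.Ioc j (j + h)).ncard =
        (ra A i ∩ Set.Ioc (pin A j) (pin A j + h')).ncard := by
      rw [← hadd]
      exact le_antisymm (shift_le A hA.nth hA.inf hA.zero i j h)
        (shift A hA.nth hA.inf hA.zero i j h)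
    rw [hsh]
    have h10 := mul2 b1 b0 (by linarith)
    have hh'pos : (0 : ℝ) < h' := lt_of_lt_of_le (by positivity) hh'0
    have h11 : ((ra A i ∩ Set.Ioc (pin A j) (pin A j + h')).ncard : ℝ) * Real.log n ^ (i + 1) / h' *
        ((h' : ℝ) * Real.log n / h) =
        ((ra A i ∩ Set.Ioc (pin A j) (pin A j + h')).ncard : ℝ) * Real.log n ^ (i + 1 + 1) / h := by
      rw [pow_succ (Real.log n) (i + 1)]
      field_simp
    rw [h11] at h10
    exact h10.trans he2

end RGAN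

theorem rga : S_RGA := by
  intro hW hC hN c c₂ hc hc₂ b hb i C β ε hβ hε
  have cnt := (hC hW z0 REGUN.limit_z0 c c₂ hc hc₂ b hb).1
  have hyp : RGAN.Hyp (RS z0 (WW c) b) :=
    { win := fun δ ε hδ hε => by
        filter_upwards [hW z0 REGUN.limit_z0 c c₂ hc hc₂ b hb δ ε hδ hε] with X h1 y h2 h3
        exact (h1 y h2 h3).1
      cnt := cnt
      inf := REGUN.rs_inf' _ cnt
      zero := fun h => by
        have h1 : 3 ≤ 0 := h.1
        omega
      nth := hN }
  exact RGAN.rga_core hyp i C β ε hβ hε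

end Pool.Agent.H531.IX
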