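import Pool.Agent.H531.IX.Stm5
import Pool.Agent.H531.IX.NUM
import Pool.Agent.H531.IX.SQ

set_option autoImplicit false

/-! # `S_SQ5`: the sieving limit over the windows -/

open Finset MeasureTheory ProbabilityTheory Filter Topology

namespace Pool.Agent.H531.IX

open Pool.Agent.T2H32.BF (Model z0 V V_pos V_anti V_ratio V_step mertens z0_mem z0_lt z0_mono
  z0_top z0_lim)

namespace SQ5N

theorem ev_log_pow (C : ℕ) (η : ℝ) (hη : 0 < η) :
    ∀ᶠ n : ℕ in atTop, Real.log n ^ C ≤ (n : ℝ) ^ η := by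
  have h1 := (isLittleO_log_rpow_rpow_atTop (C : ℝ) hη).bound (show (0 : ℝ) < 1 by norm_num)
  have h2 := tendsto_natCast_atTop_atTop.eventually h1
  filter_upwards [h2, eventually_ge_atTop 1] with n h3 h4
  have hn : (1 : ℝ) ≤ n := by exact_mod_cast h4
  rw [one_mul, Real.rpow_natCast, Real.norm_of_nonneg (pow_nonneg (Real.log_nonneg hn) C),
    Real.norm_of_nonneg (by positivity)] at h3
  exact h3

end SQ5N

theorem sq5 : S_SQ5 := by
  intro C ε hε
  obtain ⟨N0, hN0⟩ := eventually_atTop.1 NUMN.z0_ge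
  obtain ⟨η, hη⟩ : ∃ η, η = min (0.02 : ℝ) ((ε / 2) / (2 * (1 + ε / 2))) := ⟨_, rfl⟩
  have hη0 : 0 < η := by
    rw [hη]
    exact lt_min (by norm_num) (by positivity)
  have hη1 : η ≤ 0.02 := by
    rw [hη]
    exact min_le_left _ _
  have hη2 : η * (1 + ε / 2) ≤ ε / 4 := by
    have h0 : η ≤ (ε / 2) / (2 * (1 + ε / 2)) := by
      rw [hη]
      exact min_le_right _ _
    have h1 : (ε / 2) / (2 * (1 + ε / 2)) * (1 + ε / 2) = ε / 4 := by
      field_simp
      ring
    rw [← h1]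
    exact mul_le_mul_of_nonneg_right h0 (by positivity)
  filter_upwards [SQ5N.ev_log_pow C η hη0, NUMN.ev_pow 0.98 (N0 + 3) (by norm_num), SQN.z0_le,
    NUMN.ev_pow 0.5 ((2 + ε) / ε) (by norm_num), SQN.ev_log_big (4 / ε), SQN.ev_log_big 500,
    eventually_ge_atTop 16] with n h1 h2 h3 h4 h5 h6 hn u y hu huy
  have hnR : (16 : ℝ) ≤ n := by exact_mod_cast hn
  have hn0 : (0 : ℝ) < n := by linarith
  have hlog : 0 < Real.log n := by linarith
  have hu1 : (n : ℝ) ^ (1 - η) ≤ u := by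
    refine le_trans ?_ hu
    rw [le_div_iff₀ (by positivity)]
    calc (n : ℝ) ^ (1 - η) * Real.log n ^ C ≤ (n : ℝ) ^ (1 - η) * (n : ℝ) ^ η :=
          mul_le_mul_of_nonneg_left h1 (by positivity)
      _ = n := by rw [← Real.rpow_add hn0, sub_add_cancel, Real.rpow_one]
  have hu2 : (n : ℝ) ^ (0.98 : ℝ) ≤ u :=
    (Real.rpow_le_rpow_of_exponent_le (by linarith) (by linarith)).trans hu1
  have huN : N0 + 3 ≤ u := by
    have h0 : ((N0 : ℝ) + 3) ≤ u := h2.trans hu2
    exact_mod_cast h0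
  have hu0 : (0 : ℝ) < u := by exact_mod_cast (by omega : 0 < u)
  have A1 : (n : ℝ) ^ (0.5 : ℝ) ≤ z0 u := by
    refine le_trans ?_ (hN0 u (by omega))
    calc (n : ℝ) ^ (0.5 : ℝ) ≤ (n : ℝ) ^ ((0.98 : ℝ) * 0.5125) :=
          Real.rpow_le_rpow_of_exponent_le (by linarith) (by norm_num)
      _ = ((n : ℝ) ^ (0.98 : ℝ)) ^ (0.5125 : ℝ) := Real.rpow_mul hn0.le _ _
      _ ≤ (u : ℝ) ^ (0.5125 : ℝ) := Real.rpow_le_rpow (by positivity) hu2 (by norm_num)
  have hz : (2 + ε) / ε ≤ z0 u := h4.trans A1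
  have hz1R : (1 : ℝ) ≤ z0 u := by
    refine le_trans ?_ hz
    rw [le_div_iff₀ hε]
    linarith
  have hz1 : 1 ≤ z0 u := by exact_mod_cast hz1R
  refine ⟨A1, h3, ?_, ?_⟩
  · obtain ⟨δ, hδ⟩ : ∃ δ : ℝ, δ = (y : ℝ) / u := ⟨_, rfl⟩
    have hδ0 : 0 ≤ δ := by rw [hδ]; positivity
    have hδu : (u : ℝ) * δ = y := by
      rw [hδ]
      field_simp
    have key := NUMN.sum_le (x := u) (x' := u + y) (δ := δ) (by omega) (by omega) hz1 (by
      push_cast
      linarith)
    refine key.trans ?_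
    have e0 : 3 * (y : ℝ) / u = 3 * δ := by
      rw [hδ]
      ring
    rw [e0]
    obtain ⟨t, ht⟩ : ∃ t : ℝ, t = 1 / (z0 u : ℝ) := ⟨_, rfl⟩
    have ht0 : 0 ≤ t := by rw [ht]; positivity
    have ht1 : t ≤ 1 := by
      rw [ht, div_le_one (by linarith)]
      exact hz1R
    have ht2 : t ≤ (n : ℝ) ^ (-(0.4 : ℝ)) := by
      rw [ht, Real.rpow_neg hn0.le, ← one_div]
      apply one_div_le_one_div_of_le (by positivity)
      exact (Real.rpow_le_rpow_of_exponent_le (by linarith) (by norm_num)).trans A1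
    rw [← ht]
    nlinarith
  · obtain ⟨w, hw⟩ : ∃ w, w = u + y := ⟨_, rfl⟩
    rw [← hw]
    have hzw : (z0 u : ℝ) ≤ z0 w := by
      exact_mod_cast z0_mono (by omega : u ≤ w)
    have hwu : (u : ℝ) ≤ w := by exact_mod_cast (by omega : u ≤ w)
    have key := SQN.sum_le' (x := w) (x' := 2 * n) (δ := ε / 2) (by omega) (by omega)
      (by
        have h0 : (1 : ℝ) ≤ z0 w := by linarith
        exact_mod_cast h0) (by positivity) (by
        have e1 : Real.log ((2 * n : ℕ) : ℝ) = Real.log 2 + Real.log n := by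
          push_cast
          rw [Real.log_mul (by norm_num) (by positivity)]
        have e2 : (1 - η) * Real.log n ≤ Real.log w := by
          rw [← Real.log_rpow hn0]
          exact Real.log_le_log (by positivity) (hu1.trans hwu)
        have hl2 : Real.log 2 < 0.6931471808 := Real.log_two_lt_d9
        have e3 : 1 ≤ ε / 4 * Real.log n := by
          have e4 := mul_le_mul_of_nonneg_left h5 (show (0 : ℝ) ≤ ε / 4 by positivity)
          have e5 : ε / 4 * (4 / ε) = 1 := by field_simp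
          rw [e5] at e4
          exact e4
        have e6 : (1 - η) * Real.log n * (1 + ε / 2) ≤ Real.log w * (1 + ε / 2) :=
          mul_le_mul_of_nonneg_right e2 (by positivity)
        have e7 : η * (1 + ε / 2) * Real.log n ≤ ε / 4 * Real.log n :=
          mul_le_mul_of_nonneg_right hη2 hlog.le
        rw [e1]
        nlinarith)
    refine key.trans ?_
    have hzw2 : (2 + ε) / ε ≤ z0 w := hz.trans hzw
    have e8 : 1 / (z0 w : ℝ) ≤ ε / (2 + ε) := by
      have e9 := one_div_le_one_div_of_le (show 0 < (2 + ε) / ε by positivity) hzw2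
      rwa [one_div_div] at e9
    have e10 : (1 + ε / 2) * (1 / (z0 w : ℝ)) ≤ (1 + ε / 2) * (ε / (2 + ε)) :=
      mul_le_mul_of_nonneg_left e8 (by positivity)
    have e11 : (1 + ε / 2) * (ε / (2 + ε)) = ε / 2 := by
      field_simp
    rw [e11] at e10
    linarith

end Pool.Agent.H531.IX
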