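import Pool.Agent.H531.IX.Stm5

set_option autoImplicit false

/-!
# SUM5: summation over the windows
-/

open Finset MeasureTheory ProbabilityTheory Filter Topology

namespace Pool.Agent.H531.IX

open Pool.Agent.T2H31.HV (Pt Ev Dep)
open Pool.Agent.T2H32.BF (Model z0 V)
open Pool.Agent.H559.BS (Limit)
open Pool.Agent.H559.HY (OK WW Cut TG)
open Pool.Agent.T2H32.GB (C2)

namespace SUM5N

theorem card_add (B B' : Set ℕ) (n x y z : ℕ) (h1 : x ≤ y) (h2 : y ≤ z) :
    (G3 B B' n x z).card = (G3 B B' n x y).card + (G3 B B' n y z).card := by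
  classical
  rw [← card_union_of_disjoint]
  · congr 1
    ext v
    simp only [G3, mem_union, mem_filter, mem_Ioc]
    constructor
    · rintro ⟨⟨h3, h4⟩, h5⟩
      rcases le_or_gt v y with h | h
      · exact Or.inl ⟨⟨h3, h⟩, h5⟩
      · exact Or.inr ⟨⟨h, h4⟩, h5⟩
    · rintro (⟨⟨h3, h4⟩, h5⟩ | ⟨⟨h3, h4⟩, h5⟩)
      · exact ⟨⟨h3, h4.trans h2⟩, h5⟩
      · exact ⟨⟨h1.trans_lt h3, h4⟩, h5⟩
  · rw [disjoint_left]
    intro v hv hv'
    simp only [G3, mem_filter, mem_Ioc] at hv hv'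
    omega

theorem card_le (B B' : Set ℕ) (n x y : ℕ) : (G3 B B' n x y).card ≤ y - x := by
  classical
  unfold G3
  refine (card_filter_le _ _).trans ?_
  rw [Nat.card_Ioc]

/-- the sum over the windows -/
theorem card_sum (B B' : Set ℕ) (n u y J : ℕ) :
    (G3 B B' n u (u + J * y)).card = ∑ j ∈ range J, (G3 B B' n (u + j * y) (u + j * y + y)).card := by
  induction J with
  | zero =>
    rw [zero_mul, add_zero, range_zero, sum_empty]
    have := card_le B B' n u u
    omega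
  | succ J ih =>
    rw [sum_range_succ, ← ih]
    have e : u + (J + 1) * y = u + J * y + y := by ring
    rw [e]
    exact card_add B B' n u (u + J * y) (u + J * y + y) (Nat.le_add_right _ _) (Nat.le_add_right _ _)

/-- the conditions for large `n` -/
theorem large (K : ℕ) (c : ℝ) : ∀ᶠ n : ℕ in atTop, c ≤ Real.log n ∧ 4 ≤ Real.log n ∧
    Real.log n ^ K ≤ (n : ℝ) ^ (0.001 : ℝ) ∧ 2 ≤ (n : ℝ) ^ (0.004 : ℝ) ∧ 2 ≤ n := by
  have h1 : Tendsto (fun n : ℕ => (n : ℝ)) atTop atTop := tendsto_natCast_atTop_atTop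
  have h2 : ∀ᶠ x : ℝ in atTop, Real.log x ^ K ≤ x ^ (0.001 : ℝ) := by
    have h := (isLittleO_log_rpow_rpow_atTop (K : ℝ) (by norm_num : (0 : ℝ) < 0.001)).bound
      (show (0 : ℝ) < 1 by norm_num)
    filter_upwards [h, eventually_ge_atTop 1] with x hx hx1
    rw [one_mul, Real.norm_eq_abs, Real.norm_eq_abs, Real.rpow_natCast,
      abs_of_nonneg (Real.rpow_nonneg (by linarith) _)] at hx
    exact (le_abs_self _).trans hx
  have h3 : ∀ᶠ x : ℝ in atTop, 2 ≤ x ^ (0.004 : ℝ) :=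
    (tendsto_rpow_atTop (by norm_num : (0 : ℝ) < 0.004)).eventually_ge_atTop 2
  filter_upwards [h1.eventually h2, h1.eventually h3,
    (Real.tendsto_log_atTop.comp h1).eventually_ge_atTop c,
    (Real.tendsto_log_atTop.comp h1).eventually_ge_atTop 4, eventually_ge_atTop 2]
    with n ha hb hc hd he
  exact ⟨hc, hd, ha, hb, he⟩

theorem main (B B' : Set ℕ) (e d : ℕ) (T : ℕ → ℝ) (t0 : ℝ) (ht0 : 0 < t0) (hT : ∀ n, t0 ≤ T n)
    (H : ∀ ε : ℝ, 0 < ε → ∀ᶠ n : ℕ in atTop, ∀ u y : ℕ, (n : ℝ) / Real.log n ^ (e + 1) ≤ u →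
      (n : ℝ) ^ (0.995 : ℝ) ≤ y → (y : ℝ) ≤ u / Real.log n ^ d → u + y < n →
      |((G3 B B' n u (u + y)).card : ℝ) * Real.log n ^ e / (y * T n) - 1| ≤ ε) :
    Tendsto (fun n : ℕ => ((G3 B B' n 0 (n - 1)).card : ℝ) * Real.log n ^ e / (n * T n)) atTop
      (𝓝 1) := by
  rw [Metric.tendsto_nhds]
  intro ε hε
  filter_upwards [H (ε / 4) (by linarith), large (e + d + 2) (16 / ε), large 1 (12 / (ε * t0))]
    with n hH hn1 hn2
  obtain ⟨hl1, hl4, hlK, hn4, hn2'⟩ := hn1
  obtain ⟨hl2, -, -, -, -⟩ := hn2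
  rw [Real.dist_eq]
  set l := Real.log n with hl
  have hn0 : (0 : ℝ) < n := by exact_mod_cast (by omega : 0 < n)
  have hn1 : (1 : ℝ) ≤ n := by exact_mod_cast (by omega : 1 ≤ n)
  have hl0 : 0 < l := by linarith
  have hl1' : 1 ≤ l := by linarith
  have hTn := hT n
  have hT0 : 0 < T n := by linarith
  -- powers of the logarithm
  have hpe : 0 < l ^ (e + 1) := by positivity
  have hpK : 0 < l ^ (e + d + 2) := by positivity
  have hKn : l ^ (e + d + 2) ≤ n := by
    refine hlK.trans ?_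
    calc (n : ℝ) ^ (0.001 : ℝ) ≤ (n : ℝ) ^ (1 : ℝ) :=
          Real.rpow_le_rpow_of_exponent_le hn1 (by norm_num)
      _ = n := Real.rpow_one _
  have hen : l ^ (e + 1) ≤ n := (pow_le_pow_right₀ hl1' (by omega)).trans hKn
  have hge1 : 1 ≤ n / l ^ (e + 1) := by
    rw [le_div_iff₀ hpe, one_mul]
    exact hen
  -- the parameters
  obtain ⟨u, hu⟩ : ∃ u : ℕ, u = ⌈(n : ℝ) / l ^ (e + 1)⌉₊ := ⟨_, rfl⟩
  obtain ⟨y, hy⟩ : ∃ y : ℕ, y = ⌊(n : ℝ) / l ^ (e + d + 2)⌋₊ := ⟨_, rfl⟩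
  have hu1 : (n : ℝ) / l ^ (e + 1) ≤ u := by rw [hu]; exact Nat.le_ceil _
  have hu2 : (u : ℝ) ≤ 2 * (n / l ^ (e + 1)) := by
    have : (u : ℝ) < n / l ^ (e + 1) + 1 := by rw [hu]; exact Nat.ceil_lt_add_one (by positivity)
    linarith
  have hy1 : (y : ℝ) ≤ n / l ^ (e + d + 2) := by rw [hy]; exact Nat.floor_le (by positivity)
  have hy2 : n / l ^ (e + d + 2) < (y : ℝ) + 1 := by rw [hy]; exact Nat.lt_floor_add_one _
  have hyn : (n : ℝ) ^ (0.995 : ℝ) ≤ y := by
    have h1 : (n : ℝ) ^ (0.999 : ℝ) ≤ n / l ^ (e + d + 2) := by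
      rw [le_div_iff₀ hpK]
      calc (n : ℝ) ^ (0.999 : ℝ) * l ^ (e + d + 2) ≤ (n : ℝ) ^ (0.999 : ℝ) * (n : ℝ) ^ (0.001 : ℝ) :=
            mul_le_mul_of_nonneg_left hlK (by positivity)
        _ = n := by
            rw [← Real.rpow_add hn0]
            norm_num
    have h2 : (n : ℝ) ^ (0.999 : ℝ) = (n : ℝ) ^ (0.995 : ℝ) * (n : ℝ) ^ (0.004 : ℝ) := by
      rw [← Real.rpow_add hn0]
      norm_num
    have h3 : 1 ≤ (n : ℝ) ^ (0.995 : ℝ) := Real.one_le_rpow hn1 (by norm_num)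
    have h4 : (n : ℝ) ^ (0.995 : ℝ) * 2 ≤ (n : ℝ) ^ (0.995 : ℝ) * (n : ℝ) ^ (0.004 : ℝ) :=
      mul_le_mul_of_nonneg_left hn4 (by positivity)
    linarith
  have hy0 : 0 < y := by
    have h3 : 1 ≤ (n : ℝ) ^ (0.995 : ℝ) := Real.one_le_rpow hn1 (by norm_num)
    have : (0 : ℝ) < y := by linarith
    exact_mod_cast this
  have hy0' : (0 : ℝ) < y := by exact_mod_cast hy0
  have hye : (y : ℝ) ≤ n / l ^ (e + 1) := by
    refine hy1.trans ?_
    exact div_le_div_of_nonneg_left hn0.le hpe (pow_le_pow_right₀ hl1' (by omega))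
  -- `n / l ^ (e + 1) ≤ n / 4`
  have hdiv4 : n / l ^ (e + 1) ≤ n / 4 := by
    refine div_le_div_of_nonneg_left hn0.le (by norm_num) ?_
    calc (4 : ℝ) ≤ l ^ 1 := by rw [pow_one]; exact hl4
      _ ≤ l ^ (e + 1) := pow_le_pow_right₀ hl1' (by omega)
  have hun : u + 1 ≤ n := by
    have h2 : (2 : ℝ) ≤ n := by exact_mod_cast hn2'
    have : (u : ℝ) + 1 ≤ n := by linarith
    exact_mod_cast this
  obtain ⟨J, hJ⟩ : ∃ J : ℕ, J = (n - 1 - u) / y := ⟨_, rfl⟩
  have hJ1 : J * y ≤ n - 1 - u := by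
    rw [hJ]
    exact Nat.div_mul_le_self _ _
  have hJ2 : n - 1 - u < J * y + y := by
    rw [hJ]
    exact Nat.lt_div_mul_add hy0
  -- the windows
  have hwin : ∀ j ∈ range J, |((G3 B B' n (u + j * y) (u + j * y + y)).card : ℝ) -
      y * T n / l ^ e| ≤ ε / 4 * (y * T n / l ^ e) := by
    intro j hj
    have hj' := mem_range.1 hj
    have h1 : u + j * y + y ≤ n - 1 := by
      have : j * y + y ≤ J * y := by
        calc j * y + y = (j + 1) * y := by ring
          _ ≤ J * y := Nat.mul_le_mul_right _ hj'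
      omega
    have h2 : (u : ℝ) ≤ ((u + j * y : ℕ) : ℝ) := by
      exact_mod_cast Nat.le_add_right _ _
    have h3 := hH (u + j * y) y (hu1.trans h2) hyn (by
      refine le_trans ?_ (div_le_div_of_nonneg_right (hu1.trans h2) (by positivity))
      refine hy1.trans ?_
      rw [div_div]
      refine div_le_div_of_nonneg_left hn0.le (by positivity) ?_
      rw [← pow_add]
      exact pow_le_pow_right₀ hl1' (by omega)) (by omega)
    have h4 : 0 < y * T n / l ^ e := by positivity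
    have h5 : ((G3 B B' n (u + j * y) (u + j * y + y)).card : ℝ) * l ^ e / (y * T n) - 1 =
        (((G3 B B' n (u + j * y) (u + j * y + y)).card : ℝ) - y * T n / l ^ e) /
          (y * T n / l ^ e) := by
      field_simp
    rw [h5, abs_div, abs_of_pos h4, div_le_iff₀ h4] at h3
    exact h3
  have hmid : |((G3 B B' n u (u + J * y)).card : ℝ) - J * (y * T n / l ^ e)| ≤
      J * (ε / 4 * (y * T n / l ^ e)) := by
    rw [card_sum, Nat.cast_sum]
    have h1 : (J : ℝ) * (y * T n / l ^ e) = ∑ _j ∈ range J, (y * T n / l ^ e) := by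
      rw [sum_const, card_range, nsmul_eq_mul]
    have h2 : (J : ℝ) * (ε / 4 * (y * T n / l ^ e)) =
        ∑ _j ∈ range J, (ε / 4 * (y * T n / l ^ e)) := by
      rw [sum_const, card_range, nsmul_eq_mul]
    rw [h1, h2, ← sum_sub_distrib]
    exact (abs_sum_le_sum_abs _ _).trans (sum_le_sum hwin)
  have htot : (G3 B B' n 0 (n - 1)).card = (G3 B B' n 0 u).card +
      (G3 B B' n u (u + J * y)).card + (G3 B B' n (u + J * y) (n - 1)).card := by
    rw [card_add B B' n 0 (u + J * y) (n - 1) (Nat.zero_le _) (by omega),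
      card_add B B' n 0 u (u + J * y) (Nat.zero_le _) (Nat.le_add_right _ _)]
  have hfirst : ((G3 B B' n 0 u).card : ℝ) ≤ u := by
    have := card_le B B' n 0 u
    exact_mod_cast this
  have hlast : ((G3 B B' n (u + J * y) (n - 1)).card : ℝ) ≤ y := by
    have h1 := card_le B B' n (u + J * y) (n - 1)
    have h2 : (G3 B B' n (u + J * y) (n - 1)).card ≤ y := by omega
    exact_mod_cast h2
  have hJr1 : (J : ℝ) * y ≤ n := by
    have : J * y ≤ n := by omega
    exact_mod_cast this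
  have hJr2 : (n : ℝ) ≤ J * y + y + u + 1 := by
    have : n ≤ J * y + y + u + 1 := by omega
    exact_mod_cast this
  set a := (n : ℝ) / l ^ (e + 1) with ha
  have hle0 : 0 < l ^ e := by positivity
  have hR : 0 < n * T n / l ^ e := by positivity
  -- the error terms
  have hA : a = n / l ^ e / l := by
    rw [ha, pow_succ, div_div]
  have hq0 : 0 < n / l ^ e := by positivity
  have hnT : n * T n / l ^ e = n / l ^ e * T n := by ring
  -- `4 a ≤ ε / 4 * n`
  have hE1 : 4 * a ≤ ε / 4 * n := by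
    have h1 : a ≤ n / l := by
      rw [hA]
      refine div_le_div_of_nonneg_right ?_ hl0.le
      exact div_le_self hn0.le (one_le_pow₀ hl1')
    have h2 : n / l ≤ n * (ε / 16) := by
      rw [div_le_iff₀ hl0]
      rw [div_le_iff₀ hε] at hl1
      have h3 : 1 ≤ ε / 16 * l := by linarith
      calc (n : ℝ) = n * 1 := (mul_one _).symm
        _ ≤ n * (ε / 16 * l) := mul_le_mul_of_nonneg_left h3 hn0.le
        _ = n * (ε / 16) * l := by ring
    linarith
  -- `3 a ≤ ε / 4 * (n * T / l ^ e)`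
  have hE2 : 3 * a ≤ ε / 4 * (n * T n / l ^ e) := by
    rw [hA, hnT]
    rw [div_le_iff₀ (mul_pos hε ht0)] at hl2
    have h3 : 12 ≤ l * ε * T n := by
      calc (12 : ℝ) ≤ l * (ε * t0) := hl2
        _ = l * ε * t0 := by ring
        _ ≤ l * ε * T n := mul_le_mul_of_nonneg_left hTn (by positivity)
    have h4 : 3 * (n / l ^ e / l) = n / l ^ e * (3 / l) := by ring
    have h5 : ε / 4 * (n / l ^ e * T n) = n / l ^ e * (ε / 4 * T n) := by ring
    rw [h4, h5]
    refine mul_le_mul_of_nonneg_left ?_ hq0.le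
    rw [div_le_iff₀ hl0]
    linarith
  have hfin : |((G3 B B' n 0 (n - 1)).card : ℝ) - n * T n / l ^ e| ≤
      3 * ε / 4 * (n * T n / l ^ e) := by
    rw [htot]
    push_cast
    have h1 := abs_le.1 hmid
    have hw0 : 0 < T n / l ^ e := by positivity
    have h2 : (J : ℝ) * (ε / 4 * (y * T n / l ^ e)) ≤ ε / 4 * (n * T n / l ^ e) := by
      have e1 : (J : ℝ) * (ε / 4 * (y * T n / l ^ e)) = ε / 4 * (T n / l ^ e) * (J * y) := by ring
      have e2 : ε / 4 * (n * T n / l ^ e) = ε / 4 * (T n / l ^ e) * n := by ring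
      rw [e1, e2]
      exact mul_le_mul_of_nonneg_left hJr1 (by positivity)
    have h3 : (J : ℝ) * (y * T n / l ^ e) ≤ n * T n / l ^ e := by
      have e1 : (J : ℝ) * (y * T n / l ^ e) = (T n / l ^ e) * (J * y) := by ring
      have e2 : (n * T n / l ^ e) = (T n / l ^ e) * n := by ring
      rw [e1, e2]
      exact mul_le_mul_of_nonneg_left hJr1 hw0.le
    have h4 : n * T n / l ^ e - ε / 4 * (n * T n / l ^ e) ≤ (J : ℝ) * (y * T n / l ^ e) := by
      have e1 : (J : ℝ) * (y * T n / l ^ e) = (T n / l ^ e) * (J * y) := by ring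
      have e2 : n * T n / l ^ e - ε / 4 * (n * T n / l ^ e) =
          (T n / l ^ e) * (n - ε / 4 * n) := by ring
      rw [e1, e2]
      exact mul_le_mul_of_nonneg_left (by linarith) hw0.le
    have hG0 : (0 : ℝ) ≤ ((G3 B B' n 0 u).card : ℝ) := Nat.cast_nonneg _
    have hG1 : (0 : ℝ) ≤ ((G3 B B' n (u + J * y) (n - 1)).card : ℝ) := Nat.cast_nonneg _
    rw [abs_le]
    constructor
    · linarith [h1.1, h1.2]
    · linarith [h1.1, h1.2]
  have hform : ((G3 B B' n 0 (n - 1)).card : ℝ) * l ^ e / (n * T n) - 1 =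
      (((G3 B B' n 0 (n - 1)).card : ℝ) - n * T n / l ^ e) / (n * T n / l ^ e) := by
    field_simp
  rw [hform, abs_div, abs_of_pos hR, div_lt_iff₀ hR]
  have : 3 * ε / 4 * (n * T n / l ^ e) < ε * (n * T n / l ^ e) := by
    have := mul_pos hε hR
    linarith
  linarith

end SUM5N

theorem sum5 : S_SUM5 := by
  intro B B' c₂ e d hc H
  exact SUM5N.main B B' e d (fun n => TG c₂ (2 * n)) (2 * c₂) (by linarith)
    (fun n => Pool.Agent.H559.HY.TG_ge c₂ hc (2 * n)) H

end Pool.Agent.H531.IX
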