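import Pool.Graph.R_pool_sql_team_seeded_707910d6.T2H31.HV.All

set_option autoImplicit false

/-!
# The index of a random prime in the Banks–Ford–Tao model: statements

Base facts: `Pool.Agent.T2H31.HV`: `Pt S` (finite product space of the `range p`, `p ∈ S`), `Ev S F` (mean value over it),
`Dep S F`, `mem_Pt`, `sum_Pt_insert`, `card_Pt`, `Ev_const`, `T_TR` (transfer to the probability space), `Ev_union`,
`Ev_eq_of_dep`; `Pool.Agent.T2H32.BF`: `z0`, `V`, `mertens`, `z0_mem`, `z0_lt`, `z0_mono`, `z0_lim`, `V_pos`, `V_anti`.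
-/

open Finset MeasureTheory ProbabilityTheory Filter Topology

namespace Pool.Agent.H531.IX

open Pool.Agent.T2H31.HV (Pt Ev Dep)
open Pool.Agent.T2H32.BF (Model z0 V)

/-! ## Part A: finite product spaces -/

/-- the coordinates in `B` from `b'`, the others from `b` -/
def gl (B : Finset ℕ) (b b' : ℕ → ℕ) : ℕ → ℕ := fun i => if i ∈ B then b' i else b i

/-- **EVU** (Fubini, 30 lines).

Proof. Induction on `B` (`Finset.induction_on`), `A ∪ insert p B = insert p (A ∪ B)`, `sum_Pt_insert` on both sides, and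
`gl (insert p B) b (update b' p r) = update (gl B b b') p r` for `p ∉ B`. (`B = ∅`: `Pt ∅ = {0}`, `gl ∅ b b' = b`.) Or directly:
`(b, b') ↦ gl B b b'` is a bijection `Pt A × Pt B → Pt (A ∪ B)`. The normalising factor: `∏_{A ∪ B} = ∏_A ∏_B`. -/
def S_EVU : Prop := ∀ (A B : Finset ℕ) (F : (ℕ → ℕ) → ℝ), Disjoint A B →
  Ev (A ∪ B) F = Ev A (fun b => Ev B (fun b' => F (gl B b b')))

/-- **AZ** (Azuma, 60 lines; uses EVU as a hypothesis).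

Proof. Induction on `K`. `E (K+1) = E K ∪ (E (K+1) \ E K)`. By EVU the left side is
`Ev (E K) (fun b => Ev D (fun b' => exp (l * ∑_{k < K} g k (gl D b b')) * exp (l * g K (gl D b b'))))`, `D = E (K+1) \ E K`; for
`k < K` the function `g k` depends on `E (k+1) ⊆ E K` only, so `g k (gl D b b') = g k b`. With `x = l * g K _`, `|x| ≤ l u ≤ 1`:
`exp x ≤ 1 + x + x²` (`Real.abs_exp_sub_one_sub_id_le` : `|x| ≤ 1 → |exp x - 1 - x| ≤ x²`), so the inner mean value is at most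
`exp (l ∑_{k<K} g k b) * (1 + 0 + l² u²) ≤ … * exp (l² u²)` (for `b ∈ Pt (E K)`; the sum in `Ev` is over `Pt`). -/
def S_AZ : Prop := ∀ (E : ℕ → Finset ℕ) (K : ℕ) (u l : ℝ) (g : ℕ → (ℕ → ℕ) → ℝ), Monotone E →
  (∀ k, ∀ p ∈ E k, 0 < p) → 0 ≤ l → 0 ≤ u → l * u ≤ 1 → (∀ k < K, Dep (E (k + 1)) (g k)) → (∀ k < K, ∀ b, |g k b| ≤ u) →
  (∀ k < K, ∀ b, Ev (E (k + 1) \ E k) (fun b' => g k (gl (E (k + 1) \ E k) b b')) ≤ 0) →
  Ev (E K) (fun b => Real.exp (l * ∑ k ∈ range K, g k b)) ≤ Real.exp (K * (l ^ 2 * u ^ 2))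

/-- **AZP** (Azuma for the model, 30 lines; uses AZ as a hypothesis).

Proof. `F b = exp (l ∑_{k<K} g k b)` depends on `E K` (`E (k+1) ⊆ E K`); `T_TR` (`Pool.Agent.T2H31.HV.T_TR`) gives integrability and
`∫ F (a ω) = Ev (E K) F`; Markov (`mul_meas_ge_le_integral_of_nonneg`): `exp (l t) P(…) ≤ ∫ F`. -/
def S_AZP : Prop := ∀ (Ω : Type) [MeasurableSpace Ω] (P : Measure Ω) (a : ℕ → Ω → ℕ), Model P a →
  ∀ (E : ℕ → Finset ℕ) (K : ℕ) (u l t : ℝ) (g : ℕ → (ℕ → ℕ) → ℝ), Monotone E →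
  (∀ k, ∀ p ∈ E k, p.Prime) → 0 ≤ l → 0 ≤ u → l * u ≤ 1 → (∀ k < K, Dep (E (k + 1)) (g k)) → (∀ k < K, ∀ b, |g k b| ≤ u) →
  (∀ k < K, ∀ b, Ev (E (k + 1) \ E k) (fun b' => g k (gl (E (k + 1) \ E k) b b')) ≤ 0) →
  P.real {ω | t ≤ ∑ k ∈ range K, g k (fun q => a q ω)} ≤ Real.exp (K * (l ^ 2 * u ^ 2) - l * t)

/-! ## Part B: sums of independent indicators are smooth -/

/-- **BIN** (the binomial distribution, 60 lines).

Proof. `∑_{j ≤ m} C(m,j) (F j - F (j+1)) = ∑_{j ≤ m+1} (C(m,j) - C(m,j-1)) F j` (with `C(m,-1) = C(m,m+1) = 0`). As `0 ≤ F ≤ 1`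
its absolute value is at most the sum of the positive parts (`= ` the sum of the negative parts) of `C(m,j) - C(m,j-1)`, which
telescopes to the maximum `C(m, m/2)` (`Nat.choose_le_middle`, `Nat.choose_le_succ_of_lt_half_left`). And
`C(m, m/2) ≤ 2^m · √(2/(m+1))`: for `m = 2 n`: `(C(2n,n)/4^n)² ≤ 1/(2n+1)` by induction (`Nat.succ_mul_centralBinom_succ`:
`(n+1) C(2n+2,n+1) = 2 (2n+1) C(2n,n)`, and `(2n+1)(2n+3) ≤ (2n+2)²`); for `m = 2n+1`: `C(2n+1,n) ≤ 2 C(2n,n)`, so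
`C/2^m ≤ 1/√(2n+1) ≤ √(2/(m+1))`. (Any constant up to `2` is fine.) -/
def S_BIN : Prop := ∀ (F : ℕ → ℝ), (∀ j, 0 ≤ F j ∧ F j ≤ 1) → ∀ m : ℕ,
  |∑ j ∈ range (m + 1), (m.choose j : ℝ) * (F j - F (j + 1))| ≤ 2 * 2 ^ m / √((m : ℝ) + 1)

/-- the mean value of `F (number of successes)` for independent indicators with probabilities `w q`, `q ∈ L` -/
noncomputable def PB (L : Finset ℕ) (w : ℕ → ℝ) (F : ℕ → ℝ) : ℝ :=
  ∑ U ∈ L.powerset, (∏ q ∈ U, w q) * (∏ q ∈ L \ U, (1 - w q)) * F U.card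

/-- **PBE** (50 lines). `Y q r` is a decidable event for the coordinate `q` with value `r`.

Proof. Induction on `L`: `sum_Pt_insert`; for `q₀ ∉ L` the number of successes of `update b q₀ r` is that of `b` plus
`[Y q₀ r]`; so `Ev (insert q₀ L) (F ∘ #) = (1 - w q₀) Ev L (F ∘ #) + w q₀ Ev L (F (# + 1))`, `w q₀` the proportion of the `r < q₀`
with `Y q₀ r`; the same recursion holds for `PB` (`Finset.sum_powerset_insert`). Induct for all `F`. -/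
def S_PBE : Prop := ∀ (L : Finset ℕ) (Y : ℕ → ℕ → Prop) [∀ q r, Decidable (Y q r)] (F : ℕ → ℝ), (∀ q ∈ L, 0 < q) →
  Ev L (fun b => F (L.filter fun q => Y q (b q)).card) =
    PB L (fun q => (((range q).filter (Y q)).card : ℝ) / q) F

/-- **PBT** (thinning, 50 lines).

Proof. Induction on `L` for all `F`: let `T w F` be the operator of one indicator: `(T w F) j = (1 - w) F j + w F (j+1)`. Then
`PB (insert q L) w F = PB L w (T (w q) F)` (`Finset.sum_powerset_insert`; products over `insert q L \ U`), and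
`T w F = (1 - 2w) F + 2w ((F j + F (j+1))/2)`. The right side satisfies the same recursion:
`∑_{j ≤ m+1} C(m+1,j) F j = ∑_{j ≤ m} C(m,j) (F j + F (j+1))`. -/
def S_PBT : Prop := ∀ (L : Finset ℕ) (w : ℕ → ℝ) (F : ℕ → ℝ),
  PB L w F = PB L (fun q => 2 * w q) (fun m => (∑ j ∈ range (m + 1), (m.choose j : ℝ) * F j) / 2 ^ m)

/-- **PBC** (50 lines).

Proof. `Λ = ∑_{q ∈ L} w q > 0`. (a) `E[1/(S+1)] ≤ 1/Λ`, `S` the number of successes: `1 ≥ P(S ≥ 1) = E[∑_{q ∈ U} 1/S]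
= ∑_q w q E[1/(1 + S_q)]`, `S_q` the number of successes in `L.erase q`, and `S_q ≤ S` gives `E[1/(1+S_q)] ≥ E[1/(1+S)]`
(so the sum is `≥ Λ E[1/(1+S)]`). (b) Cauchy–Schwarz (or `√x ≤ (x √Λ + 1/√Λ)/2`, AM–GM, which is linear: 
`1/√(S+1) ≤ (√Λ/(S+1) + 1/√Λ)/2`, take the mean value: `≤ (1/√Λ + 1/√Λ)/2 = 1/√Λ`; the total mass of `PB` is `1`:
`Finset.prod_add`/`PB L w 1 = ∏ (w + (1-w)) = 1`). -/
def S_PBC : Prop := ∀ (L : Finset ℕ) (w : ℕ → ℝ), (∀ q ∈ L, 0 ≤ w q ∧ w q ≤ 1) → 0 < ∑ q ∈ L, w q →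
  PB L w (fun m => 1 / √((m : ℝ) + 1)) ≤ 1 / √(∑ q ∈ L, w q)

/-- **PBS** (assembly of BIN, PBE, PBT, PBC as hypotheses, 40 lines).

Proof. By PBE both mean values are `PB L w F`, `PB L w (F (· + 1))`, `w q = |{r < q : Y q r}|/q ≤ 1/2`; the difference is
`PB L w G`, `G j = F j - F (j+1)` (linearity of `PB` in `F`). PBT and BIN: `|…| ≤ PB L (2w) (2/√(m+1))` (`2 w q ∈ [0,1]`), PBC:
`≤ 2/√(2 ∑ w) ≤ 2/√(∑ w)`. -/
def S_PBS : Prop := ∀ (L : Finset ℕ) (Y : ℕ → ℕ → Prop) [∀ q r, Decidable (Y q r)] (F : ℕ → ℝ) (c : ℝ),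
  (∀ j, 0 ≤ F j ∧ F j ≤ 1) → (∀ q ∈ L, 0 < q ∧ 2 * ((range q).filter (Y q)).card ≤ q) → 0 < c →
  c ≤ ∑ q ∈ L, (((range q).filter (Y q)).card : ℝ) / q →
  |Ev L (fun b => F (L.filter fun q => Y q (b q)).card) - Ev L (fun b => F ((L.filter fun q => Y q (b q)).card + 1))| ≤
    2 / √c

/-! ## Part C: the number of removed elements -/

/-- the number of the `v ∈ O` in one of the classes `b q`, `q ∈ L` with `S q v` -/
def DD (L O : Finset ℕ) (S : ℕ → ℕ → Prop) [∀ q v, Decidable (S q v)] (b : ℕ → ℕ) : ℕ :=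
  (O.filter fun v => ∃ q ∈ L, S q v ∧ v % q = b q).card

/-- **LOC** (100 lines; uses PBS as a hypothesis).

Proof. Let `Y q r` : there is `v ∈ O` with `S q v` and `v % q = r`. By the injectivity hypothesis `v ↦ v % q` is injective on `O`,
so `|{r < q : Y q r}| = |{v ∈ O : S q v}| ≤ |O| ≤ q/2`, and for every `b` the number `N(b) = |{q ∈ L : Y q (b q)}|` satisfies
`DD ≤ N`, with equality unless `b ∈ C` : there are `q ≠ q'` in `L` and `v ∈ O` with `v % q = b q`, `v % q' = b q'`.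
(`DD = N` outside `C`: `q ↦` the unique `v` is injective on the successful `q` and its image is the set counted by `DD`.)
`Ev L 1_C ≤ ∑_{q ≠ q'} ∑_{v ∈ O} 1/(q q') ≤ |O| s²`, `s = ∑_{q ∈ L} 1/q` (union bound; the mean value of
`[v % q = b q][v % q' = b q']` is `1/(q q')`: e.g. by `Ev_eq_of_dep` and `sum_Pt_insert` twice). So
`|Ev (F ∘ DD) - Ev (F ∘ N)| ≤ |O| s²` and the same for `F (· + 1)`; PBS for `N`. -/
def S_LOC : Prop := ∀ (L O : Finset ℕ) (S : ℕ → ℕ → Prop) [∀ q v, Decidable (S q v)] (F : ℕ → ℝ) (c : ℝ),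
  (∀ j, 0 ≤ F j ∧ F j ≤ 1) → (∀ q ∈ L, q.Prime ∧ 2 * O.card ≤ q) → 0 < c →
  (∀ q ∈ L, ∀ v ∈ O, ∀ v' ∈ O, v % q = v' % q → v = v') →
  c ≤ ∑ q ∈ L, ((O.filter (S q)).card : ℝ) / q →
  |Ev L (fun b => F (DD L O S b)) - Ev L (fun b => F (DD L O S b + 1))| ≤
    2 / √c + 2 * O.card * (∑ q ∈ L, 1 / (q : ℝ)) ^ 2

/-- **LOCH** (50 lines; uses LOC as a hypothesis).

Proof. `DD b ≤ |O|`, so `A - DD b ≥ h + 1`. Let `F_k d = [A - d - k ∈ T]`, `0 ≤ k ≤ h` (natural subtraction; `F_{k+1} d = F_k (d+1)`).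
`|Ev (F_k ∘ DD) - Ev (F_{k+1} ∘ DD)| ≤ δ = 2/√c + 2|O|s²` by LOC. So
`|Ev (F_0 ∘ DD) - (1/h) ∑_{k=1}^h Ev (F_k ∘ DD)| ≤ h δ` and for every `b`, with `j = A - DD b - h - 1`,
`∑_{k=1}^h F_k (DD b) = |T ∩ (j, j + h]|` and `A ≤ j + |O| + h + 1`. Both inequalities. -/
def S_LOCH : Prop := ∀ (L O : Finset ℕ) (S : ℕ → ℕ → Prop) [∀ q v, Decidable (S q v)] (T : Set ℕ) (c τ : ℝ) (A h : ℕ),
  (∀ q ∈ L, q.Prime ∧ 2 * O.card ≤ q) → 0 < c →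
  (∀ q ∈ L, ∀ v ∈ O, ∀ v' ∈ O, v % q = v' % q → v = v') →
  c ≤ ∑ q ∈ L, ((O.filter (S q)).card : ℝ) / q → 1 ≤ h → O.card + h + 1 ≤ A →
  ((∀ j, A ≤ j + O.card + h + 1 → j ≤ A → ((T ∩ Set.Ioc j (j + h)).ncard : ℝ) ≤ τ * h) →
    Ev L (fun b => Set.indicator T 1 (A - DD L O S b)) ≤
      τ + h * (2 / √c + 2 * O.card * (∑ q ∈ L, 1 / (q : ℝ)) ^ 2)) ∧
  ((∀ j, A ≤ j + O.card + h + 1 → j ≤ A → τ * h ≤ ((T ∩ Set.Ioc j (j + h)).ncard : ℝ)) →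
    τ - h * (2 / √c + 2 * O.card * (∑ q ∈ L, 1 / (q : ℝ)) ^ 2) ≤ Ev L (fun b => Set.indicator T 1 (A - DD L O S b)))

/-! ## Part D: one block of the model -/

/-- `v` is not sieved out by the primes `q ≤ y`: the primes `q ≤ W v` sieve the class `0`, the others the class `b q` -/
def Sv (W : ℕ → ℕ) (y : ℕ) (b : ℕ → ℕ) (v : ℕ) : Prop := ∀ q ≤ y, q.Prime → v % q ≠ if q ≤ W v then 0 else b q

/-- the random primes (the same as `Pool.Agent.H559.HY.RS`) -/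
def RS (z W : ℕ → ℕ) (b : ℕ → ℕ) : Set ℕ := {v | 3 ≤ v ∧ Sv W (z v) b v}

/-- the number of the elements of `A` up to `p` (the index of `p` if `p ∈ A`) -/
noncomputable def pin (A : Set ℕ) (p : ℕ) : ℕ := (A ∩ Set.Icc 1 p).ncard

/-- the primes that begin to sieve in `(x, x']` -/
def fr (z : ℕ → ℕ) (x x' : ℕ) : Finset ℕ := (Ioc (z x) (z x')).filter Nat.Prime

open Classical in
/-- the number of the `p ∈ (X, X2]`, `p ∈ B`, with `p + h` a random prime for all `h ∈ H` and the index of `p` in `T p` -/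
noncomputable def NT (z W : ℕ → ℕ) (H : Finset ℕ) (B : Set ℕ) (T : ℕ → Set ℕ) (X X2 : ℕ) (b : ℕ → ℕ) : ℕ :=
  ((Ioc X X2).filter fun p => p ∈ B ∧ (∀ h ∈ H, p + h ∈ RS z W b) ∧ pin (RS z W b) p ∈ T p).card

open Classical in
/-- the number of the `p ∈ (X, X2]`, `p ∈ B`, with `p + h` a random prime for all `h ∈ H` -/
noncomputable def MT (z W : ℕ → ℕ) (H : Finset ℕ) (B : Set ℕ) (X X2 : ℕ) (b : ℕ → ℕ) : ℕ :=
  ((Ioc X X2).filter fun p => p ∈ B ∧ ∀ h ∈ H, p + h ∈ RS z W b).card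

open Classical in
/-- the same with survivors of the primes `≤ z x` in place of random primes, `p ∈ (x + u, x + 2 u]` -/
noncomputable def nn (z W : ℕ → ℕ) (H : Finset ℕ) (B : Set ℕ) (x u : ℕ) (b : ℕ → ℕ) : ℕ :=
  ((Ioc (x + u) (x + 2 * u)).filter fun p => p ∈ B ∧ ∀ h ∈ H, Sv W (z x) b (p + h)).card

open Classical in
/-- the survivors of the primes `≤ z x` in `(x, p]` -/
noncomputable def Old (z W : ℕ → ℕ) (x p : ℕ) (b : ℕ → ℕ) : Finset ℕ := (Ioc x p).filter (Sv W (z x) b)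

/-- **PIF** (the index in a block, 60 lines).

Proof. Let `β = gl L b b'`. For `v ≤ x`: `z v ≤ z x`, the coordinates `≤ z x` are not in `L`, so `v ∈ RS β ↔ v ∈ RS b`. For
`x < v ≤ p`: `v ∈ RS β` iff `Sv W (z x) b v` and for all `q ∈ L` with `q ≤ z v`: `v % q ≠ b' q` (for `q > z x ≥ W v` the class is
`β q = b' q`; the primes in `(z x, z v]` are the `q ∈ L` with `q ≤ z v`). So the number is `pin (RS b) x + |Old| - DD`. -/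
def S_PIF : Prop := ∀ (z W : ℕ → ℕ), Monotone z → ∀ (x x' p : ℕ) (b b' : ℕ → ℕ), 3 ≤ x → x ≤ p → p ≤ x' →
  (∀ v ≤ x', W v ≤ z x) →
  pin (RS z W (gl (fr z x x') b b')) p =
    pin (RS z W b) x + (Old z W x p b).card - DD (fr z x x') (Old z W x p b) (fun q v => q ≤ z v) b'

/-- **BLK** (one block; uses LOCH and PIF as hypotheses, 150 lines).

Proof. `L = fr z x (x + 3u)`, `β = gl L b b'`. For `p ∈ (x+u, x+2u]` put `O = Old z W x p b`, `A = pin (RS b) x + |O|`. By PIF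
`pin (RS β) p = A - DD L O S b'`. `|O| ≤ 2u ≤ q/2` for `q ∈ L`, `O ⊆ (x, x+2u]` and `2u < q`: residues mod `q` are injective on
`O`. For `q ∈ fr z x (x + u/2) ⊆ L` all the `v ∈ Old` in `(x+u/2, x+u]` have `q ≤ z v`, so `|O.filter (S q)| ≥ m0` and
`∑_{q ∈ L} |O.filter (S q)|/q ≥ m0 ∑_{q ∈ fr z x (x+u/2)} 1/q ≥ c`. `|O| + h + 1 ≤ A` because `h + 1 ≤ pin (RS b) x`. The `j` in
LOCH have `pin x ≤ j + h + 1`, `j ≤ A ≤ pin x + 2u`.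
Upper bound: `NT β ≤ ∑_p [p ∈ B, p + H ⊆ Sv (z x) b] 1_{T p}(A_p - DD_p)` (a random prime `p + h` of `β` survives the primes
`≤ z x` with the classes of `b`), take `Ev L` and LOCH (the sum has `nn` terms; `|O| ≤ 2u`).
Lower bound: `NT β ≥ ∑_p [p ∈ B, p + H ⊆ Sv] (1_{T p}(A_p - DD_p) - ∑_{h ∈ H} ∑_{q ∈ L} [(p+h) % q = b' q])`: if no `q ∈ L` hits a
`p + h` then `p + h ∈ RS β` (`p + h ≤ x + 3u`); `Ev L [(p+h) % q = b' q] = 1/q`. -/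
def S_BLK : Prop := ∀ (z W : ℕ → ℕ), Monotone z → ∀ (H : Finset ℕ) (B : Set ℕ) (T : ℕ → Set ℕ) (x u h m0 : ℕ) (c τ : ℝ)
  (b : ℕ → ℕ), 3 ≤ x → (∀ i ∈ H, i ≤ u) → (∀ v ≤ x + 3 * u, W v ≤ z x) → (∀ q ∈ fr z x (x + 3 * u), 8 * u ≤ q) → 1 ≤ u →
  1 ≤ h → h + 1 ≤ pin (RS z W b) x → m0 + (Old z W x (x + u / 2) b).card ≤ (Old z W x (x + u) b).card → 0 < c →
  c ≤ m0 * ∑ q ∈ fr z x (x + u / 2), 1 / (q : ℝ) →
  ((∀ p ∈ B, x + u < p → p ≤ x + 2 * u → ∀ j, pin (RS z W b) x ≤ j + h + 1 → j ≤ pin (RS z W b) x + 2 * u →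
      ((T p ∩ Set.Ioc j (j + h)).ncard : ℝ) ≤ τ * h) →
    Ev (fr z x (x + 3 * u)) (fun b' => (NT z W H B T (x + u) (x + 2 * u) (gl (fr z x (x + 3 * u)) b b') : ℝ)) ≤
      (τ + h * (2 / √c + 4 * u * (∑ q ∈ fr z x (x + 3 * u), 1 / (q : ℝ)) ^ 2)) * nn z W H B x u b) ∧
  ((∀ p ∈ B, x + u < p → p ≤ x + 2 * u → ∀ j, pin (RS z W b) x ≤ j + h + 1 → j ≤ pin (RS z W b) x + 2 * u →
      τ * h ≤ ((T p ∩ Set.Ioc j (j + h)).ncard : ℝ)) →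
    (τ - h * (2 / √c + 4 * u * (∑ q ∈ fr z x (x + 3 * u), 1 / (q : ℝ)) ^ 2) -
        H.card * ∑ q ∈ fr z x (x + 3 * u), 1 / (q : ℝ)) * nn z W H B x u b ≤
      Ev (fr z x (x + 3 * u)) (fun b' => (NT z W H B T (x + u) (x + 2 * u) (gl (fr z x (x + 3 * u)) b b') : ℝ)))

/-! ## Part E: all blocks -/

/-- the length of the blocks -/
noncomputable def uX (X : ℕ) : ℕ := ⌊(X : ℝ) ^ (0.511 : ℝ)⌋₊

/-- the length of the windows of the indices -/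
noncomputable def hX (X : ℕ) : ℕ := ⌊(X : ℝ) ^ (0.005 : ℝ)⌋₊

/-- **NUM** (the sieving limit of Banks, Ford and Tao, 120 lines).

Proof. (1) `V (z0 n) log n → 1` (`z0_lim`), `V m log m → exp (-γ)` (`mertens`, check its form), so
`log z0 n / log n → exp (-γ)` and `exp (-γ) > exp (-2/3) > 0.513` (`Real.eulerMascheroniConstant_lt_two_thirds`). With
`x ≥ X`: `z0 x ≥ x ^ 0.5125 ≥ 8 X ^ 0.511`. (2), (3): for a prime `q`: `V` is multiplied by `(1 - 1/q)`. For `n ≥ 3`: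
`(V (z0 n))⁻¹ ≤ log n < (V (z0 n + 1))⁻¹` (`z0_mem`, `z0_lt`) and `V (z0 n + 1) ≥ V (z0 n) (1 - 1/(z0 n + 1))` (`V_step`).
With `L = fr z0 x x'`: `V (z0 x') = V (z0 x) ∏_{q ∈ L} (1 - 1/q)`, so
`log (V (z0 x)/V (z0 x')) = ∑_{q ∈ L} -log (1 - 1/q)`, between `∑ 1/q` and `∑ 1/q + ∑ 2/q² ≤ 2 ∑ 1/q`.
Upper bound (2), `x' = x + 3u`: `V (z0 x)/V (z0 x') ≤ log x' / (log x (1 - 1/(z0 x + 1))) ≤ (1 + 3u/(x log x)) (1 + 2/(z0 x))`, so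
`∑ 1/q ≤ 3u/x + 2/z0 x ≤ X^(-0.48)`. Lower bound (3), `x' = x + ⌊u/2⌋ ≥ x + u/4`: `V (z0 x)/V (z0 x') ≥
(1/log x) · log x' (1 - 1/(z0 x' + 1)) ≥ (1 + u/(8 x log x)) (1 - 1/z0 x)`, `log (1 + y) ≥ y/2`: `≥ exp (u/(17 x log x))` as
`1/z0 x ≤ X^(-0.512)` is much smaller than `u/(x log x) ≥ X^(-0.4895)`; so `2 ∑ 1/q ≥ u/(17 x log x)`. -/
def S_NUM : Prop := ∀ᶠ X : ℕ in atTop, ∀ x : ℕ, X ≤ x → x ≤ 4 * X →
  8 * uX X ≤ z0 x ∧ ∑ q ∈ fr z0 x (x + 3 * uX X), 1 / (q : ℝ) ≤ (X : ℝ) ^ (-(0.48 : ℝ)) ∧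
  (uX X : ℝ) / (40 * x * Real.log x) ≤ ∑ q ∈ fr z0 x (x + uX X / 2), 1 / (q : ℝ)

/-- there are enough random primes in the short intervals -/
def CB (z W : ℕ → ℕ) (X : ℕ) (b : ℕ → ℕ) : Prop :=
  2 * hX X ≤ pin (RS z W b) X ∧ ∀ x : ℕ, X ≤ x → x ≤ 4 * X →
    (uX X : ℝ) / (16 * Real.log X) + pin (RS z W b) (x + uX X / 2) ≤ pin (RS z W b) (x + uX X)

/-- **AZ3** (60 lines; uses AZP as a hypothesis).

Proof. For `r = 1, 2, 3` apply AZP to `E k =` the primes `≤ z (X + (3k + r - 1) u)`, `g k := g (3k + r)`, `K` the number of the `k`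
with `3k + r ≤ I` (so `K u ≤ I u / 3 + u ≤ (4/3) X`), `u := 2u`, `l = t/(8 X u)` (`l · 2u ≤ 1`);
`E (k+1) \ E k = fr z (X + (i-1) u) (X + (i+2) u)` for `i = 3k + r`. The exponent: `K l² 4u² - l t ≤ t²/(12 X u) - t²/(8 X u)`.
If `3 t ≤ ∑` then `t ≤` the sum over one of the three classes (`X ≥ 1`; for `X = 0` or `t = 0` the bound is trivial). -/
def S_AZ3 : Prop := ∀ (Ω : Type) [MeasurableSpace Ω] (P : Measure Ω) (a : ℕ → Ω → ℕ), Model P a →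
  ∀ (z : ℕ → ℕ), Monotone z → ∀ (X u I : ℕ) (t : ℝ) (g : ℕ → (ℕ → ℕ) → ℝ), 1 ≤ u → u ≤ X → I * u ≤ X → 0 ≤ t → t ≤ 4 * X →
  (∀ i, 1 ≤ i → i ≤ I → Dep ((Icc 1 (z (X + (i + 2) * u))).filter Nat.Prime) (g i)) →
  (∀ i, 1 ≤ i → i ≤ I → ∀ b, |g i b| ≤ 2 * u) →
  (∀ i, 1 ≤ i → i ≤ I → ∀ b, Ev (fr z (X + (i - 1) * u) (X + (i + 2) * u))
    (fun b' => g i (gl (fr z (X + (i - 1) * u) (X + (i + 2) * u)) b b')) ≤ 0) →
  P.real {ω | 3 * t ≤ ∑ i ∈ Icc 1 I, g i (fun q => a q ω)} ≤ 3 * Real.exp (-(t ^ 2 / (24 * X * u)))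

/-- the block `(x + u, x + 2u]`, `u = uX X`, is good for `b`: a property of the coordinates `≤ z0 x` -/
def G0 (W : ℕ → ℕ) (X x : ℕ) (b : ℕ → ℕ) : Prop :=
  (uX X : ℝ) / (16 * Real.log X) + (Old z0 W x (x + uX X / 2) b).card ≤ (Old z0 W x (x + uX X) b).card ∧
    hX X + 1 ≤ pin (RS z0 W b) x

/-- upper regularity in a block -/
def RU (W : ℕ → ℕ) (B : Set ℕ) (T : ℕ → Set ℕ) (τ : ℝ) (X x : ℕ) (b : ℕ → ℕ) : Prop :=
  ∀ p ∈ B, x + uX X < p → p ≤ x + 2 * uX X → ∀ j, pin (RS z0 W b) x ≤ j + hX X + 1 → j ≤ pin (RS z0 W b) x + 2 * uX X →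
    ((T p ∩ Set.Ioc j (j + hX X)).ncard : ℝ) ≤ τ * hX X

/-- lower regularity in a block -/
def RL (W : ℕ → ℕ) (B : Set ℕ) (T : ℕ → Set ℕ) (τ : ℝ) (X x : ℕ) (b : ℕ → ℕ) : Prop :=
  ∀ p ∈ B, x + uX X < p → p ≤ x + 2 * uX X → ∀ j, pin (RS z0 W b) x ≤ j + hX X + 1 → j ≤ pin (RS z0 W b) x + 2 * uX X →
    τ * hX X ≤ ((T p ∩ Set.Ioc j (j + hX X)).ncard : ℝ)

/-- **GB** (one block with numbers, 80 lines; uses BLK and NUM as hypotheses).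

Proof. BLK with `z = z0` (`z0_mono`), `u = uX X`, `h = hX X`, `m0 = ⌈u/(16 log X)⌉`, `c = X^0.02`. Conditions: `W v ≤ v^0.1 ≤ z0 x`
for `v ≤ x + 3u` (for small `v` by monotonicity of `W`: `W v ≤ W (x + 3u) ≤ (x + 3u)^0.1 ≤ 8 uX X ≤ z0 x`); `8u ≤ z0 x < q`;
`c ≤ m0 ∑`: by NUM `m0 ∑ ≥ (u/(16 log X)) (u/(40 x log x)) ≥ X^1.022/(4·640·4·X log² (4X)) ≥ X^0.02` for large `X`
(`u ≥ X^0.511/2`, `x ≤ 4X`). Errors: `h (2/√c + 4 u s²) ≤ 2 X^(0.005 - 0.01) + 4 X^(0.005 + 0.511 - 0.96)`,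
`|H| s ≤ |H| X^(-0.48)`, `s` from NUM; the sum is `≤ X^(-0.004) ≤ (ε/4) X^(-0.001) ≤ (ε/4) τ` for large `X`. -/
def S_GB : Prop := ∀ (W : ℕ → ℕ) (H : Finset ℕ) (ε : ℝ), (∀ᶠ v : ℕ in atTop, (W v : ℝ) ≤ (v : ℝ) ^ (0.1 : ℝ)) →
  Monotone W → 0 < ε → ∀ᶠ X : ℕ in atTop, ∀ (x : ℕ) (B : Set ℕ) (T : ℕ → Set ℕ) (τ : ℝ) (b : ℕ → ℕ), X ≤ x → x ≤ 3 * X →
  (X : ℝ) ^ (-(0.001 : ℝ)) ≤ τ → G0 W X x b →
  (RU W B T τ X x b →
    Ev (fr z0 x (x + 3 * uX X)) (fun b' => (NT z0 W H B T (x + uX X) (x + 2 * uX X)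
      (gl (fr z0 x (x + 3 * uX X)) b b') : ℝ)) ≤ (1 + ε / 4) * τ * nn z0 W H B x (uX X) b) ∧
  (RL W B T τ X x b →
    (1 - ε / 4) * τ * nn z0 W H B x (uX X) b ≤ Ev (fr z0 x (x + 3 * uX X)) (fun b' =>
      (NT z0 W H B T (x + uX X) (x + 2 * uX X) (gl (fr z0 x (x + 3 * uX X)) b b') : ℝ)))

/-- **MAIN** (uses AZ3 and GB as hypotheses, 200 lines).

Proof. `u = uX X`, `x_i = X + i u`, `I` the largest number with `x_{I+1} ≤ X2` (`(I + 1) u ≤ X2 - X ≤ X`). All `p ∈ (X, X2]` but at most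
`2u` lie in the blocks `(x_i, x_{i+1}]`, `1 ≤ i ≤ I`; block `i` is `(x + u, x + 2u]` with `x = x_{i-1}`. Write `NT_i`, `MT_i`, `nn_i` for
the numbers of this block. `G_i(b)`: `G0 W X x_{i-1} b` and `RU W (B b) (T b) (τ b) X x_{i-1} b`; it depends on the coordinates
`≤ z0 x_{i-1}` only (`z0` monotone; `B`, `T`, `τ` depend on the coordinates `≤ z0 X`). So for
`g_i(b) = if G_i(b) then NT_i - (1 + ε/4) τ nn_i else 0` GB gives the hypothesis of AZ3 (the mean value over the fresh primes is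
`≤ 0` for all `b`; note `x_{i-1} + 3u = x_{i+2}`), `|g_i| ≤ 2u` (`NT_i ≤ u`, `nn_i ≤ u`, `(1 + ε/4) τ ≤ 2`), `NT_i` depends on the coordinates
`≤ z0 (x_{i+1} + max H) ≤ z0 x_{i+2}`. AZ3 with `t = X^0.98`: but for a probability `3 exp (-X^0.4)` (`t²/(24 X u) ≥ X^0.449/24 ≥ X^0.4`)
`∑ g_i ≤ 3t`. In the same way, with `g'_i(b) = if G0 W X x_{i-1} b then (1 - ε/4) nn_i - MT_i else 0` (GB, second half, `T = univ`,
`τ = 1`: `NT` with `T = univ` is `MT`; `RL` holds since `ncard (Ioc j (j+h)) = h`), `∑ g'_i ≤ 3t`. Outside these two events: if `CB` and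
the regularity hold then all `G_i` hold (`pin x_{i-1} + 2u ≤ pin X2 + 3u`, `pin X ≤ pin x_{i-1}`; a random prime in `(x + u/2, x + u]`
survives the primes `≤ z0 x`, so `|Old x (x+u)| - |Old x (x+u/2)| ≥ pin (x+u) - pin (x+u/2)`), and
`NT ≤ 2u + ∑ NT_i ≤ 2u + 3t + (1 + ε/4) τ ∑ nn_i`, `∑ nn_i ≤ (∑ MT_i + 3t)/(1 - ε/4)`, `∑ MT_i ≤ MT`, and
`(1 + ε/4) ≤ (1 + ε)(1 - ε/4)` for `ε ≤ 1`: `NT ≤ (1 + ε) τ MT + 2u + 9t ≤ … + X^0.99`. The lower bound: `g_i = if G0 ∧ RL then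
(1 - ε/4) τ nn_i - NT_i else 0` and `MT_i ≤ nn_i` (a random prime in the block survives the primes `≤ z0 x`), `MT ≤ 2u + ∑ MT_i`. -/
def S_MAIN : Prop := ∀ (W : ℕ → ℕ) (H : Finset ℕ) (ε : ℝ), (∀ᶠ v : ℕ in atTop, (W v : ℝ) ≤ (v : ℝ) ^ (0.1 : ℝ)) →
  Monotone W → 0 < ε → ε ≤ 1 → ∀ᶠ X : ℕ in atTop,
  ∀ (Ω : Type) [MeasurableSpace Ω] (P : Measure Ω) (a : ℕ → Ω → ℕ), Model P a →
  ∀ (X2 : ℕ) (B : (ℕ → ℕ) → Set ℕ) (T : (ℕ → ℕ) → ℕ → Set ℕ) (τ : (ℕ → ℕ) → ℝ), X ≤ X2 → X2 ≤ 2 * X →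
  (∀ b b' : ℕ → ℕ, (∀ q ≤ z0 X, b q = b' q) → B b = B b' ∧ T b = T b' ∧ τ b = τ b') →
  (∀ b, (X : ℝ) ^ (-(0.001 : ℝ)) ≤ τ b ∧ τ b ≤ 1) →
  P.real {ω | CB z0 W X (fun q => a q ω) ∧
      (∀ p ∈ B (fun q => a q ω), X < p → p ≤ X2 → ∀ j, pin (RS z0 W fun q => a q ω) X ≤ j + hX X + 1 →
        j ≤ pin (RS z0 W fun q => a q ω) X2 + 3 * uX X →
        ((T (fun q => a q ω) p ∩ Set.Ioc j (j + hX X)).ncard : ℝ) ≤ τ (fun q => a q ω) * hX X) ∧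
      (1 + ε) * (τ (fun q => a q ω) * MT z0 W H (B fun q => a q ω) X X2 (fun q => a q ω)) + (X : ℝ) ^ (0.99 : ℝ) <
        NT z0 W H (B fun q => a q ω) (T fun q => a q ω) X X2 (fun q => a q ω)} ≤ 6 * Real.exp (-(X : ℝ) ^ (0.4 : ℝ)) ∧
  P.real {ω | CB z0 W X (fun q => a q ω) ∧
      (∀ p ∈ B (fun q => a q ω), X < p → p ≤ X2 → ∀ j, pin (RS z0 W fun q => a q ω) X ≤ j + hX X + 1 →
        j ≤ pin (RS z0 W fun q => a q ω) X2 + 3 * uX X →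
        τ (fun q => a q ω) * hX X ≤ ((T (fun q => a q ω) p ∩ Set.Ioc j (j + hX X)).ncard : ℝ)) ∧
      (NT z0 W H (B fun q => a q ω) (T fun q => a q ω) X X2 (fun q => a q ω) : ℝ) <
        (1 - ε) * (τ (fun q => a q ω) * MT z0 W H (B fun q => a q ω) X X2 (fun q => a q ω)) - (X : ℝ) ^ (0.99 : ℝ)} ≤
    6 * Real.exp (-(X : ℝ) ^ (0.4 : ℝ))

/-- the index law for one sample: the families `B`, `T`, `τ` have parameters `n ≤ X ^ A` -/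
def Law (W : ℕ → ℕ) (H : Finset ℕ) (A : ℕ) (ε : ℝ) (B : ℕ → ℕ → (ℕ → ℕ) → Set ℕ) (T : ℕ → ℕ → (ℕ → ℕ) → ℕ → Set ℕ)
    (τ : ℕ → ℕ → (ℕ → ℕ) → ℝ) (b : ℕ → ℕ) : Prop :=
  ∀ᶠ X : ℕ in atTop, ∀ n ≤ X ^ A, ∀ X2 : ℕ, X ≤ X2 → X2 ≤ 2 * X → CB z0 W X b →
    ((∀ p ∈ B n X b, X < p → p ≤ X2 → ∀ j, pin (RS z0 W b) X ≤ j + hX X + 1 →
        j ≤ pin (RS z0 W b) X2 + 3 * uX X → ((T n X b p ∩ Set.Ioc j (j + hX X)).ncard : ℝ) ≤ τ n X b * hX X) →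
      (NT z0 W H (B n X b) (T n X b) X X2 b : ℝ) ≤ (1 + ε) * (τ n X b * MT z0 W H (B n X b) X X2 b) + (X : ℝ) ^ (0.99 : ℝ)) ∧
    ((∀ p ∈ B n X b, X < p → p ≤ X2 → ∀ j, pin (RS z0 W b) X ≤ j + hX X + 1 →
        j ≤ pin (RS z0 W b) X2 + 3 * uX X → τ n X b * hX X ≤ ((T n X b p ∩ Set.Ioc j (j + hX X)).ncard : ℝ)) →
      (1 - ε) * (τ n X b * MT z0 W H (B n X b) X X2 b) - (X : ℝ) ^ (0.99 : ℝ) ≤ NT z0 W H (B n X b) (T n X b) X X2 b)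

/-- **AEL** (Borel–Cantelli, 80 lines; uses MAIN as a hypothesis).

Proof. For large `X` the exceptional set of `Law` at `X` is the union over `n ≤ X ^ A`, `X2 ≤ 2X` of the two sets of MAIN with
`B := B n X`, `T := T n X`, `τ := τ n X`: outer measure `≤ (X^A + 1)(2X + 1) · 12 exp (-X^0.4)`, summable
(`measure_limsup_atTop_eq_zero` / `measure_setOf_frequently_eq_zero`, no measurability is needed; `P.real s = (P s).toReal`,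
`P` is a probability measure (`Pool.Agent.T2H32.BF.prob`)). -/
def S_AEL : Prop := ∀ (W : ℕ → ℕ) (H : Finset ℕ) (A : ℕ) (ε : ℝ) (B : ℕ → ℕ → (ℕ → ℕ) → Set ℕ)
  (T : ℕ → ℕ → (ℕ → ℕ) → ℕ → Set ℕ) (τ : ℕ → ℕ → (ℕ → ℕ) → ℝ),
  (∀ᶠ v : ℕ in atTop, (W v : ℝ) ≤ (v : ℝ) ^ (0.1 : ℝ)) → Monotone W → 0 < ε → ε ≤ 1 →
  (∀ n X, ∀ b b' : ℕ → ℕ, (∀ q ≤ z0 X, b q = b' q) → B n X b = B n X b' ∧ T n X b = T n X b' ∧ τ n X b = τ n X b') →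
  (∀ (n X : ℕ) (b : ℕ → ℕ), (X : ℝ) ^ (-(0.001 : ℝ)) ≤ τ n X b ∧ τ n X b ≤ 1) →
  ∀ (Ω : Type) [MeasurableSpace Ω] (P : Measure Ω) (a : ℕ → Ω → ℕ), Model P a →
  ∀ᵐ ω ∂P, Law W H A ε B T τ (fun q => a q ω)

end Pool.Agent.H531.IX
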