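import Pool.Agent.H531.IX.Stm
import Pool.Agent.H559.SI.Tup
import Pool.Agent.H559.BS.Ext

set_option autoImplicit false

/-!
# The index of a random prime: the pages MP_ea8352 and MP_04e9b2, statements

Hybrid model of `helper559`: `W = WW c` (`⌊(log v) ^ c⌋`), `Pool.Agent.H559.HY.OK z W b` is the property of almost every sample
(`ae_OK`) from which all statements on the distribution follow; `Pool.Agent.H559.SI.tup` is the asymptotic formula for tuples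
in all windows `(X, X + y]`, `X ^ δ ≤ y ≤ X`. `RS z W b` of `Stm.lean` is `Pool.Agent.H559.HY.RS z W b` (`rfl` after unfolding).
-/

open Finset MeasureTheory ProbabilityTheory Filter Topology

namespace Pool.Agent.H531.IX

open Pool.Agent.T2H32.BF (Model z0 V)
open Pool.Agent.H559.BS (Limit)
open Pool.Agent.H559.HY (OK WW Cut)
open Pool.Agent.T2H32.GB (C2)

/-- the sieving limit `z0` at `δ v` -/
noncomputable def zd (δ : ℝ) (v : ℕ) : ℕ := z0 ⌊δ * v⌋₊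

/-- **ZD** (30 lines). `z0` is monotone (`z0_mono`), `V (z0 n) log n → 1` (`z0_lim`), and `log ⌊δ v⌋ / log v → 1`. -/
def S_ZD : Prop := ∀ δ : ℝ, 0 < δ → δ ≤ 1 → Limit (zd δ)

/-- **SMALL** (20 lines). `(log v)^c ≤ v^0.1` eventually (`isLittleO_log_rpow_rpow_atTop` or `isLittleO_log_rpow_atTop`), and
`WW c` is monotone and tends to infinity. -/
def S_SMALL : Prop := ∀ c : ℝ, 0 < c → (∀ᶠ v : ℕ in atTop, (WW c v : ℝ) ≤ (v : ℝ) ^ (0.1 : ℝ)) ∧ Monotone (WW c) ∧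
  ∀ᶠ v : ℕ in atTop, 3 ≤ WW c v

/-- the number of the twins `p ∈ (X, Y]`, `p, p + 2 ∈ A` -/
noncomputable def tw (A : Set ℕ) (X Y : ℕ) : ℕ := {p : ℕ | X < p ∧ p ≤ Y ∧ p ∈ A ∧ p + 2 ∈ A}.ncard

/-- **WIN** (windows, 50 lines).

Proof. `Pool.Agent.H559.SI.tup` with `H = {0}` (`S = 1`: `pS {0} x = 1` for all `x`) and `H = {0, 2}` (`S = 2 c₂`: `pS {0,2} x = 2 C2 x` for
`x ≥ 2`; see the computation `htw` in `Pool/Agent/Results/MP_d610d0_nt/PatternsBetweenPowers.lean` on main). `cH` is the count with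
`Set.ncard`; `pin A (X + y) - pin A X` is the number of the elements in `(X, X + y]`. -/
def S_WIN : Prop := ∀ (z : ℕ → ℕ), Limit z → ∀ (c c₂ : ℝ), 1 < c → Tendsto C2 atTop (𝓝 c₂) → ∀ b : ℕ → ℕ, OK z (WW c) b →
  ∀ δ ε : ℝ, 0 < δ → 0 < ε → ∀ᶠ X : ℕ in atTop, ∀ y : ℕ, (X : ℝ) ^ δ ≤ y → y ≤ X →
    |((pin (RS z (WW c) b) (X + y) : ℝ) - pin (RS z (WW c) b) X) * Real.log X / y - 1| ≤ ε ∧
    |(tw (RS z (WW c) b) X (X + y) : ℝ) * Real.log X ^ 2 / y - 2 * c₂| ≤ ε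

/-- **CNT** (total counts, 80 lines; uses WIN as a hypothesis).

Proof. Let `f x` be `pin x` (`k = 1`, `S = 1`) or `tw 0 x` (`k = 2`, `S = 2 c₂`). By WIN (`δ = 1/2`) `f (X + y) - f X = (S ± ε) y/(log X)^k`
for `√X ≤ y ≤ X`. For large `x` cut `(x/2^J, x]`, `J` fixed with `2^-J ≤ ε`, into the intervals `(⌊x/2^(i+1)⌋, ⌊x/2^i⌋]`, `i < J`
(the length is between the square root of the left end point and, up to one element, the left end point: if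
`⌊x/2^i⌋ - ⌊x/2^(i+1)⌋ = ⌊x/2^(i+1)⌋ + 1` leave out one element), `log` of the left end points `~ log x`; the part up to `x/2^J` is at
most `ε x`-small?: use the bound with all dyadic intervals down to `√x`: their number is `O(log x)`, and
`∑_{i ≥ J} (S + ε) 2 · 2^-i x / (log √x)^k ≤ C 2^-J x/(log x)^k`, and `f √x ≤ √x`. -/
def S_CNT : Prop := S_WIN → ∀ (z : ℕ → ℕ), Limit z → ∀ (c c₂ : ℝ), 1 < c → Tendsto C2 atTop (𝓝 c₂) → ∀ b : ℕ → ℕ,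
  OK z (WW c) b →
  Tendsto (fun x : ℕ => (pin (RS z (WW c) b) x : ℝ) * Real.log x / x) atTop (𝓝 1) ∧
  Tendsto (fun x : ℕ => (tw (RS z (WW c) b) 0 x : ℝ) * Real.log x ^ 2 / x) atTop (𝓝 (2 * c₂))

/-- **CBE** (40 lines; uses WIN and CNT as hypotheses).

Proof. `uX X / 2 ≥ (4 X)^0.5`-windows: WIN with `δ = 1/2`, `ε = 1/4` at `X := x + uX X / 2`, `y = uX X - uX X / 2`, `x ≤ 4X`
(`log (x + …) ≤ 2 log X`): the number is at least `(3/4) (u/2)/(log (5X)) ≥ u/(16 log X)`. First part: `pin X ≥ X/(2 log X) ≥ 2 hX X`. -/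
def S_CBE : Prop := S_WIN → S_CNT → ∀ (c c₂ : ℝ), 1 < c → Tendsto C2 atTop (𝓝 c₂) → ∀ b : ℕ → ℕ, OK z0 (WW c) b →
  ∀ᶠ X : ℕ in atTop, CB z0 (WW c) X b

/-- the truncated value of `τ` -/
noncomputable def cl (X : ℕ) (t : ℝ) : ℝ := max ((X : ℝ) ^ (-(0.001 : ℝ))) (min t 1)

/-- **CHN** (chains of dyadic pieces, 100 lines).

Proof. Write `NC X Y`, `MC X Y` for `NT … X Y b`, `MT … X Y b` with `B = univ`, `T p = T n b`. They are additive: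
`NC X Y + NC Y Y' = NC X Y'` for `X ≤ Y ≤ Y'`. Cut `(X, Y]` at `X_i = min (2^i X) Y`; at most `log₂ (Y/X) + 1 ≤ log₂ Y + 1` pieces. For every piece
`(X_i, X_{i+1}]`: `T n X_i b p = T n b` by `Z n ≤ X ≤ X_i`, `n ≤ X_i ^ A`, `cl X_i (t n) = t n` (`X_i^(-0.001) ≤ X^(-0.001) ≤ t n ≤ 1`), so `Law`
applies (the regularity for windows of length `hX X_i` and `j + hX X_i + 1 ≥ pin X_i ≥ pin X`, `j ≤ pin X_{i+1} + 3 uX X_i ≤ pin Y + 3 uX Y`):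
`NC ≤ (1 + ε) t MC + X_i^0.99`. Sum: the errors are at most `(log₂ Y + 1) Y^0.99 ≤ Y^0.995` for large `X`. -/
def S_CHN : Prop := ∀ (W : ℕ → ℕ) (H : Finset ℕ) (A : ℕ) (ε : ℝ) (T : ℕ → (ℕ → ℕ) → Set ℕ) (Z : ℕ → ℕ) (t : ℕ → ℝ) (b : ℕ → ℕ),
  0 < ε → (∀ᶠ X : ℕ in atTop, CB z0 W X b) →
  Law W H A ε (fun _ _ _ => Set.univ) (fun n X b _ => if Z n ≤ X then T n b else ∅) (fun n X _ => cl X (t n)) b →
  ∀ᶠ X : ℕ in atTop, ∀ n Y : ℕ, Z n ≤ X → n ≤ X ^ A → X ≤ Y → (X : ℝ) ^ (-(0.001 : ℝ)) ≤ t n → t n ≤ 1 →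
    ((∀ j h, hX X ≤ h → h ≤ hX Y → pin (RS z0 W b) X ≤ j + h + 1 → j ≤ pin (RS z0 W b) Y + 3 * uX Y →
        ((T n b ∩ Set.Ioc j (j + h)).ncard : ℝ) ≤ t n * h) →
      (NT z0 W H Set.univ (fun _ => T n b) X Y b : ℝ) ≤
        (1 + ε) * (t n * MT z0 W H Set.univ X Y b) + (Y : ℝ) ^ (0.995 : ℝ)) ∧
    ((∀ j h, hX X ≤ h → h ≤ hX Y → pin (RS z0 W b) X ≤ j + h + 1 → j ≤ pin (RS z0 W b) Y + 3 * uX Y →
        t n * h ≤ ((T n b ∩ Set.Ioc j (j + h)).ncard : ℝ)) →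
      (1 - ε) * (t n * MT z0 W H Set.univ X Y b) - (Y : ℝ) ^ (0.995 : ℝ) ≤
        NT z0 W H Set.univ (fun _ => T n b) X Y b)

/-- the `m`-th element of `A` (`m ≥ 1`) -/
noncomputable def rk (A : Set ℕ) (m : ℕ) : ℕ := Nat.nth (· ∈ A) (m - 1)

/-- **NTH** (25 lines). `Nat.nth`, `Nat.count` (`pin A p = Nat.count (· ∈ A) (p + 1)` as `0 ∉ A`), `Nat.nth_count`, `Nat.count_nth`,
`Nat.nth_mem_of_infinite`. -/
def S_NTH : Prop := ∀ A : Set ℕ, A.Infinite → 0 ∉ A →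
  (∀ p ∈ A, rk A (pin A p) = p ∧ 1 ≤ pin A p) ∧ ∀ m, 1 ≤ m → rk A m ∈ A ∧ pin A (rk A m) = m

/-! ## MP_ea8352 -/

/-- the possible indices: `m < n`, `6 (n - m) ± 1 ∈ A`, `n - m ≥ n ^ (1 - κ)` -/
def TE (A : Set ℕ) (κ : ℝ) (n : ℕ) : Set ℕ :=
  {m | m < n ∧ (n : ℝ) ^ (1 - κ) ≤ ((n - m : ℕ) : ℝ) ∧ 6 * (n - m) - 1 ∈ A ∧ 6 * (n - m) + 1 ∈ A}

/-- **REG1** (90 lines; uses WIN and SMALL as hypotheses).

Proof. `m ↦ t = 6 (n - m) - 1` is a bijection of the `m ∈ (j, j + h]` with `6 (n - m) ± 1 ∈ RS` onto the twins `t, t + 2 ∈ RS` in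
`(Y, Y + 6h]`, `Y = 6 (n - j - h) - 2` (if `j + h < n`): for large twins `t ≡ 5 mod 6`, since `2, 3 ≤ WW c t` (SMALL), `2, 3 ≤ z t`, so
`t`, `t + 2` are prime to `6`. (2) `n - j - h ≥ n^(1-κ)`, `6 h ≥ n^α ≥ Y^(α/2)`, `6h ≤ Y`: WIN: at least
`(2 c₂ - ε') 6h/(log Y)² ≥ (1 - ε) 12 c₂ h/(log n)²` for `Y ≤ 6n` (`log 6n/log n → 1`). (1) If `n - j - h < n^(1-κ)`, enlarge: the `m` in the set
have `n - m ≥ n^(1-κ)`, so they are in the window with the `h` values `n - m ∈ [a, a + h)`, `a = ⌈n^(1-κ)⌉` (or the set is empty). WIN: at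
most `(2c₂ + ε') 6h/(log Y)²`, `log Y ≥ (1-κ) log n`. -/
def S_REG1 : Prop := S_WIN → S_SMALL → ∀ (z : ℕ → ℕ), Limit z → ∀ (c c₂ : ℝ), 1 < c → 0 < c₂ → Tendsto C2 atTop (𝓝 c₂) →
  ∀ b : ℕ → ℕ, OK z (WW c) b → ∀ α κ ε : ℝ, 0 < α → 0 < κ → κ ≤ 1 / 4 → 0 < ε → ∀ᶠ n : ℕ in atTop, ∀ j h : ℕ,
    (n : ℝ) ^ α ≤ h → (h : ℝ) ≤ (n : ℝ) ^ (1 / 2 : ℝ) →
    ((TE (RS z (WW c) b) κ n ∩ Set.Ioc j (j + h)).ncard : ℝ) ≤
      (1 + ε) * (12 * c₂) / ((1 - κ) ^ 2 * Real.log n ^ 2) * h ∧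
    ((j : ℝ) + h + 2 * (n : ℝ) ^ (1 - κ) ≤ n →
      (1 - ε) * (12 * c₂) / Real.log n ^ 2 * h ≤ ((TE (RS z (WW c) b) κ n ∩ Set.Ioc j (j + h)).ncard : ℝ))

/-- what is needed from the model for MP_ea8352 (`δ, κ, r` rational) -/
def OKE (c : ℝ) (b : ℕ → ℕ) : Prop :=
  OK z0 (WW c) b ∧ (∀ δ : ℚ, 0 < δ → δ ≤ 1 → OK (zd δ) (WW c) b) ∧
  ∀ (δ κ r : ℚ) (k : ℕ), 0 < δ → δ ≤ 1 → 0 < κ → 0 < r →
    Law (WW c) {0, 2} 2 (1 / ((k : ℝ) + 1)) (fun _ _ _ => Set.univ)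
      (fun n X b _ => if ⌈7 * (δ : ℝ) * n⌉₊ ≤ X then TE (RS (zd δ) (WW c) b) κ n else ∅)
      (fun n X _ => cl X (r / Real.log n ^ 2)) b

/-- **AEE** (60 lines; uses AEL, ZD, SMALL as hypotheses).

Proof. `Pool.Agent.H559.HY.ae_OK h (zd δ) (WW c) (hZD δ _ _) (cut_WW c hc)` for the rational `δ` (and for `z0`: `Limit z0`), `ae_all_iff`.
The `Law`s: AEL with `H = {0, 2}`, `A = 2`. The dependence: if `7 δ n ≤ X` then `TE (RS (zd δ) W b) κ n` depends on the coordinates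
`q ≤ z0 X` only: `v = 6 (n - m) ± 1 ≤ 6 n + 1 ≤ 7 n` (`n ≥ 1`, `m < n`), `zd δ v = z0 ⌊δ v⌋ ≤ z0 X`. `cl` is in `[X^(-0.001), 1]` (`X^(-0.001) ≤ 1`, also
for `X = 0`). -/
def S_AEE : Prop := S_AEL → S_ZD → S_SMALL → ∀ (c : ℝ), 1 < c →
  ∀ (Ω : Type) [MeasurableSpace Ω] (P : Measure Ω) (a : ℕ → Ω → ℕ), Model P a → ∀ᵐ ω ∂P, OKE c (fun q => a q ω)

/-- the number of the decompositions in terms of the `p = r_m`: `p, p + 2 ∈ A`, index `m < n`, `6 (n - m) ± 1 ∈ A` -/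
noncomputable def NA (A : Set ℕ) (n : ℕ) : ℕ :=
  {p : ℕ | p ∈ A ∧ p + 2 ∈ A ∧ pin A p < n ∧ 6 * (n - pin A p) - 1 ∈ A ∧ 6 * (n - pin A p) + 1 ∈ A}.ncard

/-- **EAU** (upper bound, 150 lines; uses WIN, CNT, CBE, CHN, REG1, SMALL, ZD as hypotheses).

Proof. `R = RS z0 (WW c) b`, `L = n log n`, small rational `κ, η, δ > 0` and `k` large, `r` rational slightly larger than `12 c₂/(1-κ)²`
(`r ≥ (1 + ε')12 c₂/(1-κ)²`); `t n = r/(log n)²`. The `p` counted by `NA R n` are of the following kinds.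
I. `n - pin p < n^(1-κ)`: at most `n^(1-κ) + 1` (the index is injective on `R`).
II. `p ≤ 7 δ n + 1` and `pin p ∈ TE R κ n`: the index is at most `M = pin (7δn + 1) ≤ 8 δ n/log n` (CNT), the number is at most
`|TE R κ n ∩ (0, M]| ≤ (M/h + 1) t h ≤ 2 t M` by REG1 with `h = ⌈n^(1/4)⌉`: `≤ 16 r δ n/(log n)³`.
III. `7 δ n ≤ p ≤ 7 n + 1`: `RS z0 ⊆ RS (zd δ)` (`zd δ ≤ z0`), so the index is in `T = TE (RS (zd δ) (WW c) b) κ n`; CHN with `X = ⌈7 δ n⌉`,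
`Y = 7n + 1`, regularity by REG1 for `zd δ` (`h` between `hX X ≥ n^0.004` and `hX Y ≤ √n`; all `j`): at most
`2 t tw(0, 7n+1) + (7n+1)^0.995 ≤ C n/(log n)⁴`.
IV. `7 n ≤ p`: the index is `< n ≤ pin ((1 + η) L)` (CNT: `pin ((1+η)L) ~ (1+η) n`), so `p ≤ (1+η) L`; CHN with `δ = 1`, `X = 7n`,
`Y = ⌊(1+η)L⌋` (`zd 1 = z0` up to `⌊1 * v⌋ = v`): at most `(1 + 1/(k+1)) t tw(0, Y) + Y^0.995`, and `tw(0, Y) ~ 2 c₂ (1+η) n/log n`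
(`log Y ~ log n`). (`MT … {0,2} univ X Y b ≤ tw R 0 Y`.)
Sum: `limsup NA (log n)³/n ≤ 16 r δ + (1 + 1/(k+1)) r 2 c₂ (1 + η)`; choose the parameters. -/
def S_EAU : Prop := S_WIN → S_CNT → S_CBE → S_CHN → S_REG1 → S_SMALL → S_ZD → ∀ (c c₂ : ℝ), 1 < c → 0 < c₂ →
  Tendsto C2 atTop (𝓝 c₂) → ∀ b : ℕ → ℕ, OKE c b → ∀ ε : ℝ, 0 < ε →
  ∀ᶠ n : ℕ in atTop, (NA (RS z0 (WW c) b) n : ℝ) * Real.log n ^ 3 / n ≤ 24 * c₂ ^ 2 + ε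

/-- **EAL** (lower bound, 100 lines; uses WIN, CNT, CBE, CHN, REG1, SMALL, ZD as hypotheses).

Proof. Notation as in EAU; `r` rational slightly smaller than `12 c₂`, `κ = 1/4`, `δ = 1`, `X = ⌈η L⌉`, `Y = ⌊(1 - η) L⌋` (`X ≥ 7 n`). For
`j ≤ pin Y + 3 uX Y`, `h ≤ hX Y`: `j + h + 2 n^(3/4) ≤ n` (`pin Y ~ (1-η) n`), so REG1 (2) gives the lower regularity with
`t n = r/(log n)²`. All the `p ∈ (X, Y]` counted by `NT` are counted by `NA` (index `< n`). CHN: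
`NA ≥ (1 - 1/(k+1)) t MT(X, Y) - Y^0.995`, and `MT = tw (X, Y) = tw (0, Y) - tw (0, X) ~ 2 c₂ (1 - 2η) n/log n`. -/
def S_EAL : Prop := S_WIN → S_CNT → S_CBE → S_CHN → S_REG1 → S_SMALL → S_ZD → ∀ (c c₂ : ℝ), 1 < c → 0 < c₂ →
  Tendsto C2 atTop (𝓝 c₂) → ∀ b : ℕ → ℕ, OKE c b → ∀ ε : ℝ, 0 < ε →
  ∀ᶠ n : ℕ in atTop, 24 * c₂ ^ 2 - ε ≤ (NA (RS z0 (WW c) b) n : ℝ) * Real.log n ^ 3 / n

/-- the number of the `k` with `6 k ± 1 ∈ A`, `r_{n-k}`, `r_{n-k} + 2 ∈ A` -/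
noncomputable def NE (A : Set ℕ) (n : ℕ) : ℕ :=
  {k : ℕ | 1 ≤ k ∧ k < n ∧ 6 * k - 1 ∈ A ∧ 6 * k + 1 ∈ A ∧ rk A (n - k) + 2 ∈ A}.ncard

/-- **NEA** (30 lines; uses NTH as a hypothesis). `k ↦ p = rk A (n - k)` is a bijection (inverse `p ↦ n - pin A p`). -/
def S_NEA : Prop := S_NTH → ∀ A : Set ℕ, A.Infinite → 0 ∉ A → ∀ n, NE A n = NA A n

end Pool.Agent.H531.IX
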