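import Pool.Agent.H531.IX.Stm6

set_option autoImplicit false

/-!
# TGU: a bound for the Goldbach singular series (helper864, for project IX of helper531)
-/

open Finset MeasureTheory ProbabilityTheory Filter Topology

namespace Pool.Agent.H531.IX

open Pool.Agent.T2H32.BF (Model z0 V)
open Pool.Agent.H559.BS (Limit)
open Pool.Agent.H559.HY (OK WW Cut TG)
open Pool.Agent.H559.SI (gw)
open Pool.Agent.T2H32.GB (C2)

namespace TGUN

/-- the representations are counted by the elements of the window -/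
theorem gw_le (A : Set ℕ) (N u y : ℕ) : gw A N u y + pin A u ≤ pin A (u + y) := by
  unfold gw pin
  have hfin : (A ∩ Set.Icc 1 (u + y)).Finite :=
    (Set.finite_Icc 1 (u + y)).subset Set.inter_subset_right
  have h1 : {p : ℕ | u < p ∧ p ≤ u + y ∧ p ∈ A ∧ ∃ q ∈ A, p + q = N} ⊆
      A ∩ Set.Icc 1 (u + y) := by
    rintro p ⟨a1, a2, a3, -⟩
    exact ⟨a3, by omega, a2⟩
  have h2 : A ∩ Set.Icc 1 u ⊆ A ∩ Set.Icc 1 (u + y) := by
    rintro p ⟨a1, a2, a3⟩
    exact ⟨a1, a2, by omega⟩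
  have hd : Disjoint {p : ℕ | u < p ∧ p ≤ u + y ∧ p ∈ A ∧ ∃ q ∈ A, p + q = N}
      (A ∩ Set.Icc 1 u) := by
    rw [Set.disjoint_left]
    rintro p ⟨a1, -⟩ ⟨-, -, a3⟩
    omega
  rw [← Set.ncard_union_eq hd (hfin.subset h1) (hfin.subset h2)]
  exact Set.ncard_le_ncard (Set.union_subset h1 h2) hfin

/-- the arithmetic -/
theorem arith {g P y T lu lw l : ℝ} (hy : 0 < y) (hT : 0 < T) (hlu : 0 < lu) (hlw : 0 < lw)
    (h1 : |g * (lu * lw) / (y * T) - 1| ≤ 1 / 2) (h2 : |P * lu / y - 1| ≤ 1 / 2)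
    (h3 : g ≤ P) (h4 : lw ≤ 4 / 3 * l) : T ≤ 4 * l := by
  have hyT : 0 < y * T := mul_pos hy hT
  have a1 : 1 / 2 ≤ g * (lu * lw) / (y * T) := by linarith [(abs_le.1 h1).1]
  rw [le_div_iff₀ hyT] at a1
  have a2 : P * lu / y ≤ 3 / 2 := by linarith [(abs_le.1 h2).2]
  rw [div_le_iff₀ hy] at a2
  have a3 : g * (lu * lw) ≤ P * (lu * lw) :=
    mul_le_mul_of_nonneg_right h3 (mul_pos hlu hlw).le
  have a4 : P * (lu * lw) ≤ (3 / 2 * y) * lw := by
    rw [← mul_assoc]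
    exact mul_le_mul_of_nonneg_right a2 hlw.le
  have a5 : y * T ≤ y * (3 * lw) := by linarith
  have a6 := le_of_mul_le_mul_left a5 hy
  linarith

end TGUN

open TGUN in
/-- **TGU** -/
theorem tgu : S_TGU := by
  intro hWIN c c₂ hc hc₂ hlim b hb
  have hz : Limit z0 := ⟨Pool.Agent.T2H32.BF.z0_mono, Pool.Agent.T2H32.BF.z0_lim⟩
  have hg := Pool.Agent.H559.SI.gshort z0 (WW c) hz (Pool.Agent.H559.HY.cut_WW c hc)
    b hb c₂ hc₂ hlim (1 / 2) (1 / 2) (by norm_num) (by norm_num)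
  have hw := hWIN z0 hz c c₂ hc hlim b hb (1 / 2) (1 / 2) (by norm_num) (by norm_num)
  have h2n : Tendsto (fun n : ℕ => 2 * n) atTop atTop :=
    tendsto_id.const_mul_atTop' (by norm_num)
  have hn2 : Tendsto (fun n : ℕ => n / 2) atTop atTop :=
    Nat.tendsto_div_const_atTop (by norm_num)
  have hlog : Tendsto (fun n : ℕ => Real.log n) atTop atTop :=
    Real.tendsto_log_atTop.comp tendsto_natCast_atTop_atTop
  filter_upwards [h2n.eventually hg, hn2.eventually hw,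
    hlog.eventually_ge_atTop (3 * Real.log 2), eventually_ge_atTop 128] with n h1 h2 h3 h4
  have hn0 : (128 : ℝ) ≤ n := by exact_mod_cast h4
  have hlogn : 0 < Real.log n := Real.log_pos (by linarith)
  by_cases hT : TG c₂ (2 * n) ≤ 0
  · linarith
  rw [not_le] at hT
  obtain ⟨u, hu⟩ : ∃ u : ℕ, u = n / 2 := ⟨_, rfl⟩
  obtain ⟨y, hy⟩ : ∃ y : ℕ, y = n / 4 := ⟨_, rfl⟩
  rw [← hu] at h2
  have hyR : (n : ℝ) ≤ 8 * y := by
    have : n ≤ 8 * y := by omega
    exact_mod_cast this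
  have hsq : (2 * (n : ℝ)) ≤ (y : ℝ) ^ 2 := by nlinarith
  have hy0 : (0 : ℝ) < y := by linarith
  have e1 : ((2 * n : ℕ) : ℝ) ^ (1 / 2 : ℝ) ≤ y := by
    rw [← Real.sqrt_eq_rpow]
    push_cast
    exact Real.sqrt_le_iff.2 ⟨hy0.le, hsq⟩
  have e2 : ((u : ℕ) : ℝ) ^ (1 / 2 : ℝ) ≤ y := by
    rw [← Real.sqrt_eq_rpow]
    refine Real.sqrt_le_iff.2 ⟨hy0.le, ?_⟩
    have : (u : ℝ) ≤ n := by exact_mod_cast (by omega : u ≤ n)
    linarith
  have e : RS z0 (WW c) b = Pool.Agent.H559.HY.RS z0 (WW c) b := rfl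
  have h5 := h1 (even_two_mul n) u y e1 (by omega) (by omega)
  rw [← e] at h5
  have h6 := (h2 y e2 (by omega)).1
  have hgw := gw_le (RS z0 (WW c) b) (2 * n) u y
  have hgw' : (gw (RS z0 (WW c) b) (2 * n) u y : ℝ) ≤
      (pin (RS z0 (WW c) b) (u + y) : ℝ) - pin (RS z0 (WW c) b) u := by
    have : ((gw (RS z0 (WW c) b) (2 * n) u y + pin (RS z0 (WW c) b) u : ℕ) : ℝ) ≤
        ((pin (RS z0 (WW c) b) (u + y) : ℕ) : ℝ) := by exact_mod_cast hgw
    push_cast at this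
    linarith
  have hu2 : (2 : ℝ) ≤ u := by exact_mod_cast (by omega : 2 ≤ u)
  have hlu : 0 < Real.log u := Real.log_pos (by linarith)
  have hw2 : (2 : ℝ) ≤ ((2 * n - u : ℕ) : ℝ) := by exact_mod_cast (by omega : 2 ≤ 2 * n - u)
  have hlw : 0 < Real.log ((2 * n - u : ℕ) : ℝ) := Real.log_pos (by linarith)
  have hlw2 : Real.log ((2 * n - u : ℕ) : ℝ) ≤ 4 / 3 * Real.log n := by
    have a1 : Real.log ((2 * n - u : ℕ) : ℝ) ≤ Real.log (2 * n) := by
      refine Real.log_le_log (by linarith) ?_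
      exact_mod_cast (by omega : 2 * n - u ≤ 2 * n)
    have a2 : Real.log (2 * n) = Real.log 2 + Real.log n :=
      Real.log_mul (by norm_num) (by linarith)
    linarith
  exact arith hy0 hT hlu hlw h5 h6 hgw' hlw2

end Pool.Agent.H531.IX
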