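import Pool.Agent.H531.IX.Stm5

set_option autoImplicit false

/-!
# The thinning almost surely, all windows (Borel–Cantelli)
-/

open Finset MeasureTheory ProbabilityTheory Filter Topology

namespace Pool.Agent.H531.IX

open Pool.Agent.T2H32.BF (Model z0 V)

namespace THE5N

/-- the bound for the probabilities is summable -/
lemma summ : Summable (fun n : ℕ => (((n : ℝ) + 1) * ((n : ℝ) + 1)) * Real.exp (-(n : ℝ) ^ (0.1 : ℝ))) := by
  set k : ℕ := 40 with hk
  have h2 : Summable (fun n : ℕ => (4 * (k.factorial : ℝ)) * (1 / (n : ℝ) ^ 2)) :=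
    (Real.summable_one_div_nat_pow.2 (by norm_num)).mul_left _
  refine Summable.of_norm_bounded_eventually_nat h2 ?_
  filter_upwards [eventually_ge_atTop 1] with n hn
  have hn1 : (1 : ℝ) ≤ n := by exact_mod_cast hn
  have hn0 : (0 : ℝ) < n := by linarith
  have hy0 : (0 : ℝ) < (n : ℝ) ^ (0.1 : ℝ) := Real.rpow_pos_of_pos hn0 _
  have hfac : (0 : ℝ) < (k.factorial : ℝ) := by exact_mod_cast Nat.factorial_pos k
  have hexp : Real.exp (-(n : ℝ) ^ (0.1 : ℝ)) ≤ (k.factorial : ℝ) / (n : ℝ) ^ 4 := by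
    have h := Real.pow_div_factorial_le_exp ((n : ℝ) ^ (0.1 : ℝ)) hy0.le k
    have hpow : (n : ℝ) ^ 4 ≤ ((n : ℝ) ^ (0.1 : ℝ)) ^ k := by
      rw [← Real.rpow_natCast ((n : ℝ) ^ (0.1 : ℝ)) k, ← Real.rpow_mul hn0.le, ← Real.rpow_natCast (n : ℝ) 4]
      refine Real.rpow_le_rpow_of_exponent_le hn1 ?_
      rw [hk]
      norm_num
    have hXp : (0 : ℝ) < (n : ℝ) ^ 4 := by positivity
    rw [Real.exp_neg, inv_le_comm₀ (Real.exp_pos _) (by positivity), inv_div]
    refine le_trans ?_ h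
    exact div_le_div_of_nonneg_right hpow hfac.le
  rw [Real.norm_of_nonneg (by positivity)]
  calc (((n : ℝ) + 1) * ((n : ℝ) + 1)) * Real.exp (-(n : ℝ) ^ (0.1 : ℝ))
      ≤ ((2 * (n : ℝ)) * (2 * (n : ℝ))) * ((k.factorial : ℝ) / (n : ℝ) ^ 4) :=
        mul_le_mul (mul_le_mul (by linarith) (by linarith) (by linarith) (by linarith)) hexp
          (Real.exp_pos _).le (by positivity)
    _ = (4 * (k.factorial : ℝ)) * (1 / (n : ℝ) ^ 2) := by
        have hne : (n : ℝ) ≠ 0 := hn0.ne'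
        field_simp
        ring

/-- Borel–Cantelli with bounds which hold for large indices -/
lemma bc {Ω : Type} [MeasurableSpace Ω] (P : Measure Ω) [IsProbabilityMeasure P] (s : ℕ → Set Ω) (f : ℕ → ℝ)
    (hf : Summable f) (h : ∀ᶠ X in atTop, P.real (s X) ≤ f X) :
    ∀ᵐ ω ∂P, ∀ᶠ X in atTop, ω ∉ s X := by
  obtain ⟨X0, hX0⟩ := eventually_atTop.1 h
  have hf' : Summable (fun X => f (X + X0)) := (summable_nat_add_iff X0).2 hf
  have hne : ∑' X, P (s (X + X0)) ≠ ⊤ := by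
    refine ne_top_of_le_ne_top hf'.tsum_ofReal_ne_top ?_
    refine ENNReal.tsum_le_tsum fun X => ?_
    rw [← ofReal_measureReal (μ := P) (s := s (X + X0)) (measure_ne_top P _)]
    exact ENNReal.ofReal_le_ofReal (hX0 _ (Nat.le_add_left _ _))
  filter_upwards [ae_eventually_notMem hne] with ω hω
  obtain ⟨N, hN⟩ := eventually_atTop.1 hω
  refine eventually_atTop.2 ⟨N + X0, fun X hX => ?_⟩
  have := hN (X - X0) (by omega)
  rwa [Nat.sub_add_cancel (by omega)] at this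

/-- the union bound -/
lemma ub {Ω : Type} [MeasurableSpace Ω] (P : Measure Ω) [IsProbabilityMeasure P] (E : ℕ × ℕ → Set Ω) (n : ℕ)
    (e : ℝ) (h : ∀ i, P.real (E i) ≤ e) :
    P.real (⋃ i ∈ range (n + 1) ×ˢ range (n + 1), E i) ≤ (((n : ℝ) + 1) * ((n : ℝ) + 1)) * e := by
  refine le_trans (measureReal_biUnion_finset_le _ _) ?_
  refine le_trans (Finset.sum_le_card_nsmul _ _ e fun i _ => h i) ?_
  rw [nsmul_eq_mul, Finset.card_product, Finset.card_range]
  push_cast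
  exact le_rfl

end THE5N

/-- **THE5** -/
theorem the5 : S_THE5 := by
  intro hAZP hSQ hRAI hTHP W hW hmono Ω _ P a hM
  have := Pool.Agent.T2H32.BF.prob hM
  unfold TH5
  rw [ae_all_iff]
  intro C
  rw [ae_all_iff]
  intro i
  rw [ae_all_iff]
  intro m
  have hE := hTHP hAZP hSQ hRAI C (1 / ((m : ℝ) + 1)) (by positivity) W hW hmono
  have hbc := THE5N.bc P
    (fun n => ⋃ p ∈ range (n + 1) ×ˢ range (n + 1),
      {ω | ((n : ℝ) / Real.log n ^ C ≤ (p.1 : ℕ) ∧ p.1 + p.2 ≤ n) ∧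
        ((G1 W n i (z0 (2 * n)) p.1 (p.1 + p.2) (fun q => a q ω)).card : ℝ) <
        (1 - 1 / ((m : ℝ) + 1)) * (G1 W n i (z0 (p.1 + p.2)) p.1 (p.1 + p.2) (fun q => a q ω)).card -
          (n : ℝ) ^ (0.9 : ℝ)})
    (fun n => (((n : ℝ) + 1) * ((n : ℝ) + 1)) * Real.exp (-(n : ℝ) ^ (0.1 : ℝ))) THE5N.summ ?_
  · filter_upwards [hbc] with ω hω
    filter_upwards [hω] with n hn
    intro u y hu hy
    simp only [Set.mem_iUnion, not_exists] at hn
    have h := hn (u, y) (by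
      rw [Finset.mem_product, Finset.mem_range, Finset.mem_range]
      simp only
      omega)
    simp only [Set.mem_ofPred_eq, not_and, not_lt] at h
    exact h ⟨hu, hy⟩
  · filter_upwards [hE] with n hn
    refine THE5N.ub P _ n _ fun p => ?_
    by_cases hp : (n : ℝ) / Real.log n ^ C ≤ (p.1 : ℕ) ∧ p.1 + p.2 ≤ n
    · refine le_trans (measureReal_mono (fun ω hω => hω.2)) (hn Ω P a hM i p.1 p.2 hp.1 hp.2)
    · have he : {ω | ((n : ℝ) / Real.log n ^ C ≤ (p.1 : ℕ) ∧ p.1 + p.2 ≤ n) ∧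
          ((G1 W n i (z0 (2 * n)) p.1 (p.1 + p.2) (fun q => a q ω)).card : ℝ) <
          (1 - 1 / ((m : ℝ) + 1)) * (G1 W n i (z0 (p.1 + p.2)) p.1 (p.1 + p.2) (fun q => a q ω)).card -
            (n : ℝ) ^ (0.9 : ℝ)} = ∅ := by
        ext ω
        simp only [Set.mem_ofPred_eq, Set.mem_empty_iff_false, iff_false, not_and]
        intro h
        exact absurd h hp
      rw [he, measureReal_empty]
      exact (Real.exp_pos _).le

end Pool.Agent.H531.IX
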