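import Pool.Agent.H531.IX.Stm4

set_option autoImplicit false

/-! # Project IX, `S_THP` (helper176) -/

open Finset MeasureTheory ProbabilityTheory Filter Topology

namespace Pool.Agent.H531.IX

open Pool.Agent.T2H31.HV (Pt Ev Dep sum_Pt_insert Pt_empty)
open Pool.Agent.T2H32.BF (Model z0 V z0_mono)

namespace THPN

theorem ev_rpow (a b C : ℝ) (h : a < b) : ∀ᶠ n : ℕ in atTop, C * (n : ℝ) ^ a ≤ (n : ℝ) ^ b := by
  have h1 : Tendsto (fun n : ℕ => (n : ℝ) ^ (b - a)) atTop atTop :=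
    (tendsto_rpow_atTop (by linarith)).comp tendsto_natCast_atTop_atTop
  filter_upwards [h1.eventually_ge_atTop C, eventually_ge_atTop 1] with n hn hn1
  have hn0 : (0 : ℝ) < n := by exact_mod_cast hn1
  have h2 : (n : ℝ) ^ b = (n : ℝ) ^ (b - a) * (n : ℝ) ^ a := by
    rw [← Real.rpow_add hn0]
    congr 1
    ring
  rw [h2]
  exact mul_le_mul_of_nonneg_right hn (Real.rpow_nonneg hn0.le _)

theorem sv_congr (W : ℕ → ℕ) {y v : ℕ} {b b' : ℕ → ℕ} (h : ∀ q ≤ y, q.Prime → b q = b' q) :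
    Sv W y b v ↔ Sv W y b' v := by
  unfold Sv
  constructor
  · intro H q hq hp
    rw [← h q hq hp]
    exact H q hq hp
  · intro H q hq hp
    rw [h q hq hp]
    exact H q hq hp

theorem mem_G1 (W : ℕ → ℕ) (n i y X X2 : ℕ) (b : ℕ → ℕ) (v : ℕ) : v ∈ G1 W n i y X X2 b ↔
    v ∈ Ioc X X2 ∧ v ∈ ra (RS z0 W b) i ∧ Sv W y b (2 * n - v) := by
  unfold G1
  simp only [Finset.mem_filter]

theorem G1_congr (hRAI : S_RAI) (W : ℕ → ℕ) (n i X X2 : ℕ) {b b' : ℕ → ℕ}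
    (h : ∀ q ≤ z0 X2, q.Prime → b q = b' q) :
    G1 W n i (z0 X2) X X2 b = G1 W n i (z0 X2) X X2 b' := by
  ext v
  rw [mem_G1, mem_G1]
  refine and_congr_right fun hv => ?_
  rw [hRAI.2.1 (RS z0 W b) (RS z0 W b') X2 (fun v hv => hRAI.2.2 W X2 b b' h v hv) i v (mem_Ioc.1 hv).2,
    sv_congr W h]

theorem class_card (T : Finset ℕ) (x L q N c : ℕ) (hq : 0 < q)
    (hT : ∀ v ∈ T, x < v ∧ v ≤ x + L ∧ v ≤ N ∧ (N - v) % q = c) : T.card ≤ L / q + 1 := by
  have key : ∀ v ∈ T, ∀ v' ∈ T, v < v' → (v - x - 1) / q ≠ (v' - x - 1) / q := by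
    intro v hv v' hv' hlt
    obtain ⟨h1, h2, h3, h4⟩ := hT v hv
    obtain ⟨h1', h2', h3', h4'⟩ := hT v' hv'
    have h5 : (N - v') % q = (N - v) % q := by rw [h4, h4']
    have h6 : q ∣ (N - v) - (N - v') := (Nat.modEq_iff_dvd' (by omega)).1 h5
    have h7 : (N - v) - (N - v') = v' - v := by omega
    rw [h7] at h6
    have h8 : q ≤ v' - v := Nat.le_of_dvd (by omega) h6
    have h9 : (v - x - 1) / q + 1 = (v - x - 1 + q) / q := (Nat.add_div_right _ hq).symm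
    have h10 : (v - x - 1 + q) / q ≤ (v' - x - 1) / q := Nat.div_le_div_right (by omega)
    omega
  calc T.card ≤ (range (L / q + 1)).card := by
        refine card_le_card_of_injOn (fun v => (v - x - 1) / q) ?_ ?_
        · intro v hv
          obtain ⟨h1, h2, _, _⟩ := hT v hv
          have h3 : (v - x - 1) / q ≤ L / q := Nat.div_le_div_right (by omega)
          simp only [coe_range, Set.mem_Iio]
          omega
        · intro v hv v' hv' he
          simp only at he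
          by_contra hne
          rcases Nat.lt_or_gt_of_ne hne with h | h
          · exact key v hv v' hv' h he
          · exact key v' hv' v hv h he.symm
    _ = L / q + 1 := card_range _

open Classical in
/-- the elements of `S` hit by `q` -/
noncomputable def hit (n : ℕ) (S : Finset ℕ) (q c : ℕ) : Finset ℕ := S.filter fun v => (2 * n - v) % q = c

/-- the increments -/
noncomputable def gg (S : (ℕ → ℕ) → Finset ℕ) (n z k : ℕ) (b : ℕ → ℕ) : ℝ :=
  if (z + 1 + k).Prime then ((hit n (S b) (z + 1 + k) (b (z + 1 + k))).card : ℝ) - (S b).card / ((z + 1 + k : ℕ) : ℝ)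
  else 0

/-- the filtration -/
def EE (z k : ℕ) : Finset ℕ := (Icc 1 (z + k)).filter Nat.Prime

theorem EE_mono (z : ℕ) : Monotone (EE z) := by
  intro k k' hk
  unfold EE
  exact filter_subset_filter _ (Icc_subset_Icc_right (by omega))

theorem EE_sdiff (z k : ℕ) : EE z (k + 1) \ EE z k = if (z + 1 + k).Prime then {z + 1 + k} else ∅ := by
  unfold EE
  ext p
  simp only [Finset.mem_sdiff, Finset.mem_filter, Finset.mem_Icc]
  split_ifs with h
  · rw [mem_singleton]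
    constructor
    · rintro ⟨⟨⟨h1, h2⟩, h3⟩, h4⟩
      by_contra h5
      exact h4 ⟨⟨h1, by omega⟩, h3⟩
    · rintro rfl
      exact ⟨⟨⟨by omega, by omega⟩, h⟩, fun h4 => by omega⟩
  · simp only [notMem_empty, iff_false]
    rintro ⟨⟨⟨h1, h2⟩, h3⟩, h4⟩
    have h5 : p = z + 1 + k := by
      by_contra h5
      exact h4 ⟨⟨h1, by omega⟩, h3⟩
    rw [h5] at h3
    exact h h3

theorem gg_dep (S : (ℕ → ℕ) → Finset ℕ) (n z k : ℕ)
    (hS : ∀ b b' : ℕ → ℕ, (∀ q ≤ z, q.Prime → b q = b' q) → S b = S b') : Dep (EE z (k + 1)) (gg S n z k) := by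
  intro b b' h
  unfold gg
  split_ifs with hp
  · have h1 : S b = S b' := hS b b' fun q hq hqp => h q (by
      unfold EE
      exact mem_filter.2 ⟨mem_Icc.2 ⟨hqp.one_lt.le, by omega⟩, hqp⟩)
    have h2 : b (z + 1 + k) = b' (z + 1 + k) := h _ (by
      unfold EE
      exact mem_filter.2 ⟨mem_Icc.2 ⟨by omega, by omega⟩, hp⟩)
    rw [h1, h2]
  · rfl

theorem gg_mean (S : (ℕ → ℕ) → Finset ℕ) (n z k : ℕ) (b : ℕ → ℕ)
    (hS : ∀ b b' : ℕ → ℕ, (∀ q ≤ z, q.Prime → b q = b' q) → S b = S b') :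
    Ev (EE z (k + 1) \ EE z k) (fun b' => gg S n z k (gl (EE z (k + 1) \ EE z k) b b')) ≤ 0 := by
  rw [EE_sdiff]
  by_cases hp : (z + 1 + k).Prime
  · rw [if_pos hp]
    refine le_of_eq ?_
    unfold Ev
    have h1 : ({z + 1 + k} : Finset ℕ) = insert (z + 1 + k) ∅ := by simp
    have h2 : ∀ F : (ℕ → ℕ) → ℝ, ∑ b ∈ Pt {z + 1 + k}, F b =
        ∑ r ∈ range (z + 1 + k), F (Function.update (fun _ => 0) (z + 1 + k) r) := by
      intro F
      rw [h1, sum_Pt_insert _ _ (by simp), Pt_empty, sum_singleton]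
    rw [h2]
    refine mul_eq_zero_of_right _ ?_
    have h3 : ∀ r, gg S n z k (gl {z + 1 + k} b (Function.update (fun _ => 0) (z + 1 + k) r)) =
        ((hit n (S b) (z + 1 + k) r).card : ℝ) - (S b).card / ((z + 1 + k : ℕ) : ℝ) := by
      intro r
      unfold gg
      rw [if_pos hp]
      have e1 : S (gl {z + 1 + k} b (Function.update (fun _ => 0) (z + 1 + k) r)) = S b := by
        refine hS _ _ fun q hq _ => ?_
        unfold gl
        rw [if_neg]
        rw [mem_singleton]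
        omega
      have e2 : gl {z + 1 + k} b (Function.update (fun _ => 0) (z + 1 + k) r) (z + 1 + k) = r := by
        unfold gl
        rw [if_pos (mem_singleton_self _), Function.update_self]
      rw [e1, e2]
    rw [sum_congr rfl fun r _ => h3 r, sum_sub_distrib, sum_const, card_range, nsmul_eq_mul]
    have h4 : (∑ r ∈ range (z + 1 + k), ((hit n (S b) (z + 1 + k) r).card : ℝ)) = ((S b).card : ℝ) := by
      have h5 := card_eq_sum_card_fiberwise (s := S b) (t := range (z + 1 + k))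
        (f := fun v => (2 * n - v) % (z + 1 + k)) (fun v _ => by
          simp only [coe_range, Set.mem_Iio]
          exact Nat.mod_lt _ (by omega))
      rw [h5]
      push_cast
      exact sum_congr rfl fun r _ => rfl
    rw [h4, mul_div_cancel₀]
    · ring
    · positivity
  · rw [if_neg hp]
    refine le_of_eq ?_
    unfold Ev
    refine mul_eq_zero_of_right _ (sum_eq_zero fun b' _ => ?_)
    unfold gg
    rw [if_neg hp]

theorem gg_bound (S : (ℕ → ℕ) → Finset ℕ) (n x L z k : ℕ) (b : ℕ → ℕ) (u : ℝ)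
    (hS : ∀ v ∈ S b, x < v ∧ v ≤ x + L ∧ v ≤ 2 * n) (hu : (L : ℝ) / ((z + 1 + k : ℕ) : ℝ) + 1 ≤ u) :
    |gg S n z k b| ≤ u := by
  have hL : (0 : ℝ) ≤ (L : ℝ) / ((z + 1 + k : ℕ) : ℝ) := by positivity
  unfold gg
  split_ifs with hp
  · have h1 : (hit n (S b) (z + 1 + k) (b (z + 1 + k))).card ≤ L / (z + 1 + k) + 1 := by
      refine class_card _ x L (z + 1 + k) (2 * n) (b (z + 1 + k)) (by omega) fun v hv => ?_
      unfold hit at hv
      rw [Finset.mem_filter] at hv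
      obtain ⟨a1, a2, a3⟩ := hS v hv.1
      exact ⟨a1, a2, a3, hv.2⟩
    have h2 : ((hit n (S b) (z + 1 + k) (b (z + 1 + k))).card : ℝ) ≤ (L : ℝ) / ((z + 1 + k : ℕ) : ℝ) + 1 := by
      have h1' : ((hit n (S b) (z + 1 + k) (b (z + 1 + k))).card : ℝ) ≤ ((L / (z + 1 + k) + 1 : ℕ) : ℝ) := by
        exact_mod_cast h1
      refine h1'.trans ?_
      rw [Nat.cast_add, Nat.cast_one]
      have := @Nat.cast_div_le ℝ _ _ _ L (z + 1 + k)
      linarith
    have h3 : (S b).card ≤ L := by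
      calc (S b).card ≤ (Ioc x (x + L)).card := card_le_card fun v hv => by
            obtain ⟨a1, a2, _⟩ := hS v hv
            exact Finset.mem_Ioc.2 ⟨a1, a2⟩
        _ = L := by simp
    have h4 : ((S b).card : ℝ) / ((z + 1 + k : ℕ) : ℝ) ≤ (L : ℝ) / ((z + 1 + k : ℕ) : ℝ) := by
      gcongr
    have h5 : (0 : ℝ) ≤ ((S b).card : ℝ) / ((z + 1 + k : ℕ) : ℝ) := by positivity
    have h6 : (0 : ℝ) ≤ ((hit n (S b) (z + 1 + k) (b (z + 1 + k))).card : ℝ) := by positivity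
    rw [abs_le]
    constructor <;> linarith
  · rw [abs_zero]
    linarith

theorem gg_sum (S : (ℕ → ℕ) → Finset ℕ) (n z Z : ℕ) (b : ℕ → ℕ) :
    ∑ k ∈ range (Z - z), gg S n z k b =
      (∑ q ∈ (Ioc z Z).filter Nat.Prime, ((hit n (S b) q (b q)).card : ℝ)) -
        (S b).card * ∑ q ∈ (Ioc z Z).filter Nat.Prime, 1 / (q : ℝ) := by
  rw [mul_sum, ← sum_sub_distrib, sum_filter]
  have h1 : Ioc z Z = Ico (z + 1) (Z + 1) := by
    ext v
    simp only [Finset.mem_Ioc, Finset.mem_Ico]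
    omega
  rw [h1, sum_Ico_eq_sum_range]
  have h2 : Z + 1 - (z + 1) = Z - z := by omega
  rw [h2]
  refine sum_congr rfl fun k _ => ?_
  unfold gg
  split_ifs with hp
  · ring
  · rfl

theorem lost (W : ℕ → ℕ) (n i z Z X X2 : ℕ) (b : ℕ → ℕ) (hW : ∀ v ∈ Ioc X X2, W (2 * n - v) ≤ z) :
    ((G1 W n i z X X2 b).card : ℝ) ≤ (G1 W n i Z X X2 b).card +
      ∑ q ∈ (Ioc z Z).filter Nat.Prime, ((hit n (G1 W n i z X X2 b) q (b q)).card : ℝ) := by
  have h1 : G1 W n i z X X2 b ⊆ G1 W n i Z X X2 b ∪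
      ((Ioc z Z).filter Nat.Prime).biUnion fun q => hit n (G1 W n i z X X2 b) q (b q) := by
    intro v hv
    rw [Finset.mem_union]
    by_cases hZ : v ∈ G1 W n i Z X X2 b
    · exact Or.inl hZ
    · refine Or.inr ?_
      have hv' := (mem_G1 W n i z X X2 b v).1 hv
      have h2 : ¬ Sv W Z b (2 * n - v) := fun h => hZ ((mem_G1 W n i Z X X2 b v).2 ⟨hv'.1, hv'.2.1, h⟩)
      unfold Sv at h2
      push Not at h2
      obtain ⟨q, hq, hp, he⟩ := h2
      have hzq : z < q := by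
        by_contra hc
        exact hv'.2.2 q (by omega) hp he
      have hWq : ¬ q ≤ W (2 * n - v) := by
        have := hW v hv'.1
        omega
      rw [if_neg hWq] at he
      refine Finset.mem_biUnion.2 ⟨q, Finset.mem_filter.2 ⟨Finset.mem_Ioc.2 ⟨hzq, hq⟩, hp⟩, ?_⟩
      unfold hit
      exact Finset.mem_filter.2 ⟨hv, he⟩
  have h3 := (card_le_card h1).trans (card_union_le _ _)
  have h4 : (((Ioc z Z).filter Nat.Prime).biUnion fun q => hit n (G1 W n i z X X2 b) q (b q)).card ≤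
      ∑ q ∈ (Ioc z Z).filter Nat.Prime, (hit n (G1 W n i z X X2 b) q (b q)).card := card_biUnion_le
  have h5 := h3.trans (Nat.add_le_add_left h4 _)
  exact_mod_cast h5

end THPN

open THPN in
theorem thp : S_THP := by
  intro hAZP hSQ hRAI W hW hWm
  have hW2 : ∀ᶠ n : ℕ in atTop, (W (2 * n) : ℝ) ≤ ((2 * n : ℕ) : ℝ) ^ (0.1 : ℝ) := by
    have h1 : Tendsto (fun n : ℕ => 2 * n) atTop atTop :=
      tendsto_atTop_mono (fun n => by
        simp only [id]
        omega) tendsto_id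
    exact h1.eventually hW
  filter_upwards [hSQ, hW2, ev_rpow 0.498 0.5 2 (by norm_num), ev_rpow 0.1 0.5 2 (by norm_num),
    ev_rpow 0.11 0.15 2 (by norm_num), ev_rpow 0.1 0.11 1 (by norm_num), eventually_ge_atTop 1]
    with n hsq hw2 e1 e2 e3 e4 hn1
  intro Ω _ P a hM i
  have hP : IsProbabilityMeasure P := hM.independent.isProbabilityMeasure
  obtain ⟨s1, s2, -, s4⟩ := hsq
  have hn0 : (0 : ℝ) < n := by exact_mod_cast hn1
  have hn1' : (1 : ℝ) ≤ n := by exact_mod_cast hn1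
  have hLn : (LL n : ℝ) ≤ (n : ℝ) ^ (0.998 : ℝ) := Nat.floor_le (Real.rpow_nonneg hn0.le _)
  have hLn' : LL n ≤ n := by
    have h1 : (n : ℝ) ^ (0.998 : ℝ) ≤ (n : ℝ) ^ (1 : ℝ) := Real.rpow_le_rpow_of_exponent_le hn1' (by norm_num)
    rw [Real.rpow_one] at h1
    exact_mod_cast hLn.trans h1
  have hYn : YY n ≤ n := Nat.div_le_self _ _
  have hx' : YY n + LL n ≤ 2 * n := by omega
  set z := z0 (YY n + LL n) with hz
  set Z := z0 (2 * n) with hZ
  have hzZ : z ≤ Z := z0_mono hx'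
  have hzlow : (n : ℝ) ^ (0.5 : ℝ) ≤ z := by
    refine s1.trans ?_
    exact_mod_cast z0_mono (Nat.le_add_right _ _)
  set S : (ℕ → ℕ) → Finset ℕ := fun b => G1 W n i z (YY n) (YY n + LL n) b with hS
  have hSdep : ∀ b b' : ℕ → ℕ, (∀ q ≤ z, q.Prime → b q = b' q) → S b = S b' := by
    intro b b' h
    exact G1_congr hRAI W n i (YY n) (YY n + LL n) h
  have hnh : (0 : ℝ) < (n : ℝ) ^ (0.5 : ℝ) := Real.rpow_pos_of_pos hn0 _
  have hub : ∀ k : ℕ, (LL n : ℝ) / ((z + 1 + k : ℕ) : ℝ) + 1 ≤ (n : ℝ) ^ (0.5 : ℝ) := by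
    intro k
    have h1 : (n : ℝ) ^ (0.5 : ℝ) ≤ ((z + 1 + k : ℕ) : ℝ) := by
      push_cast
      have : (0 : ℝ) ≤ k := Nat.cast_nonneg k
      linarith
    have h2 : (LL n : ℝ) / ((z + 1 + k : ℕ) : ℝ) ≤ (n : ℝ) ^ (0.998 : ℝ) / (n : ℝ) ^ (0.5 : ℝ) := by
      gcongr
    have h3 : (n : ℝ) ^ (0.998 : ℝ) / (n : ℝ) ^ (0.5 : ℝ) = (n : ℝ) ^ (0.498 : ℝ) := by
      rw [← Real.rpow_sub hn0]
      norm_num
    have h4 : (1 : ℝ) ≤ (n : ℝ) ^ (0.498 : ℝ) := Real.one_le_rpow hn1' (by norm_num)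
    rw [h3] at h2
    linarith
  have haz := hAZP Ω P a hM (EE z) (Z - z) ((n : ℝ) ^ (0.5 : ℝ)) ((n : ℝ) ^ (-0.75 : ℝ)) ((n : ℝ) ^ (0.9 : ℝ))
    (gg S n z) (EE_mono z) (fun k p hp => (Finset.mem_filter.1 hp).2) (Real.rpow_nonneg hn0.le _) hnh.le
    (by
      rw [← Real.rpow_add hn0]
      exact Real.rpow_le_one_of_one_le_of_nonpos hn1' (by norm_num))
    (fun k _ => gg_dep S n z k hSdep)
    (fun k _ b => gg_bound S n (YY n) (LL n) z k b _ (fun v hv => by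
      have h1 := Finset.mem_Ioc.1 ((mem_G1 W n i z (YY n) (YY n + LL n) b v).1 hv).1
      exact ⟨h1.1, h1.2, h1.2.trans hx'⟩) (hub k))
    (fun k _ b => gg_mean S n z k b hSdep)
  have hexp : ((Z - z : ℕ) : ℝ) * (((n : ℝ) ^ (-0.75 : ℝ)) ^ 2 * ((n : ℝ) ^ (0.5 : ℝ)) ^ 2) -
      (n : ℝ) ^ (-0.75 : ℝ) * (n : ℝ) ^ (0.9 : ℝ) ≤ -(n : ℝ) ^ (0.1 : ℝ) := by
    have h1 : ((Z - z : ℕ) : ℝ) ≤ (n : ℝ) ^ (0.61 : ℝ) := by
      refine le_trans ?_ s2
      exact_mod_cast Nat.sub_le _ _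
    have h2 : ((n : ℝ) ^ (-0.75 : ℝ)) ^ 2 * ((n : ℝ) ^ (0.5 : ℝ)) ^ 2 = (n : ℝ) ^ (-0.5 : ℝ) := by
      rw [← Real.rpow_natCast, ← Real.rpow_natCast, ← Real.rpow_mul hn0.le, ← Real.rpow_mul hn0.le,
        ← Real.rpow_add hn0]
      norm_num
    have h3 : (n : ℝ) ^ (-0.75 : ℝ) * (n : ℝ) ^ (0.9 : ℝ) = (n : ℝ) ^ (0.15 : ℝ) := by
      rw [← Real.rpow_add hn0]
      norm_num
    have h4 : (n : ℝ) ^ (0.61 : ℝ) * (n : ℝ) ^ (-0.5 : ℝ) = (n : ℝ) ^ (0.11 : ℝ) := by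
      rw [← Real.rpow_add hn0]
      norm_num
    have h5 : ((Z - z : ℕ) : ℝ) * (n : ℝ) ^ (-0.5 : ℝ) ≤ (n : ℝ) ^ (0.61 : ℝ) * (n : ℝ) ^ (-0.5 : ℝ) :=
      mul_le_mul_of_nonneg_right h1 (Real.rpow_nonneg hn0.le _)
    rw [h2, h3]
    rw [h4] at h5
    linarith
  have hsub : {ω | ((G1 W n i Z (YY n) (YY n + LL n) (fun q => a q ω)).card : ℝ) <
      1 / 2 * (G1 W n i z (YY n) (YY n + LL n) (fun q => a q ω)).card - (n : ℝ) ^ (0.9 : ℝ)} ⊆
      {ω | (n : ℝ) ^ (0.9 : ℝ) ≤ ∑ k ∈ range (Z - z), gg S n z k (fun q => a q ω)} := by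
    intro ω hω
    simp only [Set.mem_ofPred_eq] at hω ⊢
    rw [gg_sum]
    have hWv : ∀ v ∈ Ioc (YY n) (YY n + LL n), W (2 * n - v) ≤ z := by
      intro v _
      have h1 : (W (2 * n - v) : ℝ) ≤ W (2 * n) := by exact_mod_cast hWm (Nat.sub_le _ _)
      have h2 : ((2 * n : ℕ) : ℝ) ^ (0.1 : ℝ) ≤ 2 * (n : ℝ) ^ (0.1 : ℝ) := by
        push_cast
        rw [Real.mul_rpow (by norm_num) hn0.le]
        have h3 : (2 : ℝ) ^ (0.1 : ℝ) ≤ 2 := by
          calc (2 : ℝ) ^ (0.1 : ℝ) ≤ (2 : ℝ) ^ (1 : ℝ) :=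
                Real.rpow_le_rpow_of_exponent_le (by norm_num) (by norm_num)
            _ = 2 := Real.rpow_one 2
        exact mul_le_mul_of_nonneg_right h3 (Real.rpow_nonneg hn0.le _)
      have h4 : (W (2 * n - v) : ℝ) ≤ z := by linarith
      exact_mod_cast h4
    have hl := lost W n i z Z (YY n) (YY n + LL n) (fun q => a q ω) hWv
    have hfr : ∑ q ∈ (Ioc z Z).filter Nat.Prime, 1 / (q : ℝ) ≤ 1 / 4 := s4
    have hSc : (0 : ℝ) ≤ (G1 W n i z (YY n) (YY n + LL n) (fun q => a q ω)).card := Nat.cast_nonneg _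
    have h6 := mul_le_mul_of_nonneg_left hfr hSc
    simp only [hS]
    linarith
  calc _ ≤ P.real {ω | (n : ℝ) ^ (0.9 : ℝ) ≤ ∑ k ∈ range (Z - z), gg S n z k (fun q => a q ω)} :=
        measureReal_mono hsub
    _ ≤ _ := haz
    _ ≤ Real.exp (-(n : ℝ) ^ (0.1 : ℝ)) := Real.exp_le_exp.2 hexp

end Pool.Agent.H531.IX
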