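import Pool.Agent.H531.IX.Stm5
import Pool.Agent.H531.IX.THP

set_option autoImplicit false

/-! # Project IX, `S_THP5` (helper299) -/

open Finset MeasureTheory ProbabilityTheory Filter Topology

namespace Pool.Agent.H531.IX

open Pool.Agent.T2H31.HV (Pt Ev Dep sum_Pt_insert Pt_empty)
open Pool.Agent.T2H32.BF (Model z0 V z0_mono)

open THPN in
theorem thp5 : S_THP5 := by
  intro hAZP hSQ hRAI C ε hε W hW hWm
  have hW2 : ∀ᶠ n : ℕ in atTop, (W (2 * n) : ℝ) ≤ ((2 * n : ℕ) : ℝ) ^ (0.1 : ℝ) := by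
    have h1 : Tendsto (fun n : ℕ => 2 * n) atTop atTop :=
      tendsto_atTop_mono (fun n => by
        simp only [id]
        omega) tendsto_id
    exact h1.eventually hW
  filter_upwards [hSQ C ε hε, hW2, ev_rpow 0.1 0.5 2 (by norm_num),
    ev_rpow 0.11 0.15 5 (by norm_num), ev_rpow 0.1 0.11 1 (by norm_num),
    ev_rpow (-0.25) 0 2 (by norm_num), eventually_ge_atTop 1]
    with n hsq0 hw2 e2 e3 e4 e5 hn1
  intro Ω _ P a hM i x L hxl hxL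
  have hP : IsProbabilityMeasure P := hM.independent.isProbabilityMeasure
  obtain ⟨s1, s2, -, s4⟩ := hsq0 x L hxl hxL
  have hn0 : (0 : ℝ) < n := by exact_mod_cast hn1
  have hn1' : (1 : ℝ) ≤ n := by exact_mod_cast hn1
  have hLn' : L ≤ n := by omega
  have hLn : (L : ℝ) ≤ n := by exact_mod_cast hLn'
  have hx' : x + L ≤ 2 * n := by omega
  set z := z0 (x + L) with hz
  set Z := z0 (2 * n) with hZ
  have hzZ : z ≤ Z := z0_mono hx'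
  have hzlow : (n : ℝ) ^ (0.5 : ℝ) ≤ z := by
    refine s1.trans ?_
    exact_mod_cast z0_mono (Nat.le_add_right _ _)
  set S : (ℕ → ℕ) → Finset ℕ := fun b => G1 W n i z x (x + L) b with hS
  have hSdep : ∀ b b' : ℕ → ℕ, (∀ q ≤ z, q.Prime → b q = b' q) → S b = S b' := by
    intro b b' h
    exact G1_congr hRAI W n i x (x + L) h
  have hnh : (0 : ℝ) < (n : ℝ) ^ (0.5 : ℝ) := Real.rpow_pos_of_pos hn0 _
  have hub : ∀ k : ℕ, (L : ℝ) / ((z + 1 + k : ℕ) : ℝ) + 1 ≤ 2 * (n : ℝ) ^ (0.5 : ℝ) := by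
    intro k
    have h1 : (n : ℝ) ^ (0.5 : ℝ) ≤ ((z + 1 + k : ℕ) : ℝ) := by
      push_cast
      have : (0 : ℝ) ≤ k := Nat.cast_nonneg k
      linarith
    have h2 : (L : ℝ) / ((z + 1 + k : ℕ) : ℝ) ≤ (n : ℝ) / (n : ℝ) ^ (0.5 : ℝ) := by
      gcongr
    have h3 : (n : ℝ) / (n : ℝ) ^ (0.5 : ℝ) = (n : ℝ) ^ (0.5 : ℝ) := by
      rw [div_eq_iff hnh.ne', ← Real.rpow_add hn0]
      norm_num
    have h4 : (1 : ℝ) ≤ (n : ℝ) ^ (0.5 : ℝ) := Real.one_le_rpow hn1' (by norm_num)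
    rw [h3] at h2
    linarith
  have haz := hAZP Ω P a hM (EE z) (Z - z) (2 * (n : ℝ) ^ (0.5 : ℝ)) ((n : ℝ) ^ (-0.75 : ℝ))
    ((n : ℝ) ^ (0.9 : ℝ))
    (gg S n z) (EE_mono z) (fun k p hp => (Finset.mem_filter.1 hp).2) (Real.rpow_nonneg hn0.le _)
    (by positivity)
    (by
      have h1 : (n : ℝ) ^ (-0.75 : ℝ) * (2 * (n : ℝ) ^ (0.5 : ℝ)) = 2 * (n : ℝ) ^ (-0.25 : ℝ) := by
        rw [mul_left_comm, ← Real.rpow_add hn0]
        norm_num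
      rw [h1]
      rw [Real.rpow_zero] at e5
      exact e5)
    (fun k _ => gg_dep S n z k hSdep)
    (fun k _ b => gg_bound S n x L z k b _ (fun v hv => by
      have h1 := Finset.mem_Ioc.1 ((mem_G1 W n i z x (x + L) b v).1 hv).1
      exact ⟨h1.1, h1.2, h1.2.trans hx'⟩) (hub k))
    (fun k _ b => gg_mean S n z k b hSdep)
  have hexp : ((Z - z : ℕ) : ℝ) * (((n : ℝ) ^ (-0.75 : ℝ)) ^ 2 * (2 * (n : ℝ) ^ (0.5 : ℝ)) ^ 2) -
      (n : ℝ) ^ (-0.75 : ℝ) * (n : ℝ) ^ (0.9 : ℝ) ≤ -(n : ℝ) ^ (0.1 : ℝ) := by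
    have h1 : ((Z - z : ℕ) : ℝ) ≤ (n : ℝ) ^ (0.61 : ℝ) := by
      refine le_trans ?_ s2
      exact_mod_cast Nat.sub_le _ _
    have h2 : ((n : ℝ) ^ (-0.75 : ℝ)) ^ 2 * (2 * (n : ℝ) ^ (0.5 : ℝ)) ^ 2 =
        4 * (n : ℝ) ^ (-0.5 : ℝ) := by
      rw [mul_pow, ← Real.rpow_natCast ((n : ℝ) ^ (-0.75 : ℝ)),
        ← Real.rpow_natCast ((n : ℝ) ^ (0.5 : ℝ)), ← Real.rpow_mul hn0.le, ← Real.rpow_mul hn0.le,
        mul_left_comm, ← Real.rpow_add hn0]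
      norm_num
    have h3 : (n : ℝ) ^ (-0.75 : ℝ) * (n : ℝ) ^ (0.9 : ℝ) = (n : ℝ) ^ (0.15 : ℝ) := by
      rw [← Real.rpow_add hn0]
      norm_num
    have h4 : (n : ℝ) ^ (0.61 : ℝ) * (n : ℝ) ^ (-0.5 : ℝ) = (n : ℝ) ^ (0.11 : ℝ) := by
      rw [← Real.rpow_add hn0]
      norm_num
    have h5 : ((Z - z : ℕ) : ℝ) * (n : ℝ) ^ (-0.5 : ℝ) ≤ (n : ℝ) ^ (0.61 : ℝ) * (n : ℝ) ^ (-0.5 : ℝ) :=
      mul_le_mul_of_nonneg_right h1 (Real.rpow_nonneg hn0.le _)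
    rw [h2, h3]
    rw [h4] at h5
    linarith
  have hsub : {ω | ((G1 W n i Z x (x + L) (fun q => a q ω)).card : ℝ) <
      (1 - ε) * (G1 W n i z x (x + L) (fun q => a q ω)).card - (n : ℝ) ^ (0.9 : ℝ)} ⊆
      {ω | (n : ℝ) ^ (0.9 : ℝ) ≤ ∑ k ∈ range (Z - z), gg S n z k (fun q => a q ω)} := by
    intro ω hω
    simp only [Set.mem_ofPred_eq] at hω ⊢
    rw [gg_sum]
    have hWv : ∀ v ∈ Ioc x (x + L), W (2 * n - v) ≤ z := by
      intro v _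
      have h1 : (W (2 * n - v) : ℝ) ≤ W (2 * n) := by exact_mod_cast hWm (Nat.sub_le _ _)
      have h2 : ((2 * n : ℕ) : ℝ) ^ (0.1 : ℝ) ≤ 2 * (n : ℝ) ^ (0.1 : ℝ) := by
        push_cast
        rw [Real.mul_rpow (by norm_num) hn0.le]
        have h3 : (2 : ℝ) ^ (0.1 : ℝ) ≤ 2 := by
          calc (2 : ℝ) ^ (0.1 : ℝ) ≤ (2 : ℝ) ^ (1 : ℝ) :=
                Real.rpow_le_rpow_of_exponent_le (by norm_num) (by norm_num)
            _ = 2 := Real.rpow_one 2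
        exact mul_le_mul_of_nonneg_right h3 (Real.rpow_nonneg hn0.le _)
      have h4 : (W (2 * n - v) : ℝ) ≤ z := by linarith
      exact_mod_cast h4
    have hl := lost W n i z Z x (x + L) (fun q => a q ω) hWv
    have hfr : ∑ q ∈ (Ioc z Z).filter Nat.Prime, 1 / (q : ℝ) ≤ ε := s4
    have hSc : (0 : ℝ) ≤ (G1 W n i z x (x + L) (fun q => a q ω)).card := Nat.cast_nonneg _
    have h6 := mul_le_mul_of_nonneg_left hfr hSc
    simp only [hS]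
    linarith
  calc _ ≤ P.real {ω | (n : ℝ) ^ (0.9 : ℝ) ≤ ∑ k ∈ range (Z - z), gg S n z k (fun q => a q ω)} :=
        measureReal_mono hsub
    _ ≤ _ := haz
    _ ≤ Real.exp (-(n : ℝ) ^ (0.1 : ℝ)) := Real.exp_le_exp.2 hexp

end Pool.Agent.H531.IX
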