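import Pool.Agent.H531.IX.Stm7

set_option autoImplicit false

/-!
# TV1: the distribution of the number of the removed elements is smooth
-/

open Finset MeasureTheory ProbabilityTheory Filter Topology

namespace Pool.Agent.H531.IX

open Pool.Agent.T2H31.HV (Pt Ev Dep)

namespace TV1N

theorem Ev_nonneg (L : Finset ℕ) (F : (ℕ → ℕ) → ℝ) (h : ∀ b, 0 ≤ F b) : 0 ≤ Ev L F := by
  unfold Ev
  exact mul_nonneg (inv_nonneg.2 (prod_nonneg fun p _ => Nat.cast_nonneg _)) (sum_nonneg fun b _ => h b)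

theorem Ev_sum {ι : Type} (L : Finset ℕ) (s : Finset ι) (F : ι → (ℕ → ℕ) → ℝ) :
    Ev L (fun b => ∑ i ∈ s, F i b) = ∑ i ∈ s, Ev L (F i) := by
  unfold Ev
  rw [sum_comm, mul_sum]

theorem Ev_sub (L : Finset ℕ) (F G : (ℕ → ℕ) → ℝ) :
    Ev L F - Ev L G = Ev L (fun b => F b - G b) := by
  unfold Ev
  rw [← mul_sub, ← sum_sub_distrib]

theorem Ev_congr (L : Finset ℕ) (F G : (ℕ → ℕ) → ℝ) (h : ∀ b, F b = G b) : Ev L F = Ev L G := by
  have : F = G := funext h
  rw [this]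

theorem Ev_zero (L : Finset ℕ) (F : (ℕ → ℕ) → ℝ) (h : ∀ b, F b = 0) : Ev L F = 0 := by
  unfold Ev
  rw [sum_eq_zero fun b _ => h b, mul_zero]

/-- every prime of `L` removes at most one element -/
theorem DD_le (L O : Finset ℕ) (S : ℕ → ℕ → Prop) [∀ q v, Decidable (S q v)] (b : ℕ → ℕ)
    (hinj : ∀ q ∈ L, ∀ v ∈ O, ∀ v' ∈ O, v % q = v' % q → v = v') : DD L O S b ≤ L.card := by
  classical
  unfold DD
  have h : (O.filter fun v => ∃ q ∈ L, S q v ∧ v % q = b q) ⊆
      L.biUnion (fun q => O.filter fun v => v % q = b q) := by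
    intro v hv
    rw [mem_filter] at hv
    obtain ⟨hvO, q, hq, _, hb⟩ := hv
    exact mem_biUnion.2 ⟨q, hq, mem_filter.2 ⟨hvO, hb⟩⟩
  refine (card_le_card h).trans ?_
  refine card_biUnion_le.trans ?_
  calc ∑ q ∈ L, (O.filter fun v => v % q = b q).card ≤ ∑ q ∈ L, 1 := by
        refine sum_le_sum fun q hq => ?_
        rw [card_le_one]
        intro v hv v' hv'
        rw [mem_filter] at hv hv'
        exact hinj q hq v hv.1 v' hv'.1 (hv.2.trans hv'.2.symm)
    _ = L.card := by simp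

/-- LOC for a finite set of values -/
theorem half (hLOC : S_LOC) (L O : Finset ℕ) (S : ℕ → ℕ → Prop) [∀ q v, Decidable (S q v)] (c : ℝ)
    (h1 : ∀ q ∈ L, q.Prime ∧ 2 * O.card ≤ q) (h2 : 0 < c)
    (h3 : ∀ q ∈ L, ∀ v ∈ O, ∀ v' ∈ O, v % q = v' % q → v = v')
    (h4 : c ≤ ∑ q ∈ L, ((O.filter (S q)).card : ℝ) / q) (Z : Finset ℕ) :
    |∑ a ∈ Z, (dd L O S a - dd L O S (a + 1))| ≤ 2 / √c + 2 * O.card * (∑ q ∈ L, 1 / (q : ℝ)) ^ 2 := by
  classical
  let F : ℕ → ℝ := fun j => ∑ a ∈ Z, if j = a + 1 then (1 : ℝ) else 0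
  have hF01 : ∀ j, 0 ≤ F j ∧ F j ≤ 1 := by
    intro j
    refine ⟨sum_nonneg fun a _ => by split_ifs <;> norm_num, ?_⟩
    have e0 : F j = if 1 ≤ j ∧ j - 1 ∈ Z then 1 else 0 := by
      show ∑ a ∈ Z, (if j = a + 1 then (1 : ℝ) else 0) = _
      by_cases hj : 1 ≤ j
      · rw [show (if 1 ≤ j ∧ j - 1 ∈ Z then (1 : ℝ) else 0) = if j - 1 ∈ Z then 1 else 0 by simp [hj]]
        rw [← sum_ite_eq Z (j - 1) (fun _ => (1 : ℝ))]
        refine sum_congr rfl fun a _ => ?_
        by_cases h : j = a + 1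
        · rw [if_pos h, if_pos (by omega)]
        · rw [if_neg h, if_neg (by omega)]
      · rw [if_neg (fun h => hj h.1)]
        refine sum_eq_zero fun a _ => ?_
        rw [if_neg (by omega)]
    rw [e0]
    split_ifs <;> norm_num
  have key := hLOC L O S F c hF01 h1 h2 h3 h4
  have e1 : Ev L (fun b => F (DD L O S b)) = ∑ a ∈ Z, dd L O S (a + 1) := by
    have e := Ev_sum L Z (fun a b => if DD L O S b = a + 1 then (1 : ℝ) else 0)
    exact e
  have e2 : Ev L (fun b => F (DD L O S b + 1)) = ∑ a ∈ Z, dd L O S a := by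
    have e := Ev_sum L Z (fun a b => if DD L O S b + 1 = a + 1 then (1 : ℝ) else 0)
    refine Eq.trans e (sum_congr rfl fun a _ => ?_)
    unfold dd
    refine Ev_congr L _ _ fun b => ?_
    by_cases h : DD L O S b = a
    · rw [if_pos (by omega), if_pos h]
    · rw [if_neg (by omega), if_neg h]
  rw [sum_sub_distrib, ← e1, ← e2, abs_sub_comm]
  exact key

/-- `dd` is small -/
theorem dd_le (hLOC : S_LOC) (L O : Finset ℕ) (S : ℕ → ℕ → Prop) [∀ q v, Decidable (S q v)] (c : ℝ)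
    (h1 : ∀ q ∈ L, q.Prime ∧ 2 * O.card ≤ q) (h2 : 0 < c)
    (h3 : ∀ q ∈ L, ∀ v ∈ O, ∀ v' ∈ O, v % q = v' % q → v = v')
    (h4 : c ≤ ∑ q ∈ L, ((O.filter (S q)).card : ℝ) / q) (a : ℕ) :
    dd L O S a ≤ 2 / √c + 2 * O.card * (∑ q ∈ L, 1 / (q : ℝ)) ^ 2 := by
  classical
  let F : ℕ → ℝ := fun j => if j ≤ a then (1 : ℝ) else 0
  have hF01 : ∀ j, 0 ≤ F j ∧ F j ≤ 1 := by
    intro j
    show 0 ≤ (if j ≤ a then (1 : ℝ) else 0) ∧ (if j ≤ a then (1 : ℝ) else 0) ≤ 1
    split_ifs <;> norm_num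
  have key := hLOC L O S F c hF01 h1 h2 h3 h4
  have e1 : dd L O S a = Ev L (fun b => F (DD L O S b)) - Ev L (fun b => F (DD L O S b + 1)) := by
    rw [Ev_sub]
    unfold dd
    refine Ev_congr L _ _ fun b => ?_
    show (if DD L O S b = a then (1 : ℝ) else 0) =
      (if DD L O S b ≤ a then (1 : ℝ) else 0) - (if DD L O S b + 1 ≤ a then (1 : ℝ) else 0)
    by_cases h : DD L O S b = a
    · rw [if_pos h, if_pos (by omega), if_neg (by omega)]
      norm_num
    · by_cases h' : DD L O S b ≤ a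
      · rw [if_neg h, if_pos h', if_pos (by omega)]
        norm_num
      · rw [if_neg h, if_neg h', if_neg (by omega)]
        norm_num
  rw [e1]
  exact (le_abs_self _).trans key

end TV1N

theorem tv1 : S_TV1 := by
  intro hLOC L O S _ c h1 h2 h3 h4
  classical
  refine ⟨fun a => ⟨?_, TV1N.dd_le hLOC L O S c h1 h2 h3 h4 a⟩, ?_, ?_⟩
  · unfold dd
    refine TV1N.Ev_nonneg L _ fun b => ?_
    split_ifs <;> norm_num
  · intro a ha
    unfold dd
    refine TV1N.Ev_zero L _ fun b => ?_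
    have h := TV1N.DD_le L O S b h3
    rw [if_neg (by omega)]
  · intro Z
    let P : ℕ → Prop := fun a => 0 ≤ dd L O S a - dd L O S (a + 1)
    have hA := TV1N.half hLOC L O S c h1 h2 h3 h4 (Z.filter P)
    have hB := TV1N.half hLOC L O S c h1 h2 h3 h4 (Z.filter fun a => ¬ P a)
    have e : ∑ a ∈ Z, |dd L O S a - dd L O S (a + 1)| =
        ∑ a ∈ Z.filter P, (dd L O S a - dd L O S (a + 1)) +
        -∑ a ∈ Z.filter (fun a => ¬ P a), (dd L O S a - dd L O S (a + 1)) := by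
      rw [← sum_filter_add_sum_filter_not Z P, ← sum_neg_distrib]
      congr 1
      · refine sum_congr rfl fun a ha => ?_
        exact abs_of_nonneg (mem_filter.1 ha).2
      · refine sum_congr rfl fun a ha => ?_
        exact abs_of_nonpos (le_of_lt (not_le.1 (mem_filter.1 ha).2))
    rw [e, two_mul]
    exact add_le_add ((le_abs_self _).trans hA) ((neg_le_abs _).trans hB)

end Pool.Agent.H531.IX
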