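import Pool.Agent.H531.IX.Stm4

set_option autoImplicit false

/-!
# `S_TWO`: both summands with iterated index (by helper719)
-/

open Finset MeasureTheory ProbabilityTheory Filter Topology

namespace Pool.Agent.H531.IX

open Pool.Agent.T2H31.HV (Pt Ev Dep)
open Pool.Agent.T2H32.BF (Model z0 V)
open Pool.Agent.H559.BS (Limit)
open Pool.Agent.H559.HY (OK WW Cut)
open Pool.Agent.T2H32.GB (C2)

namespace TWON

theorem ev_pow (a K : ℝ) (ha : 0 < a) : ∀ᶠ X : ℕ in atTop, K ≤ (X : ℝ) ^ a :=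
  ((tendsto_rpow_atTop ha).comp tendsto_natCast_atTop_atTop).eventually_ge_atTop K

theorem pin_le (A : Set ℕ) (p : ℕ) : pin A p ≤ p := by
  unfold pin
  have h1 : (A ∩ Set.Icc 1 p).ncard ≤ (Set.Icc 1 p).ncard :=
    Set.ncard_le_ncard Set.inter_subset_right (Set.finite_Icc 1 p)
  have h2 : (Set.Icc 1 p).ncard = p := by
    rw [← Finset.coe_Icc, Set.ncard_coe_finset]
    simp
  omega

/-- the sizes of `XX`, `YY`, `LL` -/
theorem sizes : ∀ᶠ n : ℕ in atTop, n ≤ XX n ∧ XX n ≤ 2 * n ∧ YY n + LL n ≤ n - 1 ∧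
    YY n + LL n ≤ XX n ∧ XX n + YY n + LL n + 1 = 2 * n ∧ LL n ≤ XX n := by
  filter_upwards [ev_pow 0.002 8 (by norm_num), eventually_ge_atTop 16] with n h1 h2
  have hn0 : (0 : ℝ) < n := by exact_mod_cast (by omega : 0 < n)
  have h3 : (LL n : ℝ) ≤ (n : ℝ) ^ (0.998 : ℝ) := Nat.floor_le (by positivity)
  have h4 : (n : ℝ) ^ (0.998 : ℝ) * (n : ℝ) ^ (0.002 : ℝ) = n := by
    rw [← Real.rpow_add hn0]
    norm_num
  have h5 : (8 : ℝ) * LL n ≤ n := by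
    have h6 : (0 : ℝ) ≤ (n : ℝ) ^ (0.998 : ℝ) := by positivity
    nlinarith
  have h6 : 8 * LL n ≤ n := by exact_mod_cast h5
  have h7 : XX n = 2 * n - YY n - LL n - 1 := rfl
  have h8 : YY n = n / 2 := rfl
  omega

/-- the numbers -/
theorem nums : ∀ᶠ n : ℕ in atTop, ∀ X : ℕ, n ≤ X → X ≤ 2 * n →
    (n : ℝ) ^ (0.002 : ℝ) ≤ hX X ∧ (hX X : ℝ) ≤ (n : ℝ) ^ (0.1 : ℝ) ∧
    (X : ℝ) ^ (-(0.001 : ℝ)) ≤ (n : ℝ) ^ (-(0.0005 : ℝ)) ∧
    (n : ℝ) ^ (0.31 : ℝ) + hX X + 1 ≤ (X : ℝ) ^ (0.9 : ℝ) ∧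
    3 * uX X + hX X ≤ (3 / 4 : ℝ) * X ∧
    (n : ℝ) ^ (0.99 : ℝ) ≤ 1 / 2 * ((X : ℝ) ^ (-(0.001 : ℝ)) * (n : ℝ) ^ (0.996 : ℝ)) -
      (X : ℝ) ^ (0.99 : ℝ) := by
  filter_upwards [ev_pow 0.003 2 (by norm_num), ev_pow 0.005 12 (by norm_num),
    ev_pow 0.095 2 (by norm_num), ev_pow 0.489 8 (by norm_num), ev_pow 0.59 3 (by norm_num),
    ev_pow 0.8 3 (by norm_num), ev_pow 0.9 3 (by norm_num),
    eventually_ge_atTop 1] with n e1 e2 e3 e4 e5 e6 e7 hn1 X hX1 hX2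
  have hn0 : (0 : ℝ) < n := by exact_mod_cast (by omega : 0 < n)
  have hn1' : (1 : ℝ) ≤ n := by exact_mod_cast hn1
  have hXn : (n : ℝ) ≤ X := by exact_mod_cast hX1
  have hX2n : (X : ℝ) ≤ 2 * n := by exact_mod_cast hX2
  have hX0 : (0 : ℝ) < X := by linarith
  have hX1' : (1 : ℝ) ≤ X := by linarith
  have k1 : (hX X : ℝ) ≤ (X : ℝ) ^ (0.005 : ℝ) := Nat.floor_le (by positivity)
  have k2 : (X : ℝ) ^ (0.005 : ℝ) < hX X + 1 := Nat.lt_floor_add_one _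
  have k3 : (uX X : ℝ) ≤ (X : ℝ) ^ (0.511 : ℝ) := Nat.floor_le (by positivity)
  have two : ∀ a : ℝ, 0 ≤ a → a ≤ 1 → (X : ℝ) ^ a ≤ 2 * (n : ℝ) ^ a := by
    intro a ha0 ha1
    calc (X : ℝ) ^ a ≤ (2 * n : ℝ) ^ a := Real.rpow_le_rpow hX0.le hX2n ha0
      _ = 2 ^ a * (n : ℝ) ^ a := Real.mul_rpow (by norm_num) hn0.le
      _ ≤ 2 * (n : ℝ) ^ a := by
        apply mul_le_mul_of_nonneg_right _ (by positivity)
        calc (2 : ℝ) ^ a ≤ 2 ^ (1 : ℝ) := Real.rpow_le_rpow_of_exponent_le (by norm_num) ha1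
          _ = 2 := Real.rpow_one 2
  have nle : ∀ a : ℝ, 0 ≤ a → (n : ℝ) ^ a ≤ (X : ℝ) ^ a := fun a ha =>
    Real.rpow_le_rpow hn0.le hXn ha
  have hexp : ∀ a b c : ℝ, a + b = c → (n : ℝ) ^ a * (n : ℝ) ^ b = (n : ℝ) ^ c := by
    intro a b c h
    rw [← Real.rpow_add hn0, h]
  have hge : ∀ a : ℝ, 0 ≤ a → 1 ≤ (n : ℝ) ^ a := fun a ha => Real.one_le_rpow hn1' ha
  have hpos : ∀ a : ℝ, 0 < (n : ℝ) ^ a := fun a => Real.rpow_pos_of_pos hn0 a
  refine ⟨?_, ?_, ?_, ?_, ?_, ?_⟩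
  · have h1 := nle 0.005 (by norm_num)
    have h2 := hexp 0.002 0.003 0.005 (by norm_num)
    have h3 := hge 0.002 (by norm_num)
    nlinarith [hpos 0.002]
  · have h1 := two 0.005 (by norm_num) (by norm_num)
    have h2 := hexp 0.005 0.095 0.1 (by norm_num)
    nlinarith [hpos 0.005]
  · calc (X : ℝ) ^ (-(0.001 : ℝ)) ≤ (n : ℝ) ^ (-(0.001 : ℝ)) :=
          Real.rpow_le_rpow_of_nonpos hn0 hXn (by norm_num)
      _ ≤ (n : ℝ) ^ (-(0.0005 : ℝ)) := Real.rpow_le_rpow_of_exponent_le hn1' (by norm_num)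
  · have h1 := nle 0.9 (by norm_num)
    have h2 := hexp 0.31 0.59 0.9 (by norm_num)
    have h3 := two 0.005 (by norm_num) (by norm_num)
    have h4 := hexp 0.1 0.8 0.9 (by norm_num)
    have h5 := hexp 0.005 0.095 0.1 (by norm_num)
    nlinarith [hpos 0.31, hpos 0.1, hpos 0.005]
  · have h1 : (X : ℝ) ^ (0.511 : ℝ) * (X : ℝ) ^ (0.489 : ℝ) = X := by
      rw [← Real.rpow_add hX0]
      norm_num
    have h2 := nle 0.489 (by norm_num)
    have h3 : (X : ℝ) ^ (0.005 : ℝ) ≤ (X : ℝ) ^ (0.511 : ℝ) :=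
      Real.rpow_le_rpow_of_exponent_le hX1' (by norm_num)
    have h4 : (0 : ℝ) < (X : ℝ) ^ (0.511 : ℝ) := Real.rpow_pos_of_pos hX0 _
    nlinarith
  · have h1 := two 0.99 (by norm_num) (by norm_num)
    have h2 : (n : ℝ) ^ (-(0.001 : ℝ)) / 2 ≤ (X : ℝ) ^ (-(0.001 : ℝ)) := by
      calc (n : ℝ) ^ (-(0.001 : ℝ)) / 2 ≤ (n : ℝ) ^ (-(0.001 : ℝ)) * 2 ^ (-(0.001 : ℝ)) := by
            have h3 : (1 / 2 : ℝ) ≤ 2 ^ (-(0.001 : ℝ)) := by
              calc (1 / 2 : ℝ) = 2 ^ (-(1 : ℝ)) := by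
                    rw [Real.rpow_neg_one]; norm_num
                _ ≤ 2 ^ (-(0.001 : ℝ)) := Real.rpow_le_rpow_of_exponent_le (by norm_num) (by norm_num)
            have := mul_le_mul_of_nonneg_left h3 (hpos (-(0.001 : ℝ))).le
            linarith
        _ = (n * 2 : ℝ) ^ (-(0.001 : ℝ)) := (Real.mul_rpow hn0.le (by norm_num)).symm
        _ ≤ (X : ℝ) ^ (-(0.001 : ℝ)) :=
            Real.rpow_le_rpow_of_nonpos hX0 (by linarith) (by norm_num)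
    have h3 := hexp (-(0.001)) 0.996 0.995 (by norm_num)
    have h4 := hexp 0.99 0.005 0.995 (by norm_num)
    have h5 := mul_le_mul_of_nonneg_right h2 (hpos 0.996).le
    nlinarith [hpos 0.99]

theorem cnt_lo (A : Set ℕ) (hC : Tendsto (fun x : ℕ => (pin A x : ℝ) * Real.log x / x) atTop (𝓝 1)) :
    ∀ᶠ X : ℕ in atTop, (X : ℝ) ^ (0.9 : ℝ) ≤ pin A X := by
  have h1 : ∀ᶠ X : ℕ in atTop, (1 / 2 : ℝ) < (pin A X : ℝ) * Real.log X / X :=
    hC.eventually (lt_mem_nhds (by norm_num))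
  filter_upwards [h1, ev_pow 0.05 40 (by norm_num), eventually_ge_atTop 2] with X h1 h2 h3
  have hX0 : (0 : ℝ) < X := by exact_mod_cast (by omega : 0 < X)
  have hX2 : (2 : ℝ) ≤ X := by exact_mod_cast h3
  have hlog : 0 < Real.log X := Real.log_pos (by linarith)
  have h5 : Real.log X ≤ (X : ℝ) ^ (0.05 : ℝ) / 0.05 := Real.log_le_rpow_div hX0.le (by norm_num)
  have h6 : (X : ℝ) ^ (0.9 : ℝ) * (X : ℝ) ^ (0.05 : ℝ) * (X : ℝ) ^ (0.05 : ℝ) = X := by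
    rw [← Real.rpow_add hX0, ← Real.rpow_add hX0]
    norm_num
  have h7 : (X : ℝ) / 2 < pin A X * Real.log X := by
    rw [lt_div_iff₀ hX0] at h1
    linarith
  have ha : 0 < (X : ℝ) ^ (0.9 : ℝ) := by positivity
  have hb : 0 < (X : ℝ) ^ (0.05 : ℝ) := by positivity
  have h8 : (X : ℝ) ^ (0.9 : ℝ) * Real.log X ≤ X / 2 := by
    have h9 := mul_le_mul_of_nonneg_left h5 ha.le
    have h10 : (X : ℝ) ^ (0.9 : ℝ) * ((X : ℝ) ^ (0.05 : ℝ) / 0.05) =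
        20 * ((X : ℝ) ^ (0.9 : ℝ) * (X : ℝ) ^ (0.05 : ℝ)) := by ring
    have h11 := mul_le_mul_of_nonneg_left h2 (mul_pos ha hb).le
    rw [h6] at h11
    linarith
  have h9 : (X : ℝ) ^ (0.9 : ℝ) * Real.log X ≤ pin A X * Real.log X := by linarith
  exact le_of_mul_le_mul_right h9 hlog

theorem cnt_up (A : Set ℕ) (hC : Tendsto (fun x : ℕ => (pin A x : ℝ) * Real.log x / x) atTop (𝓝 1)) :
    ∀ᶠ X : ℕ in atTop, (pin A X : ℝ) ≤ X / 8 := by
  have h1 : ∀ᶠ X : ℕ in atTop, (pin A X : ℝ) * Real.log X / X < 2 :=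
    hC.eventually (gt_mem_nhds (by norm_num))
  have h2 : ∀ᶠ X : ℕ in atTop, (16 : ℝ) ≤ Real.log X :=
    (Real.tendsto_log_atTop.comp tendsto_natCast_atTop_atTop).eventually_ge_atTop 16
  filter_upwards [h1, h2, eventually_ge_atTop 1] with X h1 h2 h3
  have hX0 : (0 : ℝ) < X := by exact_mod_cast (by omega : 0 < X)
  rw [div_lt_iff₀ hX0] at h1
  have h4 : (pin A X : ℝ) * 16 ≤ pin A X * Real.log X :=
    mul_le_mul_of_nonneg_left h2 (Nat.cast_nonneg _)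
  linarith

theorem kk_le : ∀ᶠ n : ℕ in atTop, kk n ≤ n := by
  filter_upwards [eventually_ge_atTop 4] with n hn
  have hn4 : (4 : ℝ) ≤ n := by exact_mod_cast hn
  have h1 : (kk n : ℝ) ≤ 2 * √(Real.log n) := Nat.floor_le (by positivity)
  have h2 : Real.log n ≤ n := (Real.log_le_sub_one_of_pos (by linarith)).trans (by linarith)
  have h3 : √(Real.log n) ≤ √n := Real.sqrt_le_sqrt h2
  have h4 : 2 * √(n : ℝ) ≤ n := by
    have h5 := Real.sq_sqrt (by linarith : (0 : ℝ) ≤ n)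
    have h6 : (2 : ℝ) ≤ √n := by
      rw [show (2 : ℝ) = √4 by rw [show (4 : ℝ) = 2 ^ 2 by norm_num, Real.sqrt_sq (by norm_num)]]
      exact Real.sqrt_le_sqrt hn4
    nlinarith
  have h5 : (kk n : ℝ) ≤ n := by linarith
  exact_mod_cast h5

open Classical in
/-- the bijection `p = 2 n - v`, first direction -/
theorem bij1 (W : ℕ → ℕ) (b : ℕ → ℕ) (n k : ℕ) (h1 : YY n + LL n ≤ XX n)
    (h2 : XX n + YY n + LL n + 1 = 2 * n) :
    (G3 (ra (RS z0 W b) k) (RS z0 W b) n (YY n) (YY n + LL n)).card ≤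
      (G2 W n 0 k (XX n) (XX n + LL n) b).card := by
  apply Finset.card_le_card_of_injOn (fun v => 2 * n - v)
  · intro v hv
    have hv' := Finset.mem_filter.1 (Finset.mem_coe.1 hv)
    obtain ⟨hv1, hv2, hv3⟩ := hv'
    rw [Finset.mem_Ioc] at hv1
    apply Finset.mem_coe.2
    apply Finset.mem_filter.2
    refine ⟨?_, hv3, ?_, ?_⟩
    · show 2 * n - v ∈ Finset.Ioc _ _
      rw [Finset.mem_Ioc]
      omega
    · have h3 : 2 * n - (2 * n - v) = v := by omega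
      show 2 * n - (2 * n - v) ∈ _
      rw [h3]
      exact hv2
    · show 2 * n - (2 * n - v) ≤ _
      omega
  · intro v hv v' hv' h
    have hv1 := Finset.mem_Ioc.1 (Finset.mem_filter.1 (Finset.mem_coe.1 hv)).1
    have hv2 := Finset.mem_Ioc.1 (Finset.mem_filter.1 (Finset.mem_coe.1 hv')).1
    have h3 : 2 * n - v = 2 * n - v' := h
    omega

open Classical in
/-- second direction -/
theorem bij2 (W : ℕ → ℕ) (b : ℕ → ℕ) (n i k : ℕ) (h0 : 1 ≤ n) (h1 : YY n + LL n ≤ n - 1)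
    (h2 : XX n + YY n + LL n + 1 = 2 * n) :
    (G2 W n i k (XX n) (XX n + LL n) b).card ≤
      (G3 (ra (RS z0 W b) k) (ra (RS z0 W b) i) n 0 (n - 1)).card := by
  apply Finset.card_le_card_of_injOn (fun v => 2 * n - v)
  · intro v hv
    have hv' := Finset.mem_filter.1 (Finset.mem_coe.1 hv)
    obtain ⟨hv1, hv2, hv3, hv4⟩ := hv'
    rw [Finset.mem_Ioc] at hv1
    apply Finset.mem_coe.2
    apply Finset.mem_filter.2
    refine ⟨?_, hv3, ?_⟩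
    · show 2 * n - v ∈ Finset.Ioc _ _
      rw [Finset.mem_Ioc]
      omega
    · have h3 : 2 * n - (2 * n - v) = v := by omega
      show 2 * n - (2 * n - v) ∈ _
      rw [h3]
      exact hv2
  · intro v hv v' hv' h
    have hv1 := Finset.mem_Ioc.1 (Finset.mem_filter.1 (Finset.mem_coe.1 hv)).1
    have hv2 := Finset.mem_Ioc.1 (Finset.mem_filter.1 (Finset.mem_coe.1 hv')).1
    have h3 : 2 * n - v = 2 * n - v' := h
    omega

open Classical in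
theorem bij0 (A B : Set ℕ) (n : ℕ) (h1 : YY n + LL n ≤ n - 1) :
    (G3 A B n (YY n) (YY n + LL n)).card ≤ (G3 A B n 0 (n - 1)).card := by
  apply Finset.card_le_card
  intro v hv
  have hv' := Finset.mem_filter.1 hv
  obtain ⟨hv1, hv2, hv3⟩ := hv'
  rw [Finset.mem_Ioc] at hv1
  apply Finset.mem_filter.2
  refine ⟨?_, hv2, hv3⟩
  rw [Finset.mem_Ioc]
  omega

end TWON

open TWON in
theorem two : S_TWO := by
  intro hWIN hCNT hKK hNTH hCBE hREGU hSQ hGOL hSMALL hONE c c₂ hc hc0 hC2 b hOK hLU hTH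
  have hL : Limit z0 := ⟨Pool.Agent.T2H32.BF.z0_mono, Pool.Agent.T2H32.BF.z0_lim⟩
  have hcnt := (hCNT hWIN z0 hL c c₂ hc hC2 b hOK).1
  have hone := hONE hWIN hCNT hKK hNTH hCBE hREGU hSQ hGOL hSMALL c c₂ hc hc0 hC2 b hOK hLU hTH
  have hreg := hREGU hWIN hCNT hKK hNTH c c₂ hc hC2 b hOK
  have hcb := hCBE hWIN hCNT c c₂ hc hC2 b hOK
  obtain ⟨N, hN⟩ := eventually_atTop.1 (((hcb.and hLU).and (cnt_lo _ hcnt)).and (cnt_up _ hcnt))
  filter_upwards [hone, hreg, sizes, nums, kk_le, eventually_ge_atTop (max N 10)] with n e1 e2 e3 e4 e5 e6 i k hi hk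
  have hNn : N ≤ n := (le_max_left _ _).trans e6
  have hn10 : 10 ≤ n := (le_max_right _ _).trans e6
  have hn0 : (1 : ℝ) ≤ n := by exact_mod_cast (by omega : 1 ≤ n)
  obtain ⟨s1, s2, s3, s4, s5, s6⟩ := e3
  obtain ⟨m1, m2, m3, m4, m5, m6⟩ := e4 (XX n) s1 s2
  have honek := e1 k hk
  rcases i with _ | i
  · -- `i = 0`
    have h1 := bij0 (ra (RS z0 (WW c) b) k) (RS z0 (WW c) b) n s3
    calc (n : ℝ) ^ (0.99 : ℝ) ≤ (n : ℝ) ^ (0.996 : ℝ) :=
          Real.rpow_le_rpow_of_exponent_le hn0 (by norm_num)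
      _ ≤ _ := honek
      _ ≤ _ := by exact_mod_cast h1
  · obtain ⟨⟨⟨hCBX, hLUX⟩, hloX⟩, -⟩ := hN (XX n) (hNn.trans s1)
    have hup := (hN (XX n + LL n) (by omega)).2
    set X := XX n with hXdef
    have hXr : (n : ℝ) ≤ X := by exact_mod_cast s1
    have hX2n : (X : ℝ) ≤ 2 * n := by exact_mod_cast s2
    have hregX : ∀ j, pin (RS z0 (WW c) b) X ≤ j + hX X + 1 →
        j ≤ pin (RS z0 (WW c) b) (X + LL n) + 3 * uX X →
        (X : ℝ) ^ (-(0.001 : ℝ)) * hX X ≤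
          ((ra (RS z0 (WW c) b) i ∩ Set.Iic X ∩ Set.Ioc j (j + hX X)).ncard : ℝ) := by
      intro j hj1 hj2
      have hj1' : (pin (RS z0 (WW c) b) X : ℝ) ≤ j + hX X + 1 := by exact_mod_cast hj1
      have hj2' : (j : ℝ) ≤ pin (RS z0 (WW c) b) (X + LL n) + 3 * uX X := by exact_mod_cast hj2
      have hXL : ((X + LL n : ℕ) : ℝ) ≤ 2 * X := by exact_mod_cast (by omega : X + LL n ≤ 2 * X)
      have hjX : (j : ℝ) + hX X ≤ X := by linarith
      have hjXn : j + hX X ≤ X := by exact_mod_cast hjX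
      have hjn2 : j ≤ n ^ 2 := by nlinarith
      have h1 := e2 i (by omega) j (hX X) (by linarith) hjn2 m1 m2
      have h2 : ra (RS z0 (WW c) b) i ∩ Set.Ioc j (j + hX X) ⊆
          ra (RS z0 (WW c) b) i ∩ Set.Iic X ∩ Set.Ioc j (j + hX X) := by
        rintro x ⟨hx1, hx2⟩
        exact ⟨⟨hx1, hx2.2.trans hjXn⟩, hx2⟩
      have h3 : (ra (RS z0 (WW c) b) i ∩ Set.Ioc j (j + hX X)).ncard ≤
          (ra (RS z0 (WW c) b) i ∩ Set.Iic X ∩ Set.Ioc j (j + hX X)).ncard :=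
        Set.ncard_le_ncard h2 ((Set.finite_Ioc _ _).subset Set.inter_subset_right)
      calc (X : ℝ) ^ (-(0.001 : ℝ)) * hX X ≤ (n : ℝ) ^ (-(0.0005 : ℝ)) * hX X :=
            mul_le_mul_of_nonneg_right m3 (Nat.cast_nonneg _)
        _ ≤ _ := h1
        _ ≤ _ := by exact_mod_cast h3
    have h1 := (hLUX hCBX n i k (X + LL n) (by omega) (by omega) (by omega) (by omega) (by omega)
      hregX).2
    have h2 : (n : ℝ) ^ (0.996 : ℝ) ≤ (G2 (WW c) n 0 k X (X + LL n) b).card :=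
      honek.trans (by exact_mod_cast bij1 (WW c) b n k s4 s5)
    have h3 : ((G2 (WW c) n (i + 1) k X (X + LL n) b).card : ℝ) ≤
        (G3 (ra (RS z0 (WW c) b) k) (ra (RS z0 (WW c) b) (i + 1)) n 0 (n - 1)).card := by
      exact_mod_cast bij2 (WW c) b n (i + 1) k (by omega) s3 s5
    have h4 : 1 / 2 * ((X : ℝ) ^ (-(0.001 : ℝ)) * (n : ℝ) ^ (0.996 : ℝ)) ≤
        1 / 2 * ((X : ℝ) ^ (-(0.001 : ℝ)) * (G2 (WW c) n 0 k X (X + LL n) b).card) := by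
      apply mul_le_mul_of_nonneg_left _ (by norm_num)
      exact mul_le_mul_of_nonneg_left h2 (by positivity)
    linarith

end Pool.Agent.H531.IX
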