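import Pool.Agent.H531.IX.Stm5

set_option autoImplicit false

/-!
# `S_TWO5`: both summands with iterated index, asymptotic version (by helper229, adapted from `TWO.lean` of helper719)
-/

open Finset MeasureTheory ProbabilityTheory Filter Topology

namespace Pool.Agent.H531.IX

open Pool.Agent.T2H31.HV (Pt Ev Dep)
open Pool.Agent.T2H32.BF (Model z0 V)
open Pool.Agent.H559.BS (Limit)
open Pool.Agent.H559.HY (OK WW Cut TG)
open Pool.Agent.T2H32.GB (C2)

namespace TWO5N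

theorem ev_pow (a K : ℝ) (ha : 0 < a) : ∀ᶠ X : ℕ in atTop, K ≤ (X : ℝ) ^ a :=
  ((tendsto_rpow_atTop ha).comp tendsto_natCast_atTop_atTop).eventually_ge_atTop K

theorem ev_log (K : ℕ) (a c : ℝ) (ha : 0 < a) (hc : 0 < c) :
    ∀ᶠ n : ℕ in atTop, Real.log n ^ K ≤ c * (n : ℝ) ^ a := by
  have h1 := (isLittleO_log_rpow_rpow_atTop (K : ℝ) ha).bound hc
  filter_upwards [tendsto_natCast_atTop_atTop.eventually h1, eventually_ge_atTop 1] with n h2 h3
  have hn : (1 : ℝ) ≤ n := by exact_mod_cast h3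
  have hl : 0 ≤ Real.log n := Real.log_nonneg hn
  rw [Real.norm_of_nonneg (by positivity), Real.norm_of_nonneg (by positivity), Real.rpow_natCast] at h2
  exact h2

theorem pin_le (A : Set ℕ) (p : ℕ) : pin A p ≤ p := by
  unfold pin
  have h1 : (A ∩ Set.Icc 1 p).ncard ≤ (Set.Icc 1 p).ncard :=
    Set.ncard_le_ncard Set.inter_subset_right (Set.finite_Icc 1 p)
  have h2 : (Set.Icc 1 p).ncard = p := by
    rw [← Finset.coe_Icc, Set.ncard_coe_finset]
    simp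
  omega

/-- the numbers -/
theorem nums : ∀ᶠ n : ℕ in atTop, ∀ X : ℕ, n ≤ X → X ≤ 2 * n →
    (n : ℝ) ^ (0.004 : ℝ) ≤ hX X ∧ (hX X : ℝ) ≤ (n : ℝ) ^ (0.1 : ℝ) ∧
    (X : ℝ) ^ (-(0.001 : ℝ)) ≤ (n : ℝ) ^ (-(0.001 : ℝ)) ∧
    3 * uX X + hX X ≤ (3 / 4 : ℝ) * X ∧
    (X : ℝ) ^ (0.99 : ℝ) ≤ 2 * (n : ℝ) ^ (0.99 : ℝ) := by
  filter_upwards [ev_pow 0.001 2 (by norm_num),
    ev_pow 0.095 2 (by norm_num), ev_pow 0.489 8 (by norm_num),
    eventually_ge_atTop 1] with n e1 e3 e4 hn1 X hX1 hX2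
  have hn0 : (0 : ℝ) < n := by exact_mod_cast (by omega : 0 < n)
  have hn1' : (1 : ℝ) ≤ n := by exact_mod_cast hn1
  have hXn : (n : ℝ) ≤ X := by exact_mod_cast hX1
  have hX2n : (X : ℝ) ≤ 2 * n := by exact_mod_cast hX2
  have hX0 : (0 : ℝ) < X := by linarith
  have hX1' : (1 : ℝ) ≤ X := by linarith
  have k1 : (hX X : ℝ) ≤ (X : ℝ) ^ (0.005 : ℝ) := Nat.floor_le (by positivity)
  have k2 : (X : ℝ) ^ (0.005 : ℝ) < hX X + 1 := Nat.lt_floor_add_one _
  have k3 : (uX X : ℝ) ≤ (X : ℝ) ^ (0.511 : ℝ) := Nat.floor_le (by positivity)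
  have two : ∀ a : ℝ, 0 ≤ a → a ≤ 1 → (X : ℝ) ^ a ≤ 2 * (n : ℝ) ^ a := by
    intro a ha0 ha1
    calc (X : ℝ) ^ a ≤ (2 * n : ℝ) ^ a := Real.rpow_le_rpow hX0.le hX2n ha0
      _ = 2 ^ a * (n : ℝ) ^ a := Real.mul_rpow (by norm_num) hn0.le
      _ ≤ 2 * (n : ℝ) ^ a := by
        apply mul_le_mul_of_nonneg_right _ (by positivity)
        calc (2 : ℝ) ^ a ≤ 2 ^ (1 : ℝ) := Real.rpow_le_rpow_of_exponent_le (by norm_num) ha1
          _ = 2 := Real.rpow_one 2
  have nle : ∀ a : ℝ, 0 ≤ a → (n : ℝ) ^ a ≤ (X : ℝ) ^ a := fun a ha =>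
    Real.rpow_le_rpow hn0.le hXn ha
  have hexp : ∀ a b c : ℝ, a + b = c → (n : ℝ) ^ a * (n : ℝ) ^ b = (n : ℝ) ^ c := by
    intro a b c h
    rw [← Real.rpow_add hn0, h]
  have hge : ∀ a : ℝ, 0 ≤ a → 1 ≤ (n : ℝ) ^ a := fun a ha => Real.one_le_rpow hn1' ha
  have hpos : ∀ a : ℝ, 0 < (n : ℝ) ^ a := fun a => Real.rpow_pos_of_pos hn0 a
  refine ⟨?_, ?_, ?_, ?_, ?_⟩
  · have h1 := nle 0.005 (by norm_num)
    have h2 := hexp 0.004 0.001 0.005 (by norm_num)
    have h3 := hge 0.004 (by norm_num)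
    nlinarith [hpos 0.004]
  · have h1 := two 0.005 (by norm_num) (by norm_num)
    have h2 := hexp 0.005 0.095 0.1 (by norm_num)
    nlinarith [hpos 0.005]
  · exact Real.rpow_le_rpow_of_nonpos hn0 hXn (by norm_num)
  · have h1 : (X : ℝ) ^ (0.511 : ℝ) * (X : ℝ) ^ (0.489 : ℝ) = X := by
      rw [← Real.rpow_add hX0]
      norm_num
    have h2 := nle 0.489 (by norm_num)
    have h3 : (X : ℝ) ^ (0.005 : ℝ) ≤ (X : ℝ) ^ (0.511 : ℝ) :=
      Real.rpow_le_rpow_of_exponent_le hX1' (by norm_num)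
    have h4 : (0 : ℝ) < (X : ℝ) ^ (0.511 : ℝ) := Real.rpow_pos_of_pos hX0 _
    nlinarith
  · exact two 0.99 (by norm_num) (by norm_num)

theorem cnt_lo (A : Set ℕ) (hC : Tendsto (fun x : ℕ => (pin A x : ℝ) * Real.log x / x) atTop (𝓝 1)) :
    ∀ᶠ X : ℕ in atTop, (X : ℝ) ≤ 2 * (pin A X * Real.log X) := by
  have h1 : ∀ᶠ X : ℕ in atTop, (1 / 2 : ℝ) < (pin A X : ℝ) * Real.log X / X :=
    hC.eventually (lt_mem_nhds (by norm_num))
  filter_upwards [h1, eventually_ge_atTop 1] with X h1 h3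
  have hX0 : (0 : ℝ) < X := by exact_mod_cast (by omega : 0 < X)
  rw [lt_div_iff₀ hX0] at h1
  linarith

theorem cnt_up (A : Set ℕ) (hC : Tendsto (fun x : ℕ => (pin A x : ℝ) * Real.log x / x) atTop (𝓝 1)) :
    ∀ᶠ X : ℕ in atTop, (pin A X : ℝ) ≤ X / 8 := by
  have h1 : ∀ᶠ X : ℕ in atTop, (pin A X : ℝ) * Real.log X / X < 2 :=
    hC.eventually (gt_mem_nhds (by norm_num))
  have h2 : ∀ᶠ X : ℕ in atTop, (16 : ℝ) ≤ Real.log X :=
    (Real.tendsto_log_atTop.comp tendsto_natCast_atTop_atTop).eventually_ge_atTop 16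
  filter_upwards [h1, h2, eventually_ge_atTop 1] with X h1 h2 h3
  have hX0 : (0 : ℝ) < X := by exact_mod_cast (by omega : 0 < X)
  rw [div_lt_iff₀ hX0] at h1
  have h4 : (pin A X : ℝ) * 16 ≤ pin A X * Real.log X :=
    mul_le_mul_of_nonneg_left h2 (Nat.cast_nonneg _)
  linarith

/-- the range of the indices -/
theorem rng (A : Set ℕ) (hC : Tendsto (fun x : ℕ => (pin A x : ℝ) * Real.log x / x) atTop (𝓝 1)) :
    ∀ᶠ n : ℕ in atTop, ∀ X : ℕ, n ≤ X → X ≤ 2 * n →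
      (n : ℝ) / Real.log n ^ 2 + (n : ℝ) ^ (0.1 : ℝ) + 1 ≤ pin A X := by
  obtain ⟨N, hN⟩ := eventually_atTop.1 (cnt_lo A hC)
  have h2 : ∀ᶠ X : ℕ in atTop, (8 : ℝ) ≤ Real.log X :=
    (Real.tendsto_log_atTop.comp tendsto_natCast_atTop_atTop).eventually_ge_atTop 8
  filter_upwards [h2, ev_log 1 0.1 1 (by norm_num) one_pos, ev_pow 0.8 16 (by norm_num),
    eventually_ge_atTop (max N 2)] with n h2 h3 h4 h5 X hX1 hX2
  have hNn : N ≤ n := (le_max_left _ _).trans h5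
  have hn2 : 2 ≤ n := (le_max_right _ _).trans h5
  have hn0 : (0 : ℝ) < n := by exact_mod_cast (by omega : 0 < n)
  have hn2' : (2 : ℝ) ≤ n := by exact_mod_cast hn2
  have hXn : (n : ℝ) ≤ X := by exact_mod_cast hX1
  have hX2n : (X : ℝ) ≤ 2 * n := by exact_mod_cast hX2
  have hlo := hN X (hNn.trans hX1)
  have hlX : Real.log X ≤ 2 * Real.log n := by
    calc Real.log X ≤ Real.log (n * n) := by
          apply Real.log_le_log (by linarith)
          nlinarith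
      _ = 2 * Real.log n := by rw [Real.log_mul hn0.ne' hn0.ne']; ring
  rw [pow_one, one_mul] at h3
  set l := Real.log n with hl
  have hl0 : 0 < l := by linarith
  have hp0 : (0 : ℝ) ≤ pin A X := Nat.cast_nonneg _
  have h6 : (n : ℝ) ≤ 4 * (pin A X * l) := by nlinarith
  have h7 : (n : ℝ) / (4 * l) ≤ pin A X := by
    rw [div_le_iff₀ (by positivity)]
    linarith
  have h8 : (n : ℝ) / l ^ 2 ≤ n / (8 * l) := by
    apply div_le_div_of_nonneg_left hn0.le (by positivity)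
    nlinarith
  have h9 : (n : ℝ) ^ (0.1 : ℝ) + 1 ≤ n / (8 * l) := by
    rw [le_div_iff₀ (by positivity)]
    have h10 : (n : ℝ) ^ (0.1 : ℝ) * (n : ℝ) ^ (0.1 : ℝ) * (n : ℝ) ^ (0.8 : ℝ) = n := by
      rw [← Real.rpow_add hn0, ← Real.rpow_add hn0]
      norm_num
    have h11 : (1 : ℝ) ≤ (n : ℝ) ^ (0.1 : ℝ) := Real.one_le_rpow (by linarith) (by norm_num)
    have h12 : (n : ℝ) ^ (0.1 : ℝ) * (n : ℝ) ^ (0.1 : ℝ) * 16 ≤ n := by
      calc (n : ℝ) ^ (0.1 : ℝ) * (n : ℝ) ^ (0.1 : ℝ) * 16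
          ≤ (n : ℝ) ^ (0.1 : ℝ) * (n : ℝ) ^ (0.1 : ℝ) * (n : ℝ) ^ (0.8 : ℝ) :=
            mul_le_mul_of_nonneg_left h4 (by positivity)
        _ = n := h10
    calc ((n : ℝ) ^ (0.1 : ℝ) + 1) * (8 * l) ≤
          (2 * (n : ℝ) ^ (0.1 : ℝ)) * (8 * (n : ℝ) ^ (0.1 : ℝ)) := by
            apply mul_le_mul (by linarith) (by linarith) (by positivity) (by positivity)
      _ = (n : ℝ) ^ (0.1 : ℝ) * (n : ℝ) ^ (0.1 : ℝ) * 16 := by ring
      _ ≤ n := h12
  have h13 : (n : ℝ) / (4 * l) = n / (8 * l) + n / (8 * l) := by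
    field_simp
    ring
  linarith

open Classical in
/-- the bijection `p = 2 n - v` -/
theorem bij (W : ℕ → ℕ) (b : ℕ → ℕ) (n e k u y : ℕ) (h1 : u + y < n) :
    (G2 W n e k (2 * n - u - y - 1) (2 * n - u - y - 1 + y) b).card =
      (G3 (ra (RS z0 W b) k) (ra (RS z0 W b) e) n u (u + y)).card := by
  apply le_antisymm
  · apply Finset.card_le_card_of_injOn (fun v => 2 * n - v)
    · intro v hv
      have hv' := Finset.mem_filter.1 (Finset.mem_coe.1 hv)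
      obtain ⟨hv1, hv2, hv3, hv4⟩ := hv'
      rw [Finset.mem_Ioc] at hv1
      apply Finset.mem_coe.2
      apply Finset.mem_filter.2
      refine ⟨?_, hv3, ?_⟩
      · show 2 * n - v ∈ Finset.Ioc _ _
        rw [Finset.mem_Ioc]
        omega
      · have h3 : 2 * n - (2 * n - v) = v := by omega
        show 2 * n - (2 * n - v) ∈ _
        rw [h3]
        exact hv2
    · intro v hv v' hv' h
      have hv1 := Finset.mem_Ioc.1 (Finset.mem_filter.1 (Finset.mem_coe.1 hv)).1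
      have hv2 := Finset.mem_Ioc.1 (Finset.mem_filter.1 (Finset.mem_coe.1 hv')).1
      have h3 : 2 * n - v = 2 * n - v' := h
      omega
  · apply Finset.card_le_card_of_injOn (fun v => 2 * n - v)
    · intro v hv
      have hv' := Finset.mem_filter.1 (Finset.mem_coe.1 hv)
      obtain ⟨hv1, hv2, hv3⟩ := hv'
      rw [Finset.mem_Ioc] at hv1
      apply Finset.mem_coe.2
      apply Finset.mem_filter.2
      refine ⟨?_, hv3, ?_, ?_⟩
      · show 2 * n - v ∈ Finset.Ioc _ _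
        rw [Finset.mem_Ioc]
        omega
      · have h3 : 2 * n - (2 * n - v) = v := by omega
        show 2 * n - (2 * n - v) ∈ _
        rw [h3]
        exact hv2
      · show 2 * n - (2 * n - v) ≤ _
        omega
    · intro v hv v' hv' h
      have hv1 := Finset.mem_Ioc.1 (Finset.mem_filter.1 (Finset.mem_coe.1 hv)).1
      have hv2 := Finset.mem_Ioc.1 (Finset.mem_filter.1 (Finset.mem_coe.1 hv')).1
      have h3 : 2 * n - v = 2 * n - v' := h
      omega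

theorem cl_eq (X : ℕ) (t : ℝ) (h1 : (X : ℝ) ^ (-(0.001 : ℝ)) ≤ t) (h2 : t ≤ 1) : cl X t = t := by
  unfold cl
  rw [min_eq_left h2, max_eq_right h1]

/-- the final inequality -/
theorem fin_ineq (N0 N1 L δ E ε Y : ℝ) (hN0 : 0 ≤ N0) (hL : 0 < L) (hδ0 : 0 < δ) (hδ1 : δ ≤ 1 / 2)
    (hδε : 3 * δ ≤ ε) (hE : E ≤ ε * Y)
    (h1 : N1 ≤ (1 + δ) * ((1 + δ) / L * N0) + E) (h2 : (1 - δ) * ((1 - δ) / L * N0) - E ≤ N1) :
    |N1 - N0 / L| ≤ ε * (N0 / L + Y) := by
  have hq : 0 ≤ N0 / L := by positivity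
  have e1 : (1 + δ) * ((1 + δ) / L * N0) = (1 + δ) * (1 + δ) * (N0 / L) := by ring
  have e2 : (1 - δ) * ((1 - δ) / L * N0) = (1 - δ) * (1 - δ) * (N0 / L) := by ring
  rw [e1] at h1
  rw [e2] at h2
  have k1 : (1 + δ) * (1 + δ) * (N0 / L) ≤ (1 + ε) * (N0 / L) :=
    mul_le_mul_of_nonneg_right (by nlinarith) hq
  have k2 : (1 - ε) * (N0 / L) ≤ (1 - δ) * (1 - δ) * (N0 / L) :=
    mul_le_mul_of_nonneg_right (by nlinarith) hq
  rw [abs_le]
  constructor <;> nlinarith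

end TWO5N

open TWO5N in
theorem two5 : S_TWO5 := by
  intro hWIN hCNT hNTH hCBE hRGA c c₂ hc hc0 hC2 b hOK hLV i k ε hε
  have hL : Limit z0 := ⟨Pool.Agent.T2H32.BF.z0_mono, Pool.Agent.T2H32.BF.z0_lim⟩
  have hcnt := (hCNT hWIN z0 hL c c₂ hc hC2 b hOK).1
  have hcb := hCBE hWIN hCNT c c₂ hc hC2 b hOK
  rcases i with _ | i
  · -- `i = 0`
    filter_upwards [eventually_ge_atTop 1] with n hn u y _ _
    have h1 : ra (RS z0 (WW c) b) 0 = RS z0 (WW c) b := rfl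
    rw [h1, pow_zero, div_one, sub_self, abs_zero]
    have hl : 0 ≤ Real.log n := Real.log_natCast_nonneg n
    positivity
  · -- the small number
    obtain ⟨m, hm⟩ := exists_nat_gt (max 2 (3 / ε))
    have hm2 : (2 : ℝ) < m := (le_max_left _ _).trans_lt hm
    have hm3 : 3 / ε < m := (le_max_right _ _).trans_lt hm
    set δ : ℝ := 1 / ((m : ℝ) + 1) with hδ
    have hδ0 : 0 < δ := by positivity
    have hδ1 : δ ≤ 1 / 2 := by
      rw [hδ]
      exact one_div_le_one_div_of_le (by norm_num) (by linarith)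
    have hδε : 3 * δ ≤ ε := by
      rw [hδ, mul_one_div, div_le_iff₀ (by positivity)]
      rw [div_lt_iff₀ hε] at hm3
      nlinarith
    have hr1 : (((1 + 1 / ((m : ℚ) + 1) : ℚ)) : ℝ) = 1 + δ := by
      rw [hδ]
      push_cast
      ring
    have hr2 : (((1 - 1 / ((m : ℚ) + 1) : ℚ)) : ℝ) = 1 - δ := by
      rw [hδ]
      push_cast
      ring
    have hr1p : (0 : ℚ) < 1 + 1 / ((m : ℚ) + 1) := by positivity
    have hr2p : (0 : ℚ) < 1 - 1 / ((m : ℚ) + 1) := by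
      have : (0 : ℝ) < ((1 - 1 / ((m : ℚ) + 1) : ℚ) : ℝ) := by
        rw [hr2]
        linarith
      exact_mod_cast this
    have hL1 := hLV i k m _ hr1p
    have hL2 := hLV i k m _ hr2p
    have hreg := hRGA hWIN hCNT hNTH c c₂ hc hC2 b hOK i 2 0.004 δ (by norm_num) hδ0
    obtain ⟨N, hN⟩ := eventually_atTop.1 (((hcb.and hL1).and hL2).and (cnt_up _ hcnt))
    have hlog : ∀ᶠ X : ℕ in atTop, (8 : ℝ) ≤ Real.log X :=
      (Real.tendsto_log_atTop.comp tendsto_natCast_atTop_atTop).eventually_ge_atTop 8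
    filter_upwards [hreg, nums, rng _ hcnt, hlog, ev_log (i + 1) 0.001 (1 - δ) (by norm_num) (by linarith),
      ev_log (i + 1 + k + 2) 0.005 (ε / 2) (by norm_num) (by positivity),
      eventually_ge_atTop (max N 10)] with n e1 e2 e3 e4 e5 e6 e7 u y hy huy
    have hNn : N ≤ n := (le_max_left _ _).trans e7
    have hn10 : 10 ≤ n := (le_max_right _ _).trans e7
    have hn0 : (0 : ℝ) < n := by exact_mod_cast (by omega : 0 < n)
    have hn1 : (1 : ℝ) ≤ n := by exact_mod_cast (by omega : 1 ≤ n)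
    set X := 2 * n - u - y - 1 with hXd
    have hXn : n ≤ X := by omega
    have hX2n : X ≤ 2 * n := by omega
    have hyX : y ≤ X := by omega
    obtain ⟨m1, m2, m3, m4, m5⟩ := e2 X hXn hX2n
    have m6 := e3 X hXn hX2n
    obtain ⟨⟨⟨hCBX, hL1X⟩, hL2X⟩, -⟩ := hN X (hNn.trans hXn)
    have hup := (hN (X + y) (by omega)).2
    have hXnr : (n : ℝ) ≤ X := by exact_mod_cast hXn
    have hX2nr : (X : ℝ) ≤ 2 * n := by exact_mod_cast hX2n
    have hXy : ((X + y : ℕ) : ℝ) ≤ 2 * X := by exact_mod_cast (by omega : X + y ≤ 2 * X)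
    set l := Real.log n with hl
    have hl0 : 0 < l := by linarith
    have hl1 : 1 ≤ l := by linarith
    have hLp : 0 < l ^ (i + 1) := by positivity
    have hLge : 8 ≤ l ^ (i + 1) := by
      calc (8 : ℝ) ≤ l := e4
        _ = l ^ 1 := (pow_one l).symm
        _ ≤ l ^ (i + 1) := pow_le_pow_right₀ hl1 (by omega)
    have hh0 : (0 : ℝ) < hX X := lt_of_lt_of_le (by positivity) m1
    -- the truncation
    have hxt : (X : ℝ) ^ (-(0.001 : ℝ)) ≤ (1 - δ) / l ^ (i + 1) := by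
      refine m3.trans ?_
      rw [le_div_iff₀ hLp, Real.rpow_neg hn0.le, inv_mul_le_iff₀ (by positivity)]
      linarith
    have hcl1 : cl X ((1 + δ) / l ^ (i + 1)) = (1 + δ) / l ^ (i + 1) := by
      apply cl_eq
      · refine hxt.trans ?_
        exact div_le_div_of_nonneg_right (by linarith) hLp.le
      · rw [div_le_one hLp]
        linarith
    have hcl2 : cl X ((1 - δ) / l ^ (i + 1)) = (1 - δ) / l ^ (i + 1) := by
      apply cl_eq _ _ hxt
      rw [div_le_one hLp]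
      linarith
    -- the regularity
    have hregX : ∀ j, pin (RS z0 (WW c) b) X ≤ j + hX X + 1 →
        j ≤ pin (RS z0 (WW c) b) (X + y) + 3 * uX X →
        (ra (RS z0 (WW c) b) i ∩ Set.Iic X ∩ Set.Ioc j (j + hX X)) =
          (ra (RS z0 (WW c) b) i ∩ Set.Ioc j (j + hX X)) ∧
        |((ra (RS z0 (WW c) b) i ∩ Set.Ioc j (j + hX X)).ncard : ℝ) * l ^ (i + 1) / hX X - 1| ≤ δ := by
      intro j hj1 hj2
      have hj1' : (pin (RS z0 (WW c) b) X : ℝ) ≤ j + hX X + 1 := by exact_mod_cast hj1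
      have hj2' : (j : ℝ) ≤ pin (RS z0 (WW c) b) (X + y) + 3 * uX X := by exact_mod_cast hj2
      have hjX : (j : ℝ) + hX X ≤ X := by linarith
      have hjXn : j + hX X ≤ X := by exact_mod_cast hjX
      constructor
      · ext x
        constructor
        · rintro ⟨⟨hx1, _⟩, hx2⟩
          exact ⟨hx1, hx2⟩
        · rintro ⟨hx1, hx2⟩
          exact ⟨⟨hx1, hx2.2.trans hjXn⟩, hx2⟩
      · refine e1 j (hX X) (by linarith) ?_ m1 m2
        have h7 : (2 : ℝ) ≤ l ^ 2 := by nlinarith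
        have h8 : (X : ℝ) ≤ n * l ^ 2 := by
          calc (X : ℝ) ≤ n * 2 := by linarith
            _ ≤ n * l ^ 2 := mul_le_mul_of_nonneg_left h7 hn0.le
        linarith [Nat.cast_nonneg (α := ℝ) (hX X)]
    have hA := (hL1X hCBX n (X + y) (hXn.trans (Nat.le_self_pow (by norm_num) X)) (by omega) (by omega)).1 (by
      intro j hj1 hj2
      obtain ⟨r1, r2⟩ := hregX j hj1 hj2
      rw [r1, hr1, hcl1]
      have r3 := (abs_le.1 r2).2
      rw [sub_le_iff_le_add', div_le_iff₀ hh0] at r3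
      rw [div_mul_eq_mul_div, le_div_iff₀ hLp]
      exact r3) (by
      have : (pin (RS z0 (WW c) b) (X + y) : ℝ) ≤ X := by linarith
      exact_mod_cast this)
    have hB := (hL2X hCBX n (X + y) (hXn.trans (Nat.le_self_pow (by norm_num) X)) (by omega) (by omega)).2 (by
      intro j hj1 hj2
      obtain ⟨r1, r2⟩ := hregX j hj1 hj2
      rw [r1, hr2, hcl2]
      have r3 := (abs_le.1 r2).1
      rw [neg_le_sub_iff_le_add, ← sub_le_iff_le_add, le_div_iff₀ hh0] at r3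
      rw [div_mul_eq_mul_div, div_le_iff₀ hLp]
      exact r3)
    have hA2 := hA.2
    have hB2 := hB.2
    rw [hr1, hcl1] at hA2
    rw [hr2, hcl2] at hB2
    rw [hXd, bij (WW c) b n (i + 1) k u y huy, bij (WW c) b n 0 k u y huy] at hA2 hB2
    refine fin_ineq _ _ _ δ ((X : ℝ) ^ (0.99 : ℝ)) ε _ (Nat.cast_nonneg _) hLp hδ0 hδ1 hδε ?_ hA2 hB2
    -- the error
    rw [mul_div_assoc', le_div_iff₀ (by positivity)]
    have h10 : (n : ℝ) ^ (0.99 : ℝ) * (n : ℝ) ^ (0.005 : ℝ) = (n : ℝ) ^ (0.995 : ℝ) := by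
      rw [← Real.rpow_add hn0]
      norm_num
    calc (X : ℝ) ^ (0.99 : ℝ) * l ^ (i + 1 + k + 2)
        ≤ (2 * (n : ℝ) ^ (0.99 : ℝ)) * (ε / 2 * (n : ℝ) ^ (0.005 : ℝ)) :=
          mul_le_mul m5 e6 (by positivity) (by positivity)
      _ = ε * (n : ℝ) ^ (0.995 : ℝ) := by rw [← h10]; ring
      _ ≤ ε * y := mul_le_mul_of_nonneg_left hy hε.le

end Pool.Agent.H531.IX
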