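import Pool.Agent.H531.IX.Stm7

set_option autoImplicit false

/-!
# WREG: the windows of the old survivors are regular

See the statement `S_WREG` in `Pool/Agent/H531/IX/Stm7.lean`. `WREGN.comb` is the combinatorial part (the windows of `h` old survivors lie between
windows of lengths `y1` and `y2`), `WREGN.pick`, `WREGN.evX`, `WREGN.win4` are the numbers.
-/

open Finset MeasureTheory ProbabilityTheory Filter Topology

namespace Pool.Agent.H531.IX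

open Pool.Agent.T2H31.HV (Pt Ev Dep)
open Pool.Agent.T2H32.BF (Model z0 V z0_mono z0_lim)
open Pool.Agent.H559.BS (Limit)
open Pool.Agent.H559.HY (OK WW Cut)
open Pool.Agent.T2H32.GB (C2)

namespace WREGN


open Classical in
/-- the number of the elements with the property `S` in `(w, w']` -/
noncomputable def C (S : ℕ → Prop) (w w' : ℕ) : ℕ := ((Ioc w w').filter S).card

theorem C_mono {S S' : ℕ → Prop} {w w' : ℕ} (h : ∀ v, w < v → v ≤ w' → S v → S' v) : C S w w' ≤ C S' w w' := by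
  classical
  unfold C
  refine card_le_card fun v hv => ?_
  rw [mem_filter, mem_Ioc] at hv ⊢
  exact ⟨hv.1, h v hv.1.1 hv.1.2 hv.2⟩

theorem C_le {S : ℕ → Prop} {w w' w'' : ℕ} (h : w' ≤ w'') : C S w w' ≤ C S w w'' := by
  classical
  unfold C
  refine card_le_card fun v hv => ?_
  rw [mem_filter, mem_Ioc] at hv ⊢
  exact ⟨⟨hv.1.1, hv.1.2.trans h⟩, hv.2⟩

theorem C_add {S : ℕ → Prop} {w w' w'' : ℕ} (h : w ≤ w') (h' : w' ≤ w'') : C S w w'' = C S w w' + C S w' w'' := by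
  classical
  unfold C
  rw [← card_union_of_disjoint, ← filter_union, Ioc_union_Ioc_eq_Ioc h h']
  refine disjoint_filter_filter ?_
  rw [Finset.disjoint_left]
  intro v hv hv'
  rw [mem_Ioc] at hv hv'
  omega

theorem pin_eq (A : Set ℕ) (p : ℕ) : pin A p = C (· ∈ A) 0 p := by
  classical
  unfold pin C
  rw [← Set.ncard_coe_finset]
  congr 1
  ext v
  simp only [Set.mem_inter_iff, Set.mem_Icc, coe_filter, mem_Ioc, Set.mem_ofPred_eq]
  constructor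
  · rintro ⟨h1, h2, h3⟩
    exact ⟨⟨by omega, h3⟩, h1⟩
  · rintro ⟨⟨h1, h2⟩, h3⟩
    exact ⟨h3, by omega, h2⟩

theorem tw_eq (A : Set ℕ) (X Y : ℕ) : tw A X Y = C (fun p => p ∈ A ∧ p + 2 ∈ A) X Y := by
  classical
  unfold tw C
  rw [← Set.ncard_coe_finset]
  congr 1
  ext v
  simp only [coe_filter, mem_Ioc, Set.mem_ofPred_eq, and_assoc]

theorem KP_add (z W b : ℕ → ℕ) {x w w' : ℕ} (h : x ≤ w) (h' : w ≤ w') :
    KP z W x w' b = KP z W x w b + C (Sv W (z x) b) w w' := by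
  have h1 : ∀ p, KP z W x p b = pin (RS z W b) x + C (Sv W (z x) b) x p := fun p => rfl
  rw [h1, h1, C_add h h', add_assoc]

theorem C_succ {S : ℕ → Prop} (w : ℕ) : C S w (w + 1) ≤ 1 := by
  classical
  unfold C
  refine (card_filter_le _ _).trans ?_
  simp

theorem comb (z z1 W b : ℕ → ℕ) (hz : Monotone z) (x u h y1 y2 : ℕ) (t1 t2 : ℝ) (hx : 3 ≤ x)
    (hz1 : ∀ v, x < v → v ≤ x + 3 * u → z1 v ≤ z x) (hy : y1 ≤ y2) (hy2 : y2 + 2 ≤ u)
    (hA0 : ∀ w, x + u ≤ w → w ≤ x + 2 * u → pin (RS z W b) w + h < pin (RS z W b) (w + y2))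
    (hA1 : ∀ w, x + u ≤ w → w ≤ x + 2 * u → pin (RS z1 W b) (w + y1) < pin (RS z1 W b) w + h)
    (hT1 : ∀ w, x + u ≤ w → w ≤ x + 2 * u → (tw (RS z1 W b) w (w + y2) : ℝ) ≤ t2 * h)
    (hT0 : ∀ w, x + u ≤ w → w ≤ x + 2 * u → t1 * h ≤ (tw (RS z W b) w (w + y1) : ℝ)) :
    KP z W x (x + u) b + h ≤ KP z W x (x + 2 * u) b ∧
    ∀ j, KP z W x (x + u) b ≤ j → j + h ≤ KP z W x (x + 2 * u) b →
      t1 * h ≤ ((DP z W x u b ∩ Set.Ioc j (j + h)).ncard : ℝ) ∧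
      ((DP z W x u b ∩ Set.Ioc j (j + h)).ncard : ℝ) ≤ t2 * h := by
  classical
  set A0 := RS z W b with hA0d
  set A1 := RS z1 W b with hA1d
  set S := Sv W (z x) b with hS
  set K : ℕ → ℕ := fun p => KP z W x p b with hK
  -- the comparisons
  have c0 : ∀ v, x < v → v ∈ A0 → S v := by
    intro v hv hvA q hq hqp
    exact hvA.2 q (hq.trans (hz hv.le)) hqp
  have c1 : ∀ v, x < v → v ≤ x + 3 * u → S v → v ∈ A1 := by
    intro v hv hv' hvS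
    exact ⟨by omega, fun q hq hqp => hvS q (hq.trans (hz1 v hv hv')) hqp⟩
  have hKadd : ∀ w w', x ≤ w → w ≤ w' → K w' = K w + C S w w' := fun w w' h1 h2 => KP_add z W b h1 h2
  have hKmono : ∀ w w', x ≤ w → w ≤ w' → K w ≤ K w' := fun w w' h1 h2 => by
    rw [hKadd w w' h1 h2]; omega
  have hpin : ∀ A : Set ℕ, ∀ w w', w ≤ w' → pin A w' = pin A w + C (· ∈ A) w w' := by
    intro A w w' h1
    rw [pin_eq, pin_eq, C_add (Nat.zero_le w) h1]
  -- more than `h` old survivors in windows of length `y2`, less than `h` in windows of length `y1`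
  have d0 : ∀ w, x + u ≤ w → w ≤ x + 2 * u → h < C S w (w + y2) := by
    intro w h1 h2
    have h3 := hA0 w h1 h2
    rw [hpin A0 w (w + y2) (by omega)] at h3
    have h4 : C (· ∈ A0) w (w + y2) ≤ C S w (w + y2) := C_mono fun v hv _ hvA => c0 v (by omega) hvA
    omega
  have d1 : ∀ w, x + u ≤ w → w ≤ x + 2 * u → C S w (w + y1) < h := by
    intro w h1 h2
    have h3 := hA1 w h1 h2
    rw [hpin A1 w (w + y1) (by omega)] at h3
    have h4 : C S w (w + y1) ≤ C (· ∈ A1) w (w + y1) := C_mono fun v hv hv' hvA => c1 v (by omega) (by omega) hvA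
    omega
  constructor
  · have h1 := d0 (x + u) le_rfl (by omega)
    have h2 : C S (x + u) (x + u + y2) ≤ C S (x + u) (x + 2 * u) := C_le (by omega)
    have h3 := hKadd (x + u) (x + 2 * u) (by omega) (by omega)
    change K (x + u) + h ≤ K (x + 2 * u)
    omega
  intro j hj1 hj2
  change K (x + u) ≤ j at hj1
  change j + h ≤ K (x + 2 * u) at hj2
  -- the last place with `K ≤ m`
  have last : ∀ m, K (x + u) ≤ m → m ≤ K (x + 2 * u) → ∃ w, x + u ≤ w ∧ w ≤ x + 2 * u ∧ K w = m ∧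
      ∀ p, x + u ≤ p → p ≤ x + 2 * u → (m < K p ↔ w < p) := by
    intro m hm1 hm2
    have hP : ∃ w, x + u ≤ w ∧ w ≤ x + 2 * u ∧ K w ≤ m := ⟨x + u, le_rfl, by omega, hm1⟩
    let w := Nat.findGreatest (fun w => x + u ≤ w ∧ w ≤ x + 2 * u ∧ K w ≤ m) (x + 2 * u)
    have hw : x + u ≤ w ∧ w ≤ x + 2 * u ∧ K w ≤ m :=
      Nat.findGreatest_spec (P := fun w => x + u ≤ w ∧ w ≤ x + 2 * u ∧ K w ≤ m) (m := x + u)
        (by omega) ⟨le_rfl, by omega, hm1⟩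
    have hmax : ∀ p, x + u ≤ p → p ≤ x + 2 * u → K p ≤ m → p ≤ w := fun p h1 h2 h3 =>
      Nat.le_findGreatest h2 ⟨h1, h2, h3⟩
    have hiff : ∀ p, x + u ≤ p → p ≤ x + 2 * u → (m < K p ↔ w < p) := by
      intro p h1 h2
      constructor
      · intro h3
        by_contra h4
        have := hKmono p w (by omega) (by omega)
        omega
      · intro h3
        by_contra h4
        have := hmax p h1 h2 (by omega)
        omega
    refine ⟨w, hw.1, hw.2.1, ?_, hiff⟩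
    rcases eq_or_lt_of_le hw.2.1 with h1 | h1
    · have : K w = K (x + 2 * u) := by rw [h1]
      omega
    · have h2 := (hiff (w + 1) (by omega) (by omega)).2 (by omega)
      have h3 := hKadd w (w + 1) (by omega) (by omega)
      have h4 : C S w (w + 1) ≤ 1 := C_succ w
      omega
  obtain ⟨w, hw1, hw2, hw3, hw4⟩ := last j hj1 (by omega)
  obtain ⟨w', hw1', hw2', hw3', hw4'⟩ := last (j + h) (by omega) hj2
  have hww : w ≤ w' := by
    by_contra hc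
    have := (hw4' w hw1 hw2).2 (by omega)
    omega
  have hC : C S w w' = h := by
    have := hKadd w w' (by omega) hww
    omega
  have e2 : w' ≤ w + y2 := by
    by_contra hc
    have h1 : C S w (w + y2) ≤ C S w w' := C_le (by omega)
    have h2 := d0 w hw1 hw2
    omega
  have e1 : w + y1 ≤ w' := by
    by_contra hc
    have h1 : C S w w' ≤ C S w (w + y1) := C_le (by omega)
    have h2 := d1 w hw1 hw2
    omega
  -- the old twins
  have hset : DP z W x u b ∩ Set.Ioc j (j + h) =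
      ((((Ioc w w').filter fun p => S p ∧ S (p + 2)).image K : Finset ℕ) : Set ℕ) := by
    ext k
    simp only [Set.mem_inter_iff, Set.mem_Ioc, coe_image, Set.mem_image, mem_coe, mem_filter, mem_Ioc]
    constructor
    · rintro ⟨⟨p, h1, h2, h3, h4, rfl⟩, h5, h6⟩
      refine ⟨p, ⟨⟨(hw4 p h1.le h2).1 h5, ?_⟩, h3, h4⟩, rfl⟩
      by_contra hc
      have := (hw4' p h1.le h2).2 (by omega)
      exact absurd h6 (not_le.2 this)
    · rintro ⟨p, ⟨⟨h1, h2⟩, h3, h4⟩, rfl⟩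
      refine ⟨⟨p, by omega, by omega, h3, h4, rfl⟩, (hw4 p (by omega) (by omega)).2 h1, ?_⟩
      by_contra hc
      have := (hw4' p (by omega) (by omega)).1 (by omega)
      omega
  have hinj : Set.InjOn K (((Ioc w w').filter fun p => S p ∧ S (p + 2) : Finset ℕ) : Set ℕ) := by
    have key : ∀ p p', w < p → p < p' → S p' → K p < K p' := by
      intro p p' h1 h2 h3
      have h4 := hKadd p p' (by omega) h2.le
      have h5 : 0 < C S p p' := by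
        unfold C
        exact card_pos.2 ⟨p', mem_filter.2 ⟨mem_Ioc.2 ⟨h2, le_rfl⟩, h3⟩⟩
      omega
    intro p hp p' hp' he
    simp only [coe_filter, mem_Ioc, Set.mem_ofPred_eq] at hp hp'
    rcases lt_trichotomy p p' with h1 | h1 | h1
    · have := key p p' hp.1.1 h1 hp'.2.1
      omega
    · exact h1
    · have := key p' p hp'.1.1 h1 hp.2.1
      omega
  have hcard : (DP z W x u b ∩ Set.Ioc j (j + h)).ncard = C (fun p => S p ∧ S (p + 2)) w w' := by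
    rw [hset, Set.ncard_coe_finset, card_image_of_injOn hinj]
    unfold C
    congr
  rw [hcard]
  constructor
  · refine (hT0 w hw1 hw2).trans ?_
    rw [tw_eq]
    have e3 : C (fun p => p ∈ A0 ∧ p + 2 ∈ A0) w (w + y1) ≤ C (fun p => S p ∧ S (p + 2)) w w' :=
      (C_mono fun v hv _ hvA => ⟨c0 v (by omega) hvA.1, c0 (v + 2) (by omega) hvA.2⟩).trans (C_le e1)
    exact_mod_cast e3
  · refine le_trans ?_ (hT1 w hw1 hw2)
    rw [tw_eq]
    have e3 : C (fun p => S p ∧ S (p + 2)) w w' ≤ C (fun p => p ∈ A1 ∧ p + 2 ∈ A1) w (w + y2) :=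
      (C_le e2).trans (C_mono fun v hv hv' hvA =>
        ⟨c1 v (by omega) (by omega) hvA.1, c1 (v + 2) (by omega) (by omega) hvA.2⟩)
    exact_mod_cast e3



theorem pick (c₂ r₁ r₂ : ℝ) (h0 : 0 < c₂) (h1 : r₁ < 2 * c₂) (h2 : 2 * c₂ < r₂) :
    ∃ t : ℝ, 0 < t ∧ t ≤ 1 / 8 ∧ (2 * c₂ + t) * (1 + 6 * t) ≤ r₂ ∧
      r₁ * (1 + t) ^ 2 ≤ (2 * c₂ - t) * (1 - 6 * t) ∧ t ≤ c₂ := by
  have e1 : ∀ᶠ t : ℝ in 𝓝 0, (2 * c₂ + t) * (1 + 6 * t) < r₂ := by
    have hc : Continuous fun t : ℝ => (2 * c₂ + t) * (1 + 6 * t) := by fun_prop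
    have := hc.tendsto' 0 (2 * c₂) (by ring)
    exact this.eventually (Iio_mem_nhds h2)
  have e2 : ∀ᶠ t : ℝ in 𝓝 0, 0 < (2 * c₂ - t) * (1 - 6 * t) - r₁ * (1 + t) ^ 2 := by
    have hc : Continuous fun t : ℝ => (2 * c₂ - t) * (1 - 6 * t) - r₁ * (1 + t) ^ 2 := by fun_prop
    have := hc.tendsto' 0 (2 * c₂ - r₁) (by ring)
    exact this.eventually (Ioi_mem_nhds (by linarith))
  have e3 : ∀ᶠ t : ℝ in 𝓝 0, t < 1 / 8 := Iio_mem_nhds (by norm_num)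
  have e4 : ∀ᶠ t : ℝ in 𝓝 0, t < c₂ := Iio_mem_nhds h0
  have e5 : ∀ᶠ t : ℝ in 𝓝[>] 0, 0 < t := self_mem_nhdsWithin
  have := (((e1.and e2).and (e3.and e4)).filter_mono (nhdsWithin_le_nhds (s := Set.Ioi 0))).and e5
  obtain ⟨t, ⟨⟨h3, h4⟩, h5, h6⟩, h7⟩ := this.exists
  exact ⟨t, h7, h5.le, h3.le, by linarith, h6.le⟩

theorem evX (t : ℝ) (ht0 : 0 < t) : ∀ᶠ X : ℕ in atTop,
    3 ≤ X ∧ 1 ≤ Real.log X ∧ Real.log 6 ≤ t * Real.log X ∧ 1 ≤ hX X ∧ 1 ≤ 3 * t * (hX X * Real.log X) ∧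
    (6 * (X : ℝ)) ^ (0.004 : ℝ) ≤ (hX X * Real.log X) / 4 ∧ 2 * (hX X * Real.log X) + 3 ≤ uX X ∧ 3 * uX X ≤ X := by
  have hlog : Tendsto (fun X : ℕ => Real.log X) atTop atTop :=
    Real.tendsto_log_atTop.comp tendsto_natCast_atTop_atTop
  have hp : Tendsto (fun X : ℕ => (X : ℝ) ^ (0.001 : ℝ)) atTop atTop :=
    (tendsto_rpow_atTop (by norm_num)).comp tendsto_natCast_atTop_atTop
  have hl : ∀ᶠ X : ℕ in atTop, Real.log X ≤ (X : ℝ) ^ (0.1 : ℝ) := by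
    have h1 := (isLittleO_log_rpow_atTop (r := 0.1) (by norm_num)).bound (c := 1) one_pos
    have h2 := tendsto_natCast_atTop_atTop.eventually h1
    filter_upwards [h2, eventually_ge_atTop 1] with X h3 h4
    have h5 : (1 : ℝ) ≤ X := by exact_mod_cast h4
    rw [Real.norm_of_nonneg (Real.log_nonneg h5), Real.norm_of_nonneg (by positivity), one_mul] at h3
    exact h3
  filter_upwards [eventually_ge_atTop 3, hlog.eventually_ge_atTop 1, hlog.eventually_ge_atTop (Real.log 6 / t),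
    hlog.eventually_ge_atTop (1 / (3 * t)), hp.eventually_ge_atTop 48, hl] with X h1 h2 h3 h4 h5 h6
  have hX1 : (1 : ℝ) ≤ X := by exact_mod_cast (by omega : 1 ≤ X)
  have hX0 : (0 : ℝ) < X := by linarith
  have a1 : (X : ℝ) ^ (0.005 : ℝ) = (X : ℝ) ^ (0.004 : ℝ) * (X : ℝ) ^ (0.001 : ℝ) := by
    rw [← Real.rpow_add hX0]; norm_num
  have a2 : (1 : ℝ) ≤ (X : ℝ) ^ (0.004 : ℝ) := Real.one_le_rpow hX1 (by norm_num)
  have a3 : 48 * (X : ℝ) ^ (0.004 : ℝ) ≤ (X : ℝ) ^ (0.005 : ℝ) := by rw [a1]; nlinarith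
  have a4 : (X : ℝ) ^ (0.005 : ℝ) < hX X + 1 := Nat.lt_floor_add_one _
  have a5 : (hX X : ℝ) ≤ (X : ℝ) ^ (0.005 : ℝ) := Nat.floor_le (by positivity)
  have a6 : (47 : ℝ) < hX X := by linarith
  have a7 : 1 ≤ hX X := by
    have : (1 : ℝ) ≤ hX X := by linarith
    exact_mod_cast this
  have a8 : (6 * (X : ℝ)) ^ (0.004 : ℝ) ≤ 6 * (X : ℝ) ^ (0.004 : ℝ) := by
    rw [Real.mul_rpow (by norm_num) hX0.le]
    have : (6 : ℝ) ^ (0.004 : ℝ) ≤ 6 ^ (1 : ℝ) := Real.rpow_le_rpow_of_exponent_le (by norm_num) (by norm_num)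
    rw [Real.rpow_one] at this
    exact mul_le_mul_of_nonneg_right this (by positivity)
  have b1 : (X : ℝ) ^ (0.511 : ℝ) < uX X + 1 := Nat.lt_floor_add_one _
  have b2 : (X : ℝ) ^ (0.511 : ℝ) = (X : ℝ) ^ (0.005 : ℝ) * (X : ℝ) ^ (0.1 : ℝ) * (X : ℝ) ^ (0.406 : ℝ) := by
    rw [← Real.rpow_add hX0, ← Real.rpow_add hX0]; norm_num
  have b3 : (48 : ℝ) ≤ (X : ℝ) ^ (0.406 : ℝ) := h5.trans (Real.rpow_le_rpow_of_exponent_le hX1 (by norm_num))
  have b4 : (1 : ℝ) ≤ (X : ℝ) ^ (0.1 : ℝ) := Real.one_le_rpow hX1 (by norm_num)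
  have b5 : (hX X : ℝ) * Real.log X ≤ (X : ℝ) ^ (0.005 : ℝ) * (X : ℝ) ^ (0.1 : ℝ) :=
    mul_le_mul a5 h6 (by linarith) (by positivity)
  have b6 : (1 : ℝ) ≤ (X : ℝ) ^ (0.005 : ℝ) * (X : ℝ) ^ (0.1 : ℝ) := by nlinarith
  refine ⟨h1, h2, ?_, a7, ?_, ?_, ?_, ?_⟩
  · rw [div_le_iff₀ ht0] at h3; linarith
  · rw [div_le_iff₀ (by positivity)] at h4
    have : (1 : ℝ) ≤ hX X := by linarith
    nlinarith
  · have : (hX X : ℝ) ≤ hX X * Real.log X := by nlinarith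
    linarith
  · nlinarith
  · have d1 : (uX X : ℝ) ≤ (X : ℝ) ^ (0.511 : ℝ) := Nat.floor_le (by positivity)
    have d2 : (X : ℝ) ^ (0.511 : ℝ) * (X : ℝ) ^ (0.489 : ℝ) = X := by
      rw [← Real.rpow_add hX0]; norm_num
    have d3 : (48 : ℝ) ≤ (X : ℝ) ^ (0.489 : ℝ) := h5.trans (Real.rpow_le_rpow_of_exponent_le hX1 (by norm_num))
    have d4 : (0 : ℝ) ≤ (X : ℝ) ^ (0.511 : ℝ) := by positivity
    have d5 : (3 : ℝ) * uX X ≤ X := by nlinarith
    exact_mod_cast d5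

/-- the numbers in the windows -/
theorem win4 (t c₂ r₁ r₂ N L ℓ h y : ℝ) (ht0 : 0 < t) (ht : t ≤ 1 / 8) (hc : 0 < c₂) (htc : t ≤ c₂)
    (hℓ : 1 ≤ ℓ) (hL : ℓ ≤ L) (hL' : L ≤ (1 + t) * ℓ) (hh : 1 ≤ h) (hbig : 1 ≤ 3 * t * (h * ℓ)) :
    ((1 + 3 * t) * (h * ℓ) ≤ y → |N * L / y - 1| ≤ t → h < N) ∧
    (0 < y → y ≤ (1 - 3 * t) * (h * ℓ) → |N * L / y - 1| ≤ t → N < h) ∧
    (0 < y → y ≤ (1 + 6 * t) * (h * ℓ) → (2 * c₂ + t) * (1 + 6 * t) ≤ r₂ → |N * L ^ 2 / y - 2 * c₂| ≤ t →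
      N ≤ r₂ / ℓ * h) ∧
    ((1 - 6 * t) * (h * ℓ) ≤ y → r₁ * (1 + t) ^ 2 ≤ (2 * c₂ - t) * (1 - 6 * t) → |N * L ^ 2 / y - 2 * c₂| ≤ t →
      r₁ / ℓ * h ≤ N) := by
  have hhl : 0 < h * ℓ := by positivity
  have hL0 : 0 < L := by linarith
  have hℓ0 : 0 < ℓ := by linarith
  refine ⟨?_, ?_, ?_, ?_⟩
  · intro h1 h2
    have hy : 0 < y := lt_of_lt_of_le (by positivity) h1
    have h3 := (abs_le.1 h2).1
    have h4 : (1 - t) * y ≤ N * L := by
      have : 1 - t ≤ N * L / y := by linarith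
      rwa [le_div_iff₀ hy] at this
    by_contra hcon
    have h5 : N ≤ h := not_lt.1 hcon
    have h6 : N * L ≤ h * ((1 + t) * ℓ) :=
      (mul_le_mul_of_nonneg_right h5 hL0.le).trans (mul_le_mul_of_nonneg_left hL' (by linarith))
    have h7 : (1 - t) * ((1 + 3 * t) * (h * ℓ)) ≤ (1 - t) * y := mul_le_mul_of_nonneg_left h1 (by linarith)
    have h8 : (1 - t) * (1 + 3 * t) * (h * ℓ) ≤ (1 + t) * (h * ℓ) := by nlinarith
    have h9 : (1 - t) * (1 + 3 * t) ≤ 1 + t := le_of_mul_le_mul_right h8 hhl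
    nlinarith
  · intro hy h1 h2
    have h3 := (abs_le.1 h2).2
    have h4 : N * L ≤ (1 + t) * y := by
      have : N * L / y ≤ 1 + t := by linarith
      rwa [div_le_iff₀ hy] at this
    by_contra hcon
    have h5 : h ≤ N := not_lt.1 hcon
    have h6 : h * ℓ ≤ N * L := mul_le_mul h5 hL hℓ0.le (by linarith)
    have h7 : (1 + t) * y ≤ (1 + t) * ((1 - 3 * t) * (h * ℓ)) := mul_le_mul_of_nonneg_left h1 (by linarith)
    have h8 : 1 * (h * ℓ) ≤ (1 + t) * (1 - 3 * t) * (h * ℓ) := by nlinarith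
    have h9 : 1 ≤ (1 + t) * (1 - 3 * t) := le_of_mul_le_mul_right h8 hhl
    nlinarith
  · intro hy h1 hr h2
    have h3 := (abs_le.1 h2).2
    have h4 : N * L ^ 2 ≤ (2 * c₂ + t) * y := by
      have : N * L ^ 2 / y ≤ 2 * c₂ + t := by linarith
      rwa [div_le_iff₀ hy] at this
    have h5 : N * L ^ 2 ≤ r₂ * (h * ℓ) := by
      calc N * L ^ 2 ≤ (2 * c₂ + t) * y := h4
        _ ≤ (2 * c₂ + t) * ((1 + 6 * t) * (h * ℓ)) := mul_le_mul_of_nonneg_left h1 (by linarith)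
        _ = (2 * c₂ + t) * (1 + 6 * t) * (h * ℓ) := by ring
        _ ≤ r₂ * (h * ℓ) := mul_le_mul_of_nonneg_right hr hhl.le
    have hr0 : 0 < r₂ := lt_of_lt_of_le (by positivity) hr
    rcases le_or_gt N 0 with h6 | h6
    · exact h6.trans (by positivity)
    · have h7 : N * ℓ ^ 2 ≤ r₂ * (h * ℓ) :=
        (mul_le_mul_of_nonneg_left (pow_le_pow_left₀ hℓ0.le hL 2) h6.le).trans h5
      have h8 : N * ℓ ≤ r₂ * h := by
        have : (N * ℓ) * ℓ ≤ (r₂ * h) * ℓ := by nlinarith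
        exact le_of_mul_le_mul_right this hℓ0
      rw [div_mul_eq_mul_div, le_div_iff₀ hℓ0]
      exact h8
  · intro h1 hr h2
    have hy : 0 < y := lt_of_lt_of_le (mul_pos (by linarith) hhl) h1
    have h3 := (abs_le.1 h2).1
    have h4 : (2 * c₂ - t) * y ≤ N * L ^ 2 := by
      have : 2 * c₂ - t ≤ N * L ^ 2 / y := by linarith
      rwa [le_div_iff₀ hy] at this
    have hN : 0 ≤ N := by
      have h5 : 0 ≤ N * L ^ 2 := le_trans (mul_nonneg (by linarith) hy.le) h4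
      by_contra hcon
      have : N * L ^ 2 < 0 := mul_neg_of_neg_of_pos (not_le.1 hcon) (by positivity)
      linarith
    have h5 : r₁ * (1 + t) ^ 2 * (h * ℓ) ≤ N * ((1 + t) * ℓ) ^ 2 := by
      calc r₁ * (1 + t) ^ 2 * (h * ℓ) ≤ (2 * c₂ - t) * (1 - 6 * t) * (h * ℓ) := mul_le_mul_of_nonneg_right hr hhl.le
        _ = (2 * c₂ - t) * ((1 - 6 * t) * (h * ℓ)) := by ring
        _ ≤ (2 * c₂ - t) * y := mul_le_mul_of_nonneg_left h1 (by linarith)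
        _ ≤ N * L ^ 2 := h4
        _ ≤ N * ((1 + t) * ℓ) ^ 2 := mul_le_mul_of_nonneg_left (pow_le_pow_left₀ hL0.le hL' 2) hN
    have h6 : r₁ * h ≤ N * ℓ := by
      have h7 : (r₁ * h) * ((1 + t) ^ 2 * ℓ) ≤ (N * ℓ) * ((1 + t) ^ 2 * ℓ) := by nlinarith
      exact le_of_mul_le_mul_right h7 (by positivity)
    rw [div_mul_eq_mul_div, div_le_iff₀ hℓ0]
    exact h6


theorem asm (z z1 W b : ℕ → ℕ) (hz : Monotone z) (hz1 : ∀ x v, v ≤ 2 * x → z1 v ≤ z x) (t c₂ r₁ r₂ : ℝ)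
    (ht0 : 0 < t) (ht : t ≤ 1 / 8) (hc : 0 < c₂) (htc : t ≤ c₂) (hr2 : (2 * c₂ + t) * (1 + 6 * t) ≤ r₂)
    (hr1 : r₁ * (1 + t) ^ 2 ≤ (2 * c₂ - t) * (1 - 6 * t)) (w0 w1 : ℕ)
    (H0 : ∀ w, w0 ≤ w → ∀ y : ℕ, (w : ℝ) ^ (0.004 : ℝ) ≤ y → y ≤ w →
      |((pin (RS z W b) (w + y) : ℝ) - pin (RS z W b) w) * Real.log w / y - 1| ≤ t ∧
      |(tw (RS z W b) w (w + y) : ℝ) * Real.log w ^ 2 / y - 2 * c₂| ≤ t)
    (H1 : ∀ w, w1 ≤ w → ∀ y : ℕ, (w : ℝ) ^ (0.004 : ℝ) ≤ y → y ≤ w →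
      |((pin (RS z1 W b) (w + y) : ℝ) - pin (RS z1 W b) w) * Real.log w / y - 1| ≤ t ∧
      |(tw (RS z1 W b) w (w + y) : ℝ) * Real.log w ^ 2 / y - 2 * c₂| ≤ t) :
    ∀ᶠ X : ℕ in atTop, ∀ x, X ≤ x → x ≤ 3 * X →
      KP z W x (x + uX X) b + hX X ≤ KP z W x (x + 2 * uX X) b ∧
      ∀ j, KP z W x (x + uX X) b ≤ j → j + hX X ≤ KP z W x (x + 2 * uX X) b →
        r₁ / Real.log X * hX X ≤ ((DP z W x (uX X) b ∩ Set.Ioc j (j + hX X)).ncard : ℝ) ∧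
        ((DP z W x (uX X) b ∩ Set.Ioc j (j + hX X)).ncard : ℝ) ≤ r₂ / Real.log X * hX X := by
  filter_upwards [evX t ht0, eventually_ge_atTop w0, eventually_ge_atTop w1] with X hev hw0 hw1
  obtain ⟨h3, hl1, hl6, hh1, hbig, hpow, hu2, huX⟩ := hev
  intro x hx1 hx3
  have hH1 : (1 : ℝ) ≤ hX X := by exact_mod_cast hh1
  set M : ℝ := hX X * Real.log X with hM
  have hM0 : 0 < M := by positivity
  have hX0 : (0 : ℝ) < X := by exact_mod_cast (by omega : 0 < X)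
  have hy1a : (⌊(1 - 3 * t) * M⌋₊ : ℝ) ≤ (1 - 3 * t) * M :=
    Nat.floor_le (mul_nonneg (by linarith) hM0.le)
  have hy1b : (1 - 6 * t) * M ≤ (⌊(1 - 3 * t) * M⌋₊ : ℝ) := by
    have := Nat.lt_floor_add_one ((1 - 3 * t) * M)
    linarith
  have hy2a : (1 + 3 * t) * M ≤ (⌈(1 + 3 * t) * M⌉₊ : ℝ) := Nat.le_ceil _
  have hy2c : (⌈(1 + 3 * t) * M⌉₊ : ℝ) < (1 + 3 * t) * M + 1 := Nat.ceil_lt_add_one (by positivity)
  have hy2b : (⌈(1 + 3 * t) * M⌉₊ : ℝ) ≤ (1 + 6 * t) * M := by linarith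
  set y1 : ℕ := ⌊(1 - 3 * t) * M⌋₊ with hy1
  set y2 : ℕ := ⌈(1 + 3 * t) * M⌉₊ with hy2
  have htM : t * M ≤ 1 / 8 * M := mul_le_mul_of_nonneg_right ht hM0.le
  have htM0 : 0 < t * M := by positivity
  have hy12 : y1 ≤ y2 := by
    have : (y1 : ℝ) ≤ y2 := by linarith
    exact_mod_cast this
  have hy2u : y2 + 2 ≤ uX X := by
    have : (y2 : ℝ) + 2 ≤ uX X := by linarith
    exact_mod_cast this
  have hy1M : M / 4 ≤ y1 := by linarith
  have hy10 : (0 : ℝ) < y1 := by linarith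
  have hy20 : (0 : ℝ) < y2 := lt_of_lt_of_le hy10 (by exact_mod_cast hy12)
  -- the windows
  have hwin : ∀ w, x + uX X ≤ w → w ≤ x + 2 * uX X → w0 ≤ w ∧ w1 ≤ w ∧ y1 ≤ w ∧ y2 ≤ w ∧
      (w : ℝ) ^ (0.004 : ℝ) ≤ y1 ∧ (w : ℝ) ^ (0.004 : ℝ) ≤ y2 ∧ Real.log X ≤ Real.log w ∧
      Real.log w ≤ (1 + t) * Real.log X := by
    intro w h1 h2
    have h4 : (w : ℝ) ≤ 6 * X := by exact_mod_cast (by omega : w ≤ 6 * X)
    have h5 : (X : ℝ) ≤ w := by exact_mod_cast (by omega : X ≤ w)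
    have h6 : (w : ℝ) ^ (0.004 : ℝ) ≤ y1 :=
      (Real.rpow_le_rpow (by positivity) h4 (by norm_num)).trans (hpow.trans hy1M)
    refine ⟨by omega, by omega, by omega, by omega, h6, h6.trans (by exact_mod_cast hy12), Real.log_le_log hX0 h5, ?_⟩
    have h7 : Real.log w ≤ Real.log (6 * X) := Real.log_le_log (hX0.trans_le h5) h4
    rw [Real.log_mul (by norm_num) hX0.ne'] at h7
    linarith
  refine comb z z1 W b hz x (uX X) (hX X) y1 y2 (r₁ / Real.log X) (r₂ / Real.log X) (by omega)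
    (fun v _ hv => hz1 x v (by omega)) hy12 hy2u ?_ ?_ ?_ ?_
  · intro w h1 h2
    obtain ⟨a1, a2, a3, a4, a5, a6, a7, a8⟩ := hwin w h1 h2
    have hA := (H0 w a1 y2 a6 a4).1
    have := (win4 t c₂ r₁ r₂ ((pin (RS z W b) (w + y2) : ℝ) - pin (RS z W b) w) (Real.log w) (Real.log X) (hX X) y2
      ht0 ht hc htc hl1 a7 a8 hH1 hbig).1 hy2a hA
    have h4 : (pin (RS z W b) w : ℝ) + hX X < pin (RS z W b) (w + y2) := by linarith
    exact_mod_cast h4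
  · intro w h1 h2
    obtain ⟨a1, a2, a3, a4, a5, a6, a7, a8⟩ := hwin w h1 h2
    have hA := (H1 w a2 y1 a5 a3).1
    have := (win4 t c₂ r₁ r₂ ((pin (RS z1 W b) (w + y1) : ℝ) - pin (RS z1 W b) w) (Real.log w) (Real.log X) (hX X) y1
      ht0 ht hc htc hl1 a7 a8 hH1 hbig).2.1 hy10 hy1a hA
    have h4 : (pin (RS z1 W b) (w + y1) : ℝ) < pin (RS z1 W b) w + hX X := by linarith
    exact_mod_cast h4
  · intro w h1 h2
    obtain ⟨a1, a2, a3, a4, a5, a6, a7, a8⟩ := hwin w h1 h2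
    have hA := (H1 w a2 y2 a6 a4).2
    exact (win4 t c₂ r₁ r₂ (tw (RS z1 W b) w (w + y2)) (Real.log w) (Real.log X) (hX X) y2
      ht0 ht hc htc hl1 a7 a8 hH1 hbig).2.2.1 hy20 hy2b hr2 hA
  · intro w h1 h2
    obtain ⟨a1, a2, a3, a4, a5, a6, a7, a8⟩ := hwin w h1 h2
    have hA := (H0 w a1 y1 a5 a3).2
    exact (win4 t c₂ r₁ r₂ (tw (RS z W b) w (w + y1)) (Real.log w) (Real.log X) (hX X) y1
      ht0 ht hc htc hl1 a7 a8 hH1 hbig).2.2.2 hy1b hr1 hA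

end WREGN

theorem wreg : S_WREG := by
  intro hWIN hZD c c₂ hc hc2 hC2 b hOK hOK1 r₁ r₂ _ hr1 hr2
  obtain ⟨t, ht0, ht, h2, h1, htc⟩ := WREGN.pick c₂ r₁ r₂ hc2 hr1 hr2
  have hz : Limit z0 := ⟨z0_mono, z0_lim⟩
  have hz1 : Limit (zd (1 / 2)) := hZD (1 / 2) (by norm_num) (by norm_num)
  obtain ⟨w0, H0⟩ := eventually_atTop.1 (hWIN z0 hz c c₂ hc hC2 b hOK 0.004 t (by norm_num) ht0)
  obtain ⟨w1, H1⟩ := eventually_atTop.1 (hWIN (zd (1 / 2)) hz1 c c₂ hc hC2 b hOK1 0.004 t (by norm_num) ht0)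
  refine WREGN.asm z0 (zd (1 / 2)) (WW c) b z0_mono ?_ t c₂ r₁ r₂ ht0 ht hc2 htc h2 h1 w0 w1 H0 H1
  intro x v hv
  unfold zd
  refine z0_mono (Nat.floor_le_of_le ?_)
  have : (v : ℝ) ≤ 2 * x := by exact_mod_cast hv
  linarith

end Pool.Agent.H531.IX
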