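import Pool.Agent.H531.IX.Stm5

set_option autoImplicit false

/-! # The window theorem from its three inputs (`S_WT5`) -/

open Finset MeasureTheory ProbabilityTheory Filter Topology

namespace Pool.Agent.H531.IX

open Pool.Agent.T2H31.HV (Pt Ev Dep)
open Pool.Agent.T2H32.BF (Model z0 V)
open Pool.Agent.H559.BS (Limit)
open Pool.Agent.H559.HY (OK WW Cut TG)
open Pool.Agent.T2H32.GB (C2)

namespace WT5N

theorem step (F G y T L e : ℝ) (m k : ℕ) (hL : 1 ≤ L) (hy : 0 < y) (hT : 0 < T)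
    (h : |G - F / L ^ k| ≤ e * (F / L ^ k + y / L ^ (k + m))) :
    |G * L ^ (k + m) / (y * T) - F * L ^ m / (y * T)| ≤ e * (F * L ^ m / (y * T) + 1 / T) := by
  have hL0 : 0 < L := by linarith
  have hc : 0 < L ^ (k + m) / (y * T) := by positivity
  have h1 := mul_le_mul_of_nonneg_right h hc.le
  have e1 : |G * L ^ (k + m) / (y * T) - F * L ^ m / (y * T)| =
      |G - F / L ^ k| * (L ^ (k + m) / (y * T)) := by
    rw [← abs_of_pos hc, ← abs_mul]
    congr 1
    rw [pow_add]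
    field_simp
  have e2 : e * (F / L ^ k + y / L ^ (k + m)) * (L ^ (k + m) / (y * T)) =
      e * (F * L ^ m / (y * T) + 1 / T) := by
    rw [pow_add]
    field_simp
  rw [e1, ← e2]
  exact h1

theorem core (F0 F1 F2 y T L M e : ℝ) (i k : ℕ) (hL : 1 ≤ L) (hy : 0 < y) (hT : 0 < T)
    (hTM : 1 / T ≤ M) (he : 0 < e) (he1 : e ≤ 1)
    (h1 : |F0 * L ^ 2 / (y * T) - 1| ≤ e)
    (h2 : |F1 - F0 / L ^ k| ≤ e * (F0 / L ^ k + y / L ^ (k + 2)))
    (h3 : |F2 - F1 / L ^ i| ≤ e * (F1 / L ^ i + y / L ^ (i + k + 2))) :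
    |F2 * L ^ (i + k + 2) / (y * T) - 1| ≤ e * (7 + 3 * M) := by
  have a1 := step F0 F1 y T L e 2 k hL hy hT h2
  have a2 := step F1 F2 y T L e (k + 2) i hL hy hT (by rw [← add_assoc]; exact h3)
  rw [← add_assoc] at a2
  set a := F0 * L ^ 2 / (y * T) with ha
  set b := F1 * L ^ (k + 2) / (y * T) with hb
  set d := F2 * L ^ (i + k + 2) / (y * T) with hd
  have hT0 : 0 < 1 / T := by positivity
  have b1 := abs_le.1 h1
  have b2 := abs_le.1 a1
  have b3 := abs_le.1 a2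
  have c1 : a ≤ 2 := by linarith
  have c2 : e * (a + 1 / T) ≤ e * (2 + M) := mul_le_mul_of_nonneg_left (by linarith) he.le
  have c3 : e * (2 + M) ≤ 2 + M := by
    have : 0 ≤ 2 + M := by linarith
    nlinarith
  have c4 : b ≤ 4 + M := by linarith [b2.2]
  have c5 : e * (b + 1 / T) ≤ e * (4 + 2 * M) := mul_le_mul_of_nonneg_left (by linarith) he.le
  rw [abs_le]
  constructor
  · linarith [b1.1, b2.1, b3.1]
  · linarith [b1.2, b2.2, b3.2]

end WT5N

open WT5N in
theorem wt5 : S_WT5 := by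
  intro A c₂ i k C hc₂ h1 h2 h3 ε hε
  set M : ℝ := 1 / (2 * c₂) with hM
  have hM0 : 0 < M := by rw [hM]; positivity
  set e : ℝ := min 1 (ε / (7 + 3 * M)) with he
  have he0 : 0 < e := lt_min one_pos (by positivity)
  have he1 : e ≤ 1 := min_le_left _ _
  have he2 : e * (7 + 3 * M) ≤ ε := by
    have : e ≤ ε / (7 + 3 * M) := min_le_right _ _
    rwa [le_div_iff₀ (by positivity)] at this
  have hlog : Tendsto (fun n : ℕ => Real.log n) atTop atTop :=
    Real.tendsto_log_atTop.comp tendsto_natCast_atTop_atTop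
  filter_upwards [h1 e he0, h2 e he0, h3 e he0, hlog.eventually_ge_atTop 1, eventually_ge_atTop 1]
    with n g1 g2 g3 hL hn u y hu hy hyu huy
  have hn1 : (1 : ℝ) ≤ n := by exact_mod_cast hn
  have hy0 : (0 : ℝ) < y := by
    have : (1 : ℝ) ≤ (n : ℝ) ^ (0.995 : ℝ) := Real.one_le_rpow hn1 (by norm_num)
    linarith
  have hyu' : y ≤ u := by
    have a1 : (u : ℝ) / Real.log n ^ (k + 3) ≤ u :=
      div_le_self (Nat.cast_nonneg _) (one_le_pow₀ hL)
    exact_mod_cast hyu.trans a1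
  have hT := Pool.Agent.H559.HY.TG_ge c₂ hc₂ (2 * n)
  have hT0 : 0 < TG c₂ (2 * n) := by linarith
  have hTM : 1 / TG c₂ (2 * n) ≤ M := one_div_le_one_div_of_le (by linarith) hT
  exact (core _ _ _ _ _ _ M e i k hL hy0 hT0 hTM he0 he1 (g1 u y hu hy hyu' huy.le)
    (g2 u y hu hy hyu huy) (g3 u y hy huy)).trans he2

end Pool.Agent.H531.IX
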